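import Pool.Agent.H77.SG.Heights

/-!
# Vertices and ordinary edges of a block

Descriptions of `bV` and `bP`, and the list of blocks. In a strip the ordinary edges are ordered from
bottom to top: their left and right slots increase.

PROOFS. Unfold (`List.mem_flatMap`, `List.mem_map`, `List.mem_filter`, `List.mem_range`); for
`bP_order` unfold `has` and `tgt`, split on the kind `I.1` (by `WFI` it is at most `6`) and on
`l < 4` (`interval_cases`), then `omega`.
-/

set_option autoImplicit false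

namespace Pool.Agent.H77.SG

theorem WFI_kind {I : ℕ × ℕ × ℕ × List Bool} {S : List Bool} (h : WFI I S) : I.1 ≤ 6 := by
  unfold WFI at h
  split_ifs at h
  any_goals omega

theorem WFI_pos {I : ℕ × ℕ × ℕ × List Bool} {S : List Bool} (h : WFI I S) :
    I.2.1 ≤ S.length ∧ (I.1 = 2 → I.2.1 < S.length) ∧ (3 ≤ I.1 → I.2.1 + 3 ≤ S.length) ∧
      (I.1 ≤ 1 → 1 ≤ I.2.2.2.length) := by
  have hne : ∀ l : List Bool, l ≠ [] → 1 ≤ l.length := fun l hl => List.length_pos_iff.2 hl
  unfold WFI at h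
  split_ifs at h with h0 h1 h2 h3 h4 h5
  · exact ⟨h.1, fun _ => by omega, fun _ => by omega, fun _ => hne _ h.2⟩
  · exact ⟨h.1, fun _ => by omega, fun _ => by omega, fun _ => hne _ h.2.1⟩
  · exact ⟨by omega, fun _ => h, fun _ => by omega, fun _ => by omega⟩
  · exact ⟨by omega, fun _ => by omega, fun _ => h.1, fun _ => by omega⟩
  · exact ⟨by omega, fun _ => by omega, fun _ => h.1, fun _ => by omega⟩
  · exact ⟨by omega, fun _ => by omega, fun _ => h.1, fun _ => by omega⟩
  · exact ⟨by omega, fun _ => by omega, fun _ => h.2.1, fun _ => by omega⟩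

theorem mem_bV {b : ℕ} {S : List Bool} {I : ℕ × ℕ × ℕ × List Bool} {v : ℕ × ℕ × ℕ} :
    v ∈ bV b S I ↔ ∃ l k e, l < 4 ∧ k ≤ S.length ∧ e < 3 ∧
      pres I.1 I.2.1 S.length l k e = true ∧ v = (4 * b + l, k, e) := by
  unfold bV
  simp only [List.mem_flatMap, List.mem_range, List.mem_map, List.mem_filter]
  constructor
  · rintro ⟨l, hl, k, hk, e, ⟨he, hp⟩, rfl⟩
    exact ⟨l, k, e, hl, by omega, he, hp, rfl⟩
  · rintro ⟨l, k, e, hl, hk, he, hp, rfl⟩
    exact ⟨l, hl, k, by omega, e, ⟨he, hp⟩, rfl⟩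

theorem nodup_bV (b : ℕ) (S : List Bool) (I : ℕ × ℕ × ℕ × List Bool) : (bV b S I).Nodup := by
  unfold bV
  rw [List.nodup_flatMap]
  refine ⟨fun l _ => ?_, ?_⟩
  · rw [List.nodup_flatMap]
    refine ⟨fun k _ => ?_, ?_⟩
    · refine (List.nodup_range.filter _).map ?_
      intro e e' he
      simpa using he
    · refine List.nodup_range.pairwise_of_forall_ne fun k _ k' _ hkk => ?_
      intro x hx hx'
      obtain ⟨e, -, rfl⟩ := List.mem_map.1 hx
      obtain ⟨e', -, he'⟩ := List.mem_map.1 hx'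
      simp only [Prod.mk.injEq] at he'
      exact hkk he'.2.1.symm
  · refine List.nodup_range.pairwise_of_forall_ne fun l _ l' _ hll => ?_
    intro x hx hx'
    obtain ⟨k, -, hx⟩ := List.mem_flatMap.1 hx
    obtain ⟨k', -, hx'⟩ := List.mem_flatMap.1 hx'
    obtain ⟨e, -, rfl⟩ := List.mem_map.1 hx
    obtain ⟨e', -, he'⟩ := List.mem_map.1 hx'
    simp only [Prod.mk.injEq] at he'
    omega

theorem mem_bP {b : ℕ} {S : List Bool} {I : ℕ × ℕ × ℕ × List Bool} {q : ℕ × ℕ × ℕ × Bool} :
    q ∈ bP b S I ↔ (I.1 ≤ 1 ∧ I.2.1 ≤ S.length ∧ ∃ j < I.2.2.2.length,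
        q = (4 * b + 3, I.2.1, I.2.1 + j, I.2.2.2.getD j false)) ∨
      ∃ l k, l < 4 ∧ k ≤ S.length ∧ ¬ (I.1 ≤ 1 ∧ l = 3 ∧ k = I.2.1) ∧
        has I.1 I.2.1 S.length l k = true ∧
        q = (4 * b + l, k, tgt I.1 I.2.1 I.2.2.2.length l k, sgn I.1 I.2.1 S l k) := by
  unfold bP
  simp only [List.mem_flatMap, List.mem_range]
  constructor
  · rintro ⟨l, hl, k, hk, hq⟩
    by_cases h1 : I.1 ≤ 1 ∧ l = 3 ∧ k = I.2.1
    · rw [if_pos h1] at hq
      obtain ⟨j, hj, rfl⟩ := List.mem_map.1 hq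
      obtain ⟨h1, h2, h3⟩ := h1
      rw [List.mem_range] at hj
      refine Or.inl ⟨h1, by omega, j, hj, ?_⟩
      rw [h3]
    · rw [if_neg h1] at hq
      by_cases h2 : has I.1 I.2.1 S.length l k = true
      · rw [if_pos h2, List.mem_singleton] at hq
        exact Or.inr ⟨l, k, hl, by omega, h1, h2, hq⟩
      · rw [if_neg h2] at hq
        exact absurd hq List.not_mem_nil
  · rintro (⟨h1, h2, j, hj, rfl⟩ | ⟨l, k, hl, hk, h1, h2, rfl⟩)
    · refine ⟨3, by omega, I.2.1, by omega, ?_⟩
      rw [if_pos ⟨h1, rfl, rfl⟩]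
      exact List.mem_map.2 ⟨j, List.mem_range.2 hj, rfl⟩
    · refine ⟨l, hl, k, by omega, ?_⟩
      rw [if_neg h1, if_pos h2]
      exact List.mem_singleton.2 rfl

/-- The lines and slots of ordinary edges. -/
theorem bP_range {b : ℕ} {S : List Bool} {I : ℕ × ℕ × ℕ × List Bool} (hI : WFI I S)
    {q : ℕ × ℕ × ℕ × Bool} (hq : q ∈ bP b S I) :
    4 * b ≤ q.1 ∧ q.1 ≤ 4 * b + 3 ∧ q.2.1 ≤ S.length := by
  rcases mem_bP.1 hq with ⟨h1, h2, j, hj, rfl⟩ | ⟨l, k, hl, hk, h1, h2, rfl⟩
  · exact ⟨by omega, by omega, h2⟩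
  · exact ⟨by omega, by omega, hk⟩

/-- The target slots increase. -/
theorem bp_tgt_lt {t p n W l k k' : ℕ} (ht : t ≤ 6) (hl : l < 4) (hn : t ≤ 1 → 1 ≤ n)
    (h : has t p W l k = true) (h' : has t p W l k' = true) (hk : k < k') :
    tgt t p n l k < tgt t p n l k' := by
  unfold has at h h'
  unfold tgt
  interval_cases t <;> interval_cases l <;>
    simp only [Nat.reduceLeDiff, Nat.reduceEqDiff, if_true, if_false, Bool.and_eq_true,
      Bool.not_eq_true', decide_eq_true_eq, decide_eq_false_iff_not, Bool.and_eq_false_imp,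
      zero_le, le_refl] at h h' hn ⊢ <;>
    (try split_ifs) <;> omega

/-- Two ordinary edges in the same strip are ordered. -/
theorem bP_order {b : ℕ} {S : List Bool} {I : ℕ × ℕ × ℕ × List Bool} (hI : WFI I S)
    {q q' : ℕ × ℕ × ℕ × Bool} (hq : q ∈ bP b S I) (hq' : q' ∈ bP b S I) (hT : q.1 = q'.1)
    (hne : q ≠ q') : (q.2.1 ≤ q'.2.1 ∧ q.2.2.1 < q'.2.2.1) ∨
      (q'.2.1 ≤ q.2.1 ∧ q'.2.2.1 < q.2.2.1) := by
  have h6 := WFI_kind hI
  obtain ⟨-, -, -, hn⟩ := WFI_pos hI
  rcases mem_bP.1 hq with ⟨a1, a2, j, hj, rfl⟩ | ⟨l, k, hl, hk, a1, a2, rfl⟩ <;>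
    rcases mem_bP.1 hq' with ⟨b1, b2, j', hj', rfl⟩ | ⟨l', k', hl', hk', b1, b2, rfl⟩
  · have hjj : j ≠ j' := by
      rintro rfl
      exact hne rfl
    simp only
    omega
  · simp only at hT
    have hl3 : l' = 3 := by omega
    subst hl3
    have hk3 : k' ≠ I.2.1 := fun h => b1 ⟨a1, rfl, h⟩
    simp only [tgt, if_pos a1]
    simp only [Nat.reduceLeDiff, Nat.reduceEqDiff, if_false]
    split_ifs with h7 <;> omega
  · simp only at hT
    have hl3 : l = 3 := by omega
    subst hl3
    have hk3 : k ≠ I.2.1 := fun h => a1 ⟨b1, rfl, h⟩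
    simp only [tgt, if_pos b1]
    simp only [Nat.reduceLeDiff, Nat.reduceEqDiff, if_false]
    split_ifs with h7 <;> omega
  · simp only at hT
    have hll : l = l' := by omega
    subst hll
    have hkk : k ≠ k' := by
      rintro rfl
      exact hne rfl
    rcases Nat.lt_or_gt_of_ne hkk with h7 | h7
    · exact Or.inl ⟨h7.le, bp_tgt_lt h6 hl hn a2 b2 h7⟩
    · exact Or.inr ⟨h7.le, bp_tgt_lt h6 hl hn b2 a2 h7⟩

/-- The list of ordinary edges is ordered. -/
theorem bP_pairwise {b : ℕ} {S : List Bool} {I : ℕ × ℕ × ℕ × List Bool} (hI : WFI I S) :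
    (bP b S I).Pairwise fun q q' => q.1 < q'.1 ∨
      (q.1 = q'.1 ∧ q.2.1 ≤ q'.2.1 ∧ q.2.2.1 < q'.2.2.1) := by
  have hmem : ∀ l < 4, ∀ k < S.length + 1, ∀ q ∈
      (if I.1 ≤ 1 ∧ l = 3 ∧ k = I.2.1 then
        (List.range I.2.2.2.length).map fun j => (4 * b + 3, k, k + j, I.2.2.2.getD j false)
      else if has I.1 I.2.1 S.length l k = true then
        [(4 * b + l, k, tgt I.1 I.2.1 I.2.2.2.length l k, sgn I.1 I.2.1 S l k)]
      else []), q ∈ bP b S I ∧ q.1 = 4 * b + l ∧ q.2.1 = k := by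
    intro l hl k hk q hq
    have hq' : q ∈ bP b S I := by
      unfold bP
      exact List.mem_flatMap.2 ⟨l, List.mem_range.2 hl, List.mem_flatMap.2
        ⟨k, List.mem_range.2 hk, hq⟩⟩
    refine ⟨hq', ?_⟩
    split_ifs at hq with h1 h2
    · obtain ⟨j, hj, rfl⟩ := List.mem_map.1 hq
      exact ⟨by simp only; omega, rfl⟩
    · rw [List.mem_singleton] at hq
      subst hq
      exact ⟨rfl, rfl⟩
    · exact absurd hq List.not_mem_nil
  unfold bP
  rw [List.pairwise_flatMap]
  refine ⟨fun l hl => ?_, ?_⟩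
  · rw [List.pairwise_flatMap]
    refine ⟨fun k hk => ?_, ?_⟩
    · split_ifs with h1 h2
      · rw [List.pairwise_map]
        refine List.pairwise_lt_range.imp ?_
        intro j j' hjj
        exact Or.inr ⟨rfl, le_refl _, by simp only; omega⟩
      · exact List.pairwise_singleton _ _
      · exact List.Pairwise.nil
    · refine List.pairwise_lt_range.imp_of_mem ?_
      intro k k' hk hk' hkk q hq q' hq'
      rw [List.mem_range] at hl hk hk'
      obtain ⟨c1, c2, c3⟩ := hmem l hl k hk q hq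
      obtain ⟨d1, d2, d3⟩ := hmem l hl k' hk' q' hq'
      have hne : q ≠ q' := by
        rintro rfl
        omega
      rcases bP_order hI c1 d1 (c2.trans d2.symm) hne with h | h
      · exact Or.inr ⟨c2.trans d2.symm, h⟩
      · omega
  · refine List.pairwise_lt_range.imp_of_mem ?_
    intro l l' hl hl' hll q hq q' hq'
    rw [List.mem_range] at hl hl'
    obtain ⟨k, hk, hq⟩ := List.mem_flatMap.1 hq
    obtain ⟨k', hk', hq'⟩ := List.mem_flatMap.1 hq'
    rw [List.mem_range] at hk hk'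
    obtain ⟨-, c2, -⟩ := hmem l hl k hk q hq
    obtain ⟨-, d2, -⟩ := hmem l' hl' k' hk' q' hq'
    exact Or.inl (by omega)

theorem blocks_wf {π : List (ℕ × ℕ × ℕ × List Bool)} : ∀ {b : ℕ} {S : List Bool}, WF π S →
    ∀ B ∈ blocks b S π, WFI B.2.2 B.2.1 := by
  induction π with
  | nil =>
    intro b S _ B hB
    simp only [blocks] at hB
    exact absurd hB List.not_mem_nil
  | cons I π ih =>
    intro b S h B hB
    simp only [blocks, List.mem_cons] at hB
    simp only [WF] at h
    rcases hB with rfl | hB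
    · exact h.1
    · exact ih h.2 B hB

theorem blocks_num {π : List (ℕ × ℕ × ℕ × List Bool)} : ∀ {b : ℕ} {S : List Bool},
    ∀ B ∈ blocks b S π, b ≤ B.1 ∧ B.1 < b + π.length := by
  induction π with
  | nil =>
    intro b S B hB
    simp only [blocks] at hB
    exact absurd hB List.not_mem_nil
  | cons I π ih =>
    intro b S B hB
    simp only [blocks, List.mem_cons] at hB
    rw [List.length_cons]
    rcases hB with rfl | hB
    · exact ⟨le_refl _, by simp only; omega⟩
    · have := ih B hB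
      omega

theorem blocks_inj {π : List (ℕ × ℕ × ℕ × List Bool)} : ∀ {b : ℕ} {S : List Bool},
    ∀ B ∈ blocks b S π, ∀ B' ∈ blocks b S π, B.1 = B'.1 → B = B' := by
  induction π with
  | nil =>
    intro b S B hB
    simp only [blocks] at hB
    exact absurd hB List.not_mem_nil
  | cons I π ih =>
    intro b S B hB B' hB' h
    simp only [blocks, List.mem_cons] at hB hB'
    rcases hB with rfl | hB <;> rcases hB' with rfl | hB'
    · rfl
    · have := blocks_num B' hB'
      simp only at h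
      omega
    · have := blocks_num B hB
      simp only at h
      omega
    · exact ih B hB B' hB' h

/-- The next block, or the end. -/
theorem blocks_next {π : List (ℕ × ℕ × ℕ × List Bool)} : ∀ {b : ℕ} {S : List Bool}, WF π S →
    ∀ B ∈ blocks b S π, (∃ B' ∈ blocks b S π, B'.1 = B.1 + 1 ∧ B'.2.1 = nextS B.2.2 B.2.1) ∨
      nextS B.2.2 B.2.1 = [] := by
  induction π with
  | nil =>
    intro b S _ B hB
    simp only [blocks] at hB
    exact absurd hB List.not_mem_nil
  | cons I π ih =>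
    intro b S h B hB
    simp only [blocks, List.mem_cons] at hB
    simp only [WF] at h
    rcases hB with rfl | hB
    · cases π with
      | nil =>
        simp only [WF] at h
        exact Or.inr h.2
      | cons I' π' =>
        refine Or.inl ⟨(b + 1, nextS I S, I'), ?_, rfl, rfl⟩
        simp only [blocks, List.mem_cons, true_or, or_true]
    · rcases ih h.2 B hB with ⟨B', hB', h1⟩ | h1
      · refine Or.inl ⟨B', ?_, h1⟩
        simp only [blocks, List.mem_cons]
        exact Or.inr hB'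
      · exact Or.inr h1

/-- The previous block, or the beginning. -/
theorem blocks_prev {π : List (ℕ × ℕ × ℕ × List Bool)} : ∀ {b : ℕ} {S : List Bool},
    ∀ B ∈ blocks b S π, (∃ B' ∈ blocks b S π, B.1 = B'.1 + 1 ∧ B.2.1 = nextS B'.2.2 B'.2.1) ∨
      (B.1 = b ∧ B.2.1 = S) := by
  induction π with
  | nil =>
    intro b S B hB
    simp only [blocks] at hB
    exact absurd hB List.not_mem_nil
  | cons I π ih =>
    intro b S B hB
    simp only [blocks, List.mem_cons] at hB
    rcases hB with rfl | hB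
    · exact Or.inr ⟨rfl, rfl⟩
    · rcases ih B hB with ⟨B', hB', h1⟩ | ⟨h1, h2⟩
      · refine Or.inl ⟨B', ?_, h1⟩
        simp only [blocks, List.mem_cons]
        exact Or.inr hB'
      · refine Or.inl ⟨(b, S, I), ?_, h1, h2⟩
        simp only [blocks, List.mem_cons, true_or]

theorem blocks_pairwise {π : List (ℕ × ℕ × ℕ × List Bool)} : ∀ (b : ℕ) (S : List Bool),
    (blocks b S π).Pairwise fun B B' => B.1 < B'.1 := by
  induction π with
  | nil =>
    intro b S
    simp only [blocks]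
    exact List.Pairwise.nil
  | cons I π ih =>
    intro b S
    simp only [blocks, List.pairwise_cons]
    refine ⟨fun B hB => ?_, ih _ _⟩
    have := blocks_num B hB
    omega

end Pool.Agent.H77.SG
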