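import Pool.Agent.H77.SG.RunM

/-!
# The gates for strands

`cS (1, p)`: the strands `z, x, y` are nine wires; the drops leave `z- x- y- y+`, then gate `3`
(`2 < x + y + 2 z`) and a drop. `cS (2, p)`: the strands `y, x, z`; the drops leave `y- x- z- z+`;
new `q` (word `[+, -]`) at `2` → `y- x- q+ q- z- z+`; constant `2 / 4` (word `[-]`) at `3` →
`y- x- q+ κ- q- z- z+`; gate `3` at `3` (`2 < q + z + 2 κ`) → `y- x- q+ z+`; gate `6` at `0`
(`q < x y`) → `z+`; drop. There is `q` in `(0, 1)` with `1 < q + z` and `q < x y` iff `1 < x y + z`.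

PROOF. Unfold `cS`, `RelL`, `Rel`; all positions are at most `3`, so the parts `A` of the front have
explicit short lists (`List.length_eq_zero_iff`, `List.length_eq_one_iff`, or case distinction).
-/

set_option autoImplicit false

namespace Pool.Agent.H77.SG

theorem cgate_rel2 (P R : List (ℝ × Bool)) (a : ℝ × Bool) (c : ℕ) (w : List Bool)
    (F' : List (ℝ × Bool)) : Rel (2, P.length, c, w) (P ++ a :: R) F' ↔ F' = P ++ R := by
  unfold Rel
  rw [if_neg (by simp), if_neg (by simp), if_pos rfl]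
  constructor
  · rintro ⟨A, B, a', h1, h2, h3⟩
    obtain ⟨e1, e2⟩ := List.append_inj h1 h2.symm
    rw [List.cons.injEq] at e2
    rw [h3, ← e1, ← e2.2]
  · rintro rfl
    exact ⟨P, R, a, rfl, rfl, rfl⟩

theorem cgate_rel3 (P R : List (ℝ × Bool)) (z x y : ℝ) (c : ℕ) (w : List Bool)
    (F' : List (ℝ × Bool)) :
    Rel (3, P.length, c, w) (P ++ (z, false) :: (x, false) :: (y, false) :: R) F' ↔
      F' = P ++ R ∧ 2 < x + y + 2 * z := by
  unfold Rel
  rw [if_neg (by simp), if_neg (by simp), if_neg (by simp), if_pos rfl]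
  constructor
  · rintro ⟨A, B, z', x', y', h1, h2, h3, h4⟩
    obtain ⟨e1, e2⟩ := List.append_inj h1 h2.symm
    simp only [List.cons.injEq, Prod.mk.injEq, and_true] at e2
    obtain ⟨ez, ex, ey, eB⟩ := e2
    refine ⟨by rw [h3, ← e1, ← eB], ?_⟩
    rw [ez, ex, ey]
    exact h4
  · rintro ⟨rfl, h⟩
    exact ⟨P, R, z, x, y, rfl, rfl, rfl, h⟩

theorem cgate_rel6 (P R : List (ℝ × Bool)) (u s q : ℝ) (c : ℕ) (w : List Bool)
    (F' : List (ℝ × Bool)) :
    Rel (6, P.length, c, w) (P ++ (u, false) :: (s, false) :: (q, true) :: R) F' ↔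
      F' = P ++ R ∧ q < s * u := by
  unfold Rel
  rw [if_neg (by simp), if_neg (by simp), if_neg (by simp), if_neg (by simp),
    if_neg (by simp), if_neg (by simp)]
  constructor
  · rintro ⟨A, B, z', x', y', h1, h2, h3, h4⟩
    obtain ⟨e1, e2⟩ := List.append_inj h1 h2.symm
    simp only [List.cons.injEq, Prod.mk.injEq, and_true] at e2
    obtain ⟨ez, ex, ey, eB⟩ := e2
    refine ⟨by rw [h3, ← e1, ← eB], ?_⟩
    rw [ez, ex, ey]
    exact h4
  · rintro ⟨rfl, h⟩
    exact ⟨P, R, u, s, q, rfl, rfl, rfl, h⟩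

theorem cgate_rel0 (P R : List (ℝ × Bool)) (c : ℕ) (w : List Bool) (F' : List (ℝ × Bool)) :
    Rel (0, P.length, c, w) (P ++ R) F' ↔
      ∃ v : ℝ, 0 < v ∧ v < 1 ∧ F' = P ++ w.map (fun s => (v, s)) ++ R := by
  unfold Rel
  rw [if_pos rfl]
  constructor
  · rintro ⟨A, B, v, h1, h2, h3, h4, h5⟩
    obtain ⟨e1, e2⟩ := List.append_inj h1 h2.symm
    exact ⟨v, h3, h4, by rw [h5, ← e1, ← e2]⟩
  · rintro ⟨v, h3, h4, rfl⟩
    exact ⟨P, R, v, rfl, rfl, h3, h4, rfl⟩

theorem cgate_rel1 (P R : List (ℝ × Bool)) (c : ℕ) (w : List Bool) (F' : List (ℝ × Bool)) :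
    Rel (1, P.length, c, w) (P ++ R) F' ↔
      F' = P ++ w.map (fun s => ((c : ℝ) / 4, s)) ++ R := by
  unfold Rel
  rw [if_neg (by simp), if_pos rfl]
  constructor
  · rintro ⟨A, B, h1, h2, h5⟩
    obtain ⟨e1, e2⟩ := List.append_inj h1 h2.symm
    rw [h5, ← e1, ← e2]
  · rintro rfl
    exact ⟨P, R, rfl, rfl, rfl⟩

theorem cgate_step {I : ℕ × ℕ × ℕ × List Bool} {π : List (ℕ × ℕ × ℕ × List Bool)}
    {F G F' : List (ℝ × Bool)} (h : ∀ F₁, Rel I F F₁ ↔ F₁ = G) :
    RelL (I :: π) F F' ↔ RelL π G F' := by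
  constructor
  · rintro ⟨F₁, h1, h2⟩
    rw [(h F₁).1 h1] at h2
    exact h2
  · intro h2
    exact ⟨G, (h G).2 rfl, h2⟩

theorem cgate_step_if {I : ℕ × ℕ × ℕ × List Bool} {π : List (ℕ × ℕ × ℕ × List Bool)}
    {F G F' : List (ℝ × Bool)} {p : Prop} (h : ∀ F₁, Rel I F F₁ ↔ F₁ = G ∧ p) :
    RelL (I :: π) F F' ↔ p ∧ RelL π G F' := by
  constructor
  · rintro ⟨F₁, h1, h2⟩
    obtain ⟨h3, h4⟩ := (h F₁).1 h1
    rw [h3] at h2
    exact ⟨h4, h2⟩
  · rintro ⟨h3, h2⟩
    exact ⟨G, (h G).2 ⟨rfl, h3⟩, h2⟩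

theorem cgate_wires3 (z x y : ℝ) (B : List ℝ) : wires (z :: x :: y :: B) =
    (z, true) :: (z, false) :: (z, true) :: (x, true) :: (x, false) :: (x, true) ::
      (y, true) :: (y, false) :: (y, true) :: wires B := rfl

/-- The five drops at the beginning. -/
theorem cgate_drops (z x y : ℝ) (B : List ℝ) (π : List (ℕ × ℕ × ℕ × List Bool))
    (F' : List (ℝ × Bool)) :
    RelL ((2, 0, 0, []) :: (2, 1, 0, []) :: (2, 1, 0, []) :: (2, 2, 0, []) :: (2, 2, 0, []) :: π)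
      (wires (z :: x :: y :: B)) F' ↔
      RelL π ((z, false) :: (x, false) :: (y, false) :: (y, true) :: wires B) F' := by
  rw [cgate_wires3]
  refine (cgate_step (fun F₁ => cgate_rel2 [] _ (z, true) 0 [] F₁)).trans ?_
  refine (cgate_step (fun F₁ => cgate_rel2 [(z, false)] _ (z, true) 0 [] F₁)).trans ?_
  refine (cgate_step (fun F₁ => cgate_rel2 [(z, false)] _ (x, true) 0 [] F₁)).trans ?_
  refine (cgate_step (fun F₁ => cgate_rel2 [(z, false), (x, false)] _ (x, true) 0 [] F₁)).trans ?_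
  exact cgate_step (fun F₁ => cgate_rel2 [(z, false), (x, false)] _ (y, true) 0 [] F₁)

theorem relL_n1 (p : ℕ) (z x y : ℝ) (B : List ℝ) (F' : List (ℝ × Bool)) :
    RelL (cS (1, p)) (wires (z :: x :: y :: B)) F' ↔ 2 < x + y + 2 * z ∧ F' = wires B := by
  have e : cS (1, p) = [(2, 0, 0, []), (2, 1, 0, []), (2, 1, 0, []), (2, 2, 0, []),
      (2, 2, 0, []), (3, 0, 0, []), (2, 0, 0, [])] := by
    unfold cS
    rw [if_neg (by simp), if_pos rfl]
  rw [e, cgate_drops]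
  refine (cgate_step_if (fun F₁ => cgate_rel3 [] _ z x y 0 [] F₁)).trans ?_
  refine and_congr_right fun _ => ?_
  refine (cgate_step (fun F₁ => cgate_rel2 [] _ (y, true) 0 [] F₁)).trans ?_
  exact eq_comm

theorem relL_pr (k p : ℕ) (hk : 2 ≤ k) {y x z : ℝ} (hy : 0 < y ∧ y < 1) (hx : 0 < x ∧ x < 1)
    (hz : 0 < z ∧ z < 1) (B : List ℝ) (F' : List (ℝ × Bool)) :
    RelL (cS (k, p)) (wires (y :: x :: z :: B)) F' ↔ 1 < x * y + z ∧ F' = wires B := by
  have e : cS (k, p) = [(2, 0, 0, []), (2, 1, 0, []), (2, 1, 0, []), (2, 2, 0, []),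
      (2, 2, 0, []), (0, 2, 0, [true, false]), (1, 3, 2, [false]), (3, 3, 0, []), (6, 0, 0, []),
      (2, 0, 0, [])] := by
    unfold cS
    rw [if_neg (by simp only; omega), if_neg (by simp only; omega)]
  rw [e, cgate_drops]
  have key : ∀ q : ℝ, RelL [(1, 3, 2, [false]), (3, 3, 0, []), (6, 0, 0, []), (2, 0, 0, [])]
      ((y, false) :: (x, false) :: (q, true) :: (q, false) :: (z, false) :: (z, true) :: wires B)
      F' ↔ 2 < q + z + 2 * (((2 : ℕ) : ℝ) / 4) ∧ q < x * y ∧ F' = wires B := by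
    intro q
    refine (cgate_step (fun F₁ => cgate_rel1 [(y, false), (x, false), (q, true)] _ 2 [false]
      F₁)).trans ?_
    refine (cgate_step_if (fun F₁ => cgate_rel3 [(y, false), (x, false), (q, true)]
      ((z, true) :: wires B) (((2 : ℕ) : ℝ) / 4) q z 0 [] F₁)).trans ?_
    refine and_congr_right fun _ => ?_
    refine (cgate_step_if (fun F₁ => cgate_rel6 [] ((z, true) :: wires B) y x q 0 [] F₁)).trans ?_
    refine and_congr_right fun _ => ?_
    refine (cgate_step (fun F₁ => cgate_rel2 [] _ (z, true) 0 [] F₁)).trans ?_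
    exact eq_comm
  constructor
  · rintro ⟨F₁, h1, h2⟩
    obtain ⟨q, hq0, hq1, rfl⟩ := (cgate_rel0 [(y, false), (x, false)] _ 0 [true, false] F₁).1 h1
    obtain ⟨h3, h4, h5⟩ := (key q).1 h2
    refine ⟨?_, h5⟩
    push_cast at h3
    linarith
  · rintro ⟨h1, h2⟩
    have hxy : x * y < 1 := by nlinarith [hx.1, hx.2, hy.1, hy.2]
    refine ⟨_, (cgate_rel0 [(y, false), (x, false)] _ 0 [true, false] _).2
      ⟨((1 - z) + x * y) / 2, ?_, ?_, rfl⟩, ?_⟩
    · nlinarith [hz.2, mul_pos hx.1 hy.1]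
    · linarith
    · refine (key _).2 ⟨?_, ?_, h2⟩
      · push_cast
        linarith
      · linarith

end Pool.Agent.H77.SG
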