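import Pool.Agent.H77.SG.RunM

/-!
# The exchange of two strands

The program `cS (0, p)` for `p = A.length`, applied to the strands `a`, `b` (six wires, from the position
`P = 3 p` on; `s+`, `s-` denote a wire with the value `s` and the sign plus or minus):
`a+ a- a+ b+ b- b+` → drop `P + 2` twice → `a+ a- b- b+` → new `s` (word `[+, +, -]`) at `P + 1` →
`a+ s+ s+ s- a- b- b+` → gate `3` at `P + 3` (`2 < a + b + 2 s`) → `a+ s+ s+ b+` → new `b'` (word
`[+, -, +, +]`) at `P` → `b'+ b'- b'+ b'+ a+ s+ s+ b+` → gate `5` at `P + 3` (`b' + a + 2 s < 2`) →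
`b'+ b'- b'+ s+ b+` → new `a'` (word `[+, +, -, +]`) at `P + 5` → `b'+ b'- b'+ s+ b+ a'+ a'+ a'- a'+`
→ gate `4` at `P + 3` (`b + a' + 2 s < 2`) → `b'+ b'- b'+ a'+ a'- a'+`.

The three inequalities give `b' < b` and `a' < a`. Conversely, if `0 < a' < a < 1`, `0 < b' < b < 1`,
there is `s` with `1 - (a + b) / 2 < s < min (1 - (a + b') / 2) (1 - (b + a') / 2)`, and `0 < s < 1`.

PROOF. Unfold `cS`, `RelL`, `Rel`; every instruction determines the parts of the front
(`List.append_inj` with the known length of the first part). A helper lemma for each kind of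
instruction, of the form `Rel (k, A.length, c, w) (A ++ F) F' ↔ ∃ F₁, F' = A ++ F₁ ∧ Rel (k, 0, c, w) F F₁`,
reduces everything to position `0`, `1`, `3`, `5` in short explicit lists (`wires_append`).
-/

set_option autoImplicit false

namespace Pool.Agent.H77.SG

theorem wires_append (L L' : List ℝ) : wires (L ++ L') = wires L ++ wires L' := by
  simp [wires]

theorem length_wires (L : List ℝ) : (wires L).length = 3 * L.length := by
  induction L with
  | nil => rfl
  | cons a L ih => simp [wires] at ih ⊢; omega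

private theorem cswap_new (W C B F' : List (ℝ × Bool)) {n c : ℕ} {w : List Bool}
    (h : n = W.length + C.length) :
    Rel (0, n, c, w) (W ++ (C ++ B)) F' ↔
      ∃ v : ℝ, 0 < v ∧ v < 1 ∧ F' = W ++ (C ++ (w.map (fun s => (v, s)) ++ B)) := by
  unfold Rel
  rw [if_pos rfl]
  constructor
  · rintro ⟨A', B', v, h1, h2, h3, h4, h5⟩
    rw [← List.append_assoc] at h1
    have hlen : (W ++ C).length = A'.length := by
      rw [List.length_append, h2]; exact h.symm
    obtain ⟨h6, h7⟩ := List.append_inj h1 hlen
    subst h6 h7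
    exact ⟨v, h3, h4, by rw [h5]; simp [List.append_assoc]⟩
  · rintro ⟨v, h3, h4, h5⟩
    exact ⟨W ++ C, B, v, by simp [List.append_assoc], by rw [List.length_append]; exact h.symm,
      h3, h4, by rw [h5]; simp [List.append_assoc]⟩

private theorem cswap_drop (W C B F' : List (ℝ × Bool)) (a : ℝ × Bool) {n c : ℕ} {w : List Bool}
    (h : n = W.length + C.length) :
    Rel (2, n, c, w) (W ++ (C ++ a :: B)) F' ↔ F' = W ++ (C ++ B) := by
  unfold Rel
  rw [if_neg (by simp), if_neg (by simp), if_pos rfl]
  constructor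
  · rintro ⟨A', B', a', h1, h2, h3⟩
    rw [← List.append_assoc] at h1
    have hlen : (W ++ C).length = A'.length := by
      rw [List.length_append, h2]; exact h.symm
    obtain ⟨h6, h7⟩ := List.append_inj h1 hlen
    injection h7 with h8 h9
    subst h6 h9
    rw [h3, List.append_assoc]
  · intro h5
    exact ⟨W ++ C, B, a, by simp [List.append_assoc], by rw [List.length_append]; exact h.symm,
      by rw [h5]; simp [List.append_assoc]⟩

private theorem cswap_three (W C B F' : List (ℝ × Bool)) {z x y : ℝ} {n c : ℕ} {w : List Bool}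
    (h : n = W.length + C.length) :
    Rel (3, n, c, w) (W ++ (C ++ (z, false) :: (x, false) :: (y, false) :: B)) F' ↔
      F' = W ++ (C ++ B) ∧ 2 < x + y + 2 * z := by
  unfold Rel
  rw [if_neg (by simp), if_neg (by simp), if_neg (by simp), if_pos rfl]
  constructor
  · rintro ⟨A', B', z', x', y', h1, h2, h3, h4⟩
    rw [← List.append_assoc] at h1
    have hlen : (W ++ C).length = A'.length := by
      rw [List.length_append, h2]; exact h.symm
    obtain ⟨h6, h7⟩ := List.append_inj h1 hlen
    simp only [List.cons.injEq, Prod.mk.injEq, and_true] at h7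
    obtain ⟨rfl, rfl, rfl, rfl⟩ := h7
    subst h6
    exact ⟨by rw [h3, List.append_assoc], h4⟩
  · rintro ⟨h5, h6⟩
    exact ⟨W ++ C, B, z, x, y, by simp [List.append_assoc],
      by rw [List.length_append]; exact h.symm, by rw [h5]; simp [List.append_assoc], h6⟩

private theorem cswap_four (W C B F' : List (ℝ × Bool)) {z x y : ℝ} {n c : ℕ} {w : List Bool}
    (h : n = W.length + C.length) :
    Rel (4, n, c, w) (W ++ (C ++ (z, true) :: (x, true) :: (y, true) :: B)) F' ↔
      F' = W ++ (C ++ B) ∧ x + y + 2 * z < 2 := by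
  unfold Rel
  rw [if_neg (by simp), if_neg (by simp), if_neg (by simp), if_neg (by simp), if_pos rfl]
  constructor
  · rintro ⟨A', B', z', x', y', h1, h2, h3, h4⟩
    rw [← List.append_assoc] at h1
    have hlen : (W ++ C).length = A'.length := by
      rw [List.length_append, h2]; exact h.symm
    obtain ⟨h6, h7⟩ := List.append_inj h1 hlen
    simp only [List.cons.injEq, Prod.mk.injEq, and_true] at h7
    obtain ⟨rfl, rfl, rfl, rfl⟩ := h7
    subst h6
    exact ⟨by rw [h3, List.append_assoc], h4⟩
  · rintro ⟨h5, h6⟩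
    exact ⟨W ++ C, B, z, x, y, by simp [List.append_assoc],
      by rw [List.length_append]; exact h.symm, by rw [h5]; simp [List.append_assoc], h6⟩

private theorem cswap_five (W C B F' : List (ℝ × Bool)) {z x y : ℝ} {n c : ℕ} {w : List Bool}
    (h : n = W.length + C.length) :
    Rel (5, n, c, w) (W ++ (C ++ (x, true) :: (y, true) :: (z, true) :: B)) F' ↔
      F' = W ++ (C ++ B) ∧ x + y + 2 * z < 2 := by
  unfold Rel
  rw [if_neg (by simp), if_neg (by simp), if_neg (by simp), if_neg (by simp), if_neg (by simp),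
    if_pos rfl]
  constructor
  · rintro ⟨A', B', x', y', z', h1, h2, h3, h4⟩
    rw [← List.append_assoc] at h1
    have hlen : (W ++ C).length = A'.length := by
      rw [List.length_append, h2]; exact h.symm
    obtain ⟨h6, h7⟩ := List.append_inj h1 hlen
    simp only [List.cons.injEq, Prod.mk.injEq, and_true] at h7
    obtain ⟨rfl, rfl, rfl, rfl⟩ := h7
    subst h6
    exact ⟨by rw [h3, List.append_assoc], h4⟩
  · rintro ⟨h5, h6⟩
    exact ⟨W ++ C, B, x, y, z, by simp [List.append_assoc],
      by rw [List.length_append]; exact h.symm, by rw [h5]; simp [List.append_assoc], h6⟩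

private theorem cswap_wires2 (A B : List ℝ) (a b : ℝ) :
    wires (A ++ a :: b :: B) = wires A ++ (a, true) :: (a, false) :: (a, true) ::
      (b, true) :: (b, false) :: (b, true) :: wires B := by
  rw [wires_append]
  simp [wires]

theorem relL_swap (A B : List ℝ) {a b : ℝ} (ha : 0 < a ∧ a < 1) (hb : 0 < b ∧ b < 1)
    (F' : List (ℝ × Bool)) :
    RelL (cS (0, A.length)) (wires (A ++ a :: b :: B)) F' ↔
      ∃ a' b' : ℝ, 0 < a' ∧ a' < a ∧ 0 < b' ∧ b' < b ∧ F' = wires (A ++ b' :: a' :: B) := by
  have hL := length_wires A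
  have hcS : cS (0, A.length) = [(2, 3 * A.length + 2, 0, []), (2, 3 * A.length + 2, 0, []),
      (0, 3 * A.length + 1, 0, [true, true, false]),
      (3, 3 * A.length + 3, 0, []), (0, 3 * A.length, 0, [true, false, true, true]),
      (5, 3 * A.length + 3, 0, []),
      (0, 3 * A.length + 5, 0, [true, true, false, true]), (4, 3 * A.length + 3, 0, [])] := by
    unfold cS
    rw [if_pos rfl]
  simp only [hcS, cswap_wires2]
  generalize wires A = W at hL ⊢
  -- the eight instructions
  have e1 := fun F => cswap_drop W [(a, true), (a, false)]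
    ((b, true) :: (b, false) :: (b, true) :: wires B) F (a, true)
    (n := 3 * A.length + 2) (c := 0) (w := []) (by simp [hL])
  have e2 := fun F => cswap_drop W [(a, true), (a, false)]
    ((b, false) :: (b, true) :: wires B) F (b, true)
    (n := 3 * A.length + 2) (c := 0) (w := []) (by simp [hL])
  have e3 := fun F => cswap_new W [(a, true)]
    ((a, false) :: (b, false) :: (b, true) :: wires B) F
    (n := 3 * A.length + 1) (c := 0) (w := [true, true, false]) (by simp [hL])
  have e4 := fun (s : ℝ) F => cswap_three W [(a, true), (s, true), (s, true)]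
    ((b, true) :: wires B) F (z := s) (x := a) (y := b)
    (n := 3 * A.length + 3) (c := 0) (w := []) (by simp [hL])
  have e5 := fun (s : ℝ) F => cswap_new W []
    ((a, true) :: (s, true) :: (s, true) :: (b, true) :: wires B) F
    (n := 3 * A.length) (c := 0) (w := [true, false, true, true]) (by simp [hL])
  have e6 := fun (s b' : ℝ) F => cswap_five W [(b', true), (b', false), (b', true)]
    ((s, true) :: (b, true) :: wires B) F (x := b') (y := a) (z := s)
    (n := 3 * A.length + 3) (c := 0) (w := []) (by simp [hL])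
  have e7 := fun (s b' : ℝ) F => cswap_new W
    [(b', true), (b', false), (b', true), (s, true), (b, true)] (wires B) F
    (n := 3 * A.length + 5) (c := 0) (w := [true, true, false, true]) (by simp [hL])
  have e8 := fun (s b' a' : ℝ) F => cswap_four W [(b', true), (b', false), (b', true)]
    ((a', true) :: (a', false) :: (a', true) :: wires B) F (z := s) (x := b) (y := a')
    (n := 3 * A.length + 3) (c := 0) (w := []) (by simp [hL])
  simp only [List.cons_append, List.nil_append, List.map_cons, List.map_nil] at e1 e2 e3 e4 e5 e6 e7 e8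
  constructor
  · rintro ⟨F1, h1, F2, h2, F3, h3, F4, h4, F5, h5, F6, h6, F7, h7, F8, h8, h9⟩
    obtain rfl := (e1 _).1 h1
    obtain rfl := (e2 _).1 h2
    obtain ⟨s, hs0, hs1, rfl⟩ := (e3 _).1 h3
    obtain ⟨rfl, hs⟩ := (e4 s _).1 h4
    obtain ⟨b', hb0, hb1, rfl⟩ := (e5 s _).1 h5
    obtain ⟨rfl, hb'⟩ := (e6 s b' _).1 h6
    obtain ⟨a', ha0, ha1, rfl⟩ := (e7 s b' _).1 h7
    obtain ⟨rfl, ha'⟩ := (e8 s b' a' _).1 h8
    refine ⟨a', b', ha0, by linarith, hb0, by linarith, ?_⟩
    exact h9.symm
  · rintro ⟨a', b', ha0, haa, hb0, hbb, rfl⟩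
    obtain ⟨s, hs1, hs2⟩ : ∃ s : ℝ, 1 - (a + b) / 2 < s ∧
        s < min (1 - (a + b') / 2) (1 - (b + a') / 2) :=
      exists_between (lt_min (by linarith) (by linarith))
    obtain ⟨hs3, hs4⟩ := lt_min_iff.1 hs2
    obtain ⟨ha1, ha2⟩ := ha
    obtain ⟨hb1, hb2⟩ := hb
    refine ⟨_, (e1 _).2 rfl, _, (e2 _).2 rfl,
      _, (e3 _).2 ⟨s, by linarith, by linarith, rfl⟩,
      _, (e4 s _).2 ⟨rfl, by linarith⟩,
      _, (e5 s _).2 ⟨b', by linarith, by linarith, rfl⟩,
      _, (e6 s b' _).2 ⟨rfl, by linarith⟩,
      _, (e7 s b' _).2 ⟨a', by linarith, by linarith, rfl⟩,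
      _, (e8 s b' a' _).2 ⟨rfl, by linarith⟩, rfl⟩

end Pool.Agent.H77.SG
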