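import Pool.Agent.H77.SG.TM
import Pool.Agent.H77.SG.CSwap
import Pool.Agent.H77.SG.CGate

/-!
# Compilation of strand programs

PROOF of `run_compile`: induction on `Q`, `Run_append`; for kind `0` the lemma `relL_swap` gives
`∃ a' < a, b' < b, TRun Q (A ++ b' :: a' :: B)`, which is equivalent to `TRun Q (A ++ b :: a :: B)` by
`TRun_mono` and `TRun_open`. For the gates `relL_n1`, `relL_pr`.
-/

set_option autoImplicit false

namespace Pool.Agent.H77.SG

private theorem ccomp_forall₂_refl {R : ℝ → ℝ → Prop} (hR : ∀ a, R a a) :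
    ∀ L : List ℝ, List.Forall₂ R L L
  | [] => List.Forall₂.nil
  | a :: L => List.Forall₂.cons (hR a) (ccomp_forall₂_refl hR L)

private theorem ccomp_forall₂_append {R : ℝ → ℝ → Prop} (hR : ∀ a, R a a) {M M' : List ℝ}
    (h : List.Forall₂ R M M') : ∀ A : List ℝ, List.Forall₂ R (A ++ M) (A ++ M')
  | [] => h
  | a :: A => List.Forall₂.cons (hR a) (ccomp_forall₂_append hR h A)

private theorem ccomp_split {L : List ℝ} {p : ℕ} (h : p + 2 ≤ L.length) :
    ∃ A a b B, L = A ++ a :: b :: B ∧ A.length = p := by
  refine ⟨L.take p, L[p]'(by omega), L[p + 1]'(by omega), L.drop (p + 2), ?_, ?_⟩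
  · conv_lhs => rw [← List.take_append_drop p L]
    rw [List.drop_eq_getElem_cons (by omega : p < L.length),
      List.drop_eq_getElem_cons (by omega : p + 1 < L.length)]
  · rw [List.length_take]
    omega

private theorem ccomp_split3 {L : List ℝ} (h : 3 ≤ L.length) :
    ∃ a b c B, L = a :: b :: c :: B := by
  match L, h with
  | a :: b :: c :: B, _ => exact ⟨a, b, c, B, rfl⟩

private theorem ccomp_trun_swap {Q : List (ℕ × ℕ)} {A B : List ℝ} {a b : ℝ} :
    TRun ((0, A.length) :: Q) (A ++ a :: b :: B) ↔ TRun Q (A ++ b :: a :: B) := by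
  constructor
  · rintro ⟨L', h, h'⟩
    simp only [TRel, if_true] at h
    obtain ⟨A', B', a', b', h1, h2, h3⟩ := h
    obtain ⟨h4, h5⟩ := List.append_inj h1 h2.symm
    simp only [List.cons.injEq] at h5
    obtain ⟨h5, h6, h7⟩ := h5
    rw [h3, ← h4, ← h5, ← h6, ← h7] at h'
    exact h'
  · intro h
    refine ⟨A ++ b :: a :: B, ?_, h⟩
    simp only [TRel, if_true]
    exact ⟨A, B, a, b, rfl, rfl, rfl⟩

theorem run_compile {Q : List (ℕ × ℕ)} : ∀ {L : List ℝ}, TWF Q L.length →
    (∀ a ∈ L, 0 < a ∧ a < 1) → (Run (Q.flatMap cS) (wires L) ↔ TRun Q L) := by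
  induction Q with
  | nil =>
    intro L _ _
    simp [Run, TRun]
  | cons I Q ih =>
    intro L hL hpos
    obtain ⟨k, p⟩ := I
    simp only [TWF] at hL
    rw [List.flatMap_cons, Run_append]
    rcases Nat.eq_zero_or_pos k with hk | hk
    · subst hk
      simp only [if_true] at hL
      obtain ⟨h1, h2⟩ := hL
      obtain ⟨A, a, b, B, rfl, rfl⟩ := ccomp_split h1
      have ha := hpos a (by simp)
      have hb := hpos b (by simp)
      have hlen : ∀ a' b' : ℝ, (A ++ b' :: a' :: B).length = (A ++ a :: b :: B).length := by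
        intro a' b'
        simp
      have hpos' : ∀ a' b' : ℝ, 0 < a' → a' < a → 0 < b' → b' < b →
          ∀ x ∈ A ++ b' :: a' :: B, 0 < x ∧ x < 1 := by
        intro a' b' h3 h4 h5 h6 x hx
        simp only [List.mem_append, List.mem_cons] at hx
        rcases hx with hx | hx | hx | hx
        · exact hpos x (by simp [hx])
        · subst hx
          exact ⟨h5, h6.trans hb.2⟩
        · subst hx
          exact ⟨h3, h4.trans ha.2⟩
        · exact hpos x (by simp [hx])
      rw [ccomp_trun_swap]
      constructor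
      · rintro ⟨F', h3, h4⟩
        rw [relL_swap A B ha hb] at h3
        obtain ⟨a', b', h5, h6, h7, h8, rfl⟩ := h3
        rw [ih (by rw [hlen]; exact h2) (hpos' a' b' h5 h6 h7 h8)] at h4
        refine TRun_mono ?_ (fun x hx => (hpos' a' b' h5 h6 h7 h8 x hx).1) h4
        refine ccomp_forall₂_append (fun x => le_refl x) ?_ A
        exact List.Forall₂.cons h8.le (List.Forall₂.cons h6.le
          (ccomp_forall₂_refl (fun x => le_refl x) B))
      · intro h
        obtain ⟨δ, hδ, h3⟩ := TRun_open h
        have key : ∀ x : ℝ, 0 < x → 0 < x - min δ x / 2 ∧ x - min δ x / 2 < x ∧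
            |x - (x - min δ x / 2)| < δ := by
          intro x hx
          have g1 : min δ x ≤ δ := min_le_left _ _
          have g2 : min δ x ≤ x := min_le_right _ _
          have g3 : 0 < min δ x := lt_min hδ hx
          refine ⟨by linarith, by linarith, ?_⟩
          rw [show x - (x - min δ x / 2) = min δ x / 2 by ring, abs_of_pos (by linarith)]
          linarith
        obtain ⟨a1, a2, a3⟩ := key a ha.1
        obtain ⟨b1, b2, b3⟩ := key b hb.1
        refine ⟨wires (A ++ (b - min δ b / 2) :: (a - min δ a / 2) :: B), ?_, ?_⟩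
        · rw [relL_swap A B ha hb]
          exact ⟨_, _, a1, a2, b1, b2, rfl⟩
        · rw [ih (by rw [hlen]; exact h2) (hpos' _ _ a1 a2 b1 b2)]
          apply h3
          have hrefl : ∀ x : ℝ, |x - x| < δ := fun x => by rw [sub_self, abs_zero]; exact hδ
          refine ccomp_forall₂_append (R := fun a b => |a - b| < δ) hrefl ?_ A
          exact List.Forall₂.cons b3 (List.Forall₂.cons a3 (ccomp_forall₂_refl hrefl B))
    · have hk0 : k ≠ 0 := by omega
      simp only [if_neg hk0] at hL
      obtain ⟨h1, h2⟩ := hL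
      obtain ⟨z, x, y, B, rfl⟩ := ccomp_split3 h1
      have hz := hpos z (by simp)
      have hx := hpos x (by simp)
      have hy := hpos y (by simp)
      have hB : ∀ a ∈ B, 0 < a ∧ a < 1 := fun a ha => hpos a (by simp [ha])
      have h2' : TWF Q B.length := by
        have g : (z :: x :: y :: B).length - 3 = B.length := by simp
        rw [g] at h2
        exact h2
      have hIH := ih h2' hB
      rcases Nat.lt_or_ge 1 k with hk1 | hk1
      · have hk2 : k ≠ 1 := by omega
        constructor
        · rintro ⟨F', h3, h4⟩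
          rw [relL_pr k p hk1 hz hx hy] at h3
          obtain ⟨h5, rfl⟩ := h3
          refine ⟨B, ?_, hIH.1 h4⟩
          simp only [TRel, if_neg hk0, if_neg hk2]
          exact ⟨z, x, y, rfl, h5⟩
        · rintro ⟨L', h3, h4⟩
          simp only [TRel, if_neg hk0, if_neg hk2] at h3
          obtain ⟨y', x', z', h5, h6⟩ := h3
          simp only [List.cons.injEq] at h5
          obtain ⟨rfl, rfl, rfl, rfl⟩ := h5
          refine ⟨wires B, ?_, hIH.2 h4⟩
          rw [relL_pr k p hk1 hz hx hy]
          exact ⟨h6, rfl⟩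
      · obtain rfl : k = 1 := by omega
        constructor
        · rintro ⟨F', h3, h4⟩
          rw [relL_n1] at h3
          obtain ⟨h5, rfl⟩ := h3
          refine ⟨B, ?_, hIH.1 h4⟩
          simp only [TRel, if_neg hk0, if_true]
          exact ⟨z, x, y, rfl, h5⟩
        · rintro ⟨L', h3, h4⟩
          simp only [TRel, if_neg hk0, if_true] at h3
          obtain ⟨y', x', z', h5, h6⟩ := h3
          simp only [List.cons.injEq] at h5
          obtain ⟨rfl, rfl, rfl, rfl⟩ := h5
          refine ⟨wires B, ?_, hIH.2 h4⟩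
          rw [relL_n1]
          exact ⟨h6, rfl⟩

end Pool.Agent.H77.SG
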