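import Pool.Agent.H77.SG.SMac

/-!
# Completeness of the macros of the strict system

The auxiliary values are given by a function `f` of the offset. `t = 1/4 + ε/4` is the value of
`nF 0` and `0 < ε ≤ 1/100`.

PROOFS. `mLE_complete`: with `η = ε / 16` take `n = (a + b) / 2 + η`, `n' = (c + d) / 2 - η`,
`r = (n + 1/4 + n' + t) / 4`; one needs `n + 1/4 < n' + t`, i.e.
`(a + b - c - d) / 2 + 2 η < ε / 4`. `mEQ_complete`: two copies. `mML_complete`: `m = (a + b)/2 + η'`,
`p = a b - η'` with `η' = ε / 16`, then `z + m ≤ p + 3/4 + ε/8`. `mMU_complete`: `a' = 1 - a`,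
`z' = 1 - z`. `scGate_complete`: for the kinds `0` and `1` one `mEQ`; for the other kinds the value of
`nF (bs _)` is `1/2 + u y_k`, with `u y_k = y_i y_j`. Offsets: `mMU q` uses `q, …, q + 23`.
-/

set_option autoImplicit false

namespace Pool.Agent.H77.SG

theorem mLE_complete {ε a b c d : ℝ} (hε : 0 < ε) (hε' : ε ≤ 1 / 100)
    (ha : 1 / 20 ≤ a ∧ a ≤ 19 / 20) (hb : 1 / 20 ≤ b ∧ b ≤ 19 / 20)
    (hc : 1 / 20 ≤ c ∧ c ≤ 19 / 20) (hd : 1 / 20 ≤ d ∧ d ≤ 19 / 20)
    (h : a + b ≤ c + d + ε / 8) :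
    ∃ f : ℕ → ℝ, (∀ i, 0 < f i ∧ f i < 1) ∧ ∀ (X : ℕ → ℝ) (q x y z w : ℕ), X 0 = 1 / 4 →
      X (nF 0) = 1 / 4 + ε / 4 → X x = a → X y = b → X z = c → X w = d →
      (∀ i < 3, X (nF (q + i)) = f i) → ∀ e ∈ mLE q x y z w, CH X e := by
  refine ⟨fun i => if i = 0 then (a + b) / 2 + ε / 16 else if i = 1 then (c + d) / 2 - ε / 16
    else ((a + b) / 2 + ε / 16 + 1 / 4 + ((c + d) / 2 - ε / 16) + (1 / 4 + ε / 4)) / 4, ?_, ?_⟩
  · intro i
    dsimp only
    split_ifs
    · constructor <;> linarith [ha.1, ha.2, hb.1, hb.2]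
    · constructor <;> linarith [hc.1, hc.2, hd.1, hd.2]
    · constructor <;> linarith [ha.1, ha.2, hb.1, hb.2, hc.1, hc.2, hd.1, hd.2]
  · intro X q x y z w h0 ht hx hy hz hw hf e he
    beta_reduce at hf
    have f0 := hf 0 (by omega)
    have f1 := hf 1 (by omega)
    have f2 := hf 2 (by omega)
    rw [if_pos rfl, add_zero] at f0
    rw [if_neg (by omega), if_pos rfl] at f1
    rw [if_neg (by omega), if_neg (by omega)] at f2
    unfold mLE at he
    simp only [List.mem_cons, List.not_mem_nil, or_false] at he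
    rcases he with rfl | rfl | rfl | rfl
    · show X x + X y < 2 * X (nF q)
      rw [hx, hy, f0]
      linarith
    · show 2 * X (nF (q + 1)) < X z + X w
      rw [hz, hw, f1]
      linarith
    · show X (nF q) + X 0 < 2 * X (nF (q + 2))
      rw [f0, h0, f2]
      linarith
    · show 2 * X (nF (q + 2)) < X (nF (q + 1)) + X (nF 0)
      rw [f1, ht, f2]
      linarith

theorem mEQ_complete {ε a b c d : ℝ} (hε : 0 < ε) (hε' : ε ≤ 1 / 100)
    (ha : 1 / 20 ≤ a ∧ a ≤ 19 / 20) (hb : 1 / 20 ≤ b ∧ b ≤ 19 / 20)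
    (hc : 1 / 20 ≤ c ∧ c ≤ 19 / 20) (hd : 1 / 20 ≤ d ∧ d ≤ 19 / 20) (h : a + b = c + d) :
    ∃ f : ℕ → ℝ, (∀ i, 0 < f i ∧ f i < 1) ∧ ∀ (X : ℕ → ℝ) (q x y z w : ℕ), X 0 = 1 / 4 →
      X (nF 0) = 1 / 4 + ε / 4 → X x = a → X y = b → X z = c → X w = d →
      (∀ i < 6, X (nF (q + i)) = f i) → ∀ e ∈ mEQ q x y z w, CH X e := by
  obtain ⟨f1, h1, H1⟩ := mLE_complete hε hε' ha hb hc hd (by linarith)
  obtain ⟨f2, h2, H2⟩ := mLE_complete hε hε' hc hd ha hb (by linarith)
  refine ⟨fun i => if i < 3 then f1 i else f2 (i - 3), ?_, ?_⟩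
  · intro i
    dsimp only
    split_ifs
    · exact h1 i
    · exact h2 _
  · intro X q x y z w h0 ht hx hy hz hw hf e he
    beta_reduce at hf
    unfold mEQ at he
    rw [List.mem_append] at he
    rcases he with he | he
    · refine H1 X q x y z w h0 ht hx hy hz hw (fun i hi => ?_) e he
      rw [hf i (by omega), if_pos hi]
    · refine H2 X (q + 3) z w x y h0 ht hz hw hx hy (fun i hi => ?_) e he
      rw [show q + 3 + i = q + (i + 3) by omega, hf (i + 3) (by omega), if_neg (by omega),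
        Nat.add_sub_cancel]

theorem mML_complete {ε a b c : ℝ} (hε : 0 < ε) (hε' : ε ≤ 1 / 100)
    (ha : 1 / 4 ≤ a ∧ a ≤ 3 / 4) (hb : 1 / 4 ≤ b ∧ b ≤ 3 / 4) (hc : 1 / 4 ≤ c ∧ c ≤ 3 / 4)
    (h : c - 1 / 2 = (a - 1 / 2) * (b - 1 / 2)) :
    ∃ f : ℕ → ℝ, (∀ i, 0 < f i ∧ f i < 1) ∧ ∀ (X : ℕ → ℝ) (q x y z : ℕ), X 0 = 1 / 4 →
      X 2 = 3 / 4 → X (nF 0) = 1 / 4 + ε / 4 → X x = a → X y = b → X z = c →
      (∀ i < 5, X (nF (q + i)) = f i) → ∀ e ∈ mML q x y z, CH X e := by
  have hab : 1 / 16 ≤ a * b ∧ a * b ≤ 9 / 16 := by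
    constructor <;> nlinarith [ha.1, ha.2, hb.1, hb.2]
  obtain ⟨f1, h1, H1⟩ := mLE_complete (a := c) (b := (a + b) / 2 + ε / 16) (c := a * b - ε / 16)
    (d := 3 / 4) hε hε' (by constructor <;> linarith [hc.1, hc.2])
    (by constructor <;> linarith [ha.1, ha.2, hb.1, hb.2])
    (by constructor <;> linarith [hab.1, hab.2]) (by constructor <;> norm_num) (by nlinarith)
  refine ⟨fun i => if i = 0 then (a + b) / 2 + ε / 16 else if i = 1 then a * b - ε / 16
    else f1 (i - 2), ?_, ?_⟩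
  · intro i
    dsimp only
    split_ifs
    · constructor <;> linarith [ha.1, ha.2, hb.1, hb.2]
    · constructor <;> linarith [hab.1, hab.2]
    · exact h1 _
  · intro X q x y z h0 h2 ht hx hy hz hf e he
    beta_reduce at hf
    have f0 := hf 0 (by omega)
    have f1' := hf 1 (by omega)
    rw [if_pos rfl, add_zero] at f0
    rw [if_neg (by omega), if_pos rfl] at f1'
    unfold mML at he
    rw [List.mem_append] at he
    rcases he with he | he
    · simp only [List.mem_cons, List.not_mem_nil, or_false] at he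
      rcases he with rfl | rfl
      · show X x + X y < 2 * X (nF q)
        rw [hx, hy, f0]
        linarith
      · show X (nF (q + 1)) < X x * X y
        rw [hx, hy, f1']
        linarith
    · refine H1 X (q + 2) z (nF q) (nF (q + 1)) 2 h0 ht hz f0 f1' h2 (fun i hi => ?_) e he
      rw [show q + 2 + i = q + (i + 2) by omega, hf (i + 2) (by omega), if_neg (by omega),
        if_neg (by omega), Nat.add_sub_cancel]

theorem mMU_complete {ε a b c : ℝ} (hε : 0 < ε) (hε' : ε ≤ 1 / 100)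
    (ha : 1 / 4 ≤ a ∧ a ≤ 3 / 4) (hb : 1 / 4 ≤ b ∧ b ≤ 3 / 4) (hc : 1 / 4 ≤ c ∧ c ≤ 3 / 4)
    (h : c - 1 / 2 = (a - 1 / 2) * (b - 1 / 2)) :
    ∃ f : ℕ → ℝ, (∀ i, 0 < f i ∧ f i < 1) ∧ ∀ (X : ℕ → ℝ) (q x y z : ℕ), X 0 = 1 / 4 →
      X 1 = 1 / 2 → X 2 = 3 / 4 → X (nF 0) = 1 / 4 + ε / 4 → X x = a → X y = b → X z = c →
      (∀ i < 24, X (nF (q + i)) = f i) → ∀ e ∈ mMU q x y z, CH X e := by
  obtain ⟨f1, h1, H1⟩ := mEQ_complete (a := a) (b := 1 - a) (c := 1 / 2) (d := 1 / 2) hε hε'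
    (by constructor <;> linarith [ha.1, ha.2]) (by constructor <;> linarith [ha.1, ha.2])
    (by constructor <;> norm_num) (by constructor <;> norm_num) (by ring)
  obtain ⟨f2, h2, H2⟩ := mEQ_complete (a := c) (b := 1 - c) (c := 1 / 2) (d := 1 / 2) hε hε'
    (by constructor <;> linarith [hc.1, hc.2]) (by constructor <;> linarith [hc.1, hc.2])
    (by constructor <;> norm_num) (by constructor <;> norm_num) (by ring)
  obtain ⟨f3, h3, H3⟩ := mML_complete hε hε' ha hb hc h
  obtain ⟨f4, h4, H4⟩ := mML_complete (a := 1 - a) (b := b) (c := 1 - c) hε hε'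
    (by constructor <;> linarith [ha.1, ha.2]) hb (by constructor <;> linarith [hc.1, hc.2])
    (by linear_combination -h)
  refine ⟨fun i => if i = 0 then 1 - a else if i = 1 then 1 - c else if i < 8 then f1 (i - 2)
    else if i < 14 then f2 (i - 8) else if i < 19 then f3 (i - 14) else f4 (i - 19), ?_, ?_⟩
  · intro i
    dsimp only
    split_ifs
    · constructor <;> linarith [ha.1, ha.2]
    · constructor <;> linarith [hc.1, hc.2]
    · exact h1 _
    · exact h2 _
    · exact h3 _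
    · exact h4 _
  · intro X q x y z h0 hh1 hh2 ht hx hy hz hf e he
    beta_reduce at hf
    have g0 := hf 0 (by omega)
    have g1 := hf 1 (by omega)
    rw [if_pos rfl, add_zero] at g0
    rw [if_neg (by omega), if_pos rfl] at g1
    unfold mMU at he
    rw [List.mem_append, List.mem_append, List.mem_append] at he
    rcases he with ((he | he) | he) | he
    · refine H1 X (q + 2) x (nF q) 1 1 h0 ht hx g0 hh1 hh1 (fun i hi => ?_) e he
      rw [show q + 2 + i = q + (i + 2) by omega, hf (i + 2) (by omega), if_neg (by omega),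
        if_neg (by omega), if_pos (by omega), Nat.add_sub_cancel]
    · refine H2 X (q + 8) z (nF (q + 1)) 1 1 h0 ht hz g1 hh1 hh1 (fun i hi => ?_) e he
      rw [show q + 8 + i = q + (i + 8) by omega, hf (i + 8) (by omega), if_neg (by omega),
        if_neg (by omega), if_neg (by omega), if_pos (by omega), Nat.add_sub_cancel]
    · refine H3 X (q + 14) x y z h0 hh2 ht hx hy hz (fun i hi => ?_) e he
      rw [show q + 14 + i = q + (i + 14) by omega, hf (i + 14) (by omega), if_neg (by omega),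
        if_neg (by omega), if_neg (by omega), if_neg (by omega), if_pos (by omega),
        Nat.add_sub_cancel]
    · refine H4 X (q + 19) (nF q) y (nF (q + 1)) h0 hh2 ht g0 hy g1 (fun i hi => ?_) e he
      rw [show q + 19 + i = q + (i + 19) by omega, hf (i + 19) (by omega), if_neg (by omega),
        if_neg (by omega), if_neg (by omega), if_neg (by omega), if_neg (by omega),
        Nat.add_sub_cancel]

theorem scGate_complete {ε u : ℝ} {Y : ℕ → ℝ} (hε : 0 < ε) (hε' : ε ≤ 1 / 100)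
    (hu : |u| ≤ 1 / 4) (hY : ∀ i, |Y i| ≤ 1 / 4) (K n : ℕ) (g : ℕ × ℕ × ℕ × ℕ)
    (h : gf u Y g = 0) :
    ∃ f : ℕ → ℝ, (∀ i, 0 < f i ∧ f i < 1) ∧ ∀ X : ℕ → ℝ, X 0 = 1 / 4 →
      X 1 = 1 / 2 → X 2 = 3 / 4 → X (nF 0) = 1 / 4 + ε / 4 → X (nU K) = u + 1 / 2 →
      (∀ i, X (nX i) = Y i + 1 / 2) →
      (∀ i < 63, X (nF (bs (2 * n + 1) + i)) = f i) → ∀ e ∈ scGate K n g, CH X e := by
  have hb : ∀ {v : ℝ}, |v| ≤ 1 / 4 → 1 / 4 ≤ v + 1 / 2 ∧ v + 1 / 2 ≤ 3 / 4 := by
    intro v hv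
    rw [abs_le] at hv
    constructor <;> linarith [hv.1, hv.2]
  have hb' : ∀ {v : ℝ}, |v| ≤ 1 / 4 → 1 / 20 ≤ v + 1 / 2 ∧ v + 1 / 2 ≤ 19 / 20 := by
    intro v hv
    rw [abs_le] at hv
    constructor <;> linarith [hv.1, hv.2]
  by_cases g0 : g.1 = 0
  · unfold gf at h
    rw [if_pos g0] at h
    obtain ⟨f, h1, H⟩ := mEQ_complete (a := Y g.2.1 + 1 / 2) (b := Y g.2.1 + 1 / 2)
      (c := u + 1 / 2) (d := u + 1 / 2) hε hε' (hb' (hY _)) (hb' (hY _)) (hb' hu) (hb' hu)
      (by linarith)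
    refine ⟨f, h1, fun X h0 hh1 hh2 ht hU hX hf e he => ?_⟩
    unfold scGate at he
    rw [if_pos g0] at he
    exact H X _ _ _ _ _ h0 ht (hX _) (hX _) hU hU (fun i hi => hf i (by omega)) e he
  · by_cases g1 : g.1 = 1
    · unfold gf at h
      rw [if_neg g0, if_pos g1] at h
      obtain ⟨f, h1, H⟩ := mEQ_complete (a := Y g.2.1 + 1 / 2) (b := 1 / 2)
        (c := Y g.2.2.1 + 1 / 2) (d := Y g.2.2.2 + 1 / 2) hε hε' (hb' (hY _))
        (by constructor <;> norm_num) (hb' (hY _)) (hb' (hY _)) (by linarith)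
      refine ⟨f, h1, fun X h0 hh1 hh2 ht hU hX hf e he => ?_⟩
      unfold scGate at he
      rw [if_neg g0, if_pos g1] at he
      exact H X _ _ _ _ _ h0 ht (hX _) hh1 (hX _) (hX _) (fun i hi => hf i (by omega)) e he
    · unfold gf at h
      rw [if_neg g0, if_neg g1] at h
      have hp : |u * Y g.2.1| ≤ 1 / 4 := by
        rw [abs_mul]
        nlinarith [abs_nonneg u, abs_nonneg (Y g.2.1), hY g.2.1]
      obtain ⟨f1, h1, H1⟩ := mMU_complete (a := u + 1 / 2) (b := Y g.2.1 + 1 / 2)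
        (c := u * Y g.2.1 + 1 / 2) hε hε' (hb hu) (hb (hY _)) (hb hp) (by ring)
      obtain ⟨f2, h2, H2⟩ := mMU_complete (a := Y g.2.2.1 + 1 / 2) (b := Y g.2.2.2 + 1 / 2)
        (c := u * Y g.2.1 + 1 / 2) hε hε' (hb (hY _)) (hb (hY _)) (hb hp)
        (by linear_combination h)
      refine ⟨fun i => if i = 0 then u * Y g.2.1 + 1 / 2 else if i < 25 then f1 (i - 1)
        else f2 (i - 25), ?_, fun X h0 hh1 hh2 ht hU hX hf e he => ?_⟩
      · intro i
        dsimp only
        split_ifs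
        · have := hb hp
          constructor <;> linarith [this.1, this.2]
        · exact h1 _
        · exact h2 _
      · beta_reduce at hf
        have k0 := hf 0 (by omega)
        rw [if_pos rfl, add_zero] at k0
        unfold scGate at he
        rw [if_neg g0, if_neg g1, List.mem_append] at he
        rcases he with he | he
        · refine H1 X _ _ _ _ h0 hh1 hh2 ht hU (hX _) k0 (fun i hi => ?_) e he
          rw [show bs (2 * n + 1) + 1 + i = bs (2 * n + 1) + (i + 1) by omega,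
            hf (i + 1) (by omega), if_neg (by omega), if_pos (by omega), Nat.add_sub_cancel]
        · refine H2 X _ _ _ _ h0 hh1 hh2 ht (hX _) (hX _) k0 (fun i hi => ?_) e he
          rw [show bs (2 * n + 1) + 25 + i = bs (2 * n + 1) + (i + 25) by omega,
            hf (i + 25) (by omega), if_neg (by omega), if_neg (by omega), Nat.add_sub_cancel]

/-- tolerances. -/
noncomputable def cmacE : ℕ → ℝ
  | 0 => 1 / 32
  | k + 1 => cmacE k ^ 2 / 2

theorem cmacE_bd (k : ℕ) : 0 < cmacE k ∧ cmacE k ≤ 1 / 32 := by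
  induction k with
  | zero => constructor <;> norm_num [cmacE]
  | succ k ih =>
    show 0 < cmacE k ^ 2 / 2 ∧ cmacE k ^ 2 / 2 ≤ 1 / 32
    obtain ⟨h1, h2⟩ := ih
    constructor
    · positivity
    · nlinarith

theorem cmacE_small (k : ℕ) (hk : 1 ≤ k) : cmacE k ≤ 1 / 100 := by
  obtain ⟨k, rfl⟩ : ∃ k', k = k' + 1 := ⟨k - 1, by omega⟩
  show cmacE k ^ 2 / 2 ≤ 1 / 100
  obtain ⟨h1, h2⟩ := cmacE_bd k
  nlinarith

/-- auxiliary variables from the blocks. -/
noncomputable def cmacF (t : ℝ) (f0 : ℕ → ℝ) (fG fU : ℕ → ℕ → ℝ) (q : ℕ) : ℝ :=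
  if q = 0 then t
  else if (q - 1) / 64 = 0 then f0 ((q - 1) % 64)
  else if (q - 1) / 64 % 2 = 1 then fG ((q - 1) / 64 / 2) ((q - 1) % 64)
  else fU ((q - 1) / 64 / 2 - 1) ((q - 1) % 64)

/-- all variables. -/
noncomputable def cmacX (Y u F : ℕ → ℝ) (n : ℕ) : ℝ :=
  if n = 0 then 1 / 4 else if n = 1 then 1 / 2 else if n = 2 then 3 / 4
  else if (n - 3) % 4 = 0 then Y ((n - 3) / 4) + 1 / 2
  else if (n - 3) % 4 = 1 then u ((n - 3) / 4) + 1 / 2
  else if (n - 3) % 4 = 2 then cmacE ((n - 3) / 4)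
  else F ((n - 3) / 4)

theorem cmacX_nX (Y u F : ℕ → ℝ) (i : ℕ) : cmacX Y u F (nX i) = Y i + 1 / 2 := by
  unfold cmacX nX
  rw [if_neg (by omega), if_neg (by omega), if_neg (by omega), if_pos (by omega),
    show (4 * i + 3 - 3) / 4 = i by omega]

theorem cmacX_nU (Y u F : ℕ → ℝ) (i : ℕ) : cmacX Y u F (nU i) = u i + 1 / 2 := by
  unfold cmacX nU
  rw [if_neg (by omega), if_neg (by omega), if_neg (by omega), if_neg (by omega),
    if_pos (by omega), show (4 * i + 4 - 3) / 4 = i by omega]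

theorem cmacX_nE (Y u F : ℕ → ℝ) (i : ℕ) : cmacX Y u F (nE i) = cmacE i := by
  unfold cmacX nE
  rw [if_neg (by omega), if_neg (by omega), if_neg (by omega), if_neg (by omega),
    if_neg (by omega), if_pos (by omega), show (4 * i + 5 - 3) / 4 = i by omega]

theorem cmacX_nF (Y u F : ℕ → ℝ) (i : ℕ) : cmacX Y u F (nF i) = F i := by
  unfold cmacX nF
  rw [if_neg (by omega), if_neg (by omega), if_neg (by omega), if_neg (by omega),
    if_neg (by omega), if_neg (by omega), show (4 * i + 6 - 3) / 4 = i by omega]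

theorem cmacF_0 (t : ℝ) (f0 : ℕ → ℝ) (fG fU : ℕ → ℕ → ℝ) (r : ℕ) (hr : r < 64) :
    cmacF t f0 fG fU (bs 0 + r) = f0 r := by
  unfold cmacF bs
  rw [if_neg (by omega), if_pos (by omega), show (64 * 0 + 1 + r - 1) % 64 = r by omega]

theorem cmacF_G (t : ℝ) (f0 : ℕ → ℝ) (fG fU : ℕ → ℕ → ℝ) (n r : ℕ) (hr : r < 64) :
    cmacF t f0 fG fU (bs (2 * n + 1) + r) = fG n r := by
  unfold cmacF bs
  rw [if_neg (by omega), if_neg (by omega), if_pos (by omega),
    show (64 * (2 * n + 1) + 1 + r - 1) / 64 / 2 = n by omega,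
    show (64 * (2 * n + 1) + 1 + r - 1) % 64 = r by omega]

theorem cmacF_U (t : ℝ) (f0 : ℕ → ℝ) (fG fU : ℕ → ℕ → ℝ) (k r : ℕ) (hr : r < 64) :
    cmacF t f0 fG fU (bs (2 * k + 2) + r) = fU k r := by
  unfold cmacF bs
  rw [if_neg (by omega), if_neg (by omega), if_neg (by omega),
    show (64 * (2 * k + 2) + 1 + r - 1) / 64 / 2 - 1 = k by omega,
    show (64 * (2 * k + 2) + 1 + r - 1) % 64 = r by omega]

/-- The strict system is solvable if the scaled equations are. -/
theorem scOf_complete {G : List (ℕ × ℕ × ℕ × ℕ)} (m : ℕ) {K K' : ℕ} (hK' : 1 ≤ K') {u : ℕ → ℝ}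
    {Y : ℕ → ℝ} (hu0 : u 0 = 1 / 8) (hu : ∀ k, u (k + 1) = u k ^ 2) (hY : ∀ i, |Y i| < 1 / 4)
    (hG : ∀ g ∈ G, gf (u K) Y g = 0) : SSat (scOf G m K K') := by
  set ε : ℝ := cmacE K' with hεdef
  have hε : 0 < ε := (cmacE_bd K').1
  have hε' : ε ≤ 1 / 100 := cmacE_small K' hK'
  have hub : ∀ k, 0 < u k ∧ u k ≤ 1 / 8 := by
    intro k
    induction k with
    | zero =>
      rw [hu0]
      constructor <;> norm_num
    | succ k ih =>
      rw [hu]
      obtain ⟨h1, h2⟩ := ih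
      constructor
      · positivity
      · nlinarith
  have hua : ∀ k, |u k| ≤ 1 / 4 := by
    intro k
    rw [abs_of_pos (hub k).1]
    linarith [(hub k).2]
  have hub' : ∀ k, 1 / 4 ≤ u k + 1 / 2 ∧ u k + 1 / 2 ≤ 3 / 4 := fun k =>
    ⟨by linarith [(hub k).1], by linarith [(hub k).2]⟩
  obtain ⟨f0, h0, H0⟩ := mEQ_complete (a := u 0 + 1 / 2) (b := u 0 + 1 / 2) (c := 1 / 2)
    (d := 3 / 4) hε hε' (by constructor <;> linarith [(hub' 0).1, (hub' 0).2])
    (by constructor <;> linarith [(hub' 0).1, (hub' 0).2]) (by constructor <;> norm_num)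
    (by constructor <;> norm_num) (by rw [hu0]; norm_num)
  have HU : ∀ k, _ := fun k => mMU_complete (a := u k + 1 / 2) (b := u k + 1 / 2)
    (c := u (k + 1) + 1 / 2) hε hε' (hub' k) (hub' k) (hub' (k + 1)) (by rw [hu]; ring)
  choose fU hU HU using HU
  have HG : ∀ n, ∃ f : ℕ → ℝ, (∀ i, 0 < f i ∧ f i < 1) ∧ (n < G.length → ∀ X : ℕ → ℝ, X 0 = 1 / 4 →
      X 1 = 1 / 2 → X 2 = 3 / 4 → X (nF 0) = 1 / 4 + ε / 4 → X (nU K) = u K + 1 / 2 →
      (∀ i, X (nX i) = Y i + 1 / 2) →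
      (∀ i < 63, X (nF (bs (2 * n + 1) + i)) = f i) → ∀ e ∈ scGate K n (G.getD n (0, 0, 0, 0)),
        CH X e) := by
    intro n
    by_cases hn : n < G.length
    · obtain ⟨f, h1, h2⟩ := scGate_complete (Y := Y) hε hε' (hua K) (fun i => (hY i).le) K n
        (G.getD n (0, 0, 0, 0)) (hG _ (by
          rw [List.getD_eq_getElem _ _ hn]
          exact List.getElem_mem hn))
      exact ⟨f, h1, fun _ => h2⟩
    · exact ⟨fun _ => 1 / 2, fun _ => ⟨by norm_num, by norm_num⟩, fun h => absurd h hn⟩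
  choose fG hG' HG using HG
  set F : ℕ → ℝ := cmacF (1 / 4 + ε / 4) f0 fG fU with hF
  set X : ℕ → ℝ := cmacX Y u F with hX
  have X0 : X 0 = 1 / 4 := by
    rw [hX]
    unfold cmacX
    rw [if_pos rfl]
  have X1 : X 1 = 1 / 2 := by
    rw [hX]
    unfold cmacX
    rw [if_neg (by omega), if_pos rfl]
  have X2 : X 2 = 3 / 4 := by
    rw [hX]
    unfold cmacX
    rw [if_neg (by omega), if_neg (by omega), if_pos rfl]
  have XX : ∀ i, X (nX i) = Y i + 1 / 2 := cmacX_nX Y u F
  have XU : ∀ i, X (nU i) = u i + 1 / 2 := cmacX_nU Y u F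
  have XE : ∀ i, X (nE i) = cmacE i := cmacX_nE Y u F
  have XF : ∀ i, X (nF i) = F i := cmacX_nF Y u F
  have Xt : X (nF 0) = 1 / 4 + ε / 4 := by
    rw [XF, hF]
    unfold cmacF
    rw [if_pos rfl]
  refine ⟨X, ?_, X0, X1, X2, ?_⟩
  · intro n
    rw [hX]
    unfold cmacX
    split_ifs
    · constructor <;> norm_num
    · constructor <;> norm_num
    · constructor <;> norm_num
    · have := abs_lt.1 (hY ((n - 3) / 4))
      constructor <;> linarith [this.1, this.2]
    · have := hub' ((n - 3) / 4)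
      constructor <;> linarith [this.1, this.2]
    · have := cmacE_bd ((n - 3) / 4)
      constructor <;> linarith [this.1, this.2]
    · rw [hF]
      unfold cmacF
      split_ifs
      · constructor <;> linarith
      · exact h0 _
      · exact hG' _ _
      · exact hU _ _
  · intro e he
    unfold scOf at he
    rw [List.mem_append, List.mem_append, List.mem_append, List.mem_append,
      List.mem_append, List.mem_cons, List.mem_cons] at he
    rcases he with (((((rfl | rfl | he) | he) | he) | he) | he) | he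
    · show X (nE 0) < X 0 * X 0
      rw [XE, X0]
      norm_num [cmacE]
    · show 2 * X (nF 0) < X 1 + X (nE K')
      rw [Xt, X1, XE, ← hεdef]
      linarith
    · rw [List.mem_map] at he
      obtain ⟨k, _, rfl⟩ := he
      show X (nE (k + 1)) < X (nE k) * X (nE k)
      rw [XE, XE]
      show cmacE k ^ 2 / 2 < cmacE k * cmacE k
      have := (cmacE_bd k).1
      nlinarith [mul_pos this this]
    · rw [List.mem_flatMap] at he
      obtain ⟨i, _, he⟩ := he
      have := abs_lt.1 (hY i)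
      unfold mBox at he
      simp only [List.mem_cons, List.not_mem_nil, or_false] at he
      rcases he with rfl | rfl
      · show X 0 + X 0 < 2 * X (nX i)
        rw [X0, XX]
        linarith [this.1]
      · show 2 * X (nX i) < X 2 + X 2
        rw [X2, XX]
        linarith [this.2]
    · rw [List.mem_flatMap] at he
      obtain ⟨i, _, he⟩ := he
      have := hub i
      unfold mBox at he
      simp only [List.mem_cons, List.not_mem_nil, or_false] at he
      rcases he with rfl | rfl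
      · show X 0 + X 0 < 2 * X (nU i)
        rw [X0, XU]
        linarith [this.1]
      · show 2 * X (nU i) < X 2 + X 2
        rw [X2, XU]
        linarith [this.2]
    · refine H0 X _ _ _ _ _ X0 Xt (XU 0) (XU 0) X1 X2 (fun i hi => ?_) e he
      rw [XF, hF, cmacF_0 _ _ _ _ i (by omega)]
    · rw [List.mem_flatMap] at he
      obtain ⟨k, _, he⟩ := he
      refine HU k X _ _ _ _ X0 X1 X2 Xt (XU k) (XU k) (XU (k + 1)) (fun i hi => ?_) e he
      rw [XF, hF, cmacF_U _ _ _ _ k i (by omega)]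
    · rw [List.mem_flatMap] at he
      obtain ⟨n, hn, he⟩ := he
      rw [List.mem_range] at hn
      refine HG n hn X X0 X1 X2 Xt (XU K) XX (fun i hi => ?_) e he
      rw [XF, hF, cmacF_G _ _ _ _ n i (by omega)]

end Pool.Agent.H77.SG
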