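import Pool.Agent.H77.SG.TM

/-!
# Well-formedness of compiled programs

PROOF. `wf_append`: a program `π` transforms the signs `S` into `S'` (fold of `nextS`), and
`WF (π ++ π') S` iff all instructions of `π` are applicable and `WF π' S'`. For `cS I` compute the signs
step by step, as in the header of `CSwap.lean` and `CGate.lean`: `sw n` is a list of length `3 n`,
`sw (m + n) = sw m ++ sw n`, and for kind `0` one may split `sw n = sw p ++ (six signs) ++ sw (n - p - 2)`.
-/

set_option autoImplicit false

namespace Pool.Agent.H77.SG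

theorem sw_add (m n : ℕ) : sw (m + n) = sw m ++ sw n := by
  induction n with
  | zero => simp [sw]
  | succ n ih =>
    have h : ∀ k, sw (k + 1) = sw k ++ [true, false, true] := by
      intro k
      simp [sw, List.range_succ]
    rw [← Nat.add_assoc, h, h, ih, List.append_assoc]

theorem length_sw (n : ℕ) : (sw n).length = 3 * n := by
  induction n with
  | zero => simp [sw]
  | succ n ih =>
    rw [sw_add, List.length_append, ih]
    simp [sw]
    omega

theorem cwf_cons (I : ℕ × ℕ × ℕ × List Bool) (π : List (ℕ × ℕ × ℕ × List Bool)) (S : List Bool) :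
    WF (I :: π) S ↔ WFI I S ∧ WF π (nextS I S) := by
  rw [WF]

theorem cwf_nextS (A L : List Bool) (k j c : ℕ) (w : List Bool) :
    nextS (k, A.length + j, c, w) (A ++ L) = A ++ nextS (k, j, c, w) L := by
  have h1 : A.length + j + 1 = A.length + (j + 1) := by omega
  have h3 : A.length + j + 3 = A.length + (j + 3) := by omega
  simp only [nextS, h1, h3]
  split_ifs <;> simp [List.take_append, List.drop_append, List.append_assoc, List.take_of_length_le,
    List.drop_eq_nil_of_le]

theorem cwf_WFI (A L : List Bool) (k j c : ℕ) (w : List Bool) :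
    WFI (k, A.length + j, c, w) (A ++ L) ↔ WFI (k, j, c, w) L := by
  have h0 : A.length + j ≤ (A ++ L).length ↔ j ≤ L.length := by
    rw [List.length_append]; omega
  have h1 : A.length + j < (A ++ L).length ↔ j < L.length := by
    rw [List.length_append]; omega
  have h3 : A.length + j + 3 ≤ (A ++ L).length ↔ j + 3 ≤ L.length := by
    rw [List.length_append]; omega
  have hd : (A ++ L).drop (A.length + j) = L.drop j := by
    simp [List.drop_append, List.drop_eq_nil_of_le]
  simp only [WFI, h0, h1, h3, hd]

theorem cwf_step {A : List Bool} {P : ℕ} (hA : A.length = P) (L : List Bool) (k j c : ℕ)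
    (w : List Bool) (π : List (ℕ × ℕ × ℕ × List Bool)) :
    WF ((k, P + j, c, w) :: π) (A ++ L) ↔
      WFI (k, j, c, w) L ∧ WF π (A ++ nextS (k, j, c, w) L) := by
  subst hA
  rw [cwf_cons, cwf_WFI, cwf_nextS]

theorem cwf_step0 {A : List Bool} {P : ℕ} (hA : A.length = P) (L : List Bool) (k c : ℕ)
    (w : List Bool) (π : List (ℕ × ℕ × ℕ × List Bool)) :
    WF ((k, P, c, w) :: π) (A ++ L) ↔
      WFI (k, 0, c, w) L ∧ WF π (A ++ nextS (k, 0, c, w) L) :=
  cwf_step hA L k 0 c w π

theorem cwf_swap {A : List Bool} {P : ℕ} (hA : A.length = P) (B : List Bool)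
    (π : List (ℕ × ℕ × ℕ × List Bool))
    (h : WF π (A ++ (true :: false :: true :: true :: false :: true :: B))) :
    WF ((2, P + 2, 0, []) :: (2, P + 2, 0, []) :: (0, P + 1, 0, [true, true, false]) ::
      (3, P + 3, 0, []) :: (0, P, 0, [true, false, true, true]) :: (5, P + 3, 0, []) ::
      (0, P + 5, 0, [true, true, false, true]) :: (4, P + 3, 0, []) :: π)
      (A ++ (true :: false :: true :: true :: false :: true :: B)) := by
  rw [cwf_step hA]
  refine ⟨by simp [WFI], ?_⟩
  rw [cwf_step hA]
  refine ⟨by simp [WFI, nextS], ?_⟩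
  rw [cwf_step hA]
  refine ⟨by simp [WFI, nextS], ?_⟩
  rw [cwf_step hA]
  refine ⟨by simp [WFI, nextS], ?_⟩
  rw [cwf_step0 hA]
  refine ⟨by simp [WFI, nextS], ?_⟩
  rw [cwf_step hA]
  refine ⟨by simp [WFI, nextS], ?_⟩
  rw [cwf_step hA]
  refine ⟨by simp [WFI, nextS], ?_⟩
  rw [cwf_step hA]
  refine ⟨by simp [WFI, nextS], ?_⟩
  simpa [nextS] using h

theorem WF_compile {Q : List (ℕ × ℕ)} : ∀ {n : ℕ}, TWF Q n → WF (Q.flatMap cS) (sw n) := by
  induction Q with
  | nil =>
    intro n h
    rw [TWF] at h
    subst h
    rw [List.flatMap_nil, WF]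
    simp [sw]
  | cons I Q ih =>
    intro n h
    rw [TWF] at h
    obtain ⟨h1, h2⟩ := h
    rw [List.flatMap_cons]
    by_cases h0 : I.1 = 0
    · rw [if_pos h0] at h1 h2
      have h3 := ih h2
      obtain ⟨m, rfl⟩ : ∃ m, n = I.2 + (2 + m) := ⟨n - I.2 - 2, by omega⟩
      have hs : sw (I.2 + (2 + m)) =
          sw I.2 ++ (true :: false :: true :: true :: false :: true :: sw m) := by
        rw [sw_add, sw_add]
        rfl
      rw [hs] at h3 ⊢
      rw [cS, if_pos h0]
      exact cwf_swap (length_sw I.2) (sw m) _ h3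
    · rw [if_neg h0] at h1 h2
      have h3 := ih h2
      obtain ⟨m, rfl⟩ : ∃ m, n = 3 + m := ⟨n - 3, by omega⟩
      have hs : sw (3 + m) = true :: false :: true :: true :: false :: true :: true :: false ::
          true :: sw m := by
        rw [sw_add]
        rfl
      rw [Nat.add_sub_cancel_left] at h3
      rw [hs, cS, if_neg h0]
      by_cases h4 : I.1 = 1
      · rw [if_pos h4]
        simp only [List.cons_append, List.nil_append, cwf_cons]
        simpa [WFI, nextS] using h3
      · rw [if_neg h4]
        simp only [List.cons_append, List.nil_append, cwf_cons]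
        simpa [WFI, nextS] using h3

end Pool.Agent.H77.SG
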