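import Pool.Agent.H77.SG.Problem

/-!
# Definitions used in the reduction

Quadratic systems, strict systems, programs, layouts.
-/

set_option autoImplicit false

namespace Pool.Agent.H77.SG

open Pool.Agent.H79.Cx Pool.Agent.H78.NP

/-! ### Quadratic systems -/

/-- The equation coded by `(t, k, i, j)`: `X k = 1` for `t = 0`, `X k = X i + X j` for `t = 1`,
`X k = X i * X j` otherwise. -/
def QH (X : ℕ → ℝ) (g : ℕ × ℕ × ℕ × ℕ) : Prop :=
  if g.1 = 0 then X g.2.1 = 1
  else if g.1 = 1 then X g.2.1 = X g.2.2.1 + X g.2.2.2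
  else X g.2.1 = X g.2.2.1 * X g.2.2.2

/-- Solvability of a quadratic system. -/
def QSat (G : List (ℕ × ℕ × ℕ × ℕ)) : Prop := ∃ X : ℕ → ℝ, ∀ g ∈ G, QH X g

/-- The fresh variable number `r` of the step number `n`. -/
def fv (n r : ℕ) : ℕ := 2 * (16 * n + r) + 1

/-- The equations added when the symbol `t` is read at step `n` and `s`, `u` are the two topmost
entries of the stack. -/
def qgates (t n : ℕ) (s u : ℕ × ℕ) : List (ℕ × ℕ × ℕ × ℕ) :=
  if t = 0 then []
  else if t = 1 then [(1, fv n 0, fv n 0, fv n 0)]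
  else if t = 2 then [(0, fv n 0, 0, 0)]
  else if t = 3 then [(1, fv n 0, s.1, u.1)]
  else if t = 4 then [(2, fv n 0, s.1, u.1)]
  else if t = 5 then [(1, fv n 1, fv n 1, fv n 1), (1, fv n 1, fv n 0, s.1)]
  else if t = 6 then [(1, s.1, fv n 0, u.1), (2, fv n 2, fv n 0, fv n 1), (0, fv n 3, 0, 0),
    (1, fv n 2, fv n 4, fv n 3)]
  else if t = 7 then [(1, u.1, fv n 0, s.1), (2, fv n 2, fv n 1, fv n 1),
    (2, fv n 3, fv n 0, fv n 2), (0, fv n 4, 0, 0), (1, fv n 3, fv n 5, fv n 4),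
    (2, fv n 7, fv n 6, fv n 6), (1, fv n 8, fv n 0, fv n 7)]
  else if t = 8 then []
  else if t = 9 then [(2, fv n 0, s.1, s.1), (2, fv n 1, u.1, u.1), (1, fv n 2, fv n 0, fv n 1),
    (2, fv n 3, s.2, u.2)]
  else [(2, fv n 0, s.1, u.1), (2, fv n 1, s.2, s.2), (2, fv n 2, u.2, u.2),
    (1, fv n 3, fv n 1, fv n 2)]

/-- The entry pushed on the stack when the symbol `(t, i)` is read at step `n`. -/
def qpush (t i n : ℕ) (s : ℕ × ℕ) : ℕ × ℕ :=
  if t = 0 then (2 * i, 0)
  else if t ≤ 5 then (fv n 0, 0)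
  else if t = 6 then (fv n 0, fv n 4)
  else if t = 7 then (fv n 5, fv n 8)
  else if t = 8 then (s.2, s.1)
  else if t = 9 then (fv n 2, fv n 3)
  else (fv n 0, fv n 3)

/-- The number of entries popped when the symbol `t` is read. -/
def qpop (t : ℕ) : ℕ := if t ≤ 2 then 0 else if t = 5 ∨ t = 8 then 1 else 2

/-- Reading one symbol (from right to left): the state consists of the stack, the number of symbols
read so far and the list of equations. -/
def qstep (x : ℕ × ℕ) (st : List (ℕ × ℕ) × ℕ × List (ℕ × ℕ × ℕ × ℕ)) :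
    List (ℕ × ℕ) × ℕ × List (ℕ × ℕ × ℕ × ℕ) :=
  (qpush x.1 x.2 st.2.1 (st.1.getD 0 (0, 0)) :: st.1.drop (qpop x.1), st.2.1 + 1,
    qgates x.1 st.2.1 (st.1.getD 0 (0, 0)) (st.1.getD 1 (0, 0)) ++ st.2.2)

/-- The quadratic system of a formula in prefix form. -/
def qsOf (l : List (ℕ × ℕ)) : List (ℕ × ℕ × ℕ × ℕ) :=
  (1, ((l.foldr qstep ([], 0, [])).1.getD 0 (0, 0)).1,
    ((l.foldr qstep ([], 0, [])).1.getD 0 (0, 0)).1,
    ((l.foldr qstep ([], 0, [])).1.getD 0 (0, 0)).1) :: (l.foldr qstep ([], 0, [])).2.2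

/-! ### Strict systems -/

/-- The inequality coded by `(t, x, y, z)`: `2 z < x + y` for `t = 0`, `x + y < 2 z` for `t = 1`,
`z < x y` otherwise. -/
def CH (x : ℕ → ℝ) (c : ℕ × ℕ × ℕ × ℕ) : Prop :=
  if c.1 = 0 then 2 * x c.2.2.2 < x c.2.1 + x c.2.2.1
  else if c.1 = 1 then x c.2.1 + x c.2.2.1 < 2 * x c.2.2.2
  else x c.2.2.2 < x c.2.1 * x c.2.2.1

/-- Solvability of a strict system in the open unit interval; the variables number `0`, `1`, `2`
are the constants `1/4`, `1/2`, `3/4`. -/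
def SSat (C : List (ℕ × ℕ × ℕ × ℕ)) : Prop :=
  ∃ x : ℕ → ℝ, (∀ i, 0 < x i ∧ x i < 1) ∧ x 0 = 1 / 4 ∧ x 1 = 1 / 2 ∧ x 2 = 3 / 4 ∧
    ∀ c ∈ C, CH x c

/-- Names of the variables of the strict system: the main variables, the powers of the unit, the
tolerances, the auxiliary variables. -/
def nX (i : ℕ) : ℕ := 4 * i + 3
/-- See `nX`. -/
def nU (k : ℕ) : ℕ := 4 * k + 4
/-- See `nX`. -/
def nE (k : ℕ) : ℕ := 4 * k + 5
/-- See `nX`. -/
def nF (q : ℕ) : ℕ := 4 * q + 6

/-- `x + y < z + w + tolerance`, with auxiliary variables number `q`, `q + 1`, `q + 2`. -/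
def mLE (q x y z w : ℕ) : List (ℕ × ℕ × ℕ × ℕ) :=
  [(1, x, y, nF q), (0, z, w, nF (q + 1)), (1, nF q, 0, nF (q + 2)),
    (0, nF (q + 1), nF 0, nF (q + 2))]

/-- `|x + y - z - w| < tolerance`, with `6` auxiliary variables. -/
def mEQ (q x y z w : ℕ) : List (ℕ × ℕ × ℕ × ℕ) := mLE q x y z w ++ mLE (q + 3) z w x y

/-- `z' ≤ x' y' + tolerance` for `x = x' + 1/2` and so on, with `5` auxiliary variables. -/
def mML (q x y z : ℕ) : List (ℕ × ℕ × ℕ × ℕ) :=
  [(1, x, y, nF q), (2, x, y, nF (q + 1))] ++ mLE (q + 2) z (nF q) (nF (q + 1)) 2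

/-- `z' = x' y'` up to the tolerance, with `24` auxiliary variables. -/
def mMU (q x y z : ℕ) : List (ℕ × ℕ × ℕ × ℕ) :=
  mEQ (q + 2) x (nF q) 1 1 ++ mEQ (q + 8) z (nF (q + 1)) 1 1 ++ mML (q + 14) x y z ++
    mML (q + 19) (nF q) y (nF (q + 1))

/-- The first auxiliary variable of the block number `b`. -/
def bs (b : ℕ) : ℕ := 64 * b + 1

/-- The inequalities for the equation number `n`, where `K` is the exponent of the unit. -/
def scGate (K n : ℕ) (g : ℕ × ℕ × ℕ × ℕ) : List (ℕ × ℕ × ℕ × ℕ) :=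
  if g.1 = 0 then mEQ (bs (2 * n + 1)) (nX g.2.1) (nX g.2.1) (nU K) (nU K)
  else if g.1 = 1 then mEQ (bs (2 * n + 1)) (nX g.2.1) 1 (nX g.2.2.1) (nX g.2.2.2)
  else mMU (bs (2 * n + 1) + 1) (nU K) (nX g.2.1) (nF (bs (2 * n + 1))) ++
    mMU (bs (2 * n + 1) + 25) (nX g.2.2.1) (nX g.2.2.2) (nF (bs (2 * n + 1)))

/-- `1/4 < x < 3/4`. -/
def mBox (x : ℕ) : List (ℕ × ℕ × ℕ × ℕ) := [(1, 0, 0, x), (0, 2, 2, x)]

/-- The strict system for a quadratic system `G` in the variables `0, …, m - 1`, with `K` squarings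
for the unit and `K'` squarings for the tolerance. -/
def scOf (G : List (ℕ × ℕ × ℕ × ℕ)) (m K K' : ℕ) : List (ℕ × ℕ × ℕ × ℕ) :=
  (2, 0, 0, nE 0) :: (0, 1, nE K', nF 0) ::
  ((List.range K').map fun k => (2, nE k, nE k, nE (k + 1))) ++
  ((List.range m).flatMap fun i => mBox (nX i)) ++
  ((List.range (K + 1)).flatMap fun k => mBox (nU k)) ++
  mEQ (bs 0) (nU 0) (nU 0) 1 2 ++
  ((List.range K).flatMap fun k => mMU (bs (2 * k + 2)) (nU k) (nU k) (nU (k + 1))) ++
  ((List.range G.length).flatMap fun n => scGate K n (G.getD n (0, 0, 0, 0)))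

/-- A bound for the names of the variables of a quadratic system. -/
def qVars (G : List (ℕ × ℕ × ℕ × ℕ)) : ℕ := (G.map fun g => g.2.1 + g.2.2.1 + g.2.2.2 + 1).sum

/-- The number of squarings for the unit. -/
def kUnit (G : List (ℕ × ℕ × ℕ × ℕ)) : ℕ := 16 * (qVars G + G.length + 1)

/-- The number of squarings for the tolerance. -/
def kTol (G : List (ℕ × ℕ × ℕ × ℕ)) : ℕ := 64 * (qVars G + kUnit G + G.length + 1)

/-- The strict system of a quadratic system. -/
def strictOf (G : List (ℕ × ℕ × ℕ × ℕ)) : List (ℕ × ℕ × ℕ × ℕ) :=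
  scOf G (qVars G) (kUnit G) (kTol G)

/-! ### Programs

A front is a list of wires, from bottom to top; a wire carries a value and a sign (`true` for
plus). An instruction is a quadruple: its kind, a position, a constant, a word of signs. -/

/-- The effect of an instruction on a front. The kinds are: `0` new variable, `1` constant,
`2` drop, `3` average gate for minus wires, `4` and `5` average gates for plus wires (with the
distinguished wire at the bottom or at the top), `6` product gate. -/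
def Rel (I : ℕ × ℕ × ℕ × List Bool) (F F' : List (ℝ × Bool)) : Prop :=
  if I.1 = 0 then ∃ A B v, F = A ++ B ∧ A.length = I.2.1 ∧ 0 < v ∧ v < 1 ∧
    F' = A ++ I.2.2.2.map (fun s => (v, s)) ++ B
  else if I.1 = 1 then ∃ A B, F = A ++ B ∧ A.length = I.2.1 ∧
    F' = A ++ I.2.2.2.map (fun s => ((I.2.2.1 : ℝ) / 4, s)) ++ B
  else if I.1 = 2 then ∃ A B a, F = A ++ a :: B ∧ A.length = I.2.1 ∧ F' = A ++ B
  else if I.1 = 3 then ∃ A B z x y, F = A ++ (z, false) :: (x, false) :: (y, false) :: B ∧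
    A.length = I.2.1 ∧ F' = A ++ B ∧ 2 < x + y + 2 * z
  else if I.1 = 4 then ∃ A B z x y, F = A ++ (z, true) :: (x, true) :: (y, true) :: B ∧
    A.length = I.2.1 ∧ F' = A ++ B ∧ x + y + 2 * z < 2
  else if I.1 = 5 then ∃ A B x y z, F = A ++ (x, true) :: (y, true) :: (z, true) :: B ∧
    A.length = I.2.1 ∧ F' = A ++ B ∧ x + y + 2 * z < 2
  else ∃ A B w s q, F = A ++ (w, false) :: (s, false) :: (q, true) :: B ∧
    A.length = I.2.1 ∧ F' = A ++ B ∧ q < s * w

/-- The program can be run on the front. -/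
def Run : List (ℕ × ℕ × ℕ × List Bool) → List (ℝ × Bool) → Prop
  | [], _ => True
  | I :: π, F => ∃ F', Rel I F F' ∧ Run π F'

/-- The signs of the front after an instruction. -/
def nextS (I : ℕ × ℕ × ℕ × List Bool) (S : List Bool) : List Bool :=
  if I.1 ≤ 1 then S.take I.2.1 ++ I.2.2.2 ++ S.drop I.2.1
  else if I.1 = 2 then S.take I.2.1 ++ S.drop (I.2.1 + 1)
  else S.take I.2.1 ++ S.drop (I.2.1 + 3)

/-- The instruction can be applied to fronts with the signs `S`. -/
def WFI (I : ℕ × ℕ × ℕ × List Bool) (S : List Bool) : Prop :=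
  if I.1 = 0 then I.2.1 ≤ S.length ∧ I.2.2.2 ≠ []
  else if I.1 = 1 then I.2.1 ≤ S.length ∧ I.2.2.2 ≠ [] ∧ 1 ≤ I.2.2.1 ∧ I.2.2.1 ≤ 3
  else if I.1 = 2 then I.2.1 < S.length
  else if I.1 = 3 then I.2.1 + 3 ≤ S.length ∧ (S.drop I.2.1).take 3 = [false, false, false]
  else if I.1 = 4 then I.2.1 + 3 ≤ S.length ∧ (S.drop I.2.1).take 3 = [true, true, true]
  else if I.1 = 5 then I.2.1 + 3 ≤ S.length ∧ (S.drop I.2.1).take 3 = [true, true, true]
  else I.1 = 6 ∧ I.2.1 + 3 ≤ S.length ∧ (S.drop I.2.1).take 3 = [false, false, true]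

/-- The program can be applied to fronts with the signs `S` and ends with the empty front. -/
def WF : List (ℕ × ℕ × ℕ × List Bool) → List Bool → Prop
  | [], S => S = []
  | I :: π, S => WFI I S ∧ WF π (nextS I S)

/-! ### Strand programs

A strand is three wires with the same value and the signs plus, minus, plus. -/

/-- The effect of a strand instruction `(t, p)`: exchange of the strands number `p` and `p + 1` for
`t = 0`, otherwise a gate which consumes the first three strands. -/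
def TRel (I : ℕ × ℕ) (L L' : List ℝ) : Prop :=
  if I.1 = 0 then ∃ A B a b, L = A ++ a :: b :: B ∧ A.length = I.2 ∧ L' = A ++ b :: a :: B
  else if I.1 = 1 then ∃ z x y, L = z :: x :: y :: L' ∧ 2 < x + y + 2 * z
  else ∃ y x z, L = y :: x :: z :: L' ∧ 1 < x * y + z

/-- The strand program can be run on the list of strands. -/
def TRun : List (ℕ × ℕ) → List ℝ → Prop
  | [], _ => True
  | I :: Q, L => ∃ L', TRel I L L' ∧ TRun Q L'

/-- The wires of a list of strands. -/
def wires (L : List ℝ) : List (ℝ × Bool) := L.flatMap fun a => [(a, true), (a, false), (a, true)]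

/-- The instructions for a strand instruction. -/
def cS (I : ℕ × ℕ) : List (ℕ × ℕ × ℕ × List Bool) :=
  if I.1 = 0 then
    [(2, 3 * I.2 + 2, 0, []), (2, 3 * I.2 + 2, 0, []), (0, 3 * I.2 + 1, 0, [true, true, false]),
      (3, 3 * I.2 + 3, 0, []), (0, 3 * I.2, 0, [true, false, true, true]), (5, 3 * I.2 + 3, 0, []),
      (0, 3 * I.2 + 5, 0, [true, true, false, true]), (4, 3 * I.2 + 3, 0, [])]
  else if I.1 = 1 then
    [(2, 0, 0, []), (2, 1, 0, []), (2, 1, 0, []), (2, 2, 0, []), (2, 2, 0, []), (3, 0, 0, []),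
      (2, 0, 0, [])]
  else
    [(2, 0, 0, []), (2, 1, 0, []), (2, 1, 0, []), (2, 2, 0, []), (2, 2, 0, []),
      (0, 2, 0, [true, false]), (1, 3, 2, [false]), (3, 3, 0, []), (6, 0, 0, []), (2, 0, 0, [])]

/-- The word of `k` strands. -/
def sw (k : ℕ) : List Bool := (List.range k).flatMap fun _ => [true, false, true]

/-- The instructions which create `k` strands with the value of the variable number `i` and `k'`
strands with the opposite value, from the position `P` on. -/
def mk (i P k k' : ℕ) : List (ℕ × ℕ × ℕ × List Bool) :=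
  if i < 3 then
    [(1, P, i + 1, sw k ++ [true]), (2, P + 3 * k, 0, []), (1, P + 3 * k, 3 - i, sw k' ++ [true]),
      (2, P + 3 * k + 3 * k', 0, [])]
  else
    [(0, P, 0, sw k ++ [true]), (0, P + 3 * k + 1, 0, true :: sw k'), (1, P + 3 * k, 2, [true]),
      (4, P + 3 * k, 0, [])]

/-- The three literals for an inequality; `(i, true)` stands for the opposite of `x i`. -/
def lits (c : ℕ × ℕ × ℕ × ℕ) : List (ℕ × Bool) :=
  if c.1 = 0 then [(c.2.2.2, true), (c.2.1, false), (c.2.2.1, false)]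
  else if c.1 = 1 then [(c.2.2.2, false), (c.2.1, true), (c.2.2.1, true)]
  else [(c.2.2.1, false), (c.2.1, false), (c.2.2.2, true)]

/-- The number of occurrences of a literal. -/
def occ (Λ : List (ℕ × Bool)) (a : ℕ × Bool) : ℕ := (Λ.filter fun b => decide (b = a)).length

/-- The literals sorted by variables. -/
def sorted (Λ : List (ℕ × Bool)) (n : ℕ) : List (ℕ × Bool) :=
  (List.range n).flatMap fun i =>
    (List.range (occ Λ (i, false))).map (fun _ => (i, false)) ++
    (List.range (occ Λ (i, true))).map (fun _ => (i, true))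

/-- The number of strands with variables below `i`. -/
def posOf (Λ : List (ℕ × Bool)) (i : ℕ) : ℕ := (sorted Λ i).length

/-- The instructions which create all strands. -/
def mkAll (Λ : List (ℕ × Bool)) (n : ℕ) : List (ℕ × ℕ × ℕ × List Bool) :=
  (List.range n).flatMap fun i => mk i (3 * posOf Λ i) (occ Λ (i, false)) (occ Λ (i, true))

/-- The position of the first occurrence of `a`. -/
def pos1 (U : List (ℕ × Bool)) (a : ℕ × Bool) : ℕ :=
  findFirst U.length fun j => decide (U.getD j (0, false) = a)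

/-- Moving the first occurrence of `a` to the end: the exchanges and the new list. -/
def mvStep (s : List (ℕ × Bool) × List (ℕ × ℕ)) (a : ℕ × Bool) :
    List (ℕ × Bool) × List (ℕ × ℕ) :=
  (s.1.take (pos1 s.1 a) ++ s.1.drop (pos1 s.1 a + 1) ++ [a],
    s.2 ++ (List.range (s.1.length - 1 - pos1 s.1 a)).map fun j => (0, pos1 s.1 a + j))

/-- The exchanges which transform `U` into `Λ`. -/
def moves (U Λ : List (ℕ × Bool)) : List (ℕ × ℕ) := (Λ.foldl mvStep (U, [])).2

/-- The gate instruction for an inequality. -/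
def gateOf (c : ℕ × ℕ × ℕ × ℕ) : ℕ × ℕ := if c.1 ≤ 1 then (1, 0) else (2, 0)

/-- A bound for the names of the variables of a strict system. -/
def cVars (C : List (ℕ × ℕ × ℕ × ℕ)) : ℕ := (C.map fun g => g.2.1 + g.2.2.1 + g.2.2.2 + 1).sum

/-- The strand program of a strict system. -/
def strandProg (C : List (ℕ × ℕ × ℕ × ℕ)) : List (ℕ × ℕ) :=
  moves (sorted (C.flatMap lits) (cVars C)) (C.flatMap lits) ++ C.map gateOf

/-- The program of a strict system. -/
def progOf (C : List (ℕ × ℕ × ℕ × ℕ)) : List (ℕ × ℕ × ℕ × List Bool) :=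
  mkAll (C.flatMap lits) (cVars C) ++ (strandProg C).flatMap cS

end Pool.Agent.H77.SG
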