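import Pool.Agent.H77.SG.PI

/-!
# The instance is computable in polynomial time

The calculus of polynomial-time functions (`PT`, closure properties with the attribute `fun_prop`) is in
`Pool.Agent.H79.PT.*` and `Pool.Agent.H78.NP.More` (`PT.flatMap`, `PT.filter`, `PT.map`);
examples of such proofs: `Pool/Agent/H78/NP/FormPT.lean`, `Pool/Agent/H77/Tard/PTRed.lean`. Typical proof: `unfold` the definition, `fun_prop` (first `simp only`
if necessary); conditions must be decided Boolean values or propositions handled by `PT.ite'`;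
functions of several arguments are given as lemmas of the form
`PT f → PT g → PT (fun x => F (f x) (g x))`. Folds: `PT.foldl` with an explicit polynomial bound
for the size of the intermediate states (or `foldC_eq`).

Rational numbers only occur as casts of integers: `repQ (z : ℚ) = (z, 1)`; write
`repInst (instOf o π)` as a function of the lists `bV`, `bE`, `bP` (see `PI.lean`) with integral
coordinates (segments as quintuples of four integers and a Boolean value). Integers: `PT.intCast`,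
`PT.intAdd`, `PT.intMul`, `PT.intSub`. `PT_natPair` (in `PI.lean`) for `nm`.
-/

set_option autoImplicit false

namespace Pool.Agent.H77.SG

open Pool.Agent.H79.Cx

/-- The data of a segment with integral end points. -/
def pjZ (o : Bool) (x y x' y' : ℤ) : ((ℤ × ℤ) × ℤ × ℤ) × ((ℤ × ℤ) × ℤ × ℤ) × Bool :=
  (((x, 1), (y, 1)), (((x', 1), (y', 1)), o))

theorem pj_repQ (x : ℤ) : repQ (x : ℚ) = (x, 1) := by
  unfold repQ
  rw [Rat.num_intCast, Rat.den_intCast]
  rfl

theorem pj_zseg (o : Bool) (x y x' y' : ℤ) : repSeg (zseg o x y x' y') = pjZ o x y x' y' := by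
  unfold repSeg zseg zpt pjZ
  simp only [pj_repQ]

@[fun_prop]
theorem pj_pt_Z {α : Type} [Enc α] (o : Bool) {x y x' y' : α → ℤ} (hx : PT x) (hy : PT y)
    (hx' : PT x') (hy' : PT y') : PT (fun a => pjZ o (x a) (y a) (x' a) (y' a)) := by
  unfold pjZ
  fun_prop

/-- The data of the segment of a vertex. -/
def pjV (o : Bool) (b : ℕ) (I : ℕ × ℕ × ℕ × List Bool) (v : ℕ × ℕ × ℕ) :
    ((ℤ × ℤ) × ℤ × ℤ) × ((ℤ × ℤ) × ℤ × ℤ) × Bool :=
  if v.2.2 = 2 then pjZ o (2 * v.1 + 1) (16 * v.2.1 + 2) (2 * v.1 + 2) (16 * v.2.1 + 4)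
  else if I.1 = 1 ∧ v.1 = 4 * b + 3 ∧ v.2.1 = I.2.1 ∧ v.2.2 = 0 then
    pjZ o (2 * v.1) (16 * v.2.1 + 4 - I.2.2.1) (2 * v.1) (16 * v.2.1 + 4 - I.2.2.1)
  else pjZ o (2 * v.1) (16 * v.2.1) (2 * v.1) (16 * v.2.1 + 4)

theorem pj_vSeg (o : Bool) (b : ℕ) (I : ℕ × ℕ × ℕ × List Bool) (v : ℕ × ℕ × ℕ) :
    repSeg (vSeg o b I v) = pjV o b I v := by
  obtain ⟨T, k, e⟩ := v
  unfold vSeg pjV
  simp only [Prod.mk.injEq]
  split_ifs <;> exact pj_zseg _ _ _ _ _

@[fun_prop]
theorem pj_pt_V {α : Type} [Enc α] (o : Bool) {b : α → ℕ} {I : α → ℕ × ℕ × ℕ × List Bool}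
    {v : α → ℕ × ℕ × ℕ} (hb : PT b) (hI : PT I) (hv : PT v) :
    PT (fun a => pjV o (b a) (I a) (v a)) := by
  unfold pjV
  fun_prop

/-- The data of the obstacles. -/
def pjW (o : Bool) (x y x' y' : ℤ) :
    List (((ℤ × ℤ) × ℤ × ℤ) × ((ℤ × ℤ) × ℤ × ℤ) × Bool) :=
  if o = true then [pjZ true x y x' y', pjZ true x y x y, pjZ true x' y' x' y']
  else [pjZ false x y x' y']

theorem pj_wall (o : Bool) (x y x' y' : ℤ) : (wallSeg o x y x' y').map repSeg = pjW o x y x' y' := by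
  unfold wallSeg pjW
  split_ifs <;> simp only [List.map_cons, List.map_nil, pj_zseg]

@[fun_prop]
theorem pj_pt_W {α : Type} [Enc α] (o : Bool) {x y x' y' : α → ℤ} (hx : PT x) (hy : PT y)
    (hx' : PT x') (hy' : PT y') : PT (fun a => pjW o (x a) (y a) (x' a) (y' a)) := by
  unfold pjW
  cases o
  · simp only [Bool.false_eq_true, if_false]
    fun_prop
  · simp only [if_true]
    fun_prop

/-- The data of the obstacle of an ordinary edge. -/
def pjP (o : Bool) (q : ℕ × ℕ × ℕ × Bool) :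
    List (((ℤ × ℤ) × ℤ × ℤ) × ((ℤ × ℤ) × ℤ × ℤ) × Bool) :=
  if low q.1 q.2.2.2 = true then
    pjW o (2 * q.1 + 1) (8 * (q.2.1 + q.2.2.1)) (2 * q.1 + 1) (8 * (q.2.1 + q.2.2.1) + 2)
  else pjW o (2 * q.1 + 1) (8 * (q.2.1 + q.2.2.1) + 2) (2 * q.1 + 1)
    (8 * (q.2.1 + q.2.2.1) + 4)

theorem pj_pWall (o : Bool) (q : ℕ × ℕ × ℕ × Bool) : (pWall o q).map repSeg = pjP o q := by
  unfold pWall pjP
  split_ifs <;> exact pj_wall _ _ _ _ _

theorem pj_pt_beq {α : Type} [Enc α] {f g : α → Bool} (hf : PT f) (hg : PT g) :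
    PT (fun a => f a == g a) := by
  have h : PT (fun a => !(f a ^^ g a)) := PT.not' (PT.xor' hf hg)
  refine PT.congr h fun a => ?_
  cases f a <;> cases g a <;> rfl

theorem pj_pt_low {α : Type} [Enc α] {T : α → ℕ} {s : α → Bool} (hT : PT T) (hs : PT s) :
    PT (fun a => low (T a) (s a)) := by
  unfold low
  refine pj_pt_beq (PT.natEq (PT.mod' hT (PT.const 2)) (PT.const 1)) hs

@[fun_prop]
theorem pj_pt_P {α : Type} [Enc α] (o : Bool) {q : α → ℕ × ℕ × ℕ × Bool} (hq : PT q) :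
    PT (fun a => pjP o (q a)) := by
  unfold pjP
  have h1 : PT (fun a => low (q a).1 (q a).2.2.2) := pj_pt_low (by fun_prop) (by fun_prop)
  refine PT.ite' (PT.dTrue h1) ?_ ?_
  · fun_prop
  · fun_prop

/-- The data of the obstacles of a block. -/
def pjO (o : Bool) (b : ℕ) (S : List Bool) (I : ℕ × ℕ × ℕ × List Bool) :
    List (((ℤ × ℤ) × ℤ × ℤ) × ((ℤ × ℤ) × ℤ × ℤ) × Bool) :=
  (bP b S I).flatMap (pjP o) ++
    if I.1 = 6 then pjW o (2 * (4 * b + 2)) (16 * (I.2.1 + 1) - 4) (2 * (4 * b + 2))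
      (16 * (I.2.1 + 1))
    else []

theorem pj_bO (o : Bool) (b : ℕ) (S : List Bool) (I : ℕ × ℕ × ℕ × List Bool) :
    (bO o b S I).map repSeg = pjO o b S I := by
  unfold bO pjO
  rw [List.map_append, List.map_flatMap]
  simp only [pj_pWall]
  congr 1
  split_ifs
  · exact pj_wall _ _ _ _ _
  · rfl

theorem pj_pt_O {α : Type} [Enc α] (o : Bool) {b : α → ℕ} {S : α → List Bool}
    {I : α → ℕ × ℕ × ℕ × List Bool} (hb : PT b) (hS : PT S) (hI : PT I) :
    PT (fun a => pjO o (b a) (S a) (I a)) := by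
  unfold pjO
  refine PT.append ?_ ?_
  · exact PT.flatMap (f := fun _ q => pjP o q) (by fun_prop) (PT_bP hb hS hI)
  · fun_prop

/-- The names of the neighbours. -/
def pjN (E : List ((ℕ × ℕ × ℕ) × (ℕ × ℕ × ℕ))) (v : ℕ × ℕ × ℕ) : List ℕ :=
  ((E.filter fun e => decide (nm e.1 = nm v)).map fun e => nm e.2) ++
    ((E.filter fun e => decide (nm e.2 = nm v)).map fun e => nm e.1)

@[fun_prop]
theorem pj_pt_nm {α : Type} [Enc α] {v : α → ℕ × ℕ × ℕ} (hv : PT v) : PT (fun a => nm (v a)) := by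
  unfold nm
  fun_prop

theorem pj_pt_N {α : Type} [Enc α] {E : α → List ((ℕ × ℕ × ℕ) × (ℕ × ℕ × ℕ))}
    {v : α → ℕ × ℕ × ℕ} (hE : PT E) (hv : PT v) : PT (fun a => pjN (E a) (v a)) := by
  unfold pjN
  refine PT.append ?_ ?_
  · refine PT.map' (f := fun _ e => nm e.2) (by fun_prop)
      (PT.filter (f := fun a e => decide (nm e.1 = nm (v a))) ?_ hE)
    exact PT.natEq (by fun_prop) (by fun_prop)
  · refine PT.map' (f := fun _ e => nm e.1) (by fun_prop)
      (PT.filter (f := fun a e => decide (nm e.2 = nm (v a))) ?_ hE)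
    exact PT.natEq (by fun_prop) (by fun_prop)

theorem pj_pt_lE : PT (fun π : List (ℕ × ℕ × ℕ × List Bool) => lE π) := by
  unfold lE
  exact PT.flatMap (f := fun _ B => bE B.1 B.2.1 B.2.2)
    (PT_bE (by fun_prop) (by fun_prop) (by fun_prop)) PT_blocks

theorem pj_repInst (o : Bool) (π : List (ℕ × ℕ × ℕ × List Bool)) : repInst (instOf o π) =
    (((blocks 0 [] π).flatMap fun B => (bV B.1 B.2.1 B.2.2).map fun v =>
        (v, pjV o B.1 B.2.2 v)).map fun x => (nm x.1, x.2, pjN (lE π) x.1),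
      (blocks 0 [] π).flatMap fun B => pjO o B.1 B.2.1 B.2.2) := by
  unfold repInst instOf mkInst
  simp only
  congr 1
  · unfold lV
    simp only [List.map_map, List.map_flatMap]
    refine List.flatMap_congr fun B _ => ?_
    refine List.map_congr_left fun v _ => ?_
    simp only [Function.comp, pj_vSeg]
    rfl
  · unfold lO
    simp only [List.map_flatMap, pj_bO]

theorem PT_instOf (o : Bool) :
    PT (fun π : List (ℕ × ℕ × ℕ × List Bool) => repInst (instOf o π)) := by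
  refine PT.congr ?_ fun π => (pj_repInst o π).symm
  refine PT.pair ?_ ?_
  · refine PT.map' (f := fun (π : List (ℕ × ℕ × ℕ × List Bool))
      (x : (ℕ × ℕ × ℕ) × (((ℤ × ℤ) × ℤ × ℤ) × ((ℤ × ℤ) × ℤ × ℤ) × Bool)) =>
      (nm x.1, x.2, pjN (lE π) x.1)) ?_ ?_
    · refine PT.pair (by fun_prop) (PT.pair (by fun_prop) ?_)
      exact pj_pt_N (PT.comp pj_pt_lE (by fun_prop)) (by fun_prop)
    · refine PT.flatMap (f := fun _ B => (bV B.1 B.2.1 B.2.2).map fun v =>
        (v, pjV o B.1 B.2.2 v)) ?_ PT_blocks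
      refine PT.map' (f := fun (p : List (ℕ × ℕ × ℕ × List Bool) ×
        (ℕ × List Bool × (ℕ × ℕ × ℕ × List Bool))) v => (v, pjV o p.2.1 p.2.2.2 v)) ?_ ?_
      · fun_prop
      · exact PT_bV (by fun_prop) (by fun_prop) (by fun_prop)
  · refine PT.flatMap (f := fun _ B => pjO o B.1 B.2.1 B.2.2) ?_ PT_blocks
    exact pj_pt_O o (by fun_prop) (by fun_prop) (by fun_prop)

end Pool.Agent.H77.SG
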