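import Pool.Agent.H77.SG.Defs
import Pool.Agent.H78.NP.More

/-!
# The program is computable in polynomial time

The calculus of polynomial-time functions (`PT`, closure properties with the attribute `fun_prop`) is in
`Pool.Agent.H79.PT.*` and `Pool.Agent.H78.NP.More` (`PT.flatMap`, `PT.filter`, `PT.map`);
examples of such proofs: `Pool/Agent/H78/NP/FormPT.lean`, `Pool/Agent/H77/Tard/PTRed.lean`. Typical proof: `unfold` the definition, `fun_prop` (first `simp only`
if necessary); conditions must be decided Boolean values or propositions handled by `PT.ite'`;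
functions of several arguments are given as lemmas of the form
`PT f → PT g → PT (fun x => F (f x) (g x))`. Folds: `PT.foldl` with an explicit polynomial bound
for the size of the intermediate states (or `foldC_eq`).

In `moves` the list of literals keeps its length, and every step adds at most that many exchanges.
-/

set_option autoImplicit false

namespace Pool.Agent.H77.SG

open Pool.Agent.H79.Cx

section basic

variable {α β : Type} [Enc α] [Enc β]

@[fun_prop]
theorem pp_take {l : α → List β} {n : α → ℕ} (hl : PT l) (hn : PT n) :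
    PT (fun x => (l x).take (n x)) := by
  have h : PT (fun x => ((l x).reverse.drop ((l x).length - n x)).reverse) := by fun_prop
  refine PT.congr h fun x => ?_
  rw [List.drop_reverse, List.reverse_reverse, List.take_eq_take_iff]
  omega

@[fun_prop]
theorem pp_eq {a b : α → ℕ × Bool} (ha : PT a) (hb : PT b) :
    PT (fun x => decide (a x = b x)) := by
  have h : PT (fun x => decide ((a x).1 = (b x).1) && !((a x).2 ^^ (b x).2)) := by
    refine PT.and' (by fun_prop) (PT.not' (PT.xor' (by fun_prop) (by fun_prop)))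
  refine PT.congr h fun x => ?_
  rw [Bool.eq_iff_iff]
  generalize a x = u
  generalize b x = v
  obtain ⟨u1, u2⟩ := u
  obtain ⟨v1, v2⟩ := v
  cases u2 <;> cases v2 <;> simp

@[fun_prop]
theorem pp_pos1 {U : α → List (ℕ × Bool)} {a : α → ℕ × Bool} (hU : PT U) (ha : PT a) :
    PT (fun x => pos1 (U x) (a x)) := by
  unfold pos1
  fun_prop

@[fun_prop]
theorem pp_mvStep {s : α → List (ℕ × Bool) × List (ℕ × ℕ)} {a : α → ℕ × Bool} (hs : PT s)
    (ha : PT a) : PT (fun x => mvStep (s x) (a x)) := by
  unfold mvStep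
  fun_prop

theorem pp_step_len (s : List (ℕ × Bool) × List (ℕ × ℕ)) (a : ℕ × Bool) :
    (mvStep s a).1.length ≤ s.1.length + 1 := by
  unfold mvStep
  simp only [List.length_append, List.length_take, List.length_drop, List.length_cons,
    List.length_nil]
  omega

theorem pp_step_sz1 (s : List (ℕ × Bool) × List (ℕ × ℕ)) (a : ℕ × Bool) :
    sz (mvStep s a).1 ≤ sz s.1 + sz a + 1 := by
  unfold mvStep
  have h1 := sz_append (s.1.take (pos1 s.1 a) ++ s.1.drop (pos1 s.1 a + 1)) [a]
  have h2 := sz_append (s.1.take (pos1 s.1 a)) (s.1.drop (pos1 s.1 a + 1))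
  have h3 := sz_append (s.1.take (pos1 s.1 a)) (s.1.drop (pos1 s.1 a))
  have h4 : sz (s.1.drop (pos1 s.1 a + 1)) ≤ sz (s.1.drop (pos1 s.1 a)) := by
    rw [← List.drop_drop]
    exact sz_drop_le _ 1
  rw [List.take_append_drop] at h3
  simp only [sz_cons, sz_nil] at h1
  simp only
  omega

theorem pp_step_sz2 (s : List (ℕ × Bool) × List (ℕ × ℕ)) (a : ℕ × Bool) :
    sz (mvStep s a).2 ≤ sz s.2 + s.1.length * (2 * s.1.length + 4) := by
  unfold mvStep
  simp only
  have h1 := sz_append s.2 ((List.range (s.1.length - 1 - pos1 s.1 a)).map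
    fun j => ((0 : ℕ), pos1 s.1 a + j))
  have h2 := sz_list_le ((List.range (s.1.length - 1 - pos1 s.1 a)).map
    fun j => ((0 : ℕ), pos1 s.1 a + j)) (2 * s.1.length + 3) (by
      intro b hb
      rw [List.mem_map] at hb
      obtain ⟨j, hj, rfl⟩ := hb
      rw [List.mem_range] at hj
      simp only [sz_pair, sz_nat]
      omega)
  rw [List.length_map, List.length_range] at h2
  have h3 : (s.1.length - 1 - pos1 s.1 a) * (1 + (2 * s.1.length + 3)) ≤
      s.1.length * (2 * s.1.length + 4) := by
    refine Nat.mul_le_mul ?_ ?_ <;> omega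
  omega

theorem pp_fold (l : List (ℕ × Bool)) : ∀ (s : List (ℕ × Bool) × List (ℕ × ℕ)) (N : ℕ),
    s.1.length + l.length ≤ N → sz (l.foldl mvStep s).1 ≤ sz s.1 + sz l ∧
      sz (l.foldl mvStep s).2 ≤ sz s.2 + l.length * (N * (2 * N + 4)) := by
  induction l with
  | nil =>
    intro s N _
    simp
  | cons a l ih =>
    intro s N hN
    rw [List.foldl_cons]
    rw [List.length_cons] at hN
    have h0 := pp_step_len s a
    obtain ⟨h1, h2⟩ := ih (mvStep s a) N (by omega)
    have h3 := pp_step_sz1 s a
    have h4 := pp_step_sz2 s a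
    have h5 : s.1.length * (2 * s.1.length + 4) ≤ N * (2 * N + 4) := by
      refine Nat.mul_le_mul ?_ ?_ <;> omega
    rw [sz_cons, List.length_cons, Nat.succ_mul]
    omega

end basic

theorem PT_moves {α : Type} [Enc α] {U Λ : α → List (ℕ × Bool)} (hU : PT U) (hΛ : PT Λ) :
    PT (fun x => moves (U x) (Λ x)) := by
  unfold moves
  obtain ⟨R, hR⟩ := hU.size_le
  obtain ⟨Q, hQ⟩ := hΛ.size_le
  have h : PT (fun x => (Λ x).foldl mvStep (U x, [])) := by
    refine PT.foldl (f := fun _ s a => mvStep s a) (by fun_prop) hΛ (by fun_prop)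
      (2 + R + Q + Q * ((R + Q) * (2 * (R + Q) + 4))) ?_
    intro x i hi
    have hN : (U x).length + ((Λ x).take i).length ≤ R.eval (sz x) + Q.eval (sz x) := by
      have h1 := length_le_sz (U x)
      have h2 := length_le_sz (Λ x)
      have h3 := hR x
      have h4 := hQ x
      rw [List.length_take]
      omega
    obtain ⟨h1, h2⟩ := pp_fold ((Λ x).take i) (U x, []) _ hN
    have h3 := hR x
    have h4 := hQ x
    have h5 := sz_take_le (Λ x) i
    have h6 : ((Λ x).take i).length ≤ Q.eval (sz x) := by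
      have h7 := length_le_sz (Λ x)
      rw [List.length_take]
      omega
    have h7 := Nat.mul_le_mul_right ((R.eval (sz x) + Q.eval (sz x)) *
      (2 * (R.eval (sz x) + Q.eval (sz x)) + 4)) h6
    change sz (((Λ x).take i).foldl mvStep (U x, [])) ≤ _
    simp only [sz_pair, Polynomial.eval_add, Polynomial.eval_mul, Polynomial.eval_ofNat]
    simp only [sz_nil] at h1 h2
    omega
  exact PT.snd' h

section more

variable {α : Type} [Enc α]

@[fun_prop]
theorem pp_sw {k : α → ℕ} (hk : PT k) : PT (fun x => sw (k x)) := by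
  unfold sw
  fun_prop

@[fun_prop]
theorem pp_mk {i P k k' : α → ℕ} (hi : PT i) (hP : PT P) (hk : PT k) (hk' : PT k') :
    PT (fun x => mk (i x) (P x) (k x) (k' x)) := by
  unfold mk
  fun_prop

@[fun_prop]
theorem pp_occ {L : α → List (ℕ × Bool)} {a : α → ℕ × Bool} (hL : PT L) (ha : PT a) :
    PT (fun x => occ (L x) (a x)) := by
  unfold occ
  fun_prop

@[fun_prop]
theorem pp_sorted {L : α → List (ℕ × Bool)} {n : α → ℕ} (hL : PT L) (hn : PT n) :
    PT (fun x => sorted (L x) (n x)) := by
  unfold sorted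
  fun_prop

@[fun_prop]
theorem pp_posOf {L : α → List (ℕ × Bool)} {n : α → ℕ} (hL : PT L) (hn : PT n) :
    PT (fun x => posOf (L x) (n x)) := by
  unfold posOf
  fun_prop

@[fun_prop]
theorem pp_mkAll {L : α → List (ℕ × Bool)} {n : α → ℕ} (hL : PT L) (hn : PT n) :
    PT (fun x => mkAll (L x) (n x)) := by
  unfold mkAll
  fun_prop

@[fun_prop]
theorem pp_lits {c : α → ℕ × ℕ × ℕ × ℕ} (hc : PT c) : PT (fun x => lits (c x)) := by
  unfold lits
  fun_prop

@[fun_prop]
theorem pp_gateOf {c : α → ℕ × ℕ × ℕ × ℕ} (hc : PT c) : PT (fun x => gateOf (c x)) := by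
  unfold gateOf
  fun_prop

@[fun_prop]
theorem pp_cS {I : α → ℕ × ℕ} (hI : PT I) : PT (fun x => cS (I x)) := by
  unfold cS
  fun_prop

@[fun_prop]
theorem pp_cVars {C : α → List (ℕ × ℕ × ℕ × ℕ)} (hC : PT C) : PT (fun x => cVars (C x)) := by
  unfold cVars
  fun_prop

attribute [fun_prop] PT_moves

@[fun_prop]
theorem pp_strandProg {C : α → List (ℕ × ℕ × ℕ × ℕ)} (hC : PT C) :
    PT (fun x => strandProg (C x)) := by
  unfold strandProg
  fun_prop

end more

theorem PT_progOf : PT (fun C : List (ℕ × ℕ × ℕ × ℕ) => progOf C) := by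
  unfold progOf
  fun_prop

end Pool.Agent.H77.SG
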