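import Pool.Agent.H77.SG.Defs
import Pool.Agent.H78.NP.More

/-!
# The quadratic system is computable in polynomial time

The calculus of polynomial-time functions (`PT`, closure properties with the attribute `fun_prop`) is in
`Pool.Agent.H79.PT.*` and `Pool.Agent.H78.NP.More` (`PT.flatMap`, `PT.filter`, `PT.map`);
examples of such proofs: `Pool/Agent/H78/NP/FormPT.lean`, `Pool/Agent/H77/Tard/PTRed.lean`. Typical proof: `unfold` the definition, `fun_prop` (first `simp only`
if necessary); conditions must be decided Boolean values or propositions handled by `PT.ite'`;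
functions of several arguments are given as lemmas of the form
`PT f → PT g → PT (fun x => F (f x) (g x))`. Folds: `PT.foldl` with an explicit polynomial bound
for the size of the intermediate states (or `foldC_eq`).

The states of the fold: the stack has at most as many entries as symbols were read, all names are at
most `32 * (number of symbols) + 2 * (largest index of a variable) + 32`, and every symbol adds at
most `8` equations. (`l.foldr f s = l.reverse.foldl (fun a b => f b a) s`.)
-/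

set_option autoImplicit false

namespace Pool.Agent.H77.SG

open Pool.Agent.H79.Cx

/-! ### The step is computable -/

section step

variable {α : Type} [Enc α]

@[fun_prop]
theorem pq_fv {n r : α → ℕ} (hn : PT n) (hr : PT r) : PT (fun a => fv (n a) (r a)) := by
  unfold fv
  fun_prop

@[fun_prop]
theorem pq_qpop {t : α → ℕ} (ht : PT t) : PT (fun a => qpop (t a)) := by
  unfold qpop
  fun_prop

@[fun_prop]
theorem pq_qpush {t i n : α → ℕ} {s : α → ℕ × ℕ} (ht : PT t) (hi : PT i) (hn : PT n)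
    (hs : PT s) : PT (fun a => qpush (t a) (i a) (n a) (s a)) := by
  unfold qpush
  fun_prop

@[fun_prop]
theorem pq_qgates {t n : α → ℕ} {s u : α → ℕ × ℕ} (ht : PT t) (hn : PT n)
    (hs : PT s) (hu : PT u) : PT (fun a => qgates (t a) (n a) (s a) (u a)) := by
  unfold qgates
  fun_prop

@[fun_prop]
theorem pq_qstep {x : α → ℕ × ℕ} {st : α → List (ℕ × ℕ) × ℕ × List (ℕ × ℕ × ℕ × ℕ)}
    (hx : PT x) (hst : PT st) : PT (fun a => qstep (x a) (st a)) := by
  unfold qstep
  fun_prop

end step

/-! ### Bounds for the states -/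

/-- Bounds for the entries of an equation. -/
def pqB (M : ℕ) (g : ℕ × ℕ × ℕ × ℕ) : Prop := g.1 ≤ M ∧ g.2.1 ≤ M ∧ g.2.2.1 ≤ M ∧ g.2.2.2 ≤ M

/-- The invariant of the fold. -/
def pqInv (M n : ℕ) (st : List (ℕ × ℕ) × ℕ × List (ℕ × ℕ × ℕ × ℕ)) : Prop :=
  st.2.1 = n ∧ st.1.length ≤ n ∧ (∀ p ∈ st.1, p.1 ≤ M ∧ p.2 ≤ M) ∧ st.2.2.length ≤ 8 * n ∧
    ∀ g ∈ st.2.2, pqB M g

theorem pq_gates_length (t n : ℕ) (s u : ℕ × ℕ) : (qgates t n s u).length ≤ 8 := by
  unfold qgates
  split_ifs <;> simp

theorem pq_gates_bound {t n M : ℕ} {s u : ℕ × ℕ} (hs : s.1 ≤ M ∧ s.2 ≤ M)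
    (hu : u.1 ≤ M ∧ u.2 ≤ M) (hn : 32 * n + 32 ≤ M) : ∀ g ∈ qgates t n s u, pqB M g := by
  obtain ⟨s1, s2⟩ := hs
  obtain ⟨u1, u2⟩ := hu
  have hf : ∀ r ≤ 8, fv n r ≤ M := by
    intro r hr
    unfold fv
    omega
  have h0 := hf 0 (by norm_num)
  have h1 := hf 1 (by norm_num)
  have h2 := hf 2 (by norm_num)
  have h3 := hf 3 (by norm_num)
  have h4 := hf 4 (by norm_num)
  have h5 := hf 5 (by norm_num)
  have h6 := hf 6 (by norm_num)
  have h7 := hf 7 (by norm_num)
  have h8 := hf 8 (by norm_num)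
  have c0 : 0 ≤ M := Nat.zero_le _
  have c1 : 1 ≤ M := by omega
  have c2 : 2 ≤ M := by omega
  clear hf
  intro g hg
  unfold qgates at hg
  repeat' split at hg
  all_goals simp only [List.mem_cons, List.not_mem_nil, or_false] at hg
  all_goals repeat' rcases hg with hg | hg
  all_goals refine ⟨?_, ?_, ?_, ?_⟩ <;> dsimp only <;> assumption

theorem pq_push_bound {t i n M : ℕ} {s : ℕ × ℕ} (hs : s.1 ≤ M ∧ s.2 ≤ M)
    (hi : 2 * i ≤ M) (hn : 32 * n + 32 ≤ M) :
    (qpush t i n s).1 ≤ M ∧ (qpush t i n s).2 ≤ M := by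
  obtain ⟨s1, s2⟩ := hs
  unfold qpush fv
  split_ifs <;> constructor <;> dsimp only <;> omega

theorem pq_getD_bound {M : ℕ} {l : List (ℕ × ℕ)} (h : ∀ p ∈ l, p.1 ≤ M ∧ p.2 ≤ M) (i : ℕ) :
    (l.getD i (0, 0)).1 ≤ M ∧ (l.getD i (0, 0)).2 ≤ M := by
  rw [List.getD_eq_getElem?_getD]
  cases hi : l[i]? with
  | none => simp
  | some p =>
    simp only [Option.getD_some]
    exact h p (List.mem_of_getElem? hi)

theorem pq_step_inv {M n : ℕ} {st : List (ℕ × ℕ) × ℕ × List (ℕ × ℕ × ℕ × ℕ)}
    (h : pqInv M n st) {x : ℕ × ℕ} (hx : 2 * x.2 ≤ M) (hn : 32 * n + 32 ≤ M) :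
    pqInv M (n + 1) (qstep x st) := by
  obtain ⟨h1, h2, h3, h4, h5⟩ := h
  have g0 := pq_getD_bound h3 0
  have g1 := pq_getD_bound h3 1
  refine ⟨?_, ?_, ?_, ?_, ?_⟩
  · simp only [qstep, h1]
  · simp only [qstep, List.length_cons, List.length_drop]
    omega
  · intro p hp
    simp only [qstep, List.mem_cons] at hp
    rcases hp with hp | hp
    · rw [hp]
      exact pq_push_bound g0 hx (by rw [h1]; exact hn)
    · exact h3 p (List.mem_of_mem_drop hp)
  · have := pq_gates_length x.1 st.2.1 (st.1.getD 0 (0, 0)) (st.1.getD 1 (0, 0))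
    simp only [qstep, List.length_append]
    omega
  · intro g hg
    simp only [qstep, List.mem_append] at hg
    rcases hg with hg | hg
    · exact pq_gates_bound g0 g1 (by rw [h1]; exact hn) g hg
    · exact h5 g hg

theorem pq_fold_inv {M : ℕ} (m : List (ℕ × ℕ)) (hm : ∀ x ∈ m, 2 * x.2 ≤ M)
    (hM : 32 * m.length ≤ M) :
    pqInv M m.length (m.foldl (fun s b => qstep b s) ([], 0, [])) := by
  induction m using List.reverseRecOn with
  | nil => simp [pqInv]
  | append_singleton m b ih =>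
    rw [List.length_append, List.length_singleton] at hM
    rw [List.foldl_append, List.foldl_cons, List.foldl_nil, List.length_append,
      List.length_singleton]
    refine pq_step_inv (ih (fun x hx => hm x (by simp [hx])) (by omega)) (hm b (by simp))
      (by omega)

theorem pq_sz_mem {l : List (ℕ × ℕ)} {x : ℕ × ℕ} (hx : x ∈ l) : 2 * x.2 ≤ sz l := by
  have h := sz_mem_le hx
  rw [sz_pair, sz_nat, sz_nat] at h
  omega

theorem pq_inv_size {M n : ℕ} {st : List (ℕ × ℕ) × ℕ × List (ℕ × ℕ × ℕ × ℕ)}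
    (h : pqInv M n st) :
    sz st ≤ 1 + (1 + n * (1 + (3 + 4 * M))) + (1 + (2 * n + 1) + (1 + 8 * n * (1 + (7 + 8 * M)))) := by
  obtain ⟨h1, h2, h3, h4, h5⟩ := h
  have a1 : sz st.1 ≤ 1 + n * (1 + (3 + 4 * M)) := by
    refine (sz_list_le st.1 (3 + 4 * M) ?_).trans
      (Nat.add_le_add_left (Nat.mul_le_mul_right _ h2) _)
    intro p hp
    have := h3 p hp
    rw [sz_pair, sz_nat, sz_nat]
    omega
  have a2 : sz st.2.2 ≤ 1 + 8 * n * (1 + (7 + 8 * M)) := by
    refine (sz_list_le st.2.2 (7 + 8 * M) ?_).trans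
      (Nat.add_le_add_left (Nat.mul_le_mul_right _ h4) _)
    intro g hg
    obtain ⟨b1, b2, b3, b4⟩ := h5 g hg
    rw [sz_pair, sz_pair, sz_pair, sz_nat, sz_nat, sz_nat, sz_nat]
    omega
  rw [sz_pair, sz_pair, sz_nat, h1]
  omega

theorem pq_fold : PT (fun l : List (ℕ × ℕ) => l.foldr qstep ([], 0, [])) := by
  have h : PT (fun l : List (ℕ × ℕ) =>
      l.reverse.foldl (fun s b => qstep b s) (([], 0, []) :
        List (ℕ × ℕ) × ℕ × List (ℕ × ℕ × ℕ × ℕ))) := by
    refine PT.foldl (f := fun _ s b => qstep b s) (by fun_prop) (by fun_prop) (by fun_prop)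
      (1 + (1 + Polynomial.X * (1 + (3 + 4 * (33 * Polynomial.X)))) +
        (1 + (2 * Polynomial.X + 1) +
          (1 + 8 * Polynomial.X * (1 + (7 + 8 * (33 * Polynomial.X)))))) ?_
    intro l i _
    have hl := length_le_sz l
    have hlen : (l.reverse.take i).length ≤ sz l := by
      have := List.length_take_le i l.reverse
      rw [List.length_take, List.length_reverse]
      omega
    have hinv := pq_fold_inv (M := 33 * sz l) (l.reverse.take i) (fun x hx => by
      have := pq_sz_mem (List.mem_reverse.1 (List.mem_of_mem_take hx))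
      omega) (by omega)
    refine (pq_inv_size hinv).trans ?_
    simp only [Polynomial.eval_add, Polynomial.eval_mul, Polynomial.eval_X, Polynomial.eval_one,
      Polynomial.eval_ofNat]
    gcongr
  refine PT.congr h fun l => ?_
  rw [List.foldl_reverse]

theorem PT_qsOf : PT (fun l : List (ℕ × ℕ) => qsOf l) := by
  have h := pq_fold
  unfold qsOf
  fun_prop

end Pool.Agent.H77.SG
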