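import Pool.Agent.H77.SG.Defs
import Pool.Agent.H78.NP.More

/-!
# The strict system is computable in polynomial time

The calculus of polynomial-time functions (`PT`, closure properties with the attribute `fun_prop`) is in
`Pool.Agent.H79.PT.*` and `Pool.Agent.H78.NP.More` (`PT.flatMap`, `PT.filter`, `PT.map`);
examples of such proofs: `Pool/Agent/H78/NP/FormPT.lean`, `Pool/Agent/H77/Tard/PTRed.lean`. Typical proof: `unfold` the definition, `fun_prop` (first `simp only`
if necessary); conditions must be decided Boolean values or propositions handled by `PT.ite'`;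
functions of several arguments are given as lemmas of the form
`PT f → PT g → PT (fun x => F (f x) (g x))`. Folds: `PT.foldl` with an explicit polynomial bound
for the size of the intermediate states (or `foldC_eq`).
-/

set_option autoImplicit false

namespace Pool.Agent.H77.SG

open Pool.Agent.H79.Cx

variable {α : Type} [Enc α]

theorem ps_nX {f : α → ℕ} (hf : PT f) : PT (fun a => nX (f a)) := by
  unfold nX
  fun_prop

theorem ps_nU {f : α → ℕ} (hf : PT f) : PT (fun a => nU (f a)) := by
  unfold nU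
  fun_prop

theorem ps_nE {f : α → ℕ} (hf : PT f) : PT (fun a => nE (f a)) := by
  unfold nE
  fun_prop

theorem ps_nF {f : α → ℕ} (hf : PT f) : PT (fun a => nF (f a)) := by
  unfold nF
  fun_prop

attribute [fun_prop] ps_nX ps_nU ps_nE ps_nF

@[fun_prop]
theorem ps_mLE {q x y z w : α → ℕ} (hq : PT q) (hx : PT x) (hy : PT y) (hz : PT z) (hw : PT w) :
    PT (fun a => mLE (q a) (x a) (y a) (z a) (w a)) := by
  unfold mLE
  fun_prop

@[fun_prop]
theorem ps_mEQ {q x y z w : α → ℕ} (hq : PT q) (hx : PT x) (hy : PT y) (hz : PT z) (hw : PT w) :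
    PT (fun a => mEQ (q a) (x a) (y a) (z a) (w a)) := by
  unfold mEQ
  fun_prop

@[fun_prop]
theorem ps_mML {q x y z : α → ℕ} (hq : PT q) (hx : PT x) (hy : PT y) (hz : PT z) :
    PT (fun a => mML (q a) (x a) (y a) (z a)) := by
  unfold mML
  fun_prop

@[fun_prop]
theorem ps_mMU {q x y z : α → ℕ} (hq : PT q) (hx : PT x) (hy : PT y) (hz : PT z) :
    PT (fun a => mMU (q a) (x a) (y a) (z a)) := by
  unfold mMU
  fun_prop

@[fun_prop]
theorem ps_bs {f : α → ℕ} (hf : PT f) : PT (fun a => bs (f a)) := by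
  unfold bs
  fun_prop

@[fun_prop]
theorem ps_scGate {K n : α → ℕ} {g : α → ℕ × ℕ × ℕ × ℕ} (hK : PT K) (hn : PT n) (hg : PT g) :
    PT (fun a => scGate (K a) (n a) (g a)) := by
  unfold scGate
  fun_prop

@[fun_prop]
theorem ps_mBox {f : α → ℕ} (hf : PT f) : PT (fun a => mBox (f a)) := by
  unfold mBox
  fun_prop

@[fun_prop]
theorem ps_scOf {G : α → List (ℕ × ℕ × ℕ × ℕ)} {m K K' : α → ℕ} (hG : PT G) (hm : PT m)
    (hK : PT K) (hK' : PT K') : PT (fun a => scOf (G a) (m a) (K a) (K' a)) := by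
  unfold scOf
  fun_prop

@[fun_prop]
theorem ps_qVars {G : α → List (ℕ × ℕ × ℕ × ℕ)} (hG : PT G) : PT (fun a => qVars (G a)) := by
  unfold qVars
  fun_prop

@[fun_prop]
theorem ps_kUnit {G : α → List (ℕ × ℕ × ℕ × ℕ)} (hG : PT G) : PT (fun a => kUnit (G a)) := by
  unfold kUnit
  fun_prop

@[fun_prop]
theorem ps_kTol {G : α → List (ℕ × ℕ × ℕ × ℕ)} (hG : PT G) : PT (fun a => kTol (G a)) := by
  unfold kTol
  fun_prop

theorem PT_strictOf : PT (fun G : List (ℕ × ℕ × ℕ × ℕ) => strictOf G) := by
  unfold strictOf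
  fun_prop

end Pool.Agent.H77.SG
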