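import Pool.Agent.H77.SG.RunM
import Pool.Agent.H77.SG.CSwap
import Pool.Agent.H77.SG.CWF

/-!
# Creation of the strands

PROOFS. `relL_mk`: for `i < 3` (constants): `constant (i + 1) / 4` with the word `sw k ++ [+]`, drop
of the last wire, the same for `(3 - i) / 4` and `k'`. For `3 ≤ i`: after the first two instructions the
front is `wires L ++ (k strands v) ++ v+ ++ v'+ ++ (k' strands v')`; the constant `κ = 2 / 4` is put
before `v+` and the gate `4` at this place consumes `κ+ v+ v'+` and says `v + v' + 2 κ < 2`, that is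
`v + v' < 1`. `run_mkAll`: `Run_append`, induction on `n` (`List.range_succ`), with `posOf Λ i` the
number of strands created before. For `i ≥ n` take any pair of values.
-/

set_option autoImplicit false

namespace Pool.Agent.H77.SG

/-- The values of a variable and of its opposite. -/
def Pair (i : ℕ) (v v' : ℝ) : Prop :=
  if i < 3 then v = ((i : ℝ) + 1) / 4 ∧ v' = (3 - (i : ℝ)) / 4 else 0 < v ∧ 0 < v' ∧ v + v' < 1

private lemma mka_rel0 (A B : List (ℝ × Bool)) (p c : ℕ) (w : List Bool) (hp : A.length = p)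
    (F' : List (ℝ × Bool)) :
    Rel (0, p, c, w) (A ++ B) F' ↔
      ∃ v : ℝ, 0 < v ∧ v < 1 ∧ F' = A ++ (w.map (fun s => (v, s)) ++ B) := by
  simp only [Rel, if_true]
  constructor
  · rintro ⟨A', B', v, h1, h2, h3, h4, h5⟩
    obtain ⟨rfl, rfl⟩ := List.append_inj h1 (by rw [hp, h2])
    exact ⟨v, h3, h4, by rw [h5, List.append_assoc]⟩
  · rintro ⟨v, h3, h4, h5⟩
    exact ⟨A, B, v, rfl, hp, h3, h4, by rw [h5, List.append_assoc]⟩

private lemma mka_rel1 (A B : List (ℝ × Bool)) (p c : ℕ) (w : List Bool) (hp : A.length = p)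
    (F' : List (ℝ × Bool)) :
    Rel (1, p, c, w) (A ++ B) F' ↔ F' = A ++ (w.map (fun s => ((c : ℝ) / 4, s)) ++ B) := by
  simp only [Rel, one_ne_zero, if_true, if_false]
  constructor
  · rintro ⟨A', B', h1, h2, h5⟩
    obtain ⟨rfl, rfl⟩ := List.append_inj h1 (by rw [hp, h2])
    rw [h5, List.append_assoc]
  · intro h5
    exact ⟨A, B, rfl, hp, by rw [h5, List.append_assoc]⟩

private lemma mka_rel2 (A B : List (ℝ × Bool)) (a : ℝ × Bool) (p c : ℕ) (w : List Bool)
    (hp : A.length = p) (F' : List (ℝ × Bool)) :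
    Rel (2, p, c, w) (A ++ a :: B) F' ↔ F' = A ++ B := by
  simp only [Rel, OfNat.ofNat_ne_zero, OfNat.ofNat_ne_one, if_true, if_false]
  constructor
  · rintro ⟨A', B', a', h1, h2, h5⟩
    obtain ⟨rfl, h3⟩ := List.append_inj h1 (by rw [hp, h2])
    obtain ⟨-, rfl⟩ := List.cons.inj h3
    exact h5
  · intro h5
    exact ⟨A, B, a, rfl, hp, h5⟩

private lemma mka_rel4 (A B : List (ℝ × Bool)) (z x y : ℝ) (p c : ℕ) (w : List Bool)
    (hp : A.length = p) (F' : List (ℝ × Bool)) :
    Rel (4, p, c, w) (A ++ (z, true) :: (x, true) :: (y, true) :: B) F' ↔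
      F' = A ++ B ∧ x + y + 2 * z < 2 := by
  simp only [Rel, OfNat.ofNat_ne_zero, OfNat.ofNat_ne_one, if_true, if_false,
    show ¬ ((4 : ℕ) = 2) by norm_num, show ¬ ((4 : ℕ) = 3) by norm_num]
  constructor
  · rintro ⟨A', B', z', x', y', h1, h2, h5, h6⟩
    obtain ⟨rfl, h3⟩ := List.append_inj h1 (by rw [hp, h2])
    simp only [List.cons.injEq, Prod.mk.injEq, and_true] at h3
    obtain ⟨rfl, rfl, rfl, rfl⟩ := h3
    exact ⟨h5, h6⟩
  · rintro ⟨h5, h6⟩
    exact ⟨A, B, z, x, y, rfl, hp, h5, h6⟩

private lemma mka_sw_succ (k : ℕ) : sw (k + 1) = sw k ++ [true, false, true] := by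
  simp only [sw, List.range_succ, List.flatMap_append, List.flatMap_cons, List.flatMap_nil,
    List.append_nil]

private lemma mka_map_sw (v : ℝ) (k : ℕ) :
    (sw k).map (fun s => (v, s)) = wires (List.replicate k v) := by
  induction k with
  | zero => rfl
  | succ k ih =>
    rw [mka_sw_succ, List.map_append, ih, List.replicate_succ', wires_append]
    rfl

theorem relL_mk (i k k' : ℕ) (L : List ℝ) (F' : List (ℝ × Bool)) :
    RelL (mk i (3 * L.length) k k') (wires L) F' ↔
      ∃ v v', Pair i v v' ∧ F' = wires (L ++ (List.replicate k v ++ List.replicate k' v')) := by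
  have hL : (wires L).length = 3 * L.length := length_wires L
  have hR : ∀ (k : ℕ) (v : ℝ), (wires (List.replicate k v)).length = 3 * k := by
    intro k v
    rw [length_wires, List.length_replicate]
  by_cases hi : i < 3
  · simp only [mk, hi, if_true, RelL, Pair]
    set v : ℝ := ((i + 1 : ℕ) : ℝ) / 4 with hv
    set v' : ℝ := ((3 - i : ℕ) : ℝ) / 4 with hv'
    have e1 : ∀ F₁, Rel (1, 3 * L.length, i + 1, sw k ++ [true]) (wires L) F₁ ↔
        F₁ = (wires L ++ wires (List.replicate k v)) ++ (v, true) :: [] := by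
      intro F₁
      have := mka_rel1 (wires L) [] (3 * L.length) (i + 1) (sw k ++ [true]) hL F₁
      rw [List.append_nil, List.append_nil, List.map_append, mka_map_sw, ← List.append_assoc]
        at this
      exact this
    have l2 : (wires L ++ wires (List.replicate k v)).length = 3 * L.length + 3 * k := by
      rw [List.length_append, hL, hR]
    have e2 : ∀ F₂, Rel (2, 3 * L.length + 3 * k, 0, [])
        ((wires L ++ wires (List.replicate k v)) ++ (v, true) :: []) F₂ ↔
        F₂ = wires L ++ wires (List.replicate k v) := by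
      intro F₂
      rw [mka_rel2 _ _ _ _ _ _ l2, List.append_nil]
    have e3 : ∀ F₃, Rel (1, 3 * L.length + 3 * k, 3 - i, sw k' ++ [true])
        (wires L ++ wires (List.replicate k v)) F₃ ↔
        F₃ = (wires L ++ wires (List.replicate k v) ++ wires (List.replicate k' v')) ++
          (v', true) :: [] := by
      intro F₃
      have := mka_rel1 (wires L ++ wires (List.replicate k v)) [] _ (3 - i) (sw k' ++ [true])
        l2 F₃
      rw [List.append_nil, List.append_nil, List.map_append, mka_map_sw, ← List.append_assoc]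
        at this
      exact this
    have l4 : (wires L ++ wires (List.replicate k v) ++ wires (List.replicate k' v')).length =
        3 * L.length + 3 * k + 3 * k' := by
      rw [List.length_append, l2, hR]
    have e4 : ∀ F₄, Rel (2, 3 * L.length + 3 * k + 3 * k', 0, [])
        ((wires L ++ wires (List.replicate k v) ++ wires (List.replicate k' v')) ++
          (v', true) :: []) F₄ ↔
        F₄ = wires L ++ wires (List.replicate k v) ++ wires (List.replicate k' v') := by
      intro F₄
      rw [mka_rel2 _ _ _ _ _ _ l4, List.append_nil]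
    have ev : ((i : ℝ) + 1) / 4 = v := by rw [hv]; push_cast; ring
    have ev' : (3 - (i : ℝ)) / 4 = v' := by
      rw [hv', Nat.cast_sub (by omega : i ≤ 3)]; push_cast; ring
    constructor
    · rintro ⟨F₁, h1, F₂, h2, F₃, h3, F₄, h4, h5⟩
      rw [e1] at h1
      subst h1
      rw [e2] at h2
      subst h2
      rw [e3] at h3
      subst h3
      rw [e4] at h4
      refine ⟨v, v', ⟨ev.symm, ev'.symm⟩, ?_⟩
      rw [← h5, h4, wires_append, wires_append, List.append_assoc]
    · rintro ⟨w, w', ⟨hw, hw'⟩, h5⟩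
      rw [ev] at hw
      rw [ev'] at hw'
      subst hw hw'
      refine ⟨_, (e1 _).mpr rfl, _, (e2 _).mpr rfl, _, (e3 _).mpr rfl, _, (e4 _).mpr rfl, ?_⟩
      rw [h5, wires_append, wires_append, List.append_assoc]
  · simp only [mk, hi, if_false, RelL, Pair]
    have e1 : ∀ F₁, Rel (0, 3 * L.length, 0, sw k ++ [true]) (wires L) F₁ ↔
        ∃ v : ℝ, 0 < v ∧ v < 1 ∧
          F₁ = (wires L ++ wires (List.replicate k v) ++ [(v, true)]) ++ [] := by
      intro F₁
      have := mka_rel0 (wires L) [] (3 * L.length) 0 (sw k ++ [true]) hL F₁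
      rw [List.append_nil] at this
      rw [this]
      refine exists_congr (fun v => ?_)
      rw [List.append_nil, List.append_nil, List.map_append, mka_map_sw, List.append_assoc]
      rfl
    have l2 : ∀ v : ℝ, (wires L ++ wires (List.replicate k v) ++ [(v, true)]).length =
        3 * L.length + 3 * k + 1 := by
      intro v
      rw [List.length_append, List.length_append, hL, hR]; rfl
    have l3 : ∀ v : ℝ, (wires L ++ wires (List.replicate k v)).length =
        3 * L.length + 3 * k := by
      intro v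
      rw [List.length_append, hL, hR]
    have e2 : ∀ (v : ℝ) (F₂), Rel (0, 3 * L.length + 3 * k + 1, 0, true :: sw k')
        ((wires L ++ wires (List.replicate k v) ++ [(v, true)]) ++ []) F₂ ↔
        ∃ v' : ℝ, 0 < v' ∧ v' < 1 ∧ F₂ = (wires L ++ wires (List.replicate k v)) ++
          ((v, true) :: (v', true) :: wires (List.replicate k' v')) := by
      intro v F₂
      rw [mka_rel0 _ _ _ _ _ (l2 v)]
      refine exists_congr (fun v' => ?_)
      rw [List.append_nil, List.map_cons, mka_map_sw, List.append_assoc, List.append_assoc]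
      rw [List.append_assoc]
      rfl
    have e3 : ∀ (v v' : ℝ) (F₃), Rel (1, 3 * L.length + 3 * k, 2, [true])
        ((wires L ++ wires (List.replicate k v)) ++
          ((v, true) :: (v', true) :: wires (List.replicate k' v'))) F₃ ↔
        F₃ = (wires L ++ wires (List.replicate k v)) ++
          ((2 / 4 : ℝ), true) :: (v, true) :: (v', true) :: wires (List.replicate k' v') := by
      intro v v' F₃
      rw [mka_rel1 _ _ _ _ _ (l3 v)]
      norm_num
    have e4 : ∀ (v v' : ℝ) (F₄), Rel (4, 3 * L.length + 3 * k, 0, [])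
        ((wires L ++ wires (List.replicate k v)) ++
          ((2 / 4 : ℝ), true) :: (v, true) :: (v', true) :: wires (List.replicate k' v')) F₄ ↔
        F₄ = (wires L ++ wires (List.replicate k v)) ++ wires (List.replicate k' v') ∧
          v + v' + 2 * (2 / 4) < 2 := by
      intro v v' F₄
      exact mka_rel4 _ _ _ _ _ _ _ _ (l3 v) _
    constructor
    · rintro ⟨F₁, h1, F₂, h2, F₃, h3, F₄, h4, h5⟩
      obtain ⟨v, hv0, hv1, rfl⟩ := (e1 _).mp h1
      obtain ⟨v', hv0', hv1', rfl⟩ := (e2 _ _).mp h2
      rw [e3] at h3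
      subst h3
      obtain ⟨h4, h6⟩ := (e4 _ _ _).mp h4
      refine ⟨v, v', ⟨hv0, hv0', by linarith⟩, ?_⟩
      rw [← h5, h4, wires_append, wires_append, List.append_assoc]
    · rintro ⟨v, v', ⟨h0, h0', hlt⟩, h5⟩
      refine ⟨_, (e1 _).mpr ⟨v, h0, by linarith, rfl⟩, _, (e2 _ _).mpr ⟨v', h0', by linarith, rfl⟩,
        _, (e3 _ _ _).mpr rfl, _, (e4 _ _ _).mpr ⟨rfl, by linarith⟩, ?_⟩
      rw [h5, wires_append, wires_append, List.append_assoc]

private lemma mka_relL_append (π π' : List (ℕ × ℕ × ℕ × List Bool)) :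
    ∀ (F F' : List (ℝ × Bool)),
      RelL (π ++ π') F F' ↔ ∃ F₁, RelL π F F₁ ∧ RelL π' F₁ F' := by
  induction π with
  | nil =>
    intro F F'
    rw [List.nil_append]
    constructor
    · intro h
      exact ⟨F, rfl, h⟩
    · rintro ⟨F₁, h1, h2⟩
      have h1' : F = F₁ := h1
      rw [h1']; exact h2
  | cons I π ih =>
    intro F F'
    rw [List.cons_append]
    simp only [RelL, ih]
    constructor
    · rintro ⟨F₁, h1, F₂, h2, h3⟩
      exact ⟨F₂, ⟨F₁, h1, h2⟩, h3⟩
    · rintro ⟨F₂, ⟨F₁, h1, h2⟩, h3⟩
      exact ⟨F₁, h1, F₂, h2, h3⟩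

private lemma mka_sorted_succ (Λ : List (ℕ × Bool)) (n : ℕ) :
    sorted Λ (n + 1) = sorted Λ n ++
      ((List.range (occ Λ (n, false))).map (fun _ => (n, false)) ++
        (List.range (occ Λ (n, true))).map (fun _ => (n, true))) := by
  simp only [sorted, List.range_succ, List.flatMap_append, List.flatMap_cons, List.flatMap_nil,
    List.append_nil]

private lemma mka_mkAll_succ (Λ : List (ℕ × Bool)) (n : ℕ) :
    mkAll Λ (n + 1) = mkAll Λ n ++
      mk n (3 * (sorted Λ n).length) (occ Λ (n, false)) (occ Λ (n, true)) := by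
  simp only [mkAll, posOf, List.range_succ, List.flatMap_append, List.flatMap_cons,
    List.flatMap_nil, List.append_nil]

private lemma mka_mem_sorted (Λ : List (ℕ × Bool)) (n : ℕ) (a : ℕ × Bool)
    (ha : a ∈ sorted Λ n) : a.1 < n := by
  simp only [sorted, List.mem_flatMap, List.mem_range, List.mem_append, List.mem_map] at ha
  obtain ⟨i, hi, h⟩ := ha
  rcases h with ⟨_, _, rfl⟩ | ⟨_, _, rfl⟩
  · exact hi
  · exact hi

private lemma mka_pair_ex : ∃ v v' : ℕ → ℝ, ∀ i, Pair i (v i) (v' i) := by
  refine ⟨fun i => if i < 3 then ((i : ℝ) + 1) / 4 else 1 / 4,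
    fun i => if i < 3 then (3 - (i : ℝ)) / 4 else 1 / 4, fun i => ?_⟩
  by_cases hi : i < 3
  · simp only [Pair, hi, if_true, and_self]
  · simp only [Pair, hi, if_false]
    norm_num

private lemma mka_relL_mkAll (Λ : List (ℕ × Bool)) (n : ℕ) : ∀ F' : List (ℝ × Bool),
    RelL (mkAll Λ n) [] F' ↔ ∃ v v' : ℕ → ℝ, (∀ i, Pair i (v i) (v' i)) ∧
      F' = wires ((sorted Λ n).map fun a => if a.2 = true then v' a.1 else v a.1) := by
  induction n with
  | zero =>
    intro F'
    have h1 : mkAll Λ 0 = [] := rfl
    have h2 : sorted Λ 0 = [] := rfl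
    rw [h1, h2]
    constructor
    · intro h
      obtain ⟨v, v', hv⟩ := mka_pair_ex
      have h' : [] = F' := h
      exact ⟨v, v', hv, h'.symm⟩
    · rintro ⟨v, v', -, h⟩
      exact h.symm
  | succ n ih =>
    intro F'
    rw [mka_mkAll_succ, mka_relL_append, mka_sorted_succ]
    have hmap : ∀ v v' : ℕ → ℝ, ((sorted Λ n ++
        ((List.range (occ Λ (n, false))).map (fun _ => (n, false)) ++
        (List.range (occ Λ (n, true))).map (fun _ => (n, true)))).map
          (fun a : ℕ × Bool => if a.2 = true then v' a.1 else v a.1)) =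
        ((sorted Λ n).map fun a => if a.2 = true then v' a.1 else v a.1) ++
          (List.replicate (occ Λ (n, false)) (v n) ++
            List.replicate (occ Λ (n, true)) (v' n)) := by
      intro v v'
      rw [List.map_append, List.map_append, List.map_map, List.map_map]
      congr 2
      · rw [List.eq_replicate_iff]
        refine ⟨by rw [List.length_map, List.length_range], fun b hb => ?_⟩
        obtain ⟨_, _, rfl⟩ := List.mem_map.mp hb
        simp
      · rw [List.eq_replicate_iff]
        refine ⟨by rw [List.length_map, List.length_range], fun b hb => ?_⟩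
        obtain ⟨_, _, rfl⟩ := List.mem_map.mp hb
        simp
    constructor
    · rintro ⟨F₁, h1, h2⟩
      obtain ⟨v, v', hv, rfl⟩ := (ih F₁).mp h1
      have hlen : ((sorted Λ n).map
          (fun a : ℕ × Bool => if a.2 = true then v' a.1 else v a.1)).length =
          (sorted Λ n).length := List.length_map _
      rw [← hlen, relL_mk] at h2
      obtain ⟨w, w', hw, h3⟩ := h2
      refine ⟨Function.update v n w, Function.update v' n w', fun i => ?_, ?_⟩
      · rcases eq_or_ne i n with rfl | hne
        · rw [Function.update_self, Function.update_self]; exact hw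
        · rw [Function.update_of_ne hne, Function.update_of_ne hne]; exact hv i
      · rw [hmap, Function.update_self, Function.update_self, h3]
        congr 2
        refine List.map_congr_left (fun a ha => ?_)
        have hne : a.1 ≠ n := (mka_mem_sorted Λ n a ha).ne
        rw [Function.update_of_ne hne, Function.update_of_ne hne]
    · rintro ⟨v, v', hv, h3⟩
      refine ⟨_, (ih _).mpr ⟨v, v', hv, rfl⟩, ?_⟩
      have hlen : ((sorted Λ n).map
          (fun a : ℕ × Bool => if a.2 = true then v' a.1 else v a.1)).length =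
          (sorted Λ n).length := List.length_map _
      rw [← hlen, relL_mk]
      exact ⟨v n, v' n, hv n, by rw [h3, hmap]⟩

theorem run_mkAll (Λ : List (ℕ × Bool)) (n : ℕ) (π : List (ℕ × ℕ × ℕ × List Bool)) :
    Run (mkAll Λ n ++ π) [] ↔ ∃ v v' : ℕ → ℝ, (∀ i, Pair i (v i) (v' i)) ∧
      Run π (wires ((sorted Λ n).map fun a => if a.2 = true then v' a.1 else v a.1)) := by
  rw [Run_append]
  constructor
  · rintro ⟨F', h1, h2⟩
    obtain ⟨v, v', hv, rfl⟩ := (mka_relL_mkAll Λ n F').mp h1
    exact ⟨v, v', hv, h2⟩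
  · rintro ⟨v, v', hv, h2⟩
    exact ⟨_, (mka_relL_mkAll Λ n _).mpr ⟨v, v', hv, rfl⟩, h2⟩

private lemma mka_take (A B : List Bool) (p : ℕ) (hp : A.length = p) : (A ++ B).take p = A := by
  rw [← hp]; exact List.take_left

private lemma mka_drop (A B : List Bool) (p : ℕ) (hp : A.length = p) : (A ++ B).drop p = B := by
  rw [← hp]; exact List.drop_left

private lemma mka_wf01 (t p c : ℕ) (w A B : List Bool) (ht : t ≤ 1) (hp : A.length = p)
    (hw : w ≠ []) (hc : t = 1 → 1 ≤ c ∧ c ≤ 3) {π : List (ℕ × ℕ × ℕ × List Bool)}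
    (h : WF π (A ++ w ++ B)) : WF ((t, p, c, w) :: π) (A ++ B) := by
  have hle : p ≤ (A ++ B).length := by rw [List.length_append, hp]; omega
  rw [WF]
  refine ⟨?_, ?_⟩
  · rcases Nat.le_one_iff_eq_zero_or_eq_one.mp ht with rfl | rfl
    · simp only [WFI, if_true]
      exact ⟨hle, hw⟩
    · simp only [WFI, one_ne_zero, if_true, if_false]
      exact ⟨hle, hw, hc rfl⟩
  · simp only [nextS, ht, if_true]
    rw [mka_take A B p hp, mka_drop A B p hp]
    exact h

private lemma mka_wf2 (p c : ℕ) (w A B : List Bool) (b : Bool) (hp : A.length = p)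
    {π : List (ℕ × ℕ × ℕ × List Bool)}
    (h : WF π (A ++ B)) : WF ((2, p, c, w) :: π) (A ++ b :: B) := by
  have hlt : p < (A ++ b :: B).length := by
    rw [List.length_append, hp, List.length_cons]; omega
  rw [WF]
  refine ⟨?_, ?_⟩
  · simp only [WFI, OfNat.ofNat_ne_zero, OfNat.ofNat_ne_one, if_true, if_false]
    exact hlt
  · simp only [nextS, show ¬ ((2 : ℕ) ≤ 1) by norm_num, if_true, if_false]
    have h1 : (A ++ b :: B).drop (p + 1) = B := by
      have := mka_drop (A ++ [b]) B (p + 1) (by rw [List.length_append, hp]; rfl)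
      rwa [List.append_assoc] at this
    rw [mka_take A (b :: B) p hp, h1]
    exact h

private lemma mka_wf4 (p c : ℕ) (w A B : List Bool) (hp : A.length = p)
    {π : List (ℕ × ℕ × ℕ × List Bool)}
    (h : WF π (A ++ B)) : WF ((4, p, c, w) :: π) (A ++ true :: true :: true :: B) := by
  rw [WF]
  refine ⟨?_, ?_⟩
  · simp only [WFI, OfNat.ofNat_ne_zero, OfNat.ofNat_ne_one, if_true, if_false,
      show ¬ ((4 : ℕ) = 2) by norm_num, show ¬ ((4 : ℕ) = 3) by norm_num]
    refine ⟨?_, ?_⟩
    · rw [List.length_append, hp]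
      simp only [List.length_cons]
      omega
    · rw [mka_drop A _ p hp]
      rfl
  · simp only [nextS, show ¬ ((4 : ℕ) ≤ 1) by norm_num, show ¬ ((4 : ℕ) = 2) by norm_num,
      if_false]
    have h1 : (A ++ true :: true :: true :: B).drop (p + 3) = B := by
      have := mka_drop (A ++ [true, true, true]) B (p + 3)
        (by rw [List.length_append, hp]; rfl)
      rwa [List.append_assoc] at this
    rw [mka_take A _ p hp, h1]
    exact h

private lemma mka_WF_mk (i m k k' : ℕ) {π : List (ℕ × ℕ × ℕ × List Bool)}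
    (h : WF π (sw (m + k + k'))) : WF (mk i (3 * m) k k' ++ π) (sw m) := by
  have lm : (sw m).length = 3 * m := length_sw m
  have lmk : (sw m ++ sw k).length = 3 * m + 3 * k := by
    rw [List.length_append, length_sw, length_sw]
  have lmkk : (sw m ++ sw k ++ sw k').length = 3 * m + 3 * k + 3 * k' := by
    rw [List.length_append, lmk, length_sw]
  have hsw : sw (m + k + k') = sw m ++ sw k ++ sw k' := by rw [sw_add, sw_add]
  rw [hsw] at h
  by_cases hi : i < 3
  · simp only [mk, hi, if_true, List.cons_append, List.nil_append]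
    have s4 : WF ((2, 3 * m + 3 * k + 3 * k', 0, []) :: π)
        ((sw m ++ sw k ++ sw k') ++ true :: []) := by
      refine mka_wf2 _ _ _ _ _ _ lmkk ?_
      rw [List.append_nil]; exact h
    have s3 : WF ((1, 3 * m + 3 * k, 3 - i, sw k' ++ [true]) ::
        (2, 3 * m + 3 * k + 3 * k', 0, []) :: π) (sw m ++ sw k) := by
      have := mka_wf01 1 (3 * m + 3 * k) (3 - i) (sw k' ++ [true]) (sw m ++ sw k) [] le_rfl lmk
        (by simp) (fun _ => by omega) (π := (2, 3 * m + 3 * k + 3 * k', 0, []) :: π)
        (by rw [List.append_nil, ← List.append_assoc]; exact s4)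
      rwa [List.append_nil] at this
    have s2 : WF ((2, 3 * m + 3 * k, 0, []) :: (1, 3 * m + 3 * k, 3 - i, sw k' ++ [true]) ::
        (2, 3 * m + 3 * k + 3 * k', 0, []) :: π) ((sw m ++ sw k) ++ true :: []) := by
      refine mka_wf2 _ _ _ _ _ _ lmk ?_
      rw [List.append_nil]; exact s3
    have := mka_wf01 1 (3 * m) (i + 1) (sw k ++ [true]) (sw m) [] le_rfl lm
      (by simp) (fun _ => by omega) (π := (2, 3 * m + 3 * k, 0, []) ::
        (1, 3 * m + 3 * k, 3 - i, sw k' ++ [true]) ::
        (2, 3 * m + 3 * k + 3 * k', 0, []) :: π)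
      (by rw [List.append_nil, ← List.append_assoc]; exact s2)
    rwa [List.append_nil] at this
  · simp only [mk, hi, if_false, List.cons_append, List.nil_append]
    have s4 : WF ((4, 3 * m + 3 * k, 0, []) :: π)
        ((sw m ++ sw k) ++ true :: true :: true :: sw k') := mka_wf4 _ _ _ _ _ lmk h
    have s3 : WF ((1, 3 * m + 3 * k, 2, [true]) :: (4, 3 * m + 3 * k, 0, []) :: π)
        ((sw m ++ sw k) ++ (true :: true :: sw k')) := by
      refine mka_wf01 1 _ 2 [true] _ _ le_rfl lmk (by simp) (fun _ => by omega) ?_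
      rw [List.append_assoc]
      exact s4
    have l2 : (sw m ++ sw k ++ [true]).length = 3 * m + 3 * k + 1 := by
      rw [List.length_append, lmk]; rfl
    have s2 : WF ((0, 3 * m + 3 * k + 1, 0, true :: sw k') :: (1, 3 * m + 3 * k, 2, [true]) ::
        (4, 3 * m + 3 * k, 0, []) :: π) (sw m ++ sw k ++ [true]) := by
      have := mka_wf01 0 (3 * m + 3 * k + 1) 0 (true :: sw k') (sw m ++ sw k ++ [true]) []
        (Nat.zero_le _) l2 (by simp) (fun h => absurd h (by norm_num))
        (π := (1, 3 * m + 3 * k, 2, [true]) :: (4, 3 * m + 3 * k, 0, []) :: π)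
        (by rw [List.append_nil, List.append_assoc]; exact s3)
      rwa [List.append_nil] at this
    have := mka_wf01 0 (3 * m) 0 (sw k ++ [true]) (sw m) [] (Nat.zero_le _) lm
      (by simp) (fun h => absurd h (by norm_num))
      (π := (0, 3 * m + 3 * k + 1, 0, true :: sw k') :: (1, 3 * m + 3 * k, 2, [true]) ::
        (4, 3 * m + 3 * k, 0, []) :: π)
      (by rw [List.append_nil, ← List.append_assoc]; exact s2)
    rwa [List.append_nil] at this

theorem WF_mkAll (Λ : List (ℕ × Bool)) (n : ℕ) {π : List (ℕ × ℕ × ℕ × List Bool)}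
    (h : WF π (sw (sorted Λ n).length)) : WF (mkAll Λ n ++ π) [] := by
  induction n generalizing π with
  | zero => exact h
  | succ n ih =>
    rw [mka_mkAll_succ, List.append_assoc]
    refine ih (mka_WF_mk _ _ _ _ ?_)
    rw [mka_sorted_succ, List.length_append, List.length_append, List.length_map,
      List.length_map, List.length_range, List.length_range, ← Nat.add_assoc] at h
    exact h

end Pool.Agent.H77.SG
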