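import Pool.Agent.H77.SG.TM

/-!
# Permutation of the strands

PROOFS. `moves U Λ` is a concatenation of blocks: for each element `a` of `Λ` in turn, the first
occurrence of `a` in the current list (`pos1`, by `findFirst_spec` of `Pool.Agent.H79.PT.Nat`) is moved
to the end by exchanges with its right neighbours. Invariant after `j` steps: the current list is
`R ++ Λ.take j` with `R` a permutation of `Λ.drop j`; the first occurrence of the next element is
in `R`. The strands follow the list: with values `f`, the list of strands is `U.map f`. `sorted_perm`: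
count the occurrences of every literal (`List.perm_iff_count`).
-/

set_option autoImplicit false

namespace Pool.Agent.H77.SG

open Pool.Agent.H79.Cx

theorem mv_first (R : List (ℕ × Bool)) (a : ℕ × Bool) (h : a ∈ R) :
    ∃ R1 R2, R = R1 ++ a :: R2 ∧ a ∉ R1 := by
  induction R with
  | nil => simp at h
  | cons b R ih =>
    by_cases hb : a = b
    · exact ⟨[], R, by simp [hb], by simp⟩
    · have h' : a ∈ R := by
        rcases List.mem_cons.1 h with h | h
        · exact absurd h hb
        · exact h
      obtain ⟨R1, R2, h1, h2⟩ := ih h'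
      refine ⟨b :: R1, R2, by simp [h1], ?_⟩
      intro h3
      rcases List.mem_cons.1 h3 with h3 | h3
      · exact hb h3
      · exact h2 h3

theorem mv_pos1 (R1 B : List (ℕ × Bool)) (a : ℕ × Bool) (h : a ∉ R1) :
    pos1 (R1 ++ a :: B) a = R1.length := by
  unfold pos1
  refine findFirst_spec ?_ ?_ ?_
  · simp
  · simp
  · intro i hi
    rw [List.getD_append _ _ _ _ hi, List.getD_eq_getElem _ _ hi]
    refine decide_eq_false ?_
    intro h1
    exact h (h1 ▸ List.getElem_mem hi)

theorem mv_step (R1 B : List (ℕ × Bool)) (a : ℕ × Bool) (h : a ∉ R1) (M : List (ℕ × ℕ)) :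
    mvStep (R1 ++ a :: B, M) a =
      (R1 ++ B ++ [a], M ++ (List.range B.length).map fun j => (0, R1.length + j)) := by
  unfold mvStep
  simp only
  rw [mv_pos1 _ _ _ h]
  have e1 : (R1 ++ a :: B).take R1.length = R1 := by simp
  have e2 : (R1 ++ a :: B).drop (R1.length + 1) = B := by
    rw [List.drop_append]
    simp
  have e3 : (R1 ++ a :: B).length - 1 - R1.length = B.length := by
    simp only [List.length_append, List.length_cons]
    omega
  rw [e1, e2, e3]

theorem mv_foldl (Λ : List (ℕ × Bool)) : ∀ (U : List (ℕ × Bool)) (M : List (ℕ × ℕ)),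
    (Λ.foldl mvStep (U, M)).2 = M ++ (Λ.foldl mvStep (U, [])).2 := by
  induction Λ with
  | nil => intro U M; simp
  | cons a Λ ih =>
    intro U M
    simp only [List.foldl_cons]
    have e1 : mvStep (U, M) a = ((mvStep (U, []) a).1, M ++ (mvStep (U, []) a).2) := by
      unfold mvStep
      simp
    rw [e1, ih, ih (mvStep (U, []) a).1 (mvStep (U, []) a).2, List.append_assoc]

theorem mv_moves_cons (R1 B Λ : List (ℕ × Bool)) (a : ℕ × Bool) (h : a ∉ R1) :
    moves (R1 ++ a :: B) (a :: Λ) =
      (List.range B.length).map (fun j => (0, R1.length + j)) ++ moves (R1 ++ B ++ [a]) Λ := by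
  unfold moves
  rw [List.foldl_cons, mv_step _ _ _ h, List.nil_append, mv_foldl]

theorem mv_trel (A B : List ℝ) (a b : ℝ) (L' : List ℝ) :
    TRel (0, A.length) (A ++ a :: b :: B) L' ↔ L' = A ++ b :: a :: B := by
  unfold TRel
  simp only [if_true]
  constructor
  · rintro ⟨A', B', a', b', h1, h2, h3⟩
    obtain ⟨h4, h5⟩ := List.append_inj h1 h2.symm
    simp only [List.cons.injEq] at h5
    rw [h3, h4, h5.1, h5.2.1, h5.2.2]
  · intro h
    exact ⟨A, B, a, b, rfl, rfl, h⟩

theorem mv_run (Q : List (ℕ × ℕ)) (x : ℝ) (B : List ℝ) : ∀ (A : List ℝ),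
    TRun ((List.range B.length).map (fun j => (0, A.length + j)) ++ Q) (A ++ x :: B) ↔
      TRun Q (A ++ B ++ [x]) := by
  induction B with
  | nil => intro A; simp
  | cons b B ih =>
    intro A
    have h := ih (A ++ [b])
    have e1 : (List.range (b :: B).length).map (fun j => (0, A.length + j)) =
        (0, A.length) :: (List.range B.length).map (fun j => (0, (A ++ [b]).length + j)) := by
      rw [List.length_cons, List.range_succ_eq_map]
      simp only [List.map_cons, add_zero, List.map_map, List.length_append, List.length_nil,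
        List.length_cons, zero_add]
      congr 1
      apply List.map_congr_left
      intro j _
      simp only [Function.comp_apply, Prod.mk.injEq, true_and]
      omega
    rw [e1, List.cons_append]
    simp only [TRun, mv_trel, exists_eq_left]
    have e2 : A ++ b :: x :: B = A ++ [b] ++ x :: B := by simp
    have e3 : A ++ b :: B ++ [x] = A ++ [b] ++ B ++ [x] := by simp
    rw [e2, e3]
    exact h

theorem mv_main (f : ℕ × Bool → ℝ) (Q : List (ℕ × ℕ)) (Λ : List (ℕ × Bool)) :
    ∀ (R T : List (ℕ × Bool)), R.Perm Λ →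
      (TRun (moves (R ++ T) Λ ++ Q) ((R ++ T).map f) ↔ TRun Q ((T ++ Λ).map f)) := by
  induction Λ with
  | nil =>
    intro R T h
    have h1 : R = [] := List.Perm.eq_nil h
    subst h1
    simp [moves]
  | cons a Λ ih =>
    intro R T h
    have ha : a ∈ R := h.symm.subset (by simp)
    obtain ⟨R1, R2, h1, h2⟩ := mv_first R a ha
    subst h1
    have hp : (R1 ++ R2).Perm Λ := by
      have h3 : (a :: (R1 ++ R2)).Perm (a :: Λ) := (List.perm_middle.symm).trans h
      exact List.Perm.cons_inv h3
    have e0 : R1 ++ a :: R2 ++ T = R1 ++ a :: (R2 ++ T) := by simp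
    rw [e0, mv_moves_cons _ _ _ _ h2, List.append_assoc]
    have e1 : (R1 ++ a :: (R2 ++ T)).map f = R1.map f ++ f a :: (R2 ++ T).map f := by simp
    have e2 : (R2 ++ T).length = ((R2 ++ T).map f).length := by simp
    have e3 : R1.length = (R1.map f).length := by simp
    rw [e1, e2, e3, mv_run]
    have h4 := ih (R1 ++ R2) (T ++ [a]) hp
    have e4 : R1 ++ (R2 ++ T) ++ [a] = R1 ++ R2 ++ (T ++ [a]) := by simp
    have e5 : R1.map f ++ (R2 ++ T).map f ++ [f a] = (R1 ++ R2 ++ (T ++ [a])).map f := by simp
    have e6 : T ++ a :: Λ = T ++ [a] ++ Λ := by simp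
    rw [e4, e5, e6]
    exact h4

theorem trun_moves {U Λ : List (ℕ × Bool)} (h : U.Perm Λ) (f : ℕ × Bool → ℝ)
    (Q : List (ℕ × ℕ)) : TRun (moves U Λ ++ Q) (U.map f) ↔ TRun Q (Λ.map f) := by
  have h1 := mv_main f Q Λ U [] h
  simpa using h1

theorem mv_TWF_run (Q : List (ℕ × ℕ)) (n p m : ℕ) (h : p + m + 1 ≤ n) (hQ : TWF Q n) :
    TWF ((List.range m).map (fun j => (0, p + j)) ++ Q) n := by
  induction m generalizing p with
  | zero => simpa using hQ
  | succ m ih =>
    have e1 : (List.range (m + 1)).map (fun j => (0, p + j)) =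
        (0, p) :: (List.range m).map (fun j => (0, (p + 1) + j)) := by
      rw [List.range_succ_eq_map]
      simp only [List.map_cons, add_zero, List.map_map]
      congr 1
      apply List.map_congr_left
      intro j _
      simp only [Function.comp_apply, Prod.mk.injEq, true_and]
      omega
    rw [e1, List.cons_append]
    simp only [TWF, if_true]
    exact ⟨by omega, ih (p + 1) (by omega)⟩

theorem mv_TWF_main {Q : List (ℕ × ℕ)} (n : ℕ) (hQ : TWF Q n) (Λ : List (ℕ × Bool)) :
    ∀ (R T : List (ℕ × Bool)), R.Perm Λ → (R ++ T).length = n →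
      TWF (moves (R ++ T) Λ ++ Q) n := by
  induction Λ with
  | nil =>
    intro R T h hl
    have h1 : R = [] := List.Perm.eq_nil h
    subst h1
    simpa [moves] using hQ
  | cons a Λ ih =>
    intro R T h hl
    have ha : a ∈ R := h.symm.subset (by simp)
    obtain ⟨R1, R2, h1, h2⟩ := mv_first R a ha
    subst h1
    have hp : (R1 ++ R2).Perm Λ := by
      have h3 : (a :: (R1 ++ R2)).Perm (a :: Λ) := (List.perm_middle.symm).trans h
      exact List.Perm.cons_inv h3
    have e0 : R1 ++ a :: R2 ++ T = R1 ++ a :: (R2 ++ T) := by simp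
    rw [e0, mv_moves_cons _ _ _ _ h2, List.append_assoc]
    have e4 : R1 ++ (R2 ++ T) ++ [a] = R1 ++ R2 ++ (T ++ [a]) := by simp
    refine mv_TWF_run _ _ _ _ ?_ ?_
    · simp only [List.length_append, List.length_cons] at hl ⊢
      omega
    · rw [e4]
      refine ih (R1 ++ R2) (T ++ [a]) hp ?_
      simp only [List.length_append, List.length_cons, List.length_nil] at hl ⊢
      omega

theorem TWF_moves {U Λ : List (ℕ × Bool)} (h : U.Perm Λ) {Q : List (ℕ × ℕ)}
    (hQ : TWF Q Λ.length) : TWF (moves U Λ ++ Q) U.length := by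
  rw [← h.length_eq] at hQ
  have h1 := mv_TWF_main U.length hQ Λ U [] h (by simp)
  simpa using h1

theorem mv_occ (Λ : List (ℕ × Bool)) (a : ℕ × Bool) : occ Λ a = Λ.count a := by
  unfold occ
  rw [List.count_eq_length_filter]
  congr 1
  apply List.filter_congr
  intro x _
  exact (beq_eq_decide x a).symm

theorem mv_count_map (b : ℕ × Bool) (a : ℕ × Bool) (k : ℕ) :
    ((List.range k).map fun _ => b).count a = if a = b then k else 0 := by
  have h1 : ((List.range k).map fun _ => b) = List.replicate k b := by
    rw [List.map_const', List.length_range]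
  rw [h1, List.count_replicate]
  by_cases h : a = b
  · simp [h]
  · rw [if_neg h, if_neg]
    intro h2
    exact h (beq_iff_eq.1 h2).symm

theorem mv_count_sorted (Λ : List (ℕ × Bool)) (i : ℕ) (s : Bool) (n : ℕ) :
    (sorted Λ n).count (i, s) = if i < n then occ Λ (i, s) else 0 := by
  induction n with
  | zero => simp [sorted]
  | succ n ih =>
    have e1 : sorted Λ (n + 1) = sorted Λ n ++
        ((List.range (occ Λ (n, false))).map (fun _ => (n, false)) ++
          (List.range (occ Λ (n, true))).map (fun _ => (n, true))) := by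
      unfold sorted
      rw [List.range_succ, List.flatMap_append]
      simp
    rw [e1, List.count_append, List.count_append, mv_count_map, mv_count_map, ih]
    rcases lt_trichotomy i n with h | h | h
    · have h1 : i < n + 1 := by omega
      have h2 : i ≠ n := by omega
      simp [h, h1, h2]
    · subst h
      have h1 : i < i + 1 := by omega
      cases s <;> simp [h1]
    · have h1 : ¬ i < n + 1 := by omega
      have h2 : i ≠ n := by omega
      have h3 : ¬ i < n := by omega
      simp [h1, h2, h3]

theorem sorted_perm {Λ : List (ℕ × Bool)} {n : ℕ} (h : ∀ a ∈ Λ, a.1 < n) :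
    (sorted Λ n).Perm Λ := by
  rw [List.perm_iff_count]
  rintro ⟨i, s⟩
  rw [mv_count_sorted]
  split_ifs with hi
  · exact mv_occ _ _
  · symm
    rw [List.count_eq_zero]
    intro h1
    exact hi (h _ h1)

end Pool.Agent.H77.SG
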