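import Pool.Agent.H77.SG.CComp
import Pool.Agent.H77.SG.MkA
import Pool.Agent.H77.SG.Mv

/-!
# Strict systems and programs

PROOFS. `trun_gates`, `TWF_gates`: induction on `C`. `prog_iff`: by `run_mkAll`, `run_compile`,
`trun_moves`, `sorted_perm` (all variables are `< cVars C`) and `trun_gates`, `Run (progOf C) []` is
equivalent to the existence of values `v i`, `v' i` of pairs with the gate inequalities. If `x` is a
solution of the strict system take `v i = x i` and `v' i = 1 - x i - δ` for `3 ≤ i` with a small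
`δ > 0` (finitely many strict inequalities; `δ < 1 - x i` only matters for the finitely many variables
which occur, for the others take any pair). Conversely take `x i = v i` (and the constants for
`i < 3`, and `1 / 2` for variables which do not matter if needed); use `v' i ≤ 1 - v i`.
-/

set_option autoImplicit false

namespace Pool.Agent.H77.SG

/-- The inequality of the gate for `c`, for the values `f` of the literals. -/
def GH (f : ℕ × Bool → ℝ) (c : ℕ × ℕ × ℕ × ℕ) : Prop :=
  if c.1 = 0 then 2 < f (c.2.1, false) + f (c.2.2.1, false) + 2 * f (c.2.2.2, true)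
  else if c.1 = 1 then 2 < f (c.2.1, true) + f (c.2.2.1, true) + 2 * f (c.2.2.2, false)
  else 1 < f (c.2.1, false) * f (c.2.2.1, false) + f (c.2.2.2, true)

theorem progmain_step (c : ℕ × ℕ × ℕ × ℕ) (f : ℕ × Bool → ℝ) (L L' : List ℝ) :
    TRel (gateOf c) ((lits c).map f ++ L) L' ↔ GH f c ∧ L = L' := by
  unfold TRel gateOf lits GH
  by_cases h0 : c.1 = 0
  · simp only [h0, if_true, zero_le, List.map_cons, List.map_nil, List.cons_append,
      List.nil_append]
    simp only [one_ne_zero, if_false]
    constructor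
    · rintro ⟨z, x, y, h, hlt⟩
      simp only [List.cons.injEq] at h
      obtain ⟨rfl, rfl, rfl, rfl⟩ := h
      exact ⟨hlt, rfl⟩
    · rintro ⟨hlt, rfl⟩
      exact ⟨_, _, _, rfl, hlt⟩
  · by_cases h1 : c.1 = 1
    · simp only [h1, one_ne_zero, if_false, if_true, le_refl, List.map_cons, List.map_nil,
        List.cons_append, List.nil_append]
      constructor
      · rintro ⟨z, x, y, h, hlt⟩
        simp only [List.cons.injEq] at h
        obtain ⟨rfl, rfl, rfl, rfl⟩ := h
        exact ⟨hlt, rfl⟩
      · rintro ⟨hlt, rfl⟩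
        exact ⟨_, _, _, rfl, hlt⟩
    · have h2 : ¬ c.1 ≤ 1 := by omega
      simp only [h0, h1, h2, if_false, List.map_cons, List.map_nil,
        List.cons_append, List.nil_append]
      simp only [OfNat.ofNat_ne_zero, OfNat.ofNat_ne_one, if_false]
      constructor
      · rintro ⟨y, x, z, h, hlt⟩
        simp only [List.cons.injEq] at h
        obtain ⟨rfl, rfl, rfl, rfl⟩ := h
        exact ⟨hlt, rfl⟩
      · rintro ⟨hlt, rfl⟩
        exact ⟨_, _, _, rfl, hlt⟩

theorem trun_gates (C : List (ℕ × ℕ × ℕ × ℕ)) (f : ℕ × Bool → ℝ) :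
    TRun (C.map gateOf) ((C.flatMap lits).map f) ↔ ∀ c ∈ C, GH f c := by
  induction C with
  | nil => simp [TRun]
  | cons c C ih =>
    have h1 : (((c :: C).flatMap lits).map f) = (lits c).map f ++ ((C.flatMap lits).map f) := by
      rw [List.flatMap_cons, List.map_append]
    rw [h1, List.map_cons, List.forall_mem_cons, ← ih]
    constructor
    · rintro ⟨L', h, hL'⟩
      obtain ⟨h2, h3⟩ := (progmain_step c f _ L').1 h
      rw [h3]
      exact ⟨h2, hL'⟩
    · rintro ⟨h2, hL'⟩
      exact ⟨_, (progmain_step c f _ _).2 ⟨h2, rfl⟩, hL'⟩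

theorem progmain_length_lits (c : ℕ × ℕ × ℕ × ℕ) : (lits c).length = 3 := by
  unfold lits
  split_ifs <;> rfl

theorem TWF_gates (C : List (ℕ × ℕ × ℕ × ℕ)) :
    TWF (C.map gateOf) (C.flatMap lits).length := by
  induction C with
  | nil => rfl
  | cons c C ih =>
    have h1 : ((c :: C).flatMap lits).length = (C.flatMap lits).length + 3 := by
      rw [List.flatMap_cons, List.length_append, progmain_length_lits]
      ring
    have h2 : (gateOf c).1 ≠ 0 := by
      unfold gateOf
      split_ifs <;> simp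
    rw [h1, List.map_cons]
    refine ⟨?_, ?_⟩
    · rw [if_neg h2]; omega
    · rw [if_neg h2, Nat.add_sub_cancel]
      exact ih

theorem lits_lt {C : List (ℕ × ℕ × ℕ × ℕ)} : ∀ a ∈ C.flatMap lits, a.1 < cVars C := by
  intro a ha
  obtain ⟨c, hc, hac⟩ := List.mem_flatMap.1 ha
  have h1 : a.1 < c.2.1 + c.2.2.1 + c.2.2.2 + 1 := by
    unfold lits at hac
    split_ifs at hac <;> simp only [List.mem_cons, List.not_mem_nil, or_false] at hac <;>
      rcases hac with rfl | rfl | rfl <;> simp only <;> omega
  have h2 : c.2.1 + c.2.2.1 + c.2.2.2 + 1 ≤ cVars C := by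
    unfold cVars
    exact List.single_le_sum (fun _ _ => Nat.zero_le _) _
      (List.mem_map.2 ⟨c, hc, rfl⟩)
  omega

theorem progmain_pair {i : ℕ} {v v' : ℝ} (h : Pair i v v') : 0 < v ∧ v < 1 ∧ 0 < v' ∧ v' < 1 := by
  unfold Pair at h
  by_cases hi : i < 3
  · rw [if_pos hi] at h
    have h3 : i = 0 ∨ i = 1 ∨ i = 2 := by omega
    rw [h.1, h.2]
    rcases h3 with rfl | rfl | rfl <;> norm_num
  · rw [if_neg hi] at h
    exact ⟨h.1, by linarith [h.2.1, h.2.2], h.2.1, by linarith [h.1, h.2.2]⟩

/-- The inequality with a margin. -/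
def progmainM (δ : ℝ) (x : ℕ → ℝ) (c : ℕ × ℕ × ℕ × ℕ) : Prop :=
  if c.1 = 0 then 2 * x c.2.2.2 + 2 * δ < x c.2.1 + x c.2.2.1
  else if c.1 = 1 then x c.2.1 + x c.2.2.1 + 2 * δ < 2 * x c.2.2.2
  else x c.2.2.2 + δ < x c.2.1 * x c.2.2.1

/-- The opposite values. -/
noncomputable def progmainV (x : ℕ → ℝ) (δ : ℝ) (i : ℕ) : ℝ :=
  if i < 3 then (3 - (i : ℝ)) / 4 else 1 - x i - min δ ((1 - x i) / 2)

theorem progmain_margin (C : List (ℕ × ℕ × ℕ × ℕ)) (x : ℕ → ℝ) (h : ∀ c ∈ C, CH x c) :
    ∃ δ > 0, ∀ c ∈ C, progmainM δ x c := by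
  induction C with
  | nil => exact ⟨1, one_pos, by simp⟩
  | cons c C ih =>
    obtain ⟨δ, hδ, hC⟩ := ih (fun d hd => h d (List.mem_cons_of_mem _ hd))
    obtain ⟨δ', hδ', hc⟩ : ∃ δ' > 0, progmainM δ' x c := by
      have h1 := h c List.mem_cons_self
      unfold CH at h1
      unfold progmainM
      split_ifs at h1 ⊢ with hc0 hc1
      · exact ⟨(x c.2.1 + x c.2.2.1 - 2 * x c.2.2.2) / 4, by linarith, by linarith⟩
      · exact ⟨(2 * x c.2.2.2 - (x c.2.1 + x c.2.2.1)) / 4, by linarith, by linarith⟩
      · exact ⟨(x c.2.1 * x c.2.2.1 - x c.2.2.2) / 2, by linarith, by linarith⟩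
    have hmono : ∀ d, ∀ ε ε' : ℝ, ε' ≤ ε → progmainM ε x d → progmainM ε' x d := by
      intro d ε ε' hε hd
      unfold progmainM at hd ⊢
      split_ifs at hd ⊢ <;> linarith
    refine ⟨min δ δ', lt_min hδ hδ', ?_⟩
    intro d hd
    rcases List.mem_cons.1 hd with rfl | hd
    · exact hmono _ _ _ (min_le_right _ _) hc
    · exact hmono _ _ _ (min_le_left _ _) (hC d hd)

theorem prog_iff (C : List (ℕ × ℕ × ℕ × ℕ)) : SSat C ↔ Run (progOf C) [] := by
  have hΛ := sorted_perm (n := cVars C) (lits_lt (C := C))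
  have htwf : TWF (strandProg C) (sorted (C.flatMap lits) (cVars C)).length :=
    TWF_moves hΛ (TWF_gates C)
  unfold progOf
  rw [run_mkAll]
  have hkey : ∀ v v' : ℕ → ℝ, (∀ i, Pair i (v i) (v' i)) →
      (Run ((strandProg C).flatMap cS) (wires ((sorted (C.flatMap lits) (cVars C)).map
        fun a => if a.2 = true then v' a.1 else v a.1)) ↔
        ∀ c ∈ C, GH (fun a => if a.2 = true then v' a.1 else v a.1) c) := by
    intro v v' hp
    rw [run_compile (by rw [List.length_map]; exact htwf)]
    · unfold strandProg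
      rw [trun_moves hΛ, trun_gates]
    · intro a ha
      obtain ⟨b, _, rfl⟩ := List.mem_map.1 ha
      obtain ⟨h1, h2, h3, h4⟩ := progmain_pair (hp b.1)
      split_ifs
      · exact ⟨h3, h4⟩
      · exact ⟨h1, h2⟩
  constructor
  · rintro ⟨x, hx, h0, h1, h2, hC⟩
    obtain ⟨δ, hδ, hm⟩ := progmain_margin C x hC
    have hp : ∀ i, Pair i (x i) (progmainV x δ i) := by
      intro i
      unfold Pair progmainV
      by_cases hi : i < 3
      · rw [if_pos hi, if_pos hi]
        refine ⟨?_, rfl⟩
        have h3 : i = 0 ∨ i = 1 ∨ i = 2 := by omega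
        rcases h3 with rfl | rfl | rfl
        · rw [h0]; norm_num
        · rw [h1]; norm_num
        · rw [h2]; norm_num
      · rw [if_neg hi, if_neg hi]
        have hxi := hx i
        have h3 : min δ ((1 - x i) / 2) ≤ (1 - x i) / 2 := min_le_right _ _
        have h4 : 0 < min δ ((1 - x i) / 2) := lt_min hδ (by linarith [hxi.2])
        exact ⟨hxi.1, by linarith [hxi.2], by linarith⟩
    have hv : ∀ i, 1 - x i - δ ≤ progmainV x δ i := by
      intro i
      unfold progmainV
      by_cases hi : i < 3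
      · rw [if_pos hi]
        have h3 : i = 0 ∨ i = 1 ∨ i = 2 := by omega
        rcases h3 with rfl | rfl | rfl
        · rw [h0]; norm_num; linarith
        · rw [h1]; norm_num; linarith
        · rw [h2]; norm_num; linarith
      · rw [if_neg hi]
        have h3 : min δ ((1 - x i) / 2) ≤ δ := min_le_left _ _
        linarith
    refine ⟨x, progmainV x δ, hp, (hkey x (progmainV x δ) hp).2 ?_⟩
    intro c hc
    have h3 := hm c hc
    unfold progmainM at h3
    unfold GH
    have hv1 := hv c.2.1
    have hv2 := hv c.2.2.1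
    have hv3 := hv c.2.2.2
    split_ifs at h3 ⊢ with hc0 hc1
    all_goals simp only [reduceIte, Bool.false_eq_true] at *
    · linarith
    · linarith
    · linarith
  · rintro ⟨v, v', hp, hrun⟩
    have hG := (hkey v v' hp).1 hrun
    have hv : ∀ i, v' i ≤ 1 - v i := by
      intro i
      have h1 := hp i
      unfold Pair at h1
      by_cases hi : i < 3
      · rw [if_pos hi] at h1
        rw [h1.1, h1.2]
        linarith
      · rw [if_neg hi] at h1
        linarith [h1.2.2]
    refine ⟨v, fun i => ⟨(progmain_pair (hp i)).1, (progmain_pair (hp i)).2.1⟩, ?_, ?_, ?_, ?_⟩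
    · have h1 := hp 0
      unfold Pair at h1
      rw [if_pos (by norm_num)] at h1
      rw [h1.1]; norm_num
    · have h1 := hp 1
      unfold Pair at h1
      rw [if_pos (by norm_num)] at h1
      rw [h1.1]; norm_num
    · have h1 := hp 2
      unfold Pair at h1
      rw [if_pos (by norm_num)] at h1
      rw [h1.1]; norm_num
    · intro c hc
      have h3 := hG c hc
      unfold GH at h3
      unfold CH
      have hv1 := hv c.2.1
      have hv2 := hv c.2.2.1
      have hv3 := hv c.2.2.2
      split_ifs at h3 ⊢ with hc0 hc1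
      all_goals simp only [reduceIte, Bool.false_eq_true] at *
      · linarith
      · linarith
      · linarith

theorem prog_wf (C : List (ℕ × ℕ × ℕ × ℕ)) : WF (progOf C) [] := by
  have hΛ := sorted_perm (n := cVars C) (lits_lt (C := C))
  exact WF_mkAll _ _ (WF_compile (TWF_moves hΛ (TWF_gates C)))

end Pool.Agent.H77.SG
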