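import Pool.Agent.H77.SG.Defs

/-!
# Formulas and quadratic systems

`l.foldr qstep st` reads the symbols from right to left. Reading the symbols of a term pushes one entry
`(v, 0)` on the stack, where `v` is a variable which is forced by the equations to have the value of
the term (the variable number `i` of the formula is the variable `2 i` of the system). Reading the
symbols of a formula pushes one entry `(p, n)`: if all equations hold and `X p = 0` the formula is
true, if all equations hold and `X n = 0` it is false.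

PROOF. By structural induction, simultaneously: (a) the form of the new state: the stack is the old
one with one new entry, the counter increases from `n` to `n'`, the list of equations is `Gs ++ G`;
(b) all variables in `Gs` and in the new entry are even or in `[fv n 0, fv n' 0)`; (c) soundness as
above, for all `X` which satisfy `Gs`; (d) completeness: every assignment `X` can be changed on the odd
variables in `[fv n 0, fv n' 0)` such that `Gs` holds and, for formulas, `X p = 0` if the formula is true
and `X n = 0` if it is false. For a binary symbol the symbols of the right operand are read first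
(`List.foldr_append`), so the top of the stack is the left operand and the next entry is the right
operand. Equations: `s < t` iff `∃ z, (t - s) z ^ 2 - 1 = 0`, and not `s < t` iff
`∃ y, t - s + y ^ 2 = 0`; `s = t` iff `s - t = 0`, and not `s = t` iff `∃ z, (s - t) z - 1 = 0`.
`X = X + X` says `X = 0`. At the end the equation `X p = X p + X p` is added for the top entry.
-/

set_option autoImplicit false

namespace Pool.Agent.H77.SG

/-! ### Locality -/

/-- The variable `v` is even or belongs to the steps from `n` to `n'`. -/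
def QLoc (n n' v : ℕ) : Prop := v % 2 = 0 ∨ (32 * n + 1 ≤ v ∧ v < 32 * n' + 1)

/-- All variables of the equation are local. -/
def QLocG (n n' : ℕ) (g : ℕ × ℕ × ℕ × ℕ) : Prop :=
  QLoc n n' g.2.1 ∧ QLoc n n' g.2.2.1 ∧ QLoc n n' g.2.2.2

/-- The assignments agree except on the odd variables of the steps from `n` to `n'`. -/
def QAgree (n n' : ℕ) (X X' : ℕ → ℝ) : Prop :=
  ∀ v, (v % 2 = 0 ∨ v < 32 * n + 1 ∨ 32 * n' + 1 ≤ v) → X' v = X v

theorem qmain_QH_congr {X X' : ℕ → ℝ} {g : ℕ × ℕ × ℕ × ℕ} (h1 : X' g.2.1 = X g.2.1)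
    (h2 : X' g.2.2.1 = X g.2.2.1) (h3 : X' g.2.2.2 = X g.2.2.2) : QH X' g ↔ QH X g := by
  unfold QH
  rw [h1, h2, h3]

theorem qmain_QH_agree {n n' m m' : ℕ} {X X' : ℕ → ℝ} (h : QAgree m m' X X')
    (hn : n' ≤ m ∨ m' ≤ n) {g : ℕ × ℕ × ℕ × ℕ} (hg : QLocG n n' g) : QH X' g ↔ QH X g := by
  obtain ⟨h1, h2, h3⟩ := hg
  unfold QLoc at h1 h2 h3
  exact qmain_QH_congr (h _ (by omega)) (h _ (by omega)) (h _ (by omega))

/-- Change of the variables of the step number `n`. -/
def qupd (n : ℕ) (c : List ℝ) (X : ℕ → ℝ) (v : ℕ) : ℝ :=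
  if v % 2 = 1 ∧ 32 * n + 1 ≤ v ∧ v < 32 * n + 33 then c.getD ((v - 32 * n - 1) / 2) 0 else X v

theorem qmain_upd_fv {n r : ℕ} (c : List ℝ) (X : ℕ → ℝ) (hr : r < 16) :
    qupd n c X (fv n r) = c.getD r 0 := by
  unfold qupd fv
  rw [if_pos (by omega)]
  congr 1
  omega

theorem qmain_upd_loc {n m v : ℕ} (c : List ℝ) (X : ℕ → ℝ) (hv : QLoc m n v) :
    qupd n c X v = X v := by
  unfold QLoc at hv
  unfold qupd
  rw [if_neg (by omega)]

theorem qmain_upd_zero {n : ℕ} (c : List ℝ) (X : ℕ → ℝ) : qupd n c X 0 = X 0 := by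
  unfold qupd
  rw [if_neg (by omega)]

theorem qmain_upd_agree (n : ℕ) (c : List ℝ) (X : ℕ → ℝ) : QAgree n (n + 1) X (qupd n c X) := by
  intro v hv
  unfold qupd
  rw [if_neg (by omega)]

theorem qmain_agree_trans {n m n' : ℕ} {X Y Z : ℕ → ℝ} (h1 : n ≤ m) (h2 : m ≤ n')
    (hXY : QAgree n m X Y) (hYZ : QAgree m n' Y Z) : QAgree n n' X Z := by
  intro v hv
  rw [hYZ v (by omega), hXY v (by omega)]

theorem qmain_loc_mono {n m m' n' v : ℕ} (h1 : n ≤ m) (h2 : m' ≤ n') (h : QLoc m m' v) :
    QLoc n n' v := by
  unfold QLoc at h ⊢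
  omega

theorem qmain_locG_mono {n m m' n' : ℕ} {g : ℕ × ℕ × ℕ × ℕ} (h1 : n ≤ m) (h2 : m' ≤ n')
    (h : QLocG m m' g) : QLocG n n' g :=
  ⟨qmain_loc_mono h1 h2 h.1, qmain_loc_mono h1 h2 h.2.1, qmain_loc_mono h1 h2 h.2.2⟩

theorem qmain_loc_fv {n m r : ℕ} (h : n ≤ m) (hr : r < 16) : QLoc n (m + 1) (fv m r) := by
  unfold QLoc fv
  omega

theorem qmain_loc_even {n m i : ℕ} : QLoc n m (2 * i) := by
  unfold QLoc
  omega

theorem qmain_loc_zero {n m : ℕ} : QLoc n m 0 := by
  unfold QLoc
  omega

/-! ### Terms -/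

/-- The specification for terms: entry `e`, counters `n`, `n'`, equations `G`. -/
structure QTm (t : Tm) (n : ℕ) (e : ℕ × ℕ) (n' : ℕ) (G : List (ℕ × ℕ × ℕ × ℕ)) : Prop where
  le : n ≤ n'
  loc : QLoc n n' e.1
  locG : ∀ g ∈ G, QLocG n n' g
  sound : ∀ X : ℕ → ℝ, (∀ g ∈ G, QH X g) → X e.1 = t.val fun i => X (2 * i)
  compl : ∀ X : ℕ → ℝ, ∃ X', QAgree n n' X X' ∧ ∀ g ∈ G, QH X' g

/-- The specification for formulas. -/
structure QFm (φ : Fm) (n : ℕ) (e : ℕ × ℕ) (n' : ℕ) (G : List (ℕ × ℕ × ℕ × ℕ)) : Prop where
  le : n ≤ n'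
  loc1 : QLoc n n' e.1
  loc2 : QLoc n n' e.2
  locG : ∀ g ∈ G, QLocG n n' g
  sound : ∀ X : ℕ → ℝ, (∀ g ∈ G, QH X g) →
    (X e.1 = 0 → φ.Holds fun i => X (2 * i)) ∧ (X e.2 = 0 → ¬ φ.Holds fun i => X (2 * i))
  compl : ∀ X : ℕ → ℝ, ∃ X', QAgree n n' X X' ∧ (∀ g ∈ G, QH X' g) ∧
    ((φ.Holds fun i => X (2 * i)) → X' e.1 = 0) ∧ ((¬ φ.Holds fun i => X (2 * i)) → X' e.2 = 0)

theorem qmain_agree_even {n n' : ℕ} {X X' : ℕ → ℝ} (h : QAgree n n' X X') :
    (fun i => X' (2 * i)) = fun i => X (2 * i) := by
  funext i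
  exact h _ (by omega)

/-- Two terms and one more step. -/
theorem qmain_two_terms {s t : Tm} {n m k : ℕ} {es et : ℕ × ℕ} {Gs Gt : List (ℕ × ℕ × ℕ × ℕ)}
    (ht : QTm t n et m Gt) (hs : QTm s m es k Gs) (X : ℕ → ℝ) :
    ∃ Y, QAgree n k X Y ∧ (∀ g ∈ Gs, QH Y g) ∧ (∀ g ∈ Gt, QH Y g) ∧
      Y es.1 = (s.val fun i => X (2 * i)) ∧ Y et.1 = (t.val fun i => X (2 * i)) := by
  obtain ⟨X1, a1, b1⟩ := ht.compl X
  obtain ⟨X2, a2, b2⟩ := hs.compl X1
  have a3 := qmain_agree_trans ht.le hs.le a1 a2
  have b3 : ∀ g ∈ Gt, QH X2 g := fun g hg =>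
    (qmain_QH_agree a2 (Or.inl le_rfl) (ht.locG g hg)).2 (b1 g hg)
  refine ⟨X2, a3, b2, b3, ?_, ?_⟩
  · rw [hs.sound X2 b2, qmain_agree_even a3]
  · rw [ht.sound X2 b3, qmain_agree_even a3]

/-- One more step: the new equations hold after a change of the new variables. -/
theorem qmain_step {n k : ℕ} {X Y : ℕ → ℝ} (hnk : n ≤ k) (c : List ℝ)
    (hY : QAgree n k X Y) {G1 G2 G3 : List (ℕ × ℕ × ℕ × ℕ)} (h2 : ∀ g ∈ G2, QLocG n k g)
    (h3 : ∀ g ∈ G3, QLocG n k g) (q2 : ∀ g ∈ G2, QH Y g) (q3 : ∀ g ∈ G3, QH Y g)
    (q1 : ∀ g ∈ G1, QH (qupd k c Y) g) :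
    QAgree n (k + 1) X (qupd k c Y) ∧ ∀ g ∈ G1 ++ (G2 ++ G3), QH (qupd k c Y) g := by
  refine ⟨qmain_agree_trans hnk (Nat.le_succ k) hY (qmain_upd_agree k c Y), ?_⟩
  intro g hg
  simp only [List.mem_append] at hg
  rcases hg with hg | hg | hg
  · exact q1 g hg
  · exact (qmain_QH_agree (qmain_upd_agree k c Y) (Or.inl le_rfl) (h2 g hg)).2 (q2 g hg)
  · exact (qmain_QH_agree (qmain_upd_agree k c Y) (Or.inl le_rfl) (h3 g hg)).2 (q3 g hg)

theorem qmain_QH0 (X : ℕ → ℝ) (k i j : ℕ) : QH X (0, k, i, j) ↔ X k = 1 := by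
  simp [QH]

theorem qmain_QH1 (X : ℕ → ℝ) (k i j : ℕ) : QH X (1, k, i, j) ↔ X k = X i + X j := by
  simp [QH]

theorem qmain_QH2 (X : ℕ → ℝ) (k i j : ℕ) : QH X (2, k, i, j) ↔ X k = X i * X j := by
  simp [QH]

theorem qmain_tm (t : Tm) : ∀ n : ℕ, ∃ e n' G, QTm t n e n' G ∧ ∀ S G0,
    t.toks.foldr qstep (S, n, G0) = (e :: S, n', G ++ G0) := by
  induction t with
  | var i =>
    intro n
    refine ⟨(2 * i, 0), n + 1, [], ⟨by omega, qmain_loc_even, by simp, ?_, ?_⟩, ?_⟩
    · intro X _
      simp [Tm.val]
    · intro X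
      exact ⟨X, fun v _ => rfl, by simp⟩
    · intro S G0
      simp [Tm.toks, qstep, qpush, qpop, qgates]
  | zero =>
    intro n
    refine ⟨(fv n 0, 0), n + 1, [(1, fv n 0, fv n 0, fv n 0)],
      ⟨by omega, qmain_loc_fv le_rfl (by norm_num), ?_, ?_, ?_⟩, ?_⟩
    · intro g hg
      simp only [List.mem_singleton] at hg
      subst hg
      exact ⟨qmain_loc_fv le_rfl (by norm_num), qmain_loc_fv le_rfl (by norm_num),
        qmain_loc_fv le_rfl (by norm_num)⟩
    · intro X h
      have h1 := h _ (List.mem_singleton_self _)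
      rw [qmain_QH1] at h1
      simp only [Tm.val]
      linarith
    · intro X
      refine ⟨qupd n [0] X, qmain_upd_agree _ _ _, ?_⟩
      intro g hg
      simp only [List.mem_singleton] at hg
      subst hg
      rw [qmain_QH1, qmain_upd_fv _ _ (by norm_num)]
      simp
    · intro S G0
      simp [Tm.toks, qstep, qpush, qpop, qgates]
  | one =>
    intro n
    refine ⟨(fv n 0, 0), n + 1, [(0, fv n 0, 0, 0)],
      ⟨by omega, qmain_loc_fv le_rfl (by norm_num), ?_, ?_, ?_⟩, ?_⟩
    · intro g hg
      simp only [List.mem_singleton] at hg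
      subst hg
      exact ⟨qmain_loc_fv le_rfl (by norm_num), qmain_loc_zero, qmain_loc_zero⟩
    · intro X h
      have h1 := h _ (List.mem_singleton_self _)
      rw [qmain_QH0] at h1
      simpa only [Tm.val] using h1
    · intro X
      refine ⟨qupd n [1] X, qmain_upd_agree _ _ _, ?_⟩
      intro g hg
      simp only [List.mem_singleton] at hg
      subst hg
      rw [qmain_QH0, qmain_upd_fv _ _ (by norm_num)]
      simp
    · intro S G0
      simp [Tm.toks, qstep, qpush, qpop, qgates]
  | add s t ihs iht =>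
    intro n
    obtain ⟨et, m, Gt, ht, ht'⟩ := iht n
    obtain ⟨es, k, Gs, hs, hs'⟩ := ihs m
    have hnm := ht.le
    have hmk := hs.le
    refine ⟨(fv k 0, 0), k + 1, [(1, fv k 0, es.1, et.1)] ++ (Gs ++ Gt),
      ⟨by omega, qmain_loc_fv (by omega) (by norm_num), ?_, ?_, ?_⟩, ?_⟩
    · intro g hg
      simp only [List.mem_append, List.mem_singleton] at hg
      rcases hg with hg | hg | hg
      · subst hg
        exact ⟨qmain_loc_fv (by omega) (by norm_num), qmain_loc_mono hnm (by omega) hs.loc,
          qmain_loc_mono le_rfl (by omega) ht.loc⟩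
      · exact qmain_locG_mono hnm (by omega) (hs.locG g hg)
      · exact qmain_locG_mono le_rfl (by omega) (ht.locG g hg)
    · intro X h
      have h1 := h (1, fv k 0, es.1, et.1) (by simp)
      rw [qmain_QH1] at h1
      have h2 := hs.sound X fun g hg => h g (by simp [hg])
      have h3 := ht.sound X fun g hg => h g (by simp [hg])
      simp only [Tm.val]
      rw [h1, h2, h3]
    · intro X
      obtain ⟨Y, a1, a2, a3, a4, a5⟩ := qmain_two_terms ht hs X
      obtain ⟨b1, b2⟩ := qmain_step (c := [Y es.1 + Y et.1]) (by omega) a1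
        (G1 := [(1, fv k 0, es.1, et.1)]) (G2 := Gs) (G3 := Gt)
        (fun g hg => qmain_locG_mono hnm le_rfl (hs.locG g hg))
        (fun g hg => qmain_locG_mono le_rfl hmk (ht.locG g hg)) a2 a3 (by
          intro g hg
          simp only [List.mem_singleton] at hg
          subst hg
          rw [qmain_QH1, qmain_upd_fv _ _ (by norm_num), qmain_upd_loc _ _ hs.loc,
            qmain_upd_loc _ _ (qmain_loc_mono le_rfl hmk ht.loc)]
          simp)
      exact ⟨_, b1, b2⟩
    · intro S G0
      simp only [Tm.toks, List.foldr_cons, List.foldr_append, ht', hs']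
      simp [qstep, qpush, qpop, qgates]
  | mul s t ihs iht =>
    intro n
    obtain ⟨et, m, Gt, ht, ht'⟩ := iht n
    obtain ⟨es, k, Gs, hs, hs'⟩ := ihs m
    have hnm := ht.le
    have hmk := hs.le
    refine ⟨(fv k 0, 0), k + 1, [(2, fv k 0, es.1, et.1)] ++ (Gs ++ Gt),
      ⟨by omega, qmain_loc_fv (by omega) (by norm_num), ?_, ?_, ?_⟩, ?_⟩
    · intro g hg
      simp only [List.mem_append, List.mem_singleton] at hg
      rcases hg with hg | hg | hg
      · subst hg
        exact ⟨qmain_loc_fv (by omega) (by norm_num), qmain_loc_mono hnm (by omega) hs.loc,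
          qmain_loc_mono le_rfl (by omega) ht.loc⟩
      · exact qmain_locG_mono hnm (by omega) (hs.locG g hg)
      · exact qmain_locG_mono le_rfl (by omega) (ht.locG g hg)
    · intro X h
      have h1 := h (2, fv k 0, es.1, et.1) (by simp)
      rw [qmain_QH2] at h1
      have h2 := hs.sound X fun g hg => h g (by simp [hg])
      have h3 := ht.sound X fun g hg => h g (by simp [hg])
      simp only [Tm.val]
      rw [h1, h2, h3]
    · intro X
      obtain ⟨Y, a1, a2, a3, a4, a5⟩ := qmain_two_terms ht hs X
      obtain ⟨b1, b2⟩ := qmain_step (c := [Y es.1 * Y et.1]) (by omega) a1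
        (G1 := [(2, fv k 0, es.1, et.1)]) (G2 := Gs) (G3 := Gt)
        (fun g hg => qmain_locG_mono hnm le_rfl (hs.locG g hg))
        (fun g hg => qmain_locG_mono le_rfl hmk (ht.locG g hg)) a2 a3 (by
          intro g hg
          simp only [List.mem_singleton] at hg
          subst hg
          rw [qmain_QH2, qmain_upd_fv _ _ (by norm_num), qmain_upd_loc _ _ hs.loc,
            qmain_upd_loc _ _ (qmain_loc_mono le_rfl hmk ht.loc)]
          simp)
      exact ⟨_, b1, b2⟩
    · intro S G0
      simp only [Tm.toks, List.foldr_cons, List.foldr_append, ht', hs']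
      simp [qstep, qpush, qpop, qgates]
  | neg s ihs =>
    intro n
    obtain ⟨es, k, Gs, hs, hs'⟩ := ihs n
    have hmk := hs.le
    refine ⟨(fv k 0, 0), k + 1, [(1, fv k 1, fv k 1, fv k 1), (1, fv k 1, fv k 0, es.1)] ++ (Gs ++ []),
      ⟨by omega, qmain_loc_fv (by omega) (by norm_num), ?_, ?_, ?_⟩, ?_⟩
    · intro g hg
      simp only [List.mem_append, List.mem_cons, List.not_mem_nil, or_false] at hg
      rcases hg with (hg | hg) | hg
      · subst hg
        exact ⟨qmain_loc_fv (by omega) (by norm_num), qmain_loc_fv (by omega) (by norm_num),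
          qmain_loc_fv (by omega) (by norm_num)⟩
      · subst hg
        exact ⟨qmain_loc_fv (by omega) (by norm_num), qmain_loc_fv (by omega) (by norm_num),
          qmain_loc_mono le_rfl (by omega) hs.loc⟩
      · exact qmain_locG_mono le_rfl (by omega) (hs.locG g hg)
    · intro X h
      have h1 := h (1, fv k 1, fv k 1, fv k 1) (by simp)
      have h2 := h (1, fv k 1, fv k 0, es.1) (by simp)
      rw [qmain_QH1] at h1 h2
      have h3 := hs.sound X fun g hg => h g (by simp [hg])
      simp only [Tm.val]
      rw [← h3]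
      linarith
    · intro X
      obtain ⟨Y, a1, a2⟩ := hs.compl X
      obtain ⟨b1, b2⟩ := qmain_step (c := [- Y es.1, 0]) (by omega) a1
        (G1 := [(1, fv k 1, fv k 1, fv k 1), (1, fv k 1, fv k 0, es.1)]) (G2 := Gs) (G3 := [])
        (fun g hg => hs.locG g hg)
        (by simp) a2 (by simp) (by
          intro g hg
          simp only [List.mem_cons, List.not_mem_nil, or_false] at hg
          rcases hg with hg | hg
          · subst hg
            rw [qmain_QH1, qmain_upd_fv _ _ (by norm_num)]
            simp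
          · subst hg
            rw [qmain_QH1, qmain_upd_fv _ _ (by norm_num), qmain_upd_fv _ _ (by norm_num),
              qmain_upd_loc _ _ hs.loc]
            simp)
      exact ⟨_, b1, b2⟩
    · intro S G0
      simp only [Tm.toks, List.foldr_cons, hs']
      simp [qstep, qpush, qpop, qgates]

/-! ### Formulas -/

/-- Two formulas and one more step. -/
theorem qmain_two_fms {s t : Fm} {n m k : ℕ} {es et : ℕ × ℕ} {Gs Gt : List (ℕ × ℕ × ℕ × ℕ)}
    (ht : QFm t n et m Gt) (hs : QFm s m es k Gs) (X : ℕ → ℝ) :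
    ∃ Y, QAgree n k X Y ∧ (∀ g ∈ Gs, QH Y g) ∧ (∀ g ∈ Gt, QH Y g) ∧
      ((s.Holds fun i => X (2 * i)) → Y es.1 = 0) ∧ ((¬ s.Holds fun i => X (2 * i)) → Y es.2 = 0) ∧
      ((t.Holds fun i => X (2 * i)) → Y et.1 = 0) ∧
      ((¬ t.Holds fun i => X (2 * i)) → Y et.2 = 0) := by
  obtain ⟨X1, a1, b1, c1, d1⟩ := ht.compl X
  obtain ⟨X2, a2, b2, c2, d2⟩ := hs.compl X1
  have a3 := qmain_agree_trans ht.le hs.le a1 a2
  have b3 : ∀ g ∈ Gt, QH X2 g := fun g hg =>
    (qmain_QH_agree a2 (Or.inl le_rfl) (ht.locG g hg)).2 (b1 g hg)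
  have e1 : X2 et.1 = X1 et.1 := a2 _ (by have := ht.loc1; unfold QLoc at this; omega)
  have e2 : X2 et.2 = X1 et.2 := a2 _ (by have := ht.loc2; unfold QLoc at this; omega)
  rw [qmain_agree_even a1] at c2 d2
  refine ⟨X2, a3, b2, b3, c2, d2, ?_, ?_⟩
  · intro h
    rw [e1, c1 h]
  · intro h
    rw [e2, d1 h]

theorem qmain_fm (φ : Fm) : ∀ n : ℕ, ∃ e n' G, QFm φ n e n' G ∧ ∀ S G0,
    φ.toks.foldr qstep (S, n, G0) = (e :: S, n', G ++ G0) := by
  induction φ with
  | eq s t =>
    intro n
    obtain ⟨et, m, Gt, ht, ht'⟩ := qmain_tm t n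
    obtain ⟨es, k, Gs, hs, hs'⟩ := qmain_tm s m
    have hnm := ht.le
    have hmk := hs.le
    refine ⟨(fv k 0, fv k 4), k + 1, [(1, es.1, fv k 0, et.1), (2, fv k 2, fv k 0, fv k 1),
      (0, fv k 3, 0, 0), (1, fv k 2, fv k 4, fv k 3)] ++ (Gs ++ Gt),
      ⟨by omega, qmain_loc_fv (by omega) (by norm_num), qmain_loc_fv (by omega) (by norm_num),
        ?_, ?_, ?_⟩, ?_⟩
    · intro g hg
      simp only [List.mem_append, List.mem_cons, List.not_mem_nil, or_false] at hg
      rcases hg with (hg | hg | hg | hg) | hg | hg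
      · subst hg
        exact ⟨qmain_loc_mono hnm (by omega) hs.loc, qmain_loc_fv (by omega) (by norm_num),
          qmain_loc_mono le_rfl (by omega) ht.loc⟩
      · subst hg
        exact ⟨qmain_loc_fv (by omega) (by norm_num), qmain_loc_fv (by omega) (by norm_num),
          qmain_loc_fv (by omega) (by norm_num)⟩
      · subst hg
        exact ⟨qmain_loc_fv (by omega) (by norm_num), qmain_loc_zero, qmain_loc_zero⟩
      · subst hg
        exact ⟨qmain_loc_fv (by omega) (by norm_num), qmain_loc_fv (by omega) (by norm_num),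
          qmain_loc_fv (by omega) (by norm_num)⟩
      · exact qmain_locG_mono hnm (by omega) (hs.locG g hg)
      · exact qmain_locG_mono le_rfl (by omega) (ht.locG g hg)
    · intro X h
      have h1 := h (1, es.1, fv k 0, et.1) (by simp)
      have h2 := h (2, fv k 2, fv k 0, fv k 1) (by simp)
      have h3 := h (0, fv k 3, 0, 0) (by simp)
      have h4 := h (1, fv k 2, fv k 4, fv k 3) (by simp)
      rw [qmain_QH1] at h1 h4
      rw [qmain_QH2] at h2
      rw [qmain_QH0] at h3
      have h5 := hs.sound X fun g hg => h g (by simp [hg])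
      have h6 := ht.sound X fun g hg => h g (by simp [hg])
      constructor
      · intro h0
        simp only at h0
        simp only [Fm.Holds]
        rw [← h5, ← h6]
        linarith
      · intro h0
        simp only at h0
        simp only [Fm.Holds]
        rw [← h5, ← h6]
        intro h7
        have h8 : X (fv k 0) = 0 := by linarith
        rw [h8, zero_mul] at h2
        linarith
    · intro X
      obtain ⟨Y, a1, a2, a3, a4, a5⟩ := qmain_two_terms ht hs X
      obtain ⟨b1, b2⟩ := qmain_step (c := [Y es.1 - Y et.1, (Y es.1 - Y et.1)⁻¹,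
          (Y es.1 - Y et.1) * (Y es.1 - Y et.1)⁻¹, 1,
          (Y es.1 - Y et.1) * (Y es.1 - Y et.1)⁻¹ - 1]) (by omega) a1
        (G1 := [(1, es.1, fv k 0, et.1), (2, fv k 2, fv k 0, fv k 1),
          (0, fv k 3, 0, 0), (1, fv k 2, fv k 4, fv k 3)]) (G2 := Gs) (G3 := Gt)
        (fun g hg => qmain_locG_mono hnm le_rfl (hs.locG g hg))
        (fun g hg => qmain_locG_mono le_rfl hmk (ht.locG g hg)) a2 a3 (by
          intro g hg
          simp only [List.mem_cons, List.not_mem_nil, or_false] at hg
          rcases hg with hg | hg | hg | hg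
          · subst hg
            rw [qmain_QH1, qmain_upd_fv _ _ (by norm_num), qmain_upd_loc _ _ hs.loc,
              qmain_upd_loc _ _ (qmain_loc_mono le_rfl hmk ht.loc)]
            simp
          · subst hg
            rw [qmain_QH2, qmain_upd_fv _ _ (by norm_num), qmain_upd_fv _ _ (by norm_num),
              qmain_upd_fv _ _ (by norm_num)]
            simp
          · subst hg
            rw [qmain_QH0, qmain_upd_fv _ _ (by norm_num)]
            simp
          · subst hg
            rw [qmain_QH1, qmain_upd_fv _ _ (by norm_num), qmain_upd_fv _ _ (by norm_num),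
              qmain_upd_fv _ _ (by norm_num)]
            simp)
      refine ⟨_, b1, b2, ?_, ?_⟩
      · intro h0
        simp only [Fm.Holds] at h0
        simp only
        rw [qmain_upd_fv _ _ (by norm_num)]
        simp only [List.getD_cons_zero]
        rw [a4, a5, h0, sub_self]
      · intro h0
        simp only [Fm.Holds] at h0
        simp only
        rw [qmain_upd_fv _ _ (by norm_num)]
        simp only [List.getD_cons_succ, List.getD_cons_zero]
        rw [a4, a5, mul_inv_cancel₀ (sub_ne_zero.2 h0), sub_self]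
    · intro S G0
      simp only [Fm.toks, List.foldr_cons, List.foldr_append, ht', hs']
      simp [qstep, qpush, qpop, qgates]
  | lt s t =>
    intro n
    obtain ⟨et, m, Gt, ht, ht'⟩ := qmain_tm t n
    obtain ⟨es, k, Gs, hs, hs'⟩ := qmain_tm s m
    have hnm := ht.le
    have hmk := hs.le
    refine ⟨(fv k 5, fv k 8), k + 1, [(1, et.1, fv k 0, es.1), (2, fv k 2, fv k 1, fv k 1),
      (2, fv k 3, fv k 0, fv k 2), (0, fv k 4, 0, 0), (1, fv k 3, fv k 5, fv k 4),
      (2, fv k 7, fv k 6, fv k 6), (1, fv k 8, fv k 0, fv k 7)] ++ (Gs ++ Gt),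
      ⟨by omega, qmain_loc_fv (by omega) (by norm_num), qmain_loc_fv (by omega) (by norm_num),
        ?_, ?_, ?_⟩, ?_⟩
    · intro g hg
      simp only [List.mem_append, List.mem_cons, List.not_mem_nil, or_false] at hg
      rcases hg with (hg | hg | hg | hg | hg | hg | hg) | hg | hg
      · subst hg
        exact ⟨qmain_loc_mono le_rfl (by omega) ht.loc, qmain_loc_fv (by omega) (by norm_num),
          qmain_loc_mono hnm (by omega) hs.loc⟩
      · subst hg
        exact ⟨qmain_loc_fv (by omega) (by norm_num), qmain_loc_fv (by omega) (by norm_num),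
          qmain_loc_fv (by omega) (by norm_num)⟩
      · subst hg
        exact ⟨qmain_loc_fv (by omega) (by norm_num), qmain_loc_fv (by omega) (by norm_num),
          qmain_loc_fv (by omega) (by norm_num)⟩
      · subst hg
        exact ⟨qmain_loc_fv (by omega) (by norm_num), qmain_loc_zero, qmain_loc_zero⟩
      · subst hg
        exact ⟨qmain_loc_fv (by omega) (by norm_num), qmain_loc_fv (by omega) (by norm_num),
          qmain_loc_fv (by omega) (by norm_num)⟩
      · subst hg
        exact ⟨qmain_loc_fv (by omega) (by norm_num), qmain_loc_fv (by omega) (by norm_num),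
          qmain_loc_fv (by omega) (by norm_num)⟩
      · subst hg
        exact ⟨qmain_loc_fv (by omega) (by norm_num), qmain_loc_fv (by omega) (by norm_num),
          qmain_loc_fv (by omega) (by norm_num)⟩
      · exact qmain_locG_mono hnm (by omega) (hs.locG g hg)
      · exact qmain_locG_mono le_rfl (by omega) (ht.locG g hg)
    · intro X h
      have h1 := h (1, et.1, fv k 0, es.1) (by simp)
      have h2 := h (2, fv k 2, fv k 1, fv k 1) (by simp)
      have h3 := h (2, fv k 3, fv k 0, fv k 2) (by simp)
      have h4 := h (0, fv k 4, 0, 0) (by simp)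
      have h5 := h (1, fv k 3, fv k 5, fv k 4) (by simp)
      have h6 := h (2, fv k 7, fv k 6, fv k 6) (by simp)
      have h7 := h (1, fv k 8, fv k 0, fv k 7) (by simp)
      rw [qmain_QH1] at h1 h5 h7
      rw [qmain_QH2] at h2 h3 h6
      rw [qmain_QH0] at h4
      have h8 := hs.sound X fun g hg => h g (by simp [hg])
      have h9 := ht.sound X fun g hg => h g (by simp [hg])
      constructor
      · intro h0
        simp only at h0
        simp only [Fm.Holds]
        rw [← h8, ← h9]
        have h10 : X (fv k 0) * (X (fv k 1) * X (fv k 1)) = 1 := by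
          rw [← h2, ← h3, h5, h0, h4]; ring
        have h11 : 0 < X (fv k 0) := by
          by_contra hc
          have h12 : X (fv k 0) * (X (fv k 1) * X (fv k 1)) ≤ 0 :=
            mul_nonpos_of_nonpos_of_nonneg (not_lt.1 hc) (mul_self_nonneg _)
          linarith
        linarith
      · intro h0
        simp only at h0
        simp only [Fm.Holds]
        rw [← h8, ← h9]
        have h10 := mul_self_nonneg (X (fv k 6))
        rw [← h6] at h10
        intro h11
        linarith
    · intro X
      obtain ⟨Y, a1, a2, a3, a4, a5⟩ := qmain_two_terms ht hs X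
      obtain ⟨b1, b2⟩ := qmain_step (c := [Y et.1 - Y es.1, (√(Y et.1 - Y es.1))⁻¹,
          (√(Y et.1 - Y es.1))⁻¹ * (√(Y et.1 - Y es.1))⁻¹,
          (Y et.1 - Y es.1) * ((√(Y et.1 - Y es.1))⁻¹ * (√(Y et.1 - Y es.1))⁻¹), 1,
          (Y et.1 - Y es.1) * ((√(Y et.1 - Y es.1))⁻¹ * (√(Y et.1 - Y es.1))⁻¹) - 1,
          √(Y es.1 - Y et.1), √(Y es.1 - Y et.1) * √(Y es.1 - Y et.1),
          Y et.1 - Y es.1 + √(Y es.1 - Y et.1) * √(Y es.1 - Y et.1)]) (by omega) a1
        (G1 := [(1, et.1, fv k 0, es.1), (2, fv k 2, fv k 1, fv k 1),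
          (2, fv k 3, fv k 0, fv k 2), (0, fv k 4, 0, 0), (1, fv k 3, fv k 5, fv k 4),
          (2, fv k 7, fv k 6, fv k 6), (1, fv k 8, fv k 0, fv k 7)]) (G2 := Gs) (G3 := Gt)
        (fun g hg => qmain_locG_mono hnm le_rfl (hs.locG g hg))
        (fun g hg => qmain_locG_mono le_rfl hmk (ht.locG g hg)) a2 a3 (by
          intro g hg
          simp only [List.mem_cons, List.not_mem_nil, or_false] at hg
          rcases hg with hg | hg | hg | hg | hg | hg | hg
          · subst hg
            rw [qmain_QH1, qmain_upd_fv _ _ (by norm_num), qmain_upd_loc _ _ hs.loc,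
              qmain_upd_loc _ _ (qmain_loc_mono le_rfl hmk ht.loc)]
            simp
          · subst hg
            rw [qmain_QH2, qmain_upd_fv _ _ (by norm_num), qmain_upd_fv _ _ (by norm_num)]
            simp
          · subst hg
            rw [qmain_QH2, qmain_upd_fv _ _ (by norm_num), qmain_upd_fv _ _ (by norm_num),
              qmain_upd_fv _ _ (by norm_num)]
            simp
          · subst hg
            rw [qmain_QH0, qmain_upd_fv _ _ (by norm_num)]
            simp
          · subst hg
            rw [qmain_QH1, qmain_upd_fv _ _ (by norm_num), qmain_upd_fv _ _ (by norm_num),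
              qmain_upd_fv _ _ (by norm_num)]
            simp
          · subst hg
            rw [qmain_QH2, qmain_upd_fv _ _ (by norm_num), qmain_upd_fv _ _ (by norm_num)]
            simp
          · subst hg
            rw [qmain_QH1, qmain_upd_fv _ _ (by norm_num), qmain_upd_fv _ _ (by norm_num),
              qmain_upd_fv _ _ (by norm_num)]
            simp)
      refine ⟨_, b1, b2, ?_, ?_⟩
      · intro h0
        simp only [Fm.Holds] at h0
        simp only
        rw [qmain_upd_fv _ _ (by norm_num)]
        simp only [List.getD_cons_succ, List.getD_cons_zero]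
        rw [a4, a5, ← mul_inv, Real.mul_self_sqrt (by linarith),
          mul_inv_cancel₀ (by linarith), sub_self]
      · intro h0
        simp only [Fm.Holds, not_lt] at h0
        simp only
        rw [qmain_upd_fv _ _ (by norm_num)]
        simp only [List.getD_cons_succ, List.getD_cons_zero]
        rw [a4, a5, Real.mul_self_sqrt (by linarith)]
        ring
    · intro S G0
      simp only [Fm.toks, List.foldr_cons, List.foldr_append, ht', hs']
      simp [qstep, qpush, qpop, qgates]
  | not φ ih =>
    intro n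
    obtain ⟨e, m, G, h, h'⟩ := ih n
    have hnm := h.le
    refine ⟨(e.2, e.1), m + 1, G, ⟨by omega, qmain_loc_mono le_rfl (by omega) h.loc2,
      qmain_loc_mono le_rfl (by omega) h.loc1,
      fun g hg => qmain_locG_mono le_rfl (by omega) (h.locG g hg), ?_, ?_⟩, ?_⟩
    · intro X hX
      have h1 := h.sound X hX
      simp only [Fm.Holds, not_not]
      exact ⟨h1.2, h1.1⟩
    · intro X
      obtain ⟨Y, a1, a2, a3, a4⟩ := h.compl X
      refine ⟨Y, fun v hv => a1 v (by omega), a2, ?_, ?_⟩
      · simpa only [Fm.Holds] using a4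
      · simpa only [Fm.Holds, not_not] using a3
    · intro S G0
      simp only [Fm.toks, List.foldr_cons, h']
      simp [qstep, qpush, qpop, qgates]
  | and φ ψ ihs iht =>
    intro n
    obtain ⟨et, m, Gt, ht, ht'⟩ := iht n
    obtain ⟨es, k, Gs, hs, hs'⟩ := ihs m
    have hnm := ht.le
    have hmk := hs.le
    refine ⟨(fv k 2, fv k 3), k + 1, [(2, fv k 0, es.1, es.1), (2, fv k 1, et.1, et.1),
      (1, fv k 2, fv k 0, fv k 1), (2, fv k 3, es.2, et.2)] ++ (Gs ++ Gt),
      ⟨by omega, qmain_loc_fv (by omega) (by norm_num), qmain_loc_fv (by omega) (by norm_num),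
        ?_, ?_, ?_⟩, ?_⟩
    · intro g hg
      simp only [List.mem_append, List.mem_cons, List.not_mem_nil, or_false] at hg
      rcases hg with (hg | hg | hg | hg) | hg | hg
      · subst hg
        exact ⟨qmain_loc_fv (by omega) (by norm_num), qmain_loc_mono hnm (by omega) hs.loc1,
          qmain_loc_mono hnm (by omega) hs.loc1⟩
      · subst hg
        exact ⟨qmain_loc_fv (by omega) (by norm_num), qmain_loc_mono le_rfl (by omega) ht.loc1,
          qmain_loc_mono le_rfl (by omega) ht.loc1⟩
      · subst hg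
        exact ⟨qmain_loc_fv (by omega) (by norm_num), qmain_loc_fv (by omega) (by norm_num),
          qmain_loc_fv (by omega) (by norm_num)⟩
      · subst hg
        exact ⟨qmain_loc_fv (by omega) (by norm_num), qmain_loc_mono hnm (by omega) hs.loc2,
          qmain_loc_mono le_rfl (by omega) ht.loc2⟩
      · exact qmain_locG_mono hnm (by omega) (hs.locG g hg)
      · exact qmain_locG_mono le_rfl (by omega) (ht.locG g hg)
    · intro X h
      have h1 := h (2, fv k 0, es.1, es.1) (by simp)
      have h2 := h (2, fv k 1, et.1, et.1) (by simp)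
      have h3 := h (1, fv k 2, fv k 0, fv k 1) (by simp)
      have h4 := h (2, fv k 3, es.2, et.2) (by simp)
      rw [qmain_QH1] at h3
      rw [qmain_QH2] at h1 h2 h4
      have h5 := hs.sound X fun g hg => h g (by simp [hg])
      have h6 := ht.sound X fun g hg => h g (by simp [hg])
      have p1 := mul_self_nonneg (X es.1)
      have p2 := mul_self_nonneg (X et.1)
      constructor
      · intro h0
        simp only at h0
        simp only [Fm.Holds]
        refine ⟨h5.1 ?_, h6.1 ?_⟩
        · exact mul_self_eq_zero.1 (by linarith)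
        · exact mul_self_eq_zero.1 (by linarith)
      · intro h0
        simp only at h0
        simp only [Fm.Holds]
        rw [h4] at h0
        rintro ⟨h7, h8⟩
        rcases mul_eq_zero.1 h0 with h9 | h9
        · exact h5.2 h9 h7
        · exact h6.2 h9 h8
    · intro X
      obtain ⟨Y, a1, a2, a3, a4, a5, a6, a7⟩ := qmain_two_fms ht hs X
      obtain ⟨b1, b2⟩ := qmain_step (c := [Y es.1 * Y es.1, Y et.1 * Y et.1,
          Y es.1 * Y es.1 + Y et.1 * Y et.1, Y es.2 * Y et.2]) (by omega) a1
        (G1 := [(2, fv k 0, es.1, es.1), (2, fv k 1, et.1, et.1),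
          (1, fv k 2, fv k 0, fv k 1), (2, fv k 3, es.2, et.2)]) (G2 := Gs) (G3 := Gt)
        (fun g hg => qmain_locG_mono hnm le_rfl (hs.locG g hg))
        (fun g hg => qmain_locG_mono le_rfl hmk (ht.locG g hg)) a2 a3 (by
          intro g hg
          simp only [List.mem_cons, List.not_mem_nil, or_false] at hg
          rcases hg with hg | hg | hg | hg
          · subst hg
            rw [qmain_QH2, qmain_upd_fv _ _ (by norm_num), qmain_upd_loc _ _ hs.loc1]
            simp
          · subst hg
            rw [qmain_QH2, qmain_upd_fv _ _ (by norm_num),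
              qmain_upd_loc _ _ (qmain_loc_mono le_rfl hmk ht.loc1)]
            simp
          · subst hg
            rw [qmain_QH1, qmain_upd_fv _ _ (by norm_num), qmain_upd_fv _ _ (by norm_num),
              qmain_upd_fv _ _ (by norm_num)]
            simp
          · subst hg
            rw [qmain_QH2, qmain_upd_fv _ _ (by norm_num), qmain_upd_loc _ _ hs.loc2,
              qmain_upd_loc _ _ (qmain_loc_mono le_rfl hmk ht.loc2)]
            simp)
      refine ⟨_, b1, b2, ?_, ?_⟩
      · intro h0
        simp only [Fm.Holds] at h0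
        simp only
        rw [qmain_upd_fv _ _ (by norm_num)]
        simp only [List.getD_cons_succ, List.getD_cons_zero]
        rw [a4 h0.1, a6 h0.2]
        ring
      · intro h0
        simp only [Fm.Holds, not_and_or] at h0
        simp only
        rw [qmain_upd_fv _ _ (by norm_num)]
        simp only [List.getD_cons_succ, List.getD_cons_zero]
        rcases h0 with h0 | h0
        · rw [a5 h0, zero_mul]
        · rw [a7 h0, mul_zero]
    · intro S G0
      simp only [Fm.toks, List.foldr_cons, List.foldr_append, ht', hs']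
      simp [qstep, qpush, qpop, qgates]
  | or φ ψ ihs iht =>
    intro n
    obtain ⟨et, m, Gt, ht, ht'⟩ := iht n
    obtain ⟨es, k, Gs, hs, hs'⟩ := ihs m
    have hnm := ht.le
    have hmk := hs.le
    refine ⟨(fv k 0, fv k 3), k + 1, [(2, fv k 0, es.1, et.1), (2, fv k 1, es.2, es.2),
      (2, fv k 2, et.2, et.2), (1, fv k 3, fv k 1, fv k 2)] ++ (Gs ++ Gt),
      ⟨by omega, qmain_loc_fv (by omega) (by norm_num), qmain_loc_fv (by omega) (by norm_num),
        ?_, ?_, ?_⟩, ?_⟩
    · intro g hg
      simp only [List.mem_append, List.mem_cons, List.not_mem_nil, or_false] at hg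
      rcases hg with (hg | hg | hg | hg) | hg | hg
      · subst hg
        exact ⟨qmain_loc_fv (by omega) (by norm_num), qmain_loc_mono hnm (by omega) hs.loc1,
          qmain_loc_mono le_rfl (by omega) ht.loc1⟩
      · subst hg
        exact ⟨qmain_loc_fv (by omega) (by norm_num), qmain_loc_mono hnm (by omega) hs.loc2,
          qmain_loc_mono hnm (by omega) hs.loc2⟩
      · subst hg
        exact ⟨qmain_loc_fv (by omega) (by norm_num), qmain_loc_mono le_rfl (by omega) ht.loc2,
          qmain_loc_mono le_rfl (by omega) ht.loc2⟩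
      · subst hg
        exact ⟨qmain_loc_fv (by omega) (by norm_num), qmain_loc_fv (by omega) (by norm_num),
          qmain_loc_fv (by omega) (by norm_num)⟩
      · exact qmain_locG_mono hnm (by omega) (hs.locG g hg)
      · exact qmain_locG_mono le_rfl (by omega) (ht.locG g hg)
    · intro X h
      have h1 := h (2, fv k 0, es.1, et.1) (by simp)
      have h2 := h (2, fv k 1, es.2, es.2) (by simp)
      have h3 := h (2, fv k 2, et.2, et.2) (by simp)
      have h4 := h (1, fv k 3, fv k 1, fv k 2) (by simp)
      rw [qmain_QH1] at h4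
      rw [qmain_QH2] at h1 h2 h3
      have h5 := hs.sound X fun g hg => h g (by simp [hg])
      have h6 := ht.sound X fun g hg => h g (by simp [hg])
      have p1 := mul_self_nonneg (X es.2)
      have p2 := mul_self_nonneg (X et.2)
      constructor
      · intro h0
        simp only at h0
        simp only [Fm.Holds]
        rw [h1] at h0
        rcases mul_eq_zero.1 h0 with h9 | h9
        · exact Or.inl (h5.1 h9)
        · exact Or.inr (h6.1 h9)
      · intro h0
        simp only at h0
        simp only [Fm.Holds, not_or]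
        refine ⟨h5.2 ?_, h6.2 ?_⟩
        · exact mul_self_eq_zero.1 (by linarith)
        · exact mul_self_eq_zero.1 (by linarith)
    · intro X
      obtain ⟨Y, a1, a2, a3, a4, a5, a6, a7⟩ := qmain_two_fms ht hs X
      obtain ⟨b1, b2⟩ := qmain_step (c := [Y es.1 * Y et.1, Y es.2 * Y es.2, Y et.2 * Y et.2,
          Y es.2 * Y es.2 + Y et.2 * Y et.2]) (by omega) a1
        (G1 := [(2, fv k 0, es.1, et.1), (2, fv k 1, es.2, es.2),
          (2, fv k 2, et.2, et.2), (1, fv k 3, fv k 1, fv k 2)]) (G2 := Gs) (G3 := Gt)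
        (fun g hg => qmain_locG_mono hnm le_rfl (hs.locG g hg))
        (fun g hg => qmain_locG_mono le_rfl hmk (ht.locG g hg)) a2 a3 (by
          intro g hg
          simp only [List.mem_cons, List.not_mem_nil, or_false] at hg
          rcases hg with hg | hg | hg | hg
          · subst hg
            rw [qmain_QH2, qmain_upd_fv _ _ (by norm_num), qmain_upd_loc _ _ hs.loc1,
              qmain_upd_loc _ _ (qmain_loc_mono le_rfl hmk ht.loc1)]
            simp
          · subst hg
            rw [qmain_QH2, qmain_upd_fv _ _ (by norm_num), qmain_upd_loc _ _ hs.loc2]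
            simp
          · subst hg
            rw [qmain_QH2, qmain_upd_fv _ _ (by norm_num),
              qmain_upd_loc _ _ (qmain_loc_mono le_rfl hmk ht.loc2)]
            simp
          · subst hg
            rw [qmain_QH1, qmain_upd_fv _ _ (by norm_num), qmain_upd_fv _ _ (by norm_num),
              qmain_upd_fv _ _ (by norm_num)]
            simp)
      refine ⟨_, b1, b2, ?_, ?_⟩
      · intro h0
        simp only [Fm.Holds] at h0
        simp only
        rw [qmain_upd_fv _ _ (by norm_num)]
        simp only [List.getD_cons_zero]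
        rcases h0 with h0 | h0
        · rw [a4 h0, zero_mul]
        · rw [a6 h0, mul_zero]
      · intro h0
        simp only [Fm.Holds, not_or] at h0
        simp only
        rw [qmain_upd_fv _ _ (by norm_num)]
        simp only [List.getD_cons_succ, List.getD_cons_zero]
        rw [a5 h0.1, a7 h0.2]
        ring
    · intro S G0
      simp only [Fm.toks, List.foldr_cons, List.foldr_append, ht', hs']
      simp [qstep, qpush, qpop, qgates]

theorem qs_iff (φ : Fm) : QSat (qsOf φ.toks) ↔ φ.True := by
  obtain ⟨e, n', G, h, h'⟩ := qmain_fm φ 0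
  have hq : qsOf φ.toks = (1, e.1, e.1, e.1) :: G := by
    unfold qsOf
    rw [h']
    simp
  rw [hq]
  constructor
  · rintro ⟨X, hX⟩
    have h1 := hX (1, e.1, e.1, e.1) (by simp)
    rw [qmain_QH1] at h1
    have h2 := (h.sound X fun g hg => hX g (by simp [hg])).1 (by linarith)
    exact ⟨_, h2⟩
  · rintro ⟨v, hv⟩
    obtain ⟨X, a1, a2, a3, a4⟩ := h.compl fun i => v (i / 2)
    have h1 : (fun i => v (2 * i / 2)) = v := by
      funext i
      congr 1
      omega
    have h2 := a3 (by rw [h1]; exact hv)
    refine ⟨X, ?_⟩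
    intro g hg
    simp only [List.mem_cons] at hg
    rcases hg with hg | hg
    · subst hg
      rw [qmain_QH1, h2]
      ring
    · exact a2 g hg

end Pool.Agent.H77.SG
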