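import Pool.Agent.H77.SG.GapE

/-!
# Size of the bounds

PROOFS. Take logarithms to the base `2` or estimate by powers of `2`: `5 ^ m ≤ 2 ^ (3 m)`,
`a + 1 ≤ 2 ^ a`, so `bound1 m g 3 ≤ 2 ^ E` with
`E = 2 ^ (3 m) * (m + (36 g + 1) (4 m + 4) + 1) ≤ 2 ^ (3 m) * 2 ^ (8 (m + g + 1)) ≤ 2 ^ (12 (m + g + 1))`,
and similarly for `bound2 m' g' 9` with `m' = m + K + 1`, `g' = 1 + K + g`.
-/

set_option autoImplicit false

namespace Pool.Agent.H77.SG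

theorem gapn_self (s : ℕ) : s ≤ 2 ^ s := Nat.lt_two_pow_self.le

theorem gapn_sq (s : ℕ) : s * s ≤ 2 ^ (2 * s) := by
  rw [two_mul, pow_add]
  exact Nat.mul_le_mul (gapn_self s) (gapn_self s)

theorem gapn_five (s m : ℕ) (h : m ≤ s) : 5 ^ m ≤ 2 ^ (3 * s) := by
  have h1 : 5 ^ m ≤ 5 ^ s := Nat.pow_le_pow_right (by norm_num) h
  have h2 : 5 ^ s ≤ 8 ^ s := Nat.pow_le_pow_left (by norm_num) s
  have h3 : (8 : ℕ) ^ s = 2 ^ (3 * s) := by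
    rw [pow_mul]
    norm_num
  omega

theorem bound1_lt (m g : ℕ) : 16 * bound1 m g 3 < 64 ^ (2 ^ (16 * (m + g + 1))) := by
  obtain ⟨s, hs⟩ : ∃ s, s = m + g + 1 := ⟨_, rfl⟩
  rw [← hs]
  have hs1 : 1 ≤ s := by omega
  have hms : m + 1 ≤ s := by omega
  have h36 : 4 * g * 3 ^ 2 + 1 ≤ 2 ^ (7 * s) := by
    have h1 : 4 * g * 3 ^ 2 + 1 ≤ 64 * s := by omega
    have h2 : 64 * s ≤ 2 ^ 6 * 2 ^ s := Nat.mul_le_mul (by norm_num) (gapn_self s)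
    have h3 : (2 : ℕ) ^ 6 * 2 ^ s ≤ 2 ^ (7 * s) := by
      rw [← pow_add]
      exact Nat.pow_le_pow_right (by norm_num) (by omega)
    omega
  have hX : (4 * g * 3 ^ 2 + 1) ^ (4 * m + 4) ≤ 2 ^ (28 * (s * s)) := by
    calc (4 * g * 3 ^ 2 + 1) ^ (4 * m + 4) ≤ (2 ^ (7 * s)) ^ (4 * m + 4) :=
          Nat.pow_le_pow_left h36 _
      _ ≤ (2 ^ (7 * s)) ^ (4 * s) := Nat.pow_le_pow_right (by positivity) (by omega)
      _ = 2 ^ (28 * (s * s)) := by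
          rw [← pow_mul]
          congr 1
          ring
  have hX1 : 1 ≤ (4 * g * 3 ^ 2 + 1) ^ (4 * m + 4) := Nat.one_le_pow _ _ (by omega)
  have hbase : m * (4 * g * 3 ^ 2 + 1) ^ (4 * m + 4) + 1 ≤ 2 ^ (29 * (s * s)) := by
    calc m * (4 * g * 3 ^ 2 + 1) ^ (4 * m + 4) + 1
        ≤ m * (4 * g * 3 ^ 2 + 1) ^ (4 * m + 4) + 1 * (4 * g * 3 ^ 2 + 1) ^ (4 * m + 4) := by
          omega
      _ = (m + 1) * (4 * g * 3 ^ 2 + 1) ^ (4 * m + 4) := by ring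
      _ ≤ 2 ^ s * 2 ^ (28 * (s * s)) := Nat.mul_le_mul (hms.trans (gapn_self s)) hX
      _ = 2 ^ (s + 28 * (s * s)) := by rw [pow_add]
      _ ≤ 2 ^ (29 * (s * s)) := Nat.pow_le_pow_right (by norm_num) (by nlinarith)
  have h5 : 5 ^ m ≤ 2 ^ (3 * s) := gapn_five s m (by omega)
  have hb : bound1 m g 3 ≤ 2 ^ (29 * (s * s) * 2 ^ (3 * s)) := by
    unfold bound1
    calc (m * (4 * g * 3 ^ 2 + 1) ^ (4 * m + 4) + 1) ^ 5 ^ m
        ≤ (2 ^ (29 * (s * s))) ^ 5 ^ m := Nat.pow_le_pow_left hbase _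
      _ ≤ (2 ^ (29 * (s * s))) ^ 2 ^ (3 * s) := Nat.pow_le_pow_right (by positivity) h5
      _ = 2 ^ (29 * (s * s) * 2 ^ (3 * s)) := by rw [← pow_mul]
  have h64 : (64 : ℕ) ^ (2 ^ (16 * s)) = 2 ^ (6 * 2 ^ (16 * s)) := by
    have e : (64 : ℕ) = 2 ^ 6 := by norm_num
    rw [e, ← pow_mul]
  rw [h64]
  have hss : 1 ≤ s * s := Nat.mul_pos hs1 hs1
  have h3s : 1 ≤ 2 ^ (3 * s) := Nat.one_le_two_pow
  have hexp : 4 + 29 * (s * s) * 2 ^ (3 * s) ≤ 2 ^ (16 * s) := by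
    calc 4 + 29 * (s * s) * 2 ^ (3 * s) ≤ 4 * (s * s) * 2 ^ (3 * s) +
          29 * (s * s) * 2 ^ (3 * s) := by
          have : 4 * 1 * 1 ≤ 4 * (s * s) * 2 ^ (3 * s) :=
            Nat.mul_le_mul (Nat.mul_le_mul_left 4 hss) h3s
          omega
      _ = 33 * (s * s) * 2 ^ (3 * s) := by ring
      _ ≤ 2 ^ 6 * 2 ^ (2 * s) * 2 ^ (3 * s) :=
          Nat.mul_le_mul_right _ (Nat.mul_le_mul (by norm_num) (gapn_sq s))
      _ = 2 ^ (6 + 2 * s + 3 * s) := by rw [pow_add, pow_add]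
      _ ≤ 2 ^ (16 * s) := Nat.pow_le_pow_right (by norm_num) (by omega)
  calc 16 * bound1 m g 3 ≤ 2 ^ 4 * 2 ^ (29 * (s * s) * 2 ^ (3 * s)) :=
        Nat.mul_le_mul (by norm_num) hb
    _ = 2 ^ (4 + 29 * (s * s) * 2 ^ (3 * s)) := by rw [pow_add]
    _ ≤ 2 ^ (2 ^ (16 * s)) := Nat.pow_le_pow_right (by norm_num) hexp
    _ < 2 ^ (6 * 2 ^ (16 * s)) := by
        apply Nat.pow_lt_pow_right (by norm_num)
        have : 0 < 2 ^ (16 * s) := by positivity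
        omega

theorem bound2_lt (m g K : ℕ) :
    36 * (1 + K + g) * bound2 (m + K + 1) (1 + K + g) 9 < 256 ^ (2 ^ (64 * (m + K + g + 1))) := by
  obtain ⟨s, hs⟩ : ∃ s, s = m + K + g + 1 := ⟨_, rfl⟩
  obtain ⟨p, hp⟩ : ∃ p, p = m + K + 1 := ⟨_, rfl⟩
  obtain ⟨q, hq⟩ : ∃ q, q = 1 + K + g := ⟨_, rfl⟩
  rw [← hs, ← hp, ← hq]
  have hs1 : 1 ≤ s := by omega
  have hps : p ≤ s := by omega
  have hqs : q ≤ s := by omega
  obtain ⟨A, hA⟩ : ∃ A, A = q * 9 ^ 2 + 1089 * p := ⟨_, rfl⟩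
  have hA1 : A ≤ 1170 * s := by omega
  have hA2 : A ≤ 2 ^ (12 * s) := by
    have h2 : 1170 * s ≤ 2 ^ 11 * 2 ^ s := Nat.mul_le_mul (by norm_num) (gapn_self s)
    have h3 : (2 : ℕ) ^ 11 * 2 ^ s ≤ 2 ^ (12 * s) := by
      rw [← pow_add]
      exact Nat.pow_le_pow_right (by norm_num) (by omega)
    omega
  have hA3 : 4 * A + 1 ≤ 2 ^ (14 * s) := by
    have h1 : 4 * A + 1 ≤ 8192 * s := by omega
    have h2 : 8192 * s ≤ 2 ^ 13 * 2 ^ s := Nat.mul_le_mul (by norm_num) (gapn_self s)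
    have h3 : (2 : ℕ) ^ 13 * 2 ^ s ≤ 2 ^ (14 * s) := by
      rw [← pow_add]
      exact Nat.pow_le_pow_right (by norm_num) (by omega)
    omega
  have hX : (4 * A + 1) ^ (8 * p + 4) ≤ 2 ^ (168 * (s * s)) := by
    calc (4 * A + 1) ^ (8 * p + 4) ≤ (2 ^ (14 * s)) ^ (8 * p + 4) := Nat.pow_le_pow_left hA3 _
      _ ≤ (2 ^ (14 * s)) ^ (12 * s) := Nat.pow_le_pow_right (by positivity) (by omega)
      _ = 2 ^ (168 * (s * s)) := by
          rw [← pow_mul]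
          congr 1
          ring
  have hss : s ≤ s * s := Nat.le_mul_self s
  have hss1 : 1 ≤ s * s := Nat.mul_pos hs1 hs1
  have hbase : A * (4 * A + 1) ^ (8 * p + 4) + 1 ≤ 2 ^ (181 * (s * s)) := by
    have h1 : A * (4 * A + 1) ^ (8 * p + 4) ≤ 2 ^ (12 * s) * 2 ^ (168 * (s * s)) :=
      Nat.mul_le_mul hA2 hX
    have h2 : (2 : ℕ) ^ (12 * s) * 2 ^ (168 * (s * s)) = 2 ^ (12 * s + 168 * (s * s)) := by
      rw [pow_add]
    have h3 : 1 ≤ 2 ^ (12 * s + 168 * (s * s)) := Nat.one_le_two_pow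
    have h4 : 2 ^ (12 * s + 168 * (s * s)) + 2 ^ (12 * s + 168 * (s * s)) =
        2 ^ (12 * s + 168 * (s * s) + 1) := by
      rw [pow_succ]
      ring
    have h5 : 2 ^ (12 * s + 168 * (s * s) + 1) ≤ 2 ^ (181 * (s * s)) :=
      Nat.pow_le_pow_right (by norm_num) (by omega)
    rw [h2] at h1
    calc A * (4 * A + 1) ^ (8 * p + 4) + 1
        ≤ 2 ^ (12 * s + 168 * (s * s)) + 2 ^ (12 * s + 168 * (s * s)) := Nat.add_le_add h1 h3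
      _ = 2 ^ (12 * s + 168 * (s * s) + 1) := h4
      _ ≤ 2 ^ (181 * (s * s)) := h5
  have h5 : 5 ^ (2 * p) ≤ 2 ^ (6 * s) := by
    have := gapn_five (2 * s) (2 * p) (by omega)
    have e : 3 * (2 * s) = 6 * s := by ring
    rwa [e] at this
  have hb : bound2 p q 9 ≤ 2 ^ (181 * (s * s) * 2 ^ (6 * s)) := by
    unfold bound2
    rw [← hA]
    calc (A * (4 * A + 1) ^ (8 * p + 4) + 1) ^ 5 ^ (2 * p)
        ≤ (2 ^ (181 * (s * s))) ^ 5 ^ (2 * p) := Nat.pow_le_pow_left hbase _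
      _ ≤ (2 ^ (181 * (s * s))) ^ 2 ^ (6 * s) := Nat.pow_le_pow_right (by positivity) h5
      _ = 2 ^ (181 * (s * s) * 2 ^ (6 * s)) := by rw [← pow_mul]
  have hq2 : 36 * q ≤ 2 ^ (7 * s) := by
    have h2 : 36 * q ≤ 2 ^ 6 * 2 ^ s :=
      Nat.mul_le_mul (by norm_num) (hqs.trans (gapn_self s))
    have h3 : (2 : ℕ) ^ 6 * 2 ^ s ≤ 2 ^ (7 * s) := by
      rw [← pow_add]
      exact Nat.pow_le_pow_right (by norm_num) (by omega)
    exact h2.trans h3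
  have h256 : (256 : ℕ) ^ (2 ^ (64 * s)) = 2 ^ (8 * 2 ^ (64 * s)) := by
    have e : (256 : ℕ) = 2 ^ 8 := by norm_num
    rw [e, ← pow_mul]
  rw [h256]
  have h6s : 1 ≤ 2 ^ (6 * s) := Nat.one_le_two_pow
  have hexp : 7 * s + 181 * (s * s) * 2 ^ (6 * s) ≤ 2 ^ (64 * s) := by
    calc 7 * s + 181 * (s * s) * 2 ^ (6 * s) ≤ 7 * (s * s) * 2 ^ (6 * s) +
          181 * (s * s) * 2 ^ (6 * s) := by
          have : 7 * s * 1 ≤ 7 * (s * s) * 2 ^ (6 * s) :=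
            Nat.mul_le_mul (Nat.mul_le_mul_left 7 hss) h6s
          omega
      _ = 188 * (s * s) * 2 ^ (6 * s) := by ring
      _ ≤ 2 ^ 8 * 2 ^ (2 * s) * 2 ^ (6 * s) :=
          Nat.mul_le_mul_right _ (Nat.mul_le_mul (by norm_num) (gapn_sq s))
      _ = 2 ^ (8 + 2 * s + 6 * s) := by rw [pow_add, pow_add]
      _ ≤ 2 ^ (64 * s) := Nat.pow_le_pow_right (by norm_num) (by omega)
  calc 36 * q * bound2 p q 9 ≤ 2 ^ (7 * s) * 2 ^ (181 * (s * s) * 2 ^ (6 * s)) :=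
        Nat.mul_le_mul hq2 hb
    _ = 2 ^ (7 * s + 181 * (s * s) * 2 ^ (6 * s)) := by rw [pow_add]
    _ ≤ 2 ^ (2 ^ (64 * s)) := Nat.pow_le_pow_right (by norm_num) hexp
    _ < 2 ^ (8 * 2 ^ (64 * s)) := by
        apply Nat.pow_lt_pow_right (by norm_num)
        have : 0 < 2 ^ (64 * s) := by positivity
        omega

end Pool.Agent.H77.SG
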