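import Pool.Agent.H77.SG.CMac
import Pool.Agent.H77.SG.GapN

/-!
# Quadratic systems and strict systems

The equations in the variables `Fin (m + K + 1)`: the first `m` variables are `Y i`, the others are
`u k`, `k ≤ K`.

PROOFS. `strict_sound`: let `x` be a solution of `strictOf G`, `m = qVars G`, `K = kUnit G`,
`K' = kTol G`, `z i = x (nX i) - 1/2` for `i < m`, `z (m + k) = x (nU k) - 1/2`. The polynomials
`fs` are `8 u 0 - 1`, `u (k + 1) - u k ^ 2` for `k < K` and those of `gf` for `g ∈ G` (the names are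
`< m` by the definition of `qVars`); there are `1 + K + G.length` of them, of degree at most `2` and
length at most `9`. By `scOf_sound` all of them have absolute value less than `6 ε` at `z`, with
`ε ≤ (1/16) ^ (2 ^ K')`, so the sum of the squares times `bound2` is less than `1` by `bound2_lt`. By
`box_gap` there is an exact zero in the box. There `u K = 8 ^ (- 2 ^ K) ≠ 0` and `X i = Y i / u K`
solves `G`.

`strict_complete`: a solution of `G` gives, by `small_solution` for the polynomials of `G` over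
`Fin m` (length at most `3`, degree at most `2`), a solution `X` with `∑ X i ^ 2 ≤ bound1 m g 3`; put
`u k = (1/8) ^ (2 ^ k)` and `Y i = u K * X i` (`0` for `i ≥ m`); by `bound1_lt`
`Y i ^ 2 ≤ (1/64) ^ (2 ^ K) * bound1 < 1/16`. Then `scOf_complete`.
-/

set_option autoImplicit false

namespace Pool.Agent.H77.SG

open MvPolynomial

/-- The polynomial of an equation. -/
noncomputable def strictmain_gp {N : ℕ} (U : MvPolynomial (Fin N) ℤ)
    (Xn : ℕ → MvPolynomial (Fin N) ℤ) (g : ℕ × ℕ × ℕ × ℕ) : MvPolynomial (Fin N) ℤ :=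
  if g.1 = 0 then Xn g.2.1 - U
  else if g.1 = 1 then Xn g.2.1 - Xn g.2.2.1 - Xn g.2.2.2
  else U * Xn g.2.1 - Xn g.2.2.1 * Xn g.2.2.2

theorem strictmain_aeval {N : ℕ} (z : Fin N → ℝ) (U : MvPolynomial (Fin N) ℤ)
    (Xn : ℕ → MvPolynomial (Fin N) ℤ) (g : ℕ × ℕ × ℕ × ℕ) :
    aeval z (strictmain_gp U Xn g) = gf (aeval z U) (fun i => aeval z (Xn i)) g := by
  unfold strictmain_gp gf
  split_ifs <;> simp

theorem strictmain_deg {N : ℕ} {U : MvPolynomial (Fin N) ℤ} {Xn : ℕ → MvPolynomial (Fin N) ℤ}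
    (hU : U.totalDegree ≤ 1) (hX : ∀ i, (Xn i).totalDegree ≤ 1) (g : ℕ × ℕ × ℕ × ℕ) :
    (strictmain_gp U Xn g).totalDegree ≤ 2 := by
  have hs : ∀ p q : MvPolynomial (Fin N) ℤ, p.totalDegree ≤ 2 → q.totalDegree ≤ 2 →
      (p - q).totalDegree ≤ 2 := fun p q hp hq => (totalDegree_sub p q).trans (max_le hp hq)
  have hm : ∀ p q : MvPolynomial (Fin N) ℤ, p.totalDegree ≤ 1 → q.totalDegree ≤ 1 →
      (p * q).totalDegree ≤ 2 := fun p q hp hq => (totalDegree_mul p q).trans (by omega)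
  unfold strictmain_gp
  split_ifs
  · exact hs _ _ ((hX _).trans (by norm_num)) (hU.trans (by norm_num))
  · exact hs _ _ (hs _ _ ((hX _).trans (by norm_num)) ((hX _).trans (by norm_num)))
      ((hX _).trans (by norm_num))
  · exact hs _ _ (hm _ _ hU (hX _)) (hm _ _ (hX _) (hX _))

theorem strictmain_len {N : ℕ} {U : MvPolynomial (Fin N) ℤ} {Xn : ℕ → MvPolynomial (Fin N) ℤ}
    (hU : len U ≤ 1) (hX : ∀ i, len (Xn i) ≤ 1) (g : ℕ × ℕ × ℕ × ℕ) :
    len (strictmain_gp U Xn g) ≤ 3 := by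
  have hm : ∀ p q : MvPolynomial (Fin N) ℤ, len p ≤ 1 → len q ≤ 1 → len (p * q) ≤ 1 :=
    fun p q hp hq => (len_mul p q).trans (Nat.mul_le_mul hp hq)
  unfold strictmain_gp
  split_ifs
  · have h1 := len_sub (Xn g.2.1) U
    have h2 := hX g.2.1
    omega
  · have h1 := len_sub (Xn g.2.1 - Xn g.2.2.1) (Xn g.2.2.2)
    have h2 := len_sub (Xn g.2.1) (Xn g.2.2.1)
    have h3 := hX g.2.1
    have h4 := hX g.2.2.1
    have h5 := hX g.2.2.2
    omega
  · have h1 := len_sub (U * Xn g.2.1) (Xn g.2.2.1 * Xn g.2.2.2)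
    have h2 := hm _ _ hU (hX g.2.1)
    have h3 := hm _ _ (hX g.2.2.1) (hX g.2.2.2)
    omega

theorem strictmain_congr {u : ℝ} {Y Y' : ℕ → ℝ} {g : ℕ × ℕ × ℕ × ℕ} (h1 : Y g.2.1 = Y' g.2.1)
    (h2 : Y g.2.2.1 = Y' g.2.2.1) (h3 : Y g.2.2.2 = Y' g.2.2.2) : gf u Y g = gf u Y' g := by
  unfold gf
  rw [h1, h2, h3]

theorem strictmain_QH {X : ℕ → ℝ} {g : ℕ × ℕ × ℕ × ℕ} : QH X g ↔ gf 1 X g = 0 := by
  unfold QH gf
  split_ifs
  · rw [sub_eq_zero]
  · constructor
    · intro h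
      linarith
    · intro h
      linarith
  · rw [one_mul, sub_eq_zero]

theorem strictmain_scale {u c : ℝ} {Y : ℕ → ℝ} {g : ℕ × ℕ × ℕ × ℕ} (h : gf u Y g = 0) :
    gf (c * u) (fun i => c * Y i) g = 0 := by
  unfold gf at h ⊢
  split_ifs at h ⊢
  · linear_combination c * h
  · linear_combination c * h
  · linear_combination c ^ 2 * h

theorem strictmain_names {G : List (ℕ × ℕ × ℕ × ℕ)} {g : ℕ × ℕ × ℕ × ℕ} (hg : g ∈ G) :
    g.2.1 < qVars G ∧ g.2.2.1 < qVars G ∧ g.2.2.2 < qVars G := by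
  have h : g.2.1 + g.2.2.1 + g.2.2.2 + 1 ≤ qVars G := by
    unfold qVars
    exact List.single_le_sum (fun _ _ => Nat.zero_le _) _ (List.mem_map.2 ⟨g, hg, rfl⟩)
  omega

/-- The variable with the name `i`. -/
noncomputable def strictmain_X (m N i : ℕ) (h : m ≤ N) : MvPolynomial (Fin N) ℤ :=
  if hi : i < m then X ⟨i, lt_of_lt_of_le hi h⟩ else 0

theorem strictmain_X_deg {m N : ℕ} (h : m ≤ N) (i : ℕ) :
    (strictmain_X m N i h).totalDegree ≤ 1 := by
  unfold strictmain_X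
  split_ifs
  · rw [totalDegree_X]
  · simp

theorem strictmain_X_len {m N : ℕ} (h : m ≤ N) (i : ℕ) : len (strictmain_X m N i h) ≤ 1 := by
  unfold strictmain_X
  split_ifs
  · rw [len_X]
  · rw [len_zero]
    norm_num

theorem strictmain_X_aeval {m N : ℕ} (h : m ≤ N) (z : Fin N → ℝ) {i : ℕ} (hi : i < m) :
    aeval z (strictmain_X m N i h) = z ⟨i, lt_of_lt_of_le hi h⟩ := by
  unfold strictmain_X
  rw [dif_pos hi, aeval_X]

theorem strict_complete {G : List (ℕ × ℕ × ℕ × ℕ)} (h : QSat G) : SSat (strictOf G) := by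
  obtain ⟨X0, hX0⟩ := h
  set m := qVars G with hm
  set fs : List (MvPolynomial (Fin m) ℤ) :=
    G.map fun g => strictmain_gp 1 (fun i => strictmain_X m m i le_rfl) g with hfs
  have hlen : fs.length = G.length := by rw [hfs, List.length_map]
  have hd : ∀ f ∈ fs, f.totalDegree ≤ 2 := by
    intro f hf
    obtain ⟨g, -, rfl⟩ := List.mem_map.1 hf
    exact strictmain_deg (by simp) (strictmain_X_deg le_rfl) g
  have hl : ∀ f ∈ fs, len f ≤ 3 := by
    intro f hf
    obtain ⟨g, -, rfl⟩ := List.mem_map.1 hf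
    refine strictmain_len ?_ (strictmain_X_len le_rfl) g
    have := len_C (m := m) 1
    rw [map_one] at this
    rw [this]
    rfl
  have hev : ∀ (z : Fin m → ℝ) (g : ℕ × ℕ × ℕ × ℕ), g ∈ G → ∀ Y : ℕ → ℝ,
      (∀ i (hi : i < m), Y i = z ⟨i, hi⟩) →
      aeval z (strictmain_gp 1 (fun i => strictmain_X m m i le_rfl) g) = gf 1 Y g := by
    intro z g hg Y hY
    obtain ⟨h1, h2, h3⟩ := strictmain_names hg
    rw [strictmain_aeval, map_one]
    apply strictmain_congr
    · simp only [strictmain_X_aeval le_rfl z h1, hY _ h1]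
    · simp only [strictmain_X_aeval le_rfl z h2, hY _ h2]
    · simp only [strictmain_X_aeval le_rfl z h3, hY _ h3]
  obtain ⟨x, hx1, hx2⟩ := small_solution fs hd hl (z := fun i => X0 i) (by
    intro f hf
    obtain ⟨g, hg, rfl⟩ := List.mem_map.1 hf
    rw [hev (fun i => X0 i) g hg X0 (fun i hi => rfl)]
    exact strictmain_QH.1 (hX0 g hg))
  rw [hlen] at hx2
  set K := kUnit G with hK
  set u : ℕ → ℝ := fun k => (1 / 8 : ℝ) ^ (2 ^ k) with hu
  set Xf : ℕ → ℝ := fun i => if hi : i < m then x ⟨i, hi⟩ else 0 with hXf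
  have hXfi : ∀ i (hi : i < m), Xf i = x ⟨i, hi⟩ := fun i hi => by
    simp only [hXf]
    rw [dif_pos hi]
  have hb := bound1_lt m G.length
  have hb' : 16 * (bound1 m G.length 3 : ℝ) < 64 ^ (2 ^ K) := by
    have e : K = 16 * (m + G.length + 1) := by rw [hK, hm]; rfl
    rw [e]
    exact_mod_cast hb
  have hG : ∀ g ∈ G, gf (u K) (fun i => u K * Xf i) g = 0 := by
    intro g hg
    have h1 : gf 1 Xf g = 0 := by
      rw [← hev x g hg Xf hXfi]
      exact hx1 _ (List.mem_map.2 ⟨g, hg, rfl⟩)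
    have h2 := strictmain_scale (c := u K) h1
    rwa [mul_one] at h2
  have huK : (u K) ^ 2 * 64 ^ (2 ^ K) = 1 := by
    simp only [hu]
    rw [← pow_mul, mul_comm (2 ^ K) 2, pow_mul, ← mul_pow]
    norm_num
  have huK0 : 0 < u K := by
    simp only [hu]
    positivity
  have hY : ∀ i, |u K * Xf i| < 1 / 4 := by
    intro i
    have hs : Xf i ^ 2 ≤ (bound1 m G.length 3 : ℝ) := by
      by_cases hi : i < m
      · rw [hXfi i hi]
        refine le_trans ?_ hx2
        exact Finset.single_le_sum (f := fun j => x j ^ 2) (fun j _ => sq_nonneg _)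
          (Finset.mem_univ _)
      · have : Xf i = 0 := by
          simp only [hXf]
          rw [dif_neg hi]
        rw [this, zero_pow two_ne_zero]
        exact Nat.cast_nonneg _
    have h1 : (u K * Xf i) ^ 2 * 64 ^ (2 ^ K) < (1 / 4) ^ 2 * 64 ^ (2 ^ K) := by
      calc (u K * Xf i) ^ 2 * 64 ^ (2 ^ K) = ((u K) ^ 2 * 64 ^ (2 ^ K)) * Xf i ^ 2 := by ring
        _ = Xf i ^ 2 := by rw [huK, one_mul]
        _ ≤ (bound1 m G.length 3 : ℝ) := hs
        _ < (1 / 4) ^ 2 * 64 ^ (2 ^ K) := by linarith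
    have h2 : (u K * Xf i) ^ 2 < (1 / 4) ^ 2 := lt_of_mul_lt_mul_right h1 (by positivity)
    exact abs_lt_of_sq_lt_sq h2 (by norm_num)
  have hK' : 1 ≤ kTol G := by
    unfold kTol
    omega
  exact scOf_complete m hK' (u := u) (by simp [hu]) (fun k => by
    simp only [hu]
    rw [← pow_mul, pow_succ]) hY hG

theorem strictmain_sum_lt {N : ℕ} (fs : List (MvPolynomial (Fin N) ℤ)) (z : Fin N → ℝ) (c : ℝ)
    (h : ∀ f ∈ fs, |aeval z f| ≤ c) : (fs.map fun f => (aeval z f) ^ 2).sum ≤ fs.length * c ^ 2 := by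
  induction fs with
  | nil => simp
  | cons f fs ih =>
    rw [List.map_cons, List.sum_cons, List.length_cons]
    have h1 := ih fun f hf => h f (List.mem_cons_of_mem _ hf)
    have h2 : (aeval z f) ^ 2 ≤ c ^ 2 := by
      rw [← sq_abs]
      exact pow_le_pow_left₀ (abs_nonneg _) (h f List.mem_cons_self) 2
    push_cast
    linarith

theorem strictmain_sound {G : List (ℕ × ℕ × ℕ × ℕ)} {m K K' N T B : ℕ} {x : ℕ → ℝ}
    (hnames : ∀ g ∈ G, g.2.1 < m ∧ g.2.2.1 < m ∧ g.2.2.2 < m) (hN : N = m + K + 1)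
    (hB : B = bound2 N (1 + K + G.length) 9) (hT : T = 2 ^ K')
    (hb : 36 * (1 + K + G.length) * B < 256 ^ T)
    (h01 : ∀ i, 0 < x i ∧ x i < 1) (hx0 : x 0 = 1 / 4) (hx1 : x 1 = 1 / 2)
    (hx2 : x 2 = 3 / 4) (hx : ∀ e ∈ scOf G m K K', CH x e) : QSat G := by
  obtain ⟨he, hX, hU, hU0, hUs, hg⟩ := scOf_sound h01 hx0 hx1 hx2 hx
  rw [← hT] at he
  have hε0 : 0 < x (nE K') := (h01 _).1
  generalize x (nE K') = ε at he hU0 hUs hg hε0
  have hmN : m ≤ N := by omega
  have hlt : ∀ k, k ≤ K → m + k < N := fun k hk => by omega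
  obtain ⟨Up, hUp⟩ : ∃ Up : ℕ → MvPolynomial (Fin N) ℤ,
      Up = fun k => if hk : m + k < N then X ⟨m + k, hk⟩ else 0 := ⟨_, rfl⟩
  have hUpd : ∀ k, (Up k).totalDegree ≤ 1 := by
    intro k
    rw [hUp]
    dsimp only
    split_ifs
    · rw [totalDegree_X]
    · simp
  have hUpl : ∀ k, len (Up k) ≤ 1 := by
    intro k
    rw [hUp]
    dsimp only
    split_ifs
    · rw [len_X]
    · rw [len_zero]
      exact Nat.zero_le 1
  have hUpe : ∀ (z : Fin N → ℝ) k (hk : k ≤ K), aeval z (Up k) = z ⟨m + k, hlt k hk⟩ := by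
    intro z k hk
    rw [hUp]
    dsimp only
    rw [dif_pos (hlt k hk), aeval_X]
  clear hUp
  have hev : ∀ (z : Fin N → ℝ) (g : ℕ × ℕ × ℕ × ℕ), g ∈ G → ∀ Y : ℕ → ℝ,
      (∀ i (hi : i < m), Y i = z ⟨i, lt_of_lt_of_le hi hmN⟩) →
      aeval z (strictmain_gp (Up K) (fun i => strictmain_X m N i hmN) g) =
        gf (z ⟨m + K, hlt K le_rfl⟩) Y g := by
    intro z g hg Y hY
    obtain ⟨h1, h2, h3⟩ := hnames g hg
    rw [strictmain_aeval, hUpe z K le_rfl]
    apply strictmain_congr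
    · rw [strictmain_X_aeval hmN z h1, hY _ h1]
    · rw [strictmain_X_aeval hmN z h2, hY _ h2]
    · rw [strictmain_X_aeval hmN z h3, hY _ h3]
  have hgpd : ∀ g, (strictmain_gp (Up K) (fun i => strictmain_X m N i hmN) g).totalDegree ≤ 2 :=
    fun g => strictmain_deg (hUpd K) (strictmain_X_deg hmN) g
  have hgpl : ∀ g, len (strictmain_gp (Up K) (fun i => strictmain_X m N i hmN) g) ≤ 3 :=
    fun g => strictmain_len (hUpl K) (strictmain_X_len hmN) g
  generalize strictmain_gp (Up K) (fun i => strictmain_X m N i hmN) = gp at hev hgpd hgpl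
  obtain ⟨fs, hfs⟩ : ∃ fs : List (MvPolynomial (Fin N) ℤ), fs =
    (8 * Up 0 - 1) :: (((List.range K).map fun k => Up (k + 1) - Up k ^ 2) ++
      G.map fun g => gp g) := ⟨_, rfl⟩
  have hmem : ∀ f, f ∈ fs ↔ f = 8 * Up 0 - 1 ∨ (∃ k < K, Up (k + 1) - Up k ^ 2 = f) ∨
      ∃ g ∈ G, gp g = f := by
    intro f
    rw [hfs, List.mem_cons, List.mem_append, List.mem_map, List.mem_map]
    simp only [List.mem_range]
  have hlen : fs.length = 1 + K + G.length := by
    rw [hfs, List.length_cons, List.length_append, List.length_map, List.length_map,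
      List.length_range]
    omega
  clear hfs
  have h8e : ∀ z : Fin N → ℝ, aeval z (8 * Up 0 - 1) = 8 * z ⟨m + 0, hlt 0 (Nat.zero_le _)⟩ - 1 := by
    intro z
    rw [map_sub, map_mul, map_one, hUpe z 0 (Nat.zero_le _)]
    congr 2
    have : (8 : MvPolynomial (Fin N) ℤ) = C 8 := by simp
    rw [this, aeval_C]
    simp
  have hd : ∀ f ∈ fs, f.totalDegree ≤ 2 := by
    intro f hf
    rcases (hmem f).1 hf with rfl | ⟨k, -, rfl⟩ | ⟨g, -, rfl⟩
    · refine (totalDegree_sub _ _).trans (max_le ?_ (by simp))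
      refine (totalDegree_mul _ _).trans ?_
      have h8 : (8 : MvPolynomial (Fin N) ℤ).totalDegree = 0 := by
        have : (8 : MvPolynomial (Fin N) ℤ) = C 8 := by simp
        rw [this, totalDegree_C]
      have := hUpd 0
      omega
    · refine (totalDegree_sub _ _).trans (max_le ((hUpd _).trans (by norm_num)) ?_)
      refine (totalDegree_pow _ _).trans ?_
      have := hUpd k
      omega
    · exact hgpd g
  have hl : ∀ f ∈ fs, len f ≤ 9 := by
    intro f hf
    rcases (hmem f).1 hf with rfl | ⟨k, -, rfl⟩ | ⟨g, -, rfl⟩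
    · have h1 := len_sub (8 * Up 0) 1
      have h2 := len_mul (8 : MvPolynomial (Fin N) ℤ) (Up 0)
      have h8 : len (8 : MvPolynomial (Fin N) ℤ) = 8 := by
        have : (8 : MvPolynomial (Fin N) ℤ) = C 8 := by simp
        rw [this, len_C]
        rfl
      have h9 : len (1 : MvPolynomial (Fin N) ℤ) = 1 := by
        have := len_C (m := N) 1
        rw [map_one] at this
        rw [this]
        rfl
      have h3 := hUpl 0
      rw [h8] at h2
      rw [h9] at h1
      have h4 : 8 * len (Up 0) ≤ 8 * 1 := Nat.mul_le_mul_left 8 h3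
      omega
    · have h1 := len_sub (Up (k + 1)) (Up k ^ 2)
      have h2 : len (Up k ^ 2) ≤ 1 := by
        rw [pow_two]
        exact (len_mul _ _).trans (Nat.mul_le_mul (hUpl k) (hUpl k))
      have h3 := hUpl (k + 1)
      omega
    · exact (hgpl g).trans (by norm_num)
  -- an exact zero in the box
  have hex : ∃ z : Fin N → ℝ, ∀ f ∈ fs, aeval z f = 0 := by
    by_contra hcon
    push Not at hcon
    obtain ⟨z, hz⟩ : ∃ z : Fin N → ℝ, z = fun i : Fin N =>
      if (i : ℕ) < m then x (nX (i : ℕ)) - 1 / 2 else x (nU ((i : ℕ) - m)) - 1 / 2 := ⟨_, rfl⟩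
    have hz1 : ∀ i (hi : i < m), z ⟨i, lt_of_lt_of_le hi hmN⟩ = x (nX i) - 1 / 2 := by
      intro i hi
      rw [hz]
      dsimp only
      rw [if_pos hi]
    have hz2 : ∀ k (hk : k ≤ K), z ⟨m + k, hlt k hk⟩ = x (nU k) - 1 / 2 := by
      intro k hk
      rw [hz]
      dsimp only
      rw [if_neg (by omega), Nat.add_sub_cancel_left]
    have hzb : ∀ i, |z i| ≤ 1 / 4 := by
      intro i
      rw [hz]
      dsimp only
      split_ifs with hi
      · exact hX i hi
      · exact hU _ (by have := i.2; omega)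
    clear hz
    have hgap := box_gap fs hd hl (fun z _ => hcon z) hzb
    have hval : ∀ f ∈ fs, |aeval z f| ≤ 6 * ε := by
      intro f hf
      rcases (hmem f).1 hf with rfl | ⟨k, hk, rfl⟩ | ⟨g, hgG, rfl⟩
      · rw [h8e, hz2 0 (Nat.zero_le _)]
        exact hU0.le
      · rw [map_sub, map_pow, hUpe z (k + 1) hk, hUpe z k hk.le, hz2 (k + 1) hk, hz2 k hk.le]
        exact (hUs k hk).le
      · rw [hev z g hgG (fun i => x (nX i) - 1 / 2) (fun i hi => (hz1 i hi).symm),
          hz2 K le_rfl]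
        exact (hg g hgG).le
    have hsum := strictmain_sum_lt fs z (6 * ε) hval
    rw [hlen] at hgap hsum
    rw [← hB] at hgap
    generalize (fs.map fun f => (aeval z f) ^ 2).sum = Sq at hgap hsum
    have hb' : 36 * (1 + K + G.length : ℝ) * (B : ℝ) < 256 ^ T := by
      have h1 := (Nat.cast_lt (α := ℝ)).2 hb
      push_cast at h1
      exact h1
    have he2 : ε ^ 2 * 256 ^ T ≤ 1 := by
      have h1 : ε ^ 2 ≤ ((1 / 16 : ℝ) ^ T) ^ 2 := pow_le_pow_left₀ hε0.le he 2
      have h2 : ((1 / 16 : ℝ) ^ T) ^ 2 * 256 ^ T = 1 := by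
        rw [← pow_mul, mul_comm T 2, pow_mul, ← mul_pow]
        norm_num
      calc ε ^ 2 * 256 ^ T ≤ ((1 / 16 : ℝ) ^ T) ^ 2 * 256 ^ T := by
            gcongr
        _ = 1 := h2
    have hb0 : (0 : ℝ) ≤ (B : ℝ) := Nat.cast_nonneg B
    have hfin : (1 : ℝ) < 1 := by
      calc (1 : ℝ) ≤ Sq * (B : ℝ) := hgap
        _ ≤ (((1 + K + G.length : ℕ) : ℝ) * (6 * ε) ^ 2) * (B : ℝ) :=
            mul_le_mul_of_nonneg_right hsum hb0
        _ = ε ^ 2 * (36 * (1 + K + G.length : ℝ) * (B : ℝ)) := by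
            push_cast
            ring
        _ < ε ^ 2 * 256 ^ T := mul_lt_mul_of_pos_left hb' (by positivity)
        _ ≤ 1 := he2
    exact lt_irrefl _ hfin
  obtain ⟨z, hz⟩ := hex
  have hz0 : z ⟨m + 0, hlt 0 (Nat.zero_le _)⟩ = 1 / 8 := by
    have h1 := hz (8 * Up 0 - 1) ((hmem _).2 (Or.inl rfl))
    rw [h8e] at h1
    linarith
  have hzk : ∀ k (hk : k ≤ K), 0 < z ⟨m + k, hlt k hk⟩ := by
    intro k
    induction k with
    | zero =>
      intro _
      rw [hz0]
      norm_num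
    | succ k ih =>
      intro hk
      have h1 := hz (Up (k + 1) - Up k ^ 2) ((hmem _).2 (Or.inr (Or.inl ⟨k, hk, rfl⟩)))
      rw [map_sub, map_pow, hUpe z (k + 1) hk, hUpe z k (by omega)] at h1
      have h2 := ih (by omega)
      have h3 : z ⟨m + (k + 1), hlt (k + 1) hk⟩ = z ⟨m + k, hlt k (by omega)⟩ ^ 2 := by
        linarith
      rw [h3]
      positivity
  have hu := hzk K le_rfl
  obtain ⟨Y, hY⟩ : ∃ Y : ℕ → ℝ, Y = fun i =>
    if hi : i < m then z ⟨i, lt_of_lt_of_le hi hmN⟩ else 0 := ⟨_, rfl⟩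
  have hYi : ∀ i (hi : i < m), Y i = z ⟨i, lt_of_lt_of_le hi hmN⟩ := fun i hi => by
    rw [hY]
    dsimp only
    rw [dif_pos hi]
  refine ⟨fun i => (z ⟨m + K, hlt K le_rfl⟩)⁻¹ * Y i, fun g hgG => strictmain_QH.2 ?_⟩
  have h1 : gf (z ⟨m + K, hlt K le_rfl⟩) Y g = 0 := by
    rw [← hev z g hgG Y hYi]
    exact hz _ ((hmem _).2 (Or.inr (Or.inr ⟨g, hgG, rfl⟩)))
  have h2 := strictmain_scale (c := (z ⟨m + K, hlt K le_rfl⟩)⁻¹) h1
  rwa [inv_mul_cancel₀ hu.ne'] at h2

theorem strict_sound {G : List (ℕ × ℕ × ℕ × ℕ)} (h : SSat (strictOf G)) : QSat G := by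
  obtain ⟨x, h01, hx0, hx1, hx2, hx⟩ := h
  unfold strictOf at hx
  have hT : (2 : ℕ) ^ kTol G = 2 ^ (64 * (qVars G + kUnit G + G.length + 1)) := by
    unfold kTol
    rfl
  refine strictmain_sound (fun g hg => strictmain_names hg) rfl rfl hT.symm
    (bound2_lt (qVars G) G.length (kUnit G)) h01 hx0 hx1 hx2 hx

theorem strict_iff (G : List (ℕ × ℕ × ℕ × ℕ)) : QSat G ↔ SSat (strictOf G) :=
  ⟨strict_complete, strict_sound⟩

end Pool.Agent.H77.SG
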