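import Pool.Agent.H77.SG.InstMain
import Pool.Agent.H77.SG.ProgMain
import Pool.Agent.H77.SG.StrictMain
import Pool.Agent.H77.SG.QMain
import Pool.Agent.H77.SG.PQ
import Pool.Agent.H77.SG.PS
import Pool.Agent.H77.SG.PP
import Pool.Agent.H77.SG.PJ
import Pool.Agent.H78.NP.Comp
import Pool.Agent.H78.NP.Raw

/-!
# The reduction
-/

set_option autoImplicit false

namespace Pool.Agent.H77.SG

open Pool.Agent.H79.Cx Pool.Agent.H78.NP Turing

attribute [local irreducible] WF progOf strictOf qsOf instOf Run SSat QSat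

theorem toTM2_reps {α β γ δ : Type} [Enc γ] [Enc δ] {f : α → β} (ra : α → γ) (rb : β → δ)
    {F : γ → δ} (hF : PT F) (h : ∀ a, rb (f a) = F (ra a)) :
    Nonempty (TM2ComputableInPolyTime (fun a => cd (ra a)) (fun b => cd (rb b)) f) := by
  obtain ⟨p, P, hp⟩ := hF
  refine toTM2 p P fun a => ?_
  have h1 := hp (ra a) []
  rw [List.append_nil, List.append_nil] at h1
  obtain ⟨m, hm, hrun⟩ := h1
  refine ⟨m, hm.trans ?_, ?_⟩
  · rw [length_cd]
  · rw [only_eq, only_eq, h]
    exact hrun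

/-- The instance of a formula. -/
def instF (o : Bool) (φ : Fm) : Inst := instOf o (progOf (strictOf (qsOf φ.toks)))

theorem instF_valid (o : Bool) (φ : Fm) : (instF o φ).Valid := by
  have h := instOf_valid o (prog_wf (strictOf (qsOf φ.toks)))
  unfold instF
  exact h

theorem instF_yes (o : Bool) (φ : Fm) : (instF o φ).Yes ↔ φ.True := by
  have h := instOf_yes o (prog_wf (strictOf (qsOf φ.toks)))
  unfold instF
  rw [h, ← prog_iff, ← strict_iff, qs_iff]

theorem instF_open (φ : Fm) : (instF true φ).AllOpen := by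
  have h := instOf_open (progOf (strictOf (qsOf φ.toks)))
  unfold instF
  exact h

theorem instF_closed (φ : Fm) : (instF false φ).AllClosed := by
  have h := instOf_closed (progOf (strictOf (qsOf φ.toks)))
  unfold instF
  exact h

theorem repInst_instF (o : Bool) (φ : Fm) :
    repInst (instF o φ) = repInst (instOf o (progOf (strictOf (qsOf φ.toks)))) := by
  unfold instF
  rfl

theorem reduction (o : Bool) {L : Set (List Bool)} (hL : InER L) : ∃ f : List Bool → Inst,
    Nonempty (TM2ComputableInPolyTime (id : List Bool → List Bool) encInst f) ∧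
    ∀ x, (f x).Valid ∧ (∃ φ, f x = instF o φ) ∧ (x ∈ L ↔ (f x).Yes) := by
  obtain ⟨g, hg, hgL⟩ := hL
  have h1 : PT (fun l : List (ℕ × ℕ) => repInst (instOf o (progOf (strictOf (qsOf l))))) :=
    PT.comp (g := fun π => repInst (instOf o π)) (PT_instOf o)
      (PT.comp (g := fun C => progOf C) PT_progOf
        (PT.comp (g := fun G => strictOf G) PT_strictOf PT_qsOf))
  have h2 : Nonempty (TM2ComputableInPolyTime encFm encInst (instF o)) :=
    toTM2_reps Fm.toks repInst h1 (repInst_instF o)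
  exact ⟨fun x => instF o (g x), comp (f := g) (g := instF o) hg h2,
    fun x => ⟨instF_valid o (g x), ⟨g x, rfl⟩, (hgL x).trans (instF_yes o (g x)).symm⟩⟩

theorem open_hard {L : Set (List Bool)} (hL : InER L) : ∃ f : List Bool → Inst,
    Nonempty (TM2ComputableInPolyTime (id : List Bool → List Bool) encInst f) ∧
    ∀ x, (f x).Valid ∧ (f x).AllOpen ∧ (x ∈ L ↔ (f x).Yes) := by
  obtain ⟨f, hf, h⟩ := reduction true hL
  refine ⟨f, hf, fun x => ⟨(h x).1, ?_, (h x).2.2⟩⟩
  obtain ⟨φ, hφ⟩ := (h x).2.1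
  rw [hφ]
  exact instF_open φ

theorem closed_hard {L : Set (List Bool)} (hL : InER L) : ∃ f : List Bool → Inst,
    Nonempty (TM2ComputableInPolyTime (id : List Bool → List Bool) encInst f) ∧
    ∀ x, (f x).Valid ∧ (f x).AllClosed ∧ (x ∈ L ↔ (f x).Yes) := by
  obtain ⟨f, hf, h⟩ := reduction false hL
  refine ⟨f, hf, fun x => ⟨(h x).1, ?_, (h x).2.2⟩⟩
  obtain ⟨φ, hφ⟩ := (h x).2.1
  rw [hφ]
  exact instF_closed φ

theorem open_erHard : ERHard encInst OpenProblem := by
  intro L hL
  obtain ⟨f, hf, h⟩ := open_hard hL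
  exact ⟨f, hf, fun x => ⟨fun hx => ⟨(h x).1, (h x).2.1, (h x).2.2.1 hx⟩,
    fun hx => (h x).2.2.2 hx.2.2⟩⟩

theorem closed_erHard : ERHard encInst ClosedProblem := by
  intro L hL
  obtain ⟨f, hf, h⟩ := closed_hard hL
  exact ⟨f, hf, fun x => ⟨fun hx => ⟨(h x).1, (h x).2.1, (h x).2.2.1 hx⟩,
    fun hx => (h x).2.2.2 hx.2.2⟩⟩

end Pool.Agent.H77.SG
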