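import Pool.Agent.H77.SG.Geo

/-!
# Different vertices have different positions; positions of the edges and obstacles of a block

PROOFS. The first coordinate of the vertex `(T, k, e)` is `2 T` for `e ≠ 2` and in
`(2 T + 1, 2 T + 2)` for `e = 2`; the slot is determined by the second coordinate. Two vertices in
the same slot of the same line: only `(T, p + 1, 0)` and `(T, p + 1, 1)` in a block of kind
`3, …, 6`, and their heights are different by `extraOK`.
-/

set_option autoImplicit false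

namespace Pool.Agent.H77.SG

/-- The vertices of a block. -/
theorem ginj_cases {b : ℕ} {S : List Bool} {I : ℕ × ℕ × ℕ × List Bool} {v : ℕ × ℕ × ℕ}
    (hv : v ∈ bV b S I) : ∃ l k e, l < 4 ∧ v = (4 * b + l, k, e) ∧
      (e = 0 ∨ (e = 1 ∧ k = I.2.1 + 1 ∧ (((I.1 = 3 ∨ I.1 = 5) ∧ l = 2) ∨
        ((I.1 = 4 ∨ I.1 = 6) ∧ l = 3))) ∨ (e = 2 ∧ k = I.2.1 + 1 ∧ I.1 = 6 ∧ l = 2)) := by
  rw [mem_bV] at hv
  obtain ⟨l, k, e, hl, -, he, hp, rfl⟩ := hv
  refine ⟨l, k, e, hl, rfl, ?_⟩
  unfold pres at hp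
  by_cases h0 : e = 0
  · exact Or.inl h0
  rw [if_neg h0] at hp
  by_cases h1 : e = 1
  · rw [if_pos h1] at hp
    refine Or.inr (Or.inl ⟨h1, ?_⟩)
    by_cases h35 : I.1 = 3 ∨ I.1 = 5
    · rw [if_pos h35] at hp
      simp only [Bool.and_eq_true, decide_eq_true_eq] at hp
      exact ⟨hp.2, Or.inl ⟨h35, hp.1⟩⟩
    · rw [if_neg h35] at hp
      by_cases h46 : I.1 = 4 ∨ I.1 = 6
      · rw [if_pos h46] at hp
        simp only [Bool.and_eq_true, decide_eq_true_eq] at hp
        exact ⟨hp.2, Or.inr ⟨h46, hp.1⟩⟩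
      · rw [if_neg h46] at hp
        exact absurd hp (by simp)
  · rw [if_neg h1] at hp
    by_cases h2 : e = 2
    · rw [if_pos h2] at hp
      simp only [Bool.and_eq_true, decide_eq_true_eq] at hp
      exact Or.inr (Or.inr ⟨h2, hp.2, hp.1.1, hp.1.2⟩)
    · omega

/-- The position of the point `c` of a gate of kind 6. -/
theorem half_lt {b : ℕ} {S : List Bool} {I : ℕ × ℕ × ℕ × List Bool} (hI : WFI I S)
    {h : ℕ × ℕ × ℕ → ℝ} (h01 : ∀ v, 0 < h v ∧ h v < 1) (hB : blkOK h (b, S, I))
    {v : ℕ × ℕ × ℕ} (hv : v ∈ bV b S I) (h2 : v.2.2 = 2) : 1 / 2 < h v := by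
  obtain ⟨l, k, e, hl, rfl, hc⟩ := ginj_cases hv
  have he : e = 2 := h2
  rcases hc with hc | hc | hc
  · omega
  · omega
  obtain ⟨-, hk, h6, hl2⟩ := hc
  have hE := hB.2
  unfold extraOK at hE
  simp only [h6, show ¬ (6 : ℕ) = 1 by norm_num, show ¬ (6 : ℕ) = 3 by norm_num,
    show ¬ (6 : ℕ) = 4 by norm_num, show ¬ (6 : ℕ) = 5 by norm_num, if_true, if_false] at hE
  have h1 := hE.1
  subst he hk hl2
  have a1 := h01 (4 * b + 2, I.2.1 + 1, 2)
  have a2 := h01 (4 * b + 1, I.2.1, 0)
  nlinarith [a1.1, a2.1]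

theorem ginj_pt (h : ℕ × ℕ × ℕ → ℝ) (T k e : ℕ) (he : e ≠ 2) :
    ptOf h (T, k, e) = (2 * (T : ℝ), 16 * (k : ℝ) + 4 * h (T, k, e)) := by
  unfold ptOf
  rw [if_neg he]

theorem ginj_pt2 (h : ℕ × ℕ × ℕ → ℝ) (T k : ℕ) :
    ptOf h (T, k, 2) = (2 * (T : ℝ) + 2 * h (T, k, 2), 16 * (k : ℝ) + 4 * h (T, k, 2)) := by
  unfold ptOf
  rw [if_pos rfl]

/-- A point with `e = 2` is not at an even integer. -/
theorem ginj_odd {h : ℕ × ℕ × ℕ → ℝ} {T k T' k' e' : ℕ} (h1 : 1 / 2 < h (T, k, 2))
    (h2 : h (T, k, 2) < 1) (he : e' ≠ 2) (heq : ptOf h (T, k, 2) = ptOf h (T', k', e')) :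
    False := by
  rw [ginj_pt2, ginj_pt _ _ _ _ he] at heq
  have hx := congrArg Prod.fst heq
  simp only at hx
  have a1 : (T : ℝ) < (T' : ℝ) := by linarith
  have a2 : (T' : ℝ) < (T : ℝ) + 1 := by linarith
  have a3 : T < T' := by exact_mod_cast a1
  have a4 : T' < T + 1 := by exact_mod_cast a2
  omega

theorem pt_inj {b : ℕ} {S : List Bool} {I : ℕ × ℕ × ℕ × List Bool} (hI : WFI I S)
    {h : ℕ × ℕ × ℕ → ℝ} (h01 : ∀ v, 0 < h v ∧ h v < 1) (hB : blkOK h (b, S, I))
    {u v : ℕ × ℕ × ℕ} (hu : u ∈ bV b S I) (hv : v ∈ bV b S I) (huv : ptOf h u = ptOf h v) :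
    u = v := by
  have hu2 := fun h2 => half_lt hI h01 hB hu h2
  have hv2 := fun h2 => half_lt hI h01 hB hv h2
  obtain ⟨l, k, e, hl, rfl, hc⟩ := ginj_cases hu
  obtain ⟨l', k', e', hl', rfl, hc'⟩ := ginj_cases hv
  by_cases he : e = 2
  · by_cases he' : e' = 2
    · have a1 : k = I.2.1 + 1 ∧ l = 2 := by
        rcases hc with hc | hc | hc
        · omega
        · omega
        · exact ⟨hc.2.1, hc.2.2.2⟩
      have a2 : k' = I.2.1 + 1 ∧ l' = 2 := by
        rcases hc' with hc' | hc' | hc'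
        · omega
        · omega
        · exact ⟨hc'.2.1, hc'.2.2.2⟩
      rw [a1.1, a1.2, a2.1, a2.2, he, he']
    · exfalso
      subst he
      exact ginj_odd (hu2 rfl) (h01 _).2 he' huv
  · by_cases he' : e' = 2
    · exfalso
      subst he'
      exact ginj_odd (hv2 rfl) (h01 _).2 he huv.symm
    · have huv' := huv
      rw [ginj_pt _ _ _ _ he, ginj_pt _ _ _ _ he'] at huv'
      have hx := congrArg Prod.fst huv'
      have hy := congrArg Prod.snd huv'
      simp only at hx hy
      have hT : 4 * b + l = 4 * b + l' := by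
        have : ((4 * b + l : ℕ) : ℝ) = ((4 * b + l' : ℕ) : ℝ) := by linarith
        exact_mod_cast this
      have hll : l = l' := by omega
      subst hll
      have u1 := h01 (4 * b + l, k, e)
      have u2 := h01 (4 * b + l, k', e')
      have hk : k = k' := by
        rcases Nat.lt_trichotomy k k' with hlt | heq | hgt
        · exfalso
          have : (k : ℝ) + 1 ≤ (k' : ℝ) := by exact_mod_cast hlt
          linarith [u1.1, u1.2, u2.1, u2.2]
        · exact heq
        · exfalso
          have : (k' : ℝ) + 1 ≤ (k : ℝ) := by exact_mod_cast hgt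
          linarith [u1.1, u1.2, u2.1, u2.2]
      subst hk
      have hh : h (4 * b + l, k, e) = h (4 * b + l, k, e') := by linarith
      -- the heights of the two vertices in one slot are different
      have key : h (4 * b + l, k, 0) ≠ h (4 * b + l, k, 1) ∨
          ¬ (k = I.2.1 + 1 ∧ (((I.1 = 3 ∨ I.1 = 5) ∧ l = 2) ∨
            ((I.1 = 4 ∨ I.1 = 6) ∧ l = 3))) := by
        by_cases hcc : k = I.2.1 + 1 ∧ (((I.1 = 3 ∨ I.1 = 5) ∧ l = 2) ∨
            ((I.1 = 4 ∨ I.1 = 6) ∧ l = 3))
        · left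
          obtain ⟨rfl, hcc⟩ := hcc
          have hE := hB.2
          unfold extraOK at hE
          rcases hcc with ⟨h3 | h5, rfl⟩ | ⟨h4 | h6, rfl⟩
          · simp only [h3, show ¬ (3 : ℕ) = 1 by norm_num, if_true, if_false] at hE
            exact hE.2.ne'
          · simp only [h5, show ¬ (5 : ℕ) = 1 by norm_num, show ¬ (5 : ℕ) = 3 by norm_num,
              show ¬ (5 : ℕ) = 4 by norm_num, if_true, if_false] at hE
            exact hE.2.ne
          · simp only [h4, show ¬ (4 : ℕ) = 1 by norm_num, show ¬ (4 : ℕ) = 3 by norm_num,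
              if_true, if_false] at hE
            exact hE.2.ne'
          · simp only [h6, show ¬ (6 : ℕ) = 1 by norm_num, show ¬ (6 : ℕ) = 3 by norm_num,
              show ¬ (6 : ℕ) = 4 by norm_num, show ¬ (6 : ℕ) = 5 by norm_num, if_true,
              if_false] at hE
            exact hE.2.2.ne'
        · exact Or.inr hcc
      rcases hc with hc | hc | hc
      · rcases hc' with hc' | hc' | hc'
        · rw [hc, hc']
        · exfalso
          rcases key with key | key
          · rw [hc, hc'.1] at hh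
            exact key hh
          · exact key hc'.2
        · exact absurd hc'.1 he'
      · rcases hc' with hc' | hc' | hc'
        · exfalso
          rcases key with key | key
          · rw [hc', hc.1] at hh
            exact key hh.symm
          · exact key hc.2
        · rw [hc.1, hc'.1]
        · exact absurd hc'.1 he'
      · exact absurd hc.1 he

theorem bV_x {b : ℕ} {S : List Bool} {I : ℕ × ℕ × ℕ × List Bool} (hI : WFI I S)
    {h : ℕ × ℕ × ℕ → ℝ} (h01 : ∀ v, 0 < h v ∧ h v < 1)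
    {v : ℕ × ℕ × ℕ} (hv : v ∈ bV b S I) :
    8 * (b : ℝ) ≤ (ptOf h v).1 ∧ (ptOf h v).1 < 8 * (b : ℝ) + 8 := by
  obtain ⟨l, k, e, hl, rfl, hc⟩ := ginj_cases hv
  have hl' : (l : ℝ) ≤ 3 := by exact_mod_cast (show l ≤ 3 by omega)
  have hl0 : (0 : ℝ) ≤ (l : ℝ) := Nat.cast_nonneg l
  by_cases he : e = 2
  · have a1 : l = 2 := by
      rcases hc with hc | hc | hc
      · omega
      · omega
      · exact hc.2.2.2
    subst he a1
    rw [ginj_pt2]
    have a2 := h01 (4 * b + 2, k, 2)
    push_cast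
    constructor <;> linarith [a2.1, a2.2]
  · rw [ginj_pt _ _ _ _ he]
    push_cast
    constructor <;> linarith

/-- The ends of a segment. -/
theorem ginj_seg {A B z : ℝ × ℝ} (h : A.1 < B.1) (hz : z ∈ segment ℝ A B) :
    A.1 ≤ z.1 ∧ z.1 ≤ B.1 ∧ (z.1 = A.1 → z = A) ∧ (z.1 = B.1 → z = B) := by
  rw [mem_seg_iff h] at hz
  obtain ⟨h1, h2, h3⟩ := hz
  refine ⟨h1, h2, fun h4 => ?_, fun h4 => ?_⟩
  · rw [h4, lineAt_left h] at h3
    exact Prod.ext h4 h3
  · rw [h4, lineAt_right h] at h3
    exact Prod.ext h4 h3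

/-- The points of the edges of a block; the points on the last line are right ends in slots of the
first line of the next block, those on the first line are left ends in slots. -/
theorem bE_x {b : ℕ} {S : List Bool} {I : ℕ × ℕ × ℕ × List Bool} (hI : WFI I S)
    {h : ℕ × ℕ × ℕ → ℝ} (h01 : ∀ v, 0 < h v ∧ h v < 1)
    {e : (ℕ × ℕ × ℕ) × (ℕ × ℕ × ℕ)} (he : e ∈ bE b S I) {z : ℝ × ℝ}
    (hz : z ∈ segment ℝ (ptOf h e.1) (ptOf h e.2)) :
    8 * (b : ℝ) ≤ z.1 ∧ z.1 ≤ 8 * (b : ℝ) + 8 ∧
      (z.1 = 8 * (b : ℝ) → ∃ k : ℕ, e.1 = (4 * b, k, 0) ∧ z = ptOf h e.1) ∧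
      (z.1 = 8 * (b : ℝ) + 8 → ∃ k : ℕ, e.2 = (4 * (b + 1), k, 0) ∧ z = ptOf h e.2) := by
  unfold bE at he
  rw [List.mem_append] at he
  rcases he with he | he
  · rw [List.mem_map] at he
    obtain ⟨q, hq, rfl⟩ := he
    obtain ⟨T, i, j, s⟩ := q
    obtain ⟨r1, r2, -⟩ := bP_range hI hq
    simp only at r1 r2 hz ⊢
    have p1 : (ptOf h (T, i, 0)).1 = 2 * (T : ℝ) := by
      rw [ginj_pt _ _ _ _ (by norm_num)]
    have p2 : (ptOf h (T + 1, j, 0)).1 = 2 * (T : ℝ) + 2 := by
      rw [ginj_pt _ _ _ _ (by norm_num)]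
      push_cast
      ring
    obtain ⟨z1, z2, z3, z4⟩ := ginj_seg (by rw [p1, p2]; linarith) hz
    rw [p1] at z1 z3
    rw [p2] at z2 z4
    have r1' : 4 * (b : ℝ) ≤ (T : ℝ) := by exact_mod_cast r1
    have r2' : (T : ℝ) ≤ 4 * (b : ℝ) + 3 := by exact_mod_cast r2
    refine ⟨by linarith, by linarith, fun hzz => ?_, fun hzz => ?_⟩
    · have hT : (T : ℝ) = 4 * (b : ℝ) := by linarith
      have hT' : T = 4 * b := by exact_mod_cast hT
      refine ⟨i, by rw [hT'], z3 (by linarith)⟩
    · have hT : (T : ℝ) = 4 * (b : ℝ) + 3 := by linarith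
      have hT' : T = 4 * b + 3 := by exact_mod_cast hT
      refine ⟨j, ?_, z4 (by linarith)⟩
      have hT2 : T + 1 = 4 * (b + 1) := by omega
      rw [hT2]
  · -- the other edges
    have hb : (0 : ℝ) ≤ (b : ℝ) := Nat.cast_nonneg b
    unfold bX at he
    by_cases h35 : I.1 = 3 ∨ I.1 = 5
    · rw [if_pos h35, List.mem_singleton] at he
      subst he
      simp only at hz ⊢
      have p1 : (ptOf h (4 * b, I.2.1 + 1, 0)).1 = 8 * (b : ℝ) := by
        rw [ginj_pt _ _ _ _ (by norm_num)]
        push_cast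
        ring
      have p2 : (ptOf h (4 * b + 2, I.2.1 + 1, 1)).1 = 8 * (b : ℝ) + 4 := by
        rw [ginj_pt _ _ _ _ (by norm_num)]
        push_cast
        ring
      obtain ⟨z1, z2, z3, z4⟩ := ginj_seg (by rw [p1, p2]; linarith) hz
      rw [p1] at z1 z3
      rw [p2] at z2 z4
      refine ⟨z1, by linarith, fun hzz => ⟨_, rfl, z3 hzz⟩, fun hzz => ?_⟩
      exfalso
      linarith
    · rw [if_neg h35] at he
      by_cases h4 : I.1 = 4
      · rw [if_pos h4, List.mem_singleton] at he
        subst he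
        simp only at hz ⊢
        have p1 : (ptOf h (4 * b + 1, I.2.1 + 1, 0)).1 = 8 * (b : ℝ) + 2 := by
          rw [ginj_pt _ _ _ _ (by norm_num)]
          push_cast
          ring
        have p2 : (ptOf h (4 * b + 3, I.2.1 + 1, 1)).1 = 8 * (b : ℝ) + 6 := by
          rw [ginj_pt _ _ _ _ (by norm_num)]
          push_cast
          ring
        obtain ⟨z1, z2, z3, z4⟩ := ginj_seg (by rw [p1, p2]; linarith) hz
        rw [p1] at z1
        rw [p2] at z2
        refine ⟨by linarith, by linarith, fun hzz => ?_, fun hzz => ?_⟩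
        · exfalso
          linarith
        · exfalso
          linarith
      · rw [if_neg h4] at he
        by_cases h6 : I.1 = 6
        · rw [if_pos h6] at he
          simp only [List.mem_cons, List.not_mem_nil, or_false] at he
          rcases he with rfl | rfl
          · simp only at hz ⊢
            have hh := h01 (4 * b + 2, I.2.1 + 1, 2)
            have p1 : (ptOf h (4 * b + 1, I.2.1, 0)).1 = 8 * (b : ℝ) + 2 := by
              rw [ginj_pt _ _ _ _ (by norm_num)]
              push_cast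
              ring
            have p2 : (ptOf h (4 * b + 2, I.2.1 + 1, 2)).1
                = 8 * (b : ℝ) + 4 + 2 * h (4 * b + 2, I.2.1 + 1, 2) := by
              rw [ginj_pt2]
              push_cast
              ring
            obtain ⟨z1, z2, z3, z4⟩ := ginj_seg (by rw [p1, p2]; linarith [hh.1]) hz
            rw [p1] at z1
            rw [p2] at z2
            refine ⟨by linarith, by linarith [hh.2], fun hzz => ?_, fun hzz => ?_⟩
            · exfalso
              linarith
            · exfalso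
              linarith [hh.2]
          · simp only at hz ⊢
            have p1 : (ptOf h (4 * b + 2, I.2.1 + 1, 0)).1 = 8 * (b : ℝ) + 4 := by
              rw [ginj_pt _ _ _ _ (by norm_num)]
              push_cast
              ring
            have p2 : (ptOf h (4 * b + 3, I.2.1 + 1, 1)).1 = 8 * (b : ℝ) + 6 := by
              rw [ginj_pt _ _ _ _ (by norm_num)]
              push_cast
              ring
            obtain ⟨z1, z2, z3, z4⟩ := ginj_seg (by rw [p1, p2]; linarith) hz
            rw [p1] at z1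
            rw [p2] at z2
            refine ⟨by linarith, by linarith, fun hzz => ?_, fun hzz => ?_⟩
            · exfalso
              linarith
            · exfalso
              linarith
        · rw [if_neg h6] at he
          exact absurd he (by simp)

/-- The points of a vertical wall. -/
theorem ginj_zseg (o : Bool) (x y y' : ℤ) {z : ℝ × ℝ} (hz : z ∈ (zseg o x y x y').pts) :
    z.1 = (x : ℝ) := by
  have hseg : z ∈ segment ℝ (toR (zpt x y)) (toR (zpt x y')) := by
    unfold Seg.pts zseg at hz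
    simp only at hz
    split_ifs at hz
    · exact openSegment_subset_segment _ _ _ hz
    · exact hz
  obtain ⟨a, c, ha, hc, hac, rfl⟩ := hseg
  simp only [toR, zpt, Prod.fst_add, Prod.smul_fst, smul_eq_mul, Rat.cast_intCast]
  rw [← add_mul, hac, one_mul]

theorem ginj_wall (o : Bool) (x y y' : ℤ) {s : Seg} (hs : s ∈ wallSeg o x y x y') {z : ℝ × ℝ}
    (hz : z ∈ s.pts) : z.1 = (x : ℝ) := by
  unfold wallSeg at hs
  split_ifs at hs
  · simp only [List.mem_cons, List.not_mem_nil, or_false] at hs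
    rcases hs with rfl | rfl | rfl
    · exact ginj_zseg _ _ _ _ hz
    · exact ginj_zseg _ _ _ _ hz
    · exact ginj_zseg _ _ _ _ hz
  · rw [List.mem_singleton] at hs
    subst hs
    exact ginj_zseg _ _ _ _ hz

/-- The points of the obstacles of a block. -/
theorem bO_x (o : Bool) {b : ℕ} {S : List Bool} {I : ℕ × ℕ × ℕ × List Bool} (hI : WFI I S)
    {s : Seg} (hs : s ∈ bO o b S I) {z : ℝ × ℝ} (hz : z ∈ s.pts) :
    8 * (b : ℝ) < z.1 ∧ z.1 < 8 * (b : ℝ) + 8 := by
  unfold bO at hs
  rw [List.mem_append] at hs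
  rcases hs with hs | hs
  · rw [List.mem_flatMap] at hs
    obtain ⟨q, hq, hs⟩ := hs
    obtain ⟨r1, r2, -⟩ := bP_range hI hq
    have hz1 : z.1 = ((2 * (q.1 : ℤ) + 1 : ℤ) : ℝ) := by
      unfold pWall at hs
      split_ifs at hs
      · exact ginj_wall _ _ _ _ hs hz
      · exact ginj_wall _ _ _ _ hs hz
    have r1' : 4 * (b : ℝ) ≤ (q.1 : ℝ) := by exact_mod_cast r1
    have r2' : (q.1 : ℝ) ≤ 4 * (b : ℝ) + 3 := by exact_mod_cast r2
    rw [hz1]
    push_cast
    constructor <;> linarith
  · split_ifs at hs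
    · have hz1 := ginj_wall _ _ _ _ hs hz
      rw [hz1]
      push_cast
      constructor <;> linarith
    · exact absurd hs (by simp)

end Pool.Agent.H77.SG
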