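import Pool.Agent.H77.SG.GE1

/-!
# The gate of kind 5

The gate edges are: (with `p = I.2.1`, `T = 4 b`) the bottom wire `(T, p) - (T+1, p) - (T+2, p+1; 0)`, the long edge `a = (T, p+1; 0) - (T+2, p+1; 1)` and the top wire `(T, p+2) - (T+1, p+1; 0) = c`. The long edge is at the heights `[16 (p+1), 16 (p+1) + 4]`; `c` is above the long edge and the end of the bottom wire is below the end of the long edge, by `extraOK`.
All other ordinary edges in the two strips of the long edge are in slots `< p` or `≥ p + 3` at both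
ends. Edges in the neighbouring strips can meet the long edge only at its ends; no ordinary edge
starts at the slot `p + 1` of the line `T + 2`.

PROOFS. `px`: list the ordinary edges (`mem_bP`, unfold `has` and `tgt`); use `seg_bounds` for the
edges in other slots and `seg_disj`, `seg_order` for the gate edges. `xx`: there is only one extra
edge. `xw`: the obstacle of the ordinary edge `(T', i, j)` is on the line `X = 2 T' + 1` at
heights in `[8 (i + j), 8 (i + j) + 4]` and `i + j ≠ 2 (p + 1)` for the ordinary edges in the two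
strips of the long edge. `xs` (soundness): if `c` were on the wrong side of the long edge, the edge
which ends in `c` would meet the long edge (`seg_meet`), and a common point is a common end, which does
not exist; the same for the end of the other gate edge.
-/

set_option autoImplicit false

namespace Pool.Agent.H77.SG

private theorem gk5_pt {h : ℕ × ℕ × ℕ → ℝ} {T k e : ℕ} (he : e ≠ 2) :
    ptOf h (T, k, e) = (2 * (T : ℝ), 16 * (k : ℝ) + 4 * h (T, k, e)) := by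
  unfold ptOf
  exact if_neg he

private theorem gk5_mid {x0 x1 y0 y1 X : ℝ} (h1 : x1 = x0 + 4) (h2 : X = x0 + 2) :
    lineAt (x0, y0) (x1, y1) X = (y0 + y1) / 2 := by
  unfold lineAt
  subst h1 h2
  simp only
  rw [show (x0 + 2 - x0) / (x0 + 4 - x0) = (1 / 2 : ℝ) by
    rw [div_eq_div_iff (by linarith) (by norm_num)]; ring]
  ring

private theorem gk5_left {x0 x1 y0 y1 X : ℝ} (h : x0 < x1) (h2 : X = x0) :
    lineAt (x0, y0) (x1, y1) X = y0 := by
  subst h2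
  exact lineAt_left (A := (X, y0)) (B := (x1, y1)) h

private theorem gk5_right {x0 x1 y0 y1 X : ℝ} (h : x0 < x1) (h2 : X = x1) :
    lineAt (x0, y0) (x1, y1) X = y1 := by
  subst h2
  exact lineAt_right (A := (x0, y0)) (B := (X, y1)) h

/-- Bounds for the points of an edge between two slots. -/
private theorem gk5_seg {T T' k k' : ℕ} {u v : ℝ} (hT : T < T') (hu : 0 ≤ u ∧ u ≤ 1)
    (hv : 0 ≤ v ∧ v ≤ 1) {z : ℝ × ℝ} (lo hi : ℝ) (hlo : lo ≤ 16 * (k : ℝ))
    (hlo' : lo ≤ 16 * (k' : ℝ)) (hhi : 16 * (k : ℝ) + 4 ≤ hi) (hhi' : 16 * (k' : ℝ) + 4 ≤ hi)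
    (hz : z ∈ segment ℝ ((2 * (T : ℝ), 16 * (k : ℝ) + 4 * u) : ℝ × ℝ)
      ((2 * (T' : ℝ), 16 * (k' : ℝ) + 4 * v) : ℝ × ℝ)) :
    2 * (T : ℝ) ≤ z.1 ∧ z.1 ≤ 2 * (T' : ℝ) ∧ lo ≤ z.2 ∧ z.2 ≤ hi := by
  have hT' : (T : ℝ) < (T' : ℝ) := by exact_mod_cast hT
  have h1 := (mem_seg_iff (A := (2 * (T : ℝ), 16 * (k : ℝ) + 4 * u))
    (B := (2 * (T' : ℝ), 16 * (k' : ℝ) + 4 * v)) (by simp only; linarith) z).1 hz
  have h2 := seg_bounds (lo := lo) (hi := hi) hz (by simp only; linarith [hu.1])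
    (by simp only; linarith [hv.1]) (by simp only; linarith [hu.2]) (by simp only; linarith [hv.2])
  exact ⟨h1.1, h1.2.1, h2.1, h2.2⟩

/-- An edge in lower or in higher slots does not meet the long edge. -/
private theorem gk5_off {T T' k k' U U' m : ℕ} {u v u' v' : ℝ} (hT : T < T')
    (hu : 0 ≤ u ∧ u ≤ 1) (hv : 0 ≤ v ∧ v ≤ 1) (hU : U < U') (hu' : 0 ≤ u' ∧ u' ≤ 1)
    (hv' : 0 ≤ v' ∧ v' ≤ 1) {z : ℝ × ℝ} (hk : (k < m ∧ k' < m) ∨ (m < k ∧ m < k'))
    (hz : z ∈ segment ℝ ((2 * (T : ℝ), 16 * (k : ℝ) + 4 * u) : ℝ × ℝ)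
      ((2 * (T' : ℝ), 16 * (k' : ℝ) + 4 * v) : ℝ × ℝ))
    (hz' : z ∈ segment ℝ ((2 * (U : ℝ), 16 * (m : ℝ) + 4 * u') : ℝ × ℝ)
      ((2 * (U' : ℝ), 16 * (m : ℝ) + 4 * v') : ℝ × ℝ)) : False := by
  have h2 := gk5_seg hU hu' hv' (16 * (m : ℝ)) (16 * (m : ℝ) + 4) le_rfl le_rfl le_rfl le_rfl hz'
  rcases hk with ⟨h3, h4⟩ | ⟨h3, h4⟩
  · have h5 : (k : ℝ) + 1 ≤ (m : ℝ) := by exact_mod_cast h3
    have h6 : (k' : ℝ) + 1 ≤ (m : ℝ) := by exact_mod_cast h4
    have h1 := gk5_seg hT hu hv (min (16 * (k : ℝ)) (16 * (k' : ℝ))) (16 * (m : ℝ) - 12)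
      (min_le_left _ _) (min_le_right _ _) (by linarith) (by linarith) hz
    linarith [h1.2.2.2, h2.2.2.1]
  · have h5 : (m : ℝ) + 1 ≤ (k : ℝ) := by exact_mod_cast h3
    have h6 : (m : ℝ) + 1 ≤ (k' : ℝ) := by exact_mod_cast h4
    have h1 := gk5_seg hT hu hv (16 * (m : ℝ) + 16) (max (16 * (k : ℝ) + 4) (16 * (k' : ℝ) + 4))
      (by linarith) (by linarith) (le_max_left _ _) (le_max_right _ _) hz
    linarith [h1.2.2.1, h2.2.2.2]

private theorem gk5_slot {k k' : ℕ} {u v : ℝ} (hu : 0 ≤ u ∧ u ≤ 1) (hv : 0 ≤ v ∧ v ≤ 1)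
    (h : 16 * (k : ℝ) + 4 * u = 16 * (k' : ℝ) + 4 * v) : k = k' := by
  rcases lt_trichotomy k k' with h1 | h1 | h1
  · have h2 : (k : ℝ) + 1 ≤ (k' : ℝ) := by exact_mod_cast h1
    linarith [hu.2, hv.1]
  · exact h1
  · have h2 : (k' : ℝ) + 1 ≤ (k : ℝ) := by exact_mod_cast h1
    linarith [hu.1, hv.2]

/-- A common point of two edges on the line where one of them ends and the other begins. -/
private theorem gk5_touch {T U U' k k' m m' : ℕ} {u v u' v' : ℝ} (hT : T < U) (hU : U < U')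
    (hv : 0 ≤ v ∧ v ≤ 1) (hu' : 0 ≤ u' ∧ u' ≤ 1) {z : ℝ × ℝ}
    (hz : z ∈ segment ℝ ((2 * (T : ℝ), 16 * (k : ℝ) + 4 * u) : ℝ × ℝ)
      ((2 * (U : ℝ), 16 * (k' : ℝ) + 4 * v) : ℝ × ℝ))
    (hz' : z ∈ segment ℝ ((2 * (U : ℝ), 16 * (m : ℝ) + 4 * u') : ℝ × ℝ)
      ((2 * (U' : ℝ), 16 * (m' : ℝ) + 4 * v') : ℝ × ℝ)) :
    k' = m ∧ z = (2 * (U : ℝ), 16 * (m : ℝ) + 4 * u') := by
  have hT' : (T : ℝ) < (U : ℝ) := by exact_mod_cast hT
  have hU' : (U : ℝ) < (U' : ℝ) := by exact_mod_cast hU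
  have h1 := (mem_seg_iff (A := (2 * (T : ℝ), 16 * (k : ℝ) + 4 * u))
    (B := (2 * (U : ℝ), 16 * (k' : ℝ) + 4 * v)) (by simp only; linarith) z).1 hz
  have h2 := (mem_seg_iff (A := (2 * (U : ℝ), 16 * (m : ℝ) + 4 * u'))
    (B := (2 * (U' : ℝ), 16 * (m' : ℝ) + 4 * v')) (by simp only; linarith) z).1 hz'
  simp only at h1 h2
  have hz1 : z.1 = 2 * (U : ℝ) := le_antisymm h1.2.1 h2.1
  have h3 := h1.2.2
  have h4 := h2.2.2
  rw [gk5_right (by linarith) hz1] at h3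
  rw [gk5_left (by linarith) hz1] at h4
  refine ⟨gk5_slot hv hu' (h3.symm.trans h4), Prod.ext hz1 h4⟩

/-- The obstacle of an ordinary edge is in a part of a line. -/
private theorem gk5_wall (o : Bool) (q : ℕ × ℕ × ℕ × Bool) (A : Set (ℝ × ℝ))
    (hA : ∀ z ∈ A, z.1 = 2 * (q.1 : ℝ) + 1 → 8 * ((q.2.1 : ℝ) + (q.2.2.1 : ℝ)) ≤ z.2 →
      z.2 ≤ 8 * ((q.2.1 : ℝ) + (q.2.2.1 : ℝ)) + 4 → False) :
    ∀ s ∈ pWall o q, Disjoint A s.pts := by
  unfold pWall
  split_ifs with hl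
  · rw [wallSeg_iff, Set.disjoint_left]
    intro z hz hz'
    push_cast at hz'
    rw [mem_vert (by linarith)] at hz'
    exact hA z hz hz'.1 hz'.2.1 (by linarith [hz'.2.2])
  · rw [wallSeg_iff, Set.disjoint_left]
    intro z hz hz'
    push_cast at hz'
    rw [mem_vert (by linarith)] at hz'
    exact hA z hz hz'.1 (by linarith [hz'.2.1]) hz'.2.2

/-- The obstacle of an edge between slots whose sum is not `2 m` does not meet a long edge at the
height of the slot `m`. -/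
private theorem gk5_xw {U U' m : ℕ} {u' v' : ℝ} (o : Bool) (q : ℕ × ℕ × ℕ × Bool) (hU : U < U')
    (hu' : 0 ≤ u' ∧ u' ≤ 1) (hv' : 0 ≤ v' ∧ v' ≤ 1)
    (hq : U ≤ q.1 → q.1 < U' → q.2.1 + q.2.2.1 ≠ 2 * m) :
    ∀ s ∈ pWall o q, Disjoint (segment ℝ ((2 * (U : ℝ), 16 * (m : ℝ) + 4 * u') : ℝ × ℝ)
      ((2 * (U' : ℝ), 16 * (m : ℝ) + 4 * v') : ℝ × ℝ)) s.pts := by
  refine gk5_wall o q _ ?_
  intro z hz h1 h2 h3
  have h4 := gk5_seg hU hu' hv' (16 * (m : ℝ)) (16 * (m : ℝ) + 4) le_rfl le_rfl le_rfl le_rfl hz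
  have h5 : U ≤ q.1 := by
    by_contra hc
    have : (q.1 : ℝ) + 1 ≤ (U : ℝ) := by exact_mod_cast (not_le.mp hc)
    linarith [h4.1]
  have h6 : q.1 < U' := by
    by_contra hc
    have : (U' : ℝ) ≤ (q.1 : ℝ) := by exact_mod_cast (not_lt.mp hc)
    linarith [h4.2.1]
  rcases lt_trichotomy (q.2.1 + q.2.2.1) (2 * m) with h7 | h7 | h7
  · have : (q.2.1 : ℝ) + (q.2.2.1 : ℝ) + 1 ≤ 2 * (m : ℝ) := by exact_mod_cast h7
    linarith [h4.2.2.1]
  · exact hq h5 h6 h7
  · have : 2 * (m : ℝ) + 1 ≤ (q.2.1 : ℝ) + (q.2.2.1 : ℝ) := by exact_mod_cast h7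
    linarith [h4.2.2.2]

theorem px5 {b : ℕ} {S : List Bool} {I : ℕ × ℕ × ℕ × List Bool} (hI : WFI I S) (hk : I.1 = 5)
    {h : ℕ × ℕ × ℕ → ℝ} (h01 : ∀ v, 0 < h v ∧ h v < 1) (hB : blkOK h (b, S, I))
    {q : ℕ × ℕ × ℕ × Bool} (hq : q ∈ bP b S I) {e : (ℕ × ℕ × ℕ) × (ℕ × ℕ × ℕ)}
    (he : e ∈ bX b I) :
    ∀ z ∈ segment ℝ (ptOf h (q.1, q.2.1, 0)) (ptOf h (q.1 + 1, q.2.2.1, 0)),
      z ∈ segment ℝ (ptOf h e.1) (ptOf h e.2) →
      ∃ w : ℕ × ℕ × ℕ, (w = (q.1, q.2.1, 0) ∨ w = (q.1 + 1, q.2.2.1, 0)) ∧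
        (w = e.1 ∨ w = e.2) ∧ z = ptOf h w := by
  obtain ⟨t, p, n, w⟩ := I
  dsimp only at hk
  subst hk
  have hx := hB.2
  unfold extraOK at hx
  simp only [show ¬ ((5 : ℕ) = 1) by norm_num, show ¬ ((5 : ℕ) = 3) by norm_num,
    show ¬ ((5 : ℕ) = 4) by norm_num, if_false, if_true] at hx
  have he' : e = ((4 * b, p + 1, 0), (4 * b + 2, p + 1, 1)) := by
    simpa [bX] using he
  subst he'
  obtain ⟨hx1, hx2⟩ := hx
  have h01' : ∀ v, 0 ≤ h v ∧ h v ≤ 1 := fun v => ⟨(h01 v).1.le, (h01 v).2.le⟩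
  intro z hz hz'
  dsimp only at hz'
  rw [gk5_pt (by norm_num), gk5_pt (by norm_num)] at hz hz'
  have hL := gk5_seg (by omega) (h01' _) (h01' _) _ _ le_rfl le_rfl le_rfl le_rfl hz'
  rcases mem_bP.mp hq with ⟨h1, -⟩ | ⟨l, k, hl, hk', -, hh, rfl⟩
  · dsimp only at h1; omega
  dsimp only at hz hh ⊢
  exfalso
  rcases (by omega : l = 0 ∨ l = 1 ∨ l = 2 ∨ l = 3) with rfl | rfl | rfl | rfl
  · have hh' : k < S.length ∧ ¬ k = p + 1 := by simpa [has] using hh
    simp only [Nat.add_zero] at hz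
    by_cases hkp : k = p + 2
    · subst hkp
      have ht : tgt 5 p w.length 0 (p + 2) = p + 1 := by simp [tgt]
      rw [ht] at hz
      refine seg_disj (s := 2 * ((4 * b : ℕ) : ℝ)) (t := 2 * ((4 * b + 1 : ℕ) : ℝ))
        ?_ ?_ ?_ ?_ hz' hz ?_ ?_
      · push_cast; linarith
      · push_cast; linarith
      · rw [gk5_left (by push_cast; linarith) rfl, gk5_left (by push_cast; linarith) rfl]
        push_cast
        linarith [(h01 (4 * b, p + 1, 0)).2, (h01 (4 * b, p + 2, 0)).1]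
      · rw [gk5_mid (by push_cast; ring) (by push_cast; ring), gk5_right (by push_cast; linarith) rfl]
        linarith
      · exact hL.1
      · exact ((gk5_seg (by omega) (h01' _) (h01' _) (16 * ((p + 1 : ℕ) : ℝ))
          (16 * ((p + 2 : ℕ) : ℝ) + 4)
          (by push_cast; linarith) (by push_cast; linarith) (by push_cast; linarith)
          (by push_cast; linarith) hz).2.1)
    · have ht : tgt 5 p w.length 0 k = k := by simp [tgt, hkp]
      rw [ht] at hz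
      exact gk5_off (by omega) (h01' _) (h01' _) (by omega) (h01' _) (h01' _)
        (by omega) hz hz'
  · have hh' : (k < S.length ∧ ¬ k = p + 1) ∧ ¬ k = p + 2 := by simpa [has] using hh
    by_cases hkp : k = p
    · subst hkp
      have ht : tgt 5 k w.length 1 k = k + 1 := by simp [tgt]
      rw [ht] at hz
      refine seg_disj (s := 2 * ((4 * b + 1 : ℕ) : ℝ)) (t := 2 * ((4 * b + 1 + 1 : ℕ) : ℝ))
        ?_ ?_ ?_ ?_ hz hz' ?_ ?_
      · push_cast; linarith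
      · push_cast; linarith
      · rw [gk5_left (by push_cast; linarith) rfl, gk5_mid (by push_cast; ring) (by push_cast; ring)]
        push_cast
        linarith [(h01 (4 * b + 1, k, 0)).2, (h01 (4 * b, k + 1, 0)).1,
          (h01 (4 * b + 2, k + 1, 1)).1]
      · rw [gk5_right (by push_cast; linarith) rfl, gk5_right (by push_cast; linarith) rfl]
        linarith
      · exact ((gk5_seg (by omega) (h01' _) (h01' _) (16 * (k : ℝ)) (16 * ((k + 1 : ℕ) : ℝ) + 4)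
          le_rfl (by push_cast; linarith) (by push_cast; linarith) le_rfl hz).1)
      · exact hL.2.1
    · have ht : tgt 5 p w.length 1 k = k := by simp [tgt, hkp]
      rw [ht] at hz
      exact gk5_off (by omega) (h01' _) (h01' _) (by omega) (h01' _) (h01' _)
        (by omega) hz hz'
  · have hh' : k < S.length ∧ (k < p ∨ p + 3 ≤ k) := by simpa [has] using hh
    obtain ⟨h1, -⟩ := gk5_touch (by omega) (by omega) (h01' _) (h01' _) hz' hz
    omega
  · have hQ := gk5_seg (by omega) (h01' _) (h01' _)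
      (min (16 * (k : ℝ)) (16 * ((tgt 5 p w.length 3 k : ℕ) : ℝ)))
      (max (16 * (k : ℝ) + 4) (16 * ((tgt 5 p w.length 3 k : ℕ) : ℝ) + 4))
      (min_le_left _ _) (min_le_right _ _) (le_max_left _ _) (le_max_right _ _) hz
    have h1 := hQ.1
    have h2 := hL.2.1
    push_cast at h1 h2
    linarith

theorem xx5 {b : ℕ} {I : ℕ × ℕ × ℕ × List Bool} (hk : I.1 = 5)
    {e f : (ℕ × ℕ × ℕ) × (ℕ × ℕ × ℕ)} (he : e ∈ bX b I) (hf : f ∈ bX b I) : e = f := by
  obtain ⟨t, p, n, w⟩ := I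
  dsimp only at hk
  subst hk
  have he' : e = ((4 * b, p + 1, 0), (4 * b + 2, p + 1, 1)) := by
    simpa [bX] using he
  have hf' : f = ((4 * b, p + 1, 0), (4 * b + 2, p + 1, 1)) := by
    simpa [bX] using hf
  rw [he', hf']

theorem xw5 (o : Bool) {b : ℕ} {S : List Bool} {I : ℕ × ℕ × ℕ × List Bool} (hI : WFI I S)
    (hk : I.1 = 5) {h : ℕ × ℕ × ℕ → ℝ} (h01 : ∀ v, 0 < h v ∧ h v < 1)
    {q : ℕ × ℕ × ℕ × Bool} (hq : q ∈ bP b S I) {e : (ℕ × ℕ × ℕ) × (ℕ × ℕ × ℕ)}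
    (he : e ∈ bX b I) : ∀ s ∈ pWall o q, Disjoint (segment ℝ (ptOf h e.1) (ptOf h e.2)) s.pts := by
  obtain ⟨t, p, n, w⟩ := I
  dsimp only at hk
  subst hk
  have he' : e = ((4 * b, p + 1, 0), (4 * b + 2, p + 1, 1)) := by
    simpa [bX] using he
  subst he'
  have h01' : ∀ v, 0 ≤ h v ∧ h v ≤ 1 := fun v => ⟨(h01 v).1.le, (h01 v).2.le⟩
  dsimp only
  rw [gk5_pt (by norm_num), gk5_pt (by norm_num)]
  refine gk5_xw o q (by omega) (h01' _) (h01' _) ?_
  rcases mem_bP.mp hq with ⟨h1, -⟩ | ⟨l, k, hl, hk', -, hh, rfl⟩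
  · dsimp only at h1; omega
  dsimp only at hh ⊢
  intro h1 h2
  rcases (by omega : l = 0 ∨ l = 1) with rfl | rfl
  · have hh' : k < S.length ∧ ¬ k = p + 1 := by simpa [has] using hh
    by_cases hkp : k = p + 2
    · subst hkp
      have ht : tgt 5 p w.length 0 (p + 2) = p + 1 := by simp [tgt]
      rw [ht]
      omega
    · have ht : tgt 5 p w.length 0 k = k := by simp [tgt, hkp]
      rw [ht]
      omega
  · have hh' : (k < S.length ∧ ¬ k = p + 1) ∧ ¬ k = p + 2 := by simpa [has] using hh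
    by_cases hkp : k = p
    · subst hkp
      have ht : tgt 5 k w.length 1 k = k + 1 := by simp [tgt]
      rw [ht]
      omega
    · have ht : tgt 5 p w.length 1 k = k := by simp [tgt, hkp]
      rw [ht]
      omega

theorem xs5 {b : ℕ} {S : List Bool} {I : ℕ × ℕ × ℕ × List Bool} (hI : WFI I S) (hk : I.1 = 5)
    {h : ℕ × ℕ × ℕ → ℝ} (h01 : ∀ v, 0 ≤ h v ∧ h v ≤ 1)
    (hE : ∀ e ∈ bE b S I, ∀ f ∈ bE b S I, e ≠ f → ∀ z ∈ segment ℝ (ptOf h e.1) (ptOf h e.2),
      z ∈ segment ℝ (ptOf h f.1) (ptOf h f.2) →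
      ∃ w, (w = e.1 ∨ w = e.2) ∧ (w = f.1 ∨ w = f.2) ∧ z = ptOf h w) : extraOK h b I := by
  have hpos := (WFI_pos hI).2.2.1
  obtain ⟨t, p, n, w⟩ := I
  dsimp only at hk hpos
  subst hk
  have hW := hpos (by norm_num)
  have hX : ((4 * b, p + 1, 0), (4 * b + 2, p + 1, 1)) ∈ bE b S (5, p, n, w) := by
    unfold bE
    exact List.mem_append_right _ (by simp [bX])
  have hF : ((4 * b, p + 2, 0), (4 * b + 1, p + 1, 0)) ∈ bE b S (5, p, n, w) := by
    unfold bE
    refine List.mem_append_left _ (List.mem_map.mpr ⟨(4 * b + 0, p + 2,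
      tgt 5 p w.length 0 (p + 2), sgn 5 p S 0 (p + 2)),
      mem_bP.mpr (Or.inr ⟨0, p + 2, by norm_num, by omega, by simp, ?_, rfl⟩), ?_⟩)
    · simp [has]; omega
    · simp [tgt]
  have hG : ((4 * b + 1, p, 0), (4 * b + 1 + 1, p + 1, 0)) ∈ bE b S (5, p, n, w) := by
    unfold bE
    refine List.mem_append_left _ (List.mem_map.mpr ⟨(4 * b + 1, p, tgt 5 p w.length 1 p,
      sgn 5 p S 1 p), mem_bP.mpr (Or.inr ⟨1, p, by norm_num, by omega, by simp, ?_, rfl⟩), ?_⟩)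
    · simp [has]; omega
    · simp [tgt]
  unfold extraOK
  simp only [show ¬ ((5 : ℕ) = 1) by norm_num, show ¬ ((5 : ℕ) = 3) by norm_num,
    show ¬ ((5 : ℕ) = 4) by norm_num, if_false, if_true]
  constructor
  · by_contra hc
    rw [not_lt] at hc
    have hmeet := seg_meet (A := ptOf h (4 * b, p + 1, 0)) (B := ptOf h (4 * b + 2, p + 1, 1))
      (C := ptOf h (4 * b, p + 2, 0)) (D := ptOf h (4 * b + 1, p + 1, 0))
      (s := 2 * ((4 * b : ℕ) : ℝ)) (t := 2 * ((4 * b + 1 : ℕ) : ℝ))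
    rw [gk5_pt (by norm_num), gk5_pt (by norm_num), gk5_pt (by norm_num), gk5_pt (by norm_num)]
      at hmeet
    obtain ⟨z, hz, hz', -, -⟩ := hmeet (by push_cast; linarith) (by push_cast; linarith)
      (by push_cast; linarith) le_rfl le_rfl (by push_cast; linarith) le_rfl
      (by
        rw [gk5_left (by push_cast; linarith) rfl, gk5_left (by push_cast; linarith) rfl]
        push_cast
        linarith [(h01 (4 * b, p + 1, 0)).2, (h01 (4 * b, p + 2, 0)).1])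
      (by
        rw [gk5_right (by push_cast; linarith) rfl, gk5_mid (by push_cast; ring)
          (by push_cast; ring)]
        linarith)
    obtain ⟨v, hv, hv', -⟩ := hE _ hX _ hF (by simp) z
      (by dsimp only; rw [gk5_pt (by norm_num), gk5_pt (by norm_num)]; exact hz)
      (by dsimp only; rw [gk5_pt (by norm_num), gk5_pt (by norm_num)]; exact hz')
    dsimp only at hv hv'
    rcases hv with rfl | rfl <;> simp at hv'
  · by_contra hc
    rw [not_lt] at hc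
    have hmeet := seg_meet (A := ptOf h (4 * b + 1, p, 0)) (B := ptOf h (4 * b + 1 + 1, p + 1, 0))
      (C := ptOf h (4 * b, p + 1, 0)) (D := ptOf h (4 * b + 2, p + 1, 1))
      (s := 2 * ((4 * b + 1 : ℕ) : ℝ)) (t := 2 * ((4 * b + 1 + 1 : ℕ) : ℝ))
    rw [gk5_pt (by norm_num), gk5_pt (by norm_num), gk5_pt (by norm_num), gk5_pt (by norm_num)]
      at hmeet
    obtain ⟨z, hz, hz', -, -⟩ := hmeet (by push_cast; linarith) (by push_cast; linarith)
      (by push_cast; linarith) le_rfl (by push_cast; linarith) le_rfl (by push_cast; linarith)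
      (by
        rw [gk5_left (by push_cast; linarith) rfl, gk5_mid (by push_cast; ring)
          (by push_cast; ring)]
        push_cast
        linarith [(h01 (4 * b + 1, p, 0)).2, (h01 (4 * b, p + 1, 0)).1,
          (h01 (4 * b + 2, p + 1, 1)).1])
      (by
        rw [gk5_right (by push_cast; linarith) rfl, gk5_right (by push_cast; linarith) rfl]
        linarith)
    obtain ⟨v, hv, hv', -⟩ := hE _ hG _ hX (by simp) z
      (by dsimp only; rw [gk5_pt (by norm_num), gk5_pt (by norm_num)]; exact hz)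
      (by dsimp only; rw [gk5_pt (by norm_num), gk5_pt (by norm_num)]; exact hz')
    dsimp only at hv hv'
    rcases hv with rfl | rfl
    · simp at hv'
    · simp at hv'
      omega

end Pool.Agent.H77.SG
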