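import Pool.Agent.H77.SG.GE1

/-!
# The gate of kind 6

Notation: `p = I.2.1`, `t = 4 b + 2`, `k = p + 1`. The gate edges are: the bottom wire
`(t-2, p) - (t-1, p) - c` with `c = (t, k; 2)` at the point `(2 t + 2 r, 16 k + 4 r)`, the middle wire
`(t-2, k) - (t-1, k) - (t, k; 0) = a`, the edge from `a` to `(t+1, k; 1) = b'`, and the top wire
`(t-2, k+1) - (t-1, k+1) - (t, k+1) - (t+1, k; 0)`. The two extra edges are `(t-1, p) - c` and
`a - b'`. The additional obstacle is the segment from `(2 t, 16 k - 4)` to `(2 t, 16 k)`. All other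
ordinary edges in the first three strips are in slots `< p` or `≥ p + 3` at both ends.

In the coordinates `((X - 2 t) / 2, (Y - 16 k) / 4)` the edge `(t-1, p) - c` goes from
`(-1, u - 4)` to `(r, r)` and the edge `a - b'` from `(0, ha)` to `(1, hb)`, with `u, ha, hb` in the
unit interval (note: `16` per slot is `4` in these coordinates). On the line `X = 2 t` the first one is
at the height `u - 4 + (r + 4 - u) / (1 + r)`; this is `< - 1` iff `1 < r (2 - u)`, and it is always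
`< 0`, since it equals `- r (3 - u) / (1 + r)`. All points of this edge are at heights between `16 p`
and `16 k + 4`. The point `c` is strictly below the edge `a - b'` iff `r < ha + (hb - ha) r`.

PROOFS. As for the gates of kinds 3, 4, 5 (see `GK3.lean`). `px6`: the ordinary edges which are
close are the two parts of the middle wire (above the edge `(t-1, p) - c`), the top wire (above
everything, its last part ends above `b'` by `extraOK`) and the first part of the bottom wire, which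
ends at `(t-1, p)`. `xx6`: the two extra edges are disjoint (`seg_disj` on the interval from `2 t` to
`2 t + 2 r`). `xw6`: the obstacles of ordinary edges; the edge `(t-1, p) - c` is on the line
`X = 2 t - 1` at a height between `16 p` and `16 k - 4` (no ordinary edge of that strip has `i + j`
in the corresponding range) and on the line `X = 2 t + 1` in the slot `k` (if it reaches it).
`ow6`: the additional obstacle. `xs6`: soundness.
-/

set_option autoImplicit false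

namespace Pool.Agent.H77.SG

theorem gK6_pt0 (h : ℕ × ℕ × ℕ → ℝ) (T k : ℕ) :
    ptOf h (T, k, 0) = (2 * (T : ℝ), 16 * (k : ℝ) + 4 * h (T, k, 0)) := by
  simp [ptOf]

theorem gK6_pt1 (h : ℕ × ℕ × ℕ → ℝ) (T k : ℕ) :
    ptOf h (T, k, 1) = (2 * (T : ℝ), 16 * (k : ℝ) + 4 * h (T, k, 1)) := by
  simp [ptOf]

theorem gK6_pt2 (h : ℕ × ℕ × ℕ → ℝ) (T k : ℕ) :
    ptOf h (T, k, 2) = (2 * (T : ℝ) + 2 * h (T, k, 2), 16 * (k : ℝ) + 4 * h (T, k, 2)) := by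
  simp [ptOf]

/-- The slots of two heights in the open unit interval are determined. -/
theorem gK6_slot {i j : ℕ} {a c : ℝ} (ha : 0 < a ∧ a < 1) (hc : 0 < c ∧ c < 1)
    (h : 16 * (i : ℝ) + 4 * a = 16 * (j : ℝ) + 4 * c) : i = j := by
  rcases Nat.lt_trichotomy i j with hij | hij | hij
  · exfalso
    have : (i : ℝ) + 1 ≤ j := by exact_mod_cast hij
    linarith [ha.1, ha.2, hc.1, hc.2]
  · exact hij
  · exfalso
    have : (j : ℝ) + 1 ≤ i := by exact_mod_cast hij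
    linarith [ha.1, ha.2, hc.1, hc.2]

/-- The ordinary edges of a block of kind 6. -/
theorem gK6_mem {b : ℕ} {S : List Bool} {I : ℕ × ℕ × ℕ × List Bool} (hk : I.1 = 6)
    {q : ℕ × ℕ × ℕ × Bool} (hq : q ∈ bP b S I) :
    (∃ k, k < S.length ∧ q = (4 * b, k, k, q.2.2.2)) ∨
    (∃ k, k < S.length ∧ k ≠ I.2.1 ∧ q = (4 * b + 1, k, k, q.2.2.2)) ∨
    (∃ k, k < S.length ∧ k ≠ I.2.1 ∧ k ≠ I.2.1 + 1 ∧ k ≠ I.2.1 + 2 ∧
      q = (4 * b + 2, k, k, q.2.2.2)) ∨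
    (q = (4 * b + 2, I.2.1 + 2, I.2.1 + 1, q.2.2.2)) ∨
    (∃ k j, (k < I.2.1 ∨ I.2.1 + 3 ≤ k) ∧ q = (4 * b + 3, k, j, q.2.2.2)) := by
  rcases mem_bP.1 hq with h | ⟨l, k, hl, hkS, -, hh, hqe⟩
  · have := h.1
    omega
  · have hq2 : q.2.2.2 = sgn I.1 I.2.1 S l k := by rw [hqe]
    have hqe' : q = (4 * b + l, k, tgt I.1 I.2.1 I.2.2.2.length l k, q.2.2.2) := by
      rw [hq2]; exact hqe
    rw [hk] at hh hqe'
    interval_cases l
    · left
      simp only [has, tgt] at hh hqe'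
      norm_num at hh hqe'
      exact ⟨k, hh, hqe'⟩
    · right; left
      simp only [has, tgt] at hh hqe'
      norm_num at hh hqe'
      exact ⟨k, hh.1, hh.2, hqe'⟩
    · right; right
      simp only [has, tgt] at hh hqe'
      norm_num at hh hqe'
      by_cases hk2 : k = I.2.1 + 2
      · right; left
        rw [if_pos hk2, hk2] at hqe'
        exact hqe'
      · left
        rw [if_neg hk2] at hqe'
        exact ⟨k, hh.1.1, hh.1.2, hh.2, hk2, hqe'⟩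
    · right; right; right; right
      simp only [has] at hh
      norm_num at hh
      exact ⟨k, _, by omega, hqe'⟩

section
variable {b p : ℕ} {u r : ℝ}

/-- The height of the edge `(t-1, p) - c` on the line `X = 2 t`. -/
theorem gK6_mid (hr : 1 / 2 ≤ r ∧ r ≤ 1) :
    lineAt (2 * ((4 * b + 1 : ℕ) : ℝ), 16 * (p : ℝ) + 4 * u)
      (2 * ((4 * b + 2 : ℕ) : ℝ) + 2 * r, 16 * ((p + 1 : ℕ) : ℝ) + 4 * r)
      (8 * (b : ℝ) + 4) = 16 * (p : ℝ) + 4 * u + (16 + 4 * r - 4 * u) * (1 / (1 + r)) := by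
  have h1 : (1 + r) ≠ 0 := by linarith [hr.1]
  unfold lineAt
  push_cast
  have h2 : (8 * (b : ℝ) + 4 - 2 * (4 * b + 1)) / (2 * (4 * b + 2) + 2 * r - 2 * (4 * b + 1)) =
      1 / (1 + r) := by
    rw [show (8 * (b : ℝ) + 4 - 2 * (4 * b + 1)) = 2 * 1 by ring,
      show (2 * (4 * (b : ℝ) + 2) + 2 * r - 2 * (4 * b + 1)) = 2 * (1 + r) by ring]
    rw [mul_div_mul_left _ _ (by norm_num : (2 : ℝ) ≠ 0)]
  rw [h2]
  ring

theorem gK6_mid_lt (hr : 1 / 2 ≤ r ∧ r ≤ 1) (h : 1 < r * (2 - u)) :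
    16 * (p : ℝ) + 4 * u + (16 + 4 * r - 4 * u) * (1 / (1 + r)) < 16 * (p : ℝ) + 12 := by
  have h1 : 0 < 1 + r := by linarith [hr.1]
  have h2 : (16 + 4 * r - 4 * u) * (1 / (1 + r)) < 12 - 4 * u := by
    rw [mul_one_div, div_lt_iff₀ h1]
    nlinarith
  linarith

theorem gK6_mid_le (hu : 0 ≤ u ∧ u ≤ 1) (hr : 1 / 2 ≤ r ∧ r ≤ 1) :
    16 * (p : ℝ) + 4 * u + (16 + 4 * r - 4 * u) * (1 / (1 + r)) < 16 * (p : ℝ) + 16 := by
  have h1 : 0 < 1 + r := by linarith [hr.1]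
  have h2 : (16 + 4 * r - 4 * u) * (1 / (1 + r)) < 16 - 4 * u := by
    rw [mul_one_div, div_lt_iff₀ h1]
    nlinarith [hu.1, hu.2, hr.1, hr.2]
  linarith

theorem gK6_mid_gt (hr : 1 / 2 ≤ r ∧ r ≤ 1)
    (h : 16 * (p : ℝ) + 4 * u + (16 + 4 * r - 4 * u) * (1 / (1 + r)) < 16 * (p : ℝ) + 12) :
    1 < r * (2 - u) := by
  have h1 : 0 < 1 + r := by linarith [hr.1]
  have h2 : (16 + 4 * r - 4 * u) * (1 / (1 + r)) < 12 - 4 * u := by linarith
  rw [mul_one_div, div_lt_iff₀ h1] at h2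
  nlinarith

end

theorem gK6_cast1 (b : ℕ) : ((4 * b + 1 : ℕ) : ℝ) = 4 * (b : ℝ) + 1 := by push_cast; ring
theorem gK6_cast2 (b : ℕ) : ((4 * b + 2 : ℕ) : ℝ) = 4 * (b : ℝ) + 2 := by push_cast; ring
theorem gK6_cast3 (b : ℕ) : ((4 * b + 3 : ℕ) : ℝ) = 4 * (b : ℝ) + 3 := by push_cast; ring

theorem gK6_left {x y x' y' : ℝ} (h : x < x') : lineAt (x, y) (x', y') x = y :=
  lineAt_left (A := (x, y)) (B := (x', y')) h

theorem gK6_right {x y x' y' : ℝ} (h : x < x') : lineAt (x, y) (x', y') x' = y' :=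
  lineAt_right (A := (x, y)) (B := (x', y')) h

theorem gK6_leftX {x y x' y' X : ℝ} (h : x < x') (hX : X = x) :
    lineAt (x, y) (x', y') X = y := by
  rw [hX]; exact gK6_left h

theorem gK6_rightX {x y x' y' X : ℝ} (h : x < x') (hX : X = x') :
    lineAt (x, y) (x', y') X = y' := by
  rw [hX]; exact gK6_right h

theorem gK6_seg {x y x' y' : ℝ} (h : x < x') {z : ℝ × ℝ}
    (hz : z ∈ segment ℝ ((x, y) : ℝ × ℝ) (x', y')) :
    x ≤ z.1 ∧ z.1 ≤ x' ∧ z.2 = lineAt (x, y) (x', y') z.1 :=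
  (mem_seg_iff (A := (x, y)) (B := (x', y')) h z).1 hz

theorem gK6_disj {x y x' y' X Y X' Y' s t : ℝ} (h : x < x') (h' : X < X') {z : ℝ × ℝ}
    (hz : z ∈ segment ℝ ((x, y) : ℝ × ℝ) (x', y')) (hz' : z ∈ segment ℝ ((X, Y) : ℝ × ℝ) (X', Y'))
    (hs : lineAt (x, y) (x', y') s < lineAt (X, Y) (X', Y') s)
    (ht : lineAt (x, y) (x', y') t < lineAt (X, Y) (X', Y') t) (h1 : s ≤ z.1) (h2 : z.1 ≤ t) :
    False :=
  seg_disj (A := (x, y)) (B := (x', y')) (C := (X, Y)) (D := (X', Y')) h h' hs ht hz hz' h1 h2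

theorem gK6_bd {x y x' y' lo hi : ℝ} {z : ℝ × ℝ}
    (hz : z ∈ segment ℝ ((x, y) : ℝ × ℝ) (x', y')) (h1 : lo ≤ y) (h2 : lo ≤ y') (h3 : y ≤ hi)
    (h4 : y' ≤ hi) : lo ≤ z.2 ∧ z.2 ≤ hi :=
  seg_bounds (A := (x, y)) (B := (x', y')) hz h1 h2 h3 h4

/-- The conditions of a block of kind 6. -/
theorem gK6_cond {b : ℕ} {S : List Bool} {I : ℕ × ℕ × ℕ × List Bool} (hk : I.1 = 6)
    {h : ℕ × ℕ × ℕ → ℝ} (hB : blkOK h (b, S, I)) :
    1 < h (4 * b + 2, I.2.1 + 1, 2) * (2 - h (4 * b + 1, I.2.1, 0)) ∧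
      h (4 * b + 2, I.2.1 + 1, 2) < h (4 * b + 2, I.2.1 + 1, 0) +
        (h (4 * b + 3, I.2.1 + 1, 1) - h (4 * b + 2, I.2.1 + 1, 0)) *
          h (4 * b + 2, I.2.1 + 1, 2) ∧
      h (4 * b + 3, I.2.1 + 1, 1) < h (4 * b + 3, I.2.1 + 1, 0) := by
  have h1 := hB.2
  simp only [extraOK, hk] at h1
  norm_num at h1
  exact h1

theorem gK6_half {b : ℕ} {S : List Bool} {I : ℕ × ℕ × ℕ × List Bool} (hk : I.1 = 6)
    {h : ℕ × ℕ × ℕ → ℝ} (h01 : ∀ v, 0 < h v ∧ h v < 1) (hB : blkOK h (b, S, I)) :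
    1 / 2 < h (4 * b + 2, I.2.1 + 1, 2) := by
  have h1 := (gK6_cond hk hB).1
  have h2 := h01 (4 * b + 1, I.2.1, 0)
  have h3 := h01 (4 * b + 2, I.2.1 + 1, 2)
  nlinarith [h2.1, h2.2, h3.1, h3.2]

theorem gK6_X {b : ℕ} {I : ℕ × ℕ × ℕ × List Bool} (hk : I.1 = 6)
    {e : (ℕ × ℕ × ℕ) × (ℕ × ℕ × ℕ)} (he : e ∈ bX b I) :
    e = ((4 * b + 1, I.2.1, 0), (4 * b + 2, I.2.1 + 1, 2)) ∨
      e = ((4 * b + 2, I.2.1 + 1, 0), (4 * b + 3, I.2.1 + 1, 1)) := by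
  simp only [bX, hk] at he
  norm_num at he
  exact he

/-- The edge `(t-1, p) - c` against an ordinary edge. -/
theorem gK6_px1 {b : ℕ} {S : List Bool} {I : ℕ × ℕ × ℕ × List Bool} (hk : I.1 = 6)
    {h : ℕ × ℕ × ℕ → ℝ} (h01 : ∀ v, 0 < h v ∧ h v < 1) (hB : blkOK h (b, S, I))
    {q : ℕ × ℕ × ℕ × Bool} (hq : q ∈ bP b S I) {z : ℝ × ℝ}
    (hz : z ∈ segment ℝ (ptOf h (q.1, q.2.1, 0)) (ptOf h (q.1 + 1, q.2.2.1, 0)))
    (hz' : z ∈ segment ℝ (ptOf h (4 * b + 1, I.2.1, 0)) (ptOf h (4 * b + 2, I.2.1 + 1, 2))) :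
    q.1 + 1 = 4 * b + 1 ∧ q.2.2.1 = I.2.1 ∧ z = ptOf h (4 * b + 1, I.2.1, 0) := by
  obtain ⟨c1, c2, c3⟩ := gK6_cond hk hB
  have hr0 := gK6_half hk h01 hB
  set r := h (4 * b + 2, I.2.1 + 1, 2) with hr
  set u := h (4 * b + 1, I.2.1, 0) with hu
  set p := I.2.1 with hp
  have hr1 : r < 1 := (h01 _).2
  have hu1 : 0 < u ∧ u < 1 := h01 _
  rw [gK6_pt0, gK6_pt2, ← hr, ← hu] at hz'
  have hzb := gK6_bd (lo := 16 * (p : ℝ) + 4 * u) (hi := 16 * (p : ℝ) + 16 + 4 * r) hz' le_rfl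
    (by push_cast; linarith [hu1.2]) (by linarith [hu1.2]) (by push_cast; linarith)
  have hlt : (2 * ((4 * b + 1 : ℕ) : ℝ)) < 2 * ((4 * b + 2 : ℕ) : ℝ) + 2 * r := by
    rw [gK6_cast1, gK6_cast2]; linarith
  have hm := gK6_seg hlt hz'
  have hm1 : 2 * (4 * (b : ℝ) + 1) ≤ z.1 := by have := hm.1; rwa [gK6_cast1] at this
  have hm2 : z.1 ≤ 2 * (4 * (b : ℝ) + 2) + 2 * r := by have := hm.2.1; rwa [gK6_cast2] at this
  have hmid := gK6_mid (b := b) (p := p) (u := u) (r := r) ⟨hr0.le, hr1.le⟩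
  have hmid2 := gK6_mid_lt (p := p) (u := u) (r := r) ⟨hr0.le, hr1.le⟩ c1
  rcases gK6_mem hk hq with ⟨k, hkS, hqe⟩ | ⟨k, hkS, hkp, hqe⟩ | ⟨k, hkS, hk1, hk2, hk3, hqe⟩ |
    hqe | ⟨k, j, hkj, hqe⟩
  · -- first strip
    have e1 : q.1 = 4 * b := congrArg Prod.fst hqe
    have e2 : q.2.1 = k := congrArg (fun x => x.2.1) hqe
    have e3 : q.2.2.1 = k := congrArg (fun x => x.2.2.1) hqe
    rw [e1, e2, e3, gK6_pt0, gK6_pt0] at hz
    have hlt2 : (2 * ((4 * b : ℕ) : ℝ)) < 2 * ((4 * b + 1 : ℕ) : ℝ) := by push_cast; linarith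
    have hn := gK6_seg hlt2 hz
    have hz1 : z.1 = 2 * ((4 * b + 1 : ℕ) : ℝ) := le_antisymm hn.2.1 hm.1
    have hz2 : z.2 = 16 * (p : ℝ) + 4 * u := by
      rw [hm.2.2, hz1]
      exact gK6_left hlt
    have hz3 : z.2 = 16 * (k : ℝ) + 4 * h (4 * b + 1, k, 0) := by
      rw [hn.2.2, hz1]
      exact gK6_right hlt2
    have hkp : k = p := gK6_slot (h01 _) hu1 (hz3.symm.trans hz2)
    refine ⟨by rw [e1], by rw [e3, hkp], ?_⟩
    rw [gK6_pt0]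
    exact Prod.ext hz1 hz2
  · exfalso
    have e1 : q.1 = 4 * b + 1 := congrArg Prod.fst hqe
    have e2 : q.2.1 = k := congrArg (fun x => x.2.1) hqe
    have e3 : q.2.2.1 = k := congrArg (fun x => x.2.2.1) hqe
    rw [e1, e2, e3, gK6_pt0, gK6_pt0] at hz
    have g0 := h01 (4 * b + 1, k, 0)
    have g1 := h01 (4 * b + 1 + 1, k, 0)
    have hb2 := gK6_bd (lo := 16 * (k : ℝ)) (hi := 16 * (k : ℝ) + 4) hz
      (by linarith [g0.1]) (by linarith [g1.1]) (by linarith [g0.2]) (by linarith [g1.2])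
    rcases Nat.lt_or_ge k p with hlt' | hge
    · have : (k : ℝ) + 1 ≤ p := by exact_mod_cast hlt'
      linarith [hzb.1, hb2.2, hu1.1]
    · rcases eq_or_lt_of_le (show p + 1 ≤ k by omega) with heq | hgt
      · -- k = p + 1
        subst heq
        have hlt2 : (2 * ((4 * b + 1 : ℕ) : ℝ)) < 2 * ((4 * b + 1 + 1 : ℕ) : ℝ) := by
          push_cast; linarith
        have hn := gK6_seg hlt2 hz
        refine gK6_disj (s := 2 * ((4 * b + 1 : ℕ) : ℝ)) (t := 8 * (b : ℝ) + 4) hlt hlt2 hz' hz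
          ?_ ?_ hm.1 ?_
        · rw [gK6_left hlt, gK6_left hlt2]
          push_cast
          linarith [hu1.2, g0.1]
        · have a3 : (2 * ((4 * b + 1 + 1 : ℕ) : ℝ)) = 8 * (b : ℝ) + 4 := by push_cast; ring
          rw [gK6_rightX hlt2 a3.symm, hmid]
          push_cast
          linarith [g1.1]
        · have := hn.2.1
          push_cast at this
          linarith
      · have : (p : ℝ) + 1 + 1 ≤ k := by exact_mod_cast hgt
        linarith [hzb.2, hb2.1]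
  · exfalso
    have e1 : q.1 = 4 * b + 2 := congrArg Prod.fst hqe
    have e2 : q.2.1 = k := congrArg (fun x => x.2.1) hqe
    have e3 : q.2.2.1 = k := congrArg (fun x => x.2.2.1) hqe
    rw [e1, e2, e3, gK6_pt0, gK6_pt0] at hz
    have g0 := h01 (4 * b + 2, k, 0)
    have g1 := h01 (4 * b + 2 + 1, k, 0)
    have hb2 := gK6_bd (lo := 16 * (k : ℝ)) (hi := 16 * (k : ℝ) + 4) hz
      (by linarith [g0.1]) (by linarith [g1.1]) (by linarith [g0.2]) (by linarith [g1.2])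
    rcases Nat.lt_or_ge k p with hlt' | hge
    · have : (k : ℝ) + 1 ≤ p := by exact_mod_cast hlt'
      linarith [hzb.1, hb2.2, hu1.1]
    · have : (p : ℝ) + 3 ≤ k := by exact_mod_cast (show p + 3 ≤ k by omega)
      linarith [hzb.2, hb2.1]
  · exfalso
    have e1 : q.1 = 4 * b + 2 := congrArg Prod.fst hqe
    have e2 : q.2.1 = p + 2 := congrArg (fun x => x.2.1) hqe
    have e3 : q.2.2.1 = p + 1 := congrArg (fun x => x.2.2.1) hqe
    rw [e1, e2, e3, gK6_pt0, gK6_pt0] at hz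
    have g0 := h01 (4 * b + 2, p + 2, 0)
    have g1 := h01 (4 * b + 2 + 1, p + 1, 0)
    have hlt2 : (2 * ((4 * b + 2 : ℕ) : ℝ)) < 2 * ((4 * b + 2 + 1 : ℕ) : ℝ) := by
      push_cast; linarith
    have hn := gK6_seg hlt2 hz
    refine gK6_disj (s := 8 * (b : ℝ) + 4) (t := 2 * ((4 * b + 2 : ℕ) : ℝ) + 2 * r) hlt hlt2
      hz' hz ?_ ?_ ?_ hm.2.1
    · have a3 : (2 * ((4 * b + 2 : ℕ) : ℝ)) = 8 * (b : ℝ) + 4 := by push_cast; ring
      rw [hmid, gK6_leftX hlt2 a3.symm]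
      push_cast
      linarith [g0.1]
    · rw [gK6_right hlt]
      unfold lineAt
      have a4 : (2 * ((4 * b + 2 : ℕ) : ℝ) + 2 * r - 2 * ((4 * b + 2 : ℕ) : ℝ)) /
          (2 * ((4 * b + 2 + 1 : ℕ) : ℝ) - 2 * ((4 * b + 2 : ℕ) : ℝ)) = r := by
        push_cast
        rw [show 2 * (4 * (b : ℝ) + 2) + 2 * r - 2 * (4 * b + 2) = 2 * r by ring,
          show 2 * (4 * (b : ℝ) + 2 + 1) - 2 * (4 * b + 2) = 2 * 1 by ring,
          mul_div_mul_left _ _ (by norm_num : (2 : ℝ) ≠ 0), div_one]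
      simp only
      rw [a4]
      push_cast
      have c4 : r < h (4 * b + 2, p + 1, 0) * (1 - r) + h (4 * b + 3, p + 1, 1) * r := by linarith
      have c5 : h (4 * b + 2, p + 1, 0) * (1 - r) ≤ 1 * (1 - r) :=
        mul_le_mul_of_nonneg_right (h01 _).2.le (by linarith)
      have c6 : h (4 * b + 3, p + 1, 1) * r ≤ h (4 * b + 2 + 1, p + 1, 0) * r :=
        mul_le_mul_of_nonneg_right c3.le (by linarith)
      have c7 : 0 ≤ h (4 * b + 2, p + 2, 0) * (1 - r) := mul_nonneg g0.1.le (by linarith)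
      nlinarith
    · have := hn.1
      push_cast at this
      linarith
  · exfalso
    have e1 : q.1 = 4 * b + 3 := congrArg Prod.fst hqe
    rw [e1, gK6_pt0, gK6_pt0] at hz
    have hlt2 : (2 * ((4 * b + 3 : ℕ) : ℝ)) < 2 * ((4 * b + 3 + 1 : ℕ) : ℝ) := by
      push_cast; linarith
    have hn := gK6_seg hlt2 hz
    have := hn.1
    rw [gK6_cast3] at this
    linarith

/-- The edge `a - b'` against an ordinary edge. -/
theorem gK6_px2 {b : ℕ} {S : List Bool} {I : ℕ × ℕ × ℕ × List Bool} (hk : I.1 = 6)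
    {h : ℕ × ℕ × ℕ → ℝ} (h01 : ∀ v, 0 < h v ∧ h v < 1) (hB : blkOK h (b, S, I))
    {q : ℕ × ℕ × ℕ × Bool} (hq : q ∈ bP b S I) {z : ℝ × ℝ}
    (hz : z ∈ segment ℝ (ptOf h (q.1, q.2.1, 0)) (ptOf h (q.1 + 1, q.2.2.1, 0)))
    (hz' : z ∈ segment ℝ (ptOf h (4 * b + 2, I.2.1 + 1, 0)) (ptOf h (4 * b + 3, I.2.1 + 1, 1))) :
    q.1 + 1 = 4 * b + 2 ∧ q.2.2.1 = I.2.1 + 1 ∧ z = ptOf h (4 * b + 2, I.2.1 + 1, 0) := by
  obtain ⟨c1, c2, c3⟩ := gK6_cond hk hB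
  set a := h (4 * b + 2, I.2.1 + 1, 0) with ha
  set c := h (4 * b + 3, I.2.1 + 1, 1) with hc
  set p := I.2.1 with hp
  have ha1 : 0 < a ∧ a < 1 := h01 _
  have hc1 : 0 < c ∧ c < 1 := h01 _
  rw [gK6_pt0, gK6_pt1, ← ha, ← hc] at hz'
  have hzb := gK6_bd (lo := 16 * (p : ℝ) + 16) (hi := 16 * (p : ℝ) + 20) hz'
    (by push_cast; linarith [ha1.1]) (by push_cast; linarith [hc1.1])
    (by push_cast; linarith [ha1.2]) (by push_cast; linarith [hc1.2])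
  have hlt : (2 * ((4 * b + 2 : ℕ) : ℝ)) < 2 * ((4 * b + 3 : ℕ) : ℝ) := by
    rw [gK6_cast2, gK6_cast3]; linarith
  have hm := gK6_seg hlt hz'
  have hm1 : 2 * (4 * (b : ℝ) + 2) ≤ z.1 := by have := hm.1; rwa [gK6_cast2] at this
  have hm2 : z.1 ≤ 2 * (4 * (b : ℝ) + 3) := by have := hm.2.1; rwa [gK6_cast3] at this
  rcases gK6_mem hk hq with ⟨k, hkS, hqe⟩ | ⟨k, hkS, hkp, hqe⟩ | ⟨k, hkS, hk1, hk2, hk3, hqe⟩ |
    hqe | ⟨k, j, hkj, hqe⟩
  · exfalso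
    have e1 : q.1 = 4 * b := congrArg Prod.fst hqe
    rw [e1, gK6_pt0, gK6_pt0] at hz
    have hlt2 : (2 * ((4 * b : ℕ) : ℝ)) < 2 * ((4 * b + 1 : ℕ) : ℝ) := by push_cast; linarith
    have hn := (gK6_seg hlt2 hz).2.1
    rw [gK6_cast1] at hn
    linarith
  · have e1 : q.1 = 4 * b + 1 := congrArg Prod.fst hqe
    have e2 : q.2.1 = k := congrArg (fun x => x.2.1) hqe
    have e3 : q.2.2.1 = k := congrArg (fun x => x.2.2.1) hqe
    rw [e1, e2, e3, gK6_pt0, gK6_pt0] at hz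
    have hlt2 : (2 * ((4 * b + 1 : ℕ) : ℝ)) < 2 * ((4 * b + 1 + 1 : ℕ) : ℝ) := by
      push_cast; linarith
    have hn := gK6_seg hlt2 hz
    have hz1 : z.1 = 2 * ((4 * b + 2 : ℕ) : ℝ) := le_antisymm hn.2.1 hm.1
    have hz2 : z.2 = 16 * ((p + 1 : ℕ) : ℝ) + 4 * a := by
      rw [hm.2.2, hz1]
      exact gK6_left hlt
    have hz3 : z.2 = 16 * (k : ℝ) + 4 * h (4 * b + 1 + 1, k, 0) := by
      rw [hn.2.2, hz1]
      exact gK6_right hlt2
    have hkp : k = p + 1 := gK6_slot (h01 _) ha1 (hz3.symm.trans hz2)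
    refine ⟨by rw [e1], by rw [e3, hkp], ?_⟩
    rw [gK6_pt0]
    exact Prod.ext hz1 hz2
  · exfalso
    have e1 : q.1 = 4 * b + 2 := congrArg Prod.fst hqe
    have e2 : q.2.1 = k := congrArg (fun x => x.2.1) hqe
    have e3 : q.2.2.1 = k := congrArg (fun x => x.2.2.1) hqe
    rw [e1, e2, e3, gK6_pt0, gK6_pt0] at hz
    have g0 := h01 (4 * b + 2, k, 0)
    have g1 := h01 (4 * b + 2 + 1, k, 0)
    have hb2 := gK6_bd (lo := 16 * (k : ℝ)) (hi := 16 * (k : ℝ) + 4) hz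
      (by linarith [g0.1]) (by linarith [g1.1]) (by linarith [g0.2]) (by linarith [g1.2])
    rcases Nat.lt_or_ge k p with hlt' | hge
    · have : (k : ℝ) + 1 ≤ p := by exact_mod_cast hlt'
      linarith [hzb.1, hb2.2]
    · have : (p : ℝ) + 3 ≤ k := by exact_mod_cast (show p + 3 ≤ k by omega)
      linarith [hzb.2, hb2.1]
  · exfalso
    have e1 : q.1 = 4 * b + 2 := congrArg Prod.fst hqe
    have e2 : q.2.1 = p + 2 := congrArg (fun x => x.2.1) hqe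
    have e3 : q.2.2.1 = p + 1 := congrArg (fun x => x.2.2.1) hqe
    rw [e1, e2, e3, gK6_pt0, gK6_pt0] at hz
    have g0 := h01 (4 * b + 2, p + 2, 0)
    have hlt2 : (2 * ((4 * b + 2 : ℕ) : ℝ)) < 2 * ((4 * b + 2 + 1 : ℕ) : ℝ) := by
      push_cast; linarith
    refine gK6_disj (s := 2 * ((4 * b + 2 : ℕ) : ℝ)) (t := 2 * ((4 * b + 3 : ℕ) : ℝ)) hlt hlt2
      hz' hz ?_ ?_ hm.1 hm.2.1
    · rw [gK6_left hlt, gK6_left hlt2]
      push_cast
      linarith [g0.1, ha1.2]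
    · rw [gK6_right hlt, gK6_rightX hlt2 rfl]
      linarith
  · exfalso
    have e1 : q.1 = 4 * b + 3 := congrArg Prod.fst hqe
    have e2 : q.2.1 = k := congrArg (fun x => x.2.1) hqe
    have e3 : q.2.2.1 = j := congrArg (fun x => x.2.2.1) hqe
    rw [e1, e2, e3, gK6_pt0, gK6_pt0] at hz
    have hlt2 : (2 * ((4 * b + 3 : ℕ) : ℝ)) < 2 * ((4 * b + 3 + 1 : ℕ) : ℝ) := by
      push_cast; linarith
    have hn := gK6_seg hlt2 hz
    have hz1 : z.1 = 2 * ((4 * b + 3 : ℕ) : ℝ) := le_antisymm hm.2.1 hn.1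
    have hz2 : z.2 = 16 * ((p + 1 : ℕ) : ℝ) + 4 * c := by
      rw [hm.2.2, hz1]
      exact gK6_right hlt
    have hz3 : z.2 = 16 * (k : ℝ) + 4 * h (4 * b + 3, k, 0) := by
      rw [hn.2.2, hz1]
      exact gK6_left hlt2
    have hkp : k = p + 1 := gK6_slot (h01 _) hc1 (hz3.symm.trans hz2)
    omega

theorem px6 {b : ℕ} {S : List Bool} {I : ℕ × ℕ × ℕ × List Bool} (hI : WFI I S) (hk : I.1 = 6)
    {h : ℕ × ℕ × ℕ → ℝ} (h01 : ∀ v, 0 < h v ∧ h v < 1) (hB : blkOK h (b, S, I))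
    {q : ℕ × ℕ × ℕ × Bool} (hq : q ∈ bP b S I) {e : (ℕ × ℕ × ℕ) × (ℕ × ℕ × ℕ)}
    (he : e ∈ bX b I) :
    ∀ z ∈ segment ℝ (ptOf h (q.1, q.2.1, 0)) (ptOf h (q.1 + 1, q.2.2.1, 0)),
      z ∈ segment ℝ (ptOf h e.1) (ptOf h e.2) →
      ∃ w : ℕ × ℕ × ℕ, (w = (q.1, q.2.1, 0) ∨ w = (q.1 + 1, q.2.2.1, 0)) ∧
        (w = e.1 ∨ w = e.2) ∧ z = ptOf h w := by
  intro z hz hz'
  rcases gK6_X hk he with he1 | he1
  · rw [he1] at hz' ⊢
    obtain ⟨h1, h2, h3⟩ := gK6_px1 hk h01 hB hq hz hz'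
    exact ⟨(4 * b + 1, I.2.1, 0), Or.inr (by rw [h1, h2]), Or.inl rfl, h3⟩
  · rw [he1] at hz' ⊢
    obtain ⟨h1, h2, h3⟩ := gK6_px2 hk h01 hB hq hz hz'
    exact ⟨(4 * b + 2, I.2.1 + 1, 0), Or.inr (by rw [h1, h2]), Or.inl rfl, h3⟩

/-- The height of the edge `a - b'` above `c`. -/
theorem gK6_at (b p : ℕ) (a c r : ℝ) :
    lineAt (2 * ((4 * b + 2 : ℕ) : ℝ), 16 * ((p + 1 : ℕ) : ℝ) + 4 * a)
      (2 * ((4 * b + 3 : ℕ) : ℝ), 16 * ((p + 1 : ℕ) : ℝ) + 4 * c)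
      (2 * ((4 * b + 2 : ℕ) : ℝ) + 2 * r) = 16 * ((p + 1 : ℕ) : ℝ) + 4 * (a + (c - a) * r) := by
  unfold lineAt
  have a4 : (2 * ((4 * b + 2 : ℕ) : ℝ) + 2 * r - 2 * ((4 * b + 2 : ℕ) : ℝ)) /
      (2 * ((4 * b + 3 : ℕ) : ℝ) - 2 * ((4 * b + 2 : ℕ) : ℝ)) = r := by
    push_cast
    rw [show 2 * (4 * (b : ℝ) + 2) + 2 * r - 2 * (4 * b + 2) = 2 * r by ring,
      show 2 * (4 * (b : ℝ) + 3) - 2 * (4 * b + 2) = 2 * 1 by ring,
      mul_div_mul_left _ _ (by norm_num : (2 : ℝ) ≠ 0), div_one]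
  simp only
  rw [a4]
  ring

theorem gK6_xx {b : ℕ} {S : List Bool} {I : ℕ × ℕ × ℕ × List Bool} (hk : I.1 = 6)
    {h : ℕ × ℕ × ℕ → ℝ} (h01 : ∀ v, 0 < h v ∧ h v < 1) (hB : blkOK h (b, S, I)) {z : ℝ × ℝ}
    (hz : z ∈ segment ℝ (ptOf h (4 * b + 1, I.2.1, 0)) (ptOf h (4 * b + 2, I.2.1 + 1, 2)))
    (hz' : z ∈ segment ℝ (ptOf h (4 * b + 2, I.2.1 + 1, 0)) (ptOf h (4 * b + 3, I.2.1 + 1, 1))) :
    False := by
  obtain ⟨c1, c2, c3⟩ := gK6_cond hk hB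
  have hr0 := gK6_half hk h01 hB
  set r := h (4 * b + 2, I.2.1 + 1, 2) with hr
  set u := h (4 * b + 1, I.2.1, 0) with hu
  set a := h (4 * b + 2, I.2.1 + 1, 0) with ha
  set c := h (4 * b + 3, I.2.1 + 1, 1) with hc
  set p := I.2.1 with hp
  have hr1 : r < 1 := (h01 _).2
  have ha1 : 0 < a ∧ a < 1 := h01 _
  rw [gK6_pt0, gK6_pt2, ← hr, ← hu] at hz
  rw [gK6_pt0, gK6_pt1, ← ha, ← hc] at hz'
  have hlt : (2 * ((4 * b + 1 : ℕ) : ℝ)) < 2 * ((4 * b + 2 : ℕ) : ℝ) + 2 * r := by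
    rw [gK6_cast1, gK6_cast2]; linarith
  have hlt2 : (2 * ((4 * b + 2 : ℕ) : ℝ)) < 2 * ((4 * b + 3 : ℕ) : ℝ) := by
    rw [gK6_cast2, gK6_cast3]; linarith
  have hmid := gK6_mid (b := b) (p := p) (u := u) (r := r) ⟨hr0.le, hr1.le⟩
  have hmid2 := gK6_mid_lt (p := p) (u := u) (r := r) ⟨hr0.le, hr1.le⟩ c1
  have a3 : 8 * (b : ℝ) + 4 = 2 * ((4 * b + 2 : ℕ) : ℝ) := by push_cast; ring
  refine gK6_disj (s := 8 * (b : ℝ) + 4) (t := 2 * ((4 * b + 2 : ℕ) : ℝ) + 2 * r) hlt hlt2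
    hz hz' ?_ ?_ ?_ (gK6_seg hlt hz).2.1
  · rw [hmid, gK6_leftX hlt2 a3]
    push_cast
    linarith [ha1.1]
  · rw [gK6_right hlt, gK6_at]
    linarith
  · rw [a3]
    exact (gK6_seg hlt2 hz').1

theorem xx6 {b : ℕ} {S : List Bool} {I : ℕ × ℕ × ℕ × List Bool} (hI : WFI I S) (hk : I.1 = 6)
    {h : ℕ × ℕ × ℕ → ℝ} (h01 : ∀ v, 0 < h v ∧ h v < 1) (hB : blkOK h (b, S, I))
    {e f : (ℕ × ℕ × ℕ) × (ℕ × ℕ × ℕ)} (he : e ∈ bX b I) (hf : f ∈ bX b I) (hne : e ≠ f) :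
    ∀ z ∈ segment ℝ (ptOf h e.1) (ptOf h e.2), z ∉ segment ℝ (ptOf h f.1) (ptOf h f.2) := by
  intro z hz hz'
  rcases gK6_X hk he with he1 | he1 <;> rcases gK6_X hk hf with hf1 | hf1
  · exact hne (he1.trans hf1.symm)
  · rw [he1] at hz
    rw [hf1] at hz'
    exact gK6_xx hk h01 hB hz hz'
  · rw [he1] at hz
    rw [hf1] at hz'
    exact gK6_xx hk h01 hB hz' hz
  · exact hne (he1.trans hf1.symm)

/-- Avoiding the obstacle of an ordinary edge. -/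
theorem gK6_wall (o : Bool) {q : ℕ × ℕ × ℕ × Bool} {A B : ℝ × ℝ}
    (h : ∀ z ∈ segment ℝ A B, z.1 = 2 * (q.1 : ℝ) + 1 →
      z.2 < 8 * ((q.2.1 : ℝ) + q.2.2.1) ∨ 8 * ((q.2.1 : ℝ) + q.2.2.1) + 4 < z.2) :
    ∀ s ∈ pWall o q, Disjoint (segment ℝ A B) s.pts := by
  unfold pWall
  split_ifs with hl
  · rw [wallSeg_iff, Set.disjoint_left]
    intro z hz hz'
    push_cast at hz'
    rw [mem_vert (by linarith)] at hz'
    rcases h z hz hz'.1 with h1 | h1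
    · linarith [hz'.2.1]
    · linarith [hz'.2.2]
  · rw [wallSeg_iff, Set.disjoint_left]
    intro z hz hz'
    push_cast at hz'
    rw [mem_vert (by linarith)] at hz'
    rcases h z hz hz'.1 with h1 | h1
    · linarith [hz'.2.1]
    · linarith [hz'.2.2]

theorem gK6_xw1 {b : ℕ} {S : List Bool} {I : ℕ × ℕ × ℕ × List Bool} (hk : I.1 = 6)
    {h : ℕ × ℕ × ℕ → ℝ} (h01 : ∀ v, 0 < h v ∧ h v < 1) (hB : blkOK h (b, S, I))
    {q : ℕ × ℕ × ℕ × Bool} (hq : q ∈ bP b S I) {z : ℝ × ℝ}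
    (hz : z ∈ segment ℝ (ptOf h (4 * b + 1, I.2.1, 0)) (ptOf h (4 * b + 2, I.2.1 + 1, 2)))
    (hX : z.1 = 2 * (q.1 : ℝ) + 1) :
    z.2 < 8 * ((q.2.1 : ℝ) + q.2.2.1) ∨ 8 * ((q.2.1 : ℝ) + q.2.2.1) + 4 < z.2 := by
  obtain ⟨c1, c2, c3⟩ := gK6_cond hk hB
  have hr0 := gK6_half hk h01 hB
  set r := h (4 * b + 2, I.2.1 + 1, 2) with hr
  set u := h (4 * b + 1, I.2.1, 0) with hu
  set p := I.2.1 with hp
  have hr1 : r < 1 := (h01 _).2
  have hu1 : 0 < u ∧ u < 1 := h01 _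
  rw [gK6_pt0, gK6_pt2, ← hr, ← hu] at hz
  have hzb := gK6_bd (lo := 16 * (p : ℝ) + 4 * u) (hi := 16 * (p : ℝ) + 16 + 4 * r) hz le_rfl
    (by push_cast; linarith [hu1.2]) (by linarith [hu1.2]) (by push_cast; linarith)
  have hlt : (2 * ((4 * b + 1 : ℕ) : ℝ)) < 2 * ((4 * b + 2 : ℕ) : ℝ) + 2 * r := by
    rw [gK6_cast1, gK6_cast2]; linarith
  have hm := gK6_seg hlt hz
  have hm1 : 2 * (4 * (b : ℝ) + 1) ≤ z.1 := by have := hm.1; rwa [gK6_cast1] at this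
  have hm2 : z.1 ≤ 2 * (4 * (b : ℝ) + 2) + 2 * r := by have := hm.2.1; rwa [gK6_cast2] at this
  rcases gK6_mem hk hq with ⟨k, hkS, hqe⟩ | ⟨k, hkS, hkp, hqe⟩ | ⟨k, hkS, hk1, hk2, hk3, hqe⟩ |
    hqe | ⟨k, j, hkj, hqe⟩
  · exfalso
    have e1 : q.1 = 4 * b := congrArg Prod.fst hqe
    rw [e1] at hX
    push_cast at hX
    linarith
  · have e1 : q.1 = 4 * b + 1 := congrArg Prod.fst hqe
    have e2 : q.2.1 = k := congrArg (fun x => x.2.1) hqe
    have e3 : q.2.2.1 = k := congrArg (fun x => x.2.2.1) hqe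
    rw [e2, e3]
    rcases Nat.lt_or_ge k p with hlt' | hge
    · right
      have : (k : ℝ) + 1 ≤ p := by exact_mod_cast hlt'
      linarith [hzb.1, hu1.1]
    · left
      have hkr : (p : ℝ) + 1 ≤ k := by exact_mod_cast (show p + 1 ≤ k by omega)
      have hz2 : z.2 < 16 * (p : ℝ) + 16 := by
        rw [hm.2.2, hX, e1]
        unfold lineAt
        have a4 : (2 * ((4 * b + 1 : ℕ) : ℝ) + 1 - 2 * ((4 * b + 1 : ℕ) : ℝ)) /
            (2 * ((4 * b + 2 : ℕ) : ℝ) + 2 * r - 2 * ((4 * b + 1 : ℕ) : ℝ)) =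
              1 / (2 * (1 + r)) := by
          push_cast
          congr 1 <;> ring
        simp only
        rw [a4]
        push_cast
        have h1 : 0 < 2 * (1 + r) := by linarith
        have h2 : (16 * ((p : ℝ) + 1) + 4 * r - (16 * (p : ℝ) + 4 * u)) * (1 / (2 * (1 + r))) <
            16 - 4 * u := by
          rw [mul_one_div, div_lt_iff₀ h1]
          nlinarith [hu1.1, hu1.2, mul_pos (sub_pos.2 hu1.2) (sub_pos.2 hr1)]
        linarith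
      linarith
  · have e1 : q.1 = 4 * b + 2 := congrArg Prod.fst hqe
    have e2 : q.2.1 = k := congrArg (fun x => x.2.1) hqe
    have e3 : q.2.2.1 = k := congrArg (fun x => x.2.2.1) hqe
    rw [e2, e3]
    rcases Nat.lt_or_ge k p with hlt' | hge
    · right
      have : (k : ℝ) + 1 ≤ p := by exact_mod_cast hlt'
      linarith [hzb.1, hu1.1]
    · left
      have : (p : ℝ) + 3 ≤ k := by exact_mod_cast (show p + 3 ≤ k by omega)
      linarith [hzb.2]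
  · have e2 : q.2.1 = p + 2 := congrArg (fun x => x.2.1) hqe
    have e3 : q.2.2.1 = p + 1 := congrArg (fun x => x.2.2.1) hqe
    rw [e2, e3]
    left
    push_cast
    linarith [hzb.2]
  · exfalso
    have e1 : q.1 = 4 * b + 3 := congrArg Prod.fst hqe
    rw [e1] at hX
    push_cast at hX
    linarith

theorem gK6_xw2 {b : ℕ} {S : List Bool} {I : ℕ × ℕ × ℕ × List Bool} (hk : I.1 = 6)
    {h : ℕ × ℕ × ℕ → ℝ} (h01 : ∀ v, 0 < h v ∧ h v < 1)
    {q : ℕ × ℕ × ℕ × Bool} (hq : q ∈ bP b S I) {z : ℝ × ℝ}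
    (hz : z ∈ segment ℝ (ptOf h (4 * b + 2, I.2.1 + 1, 0)) (ptOf h (4 * b + 3, I.2.1 + 1, 1)))
    (hX : z.1 = 2 * (q.1 : ℝ) + 1) :
    z.2 < 8 * ((q.2.1 : ℝ) + q.2.2.1) ∨ 8 * ((q.2.1 : ℝ) + q.2.2.1) + 4 < z.2 := by
  set a := h (4 * b + 2, I.2.1 + 1, 0) with ha
  set c := h (4 * b + 3, I.2.1 + 1, 1) with hc
  set p := I.2.1 with hp
  have ha1 : 0 < a ∧ a < 1 := h01 _
  have hc1 : 0 < c ∧ c < 1 := h01 _
  rw [gK6_pt0, gK6_pt1, ← ha, ← hc] at hz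
  have hzb := gK6_bd (lo := 16 * (p : ℝ) + 16) (hi := 16 * (p : ℝ) + 20) hz
    (by push_cast; linarith [ha1.1]) (by push_cast; linarith [hc1.1])
    (by push_cast; linarith [ha1.2]) (by push_cast; linarith [hc1.2])
  have hlt : (2 * ((4 * b + 2 : ℕ) : ℝ)) < 2 * ((4 * b + 3 : ℕ) : ℝ) := by
    rw [gK6_cast2, gK6_cast3]; linarith
  have hm := gK6_seg hlt hz
  have hm1 : 2 * (4 * (b : ℝ) + 2) ≤ z.1 := by have := hm.1; rwa [gK6_cast2] at this
  have hm2 : z.1 ≤ 2 * (4 * (b : ℝ) + 3) := by have := hm.2.1; rwa [gK6_cast3] at this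
  rcases gK6_mem hk hq with ⟨k, hkS, hqe⟩ | ⟨k, hkS, hkp, hqe⟩ | ⟨k, hkS, hk1, hk2, hk3, hqe⟩ |
    hqe | ⟨k, j, hkj, hqe⟩
  · exfalso
    have e1 : q.1 = 4 * b := congrArg Prod.fst hqe
    rw [e1] at hX
    push_cast at hX
    linarith
  · exfalso
    have e1 : q.1 = 4 * b + 1 := congrArg Prod.fst hqe
    rw [e1] at hX
    push_cast at hX
    linarith
  · have e2 : q.2.1 = k := congrArg (fun x => x.2.1) hqe
    have e3 : q.2.2.1 = k := congrArg (fun x => x.2.2.1) hqe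
    rw [e2, e3]
    rcases Nat.lt_or_ge k p with hlt' | hge
    · right
      have : (k : ℝ) + 1 ≤ p := by exact_mod_cast hlt'
      linarith [hzb.1]
    · left
      have : (p : ℝ) + 3 ≤ k := by exact_mod_cast (show p + 3 ≤ k by omega)
      linarith [hzb.2]
  · have e2 : q.2.1 = p + 2 := congrArg (fun x => x.2.1) hqe
    have e3 : q.2.2.1 = p + 1 := congrArg (fun x => x.2.2.1) hqe
    rw [e2, e3]
    left
    push_cast
    linarith [hzb.2]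
  · exfalso
    have e1 : q.1 = 4 * b + 3 := congrArg Prod.fst hqe
    rw [e1] at hX
    push_cast at hX
    linarith

theorem xw6 (o : Bool) {b : ℕ} {S : List Bool} {I : ℕ × ℕ × ℕ × List Bool} (hI : WFI I S)
    (hk : I.1 = 6) {h : ℕ × ℕ × ℕ → ℝ} (h01 : ∀ v, 0 < h v ∧ h v < 1) (hB : blkOK h (b, S, I))
    {q : ℕ × ℕ × ℕ × Bool} (hq : q ∈ bP b S I) {e : (ℕ × ℕ × ℕ) × (ℕ × ℕ × ℕ)}
    (he : e ∈ bX b I) : ∀ s ∈ pWall o q, Disjoint (segment ℝ (ptOf h e.1) (ptOf h e.2)) s.pts := by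
  apply gK6_wall
  intro z hz hX
  rcases gK6_X hk he with he1 | he1
  · rw [he1] at hz
    exact gK6_xw1 hk h01 hB hq hz hX
  · rw [he1] at hz
    exact gK6_xw2 hk h01 hq hz hX

/-- The points of the edges on the line of the additional obstacle. -/
theorem gK6_ow {b : ℕ} {S : List Bool} {I : ℕ × ℕ × ℕ × List Bool}
    (hk : I.1 = 6) {h : ℕ × ℕ × ℕ → ℝ} (h01 : ∀ v, 0 < h v ∧ h v < 1) (hB : blkOK h (b, S, I))
    {e : (ℕ × ℕ × ℕ) × (ℕ × ℕ × ℕ)} (he : e ∈ bE b S I) {z : ℝ × ℝ}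
    (hz : z ∈ segment ℝ (ptOf h e.1) (ptOf h e.2)) (hX : z.1 = 8 * (b : ℝ) + 4) :
    z.2 < 16 * (I.2.1 : ℝ) + 12 ∨ 16 * (I.2.1 : ℝ) + 16 < z.2 := by
  obtain ⟨c1, c2, c3⟩ := gK6_cond hk hB
  have hr0 := gK6_half hk h01 hB
  unfold bE at he
  rw [List.mem_append, List.mem_map] at he
  rcases he with ⟨q, hq, rfl⟩ | he
  · rcases gK6_mem hk hq with ⟨k, hkS, hqe⟩ | ⟨k, hkS, hkp, hqe⟩ | ⟨k, hkS, hk1, hk2, hk3, hqe⟩ |
      hqe | ⟨k, j, hkj, hqe⟩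
    · exfalso
      have e1 : q.1 = 4 * b := congrArg Prod.fst hqe
      simp only at hz
      rw [e1, gK6_pt0, gK6_pt0] at hz
      have hlt2 : (2 * ((4 * b : ℕ) : ℝ)) < 2 * ((4 * b + 1 : ℕ) : ℝ) := by push_cast; linarith
      have hn := (gK6_seg hlt2 hz).2.1
      rw [gK6_cast1] at hn
      linarith
    · have e1 : q.1 = 4 * b + 1 := congrArg Prod.fst hqe
      have e2 : q.2.1 = k := congrArg (fun x => x.2.1) hqe
      have e3 : q.2.2.1 = k := congrArg (fun x => x.2.2.1) hqe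
      simp only at hz
      rw [e1, e2, e3, gK6_pt0, gK6_pt0] at hz
      have hlt2 : (2 * ((4 * b + 1 : ℕ) : ℝ)) < 2 * ((4 * b + 1 + 1 : ℕ) : ℝ) := by
        push_cast; linarith
      have hn := (gK6_seg hlt2 hz).2.2
      rw [gK6_rightX hlt2 (by rw [hX]; push_cast; ring)] at hn
      have g1 := h01 (4 * b + 1 + 1, k, 0)
      rcases Nat.lt_or_ge k I.2.1 with hlt' | hge
      · left
        have : (k : ℝ) + 1 ≤ I.2.1 := by exact_mod_cast hlt'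
        linarith [g1.2]
      · right
        have : (I.2.1 : ℝ) + 1 ≤ k := by exact_mod_cast (show I.2.1 + 1 ≤ k by omega)
        linarith [g1.1]
    · have e1 : q.1 = 4 * b + 2 := congrArg Prod.fst hqe
      have e2 : q.2.1 = k := congrArg (fun x => x.2.1) hqe
      have e3 : q.2.2.1 = k := congrArg (fun x => x.2.2.1) hqe
      simp only at hz
      rw [e1, e2, e3, gK6_pt0, gK6_pt0] at hz
      have hlt2 : (2 * ((4 * b + 2 : ℕ) : ℝ)) < 2 * ((4 * b + 2 + 1 : ℕ) : ℝ) := by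
        push_cast; linarith
      have hn := (gK6_seg hlt2 hz).2.2
      rw [gK6_leftX hlt2 (by rw [hX]; push_cast; ring)] at hn
      have g1 := h01 (4 * b + 2, k, 0)
      rcases Nat.lt_or_ge k I.2.1 with hlt' | hge
      · left
        have : (k : ℝ) + 1 ≤ I.2.1 := by exact_mod_cast hlt'
        linarith [g1.2]
      · right
        have : (I.2.1 : ℝ) + 1 ≤ k := by exact_mod_cast (show I.2.1 + 1 ≤ k by omega)
        linarith [g1.1]
    · have e1 : q.1 = 4 * b + 2 := congrArg Prod.fst hqe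
      have e2 : q.2.1 = I.2.1 + 2 := congrArg (fun x => x.2.1) hqe
      have e3 : q.2.2.1 = I.2.1 + 1 := congrArg (fun x => x.2.2.1) hqe
      simp only at hz
      rw [e1, e2, e3, gK6_pt0, gK6_pt0] at hz
      have hlt2 : (2 * ((4 * b + 2 : ℕ) : ℝ)) < 2 * ((4 * b + 2 + 1 : ℕ) : ℝ) := by
        push_cast; linarith
      have hn := (gK6_seg hlt2 hz).2.2
      rw [gK6_leftX hlt2 (by rw [hX]; push_cast; ring)] at hn
      have g1 := h01 (4 * b + 2, I.2.1 + 2, 0)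
      right
      push_cast at hn
      linarith [g1.1]
    · exfalso
      have e1 : q.1 = 4 * b + 3 := congrArg Prod.fst hqe
      simp only at hz
      rw [e1, gK6_pt0, gK6_pt0] at hz
      have hlt2 : (2 * ((4 * b + 3 : ℕ) : ℝ)) < 2 * ((4 * b + 3 + 1 : ℕ) : ℝ) := by
        push_cast; linarith
      have hn := (gK6_seg hlt2 hz).1
      rw [gK6_cast3] at hn
      linarith
  · rcases gK6_X hk he with he1 | he1
    · left
      rw [he1] at hz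
      simp only at hz
      set r := h (4 * b + 2, I.2.1 + 1, 2) with hr
      set u := h (4 * b + 1, I.2.1, 0) with hu
      have hr1 : r < 1 := (h01 _).2
      rw [gK6_pt0, gK6_pt2, ← hr, ← hu] at hz
      have hlt : (2 * ((4 * b + 1 : ℕ) : ℝ)) < 2 * ((4 * b + 2 : ℕ) : ℝ) + 2 * r := by
        rw [gK6_cast1, gK6_cast2]; linarith
      rw [(gK6_seg hlt hz).2.2, hX, gK6_mid ⟨hr0.le, hr1.le⟩]
      exact gK6_mid_lt ⟨hr0.le, hr1.le⟩ c1
    · right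
      rw [he1] at hz
      simp only at hz
      rw [gK6_pt0, gK6_pt1] at hz
      have hlt : (2 * ((4 * b + 2 : ℕ) : ℝ)) < 2 * ((4 * b + 3 : ℕ) : ℝ) := by
        rw [gK6_cast2, gK6_cast3]; linarith
      have g1 := h01 (4 * b + 2, I.2.1 + 1, 0)
      rw [(gK6_seg hlt hz).2.2, gK6_leftX hlt (by rw [hX]; push_cast; ring)]
      push_cast
      linarith [g1.1]

theorem ow6 (o : Bool) {b : ℕ} {S : List Bool} {I : ℕ × ℕ × ℕ × List Bool} (hI : WFI I S)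
    (hk : I.1 = 6) {h : ℕ × ℕ × ℕ → ℝ} (h01 : ∀ v, 0 < h v ∧ h v < 1) (hB : blkOK h (b, S, I))
    {e : (ℕ × ℕ × ℕ) × (ℕ × ℕ × ℕ)} (he : e ∈ bE b S I) :
    ∀ s ∈ wallSeg o (2 * (4 * b + 2)) (16 * (I.2.1 + 1) - 4) (2 * (4 * b + 2))
      (16 * (I.2.1 + 1)), Disjoint (segment ℝ (ptOf h e.1) (ptOf h e.2)) s.pts := by
  rw [wallSeg_iff, Set.disjoint_left]
  intro z hz hz'
  push_cast at hz'
  rw [mem_vert (by linarith)] at hz'
  rcases gK6_ow hk h01 hB he hz (by rw [hz'.1]; ring) with h1 | h1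
  · linarith [hz'.2.1]
  · linarith [hz'.2.2]

theorem xs6 (o : Bool) {b : ℕ} {S : List Bool} {I : ℕ × ℕ × ℕ × List Bool} (hI : WFI I S)
    (hk : I.1 = 6) {h : ℕ × ℕ × ℕ → ℝ} (h01 : ∀ v, 0 ≤ h v ∧ h v ≤ 1)
    (h2 : 1 / 2 ≤ h (4 * b + 2, I.2.1 + 1, 2))
    (hE : ∀ e ∈ bE b S I, ∀ f ∈ bE b S I, e ≠ f → ∀ z ∈ segment ℝ (ptOf h e.1) (ptOf h e.2),
      z ∈ segment ℝ (ptOf h f.1) (ptOf h f.2) →
      ∃ w, (w = e.1 ∨ w = e.2) ∧ (w = f.1 ∨ w = f.2) ∧ z = ptOf h w)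
    (hO : ∀ e ∈ bE b S I, ∀ s ∈ bO o b S I,
      Disjoint (segment ℝ (ptOf h e.1) (ptOf h e.2)) s.pts) : extraOK h b I := by
  have hp3 : I.2.1 + 3 ≤ S.length := (WFI_pos hI).2.2.1 (by omega)
  -- the edges
  have m1 : ((4 * b + 1, I.2.1, 0), (4 * b + 2, I.2.1 + 1, 2)) ∈ bE b S I := by
    unfold bE
    rw [List.mem_append]
    right
    simp [bX, hk]
  have m2 : ((4 * b + 2, I.2.1 + 1, 0), (4 * b + 3, I.2.1 + 1, 1)) ∈ bE b S I := by
    unfold bE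
    rw [List.mem_append]
    right
    simp [bX, hk]
  have m3 : ((4 * b + 2, I.2.1 + 2, 0), (4 * b + 3, I.2.1 + 1, 0)) ∈ bE b S I := by
    unfold bE
    rw [List.mem_append, List.mem_map]
    left
    refine ⟨(4 * b + 2, I.2.1 + 2, I.2.1 + 1, sgn I.1 I.2.1 S 2 (I.2.1 + 2)), ?_, rfl⟩
    rw [mem_bP]
    right
    refine ⟨2, I.2.1 + 2, by norm_num, by omega, by omega, ?_, ?_⟩
    · rw [hk]
      simp only [has]
      norm_num
      omega
    · rw [hk]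
      simp only [tgt]
      norm_num
  set r := h (4 * b + 2, I.2.1 + 1, 2) with hr
  set u := h (4 * b + 1, I.2.1, 0) with hu
  set a := h (4 * b + 2, I.2.1 + 1, 0) with ha
  set c := h (4 * b + 3, I.2.1 + 1, 1) with hc
  set v := h (4 * b + 3, I.2.1 + 1, 0) with hv
  have hr1 : r ≤ 1 := (h01 _).2
  have hu1 : 0 ≤ u ∧ u ≤ 1 := h01 _
  have ha1 : 0 ≤ a ∧ a ≤ 1 := h01 _
  have hmid := gK6_mid (b := b) (p := I.2.1) (u := u) (r := r) ⟨h2, hr1⟩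
  have hmidle := gK6_mid_le (p := I.2.1) (u := u) (r := r) hu1 ⟨h2, hr1⟩
  have hlt : (2 * ((4 * b + 1 : ℕ) : ℝ)) < 2 * ((4 * b + 2 : ℕ) : ℝ) + 2 * r := by
    rw [gK6_cast1, gK6_cast2]; linarith
  have hlt2 : (2 * ((4 * b + 2 : ℕ) : ℝ)) < 2 * ((4 * b + 3 : ℕ) : ℝ) := by
    rw [gK6_cast2, gK6_cast3]; linarith
  have a3 : 8 * (b : ℝ) + 4 = 2 * ((4 * b + 2 : ℕ) : ℝ) := by push_cast; ring
  -- the additional obstacle
  have s1 : 16 * (I.2.1 : ℝ) + 4 * u + (16 + 4 * r - 4 * u) * (1 / (1 + r)) <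
      16 * (I.2.1 : ℝ) + 12 := by
    by_contra hcon
    push Not at hcon
    have hd : ∀ s ∈ wallSeg o (2 * (4 * b + 2)) (16 * (I.2.1 + 1) - 4) (2 * (4 * b + 2))
        (16 * (I.2.1 + 1)), Disjoint (segment ℝ (ptOf h (4 * b + 1, I.2.1, 0))
          (ptOf h (4 * b + 2, I.2.1 + 1, 2))) s.pts := by
      intro s hs
      refine hO _ m1 s ?_
      unfold bO
      rw [List.mem_append, if_pos hk]
      exact Or.inr hs
    rw [wallSeg_iff, Set.disjoint_left] at hd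
    refine @hd (8 * (b : ℝ) + 4,
      16 * (I.2.1 : ℝ) + 4 * u + (16 + 4 * r - 4 * u) * (1 / (1 + r))) ?_ ?_
    · rw [gK6_pt0, gK6_pt2, ← hr, ← hu]
      rw [mem_seg_iff (by exact hlt)]
      refine ⟨?_, ?_, ?_⟩
      · simp only
        rw [gK6_cast1]; linarith
      · simp only
        rw [gK6_cast2]; linarith
      · simp only
        rw [hmid]
    · push_cast
      rw [mem_vert (by linarith)]
      refine ⟨?_, ?_, ?_⟩
      · simp only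
        ring
      · simp only
        linarith
      · simp only
        linarith
  have r1 : 1 < r * (2 - u) := gK6_mid_gt ⟨h2, hr1⟩ s1
  have r2 : r < a + (c - a) * r := by
    by_contra hcon
    push Not at hcon
    obtain ⟨z, hz, hz', -, -⟩ := seg_meet
      (A := (2 * ((4 * b + 1 : ℕ) : ℝ), 16 * (I.2.1 : ℝ) + 4 * u))
      (B := (2 * ((4 * b + 2 : ℕ) : ℝ) + 2 * r, 16 * ((I.2.1 + 1 : ℕ) : ℝ) + 4 * r))
      (C := (2 * ((4 * b + 2 : ℕ) : ℝ), 16 * ((I.2.1 + 1 : ℕ) : ℝ) + 4 * a))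
      (D := (2 * ((4 * b + 3 : ℕ) : ℝ), 16 * ((I.2.1 + 1 : ℕ) : ℝ) + 4 * c))
      (s := 8 * (b : ℝ) + 4) (t := 2 * ((4 * b + 2 : ℕ) : ℝ) + 2 * r) hlt hlt2
      (by rw [gK6_cast2]; linarith) (by simp only; rw [gK6_cast1]; linarith)
      (by simp only; rw [← a3]) le_rfl
      (by simp only; rw [gK6_cast2, gK6_cast3]; linarith)
      (by
        rw [hmid, gK6_leftX hlt2 a3]
        push_cast
        linarith [ha1.1])
      (by
        rw [gK6_right hlt, gK6_at]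
        linarith)
    obtain ⟨w, hw1, hw2, -⟩ := hE _ m1 _ m2 (by
      intro heq
      have := congrArg (fun x => x.1.1) heq
      simp only at this
      omega) z (by rw [gK6_pt0, gK6_pt2]; exact hz) (by rw [gK6_pt0, gK6_pt1]; exact hz')
    simp only at hw1 hw2
    rcases hw1 with rfl | rfl <;> rcases hw2 with hw2 | hw2 <;>
      simp only [Prod.mk.injEq] at hw2 <;> omega
  have r3 : c < v := by
    by_contra hcon
    push Not at hcon
    have g0 := h01 (4 * b + 2, I.2.1 + 2, 0)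
    obtain ⟨z, hz, hz', -, -⟩ := seg_meet
      (A := (2 * ((4 * b + 2 : ℕ) : ℝ), 16 * ((I.2.1 + 1 : ℕ) : ℝ) + 4 * a))
      (B := (2 * ((4 * b + 3 : ℕ) : ℝ), 16 * ((I.2.1 + 1 : ℕ) : ℝ) + 4 * c))
      (C := (2 * ((4 * b + 2 : ℕ) : ℝ), 16 * ((I.2.1 + 2 : ℕ) : ℝ) +
        4 * h (4 * b + 2, I.2.1 + 2, 0)))
      (D := (2 * ((4 * b + 3 : ℕ) : ℝ), 16 * ((I.2.1 + 1 : ℕ) : ℝ) + 4 * v))
      (s := 2 * ((4 * b + 2 : ℕ) : ℝ)) (t := 2 * ((4 * b + 3 : ℕ) : ℝ)) hlt2 hlt2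
      hlt2.le le_rfl le_rfl le_rfl le_rfl
      (by
        rw [gK6_left hlt2, gK6_left hlt2]
        push_cast
        linarith [ha1.2, g0.1])
      (by
        rw [gK6_right hlt2, gK6_right hlt2]
        linarith)
    obtain ⟨w, hw1, hw2, -⟩ := hE _ m2 _ m3 (by
      intro heq
      have := congrArg (fun x => x.1.2.1) heq
      simp only at this
      omega) z (by rw [gK6_pt0, gK6_pt1]; exact hz) (by rw [gK6_pt0, gK6_pt0]; exact hz')
    simp only at hw1 hw2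
    rcases hw1 with rfl | rfl <;> rcases hw2 with hw2 | hw2 <;>
      simp only [Prod.mk.injEq] at hw2 <;> omega
  simp only [extraOK, hk]
  norm_num
  exact ⟨r1, r2, r3⟩

end Pool.Agent.H77.SG
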