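import Pool.Agent.H77.SG.BP

/-!
# The graph of the layout: degrees

PROOF. First the statements for one block (unfold `bE`, `bX`; ordinary edges by `bP_order`,
`bP_pairwise`; the extra edges start at `(4 b + l, p + 1, 0)` or `(4 b + l, p, 0)`, where `has` is
false, and end at vertices with the third component `1` or `2`). Different blocks: the left ends are
on the lines `4 b, …, 4 b + 3`, the right ends on the lines `4 b + 1, …, 4 b + 4`
(`blocks_pairwise`). The list `lE` is the concatenation (`List.pairwise_flatMap`,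
`List.nodup_flatMap`).
-/

set_option autoImplicit false

namespace Pool.Agent.H77.SG

theorem goodb_mem_bX {b : ℕ} {I : ℕ × ℕ × ℕ × List Bool}
    {e : (ℕ × ℕ × ℕ) × (ℕ × ℕ × ℕ)} (he : e ∈ bX b I) :
    ((I.1 = 3 ∨ I.1 = 5) ∧ e = ((4 * b, I.2.1 + 1, 0), (4 * b + 2, I.2.1 + 1, 1))) ∨
      (I.1 = 4 ∧ e = ((4 * b + 1, I.2.1 + 1, 0), (4 * b + 3, I.2.1 + 1, 1))) ∨
      (I.1 = 6 ∧ e = ((4 * b + 1, I.2.1, 0), (4 * b + 2, I.2.1 + 1, 2))) ∨
      (I.1 = 6 ∧ e = ((4 * b + 2, I.2.1 + 1, 0), (4 * b + 3, I.2.1 + 1, 1))) := by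
  unfold bX at he
  by_cases h1 : I.1 = 3 ∨ I.1 = 5
  · rw [if_pos h1, List.mem_singleton] at he
    exact Or.inl ⟨h1, he⟩
  · rw [if_neg h1] at he
    by_cases h2 : I.1 = 4
    · rw [if_pos h2, List.mem_singleton] at he
      exact Or.inr (Or.inl ⟨h2, he⟩)
    · rw [if_neg h2] at he
      by_cases h3 : I.1 = 6
      · rw [if_pos h3, List.mem_cons, List.mem_singleton] at he
        rcases he with he | he
        · exact Or.inr (Or.inr (Or.inl ⟨h3, he⟩))
        · exact Or.inr (Or.inr (Or.inr ⟨h3, he⟩))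
      · rw [if_neg h3] at he
        exact absurd he List.not_mem_nil

theorem goodb_mem {b : ℕ} {S : List Bool} {I : ℕ × ℕ × ℕ × List Bool}
    {e : (ℕ × ℕ × ℕ) × (ℕ × ℕ × ℕ)} (he : e ∈ bE b S I) :
    (∃ q ∈ bP b S I, e = ((q.1, q.2.1, 0), (q.1 + 1, q.2.2.1, 0))) ∨ e ∈ bX b I := by
  unfold bE at he
  rw [List.mem_append, List.mem_map] at he
  rcases he with ⟨q, hq, rfl⟩ | he
  · exact Or.inl ⟨q, hq, rfl⟩
  · exact Or.inr he

/-- The extra edges end at vertices with a positive third component. -/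
theorem goodb_bX_pos {b : ℕ} {I : ℕ × ℕ × ℕ × List Bool}
    {e : (ℕ × ℕ × ℕ) × (ℕ × ℕ × ℕ)} (he : e ∈ bX b I) : e.2.2.2 ≠ 0 := by
  rcases goodb_mem_bX he with ⟨_, rfl⟩ | ⟨_, rfl⟩ | ⟨_, rfl⟩ | ⟨_, rfl⟩ <;> simp

/-- The extra edges do not start at the left end of an ordinary edge. -/
theorem goodb_cross {b : ℕ} {S : List Bool} {I : ℕ × ℕ × ℕ × List Bool}
    {q : ℕ × ℕ × ℕ × Bool} (hq : q ∈ bP b S I)
    {f : (ℕ × ℕ × ℕ) × (ℕ × ℕ × ℕ)} (hf : f ∈ bX b I) (h : (q.1, q.2.1, 0) = f.1) : False := by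
  have hI3 : 3 ≤ I.1 := by
    rcases goodb_mem_bX hf with ⟨h1 | h1, _⟩ | ⟨h1, _⟩ | ⟨h1, _⟩ | ⟨h1, _⟩ <;> omega
  rcases mem_bP.1 hq with ⟨h1, _⟩ | ⟨l, k, hl, hk, _, hhas, rfl⟩
  · omega
  · simp only at h
    rcases goodb_mem_bX hf with ⟨h1 | h1, rfl⟩ | ⟨h1, rfl⟩ | ⟨h1, rfl⟩ | ⟨h1, rfl⟩ <;>
      simp only [Prod.mk.injEq] at h
    · obtain rfl : l = 0 := by omega
      obtain rfl := h.2.1
      rw [h1] at hhas
      simp [has] at hhas
    · obtain rfl : l = 0 := by omega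
      obtain rfl := h.2.1
      rw [h1] at hhas
      simp [has] at hhas
    · obtain rfl : l = 1 := by omega
      obtain rfl := h.2.1
      rw [h1] at hhas
      simp [has] at hhas
    · obtain rfl : l = 1 := by omega
      obtain rfl := h.2.1
      rw [h1] at hhas
      simp [has] at hhas
    · obtain rfl : l = 2 := by omega
      obtain rfl := h.2.1
      rw [h1] at hhas
      simp [has] at hhas

theorem bE_right {b : ℕ} {S : List Bool} {I : ℕ × ℕ × ℕ × List Bool} (hI : WFI I S)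
    {e : (ℕ × ℕ × ℕ) × (ℕ × ℕ × ℕ)} (he : e ∈ bE b S I) :
    4 * b ≤ e.1.1 ∧ e.1.1 < e.2.1 ∧ e.2.1 ≤ 4 * b + 4 ∧ e.1.2.2 = 0 := by
  rcases goodb_mem he with ⟨q, hq, rfl⟩ | he
  · have h1 := bP_range hI hq
    refine ⟨h1.1, Nat.lt_succ_self _, ?_, rfl⟩
    change q.1 + 1 ≤ 4 * b + 4
    omega
  · rcases goodb_mem_bX he with ⟨_, rfl⟩ | ⟨_, rfl⟩ | ⟨_, rfl⟩ | ⟨_, rfl⟩ <;>
      exact ⟨by simp only; omega, by simp only; omega, by simp only; omega, rfl⟩

theorem bE_indeg {b : ℕ} {S : List Bool} {I : ℕ × ℕ × ℕ × List Bool} (hI : WFI I S)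
    {e f : (ℕ × ℕ × ℕ) × (ℕ × ℕ × ℕ)} (he : e ∈ bE b S I) (hf : f ∈ bE b S I) (h : e.2 = f.2) :
    e = f := by
  rcases goodb_mem he with ⟨q, hq, rfl⟩ | he
  · rcases goodb_mem hf with ⟨q', hq', rfl⟩ | hf
    · simp only [Prod.mk.injEq] at h
      by_cases hne : q = q'
      · rw [hne]
      · have h1 := bP_order hI hq hq' (by omega) hne
        omega
    · exfalso
      apply goodb_bX_pos hf
      rw [← h]
  · rcases goodb_mem hf with ⟨q', hq', rfl⟩ | hf
    · exfalso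
      apply goodb_bX_pos he
      rw [h]
    · rcases goodb_mem_bX he with ⟨h1, rfl⟩ | ⟨h1, rfl⟩ | ⟨h1, rfl⟩ | ⟨h1, rfl⟩ <;>
      rcases goodb_mem_bX hf with ⟨h2, rfl⟩ | ⟨h2, rfl⟩ | ⟨h2, rfl⟩ | ⟨h2, rfl⟩ <;>
      first
        | rfl
        | (exfalso; omega)
        | (exfalso; simp only [Prod.mk.injEq] at h; omega)

theorem bE_fan {b : ℕ} {S : List Bool} {I : ℕ × ℕ × ℕ × List Bool} (hI : WFI I S) :
    (bE b S I).Pairwise fun e f => e ≠ f ∧ (e.1 = f.1 → e.2.1 = f.2.1 ∧ e.2.2.1 < f.2.2.1 ∧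
      e.2.2.2 = 0 ∧ f.2.2.2 = 0) := by
  unfold bE
  rw [List.pairwise_append]
  refine ⟨?_, ?_, ?_⟩
  · rw [List.pairwise_map]
    refine (bP_pairwise hI).imp ?_
    intro q q' h
    rcases h with h | ⟨h1, h2, h3⟩
    · refine ⟨fun h' => ?_, fun h' => ?_⟩
      · simp only [Prod.mk.injEq] at h'
        omega
      · simp only [Prod.mk.injEq] at h'
        omega
    · refine ⟨fun h' => ?_, fun h' => ⟨?_, h3, rfl, rfl⟩⟩
      · simp only [Prod.mk.injEq] at h'
        omega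
      · simp only
        rw [h1]
  · unfold bX
    by_cases h1 : I.1 = 3 ∨ I.1 = 5
    · rw [if_pos h1]
      exact List.pairwise_singleton _ _
    · rw [if_neg h1]
      by_cases h2 : I.1 = 4
      · rw [if_pos h2]
        exact List.pairwise_singleton _ _
      · rw [if_neg h2]
        by_cases h3 : I.1 = 6
        · rw [if_pos h3, List.pairwise_cons]
          refine ⟨?_, List.pairwise_singleton _ _⟩
          intro f hf
          rw [List.mem_singleton] at hf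
          subst hf
          refine ⟨fun h' => ?_, fun h' => ?_⟩
          · simp only [Prod.mk.injEq] at h'
            omega
          · simp only [Prod.mk.injEq] at h'
            omega
        · rw [if_neg h3]
          exact List.Pairwise.nil
  · intro e he f hf
    rw [List.mem_map] at he
    obtain ⟨q, hq, rfl⟩ := he
    refine ⟨fun h' => ?_, fun h' => ?_⟩
    · apply goodb_bX_pos hf
      rw [← h']
    · exact (goodb_cross hq hf h').elim

theorem lE_right {π : List (ℕ × ℕ × ℕ × List Bool)} (hW : WF π []) :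
    ∀ e ∈ lE π, e.1.1 < e.2.1 ∧ e.1.2.2 = 0 := by
  intro e he
  unfold lE at he
  rw [List.mem_flatMap] at he
  obtain ⟨B, hB, he⟩ := he
  have h1 := bE_right (blocks_wf hW B hB) he
  exact ⟨h1.2.1, h1.2.2.2⟩

theorem lE_indeg {π : List (ℕ × ℕ × ℕ × List Bool)} (hW : WF π []) :
    ∀ e ∈ lE π, ∀ f ∈ lE π, e.2 = f.2 → e = f := by
  intro e he f hf h
  unfold lE at he hf
  rw [List.mem_flatMap] at he hf
  obtain ⟨B, hB, he⟩ := he
  obtain ⟨B', hB', hf⟩ := hf
  have h1 := bE_right (blocks_wf hW B hB) he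
  have h2 := bE_right (blocks_wf hW B' hB') hf
  have h3 : e.2.1 = f.2.1 := by rw [h]
  have h4 : B = B' := blocks_inj B hB B' hB' (by omega)
  subst h4
  exact bE_indeg (blocks_wf hW B hB) he hf h

theorem lE_fan {π : List (ℕ × ℕ × ℕ × List Bool)} (hW : WF π []) :
    (lE π).Nodup ∧ (lE π).Pairwise fun e f => e.1 = f.1 → e.2.1 = f.2.1 ∧ e.2.2.1 < f.2.2.1 ∧
      e.2.2.2 = 0 ∧ f.2.2.2 = 0 := by
  have key : (lE π).Pairwise fun e f => e ≠ f ∧ (e.1 = f.1 → e.2.1 = f.2.1 ∧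
      e.2.2.1 < f.2.2.1 ∧ e.2.2.2 = 0 ∧ f.2.2.2 = 0) := by
    unfold lE
    rw [List.pairwise_flatMap]
    refine ⟨fun B hB => bE_fan (blocks_wf hW B hB), ?_⟩
    refine (blocks_pairwise 0 []).imp_of_mem ?_
    intro B B' hB hB' hlt e he f hf
    have h1 := bE_right (blocks_wf hW B hB) he
    have h2 := bE_right (blocks_wf hW B' hB') hf
    refine ⟨fun h' => ?_, fun h' => ?_⟩
    · have h3 : e.1.1 = f.1.1 := by rw [h']
      omega
    · have h3 : e.1.1 = f.1.1 := by rw [h']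
      omega
  exact ⟨key.imp fun h => h.1, key.imp fun h => h.2⟩

end Pool.Agent.H77.SG
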