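import Pool.Agent.H77.SG.GoodA
import Pool.Agent.H77.SG.GoodB

/-!
# The layout is good

PROOF. `lV_names`: `nodup_bV` and the lines of different blocks (`blocks_pairwise`). `lV_segs`:
`openSegment_subset_segment`; a point of the segment from `(2 T, 16 k)` to `(2 T, 16 k + 4)` is
`(2 T, 16 k + 4 u)`, and so on; for a constant `c` with `1 ≤ c ≤ 3` the point is
`(2 T, 16 k + 4 - c)`, so `u = 1 - c / 4`. `lV_seg0` is the converse, for `0 < h < 1` and `h` equal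
to `1 - c / 4` at the source of a constant. `lV_src` is the value at the source of a constant.
-/

set_option autoImplicit false

namespace Pool.Agent.H77.SG

theorem goodc_toR (x y : ℤ) : toR (zpt x y) = (((x : ℝ), (y : ℝ)) : ℝ × ℝ) := by
  simp [toR, zpt]

theorem goodc_sub {o : Bool} {x y x' y' : ℤ} {z : ℝ × ℝ} (hz : z ∈ (zseg o x y x' y').pts) :
    ∃ s : ℝ, 0 ≤ s ∧ s ≤ 1 ∧ z.1 = x + s * (x' - x) ∧ z.2 = y + s * (y' - y) := by
  have h : z ∈ segment ℝ (((x : ℝ), (y : ℝ)) : ℝ × ℝ) (((x' : ℝ), (y' : ℝ)) : ℝ × ℝ) := by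
    rw [← goodc_toR, ← goodc_toR]
    unfold Seg.pts at hz
    split_ifs at hz with ho
    · exact openSegment_subset_segment ℝ _ _ hz
    · exact hz
  obtain ⟨a, b, ha, hb, hab, rfl⟩ := h
  refine ⟨b, hb, by linarith, ?_, ?_⟩
  · show a * (x : ℝ) + b * (x' : ℝ) = _
    have : a = 1 - b := by linarith
    rw [this]
    ring
  · show a * (y : ℝ) + b * (y' : ℝ) = _
    have : a = 1 - b := by linarith
    rw [this]
    ring

theorem goodc_sup (o : Bool) {x y x' y' : ℤ} {z : ℝ × ℝ} {s : ℝ} (h0 : 0 < s) (h1 : s < 1)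
    (hz1 : z.1 = x + s * (x' - x)) (hz2 : z.2 = y + s * (y' - y)) :
    z ∈ (zseg o x y x' y').pts := by
  have h : z ∈ openSegment ℝ (toR (zpt x y)) (toR (zpt x' y')) := by
    rw [goodc_toR, goodc_toR]
    refine ⟨1 - s, s, by linarith, h0, by ring, ?_⟩
    apply Prod.ext
    · show (1 - s) * (x : ℝ) + s * (x' : ℝ) = z.1
      rw [hz1]
      ring
    · show (1 - s) * (y : ℝ) + s * (y' : ℝ) = z.2
      rw [hz2]
      ring
  unfold Seg.pts
  split_ifs with ho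
  · exact h
  · exact openSegment_subset_segment ℝ _ _ h

theorem goodc_pt (o : Bool) {x y : ℤ} {z : ℝ × ℝ} (hz1 : z.1 = x) (hz2 : z.2 = y) :
    z ∈ (zseg o x y x y).pts :=
  goodc_sup o (s := 1 / 2) (by norm_num) (by norm_num) (by rw [hz1]; ring) (by rw [hz2]; ring)

theorem goodc_mem {o : Bool} {π : List (ℕ × ℕ × ℕ × List Bool)} {x : (ℕ × ℕ × ℕ) × Seg} :
    x ∈ lV o π ↔ ∃ B ∈ blocks 0 [] π, ∃ v ∈ bV B.1 B.2.1 B.2.2, x = (v, vSeg o B.1 B.2.2 v) := by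
  unfold lV
  rw [List.mem_flatMap]
  constructor
  · rintro ⟨B, hB, hx⟩
    rw [List.mem_map] at hx
    obtain ⟨v, hv, rfl⟩ := hx
    exact ⟨B, hB, v, hv, rfl⟩
  · rintro ⟨B, hB, v, hv, rfl⟩
    exact ⟨B, hB, List.mem_map.2 ⟨v, hv, rfl⟩⟩

theorem goodc_line {b : ℕ} {S : List Bool} {I : ℕ × ℕ × ℕ × List Bool} {v : ℕ × ℕ × ℕ}
    (hv : v ∈ bV b S I) : 4 * b ≤ v.1 ∧ v.1 < 4 * b + 4 := by
  rw [mem_bV] at hv
  obtain ⟨l, k, e, hl, -, -, -, rfl⟩ := hv
  constructor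
  · show 4 * b ≤ 4 * b + l
    omega
  · show 4 * b + l < 4 * b + 4
    omega

theorem lV_names (o : Bool) {π : List (ℕ × ℕ × ℕ × List Bool)} (hW : WF π []) :
    ((lV o π).map fun x => x.1).Nodup := by
  have e : (lV o π).map (fun x => x.1) =
      (blocks 0 [] π).flatMap fun B => bV B.1 B.2.1 B.2.2 := by
    unfold lV
    rw [List.map_flatMap]
    congr 1
    funext B
    rw [List.map_map]
    exact List.map_id _
  rw [e, List.nodup_flatMap]
  refine ⟨fun B _ => nodup_bV _ _ _, ?_⟩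
  refine (blocks_pairwise 0 []).imp ?_
  intro B B' hlt
  show List.Disjoint (bV B.1 B.2.1 B.2.2) (bV B'.1 B'.2.1 B'.2.2)
  intro v hv hv'
  have h1 := goodc_line hv
  have h2 := goodc_line hv'
  omega

/-- the constant of a constant instruction is at most three. -/
theorem goodc_const {I : ℕ × ℕ × ℕ × List Bool} {S : List Bool} (h : WFI I S) (h1 : I.1 = 1) :
    1 ≤ I.2.2.1 ∧ I.2.2.1 ≤ 3 := by
  unfold WFI at h
  rw [if_neg (by rw [h1]; decide), if_pos h1] at h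
  exact ⟨h.2.2.1, h.2.2.2⟩

theorem lV_segs (o : Bool) {π : List (ℕ × ℕ × ℕ × List Bool)} (hW : WF π []) :
    SegsOK (lV o π) := by
  intro x hx z hz
  rw [goodc_mem] at hx
  obtain ⟨B, hB, v, hv, rfl⟩ := hx
  have hz' : z ∈ (vSeg o B.1 B.2.2 v).pts := hz
  show ∃ u : ℝ, 0 ≤ u ∧ u ≤ 1 ∧
    (v.2.2 = 2 → 1 / 2 ≤ u ∧ z = (2 * (v.1 : ℝ) + 2 * u, 16 * (v.2.1 : ℝ) + 4 * u)) ∧
    (v.2.2 ≠ 2 → z = (2 * (v.1 : ℝ), 16 * (v.2.1 : ℝ) + 4 * u))
  unfold vSeg at hz'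
  split_ifs at hz' with h2 hc
  · obtain ⟨s, h0, h1, e1, e2⟩ := goodc_sub hz'
    push_cast at e1 e2
    refine ⟨(1 + s) / 2, by linarith, by linarith, fun _ => ⟨by linarith, ?_⟩,
      fun h => absurd h2 h⟩
    apply Prod.ext
    · show z.1 = 2 * (v.1 : ℝ) + 2 * ((1 + s) / 2)
      rw [e1]
      ring
    · show z.2 = 16 * (v.2.1 : ℝ) + 4 * ((1 + s) / 2)
      rw [e2]
      ring
  · obtain ⟨s, h0, h1, e1, e2⟩ := goodc_sub hz'
    push_cast at e1 e2
    have hcc := goodc_const (blocks_wf hW B hB) hc.1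
    have hc3 : (B.2.2.2.2.1 : ℝ) ≤ 3 := by exact_mod_cast hcc.2
    have hc1 : (1 : ℝ) ≤ (B.2.2.2.2.1 : ℝ) := by exact_mod_cast hcc.1
    refine ⟨1 - (B.2.2.2.2.1 : ℝ) / 4, by linarith, by linarith, fun h => absurd h h2,
      fun _ => ?_⟩
    apply Prod.ext
    · show z.1 = 2 * (v.1 : ℝ)
      rw [e1]
      ring
    · show z.2 = 16 * (v.2.1 : ℝ) + 4 * (1 - (B.2.2.2.2.1 : ℝ) / 4)
      rw [e2]
      ring
  · obtain ⟨s, h0, h1, e1, e2⟩ := goodc_sub hz'
    push_cast at e1 e2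
    refine ⟨s, h0, h1, fun h => absurd h h2, fun _ => ?_⟩
    apply Prod.ext
    · show z.1 = 2 * (v.1 : ℝ)
      rw [e1]
      ring
    · show z.2 = 16 * (v.2.1 : ℝ) + 4 * s
      rw [e2]
      ring

theorem lV_src (o : Bool) {π : List (ℕ × ℕ × ℕ × List Bool)} (hW : WF π [])
    {B : ℕ × List Bool × (ℕ × ℕ × ℕ × List Bool)} (hB : B ∈ blocks 0 [] π) (h1 : B.2.2.1 = 1) :
    ∃ x ∈ lV o π, x.1 = (4 * B.1 + 3, B.2.2.2.1, 0) ∧ ∀ z ∈ x.2.pts,
      z.2 = 16 * (B.2.2.2.1 : ℝ) + 4 - B.2.2.2.2.1 := by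
  have hwf := blocks_wf hW B hB
  have hp := (WFI_pos hwf).1
  have hv : ((4 * B.1 + 3, B.2.2.2.1, 0) : ℕ × ℕ × ℕ) ∈ bV B.1 B.2.1 B.2.2 := by
    rw [mem_bV]
    refine ⟨3, B.2.2.2.1, 0, by norm_num, hp, by norm_num, ?_, rfl⟩
    unfold pres
    rw [if_pos rfl, if_neg (by norm_num), if_pos (by rw [h1]), if_neg (by norm_num)]
    exact decide_eq_true (by omega)
  refine ⟨_, goodc_mem.2 ⟨B, hB, _, hv, rfl⟩, rfl, ?_⟩
  intro z hz
  have hz' : z ∈ (vSeg o B.1 B.2.2 (4 * B.1 + 3, B.2.2.2.1, 0)).pts := hz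
  unfold vSeg at hz'
  rw [if_neg (by norm_num), if_pos ⟨h1, rfl⟩] at hz'
  obtain ⟨s, h0, hs1, e1, e2⟩ := goodc_sub hz'
  push_cast at e2
  rw [e2]
  ring

theorem lV_seg0 (o : Bool) {π : List (ℕ × ℕ × ℕ × List Bool)} (hW : WF π [])
    {h : ℕ × ℕ × ℕ → ℝ} (h01 : ∀ v, 0 < h v ∧ h v < 1)
    (h2 : ∀ x ∈ lV o π, x.1.2.2 = 2 → 1 / 2 < h x.1)
    (hB : ∀ B ∈ blocks 0 [] π, extraOK h B.1 B.2.2) : ∀ x ∈ lV o π, ptOf h x.1 ∈ x.2.pts := by
  intro x hx
  have h2x := h2 x hx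
  rw [goodc_mem] at hx
  obtain ⟨B, hBm, v, hv, rfl⟩ := hx
  have h2v : v.2.2 = 2 → 1 / 2 < h v := h2x
  show ptOf h v ∈ (vSeg o B.1 B.2.2 v).pts
  have hv01 := h01 v
  unfold vSeg ptOf
  by_cases he : v.2.2 = 2
  · rw [if_pos he, if_pos he]
    have := h2v he
    refine goodc_sup o (s := 2 * h v - 1) (by linarith) (by linarith) ?_ ?_
    · push_cast
      ring
    · push_cast
      ring
  · rw [if_neg he, if_neg he]
    by_cases hc : B.2.2.1 = 1 ∧ v = (4 * B.1 + 3, B.2.2.2.1, 0)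
    · rw [if_pos hc]
      have hex := hB B hBm
      unfold extraOK at hex
      rw [if_pos hc.1, ← hc.2] at hex
      refine goodc_pt o ?_ ?_
      · push_cast
        ring
      · push_cast
        rw [hex]
        ring
    · rw [if_neg hc]
      refine goodc_sup o (s := h v) hv01.1 hv01.2 ?_ ?_
      · push_cast
        ring
      · push_cast
        ring

theorem good_of_WF (o : Bool) {π : List (ℕ × ℕ × ℕ × List Bool)} (hW : WF π []) :
    Good (lV o π) (lE π) :=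
  ⟨lV_names o hW, (lE_fan hW).1, lE_ends o hW, lV_cover o hW, lE_right hW, lE_indeg hW,
    (lE_fan hW).2⟩

theorem goodc_vSeg (o : Bool) (b : ℕ) (I : ℕ × ℕ × ℕ × List Bool) (v : ℕ × ℕ × ℕ) :
    (vSeg o b I v).isOpen = o := by
  unfold vSeg
  split_ifs <;> rfl

theorem goodc_wall {o : Bool} {x y x' y' : ℤ} {s : Seg} (hs : s ∈ wallSeg o x y x' y') :
    s.isOpen = o := by
  unfold wallSeg at hs
  split_ifs at hs with ho
  · subst ho
    simp only [List.mem_cons, List.not_mem_nil, or_false] at hs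
    rcases hs with rfl | rfl | rfl <;> rfl
  · have ho' : o = false := by
      cases o
      · rfl
      · exact absurd rfl ho
    subst ho'
    simp only [List.mem_cons, List.not_mem_nil, or_false] at hs
    subst hs
    rfl

theorem goodc_pWall {o : Bool} {q : ℕ × ℕ × ℕ × Bool} {s : Seg} (hs : s ∈ pWall o q) :
    s.isOpen = o := by
  unfold pWall at hs
  split_ifs at hs
  · exact goodc_wall hs
  · exact goodc_wall hs

theorem goodc_lO {o : Bool} {π : List (ℕ × ℕ × ℕ × List Bool)} {s : Seg} (hs : s ∈ lO o π) :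
    s.isOpen = o := by
  unfold lO at hs
  rw [List.mem_flatMap] at hs
  obtain ⟨B, -, hs⟩ := hs
  unfold bO at hs
  rw [List.mem_append] at hs
  rcases hs with hs | hs
  · rw [List.mem_flatMap] at hs
    obtain ⟨q, -, hs⟩ := hs
    exact goodc_pWall hs
  · split_ifs at hs
    · exact goodc_wall hs
    · exact absurd hs List.not_mem_nil

theorem goodc_verts {o : Bool} {π : List (ℕ × ℕ × ℕ × List Bool)} {v : ℕ} {s : Seg}
    {r : List ℕ} (h : (instOf o π).Has v s r) : s.isOpen = o := by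
  have h' : (v, s, r) ∈ (instOf o π).verts := h
  unfold instOf mkInst at h'
  rw [List.mem_map] at h'
  obtain ⟨x, hx, hxe⟩ := h'
  rw [goodc_mem] at hx
  obtain ⟨B, -, w, -, rfl⟩ := hx
  have : s = vSeg o B.1 B.2.2 w := (congrArg (fun t : ℕ × Seg × List ℕ => t.2.1) hxe).symm
  rw [this]
  exact goodc_vSeg o _ _ _

theorem instOf_open (π : List (ℕ × ℕ × ℕ × List Bool)) : (instOf true π).AllOpen :=
  ⟨fun _ _ _ h => goodc_verts h, fun _ hs => goodc_lO hs⟩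

theorem instOf_closed (π : List (ℕ × ℕ × ℕ × List Bool)) : (instOf false π).AllClosed :=
  ⟨fun _ _ _ h => goodc_verts h, fun _ hs => goodc_lO hs⟩

end Pool.Agent.H77.SG
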