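import Pool.Agent.H77.SG.GK3
import Pool.Agent.H77.SG.GK4
import Pool.Agent.H77.SG.GK5
import Pool.Agent.H77.SG.GK6
import Pool.Agent.H77.SG.GInj
import Pool.Agent.H77.SG.GoodC

/-!
# Drawings and heights

PROOFS. `heights_drawn`: `onSeg` by `lV_seg0` and `half_lt`; `inj` by `pt_inj` for one block and
`bV_x` for different blocks (`blocks_inj`, `blocks_pairwise`); `edge`: two edges of one block by
`pass_pass`, `px3`, …, `px6`, `xx3`, …, `xx6` (symmetric cases by exchange); edges of different blocks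
`b < b'` by `bE_x`: a common point is on the line `X = 8 b' = 8 (b + 1)`, it is the right end of one
edge and the left end of the other, both in slots, so the slots are equal. `obst`: `pass_wall`,
`xw3`, …, `xw6`, `ow6`, and for different blocks `bE_x`, `bO_x`. (The kinds `0, 1, 2` have no extra
edges.) `drawn_heights`: the heights are obtained from `lV_segs` (by choice, `h v = 1/2` for the
triples which are not vertices), then `P v = ptOf h v` for the vertices; `passOK` by `pass_sound`,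
`extraOK` by `xs3`, …, `xs6` and `lV_src`.
-/

set_option autoImplicit false

namespace Pool.Agent.H77.SG

theorem gD_bX_kind {b : ℕ} {I : ℕ × ℕ × ℕ × List Bool} {e : (ℕ × ℕ × ℕ) × (ℕ × ℕ × ℕ)}
    (he : e ∈ bX b I) : I.1 = 3 ∨ I.1 = 4 ∨ I.1 = 5 ∨ I.1 = 6 := by
  unfold bX at he
  split_ifs at he with h1 h2 h3
  · rcases h1 with h1 | h1
    · exact Or.inl h1
    · exact Or.inr (Or.inr (Or.inl h1))
  · exact Or.inr (Or.inl h2)
  · exact Or.inr (Or.inr (Or.inr h3))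
  · simp at he

/-- Ordinary and extra edges. -/
theorem gD_px {b : ℕ} {S : List Bool} {I : ℕ × ℕ × ℕ × List Bool} (hI : WFI I S)
    {h : ℕ × ℕ × ℕ → ℝ} (h01 : ∀ v, 0 < h v ∧ h v < 1) (hB : blkOK h (b, S, I))
    {q : ℕ × ℕ × ℕ × Bool} (hq : q ∈ bP b S I) {e : (ℕ × ℕ × ℕ) × (ℕ × ℕ × ℕ)}
    (he : e ∈ bX b I) :
    ∀ z ∈ segment ℝ (ptOf h (q.1, q.2.1, 0)) (ptOf h (q.1 + 1, q.2.2.1, 0)),
      z ∈ segment ℝ (ptOf h e.1) (ptOf h e.2) →
      ∃ w : ℕ × ℕ × ℕ, (w = (q.1, q.2.1, 0) ∨ w = (q.1 + 1, q.2.2.1, 0)) ∧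
        (w = e.1 ∨ w = e.2) ∧ z = ptOf h w := by
  rcases gD_bX_kind he with hk | hk | hk | hk
  · exact px3 hI hk h01 hB hq he
  · exact px4 hI hk h01 hB hq he
  · exact px5 hI hk h01 hB hq he
  · exact px6 hI hk h01 hB hq he

/-- Two edges of one block. -/
theorem gD_edge1 {b : ℕ} {S : List Bool} {I : ℕ × ℕ × ℕ × List Bool} (hI : WFI I S)
    {h : ℕ × ℕ × ℕ → ℝ} (h01 : ∀ v, 0 < h v ∧ h v < 1) (hB : blkOK h (b, S, I))
    {e f : (ℕ × ℕ × ℕ) × (ℕ × ℕ × ℕ)} (he : e ∈ bE b S I) (hf : f ∈ bE b S I) (hne : e ≠ f)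
    {z : ℝ × ℝ} (hz : z ∈ segment ℝ (ptOf h e.1) (ptOf h e.2))
    (hz' : z ∈ segment ℝ (ptOf h f.1) (ptOf h f.2)) :
    ∃ w, (w = e.1 ∨ w = e.2) ∧ (w = f.1 ∨ w = f.2) ∧ z = ptOf h w := by
  unfold bE at he hf
  rw [List.mem_append, List.mem_map] at he hf
  rcases he with ⟨q, hq, rfl⟩ | he
  · rcases hf with ⟨q', hq', rfl⟩ | hf
    · exact pass_pass hI h01 hq hq' (fun hqq => hne (by rw [hqq])) z hz hz'
    · exact gD_px hI h01 hB hq hf z hz hz'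
  · rcases hf with ⟨q', hq', rfl⟩ | hf
    · obtain ⟨w, h1, h2, h3⟩ := gD_px hI h01 hB hq' he z hz' hz
      exact ⟨w, h2, h1, h3⟩
    · rcases gD_bX_kind he with hk | hk | hk | hk
      · exact absurd (xx3 hk he hf) hne
      · exact absurd (xx4 hk he hf) hne
      · exact absurd (xx5 hk he hf) hne
      · exact absurd hz' (xx6 hI hk h01 hB he hf hne z hz)

/-- Edges and obstacles of one block. -/
theorem gD_obst1 (o : Bool) {b : ℕ} {S : List Bool} {I : ℕ × ℕ × ℕ × List Bool} (hI : WFI I S)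
    {h : ℕ × ℕ × ℕ → ℝ} (h01 : ∀ v, 0 < h v ∧ h v < 1) (hB : blkOK h (b, S, I))
    {e : (ℕ × ℕ × ℕ) × (ℕ × ℕ × ℕ)} (he : e ∈ bE b S I) {s : Seg} (hs : s ∈ bO o b S I) :
    Disjoint (segment ℝ (ptOf h e.1) (ptOf h e.2)) s.pts := by
  unfold bO at hs
  rw [List.mem_append, List.mem_flatMap] at hs
  rcases hs with ⟨q', hq', hs⟩ | hs
  · have he' := he
    unfold bE at he'
    rw [List.mem_append, List.mem_map] at he'
    rcases he' with ⟨q, hq, rfl⟩ | he'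
    · exact pass_wall o hI h01 hB hq hq' s hs
    · rcases gD_bX_kind he' with hk | hk | hk | hk
      · exact xw3 o hI hk h01 hq' he' s hs
      · exact xw4 o hI hk h01 hq' he' s hs
      · exact xw5 o hI hk h01 hq' he' s hs
      · exact xw6 o hI hk h01 hB hq' he' s hs
  · split_ifs at hs with hk
    · exact ow6 o hI hk h01 hB he s hs
    · simp at hs

/-- Edges of two different blocks. -/
theorem gD_edge2 {b b' : ℕ} {S S' : List Bool} {I I' : ℕ × ℕ × ℕ × List Bool} (hI : WFI I S)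
    (hI' : WFI I' S') (hbb : b < b') {h : ℕ × ℕ × ℕ → ℝ} (h01 : ∀ v, 0 < h v ∧ h v < 1)
    {e f : (ℕ × ℕ × ℕ) × (ℕ × ℕ × ℕ)} (he : e ∈ bE b S I) (hf : f ∈ bE b' S' I')
    {z : ℝ × ℝ} (hz : z ∈ segment ℝ (ptOf h e.1) (ptOf h e.2))
    (hz' : z ∈ segment ℝ (ptOf h f.1) (ptOf h f.2)) :
    ∃ w, (w = e.1 ∨ w = e.2) ∧ (w = f.1 ∨ w = f.2) ∧ z = ptOf h w := by
  obtain ⟨-, h1, -, h2⟩ := bE_x hI h01 he hz
  obtain ⟨h3, -, h4, -⟩ := bE_x hI' h01 hf hz'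
  have h5 : ((b' : ℝ)) ≤ (b : ℝ) + 1 := by linarith
  have h6 : b' = b + 1 := by
    have : b' ≤ b + 1 := by exact_mod_cast h5
    omega
  subst h6
  push_cast at h3 h4
  have hx : z.1 = 8 * (b : ℝ) + 8 := by linarith
  obtain ⟨k, hk, hzk⟩ := h2 hx
  obtain ⟨k', hk', hzk'⟩ := h4 (by rw [hx]; ring)
  have h7 : ptOf h (4 * (b + 1), k, 0) = ptOf h (4 * (b + 1), k', 0) := by
    rw [← hk, ← hk', ← hzk, ← hzk']
  have h8 := congrArg Prod.snd h7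
  simp only [ptOf, if_neg (show ¬ (0 : ℕ) = 2 by norm_num)] at h8
  have ha := h01 (4 * (b + 1), k, 0)
  have hb := h01 (4 * (b + 1), k', 0)
  have h9 : (k : ℝ) < (k' : ℝ) + 1 := by linarith
  have h10 : (k' : ℝ) < (k : ℝ) + 1 := by linarith
  have h11 : k = k' := by
    have h12 : k < k' + 1 := by exact_mod_cast h9
    have h13 : k' < k + 1 := by exact_mod_cast h10
    omega
  subst h11
  exact ⟨e.2, Or.inr rfl, Or.inl (hk.trans hk'.symm), hzk⟩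

theorem gD_mem_lV {o : Bool} {π : List (ℕ × ℕ × ℕ × List Bool)} {x : (ℕ × ℕ × ℕ) × Seg}
    (hx : x ∈ lV o π) : ∃ B ∈ blocks 0 [] π, x.1 ∈ bV B.1 B.2.1 B.2.2 := by
  unfold lV at hx
  rw [List.mem_flatMap] at hx
  obtain ⟨B, hB, hx⟩ := hx
  rw [List.mem_map] at hx
  obtain ⟨v, hv, rfl⟩ := hx
  exact ⟨B, hB, hv⟩

theorem gD_mem_lE {π : List (ℕ × ℕ × ℕ × List Bool)} {e : (ℕ × ℕ × ℕ) × (ℕ × ℕ × ℕ)} :
    e ∈ lE π ↔ ∃ B ∈ blocks 0 [] π, e ∈ bE B.1 B.2.1 B.2.2 := by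
  unfold lE
  rw [List.mem_flatMap]

theorem gD_mem_lO {o : Bool} {π : List (ℕ × ℕ × ℕ × List Bool)} {s : Seg} :
    s ∈ lO o π ↔ ∃ B ∈ blocks 0 [] π, s ∈ bO o B.1 B.2.1 B.2.2 := by
  unfold lO
  rw [List.mem_flatMap]

theorem heights_drawn (o : Bool) {π : List (ℕ × ℕ × ℕ × List Bool)} (hW : WF π [])
    {h : ℕ × ℕ × ℕ → ℝ} (h01 : ∀ v, 0 < h v ∧ h v < 1) (hB : ∀ B ∈ blocks 0 [] π, blkOK h B) :
    Drawn (lV o π) (lE π) (lO o π) (ptOf h) := by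
  refine ⟨?_, ?_, ?_, ?_⟩
  · refine lV_seg0 o hW h01 ?_ (fun B hB' => (hB B hB').2)
    intro x hx h2
    obtain ⟨B, hB', hv⟩ := gD_mem_lV hx
    exact half_lt (blocks_wf hW B hB') h01 (hB B hB') hv h2
  · have key : ∀ B ∈ blocks 0 [] π, ∀ B' ∈ blocks 0 [] π, ∀ u ∈ bV B.1 B.2.1 B.2.2,
        ∀ v ∈ bV B'.1 B'.2.1 B'.2.2, ptOf h u = ptOf h v → ¬ B.1 < B'.1 := by
      intro B hBm B' hBm' u hu v hv huv hlt
      have h1 := (bV_x (blocks_wf hW B hBm) h01 hu).2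
      have h2 := (bV_x (blocks_wf hW B' hBm') h01 hv).1
      rw [huv] at h1
      have h3 : (B.1 : ℝ) + 1 ≤ (B'.1 : ℝ) := by exact_mod_cast hlt
      linarith
    intro x hx y hy hxy
    obtain ⟨B, hBm, hu⟩ := gD_mem_lV hx
    obtain ⟨B', hBm', hv⟩ := gD_mem_lV hy
    have h1 : B.1 = B'.1 := by
      rcases lt_trichotomy B.1 B'.1 with hl | hl | hl
      · exact absurd hl (key B hBm B' hBm' _ hu _ hv hxy)
      · exact hl
      · exact absurd hl (key B' hBm' B hBm _ hv _ hu hxy.symm)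
    have h2 : B = B' := blocks_inj B hBm B' hBm' h1
    subst h2
    exact pt_inj (blocks_wf hW B hBm) h01 (hB B hBm) hu hv hxy
  · intro e he f hf hne z hz hz'
    obtain ⟨B, hBm, he⟩ := gD_mem_lE.1 he
    obtain ⟨B', hBm', hf⟩ := gD_mem_lE.1 hf
    rcases lt_trichotomy B.1 B'.1 with hl | hl | hl
    · exact gD_edge2 (blocks_wf hW B hBm) (blocks_wf hW B' hBm') hl h01 he hf hz hz'
    · have h2 : B = B' := blocks_inj B hBm B' hBm' hl
      subst h2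
      exact gD_edge1 (blocks_wf hW B hBm) h01 (hB B hBm) he hf hne hz hz'
    · obtain ⟨w, h1, h2, h3⟩ :=
        gD_edge2 (blocks_wf hW B' hBm') (blocks_wf hW B hBm) hl h01 hf he hz' hz
      exact ⟨w, h2, h1, h3⟩
  · intro e he s hs
    obtain ⟨B, hBm, he⟩ := gD_mem_lE.1 he
    obtain ⟨B', hBm', hs⟩ := gD_mem_lO.1 hs
    by_cases hl : B.1 = B'.1
    · have h2 : B = B' := blocks_inj B hBm B' hBm' hl
      subst h2
      exact gD_obst1 o (blocks_wf hW B hBm) h01 (hB B hBm) he hs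
    · rw [Set.disjoint_left]
      intro z hz hz'
      obtain ⟨h1, h2, -, -⟩ := bE_x (blocks_wf hW B hBm) h01 he hz
      obtain ⟨h3, h4⟩ := bO_x o (blocks_wf hW B' hBm') hs hz'
      have h5 : (B.1 : ℝ) < (B'.1 : ℝ) + 1 := by linarith
      have h6 : (B'.1 : ℝ) < (B.1 : ℝ) + 1 := by linarith
      have h7 : B.1 < B'.1 + 1 := by exact_mod_cast h5
      have h8 : B'.1 < B.1 + 1 := by exact_mod_cast h6
      omega

theorem drawn_heights (o : Bool) {π : List (ℕ × ℕ × ℕ × List Bool)} (hW : WF π [])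
    {P : ℕ × ℕ × ℕ → ℝ × ℝ} (hD : Drawn (lV o π) (lE π) (lO o π) P) :
    ∃ h : ℕ × ℕ × ℕ → ℝ, (∀ v, 0 ≤ h v ∧ h v ≤ 1) ∧ ∀ B ∈ blocks 0 [] π, blkOK h B := by
  have hch : ∀ v : ℕ × ℕ × ℕ, ∃ u : ℝ, 0 ≤ u ∧ u ≤ 1 ∧ ((∃ x ∈ lV o π, x.1 = v) →
      (v.2.2 = 2 → 1 / 2 ≤ u) ∧ P v = if v.2.2 = 2 then (2 * (v.1 : ℝ) + 2 * u,
        16 * (v.2.1 : ℝ) + 4 * u) else (2 * (v.1 : ℝ), 16 * (v.2.1 : ℝ) + 4 * u)) := by
    intro v
    by_cases hv : ∃ x ∈ lV o π, x.1 = v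
    · obtain ⟨x, hx, rfl⟩ := hv
      obtain ⟨u, hu0, hu1, h2, h3⟩ := lV_segs o hW x hx (P x.1) (hD.onSeg x hx)
      refine ⟨u, hu0, hu1, fun _ => ⟨fun h => (h2 h).1, ?_⟩⟩
      split_ifs with h
      · exact (h2 h).2
      · exact h3 h
    · exact ⟨1 / 2, by norm_num, by norm_num, fun h => absurd h hv⟩
  choose h h0 h1 hP using hch
  have hPv : ∀ v : ℕ × ℕ × ℕ, (∃ x ∈ lV o π, x.1 = v) → P v = ptOf h v := by
    intro v hv
    rw [(hP v hv).2]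
    rfl
  have hE : ∀ B ∈ blocks 0 [] π, ∀ e ∈ bE B.1 B.2.1 B.2.2,
      P e.1 = ptOf h e.1 ∧ P e.2 = ptOf h e.2 := by
    intro B hB e he
    have h2 := lE_ends o hW e (gD_mem_lE.2 ⟨B, hB, he⟩)
    exact ⟨hPv _ h2.1, hPv _ h2.2⟩
  have hEE : ∀ B ∈ blocks 0 [] π, ∀ e ∈ bE B.1 B.2.1 B.2.2, ∀ f ∈ bE B.1 B.2.1 B.2.2, e ≠ f →
      ∀ z ∈ segment ℝ (ptOf h e.1) (ptOf h e.2), z ∈ segment ℝ (ptOf h f.1) (ptOf h f.2) →
      ∃ w, (w = e.1 ∨ w = e.2) ∧ (w = f.1 ∨ w = f.2) ∧ z = ptOf h w := by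
    intro B hB e he f hf hne z hz hz'
    obtain ⟨he1, he2⟩ := hE B hB e he
    obtain ⟨hf1, hf2⟩ := hE B hB f hf
    rw [← he1, ← he2] at hz
    rw [← hf1, ← hf2] at hz'
    obtain ⟨w, h3, h4, h5⟩ := hD.edge e (gD_mem_lE.2 ⟨B, hB, he⟩) f (gD_mem_lE.2 ⟨B, hB, hf⟩)
      hne z hz hz'
    refine ⟨w, h3, h4, ?_⟩
    rcases h3 with rfl | rfl
    · rw [h5, he1]
    · rw [h5, he2]
  have hO : ∀ B ∈ blocks 0 [] π, ∀ e ∈ bE B.1 B.2.1 B.2.2, ∀ s ∈ bO o B.1 B.2.1 B.2.2,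
      Disjoint (segment ℝ (ptOf h e.1) (ptOf h e.2)) s.pts := by
    intro B hB e he s hs
    obtain ⟨he1, he2⟩ := hE B hB e he
    rw [← he1, ← he2]
    exact hD.obst e (gD_mem_lE.2 ⟨B, hB, he⟩) s (gD_mem_lO.2 ⟨B, hB, hs⟩)
  refine ⟨h, fun v => ⟨h0 v, h1 v⟩, ?_⟩
  rintro ⟨b, S, I⟩ hB
  have hI : WFI I S := blocks_wf hW _ hB
  have h01 : ∀ v, 0 ≤ h v ∧ h v ≤ 1 := fun v => ⟨h0 v, h1 v⟩
  refine ⟨?_, ?_⟩
  · intro q hq
    refine pass_sound o q h01 ?_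
    intro s hs
    refine hO _ hB ((q.1, q.2.1, 0), (q.1 + 1, q.2.2.1, 0)) ?_ s ?_
    · unfold bE
      rw [List.mem_append, List.mem_map]
      exact Or.inl ⟨q, hq, rfl⟩
    · unfold bO
      rw [List.mem_append, List.mem_flatMap]
      exact Or.inl ⟨q, hq, hs⟩
  · change extraOK h b I
    have hkind := WFI_kind hI
    have hcases : I.1 = 0 ∨ I.1 = 1 ∨ I.1 = 2 ∨ I.1 = 3 ∨ I.1 = 4 ∨ I.1 = 5 ∨ I.1 = 6 := by
      omega
    rcases hcases with hk | hk | hk | hk | hk | hk | hk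
    · unfold extraOK
      rw [hk]
      norm_num
    · obtain ⟨x, hx, hx1, hxs⟩ := lV_src o hW hB hk
      change x.1 = (4 * b + 3, I.2.1, 0) at hx1
      have h3 := hxs _ (hD.onSeg x hx)
      change (P x.1).2 = 16 * (I.2.1 : ℝ) + 4 - I.2.2.1 at h3
      rw [hPv x.1 ⟨x, hx, rfl⟩, hx1] at h3
      simp only [ptOf, if_neg (show ¬ (0 : ℕ) = 2 by norm_num)] at h3
      unfold extraOK
      rw [if_pos hk]
      linarith
    · unfold extraOK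
      rw [hk]
      norm_num
    · exact xs3 hI hk h01 (hEE _ hB)
    · exact xs4 hI hk h01 (hEE _ hB)
    · exact xs5 hI hk h01 (hEE _ hB)
    · refine xs6 o hI hk h01 ?_ (hEE _ hB) (hO _ hB)
      have h3 : (((4 * b + 1, I.2.1, 0), (4 * b + 2, I.2.1 + 1, 2)) :
          (ℕ × ℕ × ℕ) × (ℕ × ℕ × ℕ)) ∈ lE π := by
        rw [gD_mem_lE]
        refine ⟨_, hB, ?_⟩
        unfold bE bX
        rw [List.mem_append]
        right
        have e1 : ¬ (I.1 = 3 ∨ I.1 = 5) := by omega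
        have e2 : ¬ I.1 = 4 := by omega
        rw [if_neg e1, if_neg e2, if_pos hk]
        exact List.mem_cons_self
      exact (hP _ (lE_ends o hW _ h3).2).1 rfl

end Pool.Agent.H77.SG
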