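import Pool.Agent.H77.SG.Geo

/-!
# Ordinary edges of a block do not cross each other, nor the obstacles of other ordinary edges

PROOFS. `pass_pass`: if the two edges are in the same strip, `bP_order` gives, up to exchange,
`i ≤ i'` and `j < j'`. If `i < i'` the left ends and the right ends are in different slots, in the
same order, so the segments are disjoint (`seg_disj`). If `i = i'` the left end is the same vertex and
the right ends are ordered (`seg_order`). If the strips are different, `T < T'`, a common point has the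
first coordinate `2 T'`, `T' = T + 1`, it is the right end of the first edge and the left end of the
second, so the slots are equal. `pass_wall`: on the line `X = 2 T + 1` the edge `(T, i, j)` is at a
height in `[8 (i + j), 8 (i + j) + 4]`, and for two different ordinary edges in a strip the sums
`i + j` are different; if the two edges are equal use `pass_complete`.
-/

set_option autoImplicit false

namespace Pool.Agent.H77.SG

theorem ge1_pt (h : ℕ × ℕ × ℕ → ℝ) (T k : ℕ) :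
    ptOf h (T, k, 0) = (2 * (T : ℝ), 16 * (k : ℝ) + 4 * h (T, k, 0)) := by
  simp [ptOf]

theorem ge1_lt (h : ℕ × ℕ × ℕ → ℝ) (T i j : ℕ) :
    (ptOf h (T, i, 0)).1 < (ptOf h (T + 1, j, 0)).1 := by
  rw [ge1_pt, ge1_pt]
  push_cast
  linarith

theorem ge1_slot {i j : ℕ} {u v : ℝ} (hu : 0 < u ∧ u < 1) (hv : 0 < v ∧ v < 1)
    (h : 16 * (i : ℝ) + 4 * u = 16 * (j : ℝ) + 4 * v) : i = j := by
  rcases lt_trichotomy i j with hij | hij | hij
  · have h1 : (i : ℝ) + 1 ≤ j := by exact_mod_cast hij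
    linarith [hu.1, hu.2, hv.1, hv.2]
  · exact hij
  · have h1 : (j : ℝ) + 1 ≤ i := by exact_mod_cast hij
    linarith [hu.1, hu.2, hv.1, hv.2]

/-- Two ordered edges in the same strip. -/
theorem ge1_same {h : ℕ × ℕ × ℕ → ℝ} (h01 : ∀ v, 0 < h v ∧ h v < 1) {T i j i' j' : ℕ}
    (hi : i ≤ i') (hj : j < j') {z : ℝ × ℝ}
    (hz : z ∈ segment ℝ (ptOf h (T, i, 0)) (ptOf h (T + 1, j, 0)))
    (hz' : z ∈ segment ℝ (ptOf h (T, i', 0)) (ptOf h (T + 1, j', 0))) :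
    i = i' ∧ z = ptOf h (T, i, 0) := by
  have hAB := ge1_lt h T i j
  have hCD := ge1_lt h T i' j'
  have e1 : (ptOf h (T, i', 0)).1 = (ptOf h (T, i, 0)).1 := by rw [ge1_pt, ge1_pt]
  have e2 : (ptOf h (T + 1, j', 0)).1 = (ptOf h (T + 1, j, 0)).1 := by rw [ge1_pt, ge1_pt]
  obtain ⟨m1, m2, m3⟩ := (mem_seg_iff hAB z).1 hz
  have l1 := lineAt_left hAB
  have l2 := lineAt_left hCD
  have r1 := lineAt_right hAB
  have r2 := lineAt_right hCD
  rw [e1] at l2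
  rw [e2] at r2
  have hr : (ptOf h (T + 1, j, 0)).2 < (ptOf h (T + 1, j', 0)).2 := by
    rw [ge1_pt, ge1_pt]
    have h1 : (j : ℝ) + 1 ≤ j' := by exact_mod_cast hj
    have h2 := h01 (T + 1, j, 0)
    have h3 := h01 (T + 1, j', 0)
    simp only
    linarith [h2.1, h2.2, h3.1, h3.2]
  rcases Nat.lt_or_eq_of_le hi with hlt | heq
  · exfalso
    have hl : (ptOf h (T, i, 0)).2 < (ptOf h (T, i', 0)).2 := by
      rw [ge1_pt, ge1_pt]
      have h1 : (i : ℝ) + 1 ≤ i' := by exact_mod_cast hlt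
      have h2 := h01 (T, i, 0)
      have h3 := h01 (T, i', 0)
      simp only
      linarith [h2.1, h2.2, h3.1, h3.2]
    refine seg_disj hAB hCD (s := (ptOf h (T, i, 0)).1) (t := (ptOf h (T + 1, j, 0)).1) ?_ ?_
      hz hz' m1 m2
    · rw [l1, l2]; exact hl
    · rw [r1, r2]; exact hr
  · subst heq
    refine ⟨rfl, ?_⟩
    rcases seg_order hAB hCD (s := (ptOf h (T, i, 0)).1) (t := (ptOf h (T + 1, j, 0)).1)
      (by rw [l1, l2]) (by rw [r1, r2]; exact hr.le)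
      (by rw [r1, r2]; exact fun hh => absurd hh.2 hr.ne) hz hz' m1 m2 with h4 | h4
    · refine Prod.ext h4.1 ?_
      rw [m3, h4.1, l1]
    · exfalso
      have h5 := h4.2
      rw [r1, r2] at h5
      exact hr.ne h5

/-- Two edges in different strips. -/
theorem ge1_diff {h : ℕ × ℕ × ℕ → ℝ} (h01 : ∀ v, 0 < h v ∧ h v < 1) {T T' i j i' j' : ℕ}
    (hT : T < T') {z : ℝ × ℝ}
    (hz : z ∈ segment ℝ (ptOf h (T, i, 0)) (ptOf h (T + 1, j, 0)))
    (hz' : z ∈ segment ℝ (ptOf h (T', i', 0)) (ptOf h (T' + 1, j', 0))) :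
    T + 1 = T' ∧ j = i' ∧ z = ptOf h (T + 1, j, 0) := by
  have hAB := ge1_lt h T i j
  have hCD := ge1_lt h T' i' j'
  obtain ⟨m1, m2, m3⟩ := (mem_seg_iff hAB z).1 hz
  obtain ⟨m1', m2', m3'⟩ := (mem_seg_iff hCD z).1 hz'
  have r1 := lineAt_right hAB
  have l2 := lineAt_left hCD
  have hTT : T' ≤ T + 1 := by
    rw [ge1_pt] at m1' m2
    simp only at m1' m2
    have h1 : (2 * (T' : ℝ)) ≤ 2 * ((T + 1 : ℕ) : ℝ) := le_trans m1' m2
    have h2 : (T' : ℝ) ≤ ((T + 1 : ℕ) : ℝ) := by linarith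
    exact_mod_cast h2
  have hT1 : T + 1 = T' := by omega
  subst hT1
  have e1 : (ptOf h (T + 1, i', 0)).1 = (ptOf h (T + 1, j, 0)).1 := by rw [ge1_pt, ge1_pt]
  have z1 : z.1 = (ptOf h (T + 1, j, 0)).1 := by
    rw [e1] at m1'
    exact le_antisymm m2 m1'
  have z2 : z.2 = (ptOf h (T + 1, j, 0)).2 := by rw [m3, z1, r1]
  have z3 : z.2 = (ptOf h (T + 1, i', 0)).2 := by rw [m3', z1, ← e1, l2]
  refine ⟨rfl, ?_, Prod.ext z1 z2⟩
  rw [z2, ge1_pt, ge1_pt] at z3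
  exact ge1_slot (h01 _) (h01 _) z3

theorem pass_pass {b : ℕ} {S : List Bool} {I : ℕ × ℕ × ℕ × List Bool} (hI : WFI I S)
    {h : ℕ × ℕ × ℕ → ℝ} (h01 : ∀ v, 0 < h v ∧ h v < 1) {q q' : ℕ × ℕ × ℕ × Bool}
    (hq : q ∈ bP b S I) (hq' : q' ∈ bP b S I) (hne : q ≠ q') :
    ∀ z ∈ segment ℝ (ptOf h (q.1, q.2.1, 0)) (ptOf h (q.1 + 1, q.2.2.1, 0)),
      z ∈ segment ℝ (ptOf h (q'.1, q'.2.1, 0)) (ptOf h (q'.1 + 1, q'.2.2.1, 0)) →
      ∃ w : ℕ × ℕ × ℕ, (w = (q.1, q.2.1, 0) ∨ w = (q.1 + 1, q.2.2.1, 0)) ∧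
        (w = (q'.1, q'.2.1, 0) ∨ w = (q'.1 + 1, q'.2.2.1, 0)) ∧ z = ptOf h w := by
  intro z hz hz'
  obtain ⟨T, i, j, s⟩ := q
  obtain ⟨T', i', j', s'⟩ := q'
  simp only at hz hz' ⊢
  rcases lt_trichotomy T T' with hT | hT | hT
  · obtain ⟨h1, h2, h3⟩ := ge1_diff h01 hT hz hz'
    subst h1 h2
    exact ⟨(T + 1, j, 0), Or.inr rfl, Or.inl rfl, h3⟩
  · subst hT
    rcases bP_order hI hq hq' rfl hne with ⟨h1, h2⟩ | ⟨h1, h2⟩
    · obtain ⟨h3, h4⟩ := ge1_same h01 h1 h2 hz hz'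
      subst h3
      exact ⟨(T, i, 0), Or.inl rfl, Or.inl rfl, h4⟩
    · obtain ⟨h3, h4⟩ := ge1_same h01 h1 h2 hz' hz
      subst h3
      exact ⟨(T, i', 0), Or.inl rfl, Or.inl rfl, h4⟩
  · obtain ⟨h1, h2, h3⟩ := ge1_diff h01 hT hz' hz
    subst h1 h2
    exact ⟨(T' + 1, j', 0), Or.inl rfl, Or.inr rfl, h3⟩

/-- The obstacle of an ordinary edge is a vertical segment. -/
theorem ge1_wall (o : Bool) (q : ℕ × ℕ × ℕ × Bool) : ∃ lo hi : ℤ, lo ≤ hi ∧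
    8 * ((q.2.1 : ℤ) + q.2.2.1) ≤ lo ∧ hi ≤ 8 * ((q.2.1 : ℤ) + q.2.2.1) + 4 ∧
    pWall o q = wallSeg o (2 * q.1 + 1) lo (2 * q.1 + 1) hi := by
  by_cases hl : low q.1 q.2.2.2 = true
  · refine ⟨8 * (q.2.1 + q.2.2.1), 8 * (q.2.1 + q.2.2.1) + 2, by omega, by omega, by omega, ?_⟩
    simp only [pWall, hl, if_true]
  · refine ⟨8 * (q.2.1 + q.2.2.1) + 2, 8 * (q.2.1 + q.2.2.1) + 4, by omega, by omega, by omega, ?_⟩
    simp only [pWall, hl, if_false, Bool.false_eq_true]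

/-- The height of an edge on the middle line. -/
theorem ge1_mid {h : ℕ × ℕ × ℕ → ℝ} (h01 : ∀ v, 0 < h v ∧ h v < 1) {T i j : ℕ} {z : ℝ × ℝ}
    (hz : z ∈ segment ℝ (ptOf h (T, i, 0)) (ptOf h (T + 1, j, 0)))
    (hx : z.1 = 2 * (T : ℝ) + 1) :
    8 * ((i : ℝ) + j) < z.2 ∧ z.2 < 8 * ((i : ℝ) + j) + 4 := by
  obtain ⟨m1, m2, m3⟩ := (mem_seg_iff (ge1_lt h T i j) z).1 hz
  have h1 := h01 (T, i, 0)
  have h2 := h01 (T + 1, j, 0)
  rw [hx, ge1_pt, ge1_pt] at m3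
  simp only [lineAt] at m3
  push_cast at m3
  have h3 : (2 * (T : ℝ) + 1 - 2 * T) / (2 * ((T : ℝ) + 1) - 2 * T) = 1 / 2 := by
    have h4 : (2 * ((T : ℝ) + 1) - 2 * T) = 2 := by ring
    have h5 : (2 * (T : ℝ) + 1 - 2 * T) = 1 := by ring
    rw [h4, h5]
  rw [h3] at m3
  constructor
  · linarith [h1.1, h2.1]
  · linarith [h1.2, h2.2]

/-- An edge on the middle line of a strip belongs to this strip. -/
theorem ge1_strip {h : ℕ × ℕ × ℕ → ℝ} {T T' i j : ℕ} {z : ℝ × ℝ}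
    (hz : z ∈ segment ℝ (ptOf h (T, i, 0)) (ptOf h (T + 1, j, 0)))
    (hx : z.1 = 2 * (T' : ℝ) + 1) : T = T' := by
  obtain ⟨m1, m2, -⟩ := (mem_seg_iff (ge1_lt h T i j) z).1 hz
  rw [ge1_pt] at m1 m2
  simp only [hx] at m1 m2
  push_cast at m2
  have h1 : (T : ℝ) < (T' : ℝ) + 1 := by linarith
  have h2 : (T' : ℝ) < (T : ℝ) + 1 := by linarith
  have h3 : T < T' + 1 := by exact_mod_cast h1
  have h4 : T' < T + 1 := by exact_mod_cast h2
  omega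

theorem pass_wall (o : Bool) {b : ℕ} {S : List Bool} {I : ℕ × ℕ × ℕ × List Bool} (hI : WFI I S)
    {h : ℕ × ℕ × ℕ → ℝ} (h01 : ∀ v, 0 < h v ∧ h v < 1) (hB : blkOK h (b, S, I))
    {q q' : ℕ × ℕ × ℕ × Bool} (hq : q ∈ bP b S I) (hq' : q' ∈ bP b S I) :
    ∀ s ∈ pWall o q', Disjoint
      (segment ℝ (ptOf h (q.1, q.2.1, 0)) (ptOf h (q.1 + 1, q.2.2.1, 0))) s.pts := by
  by_cases hqq : q = q'
  · subst hqq
    exact pass_complete o q (fun v => ⟨(h01 v).1.le, (h01 v).2.le⟩) (hB.1 q hq)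
  obtain ⟨lo, hi, hlh, hlo, hhi, hw⟩ := ge1_wall o q'
  rw [hw, wallSeg_iff, Set.disjoint_left]
  intro z hz hz'
  have hlh' : ((lo : ℤ) : ℝ) ≤ (hi : ℤ) := by exact_mod_cast hlh
  rw [mem_vert hlh'] at hz'
  obtain ⟨z1, z2, z3⟩ := hz'
  obtain ⟨T, i, j, s⟩ := q
  obtain ⟨T', i', j', s'⟩ := q'
  simp only at hz z1 hlo hhi
  push_cast at z1
  have hT := ge1_strip hz z1
  subst hT
  obtain ⟨m1, m2⟩ := ge1_mid h01 hz z1
  have hlo' : 8 * ((i' : ℝ) + j') ≤ (lo : ℤ) := by exact_mod_cast hlo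
  have hhi' : ((hi : ℤ) : ℝ) ≤ 8 * ((i' : ℝ) + j') + 4 := by exact_mod_cast hhi
  rcases bP_order hI hq hq' rfl hqq with ⟨h1, h2⟩ | ⟨h1, h2⟩
  · simp only at h1 h2
    have h3 : (i : ℝ) ≤ i' := by exact_mod_cast h1
    have h4 : (j : ℝ) + 1 ≤ j' := by exact_mod_cast h2
    linarith
  · simp only at h1 h2
    have h3 : (i' : ℝ) ≤ i := by exact_mod_cast h1
    have h4 : (j' : ℝ) + 1 ≤ j := by exact_mod_cast h2
    linarith

end Pool.Agent.H77.SG
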