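import Pool.Agent.H77.SG.GE1

/-!
# The gate of kind 3

The gate edges are: (with `p = I.2.1`, `T = 4 b + 0`) the bottom wire `(T, p) - (T+1, p+1; 0) = c`, the long edge `a = (T, p+1; 0) - (T+2, p+1; 1)` and the top wire `(T, p+2) - (T+1, p+2) - (T+2, p+1; 0)`. The long edge is at the heights `[16 (p+1), 16 (p+1) + 4]`; `c` is below the long edge and the end of the top wire is above the end of the long edge, by `extraOK`.
All other ordinary edges in the two strips of the long edge are in slots `< p` or `≥ p + 3` at both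
ends. Edges in the neighbouring strips can meet the long edge only at its ends; no ordinary edge
starts at the slot `p + 1` of the line `T + 2`.

PROOFS. `px`: list the ordinary edges (`mem_bP`, unfold `has` and `tgt`); use `seg_bounds` for the
edges in other slots and `seg_disj`, `seg_order` for the gate edges. `xx`: there is only one extra
edge. `xw`: the obstacle of the ordinary edge `(T', i, j)` is on the line `X = 2 T' + 1` at
heights in `[8 (i + j), 8 (i + j) + 4]` and `i + j ≠ 2 (p + 1)` for the ordinary edges in the two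
strips of the long edge. `xs` (soundness): if `c` were on the wrong side of the long edge, the edge
which ends in `c` would meet the long edge (`seg_meet`), and a common point is a common end, which does
not exist; the same for the end of the other gate edge.
-/

set_option autoImplicit false

namespace Pool.Agent.H77.SG

private theorem gk3_X {b : ℕ} {I : ℕ × ℕ × ℕ × List Bool} (hk : I.1 = 3) :
    bX b I = [((4 * b, I.2.1 + 1, 0), (4 * b + 2, I.2.1 + 1, 1))] := by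
  unfold bX
  rw [if_pos (Or.inl hk)]

/-- the ordinary edges of the block -/
private theorem gk3_list {b : ℕ} {S : List Bool} {I : ℕ × ℕ × ℕ × List Bool} (hk : I.1 = 3)
    {q : ℕ × ℕ × ℕ × Bool} (hq : q ∈ bP b S I) :
    (q.1 = 4 * b ∧ ((q.2.1 < I.2.1 ∧ q.2.2.1 = q.2.1) ∨ (q.2.1 = I.2.1 ∧ q.2.2.1 = I.2.1 + 1) ∨
      (I.2.1 + 2 ≤ q.2.1 ∧ q.2.2.1 = q.2.1))) ∨
    (q.1 = 4 * b + 1 ∧ ((q.2.1 < I.2.1 ∧ q.2.2.1 = q.2.1) ∨
      (q.2.1 = I.2.1 + 2 ∧ q.2.2.1 = I.2.1 + 1) ∨ (I.2.1 + 3 ≤ q.2.1 ∧ q.2.2.1 = q.2.1))) ∨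
    (q.1 = 4 * b + 2 ∧ (q.2.1 < I.2.1 ∨ I.2.1 + 3 ≤ q.2.1)) ∨ q.1 = 4 * b + 3 := by
  rcases mem_bP.mp hq with ⟨h1, -⟩ | ⟨l, k, hl, -, -, hh, rfl⟩
  · rw [hk] at h1
    omega
  · rw [hk] at hh
    simp only [hk]
    unfold has at hh
    rw [if_neg (by norm_num), if_neg (by norm_num), if_pos rfl] at hh
    unfold tgt
    rw [if_neg (by norm_num), if_neg (by norm_num), if_pos rfl]
    have hl' : l = 0 ∨ l = 1 ∨ l = 2 ∨ l = 3 := by omega
    rcases hl' with rfl | rfl | rfl | rfl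
    · rw [if_pos rfl] at hh ⊢
      simp only [Bool.and_eq_true, decide_eq_true_eq, Bool.not_eq_true', decide_eq_false_iff_not]
        at hh
      refine Or.inl ⟨by omega, ?_⟩
      by_cases h1 : k = I.2.1
      · rw [if_pos h1]
        exact Or.inr (Or.inl ⟨h1, rfl⟩)
      · rw [if_neg h1]
        rcases lt_or_ge k I.2.1 with h2 | h2
        · exact Or.inl ⟨h2, rfl⟩
        · exact Or.inr (Or.inr ⟨by omega, rfl⟩)
    · rw [if_neg (by norm_num), if_pos rfl] at hh ⊢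
      simp only [Bool.and_eq_true, decide_eq_true_eq, Bool.not_eq_true', decide_eq_false_iff_not]
        at hh
      refine Or.inr (Or.inl ⟨by omega, ?_⟩)
      by_cases h1 : k = I.2.1 + 2
      · rw [if_pos h1]
        exact Or.inr (Or.inl ⟨h1, rfl⟩)
      · rw [if_neg h1]
        rcases lt_or_ge k I.2.1 with h2 | h2
        · exact Or.inl ⟨h2, rfl⟩
        · exact Or.inr (Or.inr ⟨by omega, rfl⟩)
    · rw [if_neg (by norm_num), if_neg (by norm_num)] at hh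
      simp only [Bool.and_eq_true, decide_eq_true_eq, Bool.not_eq_true', Bool.and_eq_false_iff,
        decide_eq_false_iff_not] at hh
      refine Or.inr (Or.inr (Or.inl ⟨by omega, ?_⟩))
      show k < I.2.1 ∨ I.2.1 + 3 ≤ k
      omega
    · exact Or.inr (Or.inr (Or.inr rfl))

private theorem gk3_pt (h : ℕ × ℕ × ℕ → ℝ) (T k e : ℕ) (he : e ≠ 2) :
    ptOf h (T, k, e) = (2 * (T : ℝ), 16 * (k : ℝ) + 4 * h (T, k, e)) := by
  unfold ptOf
  rw [if_neg he]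

private theorem gk3_pt1 (h : ℕ × ℕ × ℕ → ℝ) (T k e : ℕ) (he : e ≠ 2) :
    (ptOf h (T, k, e)).1 = 2 * (T : ℝ) := by rw [gk3_pt h T k e he]

private theorem gk3_pt2 (h : ℕ × ℕ × ℕ → ℝ) (T k e : ℕ) (he : e ≠ 2) :
    (ptOf h (T, k, e)).2 = 16 * (k : ℝ) + 4 * h (T, k, e) := by rw [gk3_pt h T k e he]

/-- the long edge -/
private theorem gk3_long {b p : ℕ} {h : ℕ × ℕ × ℕ → ℝ} (h01 : ∀ v, 0 ≤ h v ∧ h v ≤ 1)
    {z : ℝ × ℝ} (hz : z ∈ segment ℝ (ptOf h (4 * b, p + 1, 0)) (ptOf h (4 * b + 2, p + 1, 1))) :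
    8 * (b : ℝ) ≤ z.1 ∧ z.1 ≤ 8 * (b : ℝ) + 4 ∧ 16 * (p : ℝ) + 16 ≤ z.2 ∧
      z.2 ≤ 16 * (p : ℝ) + 20 := by
  have e1 := gk3_pt1 h (4 * b) (p + 1) 0 (by norm_num)
  have e2 := gk3_pt2 h (4 * b) (p + 1) 0 (by norm_num)
  have e3 := gk3_pt1 h (4 * b + 2) (p + 1) 1 (by norm_num)
  have e4 := gk3_pt2 h (4 * b + 2) (p + 1) 1 (by norm_num)
  push_cast at e1 e2 e3 e4
  have hlt : (ptOf h (4 * b, p + 1, 0)).1 < (ptOf h (4 * b + 2, p + 1, 1)).1 := by
    rw [e1, e3]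
    linarith
  have h1 := (mem_seg_iff hlt z).mp hz
  have ha := h01 (4 * b, p + 1, 0)
  have hb := h01 (4 * b + 2, p + 1, 1)
  have h2 := seg_bounds (lo := 16 * (p : ℝ) + 16) (hi := 16 * (p : ℝ) + 20) hz
    (by rw [e2]; linarith) (by rw [e4]; linarith) (by rw [e2]; linarith) (by rw [e4]; linarith)
  refine ⟨?_, ?_, h2.1, h2.2⟩
  · have := h1.1
    rw [e1] at this
    linarith
  · have := h1.2.1
    rw [e3] at this
    linarith

/-- bounds for an ordinary edge -/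
private theorem gk3_ord {T i j : ℕ} {h : ℕ × ℕ × ℕ → ℝ}
    {z : ℝ × ℝ} (hz : z ∈ segment ℝ (ptOf h (T, i, 0)) (ptOf h (T + 1, j, 0))) :
    2 * (T : ℝ) ≤ z.1 ∧ z.1 ≤ 2 * (T : ℝ) + 2 := by
  have e1 := gk3_pt1 h T i 0 (by norm_num)
  have e3 := gk3_pt1 h (T + 1) j 0 (by norm_num)
  push_cast at e1 e3
  have hlt : (ptOf h (T, i, 0)).1 < (ptOf h (T + 1, j, 0)).1 := by
    rw [e1, e3]
    linarith
  have h1 := (mem_seg_iff hlt z).mp hz
  refine ⟨?_, ?_⟩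
  · have := h1.1
    rwa [e1] at this
  · have := h1.2.1
    rw [e3] at this
    linarith

/-- bounds for an ordinary edge between slots of the same height -/
private theorem gk3_hor {T i : ℕ} {h : ℕ × ℕ × ℕ → ℝ} (h01 : ∀ v, 0 ≤ h v ∧ h v ≤ 1)
    {z : ℝ × ℝ} (hz : z ∈ segment ℝ (ptOf h (T, i, 0)) (ptOf h (T + 1, i, 0))) :
    16 * (i : ℝ) ≤ z.2 ∧ z.2 ≤ 16 * (i : ℝ) + 4 := by
  have e2 := gk3_pt2 h T i 0 (by norm_num)
  have e4 := gk3_pt2 h (T + 1) i 0 (by norm_num)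
  have ha := h01 (T, i, 0)
  have hb := h01 (T + 1, i, 0)
  exact seg_bounds hz (by rw [e2]; linarith) (by rw [e4]; linarith) (by rw [e2]; linarith)
    (by rw [e4]; linarith)

/-- the long edge at the middle line -/
private theorem gk3_mid {b p : ℕ} {h : ℕ × ℕ × ℕ → ℝ} :
    lineAt (ptOf h (4 * b, p + 1, 0)) (ptOf h (4 * b + 2, p + 1, 1)) (8 * (b : ℝ) + 2) =
      16 * (p : ℝ) + 16 + 2 * (h (4 * b, p + 1, 0) + h (4 * b + 2, p + 1, 1)) := by
  rw [gk3_pt h _ _ 0 (by norm_num), gk3_pt h _ _ 1 (by norm_num)]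
  unfold lineAt
  push_cast
  have h1 : (8 * (b : ℝ) + 2 - 2 * (4 * (b : ℝ))) / (2 * (4 * (b : ℝ) + 2) - 2 * (4 * (b : ℝ))) =
      1 / 2 := by
    have h2 : 8 * (b : ℝ) + 2 - 2 * (4 * (b : ℝ)) = 2 := by ring
    have h3 : 2 * (4 * (b : ℝ) + 2) - 2 * (4 * (b : ℝ)) = 4 := by ring
    rw [h2, h3]
    norm_num
  rw [h1]
  ring

/-- the long edge at its left end -/
private theorem gk3_left {b p : ℕ} {h : ℕ × ℕ × ℕ → ℝ} :
    lineAt (ptOf h (4 * b, p + 1, 0)) (ptOf h (4 * b + 2, p + 1, 1)) (8 * (b : ℝ)) =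
      16 * (p : ℝ) + 16 + 4 * h (4 * b, p + 1, 0) := by
  rw [gk3_pt h _ _ 0 (by norm_num), gk3_pt h _ _ 1 (by norm_num)]
  unfold lineAt
  push_cast
  have h1 : 8 * (b : ℝ) - 2 * (4 * (b : ℝ)) = 0 := by ring
  rw [h1, zero_div, mul_zero]
  ring

/-- the long edge at its right end -/
private theorem gk3_right {b p : ℕ} {h : ℕ × ℕ × ℕ → ℝ} :
    lineAt (ptOf h (4 * b, p + 1, 0)) (ptOf h (4 * b + 2, p + 1, 1)) (8 * (b : ℝ) + 4) =
      16 * (p : ℝ) + 16 + 4 * h (4 * b + 2, p + 1, 1) := by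
  rw [gk3_pt h _ _ 0 (by norm_num), gk3_pt h _ _ 1 (by norm_num)]
  unfold lineAt
  push_cast
  have h1 : (8 * (b : ℝ) + 4 - 2 * (4 * (b : ℝ))) / (2 * (4 * (b : ℝ) + 2) - 2 * (4 * (b : ℝ))) =
      1 := by
    have h2 : 8 * (b : ℝ) + 4 - 2 * (4 * (b : ℝ)) = 4 := by ring
    have h3 : 2 * (4 * (b : ℝ) + 2) - 2 * (4 * (b : ℝ)) = 4 := by ring
    rw [h2, h3]
    norm_num
  rw [h1]
  ring

/-- an ordinary edge at its ends -/
private theorem gk3_ends {T i j : ℕ} {h : ℕ × ℕ × ℕ → ℝ} {s t : ℝ} (hs : s = 2 * (T : ℝ))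
    (ht : t = 2 * (T : ℝ) + 2) :
    lineAt (ptOf h (T, i, 0)) (ptOf h (T + 1, j, 0)) s = 16 * (i : ℝ) + 4 * h (T, i, 0) ∧
    lineAt (ptOf h (T, i, 0)) (ptOf h (T + 1, j, 0)) t = 16 * (j : ℝ) + 4 * h (T + 1, j, 0) := by
  rw [gk3_pt h _ _ 0 (by norm_num), gk3_pt h _ _ 0 (by norm_num), hs, ht]
  unfold lineAt
  push_cast
  constructor
  · have h1 : 2 * (T : ℝ) - 2 * (T : ℝ) = 0 := by ring
    rw [h1, zero_div, mul_zero]
    ring
  · have h1 : (2 * (T : ℝ) + 2 - 2 * (T : ℝ)) / (2 * ((T : ℝ) + 1) - 2 * (T : ℝ)) = 1 := by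
      have h2 : 2 * (T : ℝ) + 2 - 2 * (T : ℝ) = 2 := by ring
      have h3 : 2 * ((T : ℝ) + 1) - 2 * (T : ℝ) = 2 := by ring
      rw [h2, h3]
      norm_num
    rw [h1]
    ring

private theorem gk3_lt {T i j : ℕ} {h : ℕ × ℕ × ℕ → ℝ} :
    (ptOf h (T, i, 0)).1 < (ptOf h (T + 1, j, 0)).1 := by
  rw [gk3_pt1 h _ _ 0 (by norm_num), gk3_pt1 h _ _ 0 (by norm_num)]
  push_cast
  linarith

private theorem gk3_lt' {b p : ℕ} {h : ℕ × ℕ × ℕ → ℝ} :
    (ptOf h (4 * b, p + 1, 0)).1 < (ptOf h (4 * b + 2, p + 1, 1)).1 := by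
  rw [gk3_pt1 h _ _ 0 (by norm_num), gk3_pt1 h _ _ 1 (by norm_num)]
  push_cast
  linarith

/-- the ordinary edges do not meet the long edge -/
private theorem gk3_px {b : ℕ} {S : List Bool} {I : ℕ × ℕ × ℕ × List Bool} (hk : I.1 = 3)
    {h : ℕ × ℕ × ℕ → ℝ} (h01 : ∀ v, 0 ≤ h v ∧ h v ≤ 1)
    (hx1 : 2 * h (4 * b + 1, I.2.1 + 1, 0) < h (4 * b, I.2.1 + 1, 0) + h (4 * b + 2, I.2.1 + 1, 1))
    (hx2 : h (4 * b + 2, I.2.1 + 1, 1) < h (4 * b + 2, I.2.1 + 1, 0))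
    {q : ℕ × ℕ × ℕ × Bool} (hq : q ∈ bP b S I) {z : ℝ × ℝ}
    (hz : z ∈ segment ℝ (ptOf h (q.1, q.2.1, 0)) (ptOf h (q.1 + 1, q.2.2.1, 0)))
    (hz' : z ∈ segment ℝ (ptOf h (4 * b, I.2.1 + 1, 0)) (ptOf h (4 * b + 2, I.2.1 + 1, 1))) :
    False := by
  have hL := gk3_long h01 hz'
  have hO := gk3_ord hz
  obtain ⟨p, hp⟩ : ∃ p, p = I.2.1 := ⟨_, rfl⟩
  have hcl := gk3_list hk hq
  rw [← hp] at hcl hL hz' hx1 hx2
  obtain ⟨T, i, j, s⟩ := q
  dsimp only at hcl hz hO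
  have h0a := h01 (4 * b, p + 1, 0)
  have h0b := h01 (4 * b + 2, p + 1, 1)
  have h0c := h01 (4 * b, p, 0)
  have h0d := h01 (4 * b + 1, p + 2, 0)
  rcases hcl with ⟨hT, hc⟩ | ⟨hT, hc⟩ | ⟨hT, hc⟩ | hT
  · subst hT
    rcases hc with ⟨h1, h2⟩ | ⟨h1, h2⟩ | ⟨h1, h2⟩
    · subst h2
      have h3 := gk3_hor h01 hz
      have h4 : ((j : ℕ) : ℝ) + 1 ≤ p := by exact_mod_cast h1
      linarith [h3.2, hL.2.2.1]
    · subst h1 h2
      have e := gk3_ends (T := 4 * b) (i := i) (j := i + 1) (h := h) (s := 8 * (b : ℝ))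
        (t := 8 * (b : ℝ) + 2) (by push_cast; ring) (by push_cast; ring)
      refine seg_disj (gk3_lt (T := 4 * b) (i := i) (j := i + 1) (h := h)) gk3_lt'
        (s := 8 * (b : ℝ)) (t := 8 * (b : ℝ) + 2) ?_ ?_ hz hz' hL.1 ?_
      · rw [e.1, gk3_left]
        linarith
      · rw [e.2, gk3_mid]
        push_cast
        linarith
      · have := hO.2
        push_cast at this
        linarith
    · subst h2
      have h3 := gk3_hor h01 hz
      have h4 : (p : ℝ) + 2 ≤ ((j : ℕ) : ℝ) := by exact_mod_cast h1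
      linarith [h3.1, hL.2.2.2]
  · subst hT
    rcases hc with ⟨h1, h2⟩ | ⟨h1, h2⟩ | ⟨h1, h2⟩
    · subst h2
      have h3 := gk3_hor h01 hz
      have h4 : ((j : ℕ) : ℝ) + 1 ≤ p := by exact_mod_cast h1
      linarith [h3.2, hL.2.2.1]
    · subst h1 h2
      have e := gk3_ends (T := 4 * b + 1) (i := p + 2) (j := p + 1) (h := h)
        (s := 8 * (b : ℝ) + 2) (t := 8 * (b : ℝ) + 4) (by push_cast; ring) (by push_cast; ring)
      refine seg_disj gk3_lt' (gk3_lt (T := 4 * b + 1) (i := p + 2) (j := p + 1) (h := h))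
        (s := 8 * (b : ℝ) + 2) (t := 8 * (b : ℝ) + 4) ?_ ?_ hz' hz ?_ hL.2.1
      · rw [e.1, gk3_mid]
        push_cast
        linarith
      · rw [e.2, gk3_right]
        push_cast
        linarith
      · have := hO.1
        push_cast at this
        linarith
    · subst h2
      have h3 := gk3_hor h01 hz
      have h4 : (p : ℝ) + 3 ≤ ((j : ℕ) : ℝ) := by exact_mod_cast h1
      linarith [h3.1, hL.2.2.2]
  · subst hT
    have h1 : z.1 = 2 * ((4 * b + 2 : ℕ) : ℝ) := by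
      have h2 := hO.1
      have h3 := hL.2.1
      push_cast at h2 ⊢
      linarith
    have h2 := ((mem_seg_iff gk3_lt z).mp hz).2.2
    rw [(gk3_ends (T := 4 * b + 2) (i := i) (j := j) (h := h) (s := z.1)
      (t := 2 * ((4 * b + 2 : ℕ) : ℝ) + 2) h1 rfl).1] at h2
    have h3 := h01 (4 * b + 2, i, 0)
    rcases hc with h4 | h4
    · have h5 : (i : ℝ) + 1 ≤ p := by exact_mod_cast h4
      linarith [hL.2.2.1]
    · have h5 : (p : ℝ) + 3 ≤ (i : ℝ) := by exact_mod_cast h4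
      linarith [hL.2.2.2]
  · subst hT
    have h2 := hO.1
    push_cast at h2
    linarith [hL.2.1]

theorem px3 {b : ℕ} {S : List Bool} {I : ℕ × ℕ × ℕ × List Bool} (hI : WFI I S) (hk : I.1 = 3)
    {h : ℕ × ℕ × ℕ → ℝ} (h01 : ∀ v, 0 < h v ∧ h v < 1) (hB : blkOK h (b, S, I))
    {q : ℕ × ℕ × ℕ × Bool} (hq : q ∈ bP b S I) {e : (ℕ × ℕ × ℕ) × (ℕ × ℕ × ℕ)}
    (he : e ∈ bX b I) :
    ∀ z ∈ segment ℝ (ptOf h (q.1, q.2.1, 0)) (ptOf h (q.1 + 1, q.2.2.1, 0)),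
      z ∈ segment ℝ (ptOf h e.1) (ptOf h e.2) →
      ∃ w : ℕ × ℕ × ℕ, (w = (q.1, q.2.1, 0) ∨ w = (q.1 + 1, q.2.2.1, 0)) ∧
        (w = e.1 ∨ w = e.2) ∧ z = ptOf h w := by
  intro z hz hz'
  exfalso
  rw [gk3_X hk, List.mem_singleton] at he
  subst he
  have hx := hB.2
  unfold extraOK at hx
  rw [if_neg (by rw [hk]; norm_num), if_pos hk] at hx
  exact gk3_px hk (fun v => ⟨(h01 v).1.le, (h01 v).2.le⟩) hx.1 hx.2 hq hz hz'

theorem xx3 {b : ℕ} {I : ℕ × ℕ × ℕ × List Bool} (hk : I.1 = 3)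
    {e f : (ℕ × ℕ × ℕ) × (ℕ × ℕ × ℕ)} (he : e ∈ bX b I) (hf : f ∈ bX b I) : e = f := by
  rw [gk3_X hk, List.mem_singleton] at he hf
  rw [he, hf]

theorem xw3 (o : Bool) {b : ℕ} {S : List Bool} {I : ℕ × ℕ × ℕ × List Bool} (hI : WFI I S)
    (hk : I.1 = 3) {h : ℕ × ℕ × ℕ → ℝ} (h01 : ∀ v, 0 < h v ∧ h v < 1)
    {q : ℕ × ℕ × ℕ × Bool} (hq : q ∈ bP b S I) {e : (ℕ × ℕ × ℕ) × (ℕ × ℕ × ℕ)}
    (he : e ∈ bX b I) : ∀ s ∈ pWall o q, Disjoint (segment ℝ (ptOf h e.1) (ptOf h e.2)) s.pts := by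
  rw [gk3_X hk, List.mem_singleton] at he
  subst he
  have h01' : ∀ v, 0 ≤ h v ∧ h v ≤ 1 := fun v => ⟨(h01 v).1.le, (h01 v).2.le⟩
  have key : ∀ z ∈ segment ℝ (ptOf h (4 * b, I.2.1 + 1, 0)) (ptOf h (4 * b + 2, I.2.1 + 1, 1)),
      z.1 = 2 * (q.1 : ℝ) + 1 → 8 * ((q.2.1 : ℝ) + (q.2.2.1 : ℝ)) ≤ z.2 →
      z.2 ≤ 8 * ((q.2.1 : ℝ) + (q.2.2.1 : ℝ)) + 4 → False := by
    intro z hz h1 h2 h3
    have hL := gk3_long h01' hz
    have hT : q.1 ≤ 4 * b + 1 := by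
      have h4 : (2 * (q.1 : ℝ) + 1) ≤ 8 * (b : ℝ) + 4 := by
        rw [← h1]
        exact hL.2.1
      have h5 : 2 * q.1 + 1 ≤ 8 * b + 4 := by exact_mod_cast h4
      omega
    have h6 : q.2.1 + q.2.2.1 ≤ 2 * I.2.1 + 1 ∨ 2 * I.2.1 + 3 ≤ q.2.1 + q.2.2.1 := by
      rcases gk3_list hk hq with ⟨-, hc⟩ | ⟨-, hc⟩ | ⟨hT2, -⟩ | hT2
      · omega
      · omega
      · omega
      · omega
    rcases h6 with h6 | h6
    · have h7 : (q.2.1 : ℝ) + (q.2.2.1 : ℝ) ≤ 2 * (I.2.1 : ℝ) + 1 := by exact_mod_cast h6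
      linarith [hL.2.2.1]
    · have h7 : 2 * (I.2.1 : ℝ) + 3 ≤ (q.2.1 : ℝ) + (q.2.2.1 : ℝ) := by exact_mod_cast h6
      linarith [hL.2.2.2]
  unfold pWall
  split_ifs with hlow
  · rw [wallSeg_iff, Set.disjoint_left]
    intro z hz hz'
    push_cast at hz'
    rw [mem_vert (by linarith)] at hz'
    exact key z hz hz'.1 hz'.2.1 (by linarith [hz'.2.2])
  · rw [wallSeg_iff, Set.disjoint_left]
    intro z hz hz'
    push_cast at hz'
    rw [mem_vert (by linarith)] at hz'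
    exact key z hz hz'.1 (by linarith [hz'.2.1]) hz'.2.2

theorem xs3 {b : ℕ} {S : List Bool} {I : ℕ × ℕ × ℕ × List Bool} (hI : WFI I S) (hk : I.1 = 3)
    {h : ℕ × ℕ × ℕ → ℝ} (h01 : ∀ v, 0 ≤ h v ∧ h v ≤ 1)
    (hE : ∀ e ∈ bE b S I, ∀ f ∈ bE b S I, e ≠ f → ∀ z ∈ segment ℝ (ptOf h e.1) (ptOf h e.2),
      z ∈ segment ℝ (ptOf h f.1) (ptOf h f.2) →
      ∃ w, (w = e.1 ∨ w = e.2) ∧ (w = f.1 ∨ w = f.2) ∧ z = ptOf h w) : extraOK h b I := by
  have hpos := (WFI_pos hI).2.2.1 (by rw [hk])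
  unfold extraOK
  rw [if_neg (by rw [hk]; norm_num), if_pos hk]
  have hE1 : ((4 * b, I.2.1 + 1, 0), (4 * b + 2, I.2.1 + 1, 1)) ∈ bE b S I := by
    unfold bE
    rw [gk3_X hk]
    exact List.mem_append_right _ (List.mem_singleton.mpr rfl)
  have hE2 : ((4 * b, I.2.1, 0), (4 * b + 1, I.2.1 + 1, 0)) ∈ bE b S I := by
    unfold bE
    refine List.mem_append_left _ (List.mem_map.mpr ⟨(4 * b + 0, I.2.1,
      tgt I.1 I.2.1 I.2.2.2.length 0 I.2.1, sgn I.1 I.2.1 S 0 I.2.1), ?_, ?_⟩)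
    · refine mem_bP.mpr (Or.inr ⟨0, I.2.1, by norm_num, by omega, by omega, ?_, rfl⟩)
      rw [hk]
      unfold has
      rw [if_neg (by norm_num), if_neg (by norm_num), if_pos rfl, if_pos rfl]
      simp only [Bool.and_eq_true, decide_eq_true_eq, Bool.not_eq_true', decide_eq_false_iff_not]
      omega
    · rw [hk]
      unfold tgt
      rw [if_neg (by norm_num), if_neg (by norm_num), if_pos rfl, if_pos rfl, if_pos rfl]
      rfl
  have hE3 : ((4 * b + 1, I.2.1 + 2, 0), (4 * b + 1 + 1, I.2.1 + 1, 0)) ∈ bE b S I := by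
    unfold bE
    refine List.mem_append_left _ (List.mem_map.mpr ⟨(4 * b + 1, I.2.1 + 2,
      tgt I.1 I.2.1 I.2.2.2.length 1 (I.2.1 + 2), sgn I.1 I.2.1 S 1 (I.2.1 + 2)), ?_, ?_⟩)
    · refine mem_bP.mpr (Or.inr ⟨1, I.2.1 + 2, by norm_num, by omega, by omega, ?_, rfl⟩)
      rw [hk]
      unfold has
      rw [if_neg (by norm_num), if_neg (by norm_num), if_pos rfl, if_neg (by norm_num), if_pos rfl]
      simp only [Bool.and_eq_true, decide_eq_true_eq, Bool.not_eq_true', decide_eq_false_iff_not]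
      omega
    · rw [hk]
      unfold tgt
      rw [if_neg (by norm_num), if_neg (by norm_num), if_pos rfl, if_neg (by norm_num),
        if_pos rfl, if_pos rfl]
  obtain ⟨p, hp⟩ : ∃ p, p = I.2.1 := ⟨_, rfl⟩
  rw [← hp] at hE1 hE2 hE3 ⊢
  have h0a := h01 (4 * b, p + 1, 0)
  have h0b := h01 (4 * b + 2, p + 1, 1)
  have h0c := h01 (4 * b, p, 0)
  have h0d := h01 (4 * b + 1, p + 2, 0)
  constructor
  · by_contra hcon
    push Not at hcon
    have e := gk3_ends (T := 4 * b) (i := p) (j := p + 1) (h := h) (s := 8 * (b : ℝ))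
      (t := 8 * (b : ℝ) + 2) (by push_cast; ring) (by push_cast; ring)
    have hp1 := gk3_pt1 h (4 * b) p 0 (by norm_num)
    have hp2 := gk3_pt1 h (4 * b + 1) (p + 1) 0 (by norm_num)
    have hp3 := gk3_pt1 h (4 * b) (p + 1) 0 (by norm_num)
    have hp4 := gk3_pt1 h (4 * b + 2) (p + 1) 1 (by norm_num)
    push_cast at hp1 hp2 hp3 hp4
    obtain ⟨z, hz1, hz2, -, -⟩ := seg_meet (gk3_lt (T := 4 * b) (i := p) (j := p + 1) (h := h))
      (gk3_lt' (b := b) (p := p) (h := h)) (s := 8 * (b : ℝ)) (t := 8 * (b : ℝ) + 2)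
      (by linarith) (by rw [hp1]; linarith) (by rw [hp3]; linarith) (by rw [hp2]; linarith)
      (by rw [hp4]; linarith) (by rw [e.1, gk3_left]; linarith)
      (by rw [e.2, gk3_mid]; push_cast; linarith)
    obtain ⟨w, hw1, hw2, -⟩ := hE _ hE1 _ hE2 (by
      intro he
      have h1 := congrArg (fun x => x.1.2.1) he
      dsimp only at h1
      omega) z hz2 hz1
    rcases hw1 with rfl | rfl
    · rcases hw2 with h1 | h1
      · have h2 := congrArg (fun x => x.2.1) h1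
        dsimp only at h2
        omega
      · have h2 := congrArg (fun x => x.1) h1
        dsimp only at h2
        omega
    · rcases hw2 with h1 | h1
      · have h2 := congrArg (fun x => x.1) h1
        dsimp only at h2
        omega
      · have h2 := congrArg (fun x => x.1) h1
        dsimp only at h2
        omega
  · by_contra hcon
    push Not at hcon
    have e := gk3_ends (T := 4 * b + 1) (i := p + 2) (j := p + 1) (h := h)
      (s := 8 * (b : ℝ) + 2) (t := 8 * (b : ℝ) + 4) (by push_cast; ring) (by push_cast; ring)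
    have hp1 := gk3_pt1 h (4 * b + 1) (p + 2) 0 (by norm_num)
    have hp2 := gk3_pt1 h (4 * b + 1 + 1) (p + 1) 0 (by norm_num)
    have hp3 := gk3_pt1 h (4 * b) (p + 1) 0 (by norm_num)
    have hp4 := gk3_pt1 h (4 * b + 2) (p + 1) 1 (by norm_num)
    push_cast at hp1 hp2 hp3 hp4
    obtain ⟨z, hz1, hz2, -, -⟩ := seg_meet (gk3_lt' (b := b) (p := p) (h := h))
      (gk3_lt (T := 4 * b + 1) (i := p + 2) (j := p + 1) (h := h))
      (s := 8 * (b : ℝ) + 2) (t := 8 * (b : ℝ) + 4)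
      (by linarith) (by rw [hp3]; linarith) (by rw [hp1]; linarith) (by rw [hp4]; linarith)
      (by rw [hp2]; linarith) (by rw [e.1, gk3_mid]; push_cast; linarith)
      (by rw [e.2, gk3_right]; push_cast; linarith)
    obtain ⟨w, hw1, hw2, -⟩ := hE _ hE1 _ hE3 (by
      intro he
      have h1 := congrArg (fun x => x.1.2.1) he
      dsimp only at h1
      omega) z hz1 hz2
    rcases hw1 with rfl | rfl
    · rcases hw2 with h1 | h1
      · have h2 := congrArg (fun x => x.1) h1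
        dsimp only at h2
        omega
      · have h2 := congrArg (fun x => x.1) h1
        dsimp only at h2
        omega
    · rcases hw2 with h1 | h1
      · have h2 := congrArg (fun x => x.1) h1
        dsimp only at h2
        omega
      · have h2 := congrArg (fun x => x.2.2) h1
        dsimp only at h2
        omega

end Pool.Agent.H77.SG
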