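import Pool.Agent.H77.SG.Len

/-!
# Reduction of polynomials at critical points

At a point `x` with `x i ^ 5 = - η (∂P/∂X i)(x)` for all `i`, every polynomial of degree at most `D` has
the value of a combination of the monomials with all exponents at most `4`, whose coefficients are
integer polynomials in `η`.

PROOF. Strong induction on `D`. By linearity (sum over the support, `len q` is the sum of the
absolute values of the coefficients) it is enough to treat a monomial `X ^ a` of degree at most `D`. If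
all `a i ≤ 4` take `M = 1` at `a` and `0` elsewhere. Otherwise choose `i` with `5 ≤ a i`; then the
value of `X ^ a` is `- η` times the value of `q' = X ^ (a - 5 e_i) * ∂P/∂X i`, whose degree is at
most `D - 2` and whose length is at most `L`; apply the induction hypothesis to `q'` and multiply
by `- η` (`Polynomial.X`, `len1_mul`, `len1_neg`): the sum of the lengths is at most
`L * L ^ (D - 2) ≤ L ^ D`.
-/

set_option autoImplicit false

namespace Pool.Agent.H77.SG

open MvPolynomial

/-- The monomial with exponents `b`. -/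
noncomputable def mon {m : ℕ} (b : Fin m → Fin 5) : MvPolynomial (Fin m) ℤ :=
  ∏ i, X i ^ ((b i : ℕ))

/-- `x` is a critical point of `P + (1 / (6 η)) ∑ X i ^ 6`. -/
def Crit {m : ℕ} (P : MvPolynomial (Fin m) ℤ) (η : ℝ) (x : Fin m → ℝ) : Prop :=
  ∀ i, x i ^ 5 = - η * aeval x (pderiv i P)

theorem gapa_one {m : ℕ} (P : MvPolynomial (Fin m) ℤ) (L : ℕ) (hL : 1 ≤ L)
    (hd : ∀ i, (pderiv i P).totalDegree ≤ 3) (hl : ∀ i, len (pderiv i P) ≤ L) (D : ℕ)
    (ih : ∀ D' < D, ∀ q : MvPolynomial (Fin m) ℤ, q.totalDegree ≤ D' →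
      ∃ M : (Fin m → Fin 5) → Polynomial ℤ, ∑ b, len1 (M b) ≤ len q * L ^ D' ∧
        ∀ (η : ℝ) (x : Fin m → ℝ), Crit P η x →
          aeval x q = ∑ b, Polynomial.aeval η (M b) * ∏ i, x i ^ (b i : ℕ))
    (a : Fin m →₀ ℕ) (ha : (a.sum fun _ e => e) ≤ D) :
    ∃ M : (Fin m → Fin 5) → Polynomial ℤ, ∑ b, len1 (M b) ≤ L ^ D ∧
        ∀ (η : ℝ) (x : Fin m → ℝ), Crit P η x →
          aeval x (monomial a (1 : ℤ)) = ∑ b, Polynomial.aeval η (M b) * ∏ i, x i ^ (b i : ℕ) := by
  by_cases hs : ∀ i, a i ≤ 4
  · set b0 : Fin m → Fin 5 := fun i => ⟨a i, Nat.lt_succ_of_le (hs i)⟩ with hb0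
    refine ⟨Pi.single b0 1, ?_, fun η x _ => ?_⟩
    · have h1 : ∑ b, len1 ((Pi.single b0 1 : (Fin m → Fin 5) → Polynomial ℤ) b) = 1 := by
        rw [Finset.sum_eq_single b0]
        · rw [Pi.single_eq_same, len1_one]
        · intro b _ hb
          rw [Pi.single_eq_of_ne hb, len1_zero]
        · intro h
          exact absurd (Finset.mem_univ _) h
      rw [h1]
      exact Nat.one_le_pow _ _ hL
    · rw [Finset.sum_eq_single b0]
      · have h5 : aeval x (monomial a (1 : ℤ)) = ∏ i, x i ^ a i := by
          rw [aeval_monomial, (algebraMap ℤ ℝ).map_one, one_mul,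
            Finsupp.prod_fintype _ _ (fun i => pow_zero _)]
        rw [h5, Pi.single_eq_same, map_one (Polynomial.aeval η), one_mul]
      · intro b _ hb
        rw [Pi.single_eq_of_ne hb, map_zero, zero_mul]
      · intro h
        exact absurd (Finset.mem_univ _) h
  · push Not at hs
    obtain ⟨i, hi⟩ := hs
    set a' : Fin m →₀ ℕ := a - Finsupp.single i 5 with ha'
    have haa : a = a' + Finsupp.single i 5 := by
      rw [ha', tsub_add_cancel_of_le]
      intro j
      rw [Finsupp.single_apply]
      split_ifs with h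
      · rw [← h]
        omega
      · exact Nat.zero_le _
    have hsum : (a.sum fun _ e => e) = (a'.sum fun _ e => e) + 5 := by
      rw [haa, Finsupp.sum_add_index' (fun _ => rfl) (fun _ _ _ => rfl), Finsupp.sum_single_index rfl]
    have hdeg : (monomial a' (1 : ℤ) * pderiv i P).totalDegree ≤ D - 2 := by
      refine le_trans (totalDegree_mul _ _) ?_
      rw [totalDegree_monomial _ one_ne_zero]
      have h1 := hd i
      have h2 : (a'.sum fun _ e => e) + 5 ≤ D := by rw [← hsum]; exact ha
      have h3 : (a'.sum fun _ e => e) + (pderiv i P).totalDegree ≤ D - 2 := by omega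
      exact h3
    have hD5 : 5 ≤ D := by
      rw [hsum] at ha
      omega
    obtain ⟨M, hM1, hM2⟩ := ih (D - 2) (by omega) _ hdeg
    refine ⟨fun b => -(Polynomial.X * M b), ?_, fun η x hx => ?_⟩
    · have h1 : ∑ b, len1 (-(Polynomial.X * M b)) ≤ ∑ b, len1 (M b) := by
        refine Finset.sum_le_sum fun b _ => ?_
        rw [len1_neg]
        refine le_trans (len1_mul _ _) ?_
        rw [len1_X, one_mul]
      have h2 : len (monomial a' (1 : ℤ) * pderiv i P) ≤ L := by
        refine le_trans (len_mul _ _) ?_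
        rw [len_monomial, Int.natAbs_one, one_mul]
        exact hl i
      calc ∑ b, len1 (-(Polynomial.X * M b)) ≤ ∑ b, len1 (M b) := h1
        _ ≤ len (monomial a' (1 : ℤ) * pderiv i P) * L ^ (D - 2) := hM1
        _ ≤ L * L ^ (D - 2) := Nat.mul_le_mul_right _ h2
        _ = L ^ (D - 2 + 1) := by rw [pow_succ, mul_comm]
        _ ≤ L ^ D := Nat.pow_le_pow_right hL (by omega)
    · have h1 := hM2 η x hx
      have h2 : aeval x (monomial a (1 : ℤ)) = aeval x (monomial a' (1 : ℤ)) * x i ^ 5 := by
        have h3 : monomial a (1 : ℤ) = monomial a' (1 : ℤ) * (X i ^ 5) := by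
          rw [X_pow_eq_monomial, monomial_mul, one_mul, ← haa]
        rw [h3, map_mul, map_pow, aeval_X]
      rw [h2, hx i]
      rw [map_mul] at h1
      have h4 : aeval x (monomial a' (1 : ℤ)) * (-η * aeval x (pderiv i P)) =
          -η * (aeval x (monomial a' (1 : ℤ)) * aeval x (pderiv i P)) := by ring
      rw [h4, h1, Finset.mul_sum]
      refine Finset.sum_congr rfl fun b _ => ?_
      rw [map_neg, map_mul, Polynomial.aeval_X]
      ring

theorem gapa_smul (c : ℤ) (p : Polynomial ℤ) : len1 (Polynomial.C c * p) ≤ c.natAbs * len1 p := by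
  refine le_trans (len1_mul _ _) ?_
  rw [len1_C]

theorem reduce {m : ℕ} (P : MvPolynomial (Fin m) ℤ) (L : ℕ) (hL : 1 ≤ L)
    (hd : ∀ i, (pderiv i P).totalDegree ≤ 3) (hl : ∀ i, len (pderiv i P) ≤ L) :
    ∀ (D : ℕ) (q : MvPolynomial (Fin m) ℤ), q.totalDegree ≤ D →
      ∃ M : (Fin m → Fin 5) → Polynomial ℤ, ∑ b, len1 (M b) ≤ len q * L ^ D ∧
        ∀ (η : ℝ) (x : Fin m → ℝ), Crit P η x →
          aeval x q = ∑ b, Polynomial.aeval η (M b) * ∏ i, x i ^ (b i : ℕ) := by
  intro D
  induction D using Nat.strong_induction_on with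
  | _ D ih =>
    intro q hq
    have h1 : ∀ a : Fin m →₀ ℕ, a ∈ q.support →
        ∃ M : (Fin m → Fin 5) → Polynomial ℤ, ∑ b, len1 (M b) ≤ L ^ D ∧
        ∀ (η : ℝ) (x : Fin m → ℝ), Crit P η x →
          aeval x (monomial a (1 : ℤ)) = ∑ b, Polynomial.aeval η (M b) * ∏ i, x i ^ (b i : ℕ) :=
      fun a ha => gapa_one P L hL hd hl D ih a (le_trans (le_totalDegree ha) hq)
    choose! M hM1 hM2 using h1
    refine ⟨fun b => ∑ a ∈ q.support, Polynomial.C (q.coeff a) * M a b, ?_, fun η x hx => ?_⟩
    · calc ∑ b, len1 (∑ a ∈ q.support, Polynomial.C (q.coeff a) * M a b)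
          ≤ ∑ b, ∑ a ∈ q.support, (q.coeff a).natAbs * len1 (M a b) := by
            refine Finset.sum_le_sum fun b _ => ?_
            refine le_trans (len1_sum _ _) (Finset.sum_le_sum fun a _ => gapa_smul _ _)
        _ = ∑ a ∈ q.support, (q.coeff a).natAbs * ∑ b, len1 (M a b) := by
            rw [Finset.sum_comm]
            refine Finset.sum_congr rfl fun a _ => ?_
            rw [Finset.mul_sum]
        _ ≤ ∑ a ∈ q.support, (q.coeff a).natAbs * L ^ D := by
            refine Finset.sum_le_sum fun a ha => Nat.mul_le_mul_left _ (hM1 a ha)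
        _ = len q * L ^ D := by
            unfold len
            rw [Finset.sum_mul]
    · have h2 : aeval x q = ∑ a ∈ q.support, ((q.coeff a : ℤ) : ℝ) * aeval x (monomial a (1 : ℤ)) := by
        conv_lhs => rw [q.as_sum]
        rw [map_sum]
        refine Finset.sum_congr rfl fun a _ => ?_
        rw [aeval_monomial, aeval_monomial, (algebraMap ℤ ℝ).map_one, one_mul]
        rfl
      rw [h2]
      have h3 : ∀ b : Fin m → Fin 5, Polynomial.aeval η (∑ a ∈ q.support, Polynomial.C (q.coeff a) * M a b) =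
          ∑ a ∈ q.support, ((q.coeff a : ℤ) : ℝ) * Polynomial.aeval η (M a b) := by
        intro b
        rw [map_sum]
        refine Finset.sum_congr rfl fun a _ => ?_
        rw [map_mul, Polynomial.aeval_C]
        rfl
      simp only [h3, Finset.sum_mul]
      rw [Finset.sum_comm]
      refine Finset.sum_congr rfl fun a ha => ?_
      rw [hM2 a ha η x hx, Finset.mul_sum]
      refine Finset.sum_congr rfl fun b _ => by ring

theorem gapa_mon {m : ℕ} (b : Fin m → Fin 5) :
    mon b = monomial (Finsupp.equivFunOnFinite.symm (fun i => ((b i : Fin 5) : ℕ))) (1 : ℤ) := by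
  rw [monomial_eq, C_1, one_mul, Finsupp.prod_fintype _ _ (fun i => pow_zero _)]
  rfl

theorem len_mul_mon {m : ℕ} (h : MvPolynomial (Fin m) ℤ) (b : Fin m → Fin 5) :
    len (h * mon b) = len h := by
  rw [gapa_mon]
  set s : Fin m →₀ ℕ := Finsupp.equivFunOnFinite.symm (fun i => ((b i : Fin 5) : ℕ)) with hs
  unfold len
  symm
  refine Finset.sum_nbij' (fun d => d + s) (fun d => d - s) ?_ ?_ ?_ ?_ ?_
  · intro d hd
    rw [mem_support_iff, coeff_mul_monomial, mul_one]
    exact mem_support_iff.mp hd
  · intro d hd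
    rw [mem_support_iff, coeff_mul_monomial'] at hd
    by_cases hsd : s ≤ d
    · rw [if_pos hsd, mul_one] at hd
      exact mem_support_iff.mpr hd
    · rw [if_neg hsd] at hd
      exact absurd rfl hd
  · intro d _
    exact add_tsub_cancel_right _ _
  · intro d hd
    rw [mem_support_iff, coeff_mul_monomial'] at hd
    by_cases hsd : s ≤ d
    · exact tsub_add_cancel_of_le hsd
    · rw [if_neg hsd] at hd
      exact absurd rfl hd
  · intro d _
    rw [coeff_mul_monomial, mul_one]

theorem totalDegree_mul_mon {m : ℕ} (h : MvPolynomial (Fin m) ℤ) (b : Fin m → Fin 5) :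
    (h * mon b).totalDegree ≤ h.totalDegree + 4 * m := by
  refine le_trans (totalDegree_mul _ _) ?_
  refine Nat.add_le_add_left ?_ _
  unfold mon
  refine le_trans (totalDegree_finsetProd _ _) ?_
  calc ∑ i : Fin m, (X i ^ ((b i : ℕ)) : MvPolynomial (Fin m) ℤ).totalDegree ≤ ∑ _i : Fin m, 4 := by
        refine Finset.sum_le_sum fun i _ => ?_
        rw [totalDegree_X_pow]
        have := (b i).isLt
        omega
    _ = 4 * m := by
        rw [Finset.sum_const, Finset.card_univ, Fintype.card_fin, smul_eq_mul, mul_comm]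

end Pool.Agent.H77.SG
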