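import Pool.Agent.H77.SG.GapA

/-!
# The eliminating polynomial

PROOF. For every `a : Fin m → Fin 5` apply `reduce` to `h * mon a` (degree at most `4 m + 4`): this
gives `M a b`. At a critical point `x`, the vector `v a = ∏ i, x i ^ (a i)` satisfies
`h(x) v a = ∑ b, M a b (η) v b`, and `v 0 = 1`, so `det (M(η) - h(x)) = 0`
(`Matrix.exists_mulVec_eq_zero_iff` or `Matrix.eq_zero_of_mulVec_eq_zero`). Let `Dt` be the determinant
of the matrix over `ℤ[t][η]` with the entries `(M a b).map C - δ_{ab} C X` (outer variable `η`, inner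
variable `t = X`). Evaluation at `t = h(x)` and `η` is a ring homomorphism (`RingHom.map_det`).
`Dt ≠ 0`: put `η = 0` (`Polynomial.evalRingHom 0`); the result is `± ` the characteristic polynomial of
an integer matrix (`Matrix.charpoly_monic`). Length: `Matrix.det_apply`, `len2_sum`, `len2_prod`, and
`∑ over permutations ∏ a, ℓ a (σ a) ≤ ∏ a, ∑ b, ℓ a b` (`Finset.prod_univ_sum`, the permutations are
among all maps), where the sum of the lengths in the row `a` is at most `len h * L ^ (4 m + 4) + 1`.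
-/

set_option autoImplicit false

namespace Pool.Agent.H77.SG

open MvPolynomial

/-- The value of a polynomial in `ℤ[t][η]`. -/
noncomputable def ev2 (D : Polynomial (Polynomial ℤ)) (t η : ℝ) : ℝ :=
  D.eval₂ (Polynomial.aeval t : Polynomial ℤ →ₐ[ℤ] ℝ).toRingHom η

/-- The matrix of the eliminating polynomial. -/
private noncomputable def gapbMat {m : ℕ}
    (M : (Fin m → Fin 5) → (Fin m → Fin 5) → Polynomial ℤ) :
    Matrix (Fin m → Fin 5) (Fin m → Fin 5) (Polynomial (Polynomial ℤ)) :=
  Matrix.of fun a b => (M a b).map Polynomial.C - if a = b then Polynomial.C Polynomial.X else 0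

private theorem gapb_len2_zero : len2 0 = 0 := by
  simp [len2]

private theorem gapb_len2_smul (u : ℤˣ) (p : Polynomial (Polynomial ℤ)) :
    len2 (u • p) = len2 p := by
  rcases Int.units_eq_one_or u with rfl | rfl
  · rw [one_smul]
  · rw [Units.neg_smul, one_smul, len2_neg]

private theorem gapb_len_entry {m : ℕ}
    (M : (Fin m → Fin 5) → (Fin m → Fin 5) → Polynomial ℤ) (a b : Fin m → Fin 5) :
    len2 (gapbMat M a b) ≤ len1 (M a b) + if a = b then 1 else 0 := by
  have h0 : gapbMat M a b = (M a b).map Polynomial.C +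
      -(if a = b then (Polynomial.C Polynomial.X : Polynomial (Polynomial ℤ)) else 0) := by
    unfold gapbMat
    rw [Matrix.of_apply, sub_eq_add_neg]
  rw [h0]
  refine (len2_add _ _).trans ?_
  rw [len2_map, len2_neg]
  refine Nat.add_le_add_left ?_ _
  split_ifs with h
  · rw [len2_C, len1_X]
  · rw [gapb_len2_zero]

private theorem gapb_len_det {m : ℕ}
    (M : (Fin m → Fin 5) → (Fin m → Fin 5) → Polynomial ℤ) (B : ℕ)
    (hM : ∀ a, ∑ b, len1 (M a b) ≤ B) :
    len2 (gapbMat M).det ≤ (B + 1) ^ (5 ^ m) := by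
  rw [← Matrix.det_transpose, Matrix.det_apply]
  refine (len2_sum _ _).trans ?_
  have h1 : ∀ σ : Equiv.Perm (Fin m → Fin 5),
      len2 (Equiv.Perm.sign σ • ∏ i, (gapbMat M).transpose (σ i) i) ≤
        ∏ i, len2 (gapbMat M i (σ i)) := by
    intro σ
    rw [gapb_len2_smul]
    exact len2_prod _ _
  refine (Finset.sum_le_sum fun σ _ => h1 σ).trans ?_
  have h2 : ∑ σ : Equiv.Perm (Fin m → Fin 5), ∏ i, len2 (gapbMat M i (σ i)) ≤
      ∑ f : (Fin m → Fin 5) → (Fin m → Fin 5), ∏ i, len2 (gapbMat M i (f i)) := by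
    have e1 : ∑ σ : Equiv.Perm (Fin m → Fin 5), ∏ i, len2 (gapbMat M i (σ i)) =
        ∑ f ∈ (Finset.univ : Finset (Equiv.Perm (Fin m → Fin 5))).map
          (⟨fun σ : Equiv.Perm (Fin m → Fin 5) => (σ : (Fin m → Fin 5) → (Fin m → Fin 5)),
            fun σ τ hστ => Equiv.coe_fn_injective hστ⟩ :
              Equiv.Perm (Fin m → Fin 5) ↪ ((Fin m → Fin 5) → (Fin m → Fin 5))),
            ∏ i, len2 (gapbMat M i (f i)) := by
      rw [Finset.sum_map]
      rfl
    rw [e1]
    exact Finset.sum_le_sum_of_subset (Finset.subset_univ _)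
  refine h2.trans ?_
  have h3 := Finset.prod_univ_sum (fun _ : Fin m → Fin 5 => (Finset.univ : Finset (Fin m → Fin 5)))
    (fun i j => len2 (gapbMat M i j))
  rw [Fintype.piFinset_univ] at h3
  rw [← h3]
  have h4 : ∀ a : Fin m → Fin 5, ∑ b, len2 (gapbMat M a b) ≤ B + 1 := by
    intro a
    refine (Finset.sum_le_sum fun b _ => gapb_len_entry M a b).trans ?_
    rw [Finset.sum_add_distrib]
    refine Nat.add_le_add (hM a) ?_
    rw [Finset.sum_ite_eq, if_pos (Finset.mem_univ _)]
  refine (Finset.prod_le_prod' fun a _ => h4 a).trans ?_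
  rw [Finset.prod_const, Finset.card_univ, Fintype.card_fun, Fintype.card_fin, Fintype.card_fin]

private theorem gapb_det_ne {m : ℕ}
    (M : (Fin m → Fin 5) → (Fin m → Fin 5) → Polynomial ℤ) : (gapbMat M).det ≠ 0 := by
  intro h0
  have h1 : (Polynomial.evalRingHom (0 : Polynomial ℤ)) (gapbMat M).det = 0 := by
    rw [h0, map_zero]
  rw [RingHom.map_det] at h1
  have h2 : (Polynomial.evalRingHom (0 : Polynomial ℤ)).mapMatrix (gapbMat M) =
      -(Matrix.of fun a b => (M a b).coeff 0).charmatrix := by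
    ext1 a b
    rw [RingHom.mapMatrix_apply, Matrix.map_apply, Matrix.neg_apply]
    unfold gapbMat
    rw [Matrix.of_apply, map_sub]
    have e1 : (Polynomial.evalRingHom (0 : Polynomial ℤ)) ((M a b).map Polynomial.C) =
        Polynomial.C ((M a b).coeff 0) := by
      rw [Polynomial.coe_evalRingHom, ← Polynomial.coeff_zero_eq_eval_zero, Polynomial.coeff_map]
    rw [e1]
    by_cases h : a = b
    · subst h
      rw [if_pos rfl, Matrix.charmatrix_apply_eq, Matrix.of_apply, Polynomial.coe_evalRingHom,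
        Polynomial.eval_C]
      ring
    · rw [if_neg h, Matrix.charmatrix_apply_ne _ _ _ h, map_zero, Matrix.of_apply]
      ring
  rw [h2, Matrix.det_neg] at h1
  have h3 : ((-1 : Polynomial ℤ)) ^ Fintype.card (Fin m → Fin 5) ≠ 0 :=
    pow_ne_zero _ (neg_ne_zero.mpr one_ne_zero)
  have h4 := (mul_eq_zero.mp h1).resolve_left h3
  exact (Matrix.charpoly_monic (Matrix.of fun a b => (M a b).coeff 0)).ne_zero h4

theorem exists_elim {m : ℕ} (P : MvPolynomial (Fin m) ℤ) (L : ℕ) (hL : 1 ≤ L)
    (hd : ∀ i, (pderiv i P).totalDegree ≤ 3) (hl : ∀ i, len (pderiv i P) ≤ L)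
    (h : MvPolynomial (Fin m) ℤ) (hh : h.totalDegree ≤ 4) :
    ∃ D : Polynomial (Polynomial ℤ), D ≠ 0 ∧ len2 D ≤ (len h * L ^ (4 * m + 4) + 1) ^ (5 ^ m) ∧
      ∀ (η : ℝ) (x : Fin m → ℝ), Crit P η x → ev2 D (aeval x h) η = 0 := by
  have hred := fun a : Fin m → Fin 5 => reduce P L hL hd hl (4 * m + 4) (h * mon a)
    ((totalDegree_mul_mon h a).trans (by omega))
  choose M hM1 hM2 using hred
  refine ⟨(gapbMat M).det, gapb_det_ne M, ?_, ?_⟩
  · refine gapb_len_det M _ fun a => ?_
    have := hM1 a
    rwa [len_mul_mon] at this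
  · intro η x hx
    set t : ℝ := aeval x h with ht
    let φ : Polynomial (Polynomial ℤ) →+* ℝ :=
      Polynomial.eval₂RingHom (Polynomial.aeval t : Polynomial ℤ →ₐ[ℤ] ℝ).toRingHom η
    have hφ : ev2 (gapbMat M).det t η = φ (gapbMat M).det := rfl
    rw [hφ, RingHom.map_det, ← Matrix.exists_mulVec_eq_zero_iff]
    refine ⟨fun b => ∏ i, x i ^ (b i : ℕ), ?_, ?_⟩
    · intro h0
      have h1 := congrFun h0 (fun _ => 0)
      simp at h1
    · funext a
      have hmap : ∀ p : Polynomial ℤ, φ (p.map Polynomial.C) = Polynomial.aeval η p := by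
        intro p
        show Polynomial.eval₂ (Polynomial.aeval t : Polynomial ℤ →ₐ[ℤ] ℝ).toRingHom η
          (p.map Polynomial.C) = Polynomial.aeval η p
        rw [Polynomial.eval₂_map, Polynomial.aeval_def]
        congr 1
        exact RingHom.ext_int _ _
      have hX : φ (Polynomial.C Polynomial.X) = t := by
        show Polynomial.eval₂ (Polynomial.aeval t : Polynomial ℤ →ₐ[ℤ] ℝ).toRingHom η
          (Polynomial.C Polynomial.X) = t
        rw [Polynomial.eval₂_C]
        exact Polynomial.aeval_X t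
      have hent : ∀ b, (φ.mapMatrix (gapbMat M)) a b =
          Polynomial.aeval η (M a b) - if a = b then t else 0 := by
        intro b
        rw [RingHom.mapMatrix_apply, Matrix.map_apply]
        unfold gapbMat
        rw [Matrix.of_apply, map_sub, hmap]
        by_cases hab : a = b
        · rw [if_pos hab, if_pos hab, hX]
        · rw [if_neg hab, if_neg hab, map_zero]
      show ∑ b, (φ.mapMatrix (gapbMat M)) a b * ∏ i, x i ^ (b i : ℕ) = 0
      have e1 : ∀ b, (φ.mapMatrix (gapbMat M)) a b * ∏ i, x i ^ (b i : ℕ) =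
          Polynomial.aeval η (M a b) * ∏ i, x i ^ (b i : ℕ) -
            (if a = b then t * ∏ i, x i ^ (b i : ℕ) else 0) := by
        intro b
        rw [hent b]
        by_cases hab : a = b
        · rw [if_pos hab, if_pos hab]
          ring
        · rw [if_neg hab, if_neg hab]
          ring
      rw [Finset.sum_congr rfl fun b _ => e1 b, Finset.sum_sub_distrib, ← hM2 a η x hx,
        Finset.sum_ite_eq, if_pos (Finset.mem_univ _), map_mul, ← ht]
      have e2 : aeval x (mon a) = ∏ i, x i ^ (a i : ℕ) := by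
        unfold mon
        rw [map_prod]
        refine Finset.prod_congr rfl fun i _ => ?_
        rw [map_pow, aeval_X]
      rw [e2, sub_self]

end Pool.Agent.H77.SG
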