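import Pool.Agent.H77.SG.GapA

/-!
# Minimisers, and roots

PROOFS. `exists_min`: the function `F x = P(x) + ε ∑ x i ^ 6` is continuous and at least
`ε ∑ x i ^ 6`, so its sublevel sets are compact and it has a minimiser
(`Continuous.exists_forall_le`, or `IsCompact.exists_isMinOn` on a large ball). At the minimiser the
derivative in the direction `i` vanishes: `∂P/∂X i (x) + 6 ε x i ^ 5 = 0`
(`IsLocalMin.hasDerivAt_eq_zero` for `s ↦ F (Function.update x i s)`; the derivative of
`s ↦ aeval (Function.update x i s) P` at `x i` is `aeval x (pderiv i P)`, by induction on `P`).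
`root_of_tendsto`: with `K` the degree of `D` in `η`, divide `ev2 D (τ n) (η n) = 0` by `(η n) ^ K`: the
terms with `k < K` tend to `0` (their coefficients converge), so the value of the leading coefficient
at `τ n`, which converges to its value at `τ'`, tends to `0`. `root_le`: `|p_n| ≥ 1`, so if `|t| ≥ 1`
then `|t|^n ≤ ∑_{i<n} |p_i| |t|^i ≤ (len1 p) |t|^(n-1)`; and if `|t| < 1` use `1 ≤ len1 p`. `le_root`:
divide `p` by the power of `X` which divides it exactly; then the constant coefficient `p_0` is not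
zero, `1 ≤ |p_0| ≤ |t| len1 p` if `|t| ≤ 1`.
-/

set_option autoImplicit false

namespace Pool.Agent.H77.SG

open MvPolynomial Filter Topology

theorem gapc_upd {m : ℕ} (x : Fin m → ℝ) (i j : Fin m) :
    HasDerivAt (fun s : ℝ => Function.update x i s j) (if i = j then 1 else 0) (x i) := by
  split_ifs with h
  · subst h
    have h1 : (fun s : ℝ => Function.update x i s i) = fun s => s := by
      funext s
      rw [Function.update_self]
    rw [h1]
    exact hasDerivAt_id _
  · have h1 : (fun s : ℝ => Function.update x i s j) = fun _ => x j := by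
      funext s
      rw [Function.update_of_ne (Ne.symm h)]
    rw [h1]
    exact hasDerivAt_const _ _

theorem hasDerivAt_update {m : ℕ} (P : MvPolynomial (Fin m) ℤ) (x : Fin m → ℝ) (i : Fin m) :
    HasDerivAt (fun s : ℝ => aeval (Function.update x i s) P) (aeval x (pderiv i P)) (x i) := by
  induction P using MvPolynomial.induction_on with
  | C a =>
    rw [pderiv_C, map_zero]
    have h1 : (fun s : ℝ => aeval (Function.update x i s) (C a : MvPolynomial (Fin m) ℤ)) =
        fun _ => (algebraMap ℤ ℝ a) := by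
      funext s
      rw [MvPolynomial.aeval_C]
    rw [h1]
    exact hasDerivAt_const _ _
  | add p q hp hq =>
    have h1 := hp.add hq
    rw [map_add, map_add]
    refine h1.congr_of_eventuallyEq (Filter.Eventually.of_forall fun s => ?_)
    simp only [map_add, Pi.add_apply]
  | mul_X p j hp =>
    have h1 := hp.mul (gapc_upd x i j)
    have h2 : aeval x (pderiv i (p * X j)) = aeval x (pderiv i p) * Function.update x i (x i) j +
        aeval (Function.update x i (x i)) p * (if i = j then 1 else 0) := by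
      rw [Function.update_eq_self]
      simp only [Derivation.leibniz, smul_eq_mul, map_add, map_mul, aeval_X, pderiv_X]
      have h3 : aeval x ((Pi.single i (1 : MvPolynomial (Fin m) ℤ) : Fin m → MvPolynomial (Fin m) ℤ) j) =
          (if i = j then (1 : ℝ) else 0) := by
        split_ifs with h
        · subst h
          rw [Pi.single_eq_same, map_one]
        · rw [Pi.single_eq_of_ne (Ne.symm h), map_zero]
      rw [h3]
      ring
    rw [h2]
    refine h1.congr_of_eventuallyEq (Filter.Eventually.of_forall fun s => ?_)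
    simp only [map_mul, aeval_X, Pi.mul_apply]

theorem gapc_cont {m : ℕ} (P : MvPolynomial (Fin m) ℤ) :
    Continuous (fun x : Fin m → ℝ => aeval x P) := by
  induction P using MvPolynomial.induction_on with
  | C a =>
    simp only [MvPolynomial.aeval_C]
    exact continuous_const
  | add p q hp hq =>
    simp only [map_add]
    exact hp.add hq
  | mul_X p j hp =>
    simp only [map_mul, aeval_X]
    exact hp.mul (continuous_apply j)

theorem exists_min {m : ℕ} (P : MvPolynomial (Fin m) ℤ) (hP : ∀ x : Fin m → ℝ, 0 ≤ aeval x P)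
    {ε : ℝ} (hε : 0 < ε) : ∃ x : Fin m → ℝ,
      (∀ y : Fin m → ℝ, aeval x P + ε * ∑ i, x i ^ 6 ≤ aeval y P + ε * ∑ i, y i ^ 6) ∧
      Crit P (1 / (6 * ε)) x := by
  set F : (Fin m → ℝ) → ℝ := fun x => aeval x P + ε * ∑ i, x i ^ 6 with hF
  have hcont : Continuous F := by
    refine (gapc_cont P).add (continuous_const.mul ?_)
    exact continuous_finsetSum _ fun i _ => (continuous_apply i).pow 6
  have h6 : ∀ (z : Fin m → ℝ) (i : Fin m), 0 ≤ z i ^ 6 := fun z i => by positivity
  have hlow : ∀ (z : Fin m → ℝ) (i : Fin m), ε * z i ^ 6 ≤ F z := by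
    intro z i
    have h1 : z i ^ 6 ≤ ∑ j, z j ^ 6 :=
      Finset.single_le_sum (f := fun j => z j ^ 6) (fun j _ => h6 z j) (Finset.mem_univ i)
    have h2 := mul_le_mul_of_nonneg_left h1 hε.le
    have h3 := hP z
    show ε * z i ^ 6 ≤ aeval z P + ε * ∑ i, z i ^ 6
    linarith
  have hF0 : 0 ≤ F 0 := by
    have h1 : F 0 = aeval (0 : Fin m → ℝ) P + ε * ∑ i : Fin m, (0 : Fin m → ℝ) i ^ 6 := rfl
    rw [h1]
    exact add_nonneg (hP 0) (mul_nonneg hε.le (Finset.sum_nonneg fun i _ => h6 0 i))
  set R : ℝ := max 1 ((F 0 + 1) / ε) with hR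
  have hR1 : 1 ≤ R := le_max_left _ _
  have hR6 : F 0 + 1 ≤ ε * R ^ 6 := by
    have h1 : (F 0 + 1) / ε ≤ R := le_max_right _ _
    rw [div_le_iff₀ hε] at h1
    have h2 : R ≤ R ^ 6 := le_self_pow₀ hR1 (by norm_num)
    nlinarith
  have hcomp : IsCompact (Metric.closedBall (0 : Fin m → ℝ) R) := isCompact_closedBall _ _
  have h0mem : (0 : Fin m → ℝ) ∈ Metric.closedBall (0 : Fin m → ℝ) R := by
    rw [Metric.mem_closedBall, dist_self]
    linarith
  obtain ⟨x, -, hx⟩ := hcomp.exists_isMinOn ⟨0, h0mem⟩ hcont.continuousOn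
  have hmin : ∀ y, F x ≤ F y := by
    intro y
    by_cases hy : y ∈ Metric.closedBall (0 : Fin m → ℝ) R
    · exact hx hy
    · have h1 : F x ≤ F 0 := hx h0mem
      rw [Metric.mem_closedBall, dist_zero_right, pi_norm_le_iff_of_nonneg (by linarith)] at hy
      push Not at hy
      obtain ⟨i, hi⟩ := hy
      rw [Real.norm_eq_abs] at hi
      have h2 : R ^ 6 ≤ y i ^ 6 := by
        have h3 : R ^ 6 ≤ |y i| ^ 6 := pow_le_pow_left₀ (by linarith) hi.le 6
        have h4 : |y i| ^ 6 = y i ^ 6 := by
          rw [show (6 : ℕ) = 2 * 3 by norm_num, pow_mul, sq_abs, ← pow_mul]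
        rwa [h4] at h3
      have h3 := hlow y i
      have h4 := mul_le_mul_of_nonneg_left h2 hε.le
      linarith
  refine ⟨x, hmin, fun i => ?_⟩
  have hd1 := hasDerivAt_update P x i
  have hd2 : HasDerivAt (fun s : ℝ => ∑ j, (Function.update x i s j) ^ 6)
      (∑ j : Fin m, 6 * (x j) ^ 5 * (if i = j then 1 else 0)) (x i) := by
    refine HasDerivAt.fun_sum fun j _ => ?_
    have h1 := (gapc_upd x i j).fun_pow 6
    refine h1.congr_deriv ?_
    rw [Function.update_eq_self]
    norm_num
  have hd3 : HasDerivAt (fun s : ℝ => F (Function.update x i s))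
      (aeval x (pderiv i P) + ε * (∑ j : Fin m, 6 * (x j) ^ 5 * (if i = j then 1 else 0))) (x i) :=
    hd1.add (hd2.const_mul ε)
  have hloc : IsLocalMin (fun s : ℝ => F (Function.update x i s)) (x i) := by
    refine Filter.Eventually.of_forall fun s => ?_
    show F (Function.update x i (x i)) ≤ F (Function.update x i s)
    rw [Function.update_eq_self]
    exact hmin _
  have hz := hloc.hasDerivAt_eq_zero hd3
  have hs : (∑ j : Fin m, 6 * (x j) ^ 5 * (if i = j then (1 : ℝ) else 0)) = 6 * x i ^ 5 := by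
    simp
  rw [hs] at hz
  have h6e : (6 * ε) ≠ 0 := by positivity
  field_simp
  linarith

theorem gapc_len {p : Polynomial ℤ} (h0 : p ≠ 0) : (1 : ℝ) ≤ len1 p := by
  have h1 : (p.coeff p.natDegree).natAbs ≤ len1 p := by
    unfold len1
    exact Finset.single_le_sum (f := fun i => (p.coeff i).natAbs) (fun _ _ => Nat.zero_le _)
      (Polynomial.natDegree_mem_support_of_nonzero h0)
  have h2 : 1 ≤ (p.coeff p.natDegree).natAbs :=
    Int.natAbs_pos.mpr (Polynomial.mem_support_iff.mp (Polynomial.natDegree_mem_support_of_nonzero h0))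
  exact_mod_cast le_trans h2 h1

theorem gapc_real (p : Polynomial ℤ) : ((len1 p : ℕ) : ℝ) = ∑ i ∈ p.support, |((p.coeff i : ℤ) : ℝ)| := by
  unfold len1
  rw [Nat.cast_sum]
  refine Finset.sum_congr rfl fun i _ => ?_
  rw [← Int.cast_abs, ← Int.cast_natCast, Int.natCast_natAbs]

theorem gapc_split {p : Polynomial ℤ} {t : ℝ} (ht : Polynomial.aeval t p = 0) {k : ℕ}
    (hk : k ∈ p.support) {c : ℝ} (hc0 : 0 ≤ c) (hc : ∀ i ∈ p.support.erase k, |t| ^ i ≤ c) :
    |t| ^ k ≤ c * len1 p := by
  have h1 : Polynomial.aeval t p = ∑ i ∈ p.support, ((p.coeff i : ℤ) : ℝ) * t ^ i := by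
    rw [Polynomial.aeval_def, Polynomial.eval₂_eq_sum, Polynomial.sum_def]
    rfl
  rw [h1, ← Finset.add_sum_erase _ _ hk] at ht
  have h2 : |((p.coeff k : ℤ) : ℝ)| * |t| ^ k ≤ ∑ i ∈ p.support.erase k, |((p.coeff i : ℤ) : ℝ)| * c := by
    have h3 : ((p.coeff k : ℤ) : ℝ) * t ^ k = - ∑ i ∈ p.support.erase k, ((p.coeff i : ℤ) : ℝ) * t ^ i := by
      linarith
    rw [← abs_pow, ← abs_mul, h3, abs_neg]
    refine le_trans (Finset.abs_sum_le_sum_abs _ _) (Finset.sum_le_sum fun i hi => ?_)
    rw [abs_mul, abs_pow]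
    exact mul_le_mul_of_nonneg_left (hc i hi) (abs_nonneg _)
  have hk1 : (1 : ℝ) ≤ |((p.coeff k : ℤ) : ℝ)| := by
    have h4 : (1 : ℤ) ≤ |p.coeff k| := Int.one_le_abs (Polynomial.mem_support_iff.mp hk)
    exact_mod_cast h4
  rw [← Finset.sum_mul] at h2
  have h5 : (∑ i ∈ p.support.erase k, |((p.coeff i : ℤ) : ℝ)|) + |((p.coeff k : ℤ) : ℝ)| = len1 p := by
    rw [gapc_real, add_comm]
    exact Finset.add_sum_erase _ (fun i => |((p.coeff i : ℤ) : ℝ)|) hk
  have h6 : |t| ^ k ≤ |((p.coeff k : ℤ) : ℝ)| * |t| ^ k :=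
    le_mul_of_one_le_left (pow_nonneg (abs_nonneg _) _) hk1
  have h7 : (0 : ℝ) ≤ ∑ i ∈ p.support.erase k, |((p.coeff i : ℤ) : ℝ)| :=
    Finset.sum_nonneg fun i _ => abs_nonneg _
  have h8 : (∑ i ∈ p.support.erase k, |((p.coeff i : ℤ) : ℝ)|) * c ≤ c * len1 p := by
    rw [← h5, mul_comm]
    refine mul_le_mul_of_nonneg_left ?_ hc0
    linarith
  linarith

theorem root_le {p : Polynomial ℤ} (h0 : p ≠ 0) {t : ℝ} (ht : Polynomial.aeval t p = 0) :
    |t| ≤ len1 p := by
  have h1 := gapc_len h0
  rcases le_or_gt |t| 1 with h | h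
  · linarith
  have hn : p.natDegree ≠ 0 := by
    intro hn
    rw [Polynomial.eq_C_of_natDegree_eq_zero hn, Polynomial.aeval_C] at ht
    have h2 : p.coeff 0 ≠ 0 := by
      have := Polynomial.mem_support_iff.mp (Polynomial.natDegree_mem_support_of_nonzero h0)
      rwa [hn] at this
    have h3 : ((p.coeff 0 : ℤ) : ℝ) = 0 := ht
    exact h2 (by exact_mod_cast h3)
  obtain ⟨n, hn'⟩ := Nat.exists_eq_succ_of_ne_zero hn
  have h2 := gapc_split ht (Polynomial.natDegree_mem_support_of_nonzero h0) (c := |t| ^ n) (by positivity) (by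
    intro i hi
    refine pow_le_pow_right₀ h.le ?_
    have h3 := Polynomial.le_natDegree_of_mem_supp i (Finset.mem_of_mem_erase hi)
    have h4 := Finset.ne_of_mem_erase hi
    omega)
  rw [hn', Nat.succ_eq_add_one, pow_succ] at h2
  exact le_of_mul_le_mul_left h2 (pow_pos (by linarith) _)

theorem le_root {p : Polynomial ℤ} (h0 : p ≠ 0) {t : ℝ} (ht : Polynomial.aeval t p = 0)
    (hne : t ≠ 0) : 1 ≤ |t| * len1 p := by
  have h1 := gapc_len h0
  have htpos : 0 < |t| := abs_pos.mpr hne
  rcases le_or_gt 1 |t| with h | h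
  · nlinarith
  have h2 := gapc_split ht (Polynomial.natTrailingDegree_mem_support_of_nonzero h0)
    (c := |t| ^ (p.natTrailingDegree + 1)) (by positivity) (by
    intro i hi
    refine pow_le_pow_of_le_one htpos.le h.le ?_
    have h3 := Polynomial.natTrailingDegree_le_of_mem_supp i (Finset.mem_of_mem_erase hi)
    have h4 := Finset.ne_of_mem_erase hi
    omega)
  rw [pow_succ, mul_assoc] at h2
  have h3 : |t| ^ p.natTrailingDegree * 1 ≤ |t| ^ p.natTrailingDegree * (|t| * len1 p) := by
    rw [mul_one]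
    exact h2
  exact le_of_mul_le_mul_left h3 (pow_pos htpos _)

end Pool.Agent.H77.SG
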