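import Pool.Agent.H77.SG.GapB
import Pool.Agent.H77.SG.GapC

/-!
# Limits of the values at critical points

PROOF of `root_of_tendsto`: with `K` the degree of `D` in `η`, divide `ev2 D (τ n) (η n) = 0` by
`(η n) ^ K`: the terms with `k < K` tend to `0` (their coefficients converge), so the value of the
leading coefficient at `τ n`, which converges to its value at `τ'`, tends to `0`.

`small_zero`: take `ε n = 1 / (n + 1)`, the minimisers `x n` of `exists_min`, `η n = (n + 1) / 6`. As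
`P z = 0`, one has `∑ (x n i) ^ 6 ≤ ∑ (z i) ^ 6` and `P (x n) ≤ ε n ∑ (z i) ^ 6`. A subsequence
converges to some `x` with `P x = 0`. Apply `exists_elim` to `h = ∑ X i ^ 2` (`len h ≤ m`):
`h (x)` is a root of the leading coefficient, so it is at most `len2 D` (`root_le`,
`len1_coeff_le`).

`inf_gap`: let `t` be the infimum of `P`; `P (x n) → t`, because
`P (x n) ≤ P y + ε n ∑ (y i) ^ 6` for all `y`. Apply `exists_elim` to `h = P`: `t` is a root of the
leading coefficient. If `t = 0` we are in the first case, otherwise `1 ≤ t * len2 D` (`le_root`).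
-/

set_option autoImplicit false

namespace Pool.Agent.H77.SG

open MvPolynomial Filter Topology

theorem gapd_ev2 (D : Polynomial (Polynomial ℤ)) (t η : ℝ) :
    ev2 D t η = ∑ k ∈ Finset.range (D.natDegree + 1), Polynomial.aeval t (D.coeff k) * η ^ k := by
  unfold ev2
  rw [Polynomial.eval₂_eq_sum_range]
  rfl

theorem root_of_tendsto {D : Polynomial (Polynomial ℤ)} {η τ : ℕ → ℝ} (hη : Tendsto η atTop atTop)
    {t : ℝ} (hτ : Tendsto τ atTop (𝓝 t)) (hz : ∀ n, ev2 D (τ n) (η n) = 0) :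
    Polynomial.aeval t D.leadingCoeff = 0 := by
  set K := D.natDegree with hK
  have hcont : ∀ k, Tendsto (fun n => Polynomial.aeval (τ n) (D.coeff k)) atTop
      (𝓝 (Polynomial.aeval t (D.coeff k))) := fun k =>
    ((D.coeff k).continuous_aeval.tendsto t).comp hτ
  have h1 : Tendsto (fun n => -∑ k ∈ Finset.range K,
      Polynomial.aeval (τ n) (D.coeff k) * (η n ^ k / η n ^ K)) atTop (𝓝 0) := by
    have h2 : Tendsto (fun n => ∑ k ∈ Finset.range K,
        Polynomial.aeval (τ n) (D.coeff k) * (η n ^ k / η n ^ K)) atTop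
        (𝓝 (∑ k ∈ Finset.range K, Polynomial.aeval t (D.coeff k) * 0)) := by
      refine tendsto_finsetSum _ fun k hk => (hcont k).mul ?_
      exact (tendsto_pow_div_pow_atTop_zero (Finset.mem_range.mp hk)).comp hη
    have h3 := h2.neg
    simpa using h3
  have h2 : (fun n => Polynomial.aeval (τ n) (D.coeff K)) =ᶠ[atTop] (fun n => -∑ k ∈ Finset.range K,
      Polynomial.aeval (τ n) (D.coeff k) * (η n ^ k / η n ^ K)) := by
    filter_upwards [hη.eventually_gt_atTop 0] with n hn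
    have h3 := hz n
    rw [gapd_ev2, Finset.sum_range_succ] at h3
    have hp : η n ^ K ≠ 0 := pow_ne_zero _ hn.ne'
    have h4 : (∑ k ∈ Finset.range K, Polynomial.aeval (τ n) (D.coeff k) * (η n ^ k / η n ^ K)) =
        (∑ k ∈ Finset.range K, Polynomial.aeval (τ n) (D.coeff k) * η n ^ k) / η n ^ K := by
      rw [Finset.sum_div]
      refine Finset.sum_congr rfl fun k _ => ?_
      rw [mul_div_assoc]
    rw [h4]
    have h5 : (∑ k ∈ Finset.range K, Polynomial.aeval (τ n) (D.coeff k) * η n ^ k) =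
        -(Polynomial.aeval (τ n) (D.coeff K) * η n ^ K) := by linarith
    rw [h5, neg_div, neg_neg, mul_div_assoc, div_self hp, mul_one]
  exact tendsto_nhds_unique (hcont K) (h1.congr' h2.symm)

theorem gapd_cont {m : ℕ} (P : MvPolynomial (Fin m) ℤ) {x : ℕ → Fin m → ℝ} {y : Fin m → ℝ}
    (hx : Tendsto x atTop (𝓝 y)) : Tendsto (fun n => aeval (x n) P) atTop (𝓝 (aeval y P)) :=
  ((gapc_cont P).tendsto y).comp hx

theorem gapd_eta {φ : ℕ → ℕ} (hφ : Tendsto φ atTop atTop) :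
    Tendsto (fun n => 1 / (6 * (1 / ((φ n : ℝ) + 1)))) atTop atTop := by
  have h1 : (fun n => 1 / (6 * (1 / ((φ n : ℝ) + 1)))) = fun n => (1 / 6 : ℝ) * ((φ n : ℝ) + 1) := by
    funext n
    have : ((φ n : ℝ) + 1) ≠ 0 := by positivity
    field_simp
  rw [h1]
  refine Tendsto.const_mul_atTop (by norm_num) ?_
  exact tendsto_atTop_add_const_right _ _ (tendsto_natCast_atTop_atTop.comp hφ)

theorem small_zero {m : ℕ} (P : MvPolynomial (Fin m) ℤ) (L : ℕ) (hL : 1 ≤ L)
    (hd : ∀ i, (pderiv i P).totalDegree ≤ 3) (hl : ∀ i, len (pderiv i P) ≤ L)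
    (hP : ∀ x : Fin m → ℝ, 0 ≤ aeval x P) {z : Fin m → ℝ} (hz : aeval z P = 0) :
    ∃ x : Fin m → ℝ, aeval x P = 0 ∧
      ∑ i, x i ^ 2 ≤ (((m * L ^ (4 * m + 4) + 1) ^ (5 ^ m) : ℕ) : ℝ) := by
  have hε : ∀ n : ℕ, (0 : ℝ) < 1 / ((n : ℝ) + 1) := fun n => by positivity
  choose x hxmin hxcrit using fun n : ℕ => exists_min P hP (hε n)
  set S : ℝ := ∑ i, z i ^ 6 with hS
  have h6 : ∀ (y : Fin m → ℝ) (i : Fin m), 0 ≤ y i ^ 6 := fun y i => by positivity
  have hS0 : 0 ≤ S := Finset.sum_nonneg fun i _ => h6 z i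
  have hx6 : ∀ n, ∑ i, x n i ^ 6 ≤ S := by
    intro n
    have h1 := hxmin n z
    rw [hz, zero_add] at h1
    have h2 := hP (x n)
    have h3 : 1 / ((n : ℝ) + 1) * ∑ i, x n i ^ 6 ≤ 1 / ((n : ℝ) + 1) * S := by linarith
    exact le_of_mul_le_mul_left h3 (hε n)
  have hPx : ∀ n, aeval (x n) P ≤ 1 / ((n : ℝ) + 1) * S := by
    intro n
    have h1 := hxmin n z
    rw [hz, zero_add] at h1
    have h2 : 0 ≤ 1 / ((n : ℝ) + 1) * ∑ i, x n i ^ 6 :=
      mul_nonneg (hε n).le (Finset.sum_nonneg fun i _ => h6 _ i)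
    linarith
  set R : ℝ := max 1 S with hR
  have hR1 : 1 ≤ R := le_max_left _ _
  have hball : ∀ n, x n ∈ Metric.closedBall (0 : Fin m → ℝ) R := by
    intro n
    rw [Metric.mem_closedBall, dist_zero_right, pi_norm_le_iff_of_nonneg (by linarith)]
    intro i
    rw [Real.norm_eq_abs]
    by_contra hcon
    push Not at hcon
    have h1 : R ^ 6 < |x n i| ^ 6 := pow_lt_pow_left₀ hcon (by linarith) (by norm_num)
    have h2 : |x n i| ^ 6 = x n i ^ 6 := by
      rw [show (6 : ℕ) = 2 * 3 by norm_num, pow_mul, sq_abs, ← pow_mul]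
    have h3 : x n i ^ 6 ≤ ∑ j, x n j ^ 6 :=
      Finset.single_le_sum (f := fun j => x n j ^ 6) (fun j _ => h6 _ j) (Finset.mem_univ i)
    have h4 : R ≤ R ^ 6 := le_self_pow₀ hR1 (by norm_num)
    have h5 : S ≤ R := le_max_right _ _
    have h7 := hx6 n
    rw [h2] at h1
    linarith
  obtain ⟨y, -, φ, hφ, hlim⟩ := (isCompact_closedBall (0 : Fin m → ℝ) R).tendsto_subseq hball
  have hlim' : Tendsto (fun n => x (φ n)) atTop (𝓝 y) := hlim
  refine ⟨y, ?_, ?_⟩
  · have h1 := gapd_cont P hlim'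
    have h2 : Tendsto (fun n => 1 / (((φ n : ℕ) : ℝ) + 1) * S) atTop (𝓝 (0 * S)) := by
      refine Tendsto.mul_const _ ?_
      exact tendsto_one_div_add_atTop_nhds_zero_nat.comp hφ.tendsto_atTop
    rw [zero_mul] at h2
    exact le_antisymm (le_of_tendsto_of_tendsto' h1 h2 fun n => hPx (φ n)) (hP y)
  · set h : MvPolynomial (Fin m) ℤ := ∑ i, X i ^ 2 with hh
    have hdeg : h.totalDegree ≤ 4 := by
      rw [hh]
      refine totalDegree_finsetSum_le fun i _ => ?_
      rw [totalDegree_X_pow]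
      norm_num
    have hlen : len h ≤ m := by
      rw [hh]
      refine le_trans (len_sum _ _) ?_
      calc ∑ i : Fin m, len (X i ^ 2 : MvPolynomial (Fin m) ℤ) ≤ ∑ _i : Fin m, 1 := by
            refine Finset.sum_le_sum fun i _ => ?_
            rw [pow_two]
            refine le_trans (len_mul _ _) ?_
            rw [len_X]
        _ = m := by simp
    obtain ⟨D, hD0, hDlen, hD⟩ := exists_elim P L hL hd hl h hdeg
    have hroot := root_of_tendsto (D := D) (gapd_eta hφ.tendsto_atTop) (gapd_cont h hlim')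
      (fun n => hD _ _ (hxcrit (φ n)))
    have hle := root_le (Polynomial.leadingCoeff_ne_zero.mpr hD0) hroot
    have hval : aeval y h = ∑ i, y i ^ 2 := by
      rw [hh, map_sum]
      refine Finset.sum_congr rfl fun i _ => ?_
      rw [map_pow, aeval_X]
    rw [hval] at hle
    have h1 : len1 D.leadingCoeff ≤ (m * L ^ (4 * m + 4) + 1) ^ (5 ^ m) := by
      refine le_trans (len1_coeff_le D _) (le_trans hDlen ?_)
      refine Nat.pow_le_pow_left ?_ _
      exact Nat.add_le_add_right (Nat.mul_le_mul_right _ hlen) _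
    refine le_trans (le_abs_self _) (le_trans hle ?_)
    exact_mod_cast h1

theorem inf_gap {m : ℕ} (P : MvPolynomial (Fin m) ℤ) (L : ℕ) (hL : 1 ≤ L)
    (hd : ∀ i, (pderiv i P).totalDegree ≤ 3) (hl : ∀ i, len (pderiv i P) ≤ L)
    (hdeg : P.totalDegree ≤ 4) (hP : ∀ x : Fin m → ℝ, 0 ≤ aeval x P) :
    (∀ δ > 0, ∃ x : Fin m → ℝ, aeval x P < δ) ∨
      ∀ x : Fin m → ℝ, 1 ≤ aeval x P * (((len P * L ^ (4 * m + 4) + 1) ^ (5 ^ m) : ℕ) : ℝ) := by
  have hε : ∀ n : ℕ, (0 : ℝ) < 1 / ((n : ℝ) + 1) := fun n => by positivity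
  choose x hxmin hxcrit using fun n : ℕ => exists_min P hP (hε n)
  have h6 : ∀ (y : Fin m → ℝ) (i : Fin m), 0 ≤ y i ^ 6 := fun y i => by positivity
  set t : ℝ := ⨅ y : Fin m → ℝ, aeval y P with ht
  have hbdd : BddBelow (Set.range fun y : Fin m → ℝ => aeval y P) :=
    ⟨0, by rintro _ ⟨y, rfl⟩; exact hP y⟩
  have htle : ∀ y : Fin m → ℝ, t ≤ aeval y P := fun y => ciInf_le hbdd y
  have ht0 : 0 ≤ t := le_ciInf fun y => hP y
  have hlim : Tendsto (fun n => aeval (x n) P) atTop (𝓝 t) := by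
    rw [Metric.tendsto_atTop]
    intro δ hδ
    obtain ⟨y, hy⟩ := exists_lt_of_ciInf_lt (show (⨅ y : Fin m → ℝ, aeval y P) < t + δ / 2 by
      rw [← ht]; linarith)
    have h1 : Tendsto (fun n : ℕ => 1 / ((n : ℝ) + 1) * ∑ i, y i ^ 6) atTop (𝓝 (0 * ∑ i, y i ^ 6)) :=
      Tendsto.mul_const _ tendsto_one_div_add_atTop_nhds_zero_nat
    rw [zero_mul] at h1
    obtain ⟨N, hN⟩ := (Metric.tendsto_atTop.mp h1) (δ / 2) (by linarith)
    refine ⟨N, fun n hn => ?_⟩
    have h2 := hN n hn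
    rw [Real.dist_eq, sub_zero] at h2
    have h3 := (abs_lt.mp h2).2
    have h4 := hxmin n y
    have h5 : 0 ≤ 1 / ((n : ℝ) + 1) * ∑ i, x n i ^ 6 :=
      mul_nonneg (hε n).le (Finset.sum_nonneg fun i _ => h6 _ i)
    have h7 := htle (x n)
    rw [Real.dist_eq, abs_lt]
    constructor <;> linarith
  obtain ⟨D, hD0, hDlen, hD⟩ := exists_elim P L hL hd hl P hdeg
  have hroot := root_of_tendsto (D := D) (gapd_eta tendsto_id) hlim
    (fun n => hD _ _ (hxcrit n))
  rcases eq_or_ne t 0 with h0 | h0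
  · left
    intro δ hδ
    exact exists_lt_of_ciInf_lt (show (⨅ y : Fin m → ℝ, aeval y P) < δ by rw [← ht, h0]; exact hδ)
  · right
    intro y
    have h1 := le_root (Polynomial.leadingCoeff_ne_zero.mpr hD0) hroot h0
    rw [abs_of_nonneg ht0] at h1
    have h2 : ((len1 D.leadingCoeff : ℕ) : ℝ) ≤ (((len P * L ^ (4 * m + 4) + 1) ^ (5 ^ m) : ℕ) : ℝ) := by
      exact_mod_cast le_trans (len1_coeff_le D _) hDlen
    calc (1 : ℝ) ≤ t * ((len1 D.leadingCoeff : ℕ) : ℝ) := h1
      _ ≤ aeval y P * (((len P * L ^ (4 * m + 4) + 1) ^ (5 ^ m) : ℕ) : ℝ) :=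
        mul_le_mul (htle y) h2 (Nat.cast_nonneg _) (hP y)

end Pool.Agent.H77.SG
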