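import Pool.Agent.H77.SG.GapD

/-!
# Systems of quadratic equations: small solutions, and a gap

PROOFS. `small_solution`: `small_zero` for `P = ∑ f ^ 2` over the list: `len P ≤ g B ^ 2` with
`g = fs.length`, degree at most `4`, so `len (pderiv i P) ≤ 4 g B ^ 2` and its degree is at most `3`.

`box_gap`: in `m + m` variables (`Fin (m + m)`, `y i = X (castAdd m i)`, `s i = X (natAdd m i)`)
consider `P = ∑ f(y) ^ 2 + ∑ i, (16 (y i ^ 2 + s i ^ 2) - 1) ^ 2` (`MvPolynomial.rename`); its degree is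
at most `4` and `len P ≤ g B ^ 2 + 33 ^ 2 m`. By `inf_gap` either `P ≥ 1 / (…)` everywhere, and for
`z` in the box one takes `s i = √(1/16 - z i ^ 2)`, so that `P = ∑ f(z) ^ 2`; or there are points with
`P` arbitrarily small: they are in a bounded set (`P < 1` gives `y i ^ 2 + s i ^ 2 ≤ 1/8`), so by
compactness there is a point with `P = 0`, that is a common zero `y` of `fs` with
`y i ^ 2 ≤ 1 / 16`, against the hypothesis.
-/

set_option autoImplicit false

namespace Pool.Agent.H77.SG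

open MvPolynomial

/-- See `small_solution`. -/
def bound1 (m g B : ℕ) : ℕ := (m * (4 * g * B ^ 2 + 1) ^ (4 * m + 4) + 1) ^ (5 ^ m)

/-- See `box_gap`. -/
def bound2 (m g B : ℕ) : ℕ :=
  ((g * B ^ 2 + 1089 * m) * (4 * (g * B ^ 2 + 1089 * m) + 1) ^ (8 * m + 4) + 1) ^ (5 ^ (2 * m))

theorem gape_list_nonneg {l : List ℝ} (h : ∀ a ∈ l, 0 ≤ a) : 0 ≤ l.sum := List.sum_nonneg h

theorem gape_list_eq_zero (l : List ℝ) (h : ∀ a ∈ l, 0 ≤ a) (h0 : l.sum = 0) :
    ∀ a ∈ l, a = 0 := by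
  induction l with
  | nil => simp
  | cons b l ih =>
    rw [List.sum_cons] at h0
    have hb : 0 ≤ b := h b List.mem_cons_self
    have hl : 0 ≤ l.sum := List.sum_nonneg fun a ha => h a (List.mem_cons_of_mem _ ha)
    have hb0 : b = 0 := by linarith
    have hl0 : l.sum = 0 := by linarith
    intro a ha
    rcases List.mem_cons.1 ha with h1 | h1
    · rw [h1, hb0]
    · exact ih (fun c hc => h c (List.mem_cons_of_mem _ hc)) hl0 a h1

theorem gape_aeval_list {m : ℕ} (fs : List (MvPolynomial (Fin m) ℤ)) (x : Fin m → ℝ) :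
    aeval x (fs.map fun f => f ^ 2).sum = (fs.map fun f => (aeval x f) ^ 2).sum := by
  induction fs with
  | nil => simp
  | cons f fs ih => simp [ih]

theorem gape_deg_list {m : ℕ} (l : List (MvPolynomial (Fin m) ℤ)) (d : ℕ)
    (h : ∀ f ∈ l, f.totalDegree ≤ d) : l.sum.totalDegree ≤ d := by
  induction l with
  | nil => simp
  | cons f l ih =>
    rw [List.sum_cons]
    refine (totalDegree_add _ _).trans (max_le (h f List.mem_cons_self) ?_)
    exact ih fun g hg => h g (List.mem_cons_of_mem _ hg)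

theorem gape_deg_sq {m : ℕ} (f : MvPolynomial (Fin m) ℤ) (h : f.totalDegree ≤ 2) :
    (f ^ 2).totalDegree ≤ 4 := by
  refine (totalDegree_pow f 2).trans ?_
  omega

theorem gape_len_sq {m : ℕ} (f : MvPolynomial (Fin m) ℤ) (B : ℕ) (h : len f ≤ B) :
    len (f ^ 2) ≤ B ^ 2 := by
  rw [pow_two, pow_two]
  exact (len_mul f f).trans (Nat.mul_le_mul h h)

theorem gape_deg_sqs {m : ℕ} (fs : List (MvPolynomial (Fin m) ℤ))
    (hd : ∀ f ∈ fs, f.totalDegree ≤ 2) : (fs.map fun f => f ^ 2).sum.totalDegree ≤ 4 := by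
  apply gape_deg_list
  intro f hf
  rw [List.mem_map] at hf
  obtain ⟨g, hg, rfl⟩ := hf
  exact gape_deg_sq g (hd g hg)

theorem gape_len_sqs {m B : ℕ} (fs : List (MvPolynomial (Fin m) ℤ))
    (hl : ∀ f ∈ fs, len f ≤ B) : len (fs.map fun f => f ^ 2).sum ≤ fs.length * B ^ 2 := by
  have := len_listSum (fs.map fun f => f ^ 2) (B ^ 2) (by
    intro f hf
    rw [List.mem_map] at hf
    obtain ⟨g, hg, rfl⟩ := hf
    exact gape_len_sq g B (hl g hg))
  rwa [List.length_map] at this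

theorem gape_pderiv {m : ℕ} (P : MvPolynomial (Fin m) ℤ) (N : ℕ) (hd : P.totalDegree ≤ 4)
    (hl : len P ≤ N) (i : Fin m) :
    (pderiv i P).totalDegree ≤ 3 ∧ len (pderiv i P) ≤ 4 * N + 1 := by
  constructor
  · have := totalDegree_pderiv i P
    omega
  · have h1 := len_pderiv i P
    have h2 : P.totalDegree * len P ≤ 4 * N := Nat.mul_le_mul hd hl
    omega

theorem gape_len_rename {m k : ℕ} (e : Fin m → Fin k) (p : MvPolynomial (Fin m) ℤ) :
    len (rename e p) ≤ len p := by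
  conv_lhs => rw [p.as_sum]
  rw [map_sum]
  refine (len_sum _ _).trans ?_
  unfold len
  apply Finset.sum_le_sum
  intro d _
  rw [rename_monomial]
  exact (len_monomial _ _).le

theorem small_solution {m B : ℕ} (fs : List (MvPolynomial (Fin m) ℤ))
    (hd : ∀ f ∈ fs, f.totalDegree ≤ 2) (hl : ∀ f ∈ fs, len f ≤ B) {z : Fin m → ℝ}
    (hz : ∀ f ∈ fs, aeval z f = 0) :
    ∃ x : Fin m → ℝ, (∀ f ∈ fs, aeval x f = 0) ∧ ∑ i, x i ^ 2 ≤ (bound1 m fs.length B : ℝ) := by
  have hP : ∀ x : Fin m → ℝ, 0 ≤ aeval x (fs.map fun f => f ^ 2).sum := by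
    intro x
    rw [gape_aeval_list]
    apply List.sum_nonneg
    intro a ha
    rw [List.mem_map] at ha
    obtain ⟨g, _, rfl⟩ := ha
    exact sq_nonneg _
  have hz0 : aeval z (fs.map fun f => f ^ 2).sum = 0 := by
    rw [gape_aeval_list]
    apply List.sum_eq_zero
    intro a ha
    rw [List.mem_map] at ha
    obtain ⟨g, hg, rfl⟩ := ha
    rw [hz g hg]
    norm_num
  have hdeg := gape_deg_sqs fs hd
  have hlen := gape_len_sqs fs hl
  obtain ⟨x, hx0, hx⟩ := small_zero (fs.map fun f => f ^ 2).sum (4 * fs.length * B ^ 2 + 1)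
    (by omega) (fun i => (gape_pderiv _ _ hdeg hlen i).1)
    (fun i => by
      have := (gape_pderiv _ _ hdeg hlen i).2
      rw [← mul_assoc] at this
      exact this) hP hz0
  refine ⟨x, ?_, ?_⟩
  · intro f hf
    rw [gape_aeval_list] at hx0
    have := gape_list_eq_zero _ (by
      intro a ha
      rw [List.mem_map] at ha
      obtain ⟨g, _, rfl⟩ := ha
      exact sq_nonneg _) hx0 ((aeval x f) ^ 2) (List.mem_map.2 ⟨f, hf, rfl⟩)
    exact pow_eq_zero_iff (two_ne_zero) |>.1 this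
  · exact hx

/-- the auxiliary polynomial of one coordinate -/
noncomputable def gape_box (m : ℕ) (i : Fin m) : MvPolynomial (Fin (m + m)) ℤ :=
  C 16 * (X (Fin.castAdd m i) ^ 2 + X (Fin.natAdd m i) ^ 2) - C 1

theorem gape_box_deg (m : ℕ) (i : Fin m) : (gape_box m i).totalDegree ≤ 2 := by
  unfold gape_box
  refine (totalDegree_sub _ _).trans (max_le ?_ ?_)
  · refine (totalDegree_mul _ _).trans ?_
    rw [totalDegree_C, zero_add]
    refine (totalDegree_add _ _).trans (max_le ?_ ?_)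
    · refine (totalDegree_pow _ 2).trans ?_
      rw [totalDegree_X]
    · refine (totalDegree_pow _ 2).trans ?_
      rw [totalDegree_X]
  · rw [totalDegree_C]
    omega

theorem gape_box_len (m : ℕ) (i : Fin m) : len (gape_box m i) ≤ 33 := by
  unfold gape_box
  have hX : ∀ j : Fin (m + m), len (X j ^ 2 : MvPolynomial (Fin (m + m)) ℤ) ≤ 1 := by
    intro j
    have := gape_len_sq (X j : MvPolynomial (Fin (m + m)) ℤ) 1 (len_X j).le
    simpa using this
  have h1 := len_sub (C 16 * (X (Fin.castAdd m i) ^ 2 + X (Fin.natAdd m i) ^ 2)) (C 1 :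
    MvPolynomial (Fin (m + m)) ℤ)
  have h2 := len_mul (C 16 : MvPolynomial (Fin (m + m)) ℤ)
    (X (Fin.castAdd m i) ^ 2 + X (Fin.natAdd m i) ^ 2)
  have h3 := len_add (X (Fin.castAdd m i) ^ 2 : MvPolynomial (Fin (m + m)) ℤ)
    (X (Fin.natAdd m i) ^ 2)
  have h4 := hX (Fin.castAdd m i)
  have h5 := hX (Fin.natAdd m i)
  rw [len_C] at h1 h2
  have e16 : (16 : ℤ).natAbs = 16 := rfl
  have e1 : (1 : ℤ).natAbs = 1 := rfl
  rw [e1] at h1
  rw [e16] at h2
  omega

theorem gape_box_eval (m : ℕ) (i : Fin m) (x : Fin (m + m) → ℝ) :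
    aeval x (gape_box m i) = 16 * (x (Fin.castAdd m i) ^ 2 + x (Fin.natAdd m i) ^ 2) - 1 := by
  unfold gape_box
  simp

/-- the list of all polynomials -/
noncomputable def gape_all {m : ℕ} (fs : List (MvPolynomial (Fin m) ℤ)) :
    List (MvPolynomial (Fin (m + m)) ℤ) := fs.map (rename (Fin.castAdd m))

/-- the sum of squares -/
noncomputable def gape_P {m : ℕ} (fs : List (MvPolynomial (Fin m) ℤ)) :
    MvPolynomial (Fin (m + m)) ℤ :=
  ((gape_all fs).map fun f => f ^ 2).sum + ∑ i : Fin m, (gape_box m i) ^ 2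

theorem gape_P_deg {m : ℕ} (fs : List (MvPolynomial (Fin m) ℤ))
    (hd : ∀ f ∈ fs, f.totalDegree ≤ 2) : (gape_P fs).totalDegree ≤ 4 := by
  unfold gape_P
  refine (totalDegree_add _ _).trans (max_le ?_ ?_)
  · apply gape_deg_sqs
    intro f hf
    unfold gape_all at hf
    rw [List.mem_map] at hf
    obtain ⟨g, hg, rfl⟩ := hf
    exact (totalDegree_rename_le _ _).trans (hd g hg)
  · refine (totalDegree_finsetSum _ _).trans ?_
    apply Finset.sup_le
    intro i _
    exact gape_deg_sq _ (gape_box_deg m i)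

theorem gape_P_len {m B : ℕ} (fs : List (MvPolynomial (Fin m) ℤ))
    (hl : ∀ f ∈ fs, len f ≤ B) : len (gape_P fs) ≤ fs.length * B ^ 2 + 1089 * m := by
  unfold gape_P
  refine (len_add _ _).trans (Nat.add_le_add ?_ ?_)
  · have := gape_len_sqs (B := B) (gape_all fs) (by
      intro f hf
      unfold gape_all at hf
      rw [List.mem_map] at hf
      obtain ⟨g, hg, rfl⟩ := hf
      exact (gape_len_rename _ _).trans (hl g hg))
    unfold gape_all at this ⊢
    rwa [List.length_map] at this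
  · refine (len_sum _ _).trans ?_
    have h1 : ∑ i : Fin m, len (gape_box m i ^ 2) ≤ ∑ _i : Fin m, 1089 := by
      apply Finset.sum_le_sum
      intro i _
      exact gape_len_sq _ 33 (gape_box_len m i)
    refine h1.trans ?_
    simp [mul_comm]

theorem gape_P_eval {m : ℕ} (fs : List (MvPolynomial (Fin m) ℤ)) (x : Fin (m + m) → ℝ) :
    aeval x (gape_P fs) = (fs.map fun f => (aeval (x ∘ Fin.castAdd m) f) ^ 2).sum +
      ∑ i : Fin m, (16 * (x (Fin.castAdd m i) ^ 2 + x (Fin.natAdd m i) ^ 2) - 1) ^ 2 := by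
  unfold gape_P
  rw [map_add, gape_aeval_list, map_sum]
  congr 1
  · unfold gape_all
    rw [List.map_map]
    congr 1
    apply List.map_congr_left
    intro f _
    simp only [Function.comp_apply, aeval_rename]
  · apply Finset.sum_congr rfl
    intro i _
    rw [map_pow, gape_box_eval]

theorem gape_sq_sum_nonneg {m : ℕ} (fs : List (MvPolynomial (Fin m) ℤ)) (y : Fin m → ℝ) :
    0 ≤ (fs.map fun f => (aeval y f) ^ 2).sum := by
  apply List.sum_nonneg
  intro a ha
  rw [List.mem_map] at ha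
  obtain ⟨g, _, rfl⟩ := ha
  exact sq_nonneg _

theorem gape_P_nonneg {m : ℕ} (fs : List (MvPolynomial (Fin m) ℤ)) (x : Fin (m + m) → ℝ) :
    0 ≤ aeval x (gape_P fs) := by
  rw [gape_P_eval]
  exact add_nonneg (gape_sq_sum_nonneg fs _) (Finset.sum_nonneg fun i _ => sq_nonneg _)

theorem gape_P_cont {m : ℕ} (fs : List (MvPolynomial (Fin m) ℤ)) :
    Continuous fun x : Fin (m + m) → ℝ => aeval x (gape_P fs) := by
  have h1 : (fun x : Fin (m + m) → ℝ => aeval x (gape_P fs)) =
      fun x : Fin (m + m) → ℝ => eval x (map (algebraMap ℤ ℝ) (gape_P fs)) := by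
    funext x
    rw [eval_map]
    rfl
  rw [h1]
  exact MvPolynomial.continuous_eval _

/-- a coordinate is small if the value is less than one -/
theorem gape_small {m : ℕ} (fs : List (MvPolynomial (Fin m) ℤ)) (x : Fin (m + m) → ℝ)
    (h : aeval x (gape_P fs) < 1) : ∀ j, |x j| ≤ 1 := by
  rw [gape_P_eval] at h
  have h0 := gape_sq_sum_nonneg fs (x ∘ Fin.castAdd m)
  have hi : ∀ i : Fin m, x (Fin.castAdd m i) ^ 2 + x (Fin.natAdd m i) ^ 2 ≤ 1 := by
    intro i
    have h1 : (16 * (x (Fin.castAdd m i) ^ 2 + x (Fin.natAdd m i) ^ 2) - 1) ^ 2 ≤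
        ∑ i : Fin m, (16 * (x (Fin.castAdd m i) ^ 2 + x (Fin.natAdd m i) ^ 2) - 1) ^ 2 :=
      Finset.single_le_sum (f := fun i : Fin m =>
        (16 * (x (Fin.castAdd m i) ^ 2 + x (Fin.natAdd m i) ^ 2) - 1) ^ 2)
        (fun i _ => sq_nonneg _) (Finset.mem_univ i)
    have h2 : (16 * (x (Fin.castAdd m i) ^ 2 + x (Fin.natAdd m i) ^ 2) - 1) ^ 2 < 1 := by
      linarith
    nlinarith
  intro j
  refine Fin.addCases (fun i => ?_) (fun i => ?_) j
  · rw [abs_le_one_iff_mul_self_le_one]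
    nlinarith [hi i, sq_nonneg (x (Fin.natAdd m i))]
  · rw [abs_le_one_iff_mul_self_le_one]
    nlinarith [hi i, sq_nonneg (x (Fin.castAdd m i))]

theorem gape_zero_exists {m : ℕ} (fs : List (MvPolynomial (Fin m) ℤ))
    (h : ∀ δ > 0, ∃ x : Fin (m + m) → ℝ, aeval x (gape_P fs) < δ) :
    ∃ x : Fin (m + m) → ℝ, aeval x (gape_P fs) = 0 := by
  have hK : IsCompact (Set.pi Set.univ fun _ : Fin (m + m) => Set.Icc (-1 : ℝ) 1) :=
    isCompact_univ_pi fun _ => isCompact_Icc
  have hne : (Set.pi Set.univ fun _ : Fin (m + m) => Set.Icc (-1 : ℝ) 1).Nonempty :=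
    ⟨fun _ => 0, fun i _ => ⟨by norm_num, by norm_num⟩⟩
  obtain ⟨x0, _, hmin⟩ := hK.exists_isMinOn hne (gape_P_cont fs).continuousOn
  refine ⟨x0, ?_⟩
  by_contra hcon
  have hpos : 0 < aeval x0 (gape_P fs) := lt_of_le_of_ne (gape_P_nonneg fs x0) (Ne.symm hcon)
  obtain ⟨x, hx⟩ := h (min (aeval x0 (gape_P fs)) 1) (lt_min hpos one_pos)
  have hx1 : aeval x (gape_P fs) < 1 := lt_of_lt_of_le hx (min_le_right _ _)
  have hx2 : aeval x (gape_P fs) < aeval x0 (gape_P fs) := lt_of_lt_of_le hx (min_le_left _ _)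
  have hxK : x ∈ Set.pi Set.univ fun _ : Fin (m + m) => Set.Icc (-1 : ℝ) 1 := by
    intro j _
    exact abs_le.1 (gape_small fs x hx1 j)
  have := hmin hxK
  exact absurd hx2 (not_lt.2 this)

theorem box_gap {m B : ℕ} (fs : List (MvPolynomial (Fin m) ℤ))
    (hd : ∀ f ∈ fs, f.totalDegree ≤ 2) (hl : ∀ f ∈ fs, len f ≤ B)
    (hno : ∀ z : Fin m → ℝ, (∀ i, |z i| ≤ 1 / 4) → ∃ f ∈ fs, aeval z f ≠ 0) {z : Fin m → ℝ}
    (hz : ∀ i, |z i| ≤ 1 / 4) :
    1 ≤ (fs.map fun f => (aeval z f) ^ 2).sum * (bound2 m fs.length B : ℝ) := by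
  have hdeg := gape_P_deg fs hd
  have hlen := gape_P_len fs hl
  rcases inf_gap (gape_P fs) (4 * (fs.length * B ^ 2 + 1089 * m) + 1) (by omega)
    (fun i => (gape_pderiv _ _ hdeg hlen i).1) (fun i => (gape_pderiv _ _ hdeg hlen i).2)
    hdeg (gape_P_nonneg fs) with h | h
  · exfalso
    obtain ⟨x, hx⟩ := gape_zero_exists fs h
    rw [gape_P_eval] at hx
    have h1 := gape_sq_sum_nonneg fs (x ∘ Fin.castAdd m)
    have h2 : 0 ≤ ∑ i : Fin m,
        (16 * (x (Fin.castAdd m i) ^ 2 + x (Fin.natAdd m i) ^ 2) - 1) ^ 2 :=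
      Finset.sum_nonneg fun i _ => sq_nonneg _
    have h3 : (fs.map fun f => (aeval (x ∘ Fin.castAdd m) f) ^ 2).sum = 0 := by linarith
    have h4 : ∑ i : Fin m,
        (16 * (x (Fin.castAdd m i) ^ 2 + x (Fin.natAdd m i) ^ 2) - 1) ^ 2 = 0 := by linarith
    rw [Finset.sum_eq_zero_iff_of_nonneg (fun i _ => sq_nonneg _)] at h4
    obtain ⟨f, hf, hne⟩ := hno (x ∘ Fin.castAdd m) (by
      intro i
      have h5 := h4 i (Finset.mem_univ i)
      have h6 : 16 * (x (Fin.castAdd m i) ^ 2 + x (Fin.natAdd m i) ^ 2) - 1 = 0 := by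
        exact pow_eq_zero_iff (two_ne_zero) |>.1 h5
      have h7 : x (Fin.castAdd m i) ^ 2 ≤ (1 / 4) ^ 2 := by
        nlinarith [sq_nonneg (x (Fin.natAdd m i))]
      exact abs_le_of_sq_le_sq h7 (by norm_num))
    apply hne
    have := gape_list_eq_zero _ (by
      intro a ha
      rw [List.mem_map] at ha
      obtain ⟨g, _, rfl⟩ := ha
      exact sq_nonneg _) h3 ((aeval (x ∘ Fin.castAdd m) f) ^ 2) (List.mem_map.2 ⟨f, hf, rfl⟩)
    exact pow_eq_zero_iff (two_ne_zero) |>.1 this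
  · have h1 := h (Fin.append z fun i => Real.sqrt (1 / 16 - z i ^ 2))
    have hval : aeval (Fin.append z fun i => Real.sqrt (1 / 16 - z i ^ 2)) (gape_P fs) =
        (fs.map fun f => (aeval z f) ^ 2).sum := by
      rw [gape_P_eval]
      have e1 : (Fin.append z fun i => Real.sqrt (1 / 16 - z i ^ 2)) ∘ Fin.castAdd m = z := by
        funext i
        simp [Fin.append_left]
      rw [e1]
      have e2 : ∑ i : Fin m,
          (16 * ((Fin.append z fun i => Real.sqrt (1 / 16 - z i ^ 2)) (Fin.castAdd m i) ^ 2 +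
            (Fin.append z fun i => Real.sqrt (1 / 16 - z i ^ 2)) (Fin.natAdd m i) ^ 2) - 1) ^ 2
          = 0 := by
        apply Finset.sum_eq_zero
        intro i _
        rw [Fin.append_left, Fin.append_right]
        have h2 : z i ^ 2 ≤ 1 / 16 := by
          have := hz i
          have h3 := abs_le.1 this
          nlinarith [h3.1, h3.2]
        rw [Real.sq_sqrt (by linarith)]
        ring
      rw [e2, add_zero]
    rw [hval] at h1
    refine h1.trans ?_
    apply mul_le_mul_of_nonneg_left _ (gape_sq_sum_nonneg fs z)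
    norm_cast
    unfold bound2
    have e3 : 4 * (m + m) + 4 = 8 * m + 4 := by ring
    have e4 : 5 ^ (2 * m) = 5 ^ (m + m) := by rw [two_mul]
    rw [e3, e4]
    exact Nat.pow_le_pow_left (Nat.add_le_add_right (Nat.mul_le_mul_right _ hlen) 1) _

end Pool.Agent.H77.SG
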