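import Pool.Agent.H77.SG.BP

/-!
# Segments which are graphs of affine functions, and the obstacles of ordinary edges

PROOFS. `mem_seg_iff`: `segment_eq_image` with the parameter `(z.1 - A.1) / (B.1 - A.1)`.
`seg_meet`: intermediate value theorem for the affine function `lineAt A B - lineAt C D`.
`seg_order`: an affine function which is `≤ 0` at `s` and at `t` and not `0` at both vanishes in
`[s, t]` at most at one of the ends. `wallSeg_iff`: the union of the point sets is the closed segment.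
`pass_sound`, `pass_complete`: the edge from `(2 T, 16 i + 4 u)` to `(2 T + 2, 16 j + 4 v)` passes
through `(2 T + 1, 8 (i + j) + 2 (u + v))`.
-/

set_option autoImplicit false

namespace Pool.Agent.H77.SG

/-- The affine function through two points. -/
noncomputable def lineAt (A B : ℝ × ℝ) (X : ℝ) : ℝ := A.2 + (B.2 - A.2) * ((X - A.1) / (B.1 - A.1))

theorem mem_seg_iff {A B : ℝ × ℝ} (h : A.1 < B.1) (z : ℝ × ℝ) :
    z ∈ segment ℝ A B ↔ A.1 ≤ z.1 ∧ z.1 ≤ B.1 ∧ z.2 = lineAt A B z.1 := by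
  have hpos : (0 : ℝ) < B.1 - A.1 := by linarith
  rw [segment_eq_image]
  constructor
  · rintro ⟨t, ⟨h0, h1⟩, rfl⟩
    simp only [Prod.fst_add, Prod.snd_add, Prod.smul_fst, Prod.smul_snd, smul_eq_mul]
    refine ⟨by nlinarith, by nlinarith, ?_⟩
    unfold lineAt
    have e : ((1 - t) * A.1 + t * B.1 - A.1) / (B.1 - A.1) = t := by
      rw [div_eq_iff (ne_of_gt hpos)]
      ring
    rw [e]
    ring
  · rintro ⟨h1, h2, h3⟩
    refine ⟨(z.1 - A.1) / (B.1 - A.1), ⟨div_nonneg (by linarith) hpos.le, ?_⟩, ?_⟩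
    · rw [div_le_one hpos]
      linarith
    · have hne : B.1 - A.1 ≠ 0 := ne_of_gt hpos
      apply Prod.ext
      · simp only [Prod.fst_add, Prod.smul_fst, smul_eq_mul]
        field_simp
        ring
      · simp only [Prod.snd_add, Prod.smul_snd, smul_eq_mul]
        rw [h3]
        unfold lineAt
        ring

theorem lineAt_left {A B : ℝ × ℝ} (h : A.1 < B.1) : lineAt A B A.1 = A.2 := by
  unfold lineAt
  rw [sub_self, zero_div, mul_zero, add_zero]

theorem lineAt_right {A B : ℝ × ℝ} (h : A.1 < B.1) : lineAt A B B.1 = B.2 := by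
  unfold lineAt
  have hpos : B.1 - A.1 ≠ 0 := by linarith
  rw [div_self hpos]
  ring

/-- The function is affine. -/
theorem geo_aff (A B : ℝ × ℝ) : ∃ a m : ℝ, ∀ X, lineAt A B X = a + m * X := by
  refine ⟨A.2 - (B.2 - A.2) * A.1 / (B.1 - A.1), (B.2 - A.2) / (B.1 - A.1), fun X => ?_⟩
  unfold lineAt
  ring

/-- Bounds for the second coordinate of the points of a segment. -/
theorem seg_bounds {A B z : ℝ × ℝ} {lo hi : ℝ} (hz : z ∈ segment ℝ A B) (hA : lo ≤ A.2)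
    (hB : lo ≤ B.2) (hA' : A.2 ≤ hi) (hB' : B.2 ≤ hi) : lo ≤ z.2 ∧ z.2 ≤ hi := by
  rw [segment_eq_image] at hz
  obtain ⟨t, ⟨h0, h1⟩, rfl⟩ := hz
  simp only [Prod.snd_add, Prod.smul_snd, smul_eq_mul]
  constructor <;> nlinarith

theorem seg_meet {A B C D : ℝ × ℝ} (hAB : A.1 < B.1) (hCD : C.1 < D.1) {s t : ℝ} (hst : s ≤ t)
    (h1 : A.1 ≤ s) (h2 : C.1 ≤ s) (h3 : t ≤ B.1) (h4 : t ≤ D.1)
    (hs : lineAt A B s ≤ lineAt C D s) (ht : lineAt C D t ≤ lineAt A B t) :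
    ∃ z, z ∈ segment ℝ A B ∧ z ∈ segment ℝ C D ∧ s ≤ z.1 ∧ z.1 ≤ t := by
  obtain ⟨a, m, e⟩ := geo_aff A B
  obtain ⟨c, n, f⟩ := geo_aff C D
  have hc : ContinuousOn (fun X : ℝ => (a + m * X) - (c + n * X)) (Set.Icc s t) := by fun_prop
  have h0 : (0 : ℝ) ∈ Set.Icc ((fun X : ℝ => (a + m * X) - (c + n * X)) s)
      ((fun X : ℝ => (a + m * X) - (c + n * X)) t) := by
    rw [e, f] at hs ht
    constructor
    · show (a + m * s) - (c + n * s) ≤ 0
      linarith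
    · show 0 ≤ (a + m * t) - (c + n * t)
      linarith
  obtain ⟨X, ⟨hX1, hX2⟩, hX⟩ := intermediate_value_Icc hst hc h0
  have hX' : (a + m * X) - (c + n * X) = 0 := hX
  refine ⟨(X, lineAt A B X), ?_, ?_, hX1, hX2⟩
  · rw [mem_seg_iff hAB]
    exact ⟨by show A.1 ≤ X; linarith, by show X ≤ B.1; linarith, rfl⟩
  · rw [mem_seg_iff hCD]
    refine ⟨by show C.1 ≤ X; linarith, by show X ≤ D.1; linarith, ?_⟩
    show lineAt A B X = lineAt C D X
    rw [e, f]
    linarith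

theorem seg_order {A B C D : ℝ × ℝ} (hAB : A.1 < B.1) (hCD : C.1 < D.1) {s t : ℝ}
    (hs : lineAt A B s ≤ lineAt C D s) (ht : lineAt A B t ≤ lineAt C D t)
    (hne : ¬ (lineAt A B s = lineAt C D s ∧ lineAt A B t = lineAt C D t)) {z : ℝ × ℝ}
    (hz : z ∈ segment ℝ A B) (hz' : z ∈ segment ℝ C D) (h1 : s ≤ z.1) (h2 : z.1 ≤ t) :
    (z.1 = s ∧ lineAt A B s = lineAt C D s) ∨ (z.1 = t ∧ lineAt A B t = lineAt C D t) := by
  have hzA := ((mem_seg_iff hAB z).1 hz).2.2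
  have hzC := ((mem_seg_iff hCD z).1 hz').2.2
  have hzz : lineAt A B z.1 = lineAt C D z.1 := by rw [← hzA, ← hzC]
  by_cases hs' : z.1 = s
  · left
    refine ⟨hs', ?_⟩
    rw [← hs']
    exact hzz
  by_cases ht' : z.1 = t
  · right
    refine ⟨ht', ?_⟩
    rw [← ht']
    exact hzz
  exfalso
  have h1' : s < z.1 := lt_of_le_of_ne h1 (Ne.symm hs')
  have h2' : z.1 < t := lt_of_le_of_ne h2 ht'
  obtain ⟨a, m, e⟩ := geo_aff A B
  obtain ⟨c, n, f⟩ := geo_aff C D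
  rw [e, f] at hzz hs ht
  apply hne
  rw [e, e, f, f]
  have key : ((a + m * s) - (c + n * s)) * (t - z.1) + ((a + m * t) - (c + n * t)) * (z.1 - s) =
      ((a + m * z.1) - (c + n * z.1)) * (t - s) := by ring
  have hz0 : (a + m * z.1) - (c + n * z.1) = 0 := by linarith
  rw [hz0, zero_mul] at key
  have k1 : ((a + m * s) - (c + n * s)) * (t - z.1) ≤ 0 :=
    mul_nonpos_of_nonpos_of_nonneg (by linarith) (by linarith)
  have k2 : ((a + m * t) - (c + n * t)) * (z.1 - s) ≤ 0 :=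
    mul_nonpos_of_nonpos_of_nonneg (by linarith) (by linarith)
  have k3 : ((a + m * s) - (c + n * s)) * (t - z.1) = 0 := by linarith
  have k4 : ((a + m * t) - (c + n * t)) * (z.1 - s) = 0 := by linarith
  constructor
  · rcases mul_eq_zero.1 k3 with h | h
    · linarith
    · exfalso; linarith
  · rcases mul_eq_zero.1 k4 with h | h
    · linarith
    · exfalso; linarith

theorem seg_disj {A B C D : ℝ × ℝ} (hAB : A.1 < B.1) (hCD : C.1 < D.1) {s t : ℝ}
    (hs : lineAt A B s < lineAt C D s) (ht : lineAt A B t < lineAt C D t) {z : ℝ × ℝ}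
    (hz : z ∈ segment ℝ A B) (hz' : z ∈ segment ℝ C D) (h1 : s ≤ z.1) (h2 : z.1 ≤ t) : False := by
  rcases seg_order hAB hCD hs.le ht.le (fun h => absurd h.1 (ne_of_lt hs)) hz hz' h1 h2 with h | h
  · exact absurd h.2 (ne_of_lt hs)
  · exact absurd h.2 (ne_of_lt ht)

/-- An integral point. -/
theorem geo_toR (x y : ℤ) : toR (zpt x y) = (((x : ℝ), (y : ℝ)) : ℝ × ℝ) := by
  unfold toR zpt
  simp only [Rat.cast_intCast]

theorem wallSeg_iff (o : Bool) (x y x' y' : ℤ) (A : Set (ℝ × ℝ)) :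
    (∀ s ∈ wallSeg o x y x' y', Disjoint A s.pts) ↔
      Disjoint A (segment ℝ (((x : ℝ), (y : ℝ)) : ℝ × ℝ) (((x' : ℝ), (y' : ℝ)) : ℝ × ℝ)) := by
  cases o
  · unfold wallSeg
    rw [if_neg (by decide)]
    simp only [List.mem_singleton, forall_eq]
    unfold Seg.pts zseg
    rw [if_neg (Bool.false_ne_true)]
    show Disjoint A (segment ℝ (toR (zpt x y)) (toR (zpt x' y'))) ↔ _
    rw [geo_toR, geo_toR]
  · unfold wallSeg
    rw [if_pos rfl]
    simp only [List.mem_cons, List.not_mem_nil, or_false, forall_eq_or_imp, forall_eq]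
    unfold Seg.pts zseg
    rw [if_pos rfl, if_pos rfl, if_pos rfl]
    show (Disjoint A (openSegment ℝ (toR (zpt x y)) (toR (zpt x' y'))) ∧
      Disjoint A (openSegment ℝ (toR (zpt x y)) (toR (zpt x y))) ∧
      Disjoint A (openSegment ℝ (toR (zpt x' y')) (toR (zpt x' y')))) ↔ _
    rw [geo_toR, geo_toR, openSegment_same, openSegment_same, ← insert_endpoints_openSegment,
      Set.disjoint_insert_right, Set.disjoint_insert_right, Set.disjoint_singleton_right,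
      Set.disjoint_singleton_right]
    tauto

/-- A vertical closed segment. -/
theorem mem_vert {x y y' : ℝ} (h : y ≤ y') (z : ℝ × ℝ) :
    z ∈ segment ℝ ((x, y) : ℝ × ℝ) ((x, y') : ℝ × ℝ) ↔ z.1 = x ∧ y ≤ z.2 ∧ z.2 ≤ y' := by
  rw [← Prod.image_mk_segment_right, segment_eq_Icc h]
  constructor
  · rintro ⟨w, ⟨h1, h2⟩, rfl⟩
    exact ⟨rfl, h1, h2⟩
  · rintro ⟨h1, h2, h3⟩
    refine ⟨z.2, ⟨h2, h3⟩, ?_⟩
    rw [← h1]

/-- The position of a vertex on a line. -/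
theorem geo_pt (h : ℕ × ℕ × ℕ → ℝ) (T k : ℕ) :
    ptOf h (T, k, 0) = (2 * (T : ℝ), 16 * (k : ℝ) + 4 * h (T, k, 0)) := by
  unfold ptOf
  rw [if_neg (show ¬ (0 : ℕ) = 2 by decide)]

/-- The points of an ordinary edge in the middle of its strip. -/
theorem geo_mid (h : ℕ × ℕ × ℕ → ℝ) (T i j : ℕ) (z : ℝ × ℝ) (hz : z.1 = 2 * (T : ℝ) + 1) :
    z ∈ segment ℝ (ptOf h (T, i, 0)) (ptOf h (T + 1, j, 0)) ↔
      z.2 = 8 * ((i : ℝ) + j) + 2 * (h (T, i, 0) + h (T + 1, j, 0)) := by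
  rw [geo_pt, geo_pt, mem_seg_iff (by push_cast; linarith)]
  have e : lineAt ((2 * (T : ℝ), 16 * (i : ℝ) + 4 * h (T, i, 0)) : ℝ × ℝ)
      ((2 * ((T + 1 : ℕ) : ℝ), 16 * (j : ℝ) + 4 * h (T + 1, j, 0)) : ℝ × ℝ) z.1 =
      8 * ((i : ℝ) + j) + 2 * (h (T, i, 0) + h (T + 1, j, 0)) := by
    unfold lineAt
    rw [hz]
    push_cast
    have e1 : (2 * (T : ℝ) + 1 - 2 * (T : ℝ)) / (2 * ((T : ℝ) + 1) - 2 * (T : ℝ)) = 1 / 2 := by
      have e2 : 2 * ((T : ℝ) + 1) - 2 * (T : ℝ) = 2 := by ring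
      have e3 : 2 * (T : ℝ) + 1 - 2 * (T : ℝ) = 1 := by ring
      rw [e2, e3]
    rw [e1]
    ring
  rw [e]
  constructor
  · rintro ⟨_, _, h3⟩
    exact h3
  · intro h3
    refine ⟨?_, ?_, h3⟩
    · show 2 * (T : ℝ) ≤ z.1
      rw [hz]
      linarith
    · show z.1 ≤ 2 * ((T + 1 : ℕ) : ℝ)
      rw [hz]
      push_cast
      linarith

/-- A vertical wall in the middle of a strip. -/
theorem geo_wall (o : Bool) (h : ℕ × ℕ × ℕ → ℝ) (T i j : ℕ) (lo hi : ℤ) (hlh : lo ≤ hi) :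
    (∀ s ∈ wallSeg o (2 * (T : ℤ) + 1) lo (2 * (T : ℤ) + 1) hi, Disjoint
      (segment ℝ (ptOf h (T, i, 0)) (ptOf h (T + 1, j, 0))) s.pts) ↔
      ¬ ((lo : ℝ) ≤ 8 * ((i : ℝ) + j) + 2 * (h (T, i, 0) + h (T + 1, j, 0)) ∧
        8 * ((i : ℝ) + j) + 2 * (h (T, i, 0) + h (T + 1, j, 0)) ≤ (hi : ℝ)) := by
  rw [wallSeg_iff]
  have hlh' : (lo : ℝ) ≤ hi := by exact_mod_cast hlh
  rw [Set.disjoint_left]
  constructor
  · intro H hc
    apply H ((geo_mid h T i j (2 * (T : ℝ) + 1,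
      8 * ((i : ℝ) + j) + 2 * (h (T, i, 0) + h (T + 1, j, 0))) rfl).2 rfl)
    rw [mem_vert hlh']
    refine ⟨?_, hc.1, hc.2⟩
    push_cast
    rfl
  · intro H z hz hz'
    rw [mem_vert hlh'] at hz'
    obtain ⟨h1, h2, h3⟩ := hz'
    have h1' : z.1 = 2 * (T : ℝ) + 1 := by
      rw [h1]
      push_cast
      rfl
    rw [geo_mid h T i j z h1'] at hz
    apply H
    rw [← hz]
    exact ⟨h2, h3⟩

theorem pass_sound (o : Bool) (q : ℕ × ℕ × ℕ × Bool) {h : ℕ × ℕ × ℕ → ℝ}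
    (h01 : ∀ v, 0 ≤ h v ∧ h v ≤ 1)
    (hd : ∀ s ∈ pWall o q, Disjoint
      (segment ℝ (ptOf h (q.1, q.2.1, 0)) (ptOf h (q.1 + 1, q.2.2.1, 0))) s.pts) : passOK h q := by
  obtain ⟨T, i, j, s⟩ := q
  have a1 := h01 (T, i, 0)
  have a2 := h01 (T + 1, j, 0)
  unfold passOK
  unfold pWall at hd
  dsimp only at hd ⊢
  by_cases hl : low T s = true
  · rw [if_pos hl] at hd ⊢
    rw [geo_wall o h T i j _ _ (by linarith)] at hd
    push_cast at hd
    by_contra hc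
    push Not at hc
    apply hd
    constructor <;> linarith [a1.1, a2.1]
  · rw [if_neg hl] at hd ⊢
    rw [geo_wall o h T i j _ _ (by linarith)] at hd
    push_cast at hd
    by_contra hc
    push Not at hc
    apply hd
    constructor <;> linarith [a1.2, a2.2]

theorem pass_complete (o : Bool) (q : ℕ × ℕ × ℕ × Bool) {h : ℕ × ℕ × ℕ → ℝ}
    (h01 : ∀ v, 0 ≤ h v ∧ h v ≤ 1) (hp : passOK h q) : ∀ s ∈ pWall o q, Disjoint
      (segment ℝ (ptOf h (q.1, q.2.1, 0)) (ptOf h (q.1 + 1, q.2.2.1, 0))) s.pts := by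
  obtain ⟨T, i, j, s⟩ := q
  unfold passOK at hp
  unfold pWall
  dsimp only at hp ⊢
  by_cases hl : low T s = true
  · rw [if_pos hl] at hp ⊢
    rw [geo_wall o h T i j _ _ (by linarith)]
    push_cast
    rintro ⟨_, h2⟩
    linarith
  · rw [if_neg hl] at hp ⊢
    rw [geo_wall o h T i j _ _ (by linarith)]
    push_cast
    rintro ⟨h1, _⟩
    linarith

end Pool.Agent.H77.SG
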