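import Pool.Agent.H77.SG.BP

/-!
# The graph of the layout: ends of the edges

PROOF. The right ends of the ordinary edges of the block `b` on the line `4 (b + 1)` are the slots
`k < (nextS I S).length`; for the other edges the ends are present in the block itself. Prove the
local statements `bE_ends`, `bV_cover` for one block by unfolding `pres`, `has`, `tgt` (split on the
kind and on `l`, then `omega`), and then use `blocks_next`, `blocks_prev`.
-/

set_option autoImplicit false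

namespace Pool.Agent.H77.SG

theorem length_nextS {I : ℕ × ℕ × ℕ × List Bool} {S : List Bool} (h : WFI I S) :
    (nextS I S).length = if I.1 ≤ 1 then S.length + I.2.2.2.length
      else if I.1 = 2 then S.length - 1 else S.length - 3 := by
  obtain ⟨h1, h2, h3, h4⟩ := WFI_pos h
  have h5 := WFI_kind h
  unfold nextS
  split_ifs with h6 h7
  · simp only [List.length_append, List.length_take, List.length_drop]
    omega
  · have := h2 h7
    simp only [List.length_append, List.length_take, List.length_drop]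
    omega
  · have := h3 (by omega)
    simp only [List.length_append, List.length_take, List.length_drop]
    omega

/-- Left ends are present. -/
private theorem gooda_left {t p W l k : ℕ} (ht : t ≤ 6) (hl : l < 4) (hp3 : 3 ≤ t → p + 3 ≤ W)
    (h : has t p W l k = true) : pres t p W l k 0 = true := by
  interval_cases t <;> interval_cases l <;> simp [has] at h <;> simp [pres] <;> omega

/-- Right ends are present. -/
private theorem gooda_right {t p W n l k : ℕ} (ht : t ≤ 6) (hl : l < 3) (hp : p ≤ W)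
    (hp3 : 3 ≤ t → p + 3 ≤ W) (h : has t p W l k = true) :
    pres t p W (l + 1) (tgt t p n l k) 0 = true := by
  interval_cases t <;> interval_cases l <;> simp [has] at h <;> simp [pres, tgt] <;>
    (try split_ifs) <;> omega

/-- Right ends on the first line of the next block. -/
private theorem gooda_right3 {t p W n k : ℕ} (ht : t ≤ 6) (hp : p ≤ W) (hp2 : t = 2 → p < W)
    (hp3 : 3 ≤ t → p + 3 ≤ W) (hn : t ≤ 1 → 1 ≤ n) (hk : ¬ (t ≤ 1 ∧ k = p))
    (h : has t p W 3 k = true) :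
    tgt t p n 3 k < if t ≤ 1 then W + n else if t = 2 then W - 1 else W - 3 := by
  interval_cases t <;> simp [has] at h <;> simp [tgt] <;> (try split_ifs) <;> omega

/-- Sources in the inner strips. -/
private theorem gooda_src {t p W l k : ℕ} (n : ℕ) (ht : t ≤ 6) (hl : l < 3) (hp : p ≤ W)
    (hp3 : 3 ≤ t → p + 3 ≤ W) (h : pres t p W (l + 1) k 0 = true)
    (hs : ¬ (t ≤ 1 ∧ l = 2 ∧ k = p)) :
    ∃ k', k' ≤ W ∧ has t p W l k' = true ∧ tgt t p n l k' = k := by
  by_cases h0 : t ≤ 1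
  · refine ⟨if l = 2 ∧ p < k then k - 1 else k, ?_⟩
    interval_cases t <;> interval_cases l <;> simp [pres] at h <;> simp [has, tgt] <;>
      (try split_ifs) <;> omega
  · by_cases h1 : t = 3
    · subst h1
      refine ⟨if l = 0 ∧ k = p + 1 then p else if l = 1 ∧ k = p + 1 then p + 2 else k, ?_⟩
      interval_cases l <;> simp [pres] at h <;> simp [has, tgt] <;>
        (try split_ifs) <;> omega
    · by_cases h2 : t = 5
      · subst h2
        refine ⟨if l = 0 ∧ k = p + 1 then p + 2 else if l = 1 ∧ k = p + 1 then p else k, ?_⟩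
        interval_cases l <;> simp [pres] at h <;> simp [has, tgt] <;>
          (try split_ifs) <;> omega
      · by_cases h3 : t = 4
        · subst h3
          refine ⟨if l = 1 ∧ k = p + 1 then p else if l = 2 ∧ k = p + 1 then p + 2 else k, ?_⟩
          interval_cases l <;> simp [pres] at h <;> simp [has, tgt] <;>
            (try split_ifs) <;> omega
        · by_cases h4 : t = 6
          · subst h4
            refine ⟨if l = 2 ∧ k = p + 1 then p + 2 else k, ?_⟩
            interval_cases l <;> simp [pres] at h <;> simp [has, tgt] <;>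
              (try split_ifs) <;> omega
          · obtain rfl : t = 2 := by omega
            refine ⟨k, ?_⟩
            interval_cases l <;> simp [pres] at h <;> simp [has, tgt] <;>
              (try split_ifs) <;> omega

/-- Sources in the last strip. -/
private theorem gooda_src3 {t p W n k : ℕ} (ht : t ≤ 6) (hp : p ≤ W) (hp2 : t = 2 → p < W)
    (hp3 : 3 ≤ t → p + 3 ≤ W) (hn : t ≤ 1 → 1 ≤ n)
    (h : k < if t ≤ 1 then W + n else if t = 2 then W - 1 else W - 3) :
    (t ≤ 1 ∧ p ≤ k ∧ k < p + n) ∨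
      ∃ k', k' ≤ W ∧ ¬ (t ≤ 1 ∧ k' = p) ∧ has t p W 3 k' = true ∧ tgt t p n 3 k' = k := by
  by_cases h0 : t ≤ 1 ∧ p ≤ k ∧ k < p + n
  · exact Or.inl h0
  · right
    refine ⟨if k < p then k else if t ≤ 1 then k + 1 - n else if t = 2 then k + 1 else k + 3, ?_⟩
    interval_cases t <;> simp at h <;> simp [has, tgt] <;> (try split_ifs) <;> omega

private theorem gooda_pres_le {t p W l k e : ℕ} (ht : t ≤ 6) (hl : l < 4) (he : e < 3)
    (hp3 : 3 ≤ t → p + 3 ≤ W) (h : pres t p W l k e = true) : k ≤ W := by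
  interval_cases t <;> interval_cases e <;> interval_cases l <;> simp [pres] at h <;> omega

private theorem gooda_mem_bE {b : ℕ} {S : List Bool} {I : ℕ × ℕ × ℕ × List Bool}
    {e : (ℕ × ℕ × ℕ) × (ℕ × ℕ × ℕ)} :
    e ∈ bE b S I ↔ (∃ q ∈ bP b S I, ((q.1, q.2.1, 0), (q.1 + 1, q.2.2.1, 0)) = e) ∨
      e ∈ bX b I := by
  unfold bE
  rw [List.mem_append, List.mem_map]

private theorem gooda_mem_bV {b : ℕ} {S : List Bool} {I : ℕ × ℕ × ℕ × List Bool} (hI : WFI I S)
    {l k e : ℕ} (hl : l < 4) (he : e < 3) (h : pres I.1 I.2.1 S.length l k e = true) :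
    ((4 * b + l, k, e) : ℕ × ℕ × ℕ) ∈ bV b S I :=
  mem_bV.2 ⟨l, k, e, hl, gooda_pres_le (WFI_kind hI) hl he (WFI_pos hI).2.2.1 h, he, h, rfl⟩

/-- Left ends are in the block, right ends are in the block or on the first line of the next one. -/
theorem bE_ends {b : ℕ} {S : List Bool} {I : ℕ × ℕ × ℕ × List Bool} (hI : WFI I S)
    {e : (ℕ × ℕ × ℕ) × (ℕ × ℕ × ℕ)} (he : e ∈ bE b S I) :
    e.1 ∈ bV b S I ∧ (e.2 ∈ bV b S I ∨ ∃ k < (nextS I S).length, e.2 = (4 * (b + 1), k, 0)) := by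
  have h5 := WFI_kind hI
  obtain ⟨h1, h2, h3, h4⟩ := WFI_pos hI
  rw [length_nextS hI]
  rcases gooda_mem_bE.1 he with ⟨q, hq, rfl⟩ | hX
  · rcases mem_bP.1 hq with ⟨ht, hp, j, hj, rfl⟩ | ⟨l, k, hl, hk, hn, hh, rfl⟩
    · refine ⟨gooda_mem_bV hI (by norm_num) (by norm_num) ?_, Or.inr ⟨I.2.1 + j, ?_, ?_⟩⟩
      · simp only [pres]
        simp [ht]
        omega
      · rw [if_pos ht]
        omega
      · show ((4 * b + 3 + 1, I.2.1 + j, 0) : ℕ × ℕ × ℕ) = _
        rw [show 4 * b + 3 + 1 = 4 * (b + 1) by ring]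
    · refine ⟨gooda_mem_bV hI hl (by norm_num) (gooda_left h5 hl h3 hh), ?_⟩
      by_cases hl3 : l < 3
      · left
        exact gooda_mem_bV hI (by omega) (by norm_num) (gooda_right h5 hl3 h1 h3 hh)
      · right
        obtain rfl : l = 3 := by omega
        refine ⟨_, gooda_right3 h5 h1 h2 h3 h4 (fun h => hn ⟨h.1, rfl, h.2⟩) hh, ?_⟩
        show ((4 * b + 3 + 1, _, 0) : ℕ × ℕ × ℕ) = _
        rw [show 4 * b + 3 + 1 = 4 * (b + 1) by ring]
  · unfold bX at hX
    split_ifs at hX with c1 c2 c3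
    · rw [List.mem_singleton] at hX
      subst hX
      have hp3 := h3 (by omega)
      refine ⟨gooda_mem_bV (l := 0) hI (by norm_num) (by norm_num) ?_,
        Or.inl (gooda_mem_bV (l := 2) hI (by norm_num) (by norm_num) ?_)⟩
      · simp [pres]
        omega
      · rcases c1 with c1 | c1 <;> simp [pres, c1]
    · rw [List.mem_singleton] at hX
      subst hX
      have hp3 := h3 (by omega)
      refine ⟨gooda_mem_bV (l := 1) hI (by norm_num) (by norm_num) ?_,
        Or.inl (gooda_mem_bV (l := 3) hI (by norm_num) (by norm_num) ?_)⟩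
      · simp [pres, c2]
        omega
      · simp [pres, c2]
    · have hp3 := h3 (by omega)
      rw [List.mem_cons, List.mem_singleton] at hX
      rcases hX with hX | hX
      · subst hX
        refine ⟨gooda_mem_bV (l := 1) hI (by norm_num) (by norm_num) ?_,
          Or.inl (gooda_mem_bV (l := 2) hI (by norm_num) (by norm_num) ?_)⟩
        · simp [pres, c3]
          omega
        · simp [pres, c3]
      · subst hX
        refine ⟨gooda_mem_bV (l := 2) hI (by norm_num) (by norm_num) ?_,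
          Or.inl (gooda_mem_bV (l := 3) hI (by norm_num) (by norm_num) ?_)⟩
        · simp [pres, c3]
          omega
        · simp [pres, c3]
    · exact absurd hX (List.not_mem_nil)

/-- The vertices of the first line. -/
theorem bV_first {b : ℕ} {S : List Bool} {I : ℕ × ℕ × ℕ × List Bool} {k : ℕ}
    (hk : k < S.length) : ((4 * b, k, 0) : ℕ × ℕ × ℕ) ∈ bV b S I := by
  refine mem_bV.2 ⟨0, k, 0, by norm_num, hk.le, by norm_num, ?_, rfl⟩
  simp [pres, hk]

/-- Every vertex which is not on the first line is the right end of an edge of the block, or (only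
the source) a left end. -/
theorem bV_cover {b : ℕ} {S : List Bool} {I : ℕ × ℕ × ℕ × List Bool} (hI : WFI I S)
    {v : ℕ × ℕ × ℕ} (hv : v ∈ bV b S I) : (∃ k < S.length, v = (4 * b, k, 0)) ∨
      ∃ e ∈ bE b S I, e.1 = v ∨ e.2 = v := by
  have h5 := WFI_kind hI
  obtain ⟨h1, h2, h3, h4⟩ := WFI_pos hI
  obtain ⟨l, k, e, hl, hk, he, hp, rfl⟩ := mem_bV.1 hv
  interval_cases e
  · -- ordinary vertices
    rcases l with _ | l
    · left
      refine ⟨k, ?_, rfl⟩
      simpa [pres] using hp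
    · right
      by_cases hs : I.1 ≤ 1 ∧ l = 2 ∧ k = I.2.1
      · obtain ⟨ht, rfl, rfl⟩ := hs
        refine ⟨((4 * b + 3, I.2.1, 0), (4 * b + 3 + 1, I.2.1 + 0, 0)), gooda_mem_bE.2 (Or.inl
          ⟨_, mem_bP.2 (Or.inl ⟨ht, h1, 0, h4 ht, rfl⟩), rfl⟩), Or.inl rfl⟩
      · obtain ⟨k', hk', hh, ht⟩ := gooda_src I.2.2.2.length h5 (by omega) h1 h3 hp hs
        refine ⟨((4 * b + l, k', 0), (4 * b + l + 1, tgt I.1 I.2.1 I.2.2.2.length l k', 0)),
          gooda_mem_bE.2 (Or.inl ⟨_, mem_bP.2 (Or.inr ⟨l, k', by omega, hk', ?_, hh, rfl⟩), rfl⟩),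
          Or.inr ?_⟩
        · rintro ⟨_, h7, _⟩
          omega
        · rw [ht]
          rfl
  · right
    by_cases c1 : I.1 = 3 ∨ I.1 = 5
    · have hp' : l = 2 ∧ k = I.2.1 + 1 := by
        rcases c1 with c1 | c1 <;> simpa [pres, c1] using hp
      obtain ⟨rfl, rfl⟩ := hp'
      refine ⟨((4 * b, I.2.1 + 1, 0), (4 * b + 2, I.2.1 + 1, 1)), gooda_mem_bE.2 (Or.inr ?_),
        Or.inr rfl⟩
      unfold bX
      rw [if_pos c1]
      exact List.mem_singleton.2 rfl
    · by_cases c2 : I.1 = 4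
      · have hp' : l = 3 ∧ k = I.2.1 + 1 := by simpa [pres, c2] using hp
        obtain ⟨rfl, rfl⟩ := hp'
        refine ⟨((4 * b + 1, I.2.1 + 1, 0), (4 * b + 3, I.2.1 + 1, 1)),
          gooda_mem_bE.2 (Or.inr ?_), Or.inr rfl⟩
        unfold bX
        rw [if_neg c1, if_pos c2]
        exact List.mem_singleton.2 rfl
      · by_cases c3 : I.1 = 6
        · have hp' : l = 3 ∧ k = I.2.1 + 1 := by simpa [pres, c3] using hp
          obtain ⟨rfl, rfl⟩ := hp'
          refine ⟨((4 * b + 2, I.2.1 + 1, 0), (4 * b + 3, I.2.1 + 1, 1)),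
            gooda_mem_bE.2 (Or.inr ?_), Or.inr rfl⟩
          unfold bX
          rw [if_neg c1, if_neg c2, if_pos c3]
          exact List.mem_cons_of_mem _ (List.mem_singleton.2 rfl)
        · exfalso
          have c4 : ¬ (I.1 = 4 ∨ I.1 = 6) := by tauto
          simp [pres, c1, c4] at hp
  · right
    have hp' : I.1 = 6 ∧ l = 2 ∧ k = I.2.1 + 1 := by
      simpa [pres, and_assoc] using hp
    obtain ⟨c3, rfl, rfl⟩ := hp'
    refine ⟨((4 * b + 1, I.2.1, 0), (4 * b + 2, I.2.1 + 1, 2)),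
      gooda_mem_bE.2 (Or.inr ?_), Or.inr rfl⟩
    unfold bX
    rw [if_neg (by omega), if_neg (by omega), if_pos c3]
    exact List.mem_cons_self

/-- Every slot of the first line of the next block is a right end. -/
theorem next_cover {b : ℕ} {S : List Bool} {I : ℕ × ℕ × ℕ × List Bool} (hI : WFI I S) {k : ℕ}
    (hk : k < (nextS I S).length) : ∃ e ∈ bE b S I, e.2 = (4 * (b + 1), k, 0) := by
  have h5 := WFI_kind hI
  obtain ⟨h1, h2, h3, h4⟩ := WFI_pos hI
  rw [length_nextS hI] at hk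
  rcases gooda_src3 h5 h1 h2 h3 h4 hk with ⟨ht, h6, h7⟩ | ⟨k', hk', hn, hh, ht⟩
  · refine ⟨((4 * b + 3, I.2.1, 0), (4 * b + 3 + 1, I.2.1 + (k - I.2.1), 0)), gooda_mem_bE.2
      (Or.inl ⟨_, mem_bP.2 (Or.inl ⟨ht, h1, k - I.2.1, by omega, rfl⟩), rfl⟩), ?_⟩
    rw [show 4 * b + 3 + 1 = 4 * (b + 1) by ring, show I.2.1 + (k - I.2.1) = k by omega]
  · refine ⟨((4 * b + 3, k', 0), (4 * b + 3 + 1, tgt I.1 I.2.1 I.2.2.2.length 3 k', 0)),
      gooda_mem_bE.2 (Or.inl ⟨_, mem_bP.2 (Or.inr ⟨3, k', by norm_num, hk',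
        fun h => hn ⟨h.1, h.2.2⟩, hh, rfl⟩), rfl⟩), ?_⟩
    rw [ht, show 4 * b + 3 + 1 = 4 * (b + 1) by ring]

private theorem gooda_mem_lV {o : Bool} {π : List (ℕ × ℕ × ℕ × List Bool)}
    {B : ℕ × List Bool × (ℕ × ℕ × ℕ × List Bool)} (hB : B ∈ blocks 0 [] π) {v : ℕ × ℕ × ℕ}
    (hv : v ∈ bV B.1 B.2.1 B.2.2) : ∃ x ∈ lV o π, x.1 = v := by
  refine ⟨(v, vSeg o B.1 B.2.2 v), ?_, rfl⟩
  unfold lV
  rw [List.mem_flatMap]
  exact ⟨B, hB, List.mem_map.2 ⟨v, hv, rfl⟩⟩

theorem lE_ends (o : Bool) {π : List (ℕ × ℕ × ℕ × List Bool)} (hW : WF π []) :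
    ∀ e ∈ lE π, (∃ x ∈ lV o π, x.1 = e.1) ∧ ∃ x ∈ lV o π, x.1 = e.2 := by
  intro e he
  unfold lE at he
  rw [List.mem_flatMap] at he
  obtain ⟨B, hB, heB⟩ := he
  obtain ⟨h1, h2⟩ := bE_ends (blocks_wf hW B hB) heB
  refine ⟨gooda_mem_lV hB h1, ?_⟩
  rcases h2 with h2 | ⟨k, hk, h2⟩
  · exact gooda_mem_lV hB h2
  · rcases blocks_next hW B hB with ⟨B', hB', h3, h4⟩ | h3
    · refine gooda_mem_lV hB' ?_
      rw [h2, ← h3]
      exact bV_first (by rw [h4]; exact hk)
    · rw [h3] at hk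
      exact absurd hk (Nat.not_lt_zero k)

theorem lV_cover (o : Bool) {π : List (ℕ × ℕ × ℕ × List Bool)} (hW : WF π []) :
    ∀ x ∈ lV o π, ∃ e ∈ lE π, e.1 = x.1 ∨ e.2 = x.1 := by
  intro x hx
  unfold lV at hx
  rw [List.mem_flatMap] at hx
  obtain ⟨B, hB, hx⟩ := hx
  obtain ⟨v, hv, rfl⟩ := List.mem_map.1 hx
  show ∃ e ∈ lE π, e.1 = v ∨ e.2 = v
  rcases bV_cover (blocks_wf hW B hB) hv with ⟨k, hk, rfl⟩ | ⟨e, he, h⟩
  · rcases blocks_prev B hB with ⟨B', hB', h3, h4⟩ | h3
    · rw [h4] at hk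
      obtain ⟨e, he, h5⟩ := next_cover (b := B'.1) (blocks_wf hW B' hB') hk
      refine ⟨e, List.mem_flatMap.2 ⟨B', hB', he⟩, Or.inr ?_⟩
      rw [h5, h3]
    · rw [h3.2] at hk
      exact absurd hk (Nat.not_lt_zero k)
  · exact ⟨e, List.mem_flatMap.2 ⟨B, hB, he⟩, h⟩

end Pool.Agent.H77.SG
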