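import Pool.Agent.H77.SG.Layout

/-!
# Heights

The height `h (T, k, e)` in the unit interval gives the position of the vertex `(T, k, e)` on its
segment. The value of a wire at a vertex in the slot `k` of the line `T` is `h` if `T` is even and
`1 - h` if `T` is odd.
-/

set_option autoImplicit false

namespace Pool.Agent.H77.SG

/-- The condition given by the obstacle of an ordinary edge. -/
def passOK (h : ℕ × ℕ × ℕ → ℝ) (q : ℕ × ℕ × ℕ × Bool) : Prop :=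
  if low q.1 q.2.2.2 = true then 1 < h (q.1, q.2.1, 0) + h (q.1 + 1, q.2.2.1, 0)
  else h (q.1, q.2.1, 0) + h (q.1 + 1, q.2.2.1, 0) < 1

/-- The other conditions of the block number `b`. -/
def extraOK (h : ℕ × ℕ × ℕ → ℝ) (b : ℕ) (I : ℕ × ℕ × ℕ × List Bool) : Prop :=
  if I.1 = 1 then h (4 * b + 3, I.2.1, 0) = 1 - (I.2.2.1 : ℝ) / 4
  else if I.1 = 3 then
    2 * h (4 * b + 1, I.2.1 + 1, 0) < h (4 * b, I.2.1 + 1, 0) + h (4 * b + 2, I.2.1 + 1, 1) ∧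
      h (4 * b + 2, I.2.1 + 1, 1) < h (4 * b + 2, I.2.1 + 1, 0)
  else if I.1 = 4 then
    2 * h (4 * b + 2, I.2.1 + 1, 0) < h (4 * b + 1, I.2.1 + 1, 0) + h (4 * b + 3, I.2.1 + 1, 1) ∧
      h (4 * b + 3, I.2.1 + 1, 1) < h (4 * b + 3, I.2.1 + 1, 0)
  else if I.1 = 5 then
    h (4 * b, I.2.1 + 1, 0) + h (4 * b + 2, I.2.1 + 1, 1) < 2 * h (4 * b + 1, I.2.1 + 1, 0) ∧
      h (4 * b + 2, I.2.1 + 1, 0) < h (4 * b + 2, I.2.1 + 1, 1)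
  else if I.1 = 6 then
    1 < h (4 * b + 2, I.2.1 + 1, 2) * (2 - h (4 * b + 1, I.2.1, 0)) ∧
      h (4 * b + 2, I.2.1 + 1, 2) < h (4 * b + 2, I.2.1 + 1, 0) +
        (h (4 * b + 3, I.2.1 + 1, 1) - h (4 * b + 2, I.2.1 + 1, 0)) *
          h (4 * b + 2, I.2.1 + 1, 2) ∧
      h (4 * b + 3, I.2.1 + 1, 1) < h (4 * b + 3, I.2.1 + 1, 0)
  else True

/-- The conditions of a block. -/
def blkOK (h : ℕ × ℕ × ℕ → ℝ) (B : ℕ × List Bool × (ℕ × ℕ × ℕ × List Bool)) : Prop :=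
  (∀ q ∈ bP B.1 B.2.1 B.2.2, passOK h q) ∧ extraOK h B.1 B.2.2

/-- The position of a vertex. -/
def ptOf (h : ℕ × ℕ × ℕ → ℝ) (v : ℕ × ℕ × ℕ) : ℝ × ℝ :=
  if v.2.2 = 2 then (2 * (v.1 : ℝ) + 2 * h v, 16 * (v.2.1 : ℝ) + 4 * h v)
  else (2 * (v.1 : ℝ), 16 * (v.2.1 : ℝ) + 4 * h v)

/-- A drawing of vertices with segments, edges and obstacles. -/
structure Drawn (V : List ((ℕ × ℕ × ℕ) × Seg)) (E : List ((ℕ × ℕ × ℕ) × (ℕ × ℕ × ℕ)))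
    (O : List Seg) (P : ℕ × ℕ × ℕ → ℝ × ℝ) : Prop where
  onSeg : ∀ x ∈ V, P x.1 ∈ x.2.pts
  inj : ∀ x ∈ V, ∀ y ∈ V, P x.1 = P y.1 → x.1 = y.1
  edge : ∀ e ∈ E, ∀ f ∈ E, e ≠ f → ∀ z ∈ segment ℝ (P e.1) (P e.2),
    z ∈ segment ℝ (P f.1) (P f.2) → ∃ w, (w = e.1 ∨ w = e.2) ∧ (w = f.1 ∨ w = f.2) ∧ z = P w
  obst : ∀ e ∈ E, ∀ s ∈ O, Disjoint (segment ℝ (P e.1) (P e.2)) s.pts

/-- Combinatorial properties of vertices and edges. -/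
structure Good (V : List ((ℕ × ℕ × ℕ) × Seg)) (E : List ((ℕ × ℕ × ℕ) × (ℕ × ℕ × ℕ))) : Prop where
  names : (V.map fun x => x.1).Nodup
  edges : E.Nodup
  ends : ∀ e ∈ E, (∃ x ∈ V, x.1 = e.1) ∧ ∃ x ∈ V, x.1 = e.2
  cover : ∀ x ∈ V, ∃ e ∈ E, e.1 = x.1 ∨ e.2 = x.1
  right : ∀ e ∈ E, e.1.1 < e.2.1 ∧ e.1.2.2 = 0
  indeg : ∀ e ∈ E, ∀ f ∈ E, e.2 = f.2 → e = f
  fan : E.Pairwise fun e f => e.1 = f.1 → e.2.1 = f.2.1 ∧ e.2.2.1 < f.2.2.1 ∧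
    e.2.2.2 = 0 ∧ f.2.2.2 = 0

/-- The segments of the vertices are those of the layout. -/
def SegsOK (V : List ((ℕ × ℕ × ℕ) × Seg)) : Prop :=
  ∀ x ∈ V, ∀ z ∈ x.2.pts, ∃ u : ℝ, 0 ≤ u ∧ u ≤ 1 ∧
    (x.1.2.2 = 2 → 1 / 2 ≤ u ∧ z = (2 * (x.1.1 : ℝ) + 2 * u, 16 * (x.1.2.1 : ℝ) + 4 * u)) ∧
    (x.1.2.2 ≠ 2 → z = (2 * (x.1.1 : ℝ), 16 * (x.1.2.1 : ℝ) + 4 * u))

end Pool.Agent.H77.SG
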