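import Pool.Agent.H77.SG.PreA

/-!
# Drawings of the instance given by vertices, edges and obstacles

PROOF. From a drawing `Q` of `mkInst V E O` one gets `P v = Q (nm v)`; two different edges `e`, `f`
of `E` are never reversed copies of each other by `right`. Conversely, from `P` one gets
`Q n = P (u)` for `n = nm u` (`nm` is injective, and in fact bijective). The condition `vertexEdge`
follows from `cover`, `edge` and `inj`: a vertex `w` on the edge `e` which is not an end of `e` is an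
end of another edge `f`, so it is a common point of `e` and `f`. The condition `order` (`Ccw`):
at the vertex `v` the right neighbours come first, from bottom to top, then the left neighbour, if
any (at most one by `indeg`). By `SegsOK` and `right` all right neighbours are strictly to the right
of `P v` (`v.2.2 = 0`, so `P v` is on the line `X = 2 v.1`, the right neighbour has `X ≥ 2 v.1 + 2`)
and the left neighbour is strictly to the left. By `fan`, if there are several right neighbours they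
are on one line `X = 2 T'` in different slots from bottom to top, so the slopes increase strictly.
The angles are `arctan` of the slopes for the right neighbours and `π + arctan` of the slope for the
left neighbour; they lie in `(-π/2, π/2)` and in `(π/2, 3π/2)`. Write a vector `(a, b)` with
`a > 0` as `(ρ cos θ, ρ sin θ)` with `θ = arctan (b / a)`, `ρ = a √(1 + (b/a)²)`
(`Real.cos_arctan`, `Real.sin_arctan`).
-/

set_option autoImplicit false

namespace Pool.Agent.H77.SG

/-- The angle of a vector which is not vertical. -/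
noncomputable def preb_ang (x : ℝ × ℝ) : ℝ :=
  if 0 < x.1 then Real.arctan (x.2 / x.1) else Real.pi + Real.arctan (x.2 / x.1)

/-- The length of a vector which is not vertical. -/
noncomputable def preb_rad (x : ℝ × ℝ) : ℝ := |x.1| * √(1 + (x.2 / x.1) ^ 2)

theorem preb_rad_pos {x : ℝ × ℝ} (hx : x.1 ≠ 0) : 0 < preb_rad x := by
  unfold preb_rad
  have h1 : 0 < |x.1| := abs_pos.2 hx
  have h2 : 0 < √(1 + (x.2 / x.1) ^ 2) := Real.sqrt_pos.2 (by positivity)
  exact mul_pos h1 h2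

theorem preb_polar {x : ℝ × ℝ} (hx : x.1 ≠ 0) :
    x = (preb_rad x * Real.cos (preb_ang x), preb_rad x * Real.sin (preb_ang x)) := by
  have h2 : √(1 + (x.2 / x.1) ^ 2) ≠ 0 := (Real.sqrt_pos.2 (by positivity)).ne'
  unfold preb_rad preb_ang
  by_cases h : 0 < x.1
  · rw [if_pos h, Real.cos_arctan, Real.sin_arctan, abs_of_pos h]
    refine Prod.ext ?_ ?_
    · simp only []
      field_simp
    · simp only []
      field_simp
  · have h' : x.1 < 0 := lt_of_le_of_ne (not_lt.1 h) hx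
    rw [if_neg h, add_comm Real.pi, Real.cos_add_pi, Real.sin_add_pi, Real.cos_arctan,
      Real.sin_arctan, abs_of_neg h']
    refine Prod.ext ?_ ?_
    · simp only []
      field_simp
    · simp only []
      field_simp

theorem preb_ang_gt (x : ℝ × ℝ) : -(Real.pi / 2) < preb_ang x := by
  unfold preb_ang
  have h1 := Real.neg_pi_div_two_lt_arctan (x.2 / x.1)
  have h2 := Real.pi_pos
  split_ifs
  · linarith
  · linarith

theorem preb_ang_lt (x : ℝ × ℝ) : preb_ang x < 3 * (Real.pi / 2) := by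
  unfold preb_ang
  have h1 := Real.arctan_lt_pi_div_two (x.2 / x.1)
  have h2 := Real.pi_pos
  split_ifs
  · linarith
  · linarith

theorem preb_ang_right {x : ℝ × ℝ} (h : 0 < x.1) : preb_ang x < Real.pi / 2 := by
  unfold preb_ang
  rw [if_pos h]
  exact Real.arctan_lt_pi_div_two (x.2 / x.1)

theorem preb_ang_left {x : ℝ × ℝ} (h : x.1 < 0) : Real.pi / 2 < preb_ang x := by
  unfold preb_ang
  rw [if_neg (not_lt.2 h.le)]
  have h1 := Real.neg_pi_div_two_lt_arctan (x.2 / x.1)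
  linarith

/-- Vectors to the right with increasing slopes, followed by at most one vector to the left. -/
theorem ccw_of_slopes (l r : List (ℝ × ℝ)) (hl : ∀ x ∈ l, 0 < x.1)
    (hs : l.Pairwise fun x y => x.2 / x.1 < y.2 / y.1) (hr : ∀ x ∈ r, x.1 < 0)
    (hr1 : r.length ≤ 1) : Ccw (l ++ r) := by
  have hne : ∀ i (hi : i < (l ++ r).length), ((l ++ r)[i]).1 ≠ 0 := by
    intro i hi
    have hm : (l ++ r)[i] ∈ l ++ r := List.getElem_mem hi
    rcases List.mem_append.1 hm with h | h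
    · exact (hl _ h).ne'
    · exact (hr _ h).ne
  refine ⟨fun i => preb_ang ((l ++ r).getD i (1, 0)), fun i => preb_rad ((l ++ r).getD i (1, 0)),
    fun i hi => ?_, fun i j hij hj => ?_⟩
  · have e : (l ++ r).getD i (1, 0) = (l ++ r)[i] := List.getD_eq_getElem _ _ hi
    refine ⟨?_, ?_, ?_⟩
    · simp only [e]
      exact preb_rad_pos (hne i hi)
    · simp only [e]
      exact preb_polar (hne i hi)
    · have h1 := preb_ang_lt ((l ++ r).getD i (1, 0))
      have h2 := preb_ang_gt ((l ++ r).getD 0 (1, 0))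
      simp only []
      linarith
  · have hi : i < (l ++ r).length := hij.trans hj
    have ei : (l ++ r).getD i (1, 0) = (l ++ r)[i] := List.getD_eq_getElem _ _ hi
    have ej : (l ++ r).getD j (1, 0) = (l ++ r)[j] := List.getD_eq_getElem _ _ hj
    simp only [ei, ej]
    have hlen : (l ++ r).length = l.length + r.length := List.length_append
    have hil : i < l.length := by omega
    have ei' : (l ++ r)[i] = l[i] := List.getElem_append_left hil
    have hpi : 0 < (l[i]).1 := hl _ (List.getElem_mem hil)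
    rw [ei']
    by_cases hjl : j < l.length
    · have ej' : (l ++ r)[j] = l[j] := List.getElem_append_left hjl
      rw [ej']
      have hpj : 0 < (l[j]).1 := hl _ (List.getElem_mem hjl)
      have hslope := List.pairwise_iff_getElem.1 hs i j hil hjl hij
      unfold preb_ang
      rw [if_pos hpi, if_pos hpj]
      exact Real.arctan_strictMono hslope
    · have hjr : j - l.length < r.length := by omega
      have ej' : (l ++ r)[j] = r[j - l.length] := List.getElem_append_right (not_lt.1 hjl)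
      rw [ej']
      have hnj : (r[j - l.length]).1 < 0 := hr _ (List.getElem_mem hjr)
      exact (preb_ang_right hpi).trans (preb_ang_left hnj)

/-- The triple with a given name. -/
def preb_un (n : ℕ) : ℕ × ℕ × ℕ := (n.unpair.1, n.unpair.2.unpair.1, n.unpair.2.unpair.2)

theorem preb_un_nm (v : ℕ × ℕ × ℕ) : preb_un (nm v) = v := by
  unfold preb_un nm
  rw [Nat.unpair_pair, Nat.unpair_pair]

theorem preb_nm_un (n : ℕ) : nm (preb_un n) = n := by
  unfold preb_un nm
  rw [Nat.pair_unpair, Nat.pair_unpair]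

theorem preb_has {V : List ((ℕ × ℕ × ℕ) × Seg)} {E : List ((ℕ × ℕ × ℕ) × (ℕ × ℕ × ℕ))}
    {O : List Seg} {x : (ℕ × ℕ × ℕ) × Seg} (hx : x ∈ V) :
    (mkInst V E O).Has (nm x.1) x.2
      (((E.filter fun e => decide (nm e.1 = nm x.1)).map fun e => nm e.2) ++
      ((E.filter fun e => decide (nm e.2 = nm x.1)).map fun e => nm e.1)) := by
  unfold Inst.Has mkInst
  exact List.mem_map.2 ⟨x, hx, rfl⟩

theorem preb_of_has {V : List ((ℕ × ℕ × ℕ) × Seg)} {E : List ((ℕ × ℕ × ℕ) × (ℕ × ℕ × ℕ))}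
    {O : List Seg} {v : ℕ} {s : Seg} {r : List ℕ} (h : (mkInst V E O).Has v s r) :
    ∃ x ∈ V, v = nm x.1 ∧ s = x.2 ∧
      r = ((E.filter fun e => decide (nm e.1 = nm x.1)).map fun e => nm e.2) ++
      ((E.filter fun e => decide (nm e.2 = nm x.1)).map fun e => nm e.1) := by
  unfold Inst.Has mkInst at h
  obtain ⟨x, hx, he⟩ := List.mem_map.1 h
  simp only [Prod.mk.injEq] at he
  exact ⟨x, hx, he.1.symm, he.2.1.symm, he.2.2.symm⟩

theorem preb_isV {V : List ((ℕ × ℕ × ℕ) × Seg)} {E : List ((ℕ × ℕ × ℕ) × (ℕ × ℕ × ℕ))}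
    {O : List Seg} {v : ℕ} (h : (mkInst V E O).IsV v) : ∃ x ∈ V, v = nm x.1 := by
  obtain ⟨s, r, h⟩ := h
  obtain ⟨x, hx, h1, -, -⟩ := preb_of_has h
  exact ⟨x, hx, h1⟩

theorem preb_nb {V : List ((ℕ × ℕ × ℕ) × Seg)} {E : List ((ℕ × ℕ × ℕ) × (ℕ × ℕ × ℕ))}
    (hG : Good V E) {O : List Seg} {u v : ℕ} (h : (mkInst V E O).Nb u v) :
    ∃ e ∈ E, (u = nm e.1 ∧ v = nm e.2) ∨ (u = nm e.2 ∧ v = nm e.1) := by
  rw [← preb_nm_un u, ← preb_nm_un v, mkInst_nb hG] at h
  rcases h with h | h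
  · exact ⟨_, h, Or.inl ⟨(preb_nm_un u).symm, (preb_nm_un v).symm⟩⟩
  · exact ⟨_, h, Or.inr ⟨(preb_nm_un u).symm, (preb_nm_un v).symm⟩⟩

/-- From a drawing of the instance. -/
theorem preb_drawn {V : List ((ℕ × ℕ × ℕ) × Seg)} {E : List ((ℕ × ℕ × ℕ) × (ℕ × ℕ × ℕ))}
    (hG : Good V E) (O : List Seg) {Q : ℕ → ℝ × ℝ} (hQ : (mkInst V E O).Drawing Q) :
    Drawn V E O (fun v => Q (nm v)) := by
  refine ⟨fun x hx => hQ.onSeg _ _ _ (preb_has hx), fun x hx y hy hxy => ?_,
    fun e he f hf hef z hz hz' => ?_, fun e he s hs => ?_⟩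
  · exact nm_injective (hQ.inj _ _ ⟨_, _, preb_has hx⟩ ⟨_, _, preb_has hy⟩ hxy)
  · have h1 : (mkInst V E O).Nb (nm e.1) (nm e.2) := (mkInst_nb hG O _ _).2 (Or.inl he)
    have h2 : (mkInst V E O).Nb (nm f.1) (nm f.2) := (mkInst_nb hG O _ _).2 (Or.inl hf)
    have h3 : ¬ (nm e.1 = nm f.1 ∧ nm e.2 = nm f.2) := by
      rintro ⟨h4, h5⟩
      exact hef (Prod.ext (nm_injective h4) (nm_injective h5))
    have h4 : ¬ (nm e.1 = nm f.2 ∧ nm e.2 = nm f.1) := by
      rintro ⟨h4, h5⟩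
      have h6 := nm_injective h4
      have h7 := nm_injective h5
      have h8 := (hG.right e he).1
      have h9 := (hG.right f hf).1
      rw [h6, h7] at h8
      omega
    obtain ⟨w, hw1, hw2, hw3⟩ := hQ.edgeEdge _ _ _ _ h1 h2 h3 h4 z hz hz'
    refine ⟨preb_un w, ?_, ?_, ?_⟩
    · rcases hw1 with h | h
      · left
        rw [h, preb_un_nm]
      · right
        rw [h, preb_un_nm]
    · rcases hw2 with h | h
      · left
        rw [h, preb_un_nm]
      · right
        rw [h, preb_un_nm]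
    · simp only [preb_nm_un]
      exact hw3
  · exact hQ.obstacle _ _ ((mkInst_nb hG O _ _).2 (Or.inl he)) s hs

theorem preb_left_end {V : List ((ℕ × ℕ × ℕ) × Seg)} {E : List ((ℕ × ℕ × ℕ) × (ℕ × ℕ × ℕ))}
    (hG : Good V E) (hS : SegsOK V) {O : List Seg} {P : ℕ × ℕ × ℕ → ℝ × ℝ} (hP : Drawn V E O P)
    {e : (ℕ × ℕ × ℕ) × (ℕ × ℕ × ℕ)} (he : e ∈ E) : (P e.1).1 = 2 * (e.1.1 : ℝ) := by
  obtain ⟨⟨x, hx, hxe⟩, -⟩ := hG.ends e he
  obtain ⟨u, hu0, hu1, h2, h3⟩ := hS x hx (P x.1) (hP.onSeg x hx)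
  have h4 : x.1.2.2 ≠ 2 := by
    rw [hxe, (hG.right e he).2]
    norm_num
  rw [← hxe, h3 h4]

theorem preb_right_end {V : List ((ℕ × ℕ × ℕ) × Seg)} {E : List ((ℕ × ℕ × ℕ) × (ℕ × ℕ × ℕ))}
    (hG : Good V E) (hS : SegsOK V) {O : List Seg} {P : ℕ × ℕ × ℕ → ℝ × ℝ} (hP : Drawn V E O P)
    {e : (ℕ × ℕ × ℕ) × (ℕ × ℕ × ℕ)} (he : e ∈ E) : 2 * (e.2.1 : ℝ) ≤ (P e.2).1 := by
  obtain ⟨-, x, hx, hxe⟩ := hG.ends e he
  obtain ⟨u, hu0, hu1, h2, h3⟩ := hS x hx (P x.1) (hP.onSeg x hx)
  rw [← hxe]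
  by_cases h4 : x.1.2.2 = 2
  · rw [(h2 h4).2]
    simp only []
    linarith
  · rw [h3 h4]

theorem preb_right_end0 {V : List ((ℕ × ℕ × ℕ) × Seg)} {E : List ((ℕ × ℕ × ℕ) × (ℕ × ℕ × ℕ))}
    (hG : Good V E) (hS : SegsOK V) {O : List Seg} {P : ℕ × ℕ × ℕ → ℝ × ℝ} (hP : Drawn V E O P)
    {e : (ℕ × ℕ × ℕ) × (ℕ × ℕ × ℕ)} (he : e ∈ E) (h0 : e.2.2.2 = 0) :
    ∃ u : ℝ, 0 ≤ u ∧ u ≤ 1 ∧ P e.2 = (2 * (e.2.1 : ℝ), 16 * (e.2.2.1 : ℝ) + 4 * u) := by
  obtain ⟨-, x, hx, hxe⟩ := hG.ends e he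
  obtain ⟨u, hu0, hu1, h2, h3⟩ := hS x hx (P x.1) (hP.onSeg x hx)
  have h4 : x.1.2.2 ≠ 2 := by
    rw [hxe, h0]
    norm_num
  refine ⟨u, hu0, hu1, ?_⟩
  rw [← hxe]
  exact h3 h4

theorem preb_pos {V : List ((ℕ × ℕ × ℕ) × Seg)} {E : List ((ℕ × ℕ × ℕ) × (ℕ × ℕ × ℕ))}
    (hG : Good V E) (hS : SegsOK V) {O : List Seg} {P : ℕ × ℕ × ℕ → ℝ × ℝ} (hP : Drawn V E O P)
    {e : (ℕ × ℕ × ℕ) × (ℕ × ℕ × ℕ)} (he : e ∈ E) : (P e.1).1 < (P e.2).1 := by
  rw [preb_left_end hG hS hP he]
  refine lt_of_lt_of_le ?_ (preb_right_end hG hS hP he)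
  have h : (e.1.1 : ℝ) < (e.2.1 : ℝ) := by exact_mod_cast (hG.right e he).1
  linarith

theorem preb_length {α : Type} {l : List α} (hn : l.Nodup) (h : ∀ x ∈ l, ∀ y ∈ l, x = y) :
    l.length ≤ 1 := by
  match l, hn, h with
  | [], _, _ => simp
  | [x], _, _ => simp
  | x :: y :: t, hn, h =>
    exfalso
    have hxy : x = y := h x (by simp) y (by simp)
    rw [List.nodup_cons] at hn
    apply hn.1
    rw [hxy]
    simp

theorem preb_order {V : List ((ℕ × ℕ × ℕ) × Seg)} {E : List ((ℕ × ℕ × ℕ) × (ℕ × ℕ × ℕ))}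
    (hG : Good V E) (hS : SegsOK V) {O : List Seg} {P : ℕ × ℕ × ℕ → ℝ × ℝ} (hP : Drawn V E O P)
    (v : ℕ × ℕ × ℕ) :
    Ccw (((E.filter fun e => decide (nm e.1 = nm v)).map fun e => P e.2 - P v) ++
      ((E.filter fun e => decide (nm e.2 = nm v)).map fun e => P e.1 - P v)) := by
  have hfil1 : ∀ e, e ∈ (E.filter fun e => decide (nm e.1 = nm v)) → e ∈ E ∧ e.1 = v := by
    intro e he
    rw [List.mem_filter, decide_eq_true_eq] at he
    exact ⟨he.1, nm_injective he.2⟩
  have hfil2 : ∀ e, e ∈ (E.filter fun e => decide (nm e.2 = nm v)) → e ∈ E ∧ e.2 = v := by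
    intro e he
    rw [List.mem_filter, decide_eq_true_eq] at he
    exact ⟨he.1, nm_injective he.2⟩
  refine ccw_of_slopes _ _ (fun x hx => ?_) ?_ (fun x hx => ?_) ?_
  · obtain ⟨e, he, rfl⟩ := List.mem_map.1 hx
    obtain ⟨heE, hev⟩ := hfil1 e he
    have h := preb_pos hG hS hP heE
    rw [hev] at h
    rw [Prod.fst_sub]
    linarith
  · rw [List.pairwise_map]
    have hp : (E.filter fun e => decide (nm e.1 = nm v)).Pairwise fun e f => e.1 = f.1 →
        e.2.1 = f.2.1 ∧ e.2.2.1 < f.2.2.1 ∧ e.2.2.2 = 0 ∧ f.2.2.2 = 0 :=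
      List.Pairwise.filter _ hG.fan
    refine List.Pairwise.imp_of_mem ?_ hp
    intro e f he hf hef
    obtain ⟨heE, hev⟩ := hfil1 e he
    obtain ⟨hfE, hfv⟩ := hfil1 f hf
    obtain ⟨h1, h2, h3, h4⟩ := hef (by rw [hev, hfv])
    obtain ⟨u, hu0, hu1, hu⟩ := preb_right_end0 hG hS hP heE h3
    obtain ⟨w, hw0, hw1, hw⟩ := preb_right_end0 hG hS hP hfE h4
    have h5 := preb_pos hG hS hP heE
    rw [hev] at h5
    have h6 : (P e.2).1 = (P f.2).1 := by
      rw [hu, hw, h1]
    have h7 : (P e.2).2 < (P f.2).2 := by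
      rw [hu, hw]
      simp only []
      have h8 : (e.2.2.1 : ℝ) + 1 ≤ (f.2.2.1 : ℝ) := by exact_mod_cast h2
      linarith
    rw [Prod.fst_sub, Prod.snd_sub, Prod.fst_sub, Prod.snd_sub, ← h6]
    exact div_lt_div_of_pos_right (by linarith) (by linarith)
  · obtain ⟨e, he, rfl⟩ := List.mem_map.1 hx
    obtain ⟨heE, hev⟩ := hfil2 e he
    have h := preb_pos hG hS hP heE
    rw [hev] at h
    rw [Prod.fst_sub]
    linarith
  · rw [List.length_map]
    refine preb_length (List.Nodup.filter _ hG.edges) (fun e he f hf => ?_)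
    obtain ⟨heE, hev⟩ := hfil2 e he
    obtain ⟨hfE, hfv⟩ := hfil2 f hf
    exact hG.indeg e heE f hfE (by rw [hev, hfv])

theorem preb_drawing {V : List ((ℕ × ℕ × ℕ) × Seg)} {E : List ((ℕ × ℕ × ℕ) × (ℕ × ℕ × ℕ))}
    (hG : Good V E) (hS : SegsOK V) (O : List Seg) {P : ℕ × ℕ × ℕ → ℝ × ℝ}
    (hP : Drawn V E O P) : (mkInst V E O).Drawing (fun n => P (preb_un n)) := by
  have hQ : ∀ v, P (preb_un (nm v)) = P v := fun v => by rw [preb_un_nm]
  refine ⟨fun v s r h => ?_, fun u v hu hv huv => ?_, fun u v w huv hw hseg => ?_,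
    fun u v x y huv hxy h1 h2 z hz hz' => ?_, fun u v huv s hs => ?_, fun v s r h => ?_⟩
  · obtain ⟨x, hx, h1, h2, -⟩ := preb_of_has h
    rw [h1, h2, hQ]
    exact hP.onSeg x hx
  · obtain ⟨x, hx, rfl⟩ := preb_isV hu
    obtain ⟨y, hy, rfl⟩ := preb_isV hv
    simp only [hQ] at huv
    rw [hP.inj x hx y hy huv]
  · obtain ⟨e, he, h⟩ := preb_nb hG huv
    obtain ⟨x, hx, rfl⟩ := preb_isV hw
    have hseg' : P x.1 ∈ segment ℝ (P e.1) (P e.2) := by
      rcases h with ⟨rfl, rfl⟩ | ⟨rfl, rfl⟩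
      · simp only [hQ] at hseg
        exact hseg
      · simp only [hQ] at hseg
        rw [segment_symm]
        exact hseg
    have hend : x.1 = e.1 ∨ x.1 = e.2 := by
      obtain ⟨f, hf, hfx⟩ := hG.cover x hx
      by_cases hef : e = f
      · rw [hef]
        rcases hfx with h' | h'
        · exact Or.inl h'.symm
        · exact Or.inr h'.symm
      · have hz' : P x.1 ∈ segment ℝ (P f.1) (P f.2) := by
          rcases hfx with h' | h'
          · rw [← h']
            exact left_mem_segment ℝ _ _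
          · rw [← h']
            exact right_mem_segment ℝ _ _
        obtain ⟨w, hw1, hw2, hw3⟩ := hP.edge e he f hf hef (P x.1) hseg' hz'
        have hwV : ∃ y ∈ V, y.1 = w := by
          obtain ⟨hy1, hy2⟩ := hG.ends e he
          rcases hw1 with h' | h'
          · rw [h']
            exact hy1
          · rw [h']
            exact hy2
        obtain ⟨y, hy, hyw⟩ := hwV
        have hxw : x.1 = w := by
          rw [← hyw]
          refine hP.inj x hx y hy ?_
          rw [hyw]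
          exact hw3
        rw [hxw]
        exact hw1
    rcases h with ⟨rfl, rfl⟩ | ⟨rfl, rfl⟩
    · rcases hend with h' | h'
      · exact Or.inl (by rw [h'])
      · exact Or.inr (by rw [h'])
    · rcases hend with h' | h'
      · exact Or.inr (by rw [h'])
      · exact Or.inl (by rw [h'])
  · obtain ⟨e, he, h⟩ := preb_nb hG huv
    obtain ⟨f, hf, h'⟩ := preb_nb hG hxy
    have hef : e ≠ f := by
      rintro rfl
      rcases h with ⟨rfl, rfl⟩ | ⟨rfl, rfl⟩
      · rcases h' with ⟨rfl, rfl⟩ | ⟨rfl, rfl⟩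
        · exact h1 ⟨rfl, rfl⟩
        · exact h2 ⟨rfl, rfl⟩
      · rcases h' with ⟨rfl, rfl⟩ | ⟨rfl, rfl⟩
        · exact h2 ⟨rfl, rfl⟩
        · exact h1 ⟨rfl, rfl⟩
    have hze : z ∈ segment ℝ (P e.1) (P e.2) := by
      rcases h with ⟨rfl, rfl⟩ | ⟨rfl, rfl⟩
      · simp only [hQ] at hz
        exact hz
      · simp only [hQ] at hz
        rw [segment_symm]
        exact hz
    have hzf : z ∈ segment ℝ (P f.1) (P f.2) := by
      rcases h' with ⟨rfl, rfl⟩ | ⟨rfl, rfl⟩
      · simp only [hQ] at hz'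
        exact hz'
      · simp only [hQ] at hz'
        rw [segment_symm]
        exact hz'
    obtain ⟨w, hw1, hw2, hw3⟩ := hP.edge e he f hf hef z hze hzf
    refine ⟨nm w, ?_, ?_, ?_⟩
    · rcases h with ⟨rfl, rfl⟩ | ⟨rfl, rfl⟩
      · rcases hw1 with rfl | rfl
        · exact Or.inl rfl
        · exact Or.inr rfl
      · rcases hw1 with rfl | rfl
        · exact Or.inr rfl
        · exact Or.inl rfl
    · rcases h' with ⟨rfl, rfl⟩ | ⟨rfl, rfl⟩
      · rcases hw2 with rfl | rfl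
        · exact Or.inl rfl
        · exact Or.inr rfl
      · rcases hw2 with rfl | rfl
        · exact Or.inr rfl
        · exact Or.inl rfl
    · simp only [hQ]
      exact hw3
  · obtain ⟨e, he, h⟩ := preb_nb hG huv
    rcases h with ⟨rfl, rfl⟩ | ⟨rfl, rfl⟩
    · simp only [hQ]
      exact hP.obst e he s hs
    · simp only [hQ]
      rw [segment_symm]
      exact hP.obst e he s hs
  · obtain ⟨x, hx, h1, -, h3⟩ := preb_of_has h
    have h4 := preb_order hG hS hP x.1
    rw [h1, h3, List.map_append, List.map_map, List.map_map]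
    have e1 : ((fun u => P (preb_un u) - P (preb_un (nm x.1))) ∘
        fun e : (ℕ × ℕ × ℕ) × (ℕ × ℕ × ℕ) => nm e.2) = fun e => P e.2 - P x.1 := by
      funext e
      simp only [Function.comp_apply, hQ]
    have e2 : ((fun u => P (preb_un u) - P (preb_un (nm x.1))) ∘
        fun e : (ℕ × ℕ × ℕ) × (ℕ × ℕ × ℕ) => nm e.1) = fun e => P e.1 - P x.1 := by
      funext e
      simp only [Function.comp_apply, hQ]
    rw [e1, e2]
    exact h4

theorem mkInst_yes {V : List ((ℕ × ℕ × ℕ) × Seg)} {E : List ((ℕ × ℕ × ℕ) × (ℕ × ℕ × ℕ))}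
    (hG : Good V E) (hS : SegsOK V) (O : List Seg) :
    (mkInst V E O).Yes ↔ ∃ P : ℕ × ℕ × ℕ → ℝ × ℝ, Drawn V E O P := by
  constructor
  · rintro ⟨Q, hQ⟩
    exact ⟨_, preb_drawn hG O hQ⟩
  · rintro ⟨P, hP⟩
    exact ⟨_, preb_drawing hG hS O hP⟩

end Pool.Agent.H77.SG
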