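import Pool.Agent.H77.SG.VMain
import Pool.Agent.H77.SG.GD
import Pool.Agent.H77.SG.PreB

/-!
# The instance of a program
-/

set_option autoImplicit false

namespace Pool.Agent.H77.SG

theorem instOf_valid (o : Bool) {π : List (ℕ × ℕ × ℕ × List Bool)} (hW : WF π []) :
    (instOf o π).Valid := mkInst_valid (good_of_WF o hW) _

theorem instOf_yes (o : Bool) {π : List (ℕ × ℕ × ℕ × List Bool)} (hW : WF π []) :
    (instOf o π).Yes ↔ Run π [] := by
  unfold instOf
  rw [mkInst_yes (good_of_WF o hW) (lV_segs o hW)]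
  constructor
  · rintro ⟨P, hP⟩
    obtain ⟨h, h01, hB⟩ := drawn_heights o hW hP
    exact heights_run hW h01 hB
  · intro hR
    obtain ⟨h, h01, hB⟩ := run_heights hW hR
    exact ⟨_, heights_drawn o hW h01 hB⟩

end Pool.Agent.H77.SG
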