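import Pool.Agent.H77.SG.Defs

/-!
# The layout of a program

The instruction number `b` occupies the strips between the vertical lines `X = 2 T` for
`T = 4 b, …, 4 b + 4`. On the line number `T` there are slots `k = 0, 1, …`: the slot `k` is
the segment from `(2 T, 16 k)` to `(2 T, 16 k + 4)`. A vertex is given by a triple `(T, k, e)`; the
vertex `(T, k, 2)` is on the segment from `(2 T + 1, 16 k + 2)` to `(2 T + 2, 16 k + 4)`, the
vertices `(T, k, 0)` and `(T, k, 1)` are in the slot `k` of the line `T`.
-/

set_option autoImplicit false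

namespace Pool.Agent.H77.SG

open Pool.Agent.H79.Cx Pool.Agent.H78.NP

/-- The name of the vertex `(T, k, e)`. -/
def nm (v : ℕ × ℕ × ℕ) : ℕ := Nat.pair v.1 (Nat.pair v.2.1 v.2.2)

/-- Presence of the vertex `(4 b + l, k, e)` in the block of an instruction of kind `t` at position
`p`, for a front with `W` wires. -/
def pres (t p W l k e : ℕ) : Bool :=
  if e = 0 then
    if l = 0 then decide (k < W)
    else if t ≤ 1 then (if l ≤ 2 then decide (k < W) else decide (k < W + 1))
    else if t = 2 then decide (k < W)
    else if t = 3 then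
      (if l = 1 then decide (k < W) && !decide (k = p)
      else if l = 2 then decide (k < W) && !decide (k = p) && !decide (k = p + 2)
      else decide (k < W) && !(decide (p ≤ k) && decide (k < p + 3)))
    else if t = 5 then
      (if l = 1 then decide (k < W) && !decide (k = p + 2)
      else if l = 2 then decide (k < W) && !decide (k = p) && !decide (k = p + 2)
      else decide (k < W) && !(decide (p ≤ k) && decide (k < p + 3)))
    else
      (if l = 1 then decide (k < W)
      else if l = 2 then decide (k < W) && !decide (k = p)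
      else decide (k < W) && !decide (k = p) && !decide (k = p + 2))
  else if e = 1 then
    (if t = 3 ∨ t = 5 then decide (l = 2) && decide (k = p + 1)
    else if t = 4 ∨ t = 6 then decide (l = 3) && decide (k = p + 1)
    else false)
  else if e = 2 then decide (t = 6) && decide (l = 2) && decide (k = p + 1)
  else false

/-- The vertices of the block number `b`. -/
def bV (b : ℕ) (S : List Bool) (I : ℕ × ℕ × ℕ × List Bool) : List (ℕ × ℕ × ℕ) :=
  (List.range 4).flatMap fun l => (List.range (S.length + 1)).flatMap fun k =>
    ((List.range 3).filter fun e => pres I.1 I.2.1 S.length l k e).map fun e => (4 * b + l, k, e)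

/-- Whether there is an ordinary edge from the slot `k` of the line `l` of a block to the right
(the source of the instructions of kinds `0` and `1` excepted). -/
def has (t p W l k : ℕ) : Bool :=
  if t ≤ 1 then (if l ≤ 2 then decide (k < W) else decide (k < W + 1) && !decide (k = p))
  else if t = 2 then (if l ≤ 2 then decide (k < W) else decide (k < W) && !decide (k = p))
  else if t = 3 then
    (if l = 0 then decide (k < W) && !decide (k = p + 1)
    else if l = 1 then decide (k < W) && !decide (k = p) && !decide (k = p + 1)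
    else decide (k < W) && !(decide (p ≤ k) && decide (k < p + 3)))
  else if t = 4 then
    (if l = 0 then decide (k < W)
    else if l = 1 then decide (k < W) && !decide (k = p + 1)
    else if l = 2 then decide (k < W) && !decide (k = p) && !decide (k = p + 1)
    else decide (k < W) && !(decide (p ≤ k) && decide (k < p + 3)))
  else if t = 5 then
    (if l = 0 then decide (k < W) && !decide (k = p + 1)
    else if l = 1 then decide (k < W) && !decide (k = p + 1) && !decide (k = p + 2)
    else decide (k < W) && !(decide (p ≤ k) && decide (k < p + 3)))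
  else
    (if l = 0 then decide (k < W)
    else if l = 1 then decide (k < W) && !decide (k = p)
    else if l = 2 then decide (k < W) && !decide (k = p) && !decide (k = p + 1)
    else decide (k < W) && !(decide (p ≤ k) && decide (k < p + 3)))

/-- The slot at the right end of this edge; `n` is the length of the word. -/
def tgt (t p n l k : ℕ) : ℕ :=
  if t ≤ 1 then
    (if l ≤ 1 then k
    else if l = 2 then (if k < p then k else k + 1)
    else (if k < p then k else k + n - 1))
  else if t = 2 then (if l ≤ 2 then k else if k < p then k else k - 1)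
  else if t = 3 then
    (if l = 0 then (if k = p then p + 1 else k)
    else if l = 1 then (if k = p + 2 then p + 1 else k)
    else if l = 2 then k
    else if k < p then k else k - 3)
  else if t = 4 then
    (if l = 0 then k
    else if l = 1 then (if k = p then p + 1 else k)
    else if l = 2 then (if k = p + 2 then p + 1 else k)
    else if k < p then k else k - 3)
  else if t = 5 then
    (if l = 0 then (if k = p + 2 then p + 1 else k)
    else if l = 1 then (if k = p then p + 1 else k)
    else if l = 2 then k
    else if k < p then k else k - 3)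
  else
    (if l ≤ 1 then k
    else if l = 2 then (if k = p + 2 then p + 1 else k)
    else if k < p then k else k - 3)

/-- The sign of the wire in the slot `k` of the line `l` of a block. -/
def sgn (t p : ℕ) (S : List Bool) (l k : ℕ) : Bool :=
  if t ≤ 1 ∧ l = 3 ∧ p < k then S.getD (k - 1) false else S.getD k false

/-- The ordinary edges of the block number `b`, from bottom to top in each strip, as quadruples
`(T, i, j, s)`: from the slot `i` of the line `T` to the slot `j` of the line `T + 1`, with the
sign `s`. -/
def bP (b : ℕ) (S : List Bool) (I : ℕ × ℕ × ℕ × List Bool) : List (ℕ × ℕ × ℕ × Bool) :=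
  (List.range 4).flatMap fun l => (List.range (S.length + 1)).flatMap fun k =>
    if I.1 ≤ 1 ∧ l = 3 ∧ k = I.2.1 then
      (List.range I.2.2.2.length).map fun j => (4 * b + 3, k, k + j, I.2.2.2.getD j false)
    else if has I.1 I.2.1 S.length l k = true then
      [(4 * b + l, k, tgt I.1 I.2.1 I.2.2.2.length l k, sgn I.1 I.2.1 S l k)]
    else []

/-- The other edges of the block number `b`. -/
def bX (b : ℕ) (I : ℕ × ℕ × ℕ × List Bool) : List ((ℕ × ℕ × ℕ) × (ℕ × ℕ × ℕ)) :=
  if I.1 = 3 ∨ I.1 = 5 then [((4 * b, I.2.1 + 1, 0), (4 * b + 2, I.2.1 + 1, 1))]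
  else if I.1 = 4 then [((4 * b + 1, I.2.1 + 1, 0), (4 * b + 3, I.2.1 + 1, 1))]
  else if I.1 = 6 then [((4 * b + 1, I.2.1, 0), (4 * b + 2, I.2.1 + 1, 2)),
    ((4 * b + 2, I.2.1 + 1, 0), (4 * b + 3, I.2.1 + 1, 1))]
  else []

/-- All edges of the block number `b`, as pairs of vertices (left end, right end). -/
def bE (b : ℕ) (S : List Bool) (I : ℕ × ℕ × ℕ × List Bool) :
    List ((ℕ × ℕ × ℕ) × (ℕ × ℕ × ℕ)) :=
  (bP b S I).map (fun q => ((q.1, q.2.1, 0), (q.1 + 1, q.2.2.1, 0))) ++ bX b I

/-- An integral point as a rational point. -/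
def zpt (x y : ℤ) : ℚ × ℚ := ((x : ℚ), (y : ℚ))

/-- The segment between two integral points. -/
def zseg (o : Bool) (x y x' y' : ℤ) : Seg := ⟨zpt x y, zpt x' y', o⟩

/-- A closed segment as an obstacle, or an open one and its end points. -/
def wallSeg (o : Bool) (x y x' y' : ℤ) : List Seg :=
  if o = true then [zseg true x y x' y', zseg true x y x y, zseg true x' y' x' y']
  else [zseg false x y x' y']

/-- The segment of the vertex `v` of the block number `b`. -/
def vSeg (o : Bool) (b : ℕ) (I : ℕ × ℕ × ℕ × List Bool) (v : ℕ × ℕ × ℕ) : Seg :=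
  if v.2.2 = 2 then zseg o (2 * v.1 + 1) (16 * v.2.1 + 2) (2 * v.1 + 2) (16 * v.2.1 + 4)
  else if I.1 = 1 ∧ v = (4 * b + 3, I.2.1, 0) then
    zseg o (2 * v.1) (16 * v.2.1 + 4 - I.2.2.1) (2 * v.1) (16 * v.2.1 + 4 - I.2.2.1)
  else zseg o (2 * v.1) (16 * v.2.1) (2 * v.1) (16 * v.2.1 + 4)

/-- Whether the obstacle of an ordinary edge is in the lower half. -/
def low (T : ℕ) (s : Bool) : Bool := decide (T % 2 = 1) == s

/-- The obstacle of the ordinary edge `(T, i, j, s)`. -/
def pWall (o : Bool) (q : ℕ × ℕ × ℕ × Bool) : List Seg :=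
  if low q.1 q.2.2.2 = true then
    wallSeg o (2 * q.1 + 1) (8 * (q.2.1 + q.2.2.1)) (2 * q.1 + 1) (8 * (q.2.1 + q.2.2.1) + 2)
  else wallSeg o (2 * q.1 + 1) (8 * (q.2.1 + q.2.2.1) + 2) (2 * q.1 + 1)
    (8 * (q.2.1 + q.2.2.1) + 4)

/-- The obstacles of the block number `b`. -/
def bO (o : Bool) (b : ℕ) (S : List Bool) (I : ℕ × ℕ × ℕ × List Bool) : List Seg :=
  (bP b S I).flatMap (pWall o) ++
    if I.1 = 6 then wallSeg o (2 * (4 * b + 2)) (16 * (I.2.1 + 1) - 4) (2 * (4 * b + 2))
      (16 * (I.2.1 + 1))
    else []

/-- The blocks of a program: number, signs of the front, instruction. -/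
def blocks : ℕ → List Bool → List (ℕ × ℕ × ℕ × List Bool) →
    List (ℕ × List Bool × (ℕ × ℕ × ℕ × List Bool))
  | _, _, [] => []
  | b, S, I :: π => (b, S, I) :: blocks (b + 1) (nextS I S) π

/-- All vertices, with their segments. -/
def lV (o : Bool) (π : List (ℕ × ℕ × ℕ × List Bool)) : List ((ℕ × ℕ × ℕ) × Seg) :=
  (blocks 0 [] π).flatMap fun B => (bV B.1 B.2.1 B.2.2).map fun v => (v, vSeg o B.1 B.2.2 v)

/-- All edges. -/
def lE (π : List (ℕ × ℕ × ℕ × List Bool)) : List ((ℕ × ℕ × ℕ) × (ℕ × ℕ × ℕ)) :=
  (blocks 0 [] π).flatMap fun B => bE B.1 B.2.1 B.2.2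

/-- All obstacles. -/
def lO (o : Bool) (π : List (ℕ × ℕ × ℕ × List Bool)) : List Seg :=
  (blocks 0 [] π).flatMap fun B => bO o B.1 B.2.1 B.2.2

/-- The instance given by vertices with segments, edges (left end, right end; those with the same
left end from bottom to top) and obstacles. -/
def mkInst (V : List ((ℕ × ℕ × ℕ) × Seg)) (E : List ((ℕ × ℕ × ℕ) × (ℕ × ℕ × ℕ)))
    (O : List Seg) : Inst where
  verts := V.map fun v => (nm v.1, v.2,
    ((E.filter fun e => decide (nm e.1 = nm v.1)).map fun e => nm e.2) ++
    ((E.filter fun e => decide (nm e.2 = nm v.1)).map fun e => nm e.1))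
  obst := O

/-- The instance of a program. -/
def instOf (o : Bool) (π : List (ℕ × ℕ × ℕ × List Bool)) : Inst :=
  mkInst (lV o π) (lE π) (lO o π)

end Pool.Agent.H77.SG
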