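import Mathlib

/-!
# Lengths of integer polynomials

`len`, `len1`, `len2` are the sums of the absolute values of the coefficients.

PROOFS. Each one is the `ℓ¹` norm of a finitely supported function; products: the coefficient of a
product is a sum of products (`MvPolynomial.coeff_mul`, `Polynomial.coeff_mul`), or induct on the first
factor (`MvPolynomial.induction_on'`, `Polynomial.induction_on'`) using additivity on disjoint
supports. A convenient way: prove first the subadditivity and `len (monomial s a * q) = |a| * len q`.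
`len_pderiv`: the exponents are at most the degree.
-/

set_option autoImplicit false

namespace Pool.Agent.H77.SG

open MvPolynomial in
/-- The length of a polynomial in several variables. -/
noncomputable def len {m : ℕ} (p : MvPolynomial (Fin m) ℤ) : ℕ := ∑ d ∈ p.support, (p.coeff d).natAbs

/-- The length of a polynomial in one variable. -/
noncomputable def len1 (p : Polynomial ℤ) : ℕ := ∑ i ∈ p.support, (p.coeff i).natAbs

/-- The length of a polynomial whose coefficients are polynomials. -/
noncomputable def len2 (p : Polynomial (Polynomial ℤ)) : ℕ := ∑ i ∈ p.support, len1 (p.coeff i)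

section
variable {m : ℕ}

theorem len_zero : len (0 : MvPolynomial (Fin m) ℤ) = 0 := by
  simp [len]

theorem len_len_eq (p : MvPolynomial (Fin m) ℤ) (s : Finset (Fin m →₀ ℕ)) (h : p.support ⊆ s) :
    len p = ∑ d ∈ s, (p.coeff d).natAbs := by
  unfold len
  refine Finset.sum_subset h fun d _ hd => ?_
  rw [MvPolynomial.notMem_support_iff.mp hd, Int.natAbs_zero]

theorem len_len_monomial (s : Fin m →₀ ℕ) (a : ℤ) :
    len (MvPolynomial.monomial s a : MvPolynomial (Fin m) ℤ) = a.natAbs := by
  classical
  rw [len_len_eq _ {s} MvPolynomial.support_monomial_subset, Finset.sum_singleton,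
    MvPolynomial.coeff_monomial, if_pos rfl]

theorem len_C (a : ℤ) : len (MvPolynomial.C a : MvPolynomial (Fin m) ℤ) = a.natAbs := by
  exact len_len_monomial 0 a

theorem len_X (i : Fin m) : len (MvPolynomial.X i : MvPolynomial (Fin m) ℤ) = 1 := by
  exact len_len_monomial (Finsupp.single i 1) 1

theorem len_add (p q : MvPolynomial (Fin m) ℤ) : len (p + q) ≤ len p + len q := by
  classical
  rw [len_len_eq (p + q) (p.support ∪ q.support) MvPolynomial.support_add,
    len_len_eq p (p.support ∪ q.support) Finset.subset_union_left,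
    len_len_eq q (p.support ∪ q.support) Finset.subset_union_right, ← Finset.sum_add_distrib]
  refine Finset.sum_le_sum fun d _ => ?_
  rw [MvPolynomial.coeff_add]
  exact Int.natAbs_add_le _ _

theorem len_neg (p : MvPolynomial (Fin m) ℤ) : len (-p) = len p := by
  rw [len_len_eq (-p) p.support (by rw [MvPolynomial.support_neg]), len]
  refine Finset.sum_congr rfl fun d _ => ?_
  rw [MvPolynomial.coeff_neg, Int.natAbs_neg]

theorem len_sub (p q : MvPolynomial (Fin m) ℤ) : len (p - q) ≤ len p + len q := by
  rw [sub_eq_add_neg]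
  refine (len_add p (-q)).trans ?_
  rw [len_neg]

theorem len_len_sum {ι : Type*} (s : Finset ι) (f : ι → MvPolynomial (Fin m) ℤ) :
    len (∑ i ∈ s, f i) ≤ ∑ i ∈ s, len (f i) := by
  classical
  induction s using Finset.induction_on with
  | empty => rw [Finset.sum_empty, Finset.sum_empty, len_zero]
  | insert a s ha ih =>
    rw [Finset.sum_insert ha, Finset.sum_insert ha]
    exact (len_add _ _).trans (Nat.add_le_add_left ih _)

theorem len_mul (p q : MvPolynomial (Fin m) ℤ) : len (p * q) ≤ len p * len q := by
  have h : p * q = ∑ a ∈ p.support, ∑ b ∈ q.support,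
      MvPolynomial.monomial (a + b) (p.coeff a * q.coeff b) := by
    conv_lhs => rw [p.as_sum, q.as_sum]
    rw [Finset.sum_mul_sum]
    refine Finset.sum_congr rfl fun a _ => Finset.sum_congr rfl fun b _ => ?_
    rw [MvPolynomial.monomial_mul]
  rw [h]
  refine (len_len_sum _ _).trans ?_
  unfold len
  rw [Finset.sum_mul_sum]
  refine Finset.sum_le_sum fun a _ => ?_
  refine (len_len_sum _ _).trans ?_
  refine Finset.sum_le_sum fun b _ => ?_
  rw [len_len_monomial, Int.natAbs_mul]

theorem len_monomial (s : Fin m →₀ ℕ) (a : ℤ) :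
    len (MvPolynomial.monomial s a : MvPolynomial (Fin m) ℤ) = a.natAbs := by
  exact len_len_monomial s a

theorem len_sum {ι : Type} (s : Finset ι) (f : ι → MvPolynomial (Fin m) ℤ) :
    len (∑ i ∈ s, f i) ≤ ∑ i ∈ s, len (f i) := by
  exact len_len_sum s f

theorem len_listSum (l : List (MvPolynomial (Fin m) ℤ)) (B : ℕ) (h : ∀ p ∈ l, len p ≤ B) :
    len l.sum ≤ l.length * B := by
  induction l with
  | nil =>
    rw [List.sum_nil, len_zero]
    exact Nat.zero_le _
  | cons a l ih =>
    have h1 := ih fun p hp => h p (List.mem_cons_of_mem _ hp)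
    have h2 := h a List.mem_cons_self
    rw [List.sum_cons, List.length_cons]
    refine (len_add _ _).trans ?_
    calc len a + len l.sum ≤ B + l.length * B := Nat.add_le_add h2 h1
      _ = (l.length + 1) * B := by ring

theorem len_pderiv_eq (i : Fin m) (p : MvPolynomial (Fin m) ℤ) :
    MvPolynomial.pderiv i p = ∑ v ∈ p.support,
      MvPolynomial.monomial (v - Finsupp.single i 1) (p.coeff v * (v i : ℤ)) := by
  conv_lhs => rw [p.as_sum]
  rw [map_sum]
  refine Finset.sum_congr rfl fun v _ => ?_
  rw [MvPolynomial.pderiv_monomial]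

theorem len_pderiv (i : Fin m) (p : MvPolynomial (Fin m) ℤ) :
    len (MvPolynomial.pderiv i p) ≤ p.totalDegree * len p := by
  rw [len_pderiv_eq]
  refine (len_len_sum _ _).trans ?_
  unfold len
  rw [Finset.mul_sum]
  refine Finset.sum_le_sum fun v hv => ?_
  have h0 := len_len_monomial (v - Finsupp.single i 1) (p.coeff v * (v i : ℤ))
  unfold len at h0
  rw [h0, Int.natAbs_mul, Int.natAbs_natCast, Nat.mul_comm]
  refine Nat.mul_le_mul_right _ ?_
  have h1 := MvPolynomial.le_totalDegree hv
  have h2 : v i ≤ v.sum fun _ e => e := by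
    by_cases h3 : v i = 0
    · rw [h3]
      exact Nat.zero_le _
    · exact Finset.single_le_sum (f := fun j => v j) (fun _ _ => Nat.zero_le _)
        (Finsupp.mem_support_iff.mpr h3)
  exact h2.trans h1

theorem totalDegree_pderiv (i : Fin m) (p : MvPolynomial (Fin m) ℤ) :
    (MvPolynomial.pderiv i p).totalDegree ≤ p.totalDegree - 1 := by
  rw [len_pderiv_eq]
  refine MvPolynomial.totalDegree_finsetSum_le fun v hv => ?_
  by_cases h3 : v i = 0
  · rw [h3, Nat.cast_zero, mul_zero, map_zero, MvPolynomial.totalDegree_zero]
    exact Nat.zero_le _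
  · refine (MvPolynomial.totalDegree_monomial_le _ _).trans ?_
    have h1 := MvPolynomial.le_totalDegree hv
    have h4 : Finsupp.single i 1 ≤ v := by
      rw [Finsupp.single_le_iff]
      omega
    have h5 : v = (v - Finsupp.single i 1) + Finsupp.single i 1 := (tsub_add_cancel_of_le h4).symm
    have h6 : (v.sum fun _ e => e) = ((v - Finsupp.single i 1).sum fun _ e => e) + 1 := by
      conv_lhs => rw [h5]
      rw [Finsupp.sum_add_index' (fun _ => rfl) (fun _ _ _ => rfl),
        Finsupp.sum_single_index rfl]
    have h7 : ((v - Finsupp.single i 1).sum fun _ => id) =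
      ((v - Finsupp.single i 1).sum fun _ e => e) := rfl
    omega

end

theorem len1_zero : len1 0 = 0 := by
  simp [len1]

theorem len_len1_eq (p : Polynomial ℤ) (s : Finset ℕ) (h : p.support ⊆ s) :
    len1 p = ∑ d ∈ s, (p.coeff d).natAbs := by
  unfold len1
  refine Finset.sum_subset h fun d _ hd => ?_
  rw [Polynomial.notMem_support_iff.mp hd, Int.natAbs_zero]

theorem len_len1_monomial (n : ℕ) (a : ℤ) : len1 (Polynomial.monomial n a) = a.natAbs := by
  rw [len_len1_eq _ {n} (Polynomial.support_monomial_subset n a), Finset.sum_singleton,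
    Polynomial.coeff_monomial, if_pos rfl]

theorem len1_one : len1 1 = 1 := by
  rw [← Polynomial.monomial_zero_one, len_len1_monomial]
  rfl

theorem len1_C (a : ℤ) : len1 (Polynomial.C a) = a.natAbs := by
  exact len_len1_monomial 0 a

theorem len1_X : len1 Polynomial.X = 1 := by
  rw [← Polynomial.monomial_one_one_eq_X, len_len1_monomial]
  rfl

theorem len1_neg (p : Polynomial ℤ) : len1 (-p) = len1 p := by
  rw [len_len1_eq (-p) p.support (by rw [Polynomial.support_neg]), len1]
  refine Finset.sum_congr rfl fun d _ => ?_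
  rw [Polynomial.coeff_neg, Int.natAbs_neg]

theorem len1_add (p q : Polynomial ℤ) : len1 (p + q) ≤ len1 p + len1 q := by
  rw [len_len1_eq (p + q) (p.support ∪ q.support) Polynomial.support_add,
    len_len1_eq p (p.support ∪ q.support) Finset.subset_union_left,
    len_len1_eq q (p.support ∪ q.support) Finset.subset_union_right, ← Finset.sum_add_distrib]
  refine Finset.sum_le_sum fun d _ => ?_
  rw [Polynomial.coeff_add]
  exact Int.natAbs_add_le _ _

theorem len_len1_sum {ι : Type*} (s : Finset ι) (f : ι → Polynomial ℤ) :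
    len1 (∑ i ∈ s, f i) ≤ ∑ i ∈ s, len1 (f i) := by
  classical
  induction s using Finset.induction_on with
  | empty => rw [Finset.sum_empty, Finset.sum_empty, len1_zero]
  | insert a s ha ih =>
    rw [Finset.sum_insert ha, Finset.sum_insert ha]
    exact (len1_add _ _).trans (Nat.add_le_add_left ih _)

theorem len1_mul (p q : Polynomial ℤ) : len1 (p * q) ≤ len1 p * len1 q := by
  have h : p * q = ∑ a ∈ p.support, ∑ b ∈ q.support,
      Polynomial.monomial (a + b) (p.coeff a * q.coeff b) := by
    conv_lhs => rw [p.as_sum_support, q.as_sum_support]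
    rw [Finset.sum_mul_sum]
    refine Finset.sum_congr rfl fun a _ => Finset.sum_congr rfl fun b _ => ?_
    rw [Polynomial.monomial_mul_monomial]
  rw [h]
  refine (len_len1_sum _ _).trans ?_
  unfold len1
  rw [Finset.sum_mul_sum]
  refine Finset.sum_le_sum fun a _ => ?_
  refine (len_len1_sum _ _).trans ?_
  refine Finset.sum_le_sum fun b _ => ?_
  rw [len_len1_monomial, Int.natAbs_mul]

theorem len1_sum {ι : Type} (s : Finset ι) (f : ι → Polynomial ℤ) :
    len1 (∑ i ∈ s, f i) ≤ ∑ i ∈ s, len1 (f i) := by
  exact len_len1_sum s f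

theorem len_len2_eq (p : Polynomial (Polynomial ℤ)) (s : Finset ℕ) (h : p.support ⊆ s) :
    len2 p = ∑ d ∈ s, len1 (p.coeff d) := by
  unfold len2
  refine Finset.sum_subset h fun d _ hd => ?_
  rw [Polynomial.notMem_support_iff.mp hd, len1_zero]

theorem len_len2_monomial (n : ℕ) (a : Polynomial ℤ) : len2 (Polynomial.monomial n a) = len1 a := by
  rw [len_len2_eq _ {n} (Polynomial.support_monomial_subset n a), Finset.sum_singleton,
    Polynomial.coeff_monomial, if_pos rfl]

theorem len_len2_zero : len2 0 = 0 := by
  simp [len2]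

theorem len2_add (p q : Polynomial (Polynomial ℤ)) : len2 (p + q) ≤ len2 p + len2 q := by
  rw [len_len2_eq (p + q) (p.support ∪ q.support) Polynomial.support_add,
    len_len2_eq p (p.support ∪ q.support) Finset.subset_union_left,
    len_len2_eq q (p.support ∪ q.support) Finset.subset_union_right, ← Finset.sum_add_distrib]
  refine Finset.sum_le_sum fun d _ => ?_
  rw [Polynomial.coeff_add]
  exact len1_add _ _

theorem len_len2_sum {ι : Type*} (s : Finset ι) (f : ι → Polynomial (Polynomial ℤ)) :
    len2 (∑ i ∈ s, f i) ≤ ∑ i ∈ s, len2 (f i) := by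
  classical
  induction s using Finset.induction_on with
  | empty => rw [Finset.sum_empty, Finset.sum_empty, len_len2_zero]
  | insert a s ha ih =>
    rw [Finset.sum_insert ha, Finset.sum_insert ha]
    exact (len2_add _ _).trans (Nat.add_le_add_left ih _)

theorem len2_mul (p q : Polynomial (Polynomial ℤ)) : len2 (p * q) ≤ len2 p * len2 q := by
  have h : p * q = ∑ a ∈ p.support, ∑ b ∈ q.support,
      Polynomial.monomial (a + b) (p.coeff a * q.coeff b) := by
    conv_lhs => rw [p.as_sum_support, q.as_sum_support]
    rw [Finset.sum_mul_sum]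
    refine Finset.sum_congr rfl fun a _ => Finset.sum_congr rfl fun b _ => ?_
    rw [Polynomial.monomial_mul_monomial]
  rw [h]
  refine (len_len2_sum _ _).trans ?_
  unfold len2
  rw [Finset.sum_mul_sum]
  refine Finset.sum_le_sum fun a _ => ?_
  refine (len_len2_sum _ _).trans ?_
  refine Finset.sum_le_sum fun b _ => ?_
  rw [len_len2_monomial]
  exact len1_mul _ _

theorem len2_neg (p : Polynomial (Polynomial ℤ)) : len2 (-p) = len2 p := by
  rw [len_len2_eq (-p) p.support (by rw [Polynomial.support_neg]), len2]
  refine Finset.sum_congr rfl fun d _ => ?_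
  rw [Polynomial.coeff_neg, len1_neg]

theorem len2_sum {ι : Type} (s : Finset ι) (f : ι → Polynomial (Polynomial ℤ)) :
    len2 (∑ i ∈ s, f i) ≤ ∑ i ∈ s, len2 (f i) := by
  exact len_len2_sum s f

theorem len2_prod {ι : Type} (s : Finset ι) (f : ι → Polynomial (Polynomial ℤ)) :
    len2 (∏ i ∈ s, f i) ≤ ∏ i ∈ s, len2 (f i) := by
  classical
  induction s using Finset.induction_on with
  | empty =>
    rw [Finset.prod_empty, Finset.prod_empty, ← Polynomial.monomial_zero_one, len_len2_monomial,
      len1_one]
  | insert a s ha ih =>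
    rw [Finset.prod_insert ha, Finset.prod_insert ha]
    exact (len2_mul _ _).trans (Nat.mul_le_mul_left _ ih)

/-- A polynomial in the outer variable with integer coefficients. -/
theorem len2_map (p : Polynomial ℤ) : len2 (p.map Polynomial.C) = len1 p := by
  rw [len_len2_eq (p.map Polynomial.C) p.support (Polynomial.support_map_subset _ _), len1]
  refine Finset.sum_congr rfl fun d _ => ?_
  rw [Polynomial.coeff_map, len1_C]

theorem len2_C (p : Polynomial ℤ) : len2 (Polynomial.C p) = len1 p := by
  exact len_len2_monomial 0 p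

theorem len1_coeff_le (p : Polynomial (Polynomial ℤ)) (i : ℕ) : len1 (p.coeff i) ≤ len2 p := by
  by_cases h : i ∈ p.support
  · unfold len2
    exact Finset.single_le_sum (f := fun j => len1 (p.coeff j)) (fun _ _ => Nat.zero_le _) h
  · rw [Polynomial.notMem_support_iff.mp h, len1_zero]
    exact Nat.zero_le _

end Pool.Agent.H77.SG
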