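import Pool.Agent.H77.SG.Layout
import Pool.Agent.H78.NP.More
import Pool.Agent.H79.PT.Int2

/-!
# The blocks of a program are computable in polynomial time

The calculus of polynomial-time functions (`PT`, closure properties with the attribute `fun_prop`) is in
`Pool.Agent.H79.PT.*` and `Pool.Agent.H78.NP.More` (`PT.flatMap`, `PT.filter`, `PT.map`);
examples of such proofs: `Pool/Agent/H78/NP/FormPT.lean`, `Pool/Agent/H77/Tard/PTRed.lean`. Typical proof: `unfold` the definition, `fun_prop` (first `simp only`
if necessary); conditions must be decided Boolean values or propositions handled by `PT.ite'`;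
functions of several arguments are given as lemmas of the form
`PT f → PT g → PT (fun x => F (f x) (g x))`. Folds: `PT.foldl` with an explicit polynomial bound
for the size of the intermediate states (or `foldC_eq`).

`blocks`: a fold over the program with the state (number, signs, list of blocks); the number of signs
is at most the total length of the words read so far.
-/

set_option autoImplicit false

namespace Pool.Agent.H77.SG

open Pool.Agent.H79.Cx

@[fun_prop]
theorem PT_natPair {α : Type} [Enc α] {a b : α → ℕ} (ha : PT a) (hb : PT b) :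
    PT (fun x => Nat.pair (a x) (b x)) := by
  unfold Nat.pair
  fun_prop

@[fun_prop]
theorem PI_take {α β : Type} [Enc α] [Enc β] {l : α → List β} {n : α → ℕ} (hl : PT l)
    (hn : PT n) : PT (fun x => (l x).take (n x)) := by
  have h : PT (fun x => ((l x).reverse.drop ((l x).length - n x)).reverse) := by fun_prop
  refine PT.congr h fun x => ?_
  rw [List.reverse_drop, List.reverse_reverse, List.length_reverse]
  rcases le_total (n x) (l x).length with h1 | h1
  · congr 1
    omega
  · rw [List.take_of_length_le h1, List.take_of_length_le (by omega)]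

@[fun_prop]
theorem PI_nextS {α : Type} [Enc α] {I : α → ℕ × ℕ × ℕ × List Bool} {S : α → List Bool}
    (hI : PT I) (hS : PT S) : PT (fun x => nextS (I x) (S x)) := by
  unfold nextS
  fun_prop

/-- The step of the fold. -/
def PI_step (s : ℕ × List Bool × List (ℕ × List Bool × (ℕ × ℕ × ℕ × List Bool)))
    (I : ℕ × ℕ × ℕ × List Bool) :
    ℕ × List Bool × List (ℕ × List Bool × (ℕ × ℕ × ℕ × List Bool)) :=
  (s.1 + 1, nextS I s.2.1, (s.1, s.2.1, I) :: s.2.2)

theorem PI_foldl (π : List (ℕ × ℕ × ℕ × List Bool)) (b : ℕ) (S : List Bool)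
    (acc : List (ℕ × List Bool × (ℕ × ℕ × ℕ × List Bool))) :
    (π.foldl PI_step (b, S, acc)).2.2 = (blocks b S π).reverse ++ acc := by
  induction π generalizing b S acc with
  | nil => simp [blocks]
  | cons I π ih =>
    rw [List.foldl_cons, PI_step, ih, blocks]
    simp

theorem PI_length_nextS (I : ℕ × ℕ × ℕ × List Bool) (S : List Bool) :
    (nextS I S).length ≤ S.length + I.2.2.2.length := by
  unfold nextS
  split_ifs <;> simp only [List.length_append, List.length_take, List.length_drop] <;> omega

theorem PI_inv (M : ℕ) (π : List (ℕ × ℕ × ℕ × List Bool)) (b : ℕ) (S : List Bool)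
    (acc : List (ℕ × List Bool × (ℕ × ℕ × ℕ × List Bool)))
    (hb : b + π.length ≤ M) (hS : S.length + sz π ≤ M) (hacc : acc.length + π.length ≤ M)
    (he : ∀ e ∈ acc, e.1 ≤ M ∧ e.2.1.length ≤ M ∧ sz e.2.2 ≤ M) :
    (π.foldl PI_step (b, S, acc)).1 ≤ M ∧ (π.foldl PI_step (b, S, acc)).2.1.length ≤ M ∧
      (π.foldl PI_step (b, S, acc)).2.2.length ≤ M ∧
      ∀ e ∈ (π.foldl PI_step (b, S, acc)).2.2, e.1 ≤ M ∧ e.2.1.length ≤ M ∧ sz e.2.2 ≤ M := by
  induction π generalizing b S acc with
  | nil =>
    simp only [List.length_nil, Nat.add_zero] at hb hacc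
    exact ⟨hb, by simp only [List.foldl_nil]; omega, hacc, he⟩
  | cons I π ih =>
    rw [List.foldl_cons, PI_step]
    simp only [List.length_cons, sz_cons] at hb hS hacc
    have h1 := PI_length_nextS I S
    have h2 : I.2.2.2.length ≤ sz I := by
      have := length_le_sz I.2.2.2
      simp only [sz_pair]
      omega
    refine ih _ _ _ (by omega) (by simp only; omega) (by simp only [List.length_cons]; omega) ?_
    intro e hmem
    rcases List.mem_cons.1 hmem with rfl | hmem
    · exact ⟨by simp only; omega, by simp only; omega, by simp only; omega⟩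
    · exact he e hmem

theorem PI_sz_bools (S : List Bool) : sz S ≤ 1 + S.length * 4 :=
  sz_list_le S 3 fun b _ => sz_bool_le b

theorem PT_blocks : PT (fun π : List (ℕ × ℕ × ℕ × List Bool) => blocks 0 [] π) := by
  have h : PT (fun π : List (ℕ × ℕ × ℕ × List Bool) =>
      (π.foldl PI_step (0, [], [])).2.2.reverse) := by
    refine PT.reverse (PT.snd' (PT.snd' (PT.foldl (f := fun _ s I => PI_step s I) ?_ PT.id
      (PT.const _) (6 * Polynomial.X + 6 + Polynomial.X * (7 * Polynomial.X + 8)) ?_)))
    · unfold PI_step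
      fun_prop
    · intro π i _
      have h1 := sz_take_le π i
      have h2 := length_le_sz (π.take i)
      obtain ⟨a1, a2, a3, a4⟩ := PI_inv (sz π) (π.take i) 0 [] [] (by omega)
        (by simpa using h1) (by simp only [List.length_nil]; omega) (by simp)
      have hl := PI_sz_bools ((π.take i).foldl PI_step (0, [], [])).2.1
      have hacc := sz_list_le ((π.take i).foldl PI_step (0, [], [])).2.2 (7 * sz π + 4)
        (by
          intro e he
          obtain ⟨b1, b2, b3⟩ := a4 e he
          have h3 := PI_sz_bools e.2.1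
          rw [sz_pair, sz_pair e.2, sz_nat]
          omega)
      simp only [Polynomial.eval_add, Polynomial.eval_mul, Polynomial.eval_ofNat,
        Polynomial.eval_X]
      rw [sz_pair, sz_pair (Prod.snd _), sz_nat]
      have h5 : (((π.take i).foldl PI_step (0, [], [])).2.2).length * (1 + (7 * sz π + 4)) ≤
          sz π * (7 * sz π + 8) :=
        Nat.mul_le_mul a3 (by omega)
      change 1 + (2 * ((π.take i).foldl PI_step (0, [], [])).1 + 1) +
        (1 + sz ((π.take i).foldl PI_step (0, [], [])).2.1 +
          sz ((π.take i).foldl PI_step (0, [], [])).2.2) ≤ _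
      omega
  refine PT.congr h fun π => ?_
  rw [PI_foldl]
  simp

@[fun_prop]
theorem PI_pres {α : Type} [Enc α] {t p W l k e : α → ℕ} (ht : PT t) (hp : PT p) (hW : PT W)
    (hl : PT l) (hk : PT k) (he : PT e) :
    PT (fun x => pres (t x) (p x) (W x) (l x) (k x) (e x)) := by
  unfold pres
  fun_prop

@[fun_prop]
theorem PI_has {α : Type} [Enc α] {t p W l k : α → ℕ} (ht : PT t) (hp : PT p) (hW : PT W)
    (hl : PT l) (hk : PT k) : PT (fun x => has (t x) (p x) (W x) (l x) (k x)) := by
  unfold has
  fun_prop

@[fun_prop]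
theorem PI_tgt {α : Type} [Enc α] {t p n l k : α → ℕ} (ht : PT t) (hp : PT p) (hn : PT n)
    (hl : PT l) (hk : PT k) : PT (fun x => tgt (t x) (p x) (n x) (l x) (k x)) := by
  unfold tgt
  fun_prop

@[fun_prop]
theorem PI_sgn {α : Type} [Enc α] {t p l k : α → ℕ} {S : α → List Bool} (ht : PT t) (hp : PT p)
    (hS : PT S) (hl : PT l) (hk : PT k) : PT (fun x => sgn (t x) (p x) (S x) (l x) (k x)) := by
  unfold sgn
  fun_prop

theorem PT_bV {α : Type} [Enc α] {b : α → ℕ} {S : α → List Bool}
    {I : α → ℕ × ℕ × ℕ × List Bool} (hb : PT b) (hS : PT S) (hI : PT I) :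
    PT (fun x => bV (b x) (S x) (I x)) := by
  unfold bV
  fun_prop

theorem PT_bP {α : Type} [Enc α] {b : α → ℕ} {S : α → List Bool}
    {I : α → ℕ × ℕ × ℕ × List Bool} (hb : PT b) (hS : PT S) (hI : PT I) :
    PT (fun x => bP (b x) (S x) (I x)) := by
  unfold bP
  fun_prop

theorem PI_bX {α : Type} [Enc α] {b : α → ℕ}
    {I : α → ℕ × ℕ × ℕ × List Bool} (hb : PT b) (hI : PT I) :
    PT (fun x => bX (b x) (I x)) := by
  unfold bX
  fun_prop

theorem PT_bE {α : Type} [Enc α] {b : α → ℕ} {S : α → List Bool}
    {I : α → ℕ × ℕ × ℕ × List Bool} (hb : PT b) (hS : PT S) (hI : PT I) :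
    PT (fun x => bE (b x) (S x) (I x)) := by
  unfold bE
  refine PT.append (PT.map ?_ (PT_bP hb hS hI)) (PI_bX hb hI)
  fun_prop

end Pool.Agent.H77.SG
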