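import Pool.Agent.H77.SG.Heights

/-!
# Validity of the instance given by vertices, edges and obstacles

PROOF. Write `I = mkInst V E O`. `nm` is injective (`Nat.pair` is). The list of neighbours of the
vertex `v` consists of the right ends of the edges with left end `v` (in the order of `E`) and of
the left ends of the edges with right end `v` (at most one by `indeg`). So `I.Nb (nm u) (nm v)` iff
`(u, v) ∈ E` or `(v, u) ∈ E` (use `ends` for the vertex to be in `V`). No repetitions: two edges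
with the same left end have different right ends (`edges`: `E` has no repetitions), and a right end
is never a left end of another edge at the same vertex, by `right` (the lines increase). Forest:
suppose there is a cycle; take a vertex `v` of the cycle on a line with the largest number; its two
neighbours on the cycle are different and both are on lines with a number at most that of `v`, hence
(`right`) they are left ends of edges with right end `v`, which contradicts `indeg`. (Mathlib: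
`SimpleGraph.IsAcyclic`, `SimpleGraph.Walk.IsCycle`, `SimpleGraph.Walk.rotate`; or use induction
on a finite list of edges, or `SimpleGraph.isAcyclic_iff_forall_edge_isBridge`.)
-/

set_option autoImplicit false

namespace Pool.Agent.H77.SG

theorem nm_injective : Function.Injective nm := by
  intro u v h
  unfold nm at h
  rw [Nat.pair_eq_pair, Nat.pair_eq_pair] at h
  obtain ⟨h1, h2, h3⟩ := h
  exact Prod.ext h1 (Prod.ext h2 h3)

theorem prea_has {V : List ((ℕ × ℕ × ℕ) × Seg)} {E : List ((ℕ × ℕ × ℕ) × (ℕ × ℕ × ℕ))}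
    (O : List Seg) (n : ℕ) (s : Seg) (r : List ℕ) (h : (mkInst V E O).Has n s r) :
    ∃ x ∈ V, n = nm x.1 ∧
      r = ((E.filter fun e => decide (nm e.1 = nm x.1)).map fun e => nm e.2) ++
        ((E.filter fun e => decide (nm e.2 = nm x.1)).map fun e => nm e.1) := by
  unfold Inst.Has mkInst at h
  rw [List.mem_map] at h
  obtain ⟨x, hx, h1⟩ := h
  rw [Prod.mk.injEq, Prod.mk.injEq] at h1
  exact ⟨x, hx, h1.1.symm, h1.2.2.symm⟩

theorem prea_has2 {V : List ((ℕ × ℕ × ℕ) × Seg)} {E : List ((ℕ × ℕ × ℕ) × (ℕ × ℕ × ℕ))}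
    (O : List Seg) (x : (ℕ × ℕ × ℕ) × Seg) (hx : x ∈ V) : (mkInst V E O).Has (nm x.1) x.2
      (((E.filter fun e => decide (nm e.1 = nm x.1)).map fun e => nm e.2) ++
        ((E.filter fun e => decide (nm e.2 = nm x.1)).map fun e => nm e.1)) := by
  unfold Inst.Has mkInst
  rw [List.mem_map]
  exact ⟨x, hx, rfl⟩

theorem prea_mem {E : List ((ℕ × ℕ × ℕ) × (ℕ × ℕ × ℕ))} (u : ℕ × ℕ × ℕ) (n : ℕ) :
    n ∈ ((E.filter fun e => decide (nm e.1 = nm u)).map fun e => nm e.2) ++
        ((E.filter fun e => decide (nm e.2 = nm u)).map fun e => nm e.1) ↔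
      ∃ v, n = nm v ∧ ((u, v) ∈ E ∨ (v, u) ∈ E) := by
  rw [List.mem_append, List.mem_map, List.mem_map]
  constructor
  · rintro (⟨e, he, h⟩ | ⟨e, he, h⟩)
    · rw [List.mem_filter, decide_eq_true_eq] at he
      refine ⟨e.2, h.symm, Or.inl ?_⟩
      rw [← nm_injective he.2]
      exact he.1
    · rw [List.mem_filter, decide_eq_true_eq] at he
      refine ⟨e.1, h.symm, Or.inr ?_⟩
      rw [← nm_injective he.2]
      exact he.1
  · rintro ⟨v, rfl, h | h⟩
    · refine Or.inl ⟨(u, v), ?_, rfl⟩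
      rw [List.mem_filter, decide_eq_true_eq]
      exact ⟨h, rfl⟩
    · refine Or.inr ⟨(v, u), ?_, rfl⟩
      rw [List.mem_filter, decide_eq_true_eq]
      exact ⟨h, rfl⟩

theorem mkInst_nb {V : List ((ℕ × ℕ × ℕ) × Seg)} {E : List ((ℕ × ℕ × ℕ) × (ℕ × ℕ × ℕ))}
    (hG : Good V E) (O : List Seg) (u v : ℕ × ℕ × ℕ) :
    (mkInst V E O).Nb (nm u) (nm v) ↔ (u, v) ∈ E ∨ (v, u) ∈ E := by
  constructor
  · rintro ⟨s, r, h1, h2⟩
    obtain ⟨x, hx, h3, h4⟩ := prea_has O _ _ _ h1
    rw [h4, prea_mem] at h2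
    obtain ⟨w, h5, h6⟩ := h2
    rw [nm_injective h3, nm_injective h5]
    exact h6
  · intro h
    have h1 : ∃ x ∈ V, x.1 = u := by
      rcases h with h | h
      · exact (hG.ends _ h).1
      · exact (hG.ends _ h).2
    obtain ⟨x, hx, rfl⟩ := h1
    refine ⟨x.2, _, prea_has2 O x hx, ?_⟩
    rw [prea_mem]
    exact ⟨v, rfl, h⟩

theorem prea_nb {V : List ((ℕ × ℕ × ℕ) × Seg)} {E : List ((ℕ × ℕ × ℕ) × (ℕ × ℕ × ℕ))}
    (O : List Seg) (m n : ℕ) (h : (mkInst V E O).Nb m n) :
    ∃ u v, m = nm u ∧ n = nm v ∧ ((u, v) ∈ E ∨ (v, u) ∈ E) := by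
  obtain ⟨s, r, h1, h2⟩ := h
  obtain ⟨x, hx, h3, h4⟩ := prea_has O _ _ _ h1
  rw [h4, prea_mem] at h2
  obtain ⟨w, h5, h6⟩ := h2
  exact ⟨x.1, w, h3, h5, h6⟩

theorem prea_irrefl {V : List ((ℕ × ℕ × ℕ) × Seg)} {E : List ((ℕ × ℕ × ℕ) × (ℕ × ℕ × ℕ))}
    (hG : Good V E) (O : List Seg) (n : ℕ) : ¬ (mkInst V E O).Nb n n := by
  intro h
  obtain ⟨u, v, h1, h2, h3⟩ := prea_nb O _ _ h
  have h4 : u = v := nm_injective (h1.symm.trans h2)
  subst h4
  have h5 : (u, u) ∈ E := by
    rcases h3 with h | h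
    · exact h
    · exact h
  exact lt_irrefl _ (hG.right _ h5).1

theorem prea_symm {V : List ((ℕ × ℕ × ℕ) × Seg)} {E : List ((ℕ × ℕ × ℕ) × (ℕ × ℕ × ℕ))}
    (hG : Good V E) (O : List Seg) (m n : ℕ) (h : (mkInst V E O).Nb m n) :
    (mkInst V E O).Nb n m := by
  obtain ⟨u, v, rfl, rfl, h3⟩ := prea_nb O _ _ h
  rw [mkInst_nb hG]
  exact h3.symm

theorem prea_adj {V : List ((ℕ × ℕ × ℕ) × Seg)} {E : List ((ℕ × ℕ × ℕ) × (ℕ × ℕ × ℕ))}
    (hG : Good V E) (O : List Seg) (m n : ℕ) (h : (mkInst V E O).graph.Adj m n) :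
    ∃ u v, m = nm u ∧ n = nm v ∧ ((u, v) ∈ E ∨ (v, u) ∈ E) := by
  unfold Inst.graph at h
  rw [SimpleGraph.fromRel_adj] at h
  rcases h.2 with h | h
  · exact prea_nb O _ _ h
  · exact prea_nb O _ _ (prea_symm hG O _ _ h)

theorem prea_back {V : List ((ℕ × ℕ × ℕ) × Seg)} {E : List ((ℕ × ℕ × ℕ) × (ℕ × ℕ × ℕ))}
    (hG : Good V E) (O : List Seg) (m n : ℕ) (h : (mkInst V E O).graph.Adj m n)
    (hl : (Nat.unpair n).1 ≤ (Nat.unpair m).1) :
    ∃ u v, m = nm u ∧ n = nm v ∧ (v, u) ∈ E := by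
  obtain ⟨u, v, rfl, rfl, h3⟩ := prea_adj hG O _ _ h
  refine ⟨u, v, rfl, rfl, ?_⟩
  rcases h3 with h3 | h3
  · exfalso
    have h4 := (hG.right _ h3).1
    unfold nm at hl
    rw [Nat.unpair_pair, Nat.unpair_pair] at hl
    exact absurd h4 (not_lt.2 hl)
  · exact h3

theorem mkInst_valid {V : List ((ℕ × ℕ × ℕ) × Seg)} {E : List ((ℕ × ℕ × ℕ) × (ℕ × ℕ × ℕ))}
    (hG : Good V E) (O : List Seg) : (mkInst V E O).Valid := by
  refine ⟨?_, ?_, prea_irrefl hG O, prea_symm hG O, ?_⟩
  · have h1 : (mkInst V E O).verts.map (fun x => x.1) = (V.map fun x => x.1).map nm := by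
      unfold mkInst
      rw [List.map_map, List.map_map]
      rfl
    rw [h1]
    exact hG.names.map nm_injective
  · intro n s r h
    obtain ⟨x, hx, h3, rfl⟩ := prea_has O _ _ _ h
    rw [List.nodup_append']
    refine ⟨?_, ?_, ?_⟩
    · refine List.Nodup.map_on ?_ (hG.edges.filter _)
      intro e he f hf hef
      rw [List.mem_filter, decide_eq_true_eq] at he hf
      exact hG.indeg _ he.1 _ hf.1 (nm_injective hef)
    · refine List.Nodup.map_on ?_ (hG.edges.filter _)
      intro e he f hf hef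
      rw [List.mem_filter, decide_eq_true_eq] at he hf
      exact hG.indeg _ he.1 _ hf.1 ((nm_injective he.2).trans (nm_injective hf.2).symm)
    · intro a ha hb
      rw [List.mem_map] at ha hb
      obtain ⟨e, he, h5⟩ := ha
      obtain ⟨f, hf, h6⟩ := hb
      rw [List.mem_filter, decide_eq_true_eq] at he hf
      have h7 : e.2 = f.1 := nm_injective (h5.trans h6.symm)
      have h8 := (hG.right _ he.1).1
      have h9 := (hG.right _ hf.1).1
      rw [nm_injective he.2, h7] at h8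
      rw [nm_injective hf.2] at h9
      omega
  · intro a c hc
    obtain ⟨v, hv, hmax⟩ := c.support.toFinset.exists_max_image (fun n => (Nat.unpair n).1)
      ⟨a, by rw [List.mem_toFinset]; exact c.start_mem_support⟩
    rw [List.mem_toFinset] at hv
    obtain ⟨d, hd⟩ : ∃ d : (mkInst V E O).graph.Walk v v, d = c.rotate v hv := ⟨_, rfl⟩
    have hdc : d.IsCycle := by
      rw [hd, SimpleGraph.Walk.isCycle_rotate]
      exact hc
    have hmax' : ∀ n ∈ d.support, (Nat.unpair n).1 ≤ (Nat.unpair v).1 := by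
      intro n hn
      apply hmax
      rw [List.mem_toFinset]
      rw [hd, SimpleGraph.Walk.mem_support_rotate_iff] at hn
      exact hn
    have hn := hdc.not_nil
    obtain ⟨u1, v1, h1, h2, h3⟩ := prea_back hG O _ _ (d.adj_snd hn)
      (hmax' _ (d.getVert_mem_support _))
    obtain ⟨u2, v2, h4, h5, h6⟩ := prea_back hG O _ _ (d.adj_penultimate hn).symm
      (hmax' _ (d.getVert_mem_support _))
    have h7 : u1 = u2 := nm_injective (h1.symm.trans h4)
    subst h7
    have h8 := hG.indeg _ h3 _ h6 rfl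
    rw [Prod.mk.injEq] at h8
    apply hdc.snd_ne_penultimate
    rw [h2, h5, h8.1]

end Pool.Agent.H77.SG
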