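import Mathlib
import Pool.Agent.H78.NP.Defs
import Pool.Agent.H79.PT.IntArith

/-!
# Straight-line drawings of plane forests on segments with obstacles

The decision problem, its two restrictions (all segments open, all segments closed), the
existential theory of the reals and hardness under polynomial-time many-one reductions.
-/

set_option autoImplicit false

namespace Pool.Agent.H77.SG

open Pool.Agent.H79.Cx Pool.Agent.H78.NP

/-! ### The existential theory of the reals -/

/-- Terms. -/
inductive Tm where
  | var : ℕ → Tm
  | zero : Tm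
  | one : Tm
  | add : Tm → Tm → Tm
  | mul : Tm → Tm → Tm
  | neg : Tm → Tm

/-- The value of a term. -/
def Tm.val (v : ℕ → ℝ) : Tm → ℝ
  | .var i => v i
  | .zero => 0
  | .one => 1
  | .add s t => s.val v + t.val v
  | .mul s t => s.val v * t.val v
  | .neg s => - s.val v

/-- Formulas without quantifiers. -/
inductive Fm where
  | eq : Tm → Tm → Fm
  | lt : Tm → Tm → Fm
  | not : Fm → Fm
  | and : Fm → Fm → Fm
  | or : Fm → Fm → Fm

/-- Truth of a formula for given values of the variables. -/
def Fm.Holds (v : ℕ → ℝ) : Fm → Prop
  | .eq s t => s.val v = t.val v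
  | .lt s t => s.val v < t.val v
  | .not φ => ¬ φ.Holds v
  | .and φ ψ => φ.Holds v ∧ ψ.Holds v
  | .or φ ψ => φ.Holds v ∨ ψ.Holds v

/-- Truth of the existential closure of a formula in the field of real numbers. -/
def Fm.True (φ : Fm) : Prop := ∃ v : ℕ → ℝ, φ.Holds v

/-- A term in prefix form: a list of symbols. The symbol `(0, i)` stands for the variable number
`i`, the other symbols are `(k, 0)` with `1 ≤ k ≤ 5`. -/
def Tm.toks : Tm → List (ℕ × ℕ)
  | .var i => [(0, i)]
  | .zero => [(1, 0)]
  | .one => [(2, 0)]
  | .add s t => (3, 0) :: (s.toks ++ t.toks)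
  | .mul s t => (4, 0) :: (s.toks ++ t.toks)
  | .neg s => (5, 0) :: s.toks

/-- A formula in prefix form. -/
def Fm.toks : Fm → List (ℕ × ℕ)
  | .eq s t => (6, 0) :: (s.toks ++ t.toks)
  | .lt s t => (7, 0) :: (s.toks ++ t.toks)
  | .not φ => (8, 0) :: φ.toks
  | .and φ ψ => (9, 0) :: (φ.toks ++ ψ.toks)
  | .or φ ψ => (10, 0) :: (φ.toks ++ ψ.toks)

/-- The word which codes a formula. -/
def encFm (φ : Fm) : List Bool := cd φ.toks

/-- The class of the languages which reduce in polynomial time to the existential theory of the
reals. -/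
def InER (L : Set (List Bool)) : Prop := Reduces L encFm Fm.True

/-- Hardness of a decision problem for this class. -/
def ERHard {α Γ : Type} (ea : α → List Γ) (Q : α → Prop) : Prop :=
  ∀ L : Set (List Bool), InER L → Reduces L ea Q

/-! ### Instances -/

/-- A segment in the plane with rational end points, designated open or closed. -/
structure Seg where
  /-- the first end point -/
  a : ℚ × ℚ
  /-- the second end point -/
  b : ℚ × ℚ
  /-- whether the segment is open -/
  isOpen : Bool

/-- A rational point as a point of the plane. -/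
def toR (p : ℚ × ℚ) : ℝ × ℝ := ((p.1 : ℝ), (p.2 : ℝ))

/-- The point set of a segment: the end points are excluded if it is open and they are distinct;
if the end points coincide it is a single point. -/
def Seg.pts (s : Seg) : Set (ℝ × ℝ) :=
  if s.isOpen = true then openSegment ℝ (toR s.a) (toR s.b) else segment ℝ (toR s.a) (toR s.b)

/-- An instance: the list of the vertices, each one with its name, its segment and the list of its
neighbours in counterclockwise order, and the list of the obstacles. -/
structure Inst where
  /-- the vertices -/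
  verts : List (ℕ × Seg × List ℕ)
  /-- the obstacles -/
  obst : List Seg

/-- The vertex `v` has the segment `s` and the list `r` of neighbours. -/
def Inst.Has (I : Inst) (v : ℕ) (s : Seg) (r : List ℕ) : Prop := (v, s, r) ∈ I.verts

/-- `v` is a vertex. -/
def Inst.IsV (I : Inst) (v : ℕ) : Prop := ∃ s r, I.Has v s r

/-- `u` is listed as a neighbour of `v`. -/
def Inst.Nb (I : Inst) (v u : ℕ) : Prop := ∃ s r, I.Has v s r ∧ u ∈ r

/-- The graph of an instance. -/
def Inst.graph (I : Inst) : SimpleGraph ℕ := SimpleGraph.fromRel I.Nb

/-- Well-formed instances: distinct vertices have distinct names, the lists of neighbours have no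
repetitions and define a symmetric irreflexive relation on the vertices, and the graph is a
forest. (A forest with a cyclic order of the neighbours of every vertex is a plane graph.) -/
structure Inst.Valid (I : Inst) : Prop where
  names : (I.verts.map fun x => x.1).Nodup
  nodup : ∀ v s r, I.Has v s r → r.Nodup
  irrefl : ∀ v, ¬ I.Nb v v
  symm : ∀ v u, I.Nb v u → I.Nb u v
  forest : I.graph.IsAcyclic

/-- The vectors in the list are in counterclockwise order around the origin: they have polar angles
`θ 0 < θ 1 < ⋯ < θ 0 + 2π`. -/
def Ccw (l : List (ℝ × ℝ)) : Prop :=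
  ∃ (θ ρ : ℕ → ℝ), (∀ i (hi : i < l.length), 0 < ρ i ∧
      l[i] = (ρ i * Real.cos (θ i), ρ i * Real.sin (θ i)) ∧ θ i < θ 0 + 2 * Real.pi) ∧
    ∀ i j, i < j → j < l.length → θ i < θ j

/-- The drawing with the vertex `v` at the point `P v` is a straight-line drawing without crossings
which induces the given cyclic orders of the neighbours and has every vertex on its segment and no
edge (a closed segment) meeting an obstacle. -/
structure Inst.Drawing (I : Inst) (P : ℕ → ℝ × ℝ) : Prop where
  onSeg : ∀ v s r, I.Has v s r → P v ∈ s.pts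
  inj : ∀ u v, I.IsV u → I.IsV v → P u = P v → u = v
  vertexEdge : ∀ u v w, I.Nb u v → I.IsV w → P w ∈ segment ℝ (P u) (P v) → w = u ∨ w = v
  edgeEdge : ∀ u v x y, I.Nb u v → I.Nb x y → ¬ (u = x ∧ v = y) → ¬ (u = y ∧ v = x) →
    ∀ z ∈ segment ℝ (P u) (P v), z ∈ segment ℝ (P x) (P y) →
      ∃ w, (w = u ∨ w = v) ∧ (w = x ∨ w = y) ∧ z = P w
  obstacle : ∀ u v, I.Nb u v → ∀ s ∈ I.obst, Disjoint (segment ℝ (P u) (P v)) s.pts
  order : ∀ v s r, I.Has v s r → Ccw (r.map fun u => P u - P v)

/-- Instances which have a drawing. -/
def Inst.Yes (I : Inst) : Prop := ∃ P, I.Drawing P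

/-- All segments of the instance are open. -/
def Inst.AllOpen (I : Inst) : Prop :=
  (∀ v s r, I.Has v s r → s.isOpen = true) ∧ ∀ s ∈ I.obst, s.isOpen = true

/-- All segments of the instance are closed. -/
def Inst.AllClosed (I : Inst) : Prop :=
  (∀ v s r, I.Has v s r → s.isOpen = false) ∧ ∀ s ∈ I.obst, s.isOpen = false

/-! ### Encoding of the instances -/

/-- A rational number is represented by its numerator and its denominator (binary integers). -/
def repQ (q : ℚ) : ℤ × ℤ := (q.num, (q.den : ℤ))

/-- A segment is represented by its end points and the designation. -/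
def repSeg (s : Seg) : ((ℤ × ℤ) × ℤ × ℤ) × ((ℤ × ℤ) × ℤ × ℤ) × Bool :=
  ((repQ s.a.1, repQ s.a.2), (repQ s.b.1, repQ s.b.2), s.isOpen)

/-- The data which represent an instance. -/
def repInst (I : Inst) : List (ℕ × (((ℤ × ℤ) × ℤ × ℤ) × ((ℤ × ℤ) × ℤ × ℤ) × Bool) × List ℕ) ×
    List (((ℤ × ℤ) × ℤ × ℤ) × ((ℤ × ℤ) × ℤ × ℤ) × Bool) :=
  (I.verts.map fun x => (x.1, repSeg x.2.1, x.2.2), I.obst.map repSeg)

/-- The word which codes an instance. -/
def encInst (I : Inst) : List Bool := cd (repInst I)

/-- The problem restricted to instances all of whose segments are open. -/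
def OpenProblem (I : Inst) : Prop := I.Valid ∧ I.AllOpen ∧ I.Yes

/-- The problem restricted to instances all of whose segments are closed. -/
def ClosedProblem (I : Inst) : Prop := I.Valid ∧ I.AllClosed ∧ I.Yes

end Pool.Agent.H77.SG
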