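import Pool.Agent.H77.SG.Heights

/-!
# Programs: monotonicity and openness

PROOFS. By induction on the program, with `Rel` split by the kind (`List.forall₂_append_left_iff`
or the like, `List.Forall₂`). For `Run_mono` the new front of the better side is obtained by the same
instruction (with the same new value); the gates are monotone: kinds `3` and `6` consume minus wires
and increase with them, kinds `4` and `5` consume plus wires and are preserved if these decrease, the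
plus wire of kind `6` is on the small side (`0 ≤` is needed for the product). For `Run_open` use the openness of the strict inequality of the
gate and the minimum of the two positive numbers.
-/

set_option autoImplicit false

namespace Pool.Agent.H77.SG

/-- The wires of `F` are at least as good as those of `F'`: minus wires are larger, plus wires are
smaller. -/
def Better (F F' : List (ℝ × Bool)) : Prop :=
  List.Forall₂ (fun a c : ℝ × Bool => a.2 = c.2 ∧ (a.2 = true → a.1 ≤ c.1) ∧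
    (a.2 = false → c.1 ≤ a.1)) F F'

/-- The wires of `F` and `F'` have the same signs and values at distance less than `δ`. -/
def Near (δ : ℝ) (F F' : List (ℝ × Bool)) : Prop :=
  List.Forall₂ (fun a c : ℝ × Bool => a.2 = c.2 ∧ |a.1 - c.1| < δ) F F'

theorem runM_splitR {α β : Type} {R : α → β → Prop} {F : List α} {A' B' : List β}
    (h : List.Forall₂ R F (A' ++ B')) :
    ∃ A B, F = A ++ B ∧ List.Forall₂ R A A' ∧ List.Forall₂ R B B' :=
  ⟨F.take A'.length, F.drop A'.length, (List.take_append_drop _ _).symm,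
    List.forall₂_take_append _ _ _ h, List.forall₂_drop_append _ _ _ h⟩

theorem runM_splitL {α β : Type} {R : α → β → Prop} {F' : List β} {A B : List α}
    (h : List.Forall₂ R (A ++ B) F') :
    ∃ A' B', F' = A' ++ B' ∧ List.Forall₂ R A A' ∧ List.Forall₂ R B B' := by
  obtain ⟨A', B', h1, h2, h3⟩ := runM_splitR (R := flip R) h.flip
  exact ⟨A', B', h1, h2.flip, h3.flip⟩

theorem runM_refl {α : Type} {R : α → α → Prop} (h : ∀ a, R a a) (l : List α) :
    List.Forall₂ R l l := by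
  induction l with
  | nil => exact List.Forall₂.nil
  | cons a l ih => exact List.Forall₂.cons (h a) ih

theorem runM_append {α β : Type} {R : α → β → Prop} {A B : List α} {A' B' : List β}
    (h : List.Forall₂ R A A') (h' : List.Forall₂ R B B') :
    List.Forall₂ R (A ++ B) (A' ++ B') := List.rel_append h h'

theorem runM_mono1 {I : ℕ × ℕ × ℕ × List Bool} {F F' F1' : List (ℝ × Bool)} (hb : Better F F')
    (h0 : ∀ a ∈ F', 0 ≤ a.1) (h : Rel I F' F1') :
    ∃ F1, Rel I F F1 ∧ Better F1 F1' ∧ ∀ a ∈ F1', 0 ≤ a.1 := by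
  have hrefl : ∀ a : ℝ × Bool, a.2 = a.2 ∧ (a.2 = true → a.1 ≤ a.1) ∧
      (a.2 = false → a.1 ≤ a.1) := fun a => ⟨rfl, fun _ => le_refl _, fun _ => le_refl _⟩
  unfold Better at hb ⊢
  unfold Rel at h ⊢
  split_ifs at h ⊢ with k0 k1 k2 k3 k4 k5
  · obtain ⟨A', B', v, rfl, hA, hv0, hv1, rfl⟩ := h
    obtain ⟨A, B, rfl, hAA, hBB⟩ := runM_splitR hb
    refine ⟨_, ⟨A, B, v, rfl, hAA.length_eq.trans hA, hv0, hv1, rfl⟩,
      runM_append (runM_append hAA (runM_refl hrefl _)) hBB, ?_⟩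
    intro a ha
    simp only [List.mem_append, List.mem_map] at ha h0
    rcases ha with (ha | ⟨s, -, rfl⟩) | ha
    · exact h0 a (Or.inl ha)
    · exact hv0.le
    · exact h0 a (Or.inr ha)
  · obtain ⟨A', B', rfl, hA, rfl⟩ := h
    obtain ⟨A, B, rfl, hAA, hBB⟩ := runM_splitR hb
    refine ⟨_, ⟨A, B, rfl, hAA.length_eq.trans hA, rfl⟩,
      runM_append (runM_append hAA (runM_refl hrefl _)) hBB, ?_⟩
    intro a ha
    simp only [List.mem_append, List.mem_map] at ha h0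
    rcases ha with (ha | ⟨s, -, rfl⟩) | ha
    · exact h0 a (Or.inl ha)
    · simp only
      positivity
    · exact h0 a (Or.inr ha)
  · obtain ⟨A', B', a', rfl, hA, rfl⟩ := h
    obtain ⟨A, B, rfl, hAA, hBB⟩ := runM_splitR hb
    obtain ⟨a, B1, ha, hB1, rfl⟩ := List.forall₂_cons_right_iff.1 hBB
    refine ⟨_, ⟨A, B1, a, rfl, hAA.length_eq.trans hA, rfl⟩, runM_append hAA hB1, ?_⟩
    intro c hc
    apply h0
    simp only [List.mem_append, List.mem_cons] at hc ⊢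
    tauto
  · obtain ⟨A', B', z', x', y', rfl, hA, rfl, hg⟩ := h
    obtain ⟨A, B, rfl, hAA, hBB⟩ := runM_splitR hb
    obtain ⟨⟨z, sz⟩, B1, ⟨hz, -, hz2⟩, hB1, rfl⟩ := List.forall₂_cons_right_iff.1 hBB
    obtain ⟨⟨x, sx⟩, B2, ⟨hx, -, hx2⟩, hB2, rfl⟩ := List.forall₂_cons_right_iff.1 hB1
    obtain ⟨⟨y, sy⟩, B3, ⟨hy, -, hy2⟩, hB3, rfl⟩ := List.forall₂_cons_right_iff.1 hB2
    simp only at hz hx hy hz2 hx2 hy2
    subst hz hx hy
    refine ⟨_, ⟨A, B3, z, x, y, rfl, hAA.length_eq.trans hA, rfl, ?_⟩,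
      runM_append hAA hB3, ?_⟩
    · have := hz2 rfl
      have := hx2 rfl
      have := hy2 rfl
      linarith
    · intro c hc
      apply h0
      simp only [List.mem_append, List.mem_cons] at hc ⊢
      tauto
  · obtain ⟨A', B', z', x', y', rfl, hA, rfl, hg⟩ := h
    obtain ⟨A, B, rfl, hAA, hBB⟩ := runM_splitR hb
    obtain ⟨⟨z, sz⟩, B1, ⟨hz, hz2, -⟩, hB1, rfl⟩ := List.forall₂_cons_right_iff.1 hBB
    obtain ⟨⟨x, sx⟩, B2, ⟨hx, hx2, -⟩, hB2, rfl⟩ := List.forall₂_cons_right_iff.1 hB1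
    obtain ⟨⟨y, sy⟩, B3, ⟨hy, hy2, -⟩, hB3, rfl⟩ := List.forall₂_cons_right_iff.1 hB2
    simp only at hz hx hy hz2 hx2 hy2
    subst hz hx hy
    refine ⟨_, ⟨A, B3, z, x, y, rfl, hAA.length_eq.trans hA, rfl, ?_⟩,
      runM_append hAA hB3, ?_⟩
    · have := hz2 rfl
      have := hx2 rfl
      have := hy2 rfl
      linarith
    · intro c hc
      apply h0
      simp only [List.mem_append, List.mem_cons] at hc ⊢
      tauto
  · obtain ⟨A', B', x', y', z', rfl, hA, rfl, hg⟩ := h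
    obtain ⟨A, B, rfl, hAA, hBB⟩ := runM_splitR hb
    obtain ⟨⟨x, sx⟩, B1, ⟨hx, hx2, -⟩, hB1, rfl⟩ := List.forall₂_cons_right_iff.1 hBB
    obtain ⟨⟨y, sy⟩, B2, ⟨hy, hy2, -⟩, hB2, rfl⟩ := List.forall₂_cons_right_iff.1 hB1
    obtain ⟨⟨z, sz⟩, B3, ⟨hz, hz2, -⟩, hB3, rfl⟩ := List.forall₂_cons_right_iff.1 hB2
    simp only at hz hx hy hz2 hx2 hy2
    subst hz hx hy
    refine ⟨_, ⟨A, B3, x, y, z, rfl, hAA.length_eq.trans hA, rfl, ?_⟩,
      runM_append hAA hB3, ?_⟩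
    · have := hz2 rfl
      have := hx2 rfl
      have := hy2 rfl
      linarith
    · intro c hc
      apply h0
      simp only [List.mem_append, List.mem_cons] at hc ⊢
      tauto
  · obtain ⟨A', B', w', s', q', rfl, hA, rfl, hg⟩ := h
    obtain ⟨A, B, rfl, hAA, hBB⟩ := runM_splitR hb
    obtain ⟨⟨w, sw⟩, B1, ⟨hw, -, hw2⟩, hB1, rfl⟩ := List.forall₂_cons_right_iff.1 hBB
    obtain ⟨⟨s, ss⟩, B2, ⟨hs, -, hs2⟩, hB2, rfl⟩ := List.forall₂_cons_right_iff.1 hB1
    obtain ⟨⟨q, sq⟩, B3, ⟨hq, hq2, -⟩, hB3, rfl⟩ := List.forall₂_cons_right_iff.1 hB2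
    simp only at hw hs hq hw2 hs2 hq2
    subst hw hs hq
    refine ⟨_, ⟨A, B3, w, s, q, rfl, hAA.length_eq.trans hA, rfl, ?_⟩,
      runM_append hAA hB3, ?_⟩
    · have e1 := hw2 rfl
      have e2 := hs2 rfl
      have e3 := hq2 rfl
      have e4 : 0 ≤ w' := h0 (w', false) (by simp)
      have e5 : 0 ≤ s' := h0 (s', false) (by simp)
      calc q ≤ q' := e3
        _ < s' * w' := hg
        _ ≤ s * w := mul_le_mul e2 e1 e4 (e5.trans e2)
    · intro c hc
      apply h0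
      simp only [List.mem_append, List.mem_cons] at hc ⊢
      tauto

theorem Run_mono {π : List (ℕ × ℕ × ℕ × List Bool)} : ∀ {F F' : List (ℝ × Bool)}, Better F F' →
    (∀ a ∈ F', 0 ≤ a.1) → Run π F' → Run π F := by
  induction π with
  | nil =>
    intro F F' _ _ _
    simp only [Run]
  | cons I π ih =>
    intro F F' hb h0 h
    simp only [Run] at h ⊢
    obtain ⟨F1', h1, h2⟩ := h
    obtain ⟨F1, h3, h4, h5⟩ := runM_mono1 hb h0 h1
    exact ⟨F1, h3, ih h4 h5 h2⟩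

theorem runM_near {δ δ' : ℝ} (h : δ ≤ δ') {F F' : List (ℝ × Bool)}
    (hF : List.Forall₂ (fun a c : ℝ × Bool => a.2 = c.2 ∧ |a.1 - c.1| < δ) F F') :
    List.Forall₂ (fun a c : ℝ × Bool => a.2 = c.2 ∧ |a.1 - c.1| < δ') F F' :=
  hF.imp fun _ _ hh => ⟨hh.1, lt_of_lt_of_le hh.2 h⟩

theorem runM_open1 {I : ℕ × ℕ × ℕ × List Bool} {F F1 : List (ℝ × Bool)} (h : Rel I F F1)
    {η : ℝ} (hη : 0 < η) : ∃ δ > 0, ∀ F', Near δ F F' → ∃ F1', Rel I F' F1' ∧ Near η F1 F1' := by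
  have hrefl : ∀ a : ℝ × Bool, a.2 = a.2 ∧ |a.1 - a.1| < η := fun a =>
    ⟨rfl, by rw [sub_self, abs_zero]; exact hη⟩
  unfold Near
  unfold Rel at h ⊢
  split_ifs at h ⊢ with k0 k1 k2 k3 k4 k5
  · obtain ⟨A, B, v, rfl, hA, hv0, hv1, rfl⟩ := h
    refine ⟨η, hη, fun F' hF' => ?_⟩
    obtain ⟨A', B', rfl, hAA, hBB⟩ := runM_splitL hF'
    exact ⟨_, ⟨A', B', v, rfl, hAA.length_eq.symm.trans hA, hv0, hv1, rfl⟩,
      runM_append (runM_append hAA (runM_refl hrefl _)) hBB⟩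
  · obtain ⟨A, B, rfl, hA, rfl⟩ := h
    refine ⟨η, hη, fun F' hF' => ?_⟩
    obtain ⟨A', B', rfl, hAA, hBB⟩ := runM_splitL hF'
    exact ⟨_, ⟨A', B', rfl, hAA.length_eq.symm.trans hA, rfl⟩,
      runM_append (runM_append hAA (runM_refl hrefl _)) hBB⟩
  · obtain ⟨A, B, a, rfl, hA, rfl⟩ := h
    refine ⟨η, hη, fun F' hF' => ?_⟩
    obtain ⟨A', B', rfl, hAA, hBB⟩ := runM_splitL hF'
    obtain ⟨a', B1, ha, hB1, rfl⟩ := List.forall₂_cons_left_iff.1 hBB
    exact ⟨_, ⟨A', B1, a', rfl, hAA.length_eq.symm.trans hA, rfl⟩, runM_append hAA hB1⟩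
  · obtain ⟨A, B, z, x, y, rfl, hA, rfl, hg⟩ := h
    refine ⟨min η ((x + y + 2 * z - 2) / 4), lt_min hη (by linarith), fun F' hF' => ?_⟩
    obtain ⟨A', B', rfl, hAA, hBB⟩ := runM_splitL hF'
    obtain ⟨⟨z', sz⟩, B1, ⟨hz, hz2⟩, hB1, rfl⟩ := List.forall₂_cons_left_iff.1 hBB
    obtain ⟨⟨x', sx⟩, B2, ⟨hx, hx2⟩, hB2, rfl⟩ := List.forall₂_cons_left_iff.1 hB1
    obtain ⟨⟨y', sy⟩, B3, ⟨hy, hy2⟩, hB3, rfl⟩ := List.forall₂_cons_left_iff.1 hB2
    simp only at hz hx hy hz2 hx2 hy2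
    subst hz hx hy
    refine ⟨_, ⟨A', B3, z', x', y', rfl, hAA.length_eq.symm.trans hA, rfl, ?_⟩,
      runM_near (min_le_left _ _) (runM_append hAA hB3)⟩
    have e1 := abs_lt.1 (lt_of_lt_of_le hz2 (min_le_right _ _))
    have e2 := abs_lt.1 (lt_of_lt_of_le hx2 (min_le_right _ _))
    have e3 := abs_lt.1 (lt_of_lt_of_le hy2 (min_le_right _ _))
    linarith [e1.2, e2.2, e3.2]
  · obtain ⟨A, B, z, x, y, rfl, hA, rfl, hg⟩ := h
    refine ⟨min η ((2 - (x + y + 2 * z)) / 4), lt_min hη (by linarith), fun F' hF' => ?_⟩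
    obtain ⟨A', B', rfl, hAA, hBB⟩ := runM_splitL hF'
    obtain ⟨⟨z', sz⟩, B1, ⟨hz, hz2⟩, hB1, rfl⟩ := List.forall₂_cons_left_iff.1 hBB
    obtain ⟨⟨x', sx⟩, B2, ⟨hx, hx2⟩, hB2, rfl⟩ := List.forall₂_cons_left_iff.1 hB1
    obtain ⟨⟨y', sy⟩, B3, ⟨hy, hy2⟩, hB3, rfl⟩ := List.forall₂_cons_left_iff.1 hB2
    simp only at hz hx hy hz2 hx2 hy2
    subst hz hx hy
    refine ⟨_, ⟨A', B3, z', x', y', rfl, hAA.length_eq.symm.trans hA, rfl, ?_⟩,
      runM_near (min_le_left _ _) (runM_append hAA hB3)⟩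
    have e1 := abs_lt.1 (lt_of_lt_of_le hz2 (min_le_right _ _))
    have e2 := abs_lt.1 (lt_of_lt_of_le hx2 (min_le_right _ _))
    have e3 := abs_lt.1 (lt_of_lt_of_le hy2 (min_le_right _ _))
    linarith [e1.1, e2.1, e3.1]
  · obtain ⟨A, B, x, y, z, rfl, hA, rfl, hg⟩ := h
    refine ⟨min η ((2 - (x + y + 2 * z)) / 4), lt_min hη (by linarith), fun F' hF' => ?_⟩
    obtain ⟨A', B', rfl, hAA, hBB⟩ := runM_splitL hF'
    obtain ⟨⟨x', sx⟩, B1, ⟨hx, hx2⟩, hB1, rfl⟩ := List.forall₂_cons_left_iff.1 hBB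
    obtain ⟨⟨y', sy⟩, B2, ⟨hy, hy2⟩, hB2, rfl⟩ := List.forall₂_cons_left_iff.1 hB1
    obtain ⟨⟨z', sz⟩, B3, ⟨hz, hz2⟩, hB3, rfl⟩ := List.forall₂_cons_left_iff.1 hB2
    simp only at hz hx hy hz2 hx2 hy2
    subst hz hx hy
    refine ⟨_, ⟨A', B3, x', y', z', rfl, hAA.length_eq.symm.trans hA, rfl, ?_⟩,
      runM_near (min_le_left _ _) (runM_append hAA hB3)⟩
    have e1 := abs_lt.1 (lt_of_lt_of_le hz2 (min_le_right _ _))
    have e2 := abs_lt.1 (lt_of_lt_of_le hx2 (min_le_right _ _))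
    have e3 := abs_lt.1 (lt_of_lt_of_le hy2 (min_le_right _ _))
    linarith [e1.1, e2.1, e3.1]
  · obtain ⟨A, B, w, s, q, rfl, hA, rfl, hg⟩ := h
    have hD : 0 < |w| + |s| + 2 := by positivity
    refine ⟨min η (min 1 ((s * w - q) / (|w| + |s| + 2))),
      lt_min hη (lt_min one_pos (div_pos (by linarith) hD)), fun F' hF' => ?_⟩
    obtain ⟨A', B', rfl, hAA, hBB⟩ := runM_splitL hF'
    obtain ⟨⟨w', sw⟩, B1, ⟨hw, hw2⟩, hB1, rfl⟩ := List.forall₂_cons_left_iff.1 hBB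
    obtain ⟨⟨s', ss⟩, B2, ⟨hs, hs2⟩, hB2, rfl⟩ := List.forall₂_cons_left_iff.1 hB1
    obtain ⟨⟨q', sq⟩, B3, ⟨hq, hq2⟩, hB3, rfl⟩ := List.forall₂_cons_left_iff.1 hB2
    simp only at hw hs hq hw2 hs2 hq2
    subst hw hs hq
    refine ⟨_, ⟨A', B3, w', s', q', rfl, hAA.length_eq.symm.trans hA, rfl, ?_⟩,
      runM_near (min_le_left _ _) (runM_append hAA hB3)⟩
    set δ : ℝ := min η (min 1 ((s * w - q) / (|w| + |s| + 2))) with hδ
    have hδ1 : δ ≤ 1 := (min_le_right _ _).trans (min_le_left _ _)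
    have hδ2 : δ * (|w| + |s| + 2) ≤ s * w - q := by
      have : δ ≤ (s * w - q) / (|w| + |s| + 2) := (min_le_right _ _).trans (min_le_right _ _)
      exact (le_div_iff₀ hD).1 this
    have hδ0 : 0 < δ := lt_min hη (lt_min one_pos (div_pos (by linarith) hD))
    have e1 : |s * w - s' * w'| ≤ |s - s'| * |w'| + |s| * |w - w'| := by
      have : s * w - s' * w' = (s - s') * w' + s * (w - w') := by ring
      rw [this]
      refine (abs_add_le _ _).trans ?_
      rw [abs_mul, abs_mul]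
    have e2 : |w'| ≤ |w| + 1 := by
      have : w' = w - (w - w') := by ring
      have h3 := abs_sub w (w - w')
      rw [← this] at h3
      linarith
    have e3 : |s - s'| * |w'| ≤ δ * (|w| + 1) := by
      apply mul_le_mul hs2.le e2 (abs_nonneg _) hδ0.le
    have e4 : |s| * |w - w'| ≤ |s| * δ := by
      gcongr
    have e5 := (abs_lt.1 hq2).1
    have e6 := (abs_le.1 (e1.trans (add_le_add e3 e4))).2
    nlinarith

theorem Run_open {π : List (ℕ × ℕ × ℕ × List Bool)} : ∀ {F : List (ℝ × Bool)}, Run π F →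
    ∃ δ > 0, ∀ F', Near δ F F' → Run π F' := by
  induction π with
  | nil =>
    intro F _
    exact ⟨1, one_pos, fun F' _ => by simp only [Run]⟩
  | cons I π ih =>
    intro F h
    simp only [Run] at h ⊢
    obtain ⟨F1, h1, h2⟩ := h
    obtain ⟨η, hη, h3⟩ := ih h2
    obtain ⟨δ, hδ, h4⟩ := runM_open1 h1 hη
    refine ⟨δ, hδ, fun F' hF' => ?_⟩
    obtain ⟨F1', h5, h6⟩ := h4 F' hF'
    exact ⟨F1', h5, h3 F1' h6⟩

/-- The effect of a program on a front. -/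
def RelL : List (ℕ × ℕ × ℕ × List Bool) → List (ℝ × Bool) → List (ℝ × Bool) → Prop
  | [], F, F' => F = F'
  | I :: π, F, F' => ∃ F₁, Rel I F F₁ ∧ RelL π F₁ F'

theorem Run_append {π π' : List (ℕ × ℕ × ℕ × List Bool)} {F : List (ℝ × Bool)} :
    Run (π ++ π') F ↔ ∃ F', RelL π F F' ∧ Run π' F' := by
  induction π generalizing F with
  | nil =>
    simp only [List.nil_append, RelL]
    constructor
    · intro h
      exact ⟨F, rfl, h⟩
    · rintro ⟨F', rfl, h⟩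
      exact h
  | cons I π ih =>
    simp only [List.cons_append, Run, RelL]
    constructor
    · rintro ⟨F1, h1, h2⟩
      obtain ⟨F', h3, h4⟩ := ih.1 h2
      exact ⟨F', ⟨F1, h1, h3⟩, h4⟩
    · rintro ⟨F', ⟨F1, h1, h3⟩, h4⟩
      exact ⟨F1, h1, ih.2 ⟨F', h3, h4⟩⟩

theorem Run_iff_RelL {π : List (ℕ × ℕ × ℕ × List Bool)} {F : List (ℝ × Bool)} :
    Run π F ↔ ∃ F', RelL π F F' := by
  have h := Run_append (π := π) (π' := []) (F := F)
  rw [List.append_nil] at h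
  rw [h]
  simp only [Run, and_true]

end Pool.Agent.H77.SG
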