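import Pool.Agent.H77.SG.Defs

/-!
# Soundness of the macros of the strict system

PROOFS. `mLE_sound`: with `n, n', r, t` the values of `nF q, nF (q+1), nF (q+2), nF 0`:
`x a + x b < 2 n`, `2 n' < x c + x d`, `n + 1/4 < 2 r`, `2 r < n' + t`, `2 t < 1/2 + ε`, so
`2 n < 2 n' + ε`. `mML_sound`: with `m, p` the values of `nF q, nF (q+1)`: `x a + x b < 2 m`,
`p < x a x b`, `x z + m < p + 3/4 + ε`. `mMU_sound`: with `a', z'` the values of `nF q`, `nF (q + 1)`:
`|x a + a' - 1| < ε`, `|x z + z' - 1| < ε`, `(x z - 1/2) < (x a - 1/2) (x b - 1/2) + ε` and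
`(z' - 1/2) < (a' - 1/2) (x b - 1/2) + ε`; `|x b - 1/2| < 1/2`.
-/

set_option autoImplicit false

namespace Pool.Agent.H77.SG

variable {x : ℕ → ℝ} {ε : ℝ}

theorem smac_CH0 {a b c : ℕ} (h : CH x (0, a, b, c)) : 2 * x c < x a + x b := by
  unfold CH at h
  simpa using h

theorem smac_CH1 {a b c : ℕ} (h : CH x (1, a, b, c)) : x a + x b < 2 * x c := by
  unfold CH at h
  simpa using h

theorem smac_CH2 {a b c : ℕ} (h : CH x (2, a, b, c)) : x c < x a * x b := by
  unfold CH at h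
  simpa using h

theorem mLE_sound (h0 : x 0 = 1 / 4) (h1 : x 1 = 1 / 2) (ht : 2 * x (nF 0) < x 1 + ε)
    {q a b c d : ℕ} (h : ∀ e ∈ mLE q a b c d, CH x e) : x a + x b < x c + x d + ε := by
  have e1 := smac_CH1 (h (1, a, b, nF q) (by unfold mLE; simp))
  have e2 := smac_CH0 (h (0, c, d, nF (q + 1)) (by unfold mLE; simp))
  have e3 := smac_CH1 (h (1, nF q, 0, nF (q + 2)) (by unfold mLE; simp))
  have e4 := smac_CH0 (h (0, nF (q + 1), nF 0, nF (q + 2)) (by unfold mLE; simp))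
  rw [h0] at e3
  rw [h1] at ht
  linarith

theorem mEQ_sound (h0 : x 0 = 1 / 4) (h1 : x 1 = 1 / 2) (ht : 2 * x (nF 0) < x 1 + ε)
    {q a b c d : ℕ} (h : ∀ e ∈ mEQ q a b c d, CH x e) : |x a + x b - x c - x d| < ε := by
  have e1 := mLE_sound h0 h1 ht (q := q) (a := a) (b := b) (c := c) (d := d)
    (fun e he => h e (by unfold mEQ; exact List.mem_append_left _ he))
  have e2 := mLE_sound h0 h1 ht (q := q + 3) (a := c) (b := d) (c := a) (d := b)
    (fun e he => h e (by unfold mEQ; exact List.mem_append_right _ he))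
  rw [abs_lt]
  constructor <;> linarith

theorem mML_sound (h0 : x 0 = 1 / 4) (h1 : x 1 = 1 / 2) (h2 : x 2 = 3 / 4)
    (ht : 2 * x (nF 0) < x 1 + ε) {q a b z : ℕ} (h : ∀ e ∈ mML q a b z, CH x e) :
    x z - 1 / 2 < (x a - 1 / 2) * (x b - 1 / 2) + ε := by
  have e1 := smac_CH1 (h (1, a, b, nF q) (by unfold mML; simp))
  have e2 := smac_CH2 (h (2, a, b, nF (q + 1)) (by unfold mML; simp))
  have e3 := mLE_sound h0 h1 ht (q := q + 2) (a := z) (b := nF q) (c := nF (q + 1)) (d := 2)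
    (fun e he => h e (by unfold mML; exact List.mem_append_right _ he))
  rw [h2] at e3
  nlinarith

theorem mMU_sound (h01 : ∀ i, 0 < x i ∧ x i < 1) (h0 : x 0 = 1 / 4) (h1 : x 1 = 1 / 2)
    (h2 : x 2 = 3 / 4) (ht : 2 * x (nF 0) < x 1 + ε) {q a b z : ℕ}
    (h : ∀ e ∈ mMU q a b z, CH x e) :
    |(x z - 1 / 2) - (x a - 1 / 2) * (x b - 1 / 2)| < 3 * ε := by
  have e1 := mEQ_sound h0 h1 ht (q := q + 2) (a := a) (b := nF q) (c := 1) (d := 1)
    (fun e he => h e (by
      unfold mMU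
      exact List.mem_append_left _ (List.mem_append_left _ (List.mem_append_left _ he))))
  have e2 := mEQ_sound h0 h1 ht (q := q + 8) (a := z) (b := nF (q + 1)) (c := 1) (d := 1)
    (fun e he => h e (by
      unfold mMU
      exact List.mem_append_left _ (List.mem_append_left _ (List.mem_append_right _ he))))
  have e3 := mML_sound h0 h1 h2 ht (q := q + 14) (a := a) (b := b) (z := z)
    (fun e he => h e (by
      unfold mMU
      exact List.mem_append_left _ (List.mem_append_right _ he)))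
  have e4 := mML_sound h0 h1 h2 ht (q := q + 19) (a := nF q) (b := b) (z := nF (q + 1))
    (fun e he => h e (by
      unfold mMU
      exact List.mem_append_right _ he))
  have hb := h01 b
  rw [h1] at e1 e2
  rw [abs_lt] at e1 e2 ⊢
  set A : ℝ := x a
  set A' : ℝ := x (nF q)
  set Z : ℝ := x z
  set Z' : ℝ := x (nF (q + 1))
  set b' : ℝ := x b
  have hε : 0 < ε := by linarith [e1.1, e1.2]
  constructor
  · -- the difference is larger than -3ε
    have h3 : (A + A' - 1) * (b' - 1 / 2) < ε := by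
      have h4 : |(A + A' - 1) * (b' - 1 / 2)| < ε := by
        rw [abs_mul]
        have h5 : |A + A' - 1| ≤ ε := by
          rw [abs_le]
          constructor <;> linarith [e1.1, e1.2]
        have h6 : |b' - 1 / 2| < 1 := by
          rw [abs_lt]
          constructor <;> linarith [hb.1, hb.2]
        calc |A + A' - 1| * |b' - 1 / 2| ≤ ε * |b' - 1 / 2| := by gcongr
          _ < ε * 1 := by gcongr
          _ = ε := mul_one _
      exact (abs_lt.1 h4).2
    nlinarith [e2.1, e2.2]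
  · linarith

/-- The equation coded by `g`, scaled by the unit `u`, as a function which should vanish. -/
def gf (u : ℝ) (Y : ℕ → ℝ) (g : ℕ × ℕ × ℕ × ℕ) : ℝ :=
  if g.1 = 0 then Y g.2.1 - u
  else if g.1 = 1 then Y g.2.1 - Y g.2.2.1 - Y g.2.2.2
  else u * Y g.2.1 - Y g.2.2.1 * Y g.2.2.2

theorem scGate_sound (h01 : ∀ i, 0 < x i ∧ x i < 1) (h0 : x 0 = 1 / 4) (h1 : x 1 = 1 / 2)
    (h2 : x 2 = 3 / 4) (ht : 2 * x (nF 0) < x 1 + ε) {K n : ℕ} {g : ℕ × ℕ × ℕ × ℕ}
    (h : ∀ e ∈ scGate K n g, CH x e) :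
    |gf (x (nU K) - 1 / 2) (fun i => x (nX i) - 1 / 2) g| < 6 * ε := by
  unfold scGate at h
  unfold gf
  by_cases hg0 : g.1 = 0
  · rw [if_pos hg0] at h ⊢
    have e := mEQ_sound h0 h1 ht h
    dsimp only
    rw [abs_lt] at e ⊢
    constructor <;> linarith [e.1, e.2]
  · rw [if_neg hg0] at h ⊢
    by_cases hg1 : g.1 = 1
    · rw [if_pos hg1] at h ⊢
      have e := mEQ_sound h0 h1 ht h
      dsimp only
      rw [h1] at e
      rw [abs_lt] at e ⊢
      constructor <;> linarith [e.1, e.2]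
    · rw [if_neg hg1] at h ⊢
      have e1 := mMU_sound h01 h0 h1 h2 ht (fun e he => h e (List.mem_append_left _ he))
      have e2 := mMU_sound h01 h0 h1 h2 ht (fun e he => h e (List.mem_append_right _ he))
      dsimp only
      rw [abs_lt] at e1 e2 ⊢
      constructor <;> linarith [e1.1, e1.2, e2.1, e2.2]

theorem smac_box (h0 : x 0 = 1 / 4) (h2 : x 2 = 3 / 4) {y : ℕ} (h : ∀ e ∈ mBox y, CH x e) :
    |x y - 1 / 2| ≤ 1 / 4 := by
  have e1 := smac_CH1 (h (1, 0, 0, y) (by unfold mBox; simp))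
  have e2 := smac_CH0 (h (0, 2, 2, y) (by unfold mBox; simp))
  rw [h0] at e1
  rw [h2] at e2
  rw [abs_le]
  constructor <;> linarith

/-- Consequences of the strict system. -/
theorem scOf_sound (h01 : ∀ i, 0 < x i ∧ x i < 1) (h0 : x 0 = 1 / 4) (h1 : x 1 = 1 / 2)
    (h2 : x 2 = 3 / 4) {G : List (ℕ × ℕ × ℕ × ℕ)} {m K K' : ℕ}
    (h : ∀ e ∈ scOf G m K K', CH x e) :
    x (nE K') ≤ (1 / 16 : ℝ) ^ (2 ^ K') ∧
    (∀ i < m, |x (nX i) - 1 / 2| ≤ 1 / 4) ∧ (∀ k ≤ K, |x (nU k) - 1 / 2| ≤ 1 / 4) ∧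
    |8 * (x (nU 0) - 1 / 2) - 1| < 6 * x (nE K') ∧
    (∀ k < K, |(x (nU (k + 1)) - 1 / 2) - (x (nU k) - 1 / 2) ^ 2| < 6 * x (nE K')) ∧
    ∀ g ∈ G, |gf (x (nU K) - 1 / 2) (fun i => x (nX i) - 1 / 2) g| < 6 * x (nE K') := by
  have hε : 0 < x (nE K') := (h01 _).1
  unfold scOf at h
  simp only [List.mem_append] at h
  have c0 := smac_CH2 (h (2, 0, 0, nE 0) (by simp))
  have ct := smac_CH0 (h (0, 1, nE K', nF 0) (by simp))
  have cE : ∀ k < K', x (nE (k + 1)) < x (nE k) * x (nE k) := by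
    intro k hk
    apply smac_CH2
    apply h
    refine Or.inl (Or.inl (Or.inl (Or.inl (Or.inl ?_))))
    refine List.mem_cons_of_mem _ (List.mem_cons_of_mem _ ?_)
    exact List.mem_map.2 ⟨k, List.mem_range.2 hk, rfl⟩
  have cX : ∀ i < m, ∀ e ∈ mBox (nX i), CH x e := by
    intro i hi e he
    apply h
    refine Or.inl (Or.inl (Or.inl (Or.inl (Or.inr ?_))))
    exact List.mem_flatMap.2 ⟨i, List.mem_range.2 hi, he⟩
  have cU : ∀ k ≤ K, ∀ e ∈ mBox (nU k), CH x e := by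
    intro k hk e he
    apply h
    refine Or.inl (Or.inl (Or.inl (Or.inr ?_)))
    exact List.mem_flatMap.2 ⟨k, List.mem_range.2 (Nat.lt_succ_of_le hk), he⟩
  have c8 : ∀ e ∈ mEQ (bs 0) (nU 0) (nU 0) 1 2, CH x e := fun e he =>
    h e (Or.inl (Or.inl (Or.inr he)))
  have cM : ∀ k < K, ∀ e ∈ mMU (bs (2 * k + 2)) (nU k) (nU k) (nU (k + 1)), CH x e := by
    intro k hk e he
    apply h
    refine Or.inl (Or.inr ?_)
    exact List.mem_flatMap.2 ⟨k, List.mem_range.2 hk, he⟩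
  have cG : ∀ n < G.length, ∀ e ∈ scGate K n (G.getD n (0, 0, 0, 0)), CH x e := by
    intro n hn e he
    apply h
    refine Or.inr ?_
    exact List.mem_flatMap.2 ⟨n, List.mem_range.2 hn, he⟩
  refine ⟨?_, fun i hi => smac_box h0 h2 (cX i hi), fun k hk => smac_box h0 h2 (cU k hk), ?_, ?_, ?_⟩
  · have hind : ∀ k ≤ K', x (nE k) ≤ (1 / 16 : ℝ) ^ (2 ^ k) := by
      intro k
      induction k with
      | zero =>
        intro _
        rw [h0] at c0
        norm_num at c0 ⊢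
        exact c0.le
      | succ k ih =>
        intro hk
        have i1 := ih (by omega)
        have i2 := cE k (by omega)
        have i3 := (h01 (nE k)).1
        calc x (nE (k + 1)) ≤ x (nE k) * x (nE k) := i2.le
          _ ≤ (1 / 16 : ℝ) ^ (2 ^ k) * (1 / 16 : ℝ) ^ (2 ^ k) := by gcongr
          _ = (1 / 16 : ℝ) ^ (2 ^ (k + 1)) := by
            rw [← pow_add, pow_succ 2 k, mul_two]
    exact hind K' le_rfl
  · have e := mEQ_sound h0 h1 ct c8
    rw [h1, h2] at e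
    rw [abs_lt] at e ⊢
    constructor <;> linarith [e.1, e.2]
  · intro k hk
    have e := mMU_sound h01 h0 h1 h2 ct (cM k hk)
    rw [abs_lt] at e ⊢
    rw [sq]
    constructor <;> linarith [e.1, e.2]
  · intro g hg
    obtain ⟨n, hn, hgn⟩ := List.mem_iff_getElem.1 hg
    have e := scGate_sound h01 h0 h1 h2 ct (cG n hn)
    rw [List.getD_eq_getElem _ _ hn, hgn] at e
    exact e

end Pool.Agent.H77.SG
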