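import Pool.Agent.H77.SG.Defs

/-!
# Strand programs: monotonicity, openness, lengths

PROOFS. By induction on the strand program; `TRel` with kind `0` exchanges two entries, the gates are
strictly increasing in positive entries and given by strict inequalities.
-/

set_option autoImplicit false

namespace Pool.Agent.H77.SG

theorem tm_split {α : Type} {R : α → α → Prop} : ∀ {A L M : List α},
    List.Forall₂ R (A ++ L) M → ∃ A' M', M = A' ++ M' ∧ List.Forall₂ R A A' ∧
      List.Forall₂ R L M' := by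
  intro A
  induction A with
  | nil =>
    intro L M h
    exact ⟨[], M, rfl, List.Forall₂.nil, h⟩
  | cons x A ih =>
    intro L M h
    rw [List.cons_append] at h
    cases h with
    | cons h1 h2 =>
      obtain ⟨A', M', rfl, h3, h4⟩ := ih h2
      exact ⟨_ :: A', M', rfl, List.Forall₂.cons h1 h3, h4⟩

theorem tm_append {α : Type} {R : α → α → Prop} {A A' B B' : List α} (h1 : List.Forall₂ R A A')
    (h2 : List.Forall₂ R B B') : List.Forall₂ R (A ++ B) (A' ++ B') := by
  induction h1 with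
  | nil => exact h2
  | cons h _ ih => exact List.Forall₂.cons h ih

theorem tm_exchange {R : ℝ → ℝ → Prop} {A B M : List ℝ} {a b : ℝ}
    (h : List.Forall₂ R (A ++ a :: b :: B) M) :
    ∃ A' B' a' b', M = A' ++ a' :: b' :: B' ∧ A'.length = A.length ∧
      List.Forall₂ R (A ++ b :: a :: B) (A' ++ b' :: a' :: B') := by
  obtain ⟨A', M', rfl, h1, h2⟩ := tm_split h
  cases h2 with
  | cons h3 h4 =>
    cases h4 with
    | cons h5 h6 =>
      exact ⟨A', _, _, _, rfl, h1.length_eq.symm,
        tm_append h1 (List.Forall₂.cons h5 (List.Forall₂.cons h3 h6))⟩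

theorem tm_step_mono {I : ℕ × ℕ} {L L' L₁ : List ℝ} (h : List.Forall₂ (fun a b => a ≤ b) L L')
    (hpos : ∀ a ∈ L, 0 < a) (hr : TRel I L L₁) :
    ∃ L₁', TRel I L' L₁' ∧ List.Forall₂ (fun a b => a ≤ b) L₁ L₁' ∧ ∀ a ∈ L₁, 0 < a := by
  unfold TRel at hr ⊢
  by_cases h0 : I.1 = 0
  · rw [if_pos h0] at hr
    obtain ⟨A, B, a, b, rfl, hA, rfl⟩ := hr
    obtain ⟨A', B', a', b', rfl, hA', h'⟩ := tm_exchange h
    refine ⟨A' ++ b' :: a' :: B', ?_, h', ?_⟩
    · rw [if_pos h0]
      exact ⟨A', B', a', b', rfl, by rw [hA', hA], rfl⟩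
    · intro x hx
      apply hpos
      simp only [List.mem_append, List.mem_cons] at hx ⊢
      tauto
  · rw [if_neg h0] at hr
    by_cases h1 : I.1 = 1
    · rw [if_pos h1] at hr
      obtain ⟨z, x, y, rfl, hgt⟩ := hr
      cases h with
      | cons g1 h =>
        cases h with
        | cons g2 h =>
          cases h with
          | cons g3 h =>
            refine ⟨_, ?_, h, fun a ha => hpos a (by simp [ha])⟩
            rw [if_neg h0, if_pos h1]
            exact ⟨_, _, _, rfl, by linarith⟩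
    · rw [if_neg h1] at hr
      obtain ⟨y, x, z, rfl, hgt⟩ := hr
      have hy : 0 < y := hpos y (by simp)
      have hx : 0 < x := hpos x (by simp)
      cases h with
      | cons g1 h =>
        cases h with
        | cons g2 h =>
          cases h with
          | cons g3 h =>
            refine ⟨_, ?_, h, fun a ha => hpos a (by simp [ha])⟩
            rw [if_neg h0, if_neg h1]
            refine ⟨_, _, _, rfl, ?_⟩
            have h5 := mul_le_mul g2 g1 hy.le (hx.le.trans g2)
            linarith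

theorem TRun_mono {Q : List (ℕ × ℕ)} : ∀ {L L' : List ℝ}, List.Forall₂ (fun a b => a ≤ b) L L' →
    (∀ a ∈ L, 0 < a) → TRun Q L → TRun Q L' := by
  induction Q with
  | nil =>
    intro L L' _ _ _
    trivial
  | cons I Q ih =>
    intro L L' h hpos hr
    obtain ⟨L₁, h1, h2⟩ := hr
    obtain ⟨L₁', h3, h4, h5⟩ := tm_step_mono h hpos h1
    exact ⟨L₁', h3, ih h4 h5 h2⟩

theorem tm_mono_near {δ δ' : ℝ} (hδ : δ ≤ δ') {L L' : List ℝ}
    (h : List.Forall₂ (fun a b => |a - b| < δ) L L') :
    List.Forall₂ (fun a b => |a - b| < δ') L L' :=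
  h.imp (fun _ _ h1 => lt_of_lt_of_le h1 hδ)

theorem tm_step_open {I : ℕ × ℕ} {L L₁ : List ℝ} (hr : TRel I L L₁) {δ₁ : ℝ} (hδ₁ : 0 < δ₁) :
    ∃ δ > 0, ∀ L' : List ℝ, List.Forall₂ (fun a b => |a - b| < δ) L L' →
      ∃ L₁', TRel I L' L₁' ∧ List.Forall₂ (fun a b => |a - b| < δ₁) L₁ L₁' := by
  unfold TRel at hr ⊢
  by_cases h0 : I.1 = 0
  · rw [if_pos h0] at hr
    obtain ⟨A, B, a, b, rfl, hA, rfl⟩ := hr
    refine ⟨δ₁, hδ₁, fun L' h => ?_⟩
    obtain ⟨A', B', a', b', rfl, hA', h'⟩ := tm_exchange h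
    refine ⟨A' ++ b' :: a' :: B', ?_, h'⟩
    rw [if_pos h0]
    exact ⟨A', B', a', b', rfl, by rw [hA', hA], rfl⟩
  · rw [if_neg h0] at hr
    by_cases h1 : I.1 = 1
    · rw [if_pos h1] at hr
      obtain ⟨z, x, y, rfl, hgt⟩ := hr
      have hd : 0 < (x + y + 2 * z - 2) / 4 := by linarith
      refine ⟨min δ₁ ((x + y + 2 * z - 2) / 4), lt_min hδ₁ hd, fun L' h => ?_⟩
      cases h with
      | cons g1 h =>
        cases h with
        | cons g2 h =>
          cases h with
          | cons g3 h =>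
            refine ⟨_, ?_, tm_mono_near (min_le_left _ _) h⟩
            rw [if_neg h0, if_pos h1]
            refine ⟨_, _, _, rfl, ?_⟩
            have e1 := (abs_lt.1 (lt_of_lt_of_le g1 (min_le_right _ _))).2
            have e2 := (abs_lt.1 (lt_of_lt_of_le g2 (min_le_right _ _))).2
            have e3 := (abs_lt.1 (lt_of_lt_of_le g3 (min_le_right _ _))).2
            linarith
    · rw [if_neg h1] at hr
      obtain ⟨y, x, z, rfl, hgt⟩ := hr
      have hcont : Continuous (fun p : ℝ × ℝ × ℝ => p.2.1 * p.1 + p.2.2) := by fun_prop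
      have hopen : IsOpen {p : ℝ × ℝ × ℝ | 1 < p.2.1 * p.1 + p.2.2} :=
        isOpen_lt continuous_const hcont
      have hmem : (y, x, z) ∈ {p : ℝ × ℝ × ℝ | 1 < p.2.1 * p.1 + p.2.2} := hgt
      obtain ⟨ε, hε, hball⟩ := Metric.isOpen_iff.1 hopen _ hmem
      refine ⟨min δ₁ ε, lt_min hδ₁ hε, fun L' h => ?_⟩
      cases h with
      | cons g1 h =>
        cases h with
        | cons g2 h =>
          cases h with
          | cons g3 h =>
            refine ⟨_, ?_, tm_mono_near (min_le_left _ _) h⟩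
            rw [if_neg h0, if_neg h1]
            refine ⟨_, _, _, rfl, ?_⟩
            have e1 := lt_of_lt_of_le g1 (min_le_right _ _)
            have e2 := lt_of_lt_of_le g2 (min_le_right _ _)
            have e3 := lt_of_lt_of_le g3 (min_le_right _ _)
            refine hball (a := (_, _, _)) ?_
            rw [Metric.mem_ball, dist_comm, Prod.dist_eq, Prod.dist_eq, Real.dist_eq, Real.dist_eq,
              Real.dist_eq]
            exact max_lt e1 (max_lt e2 e3)

theorem TRun_open {Q : List (ℕ × ℕ)} : ∀ {L : List ℝ}, TRun Q L →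
    ∃ δ > 0, ∀ L' : List ℝ, List.Forall₂ (fun a b => |a - b| < δ) L L' → TRun Q L' := by
  induction Q with
  | nil =>
    intro L _
    exact ⟨1, one_pos, fun _ _ => trivial⟩
  | cons I Q ih =>
    intro L hr
    obtain ⟨L₁, h1, h2⟩ := hr
    obtain ⟨δ₁, hδ₁, h3⟩ := ih h2
    obtain ⟨δ, hδ, h4⟩ := tm_step_open h1 hδ₁
    refine ⟨δ, hδ, fun L' hL' => ?_⟩
    obtain ⟨L₁', h5, h6⟩ := h4 L' hL'
    exact ⟨L₁', h5, h3 L₁' h6⟩

/-- The strand program can be applied to a list of `n` strands and consumes all of them. -/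
def TWF : List (ℕ × ℕ) → ℕ → Prop
  | [], n => n = 0
  | I :: Q, n => (if I.1 = 0 then I.2 + 2 ≤ n else 3 ≤ n) ∧ TWF Q (if I.1 = 0 then n else n - 3)

end Pool.Agent.H77.SG
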