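import Pool.Agent.H77.SG.VDefs

/-!
# From programs to heights: instructions of kind 0

new variable: `F = A ++ B`, `F' = A ++ word ++ B`.

PROOF. Choose a small `η > 0` (smaller than `δ / 8`, than a small multiple of the slack of the gate
and than all the numbers `a.1 / 8`, `(1 - a.1) / 8` for the wires of `F` and `F'`). A wire with the value
`v` which is not consumed has the value `v - l η` (minus) or `v + l η` (plus) on the line number `l` of
the block, `l = 0, …, 4`; the height is the value on even lines and `1` minus the value on odd lines.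
`F''` is `F'` with these changes; the new wires of kinds `0`, `1` have the value `v - η` or `v + η`. Define
`g` by cases on the triple, `1 / 2` for all other triples. `passOK` by `mem_bP`.
-/

set_option autoImplicit false

namespace Pool.Agent.H77.SG

/-- The value of the wire number `k` (with a default value). -/
noncomputable def vC0_f (F : List (ℝ × Bool)) (k : ℕ) : ℝ := (F.getD k (1 / 2, false)).1

theorem vC0_f_append (A B : List (ℝ × Bool)) (k : ℕ) :
    vC0_f (A ++ B) k = if k < A.length then vC0_f A k else vC0_f B (k - A.length) := by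
  unfold vC0_f
  split_ifs with h
  · rw [List.getD_append _ _ _ _ h]
  · rw [List.getD_append_right _ _ _ _ (not_lt.1 h)]

theorem vC0_f_eq (F : List (ℝ × Bool)) (k : ℕ) (hk : k < F.length) : vC0_f F k = F[k].1 := by
  unfold vC0_f
  rw [List.getD_eq_getElem _ _ hk]

theorem vC0_sgn_append (A B : List Bool) (k : ℕ) :
    (A ++ B).getD k false = if k < A.length then A.getD k false else B.getD (k - A.length) false := by
  split_ifs with h
  · rw [List.getD_append _ _ _ _ h]
  · rw [List.getD_append_right _ _ _ _ (not_lt.1 h)]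

theorem vC0_eta (F : List (ℝ × Bool)) (hF01 : ∀ a ∈ F, 0 < a.1 ∧ a.1 < 1) {c : ℝ} (hc : 0 < c) :
    ∃ η : ℝ, 0 < η ∧ η ≤ c ∧ ∀ k, 8 * η < vC0_f F k ∧ vC0_f F k + 8 * η < 1 := by
  have h1 : ∀ L : List (ℝ × Bool), (∀ a ∈ L, 0 < a.1 ∧ a.1 < 1) →
      ∃ η : ℝ, 0 < η ∧ ∀ a ∈ L, 8 * η < a.1 ∧ a.1 + 8 * η < 1 := by
    intro L
    induction L with
    | nil => exact fun _ => ⟨1, one_pos, by simp⟩
    | cons x L ih =>
      intro hL
      obtain ⟨η, h0, h1⟩ := ih (fun a ha => hL a (List.mem_cons_of_mem _ ha))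
      obtain ⟨hx0, hx1⟩ := hL x List.mem_cons_self
      refine ⟨min η (min (x.1 / 16) ((1 - x.1) / 16)), ?_, ?_⟩
      · refine lt_min h0 (lt_min ?_ ?_)
        · linarith
        · linarith
      · intro a ha
        have e1 : min η (min (x.1 / 16) ((1 - x.1) / 16)) ≤ η := min_le_left _ _
        have e2 : min η (min (x.1 / 16) ((1 - x.1) / 16)) ≤ x.1 / 16 :=
          (min_le_right _ _).trans (min_le_left _ _)
        have e3 : min η (min (x.1 / 16) ((1 - x.1) / 16)) ≤ (1 - x.1) / 16 :=
          (min_le_right _ _).trans (min_le_right _ _)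
        rcases List.mem_cons.1 ha with rfl | ha
        · constructor <;> linarith
        · have := h1 a ha
          constructor <;> linarith
  obtain ⟨η, h0, h2⟩ := h1 F hF01
  refine ⟨min η (min c (1 / 32)), lt_min h0 (lt_min hc (by norm_num)),
    (min_le_right _ _).trans (min_le_left _ _), ?_⟩
  intro k
  have e1 : min η (min c (1 / 32)) ≤ η := min_le_left _ _
  have e2 : min η (min c (1 / 32)) ≤ 1 / 32 := (min_le_right _ _).trans (min_le_right _ _)
  by_cases hk : k < F.length
  · rw [vC0_f_eq F k hk]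
    have := h2 F[k] (List.getElem_mem hk)
    constructor <;> linarith
  · have h3 : vC0_f F k = 1 / 2 := by
      unfold vC0_f
      rw [List.getD_eq_default _ _ (not_lt.1 hk)]
    rw [h3]
    constructor <;> linarith

/-- The value `x` changed by `r` in the direction given by the sign. -/
noncomputable def vC0_s (s : Bool) (x r : ℝ) : ℝ := if s = true then x + r else x - r

theorem vC0_s_mem (s : Bool) {x r η : ℝ} (hx : 8 * η < x ∧ x + 8 * η < 1) (h0 : 0 ≤ r)
    (hr : r ≤ 4 * η) : 0 < vC0_s s x r ∧ vC0_s s x r < 1 := by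
  unfold vC0_s
  split_ifs <;> constructor <;> linarith [hx.1, hx.2]

theorem vC0_s_near (s : Bool) {x r δ : ℝ} (h0 : 0 ≤ r) (hr : r < δ) : |x - vC0_s s x r| < δ := by
  unfold vC0_s
  split_ifs
  · rw [show x - (x + r) = -r by ring, abs_neg, abs_of_nonneg h0]; exact hr
  · rw [show x - (x - r) = r by ring, abs_of_nonneg h0]; exact hr

theorem vC0_s_lt (s : Bool) {x r r' : ℝ} (hr : r < r') :
    (s = true → vC0_s s x r < vC0_s s x r') ∧ (s = false → vC0_s s x r' < vC0_s s x r) := by
  constructor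
  · rintro rfl
    simp only [vC0_s, if_true]
    linarith
  · rintro rfl
    simp only [vC0_s, Bool.false_eq_true, if_false]
    linarith

theorem vC0_s_lt0 (s : Bool) {x r' : ℝ} (hr : 0 < r') :
    (s = true → x < vC0_s s x r') ∧ (s = false → vC0_s s x r' < x) := by
  constructor
  · rintro rfl
    simp only [vC0_s, if_true]
    linarith
  · rintro rfl
    simp only [vC0_s, Bool.false_eq_true, if_false]
    linarith

theorem vC0_s_zero (s : Bool) (x : ℝ) : vC0_s s x 0 = x := by
  unfold vC0_s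
  split_ifs <;> ring

/-- The heights for given values. -/
noncomputable def vC0_g (b : ℕ) (V : ℕ → ℕ → ℝ) (v : ℕ × ℕ × ℕ) : ℝ :=
  if v.2.2 = 0 ∧ 4 * b ≤ v.1 ∧ v.1 ≤ 4 * b + 4 then
    (if v.1 % 2 = 0 then V (v.1 - 4 * b) v.2.1 else 1 - V (v.1 - 4 * b) v.2.1)
  else 1 / 2

theorem vC0_g_mem (b : ℕ) {V : ℕ → ℕ → ℝ} (hV : ∀ l ≤ 4, ∀ k, 0 < V l k ∧ V l k < 1)
    (v : ℕ × ℕ × ℕ) : 0 < vC0_g b V v ∧ vC0_g b V v < 1 := by
  unfold vC0_g
  split_ifs with h1 h2
  · exact hV _ (by omega) _
  · have := hV (v.1 - 4 * b) (by omega) v.2.1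
    constructor <;> linarith
  · norm_num

theorem vC0_g_line (b : ℕ) (V : ℕ → ℕ → ℝ) {l : ℕ} (hl : l ≤ 4) (k : ℕ) :
    vC0_g b V (4 * b + l, k, 0) = if l % 2 = 0 then V l k else 1 - V l k := by
  have h1 : (4 * b + l) % 2 = l % 2 := by omega
  have h2 : 4 * b + l - 4 * b = l := by omega
  have h3 : (0 : ℕ) = 0 ∧ 4 * b ≤ 4 * b + l ∧ 4 * b + l ≤ 4 * b + 4 := ⟨rfl, by omega, by omega⟩
  have h4 : vC0_g b V (4 * b + l, k, 0) =
      if (0 : ℕ) = 0 ∧ 4 * b ≤ 4 * b + l ∧ 4 * b + l ≤ 4 * b + 4 then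
        (if (4 * b + l) % 2 = 0 then V (4 * b + l - 4 * b) k else 1 - V (4 * b + l - 4 * b) k)
      else 1 / 2 := rfl
  rw [h4, if_pos h3, h1, h2]

theorem vC0_pass (b : ℕ) (V : ℕ → ℕ → ℝ) {l : ℕ} (hl : l < 4) (i j : ℕ) (s : Bool)
    (h : (s = true → V l i < V (l + 1) j) ∧ (s = false → V (l + 1) j < V l i)) :
    passOK (vC0_g b V) (4 * b + l, i, j, s) := by
  have h1 : (4 * b + l) % 2 = l % 2 := by omega
  have h2 : 4 * b + l + 1 = 4 * b + (l + 1) := by omega
  unfold passOK
  simp only [h2]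
  rw [vC0_g_line b V (by omega : l ≤ 4), vC0_g_line b V (by omega : l + 1 ≤ 4)]
  unfold low
  rw [h1]
  rcases Nat.mod_two_eq_zero_or_one l with h3 | h3
  · have h4 : (l + 1) % 2 = 1 := by omega
    rw [h3, h4]
    cases s
    · have := h.2 rfl
      simp only [zero_ne_one, decide_false, BEq.rfl, if_true, one_ne_zero, if_false]
      linarith
    · have := h.1 rfl
      simp only [zero_ne_one, decide_false, one_ne_zero, if_false, if_true]
      rw [if_neg (by decide)]
      linarith
  · have h4 : (l + 1) % 2 = 0 := by omega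
    rw [h3, h4]
    cases s
    · have := h.2 rfl
      simp only [decide_true, one_ne_zero, if_false, if_true]
      rw [if_neg (by decide)]
      linarith
    · have := h.1 rfl
      simp only [decide_true, one_ne_zero, if_false, BEq.rfl, if_true]
      linarith

/-- The conclusion from the heights. -/
theorem vC0_fin {S : List Bool} {I : ℕ × ℕ × ℕ × List Bool} {F F' : List (ℝ × Bool)}
    (hF : F.map Prod.snd = S) (hF' : F'.map Prod.snd = nextS I S) {δ : ℝ} (b : ℕ)
    (V : ℕ → ℕ → ℝ) (hV : ∀ l ≤ 4, ∀ k, 0 < V l k ∧ V l k < 1)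
    (h0 : ∀ k < F.length, V 0 k = vC0_f F k)
    (h4 : ∀ k < F'.length, |vC0_f F' k - V 4 k| < δ)
    (hblk : blkOK (vC0_g b V) (b, S, I)) :
    ∃ (F'' : List (ℝ × Bool)) (g : ℕ × ℕ × ℕ → ℝ), Near δ F' F'' ∧
      (∀ a ∈ F'', 0 < a.1 ∧ a.1 < 1) ∧ (∀ v, 0 < g v ∧ g v < 1) ∧ fr g b S = F ∧
      fr g (b + 1) (nextS I S) = F'' ∧ blkOK g (b, S, I) := by
  have hlen : S.length = F.length := by rw [← hF, List.length_map]
  have hlen' : (nextS I S).length = F'.length := by rw [← hF', List.length_map]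
  refine ⟨fr (vC0_g b V) (b + 1) (nextS I S), vC0_g b V, ?_, ?_, vC0_g_mem b hV, ?_, rfl, hblk⟩
  · unfold Near
    rw [List.forall₂_iff_get]
    refine ⟨by rw [length_fr, hlen'], ?_⟩
    intro i hi hi'
    rw [List.get_eq_getElem, List.get_eq_getElem, getElem_fr]
    refine ⟨?_, ?_⟩
    · change F'[i].2 = (nextS I S).getD i false
      rw [← hF', List.getD_eq_getElem _ _ (by rw [List.length_map]; exact hi), List.getElem_map]
    · have h5 := h4 i hi
      rw [vC0_f_eq F' i hi] at h5
      change |F'[i].1 - vC0_g b V (4 * (b + 1), i, 0)| < δ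
      have h6 : vC0_g b V (4 * (b + 1), i, 0) = V 4 i := by
        have h7 := vC0_g_line b V (le_refl 4) i
        rw [if_pos (by norm_num)] at h7
        exact h7
      rw [h6]
      exact h5
  · intro a ha
    unfold fr at ha
    rw [List.mem_map] at ha
    obtain ⟨k, -, rfl⟩ := ha
    exact vC0_g_mem b hV _
  · apply List.ext_getElem
    · rw [length_fr, hlen]
    · intro i hi hi'
      rw [getElem_fr]
      have h5 := h0 i hi'
      have h7 := vC0_g_line b V (Nat.zero_le 4) i
      rw [if_pos (by norm_num)] at h7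
      have h8 : vC0_g b V (4 * b, i, 0) = F[i].1 := by
        rw [← vC0_f_eq F i hi', ← h5, ← h7]
        rfl
      have h9 : S.getD i false = F[i].2 := by
        rw [← hF, List.getD_eq_getElem _ _ (by rw [List.length_map]; exact hi'),
          List.getElem_map]
      rw [h8, h9]

/-- The values for the kinds `0` and `1`. -/
noncomputable def vC0_V (F : List (ℝ × Bool)) (S : List Bool) (p : ℕ) (w : List Bool) (v η : ℝ)
    (l k : ℕ) : ℝ :=
  if l ≤ 2 then vC0_s (S.getD k false) (vC0_f F k) (l * η)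
  else if l = 3 then
    (if k < p then vC0_s (S.getD k false) (vC0_f F k) (3 * η)
    else if k = p then v
    else vC0_s (S.getD (k - 1) false) (vC0_f F (k - 1)) (3 * η))
  else
    (if k < p then vC0_s (S.getD k false) (vC0_f F k) (4 * η)
    else if k < p + w.length then vC0_s (w.getD (k - p) false) v η
    else vC0_s (S.getD (k - w.length) false) (vC0_f F (k - w.length)) (4 * η))

theorem vC0_V_mem {F : List (ℝ × Bool)} (S : List Bool) (p : ℕ) (w : List Bool) {v η : ℝ}
    (hη : 0 < η) (hv : 8 * η < v ∧ v + 8 * η < 1)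
    (hf : ∀ k, 8 * η < vC0_f F k ∧ vC0_f F k + 8 * η < 1) (l k : ℕ) :
    0 < vC0_V F S p w v η l k ∧ vC0_V F S p w v η l k < 1 := by
  unfold vC0_V
  split_ifs with h1 h2 h3 h4 h5 h6
  · have : (l : ℝ) ≤ 2 := by exact_mod_cast h1
    have h0 : (0 : ℝ) ≤ l := Nat.cast_nonneg l
    exact vC0_s_mem _ (hf _) (by positivity) (by nlinarith)
  · exact vC0_s_mem _ (hf _) (by positivity) (by linarith)
  · constructor <;> linarith [hv.1, hv.2]
  · exact vC0_s_mem _ (hf _) (by positivity) (by linarith)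
  · exact vC0_s_mem _ (hf _) (by positivity) (by linarith)
  · exact vC0_s_mem _ hv (by positivity) (by linarith)
  · exact vC0_s_mem _ (hf _) (by positivity) (by linarith)

/-- The conditions at the ordinary edges for the kinds `0` and `1`. -/
theorem vC0_passes {S : List Bool} {I : ℕ × ℕ × ℕ × List Bool} (hk : I.1 ≤ 1)
    (hn : 1 ≤ I.2.2.2.length) (F : List (ℝ × Bool)) {v η : ℝ} (hη : 0 < η) (b : ℕ) :
    ∀ q ∈ bP b S I, passOK (vC0_g b (vC0_V F S I.2.1 I.2.2.2 v η)) q := by
  intro q hq
  rcases mem_bP.1 hq with ⟨-, hp, j, hj, rfl⟩ | ⟨l, k, hl, hkW, hne, hhas, rfl⟩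
  · apply vC0_pass b _ (by norm_num : 3 < 4)
    have e1 : vC0_V F S I.2.1 I.2.2.2 v η 3 I.2.1 = v := by
      unfold vC0_V
      rw [if_neg (by norm_num), if_pos rfl, if_neg (lt_irrefl _), if_pos rfl]
    have e2 : vC0_V F S I.2.1 I.2.2.2 v η (3 + 1) (I.2.1 + j) =
        vC0_s (I.2.2.2.getD j false) v η := by
      unfold vC0_V
      rw [if_neg (by norm_num), if_neg (by norm_num), if_neg (by omega), if_pos (by omega),
        Nat.add_sub_cancel_left]
    rw [e1, e2]
    exact vC0_s_lt0 _ hη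
  · apply vC0_pass b _ hl
    unfold has at hhas
    rw [if_pos hk] at hhas
    have hcases : l = 0 ∨ l = 1 ∨ l = 2 ∨ l = 3 := by omega
    rcases hcases with rfl | rfl | rfl | rfl
    · have e1 : tgt I.1 I.2.1 I.2.2.2.length 0 k = k := by
        unfold tgt; rw [if_pos hk, if_pos (by norm_num)]
      have e2 : sgn I.1 I.2.1 S 0 k = S.getD k false := by
        unfold sgn; rw [if_neg (by omega)]
      rw [e1, e2]
      unfold vC0_V
      rw [if_pos (by norm_num), if_pos (by norm_num)]
      exact vC0_s_lt _ (by push_cast; nlinarith)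
    · have e1 : tgt I.1 I.2.1 I.2.2.2.length 1 k = k := by
        unfold tgt; rw [if_pos hk, if_pos (by norm_num)]
      have e2 : sgn I.1 I.2.1 S 1 k = S.getD k false := by
        unfold sgn; rw [if_neg (by omega)]
      rw [e1, e2]
      unfold vC0_V
      rw [if_pos (by norm_num), if_pos (by norm_num)]
      exact vC0_s_lt _ (by push_cast; nlinarith)
    · have e2 : sgn I.1 I.2.1 S 2 k = S.getD k false := by
        unfold sgn; rw [if_neg (by omega)]
      rw [e2]
      have e3 : vC0_V F S I.2.1 I.2.2.2 v η 2 k =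
          vC0_s (S.getD k false) (vC0_f F k) (2 * η) := by
        unfold vC0_V
        rw [if_pos (by norm_num)]
        norm_num
      have e4 : vC0_V F S I.2.1 I.2.2.2 v η (2 + 1) (tgt I.1 I.2.1 I.2.2.2.length 2 k) =
          vC0_s (S.getD k false) (vC0_f F k) (3 * η) := by
        unfold tgt
        rw [if_pos hk, if_neg (by norm_num), if_pos rfl]
        unfold vC0_V
        rw [if_neg (by norm_num), if_pos (by norm_num)]
        by_cases hkp : k < I.2.1
        · rw [if_pos hkp, if_pos hkp]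
        · rw [if_neg hkp, if_neg (by omega), if_neg (by omega), Nat.add_sub_cancel]
      rw [e3, e4]
      exact vC0_s_lt _ (by linarith)
    · have hkp : k ≠ I.2.1 := fun h => hne ⟨hk, rfl, h⟩
      have e4 : vC0_V F S I.2.1 I.2.2.2 v η 3 k =
          vC0_s (sgn I.1 I.2.1 S 3 k) (vC0_f F (if k < I.2.1 then k else k - 1)) (3 * η) := by
        unfold vC0_V sgn
        rw [if_neg (by norm_num), if_pos rfl]
        by_cases hkp' : k < I.2.1
        · rw [if_pos hkp', if_pos hkp', if_neg (by omega)]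
        · rw [if_neg hkp', if_neg hkp', if_neg hkp, if_pos ⟨hk, rfl, by omega⟩]
      have e5 : vC0_V F S I.2.1 I.2.2.2 v η (3 + 1) (tgt I.1 I.2.1 I.2.2.2.length 3 k) =
          vC0_s (sgn I.1 I.2.1 S 3 k) (vC0_f F (if k < I.2.1 then k else k - 1)) (4 * η) := by
        have e7 : tgt I.1 I.2.1 I.2.2.2.length 3 k =
            if k < I.2.1 then k else k + I.2.2.2.length - 1 := by
          unfold tgt
          rw [if_pos hk, if_neg (by norm_num), if_neg (by norm_num)]
        rw [e7]
        unfold vC0_V sgn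
        rw [if_neg (by norm_num), if_neg (by norm_num)]
        by_cases hkp' : k < I.2.1
        · rw [if_pos hkp', if_pos hkp', if_pos hkp', if_neg (by omega)]
        · have e6 : k + I.2.2.2.length - 1 - I.2.2.2.length = k - 1 := by omega
          rw [if_neg hkp', if_neg hkp', if_neg (by omega), if_neg (by omega),
            if_pos ⟨hk, rfl, by omega⟩, e6]
      rw [e4, e5]
      exact vC0_s_lt _ (by linarith)

/-- The signs of the new front for the kinds `0` and `1`. -/
theorem vC0_next {S : List Bool} {I : ℕ × ℕ × ℕ × List Bool} {A B : List (ℝ × Bool)}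
    (hk : I.1 ≤ 1) (hF : (A ++ B).map Prod.snd = S) (hA : A.length = I.2.1) (v : ℝ) :
    (A ++ I.2.2.2.map (fun s => (v, s)) ++ B).map Prod.snd = nextS I S := by
  unfold nextS
  rw [if_pos hk, ← hF, List.map_append, List.map_append, List.map_append, List.map_map]
  have h1 : (A.map Prod.snd).length = I.2.1 := by rw [List.length_map, hA]
  rw [← h1, List.take_left, List.drop_left]
  congr 2
  exact (List.map_id _)

/-- The values of the new front for the kinds `0` and `1`. -/
theorem vC0_near {S : List Bool} {I : ℕ × ℕ × ℕ × List Bool} {A B : List (ℝ × Bool)}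
    (hA : A.length = I.2.1) {v η δ : ℝ} (hη : 0 < η) (hδ : 4 * η < δ) :
    ∀ k < (A ++ I.2.2.2.map (fun s => (v, s)) ++ B).length,
      |vC0_f (A ++ I.2.2.2.map (fun s => (v, s)) ++ B) k -
        vC0_V (A ++ B) S I.2.1 I.2.2.2 v η 4 k| < δ := by
  intro k hk
  unfold vC0_V
  rw [if_neg (by norm_num), if_neg (by norm_num), vC0_f_append, vC0_f_append, List.length_append,
    List.length_map, hA]
  by_cases h1 : k < I.2.1
  · rw [if_pos (by omega), if_pos h1, if_pos h1, vC0_f_append, hA, if_pos h1]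
    exact vC0_s_near _ (by positivity) hδ
  · by_cases h2 : k < I.2.1 + I.2.2.2.length
    · rw [if_pos h2, if_neg h1, if_neg h1, if_pos h2]
      have h3 : vC0_f (I.2.2.2.map (fun s => (v, s))) (k - I.2.1) = v := by
        rw [vC0_f_eq _ _ (by rw [List.length_map]; omega), List.getElem_map]
      rw [h3]
      exact vC0_s_near _ hη.le (by linarith)
    · rw [if_neg h2, if_neg h1, if_neg h2, vC0_f_append, hA, if_neg (by omega)]
      have h3 : k - (I.2.1 + I.2.2.2.length) = k - I.2.2.2.length - I.2.1 := by omega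
      rw [h3]
      exact vC0_s_near _ (by positivity) hδ

theorem stepC0 {S : List Bool} {I : ℕ × ℕ × ℕ × List Bool} {F F' : List (ℝ × Bool)}
    (hk : I.1 = 0) (hI : WFI I S) (hF : F.map Prod.snd = S) (hF01 : ∀ a ∈ F, 0 < a.1 ∧ a.1 < 1)
    (hR : Rel I F F') {δ : ℝ} (hδ : 0 < δ) (b : ℕ) :
    ∃ (F'' : List (ℝ × Bool)) (g : ℕ × ℕ × ℕ → ℝ), Near δ F' F'' ∧
      (∀ a ∈ F'', 0 < a.1 ∧ a.1 < 1) ∧ (∀ v, 0 < g v ∧ g v < 1) ∧ fr g b S = F ∧
      fr g (b + 1) (nextS I S) = F'' ∧ blkOK g (b, S, I) := by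
  unfold Rel at hR
  rw [if_pos hk] at hR
  obtain ⟨A, B, v, rfl, hA, hv0, hv1, rfl⟩ := hR
  have hn : 1 ≤ I.2.2.2.length := (WFI_pos hI).2.2.2 (by omega)
  obtain ⟨η, hη, hηc, hf⟩ := vC0_eta (A ++ B) hF01
    (show 0 < min (δ / 8) (min (v / 16) ((1 - v) / 16)) from
      lt_min (by linarith) (lt_min (by linarith) (by linarith)))
  have e1 : η ≤ δ / 8 := hηc.trans (min_le_left _ _)
  have e2 : η ≤ v / 16 := hηc.trans ((min_le_right _ _).trans (min_le_left _ _))
  have e3 : η ≤ (1 - v) / 16 := hηc.trans ((min_le_right _ _).trans (min_le_right _ _))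
  refine vC0_fin hF (vC0_next (by omega) hF hA v) b (vC0_V (A ++ B) S I.2.1 I.2.2.2 v η)
    (fun l _ k => vC0_V_mem S _ _ hη ⟨by linarith, by linarith⟩ hf l k) ?_
    (vC0_near hA hη (by linarith)) ⟨vC0_passes (by omega) hn _ hη b, ?_⟩
  · intro k _
    unfold vC0_V
    rw [if_pos (by norm_num), Nat.cast_zero, zero_mul, vC0_s_zero]
  · unfold extraOK
    change if I.1 = 1 then _ else _
    rw [hk]
    norm_num

end Pool.Agent.H77.SG
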