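import Pool.Agent.H77.SG.VC0

/-!
# From programs to heights: instructions of kind 1

constant: `F = A ++ B`, `F' = A ++ word ++ B`, the value `c / 4` with `1 ≤ c ≤ 3`.

PROOF. Choose a small `η > 0` (smaller than `δ / 8`, than a small multiple of the slack of the gate
and than all the numbers `a.1 / 8`, `(1 - a.1) / 8` for the wires of `F` and `F'`). A wire with the value
`v` which is not consumed has the value `v - l η` (minus) or `v + l η` (plus) on the line number `l` of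
the block, `l = 0, …, 4`; the height is the value on even lines and `1` minus the value on odd lines.
`F''` is `F'` with these changes; the new wires of kinds `0`, `1` have the value `v - η` or `v + η`. Define
`g` by cases on the triple, `1 / 2` for all other triples. `passOK` by `mem_bP`.
-/

set_option autoImplicit false

namespace Pool.Agent.H77.SG

theorem stepC1 {S : List Bool} {I : ℕ × ℕ × ℕ × List Bool} {F F' : List (ℝ × Bool)}
    (hk : I.1 = 1) (hI : WFI I S) (hF : F.map Prod.snd = S) (hF01 : ∀ a ∈ F, 0 < a.1 ∧ a.1 < 1)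
    (hR : Rel I F F') {δ : ℝ} (hδ : 0 < δ) (b : ℕ) :
    ∃ (F'' : List (ℝ × Bool)) (g : ℕ × ℕ × ℕ → ℝ), Near δ F' F'' ∧
      (∀ a ∈ F'', 0 < a.1 ∧ a.1 < 1) ∧ (∀ v, 0 < g v ∧ g v < 1) ∧ fr g b S = F ∧
      fr g (b + 1) (nextS I S) = F'' ∧ blkOK g (b, S, I) := by
  unfold Rel at hR
  rw [if_neg (by omega), if_pos hk] at hR
  obtain ⟨A, B, rfl, hA, rfl⟩ := hR
  have hn : 1 ≤ I.2.2.2.length := (WFI_pos hI).2.2.2 (by omega)
  have hc : 1 ≤ I.2.2.1 ∧ I.2.2.1 ≤ 3 := by
    unfold WFI at hI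
    rw [if_neg (by omega), if_pos hk] at hI
    exact hI.2.2
  have hv0 : 0 < (I.2.2.1 : ℝ) / 4 := by
    have : (1 : ℝ) ≤ (I.2.2.1 : ℝ) := by exact_mod_cast hc.1
    linarith
  have hv1 : (I.2.2.1 : ℝ) / 4 < 1 := by
    have : (I.2.2.1 : ℝ) ≤ 3 := by exact_mod_cast hc.2
    linarith
  obtain ⟨η, hη, hηc, hf⟩ := vC0_eta (A ++ B) hF01
    (show 0 < min (δ / 8) (min ((I.2.2.1 : ℝ) / 4 / 16) ((1 - (I.2.2.1 : ℝ) / 4) / 16)) from
      lt_min (by linarith) (lt_min (by linarith) (by linarith)))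
  have e1 : η ≤ δ / 8 := hηc.trans (min_le_left _ _)
  have e2 : η ≤ (I.2.2.1 : ℝ) / 4 / 16 := hηc.trans ((min_le_right _ _).trans (min_le_left _ _))
  have e3 : η ≤ (1 - (I.2.2.1 : ℝ) / 4) / 16 :=
    hηc.trans ((min_le_right _ _).trans (min_le_right _ _))
  refine vC0_fin hF (vC0_next (by omega) hF hA _) b
    (vC0_V (A ++ B) S I.2.1 I.2.2.2 ((I.2.2.1 : ℝ) / 4) η)
    (fun l _ k => vC0_V_mem S _ _ hη ⟨by linarith, by linarith⟩ hf l k) ?_
    (vC0_near hA hη (by linarith)) ⟨vC0_passes (by omega) hn _ hη b, ?_⟩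
  · intro k _
    unfold vC0_V
    rw [if_pos (by norm_num), Nat.cast_zero, zero_mul, vC0_s_zero]
  · unfold extraOK
    change if I.1 = 1 then _ else _
    rw [if_pos hk]
    change vC0_g b _ (4 * b + 3, I.2.1, 0) = 1 - (I.2.2.1 : ℝ) / 4
    rw [vC0_g_line b _ (by norm_num : 3 ≤ 4), if_neg (by norm_num)]
    have e4 : vC0_V (A ++ B) S I.2.1 I.2.2.2 ((I.2.2.1 : ℝ) / 4) η 3 I.2.1 =
        (I.2.2.1 : ℝ) / 4 := by
      unfold vC0_V
      rw [if_neg (by norm_num), if_pos rfl, if_neg (lt_irrefl _), if_pos rfl]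
    rw [e4]

end Pool.Agent.H77.SG
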