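import Pool.Agent.H77.SG.VC0

/-!
# From programs to heights: instructions of kind 2

drop: the wire number `p` passes three times and stops on the line `4 b + 3`.

PROOF. Choose a small `η > 0` (smaller than `δ / 8`, than a small multiple of the slack of the gate
and than all the numbers `a.1 / 8`, `(1 - a.1) / 8` for the wires of `F` and `F'`). A wire with the value
`v` which is not consumed has the value `v - l η` (minus) or `v + l η` (plus) on the line number `l` of
the block, `l = 0, …, 4`; the height is the value on even lines and `1` minus the value on odd lines.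
`F''` is `F'` with these changes; the new wires of kinds `0`, `1` have the value `v - η` or `v + η`. Define
`g` by cases on the triple, `1 / 2` for all other triples. `passOK` by `mem_bP`.
-/

set_option autoImplicit false

namespace Pool.Agent.H77.SG

/-- The values for the kind `2`. -/
noncomputable def vC2_V (F : List (ℝ × Bool)) (S : List Bool) (p : ℕ) (η : ℝ) (l k : ℕ) : ℝ :=
  if l ≤ 3 then vC0_s (S.getD k false) (vC0_f F k) (l * η)
  else if k < p then vC0_s (S.getD k false) (vC0_f F k) (4 * η)
  else vC0_s (S.getD (k + 1) false) (vC0_f F (k + 1)) (4 * η)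

theorem vC2_V_mem {F : List (ℝ × Bool)} (S : List Bool) (p : ℕ) {η : ℝ} (hη : 0 < η)
    (hf : ∀ k, 8 * η < vC0_f F k ∧ vC0_f F k + 8 * η < 1) (l k : ℕ) :
    0 < vC2_V F S p η l k ∧ vC2_V F S p η l k < 1 := by
  unfold vC2_V
  split_ifs with h1 h2
  · have : (l : ℝ) ≤ 3 := by exact_mod_cast h1
    have h0 : (0 : ℝ) ≤ l := Nat.cast_nonneg l
    exact vC0_s_mem _ (hf _) (by positivity) (by nlinarith)
  · exact vC0_s_mem _ (hf _) (by positivity) (by linarith)
  · exact vC0_s_mem _ (hf _) (by positivity) (by linarith)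

theorem vC2_passes {S : List Bool} {I : ℕ × ℕ × ℕ × List Bool} (hk : I.1 = 2)
    (F : List (ℝ × Bool)) {η : ℝ} (hη : 0 < η) (b : ℕ) :
    ∀ q ∈ bP b S I, passOK (vC0_g b (vC2_V F S I.2.1 η)) q := by
  intro q hq
  rcases mem_bP.1 hq with ⟨h1, -⟩ | ⟨l, k, hl, hkW, hne, hhas, rfl⟩
  · omega
  · apply vC0_pass b _ hl
    unfold has at hhas
    rw [if_neg (by omega), if_pos hk] at hhas
    have e2 : sgn I.1 I.2.1 S l k = S.getD k false := by
      unfold sgn; rw [if_neg (by omega)]
    rw [e2]
    have e3 : vC2_V F S I.2.1 η l k = vC0_s (S.getD k false) (vC0_f F k) (l * η) := by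
      unfold vC2_V
      rw [if_pos (by omega)]
    have e4 : vC2_V F S I.2.1 η (l + 1) (tgt I.1 I.2.1 I.2.2.2.length l k) =
        vC0_s (S.getD k false) (vC0_f F k) ((l + 1 : ℕ) * η) := by
      by_cases h3 : l ≤ 2
      · have e1 : tgt I.1 I.2.1 I.2.2.2.length l k = k := by
          unfold tgt; rw [if_neg (by omega), if_pos hk, if_pos h3]
        rw [e1]
        unfold vC2_V
        rw [if_pos (by omega)]
      · have e1 : tgt I.1 I.2.1 I.2.2.2.length l k = if k < I.2.1 then k else k - 1 := by
          unfold tgt; rw [if_neg (by omega), if_pos hk, if_neg h3]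
        rw [if_neg h3] at hhas
        have hkp : k ≠ I.2.1 := by
          intro h4
          rw [h4] at hhas
          simp at hhas
        have hl3 : l = 3 := by omega
        rw [e1, hl3]
        unfold vC2_V
        rw [if_neg (by norm_num)]
        by_cases h4 : k < I.2.1
        · rw [if_pos h4, if_pos h4]
          norm_num
        · rw [if_neg h4, if_neg (by omega), Nat.sub_add_cancel (by omega)]
          norm_num
    rw [e3, e4]
    refine vC0_s_lt _ ?_
    push_cast
    linarith

theorem stepC2 {S : List Bool} {I : ℕ × ℕ × ℕ × List Bool} {F F' : List (ℝ × Bool)}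
    (hk : I.1 = 2) (hI : WFI I S) (hF : F.map Prod.snd = S) (hF01 : ∀ a ∈ F, 0 < a.1 ∧ a.1 < 1)
    (hR : Rel I F F') {δ : ℝ} (hδ : 0 < δ) (b : ℕ) :
    ∃ (F'' : List (ℝ × Bool)) (g : ℕ × ℕ × ℕ → ℝ), Near δ F' F'' ∧
      (∀ a ∈ F'', 0 < a.1 ∧ a.1 < 1) ∧ (∀ v, 0 < g v ∧ g v < 1) ∧ fr g b S = F ∧
      fr g (b + 1) (nextS I S) = F'' ∧ blkOK g (b, S, I) := by
  unfold Rel at hR
  rw [if_neg (by omega), if_neg (by omega), if_pos hk] at hR
  obtain ⟨A, B, a, rfl, hA, rfl⟩ := hR
  obtain ⟨η, hη, hηc, hf⟩ := vC0_eta (A ++ a :: B) hF01 (show 0 < δ / 8 by linarith)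
  have hnext : (A ++ B).map Prod.snd = nextS I S := by
    unfold nextS
    rw [if_neg (by omega), if_pos hk, ← hF, List.map_append, List.map_append, List.map_cons]
    have h1 : (A.map Prod.snd).length = I.2.1 := by rw [List.length_map, hA]
    rw [← h1, List.take_left, ← List.drop_drop, List.drop_left, List.drop_one, List.tail_cons]
  refine vC0_fin hF hnext b (vC2_V (A ++ a :: B) S I.2.1 η)
    (fun l _ k => vC2_V_mem S _ hη hf l k) ?_ ?_ ⟨vC2_passes hk _ hη b, ?_⟩
  · intro k _
    unfold vC2_V
    rw [if_pos (by norm_num), Nat.cast_zero, zero_mul, vC0_s_zero]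
  · intro k hkl
    unfold vC2_V
    rw [if_neg (by norm_num), vC0_f_append, hA]
    by_cases h1 : k < I.2.1
    · rw [if_pos h1, if_pos h1, vC0_f_append, hA, if_pos h1]
      exact vC0_s_near _ (by positivity) (by linarith)
    · rw [if_neg h1, if_neg h1, vC0_f_append, hA, if_neg (by omega)]
      have h2 : k + 1 - I.2.1 = (k - I.2.1) + 1 := by omega
      have h3 : vC0_f (a :: B) (k - I.2.1 + 1) = vC0_f B (k - I.2.1) := by
        unfold vC0_f
        rw [List.getD_cons_succ]
      rw [h2, h3]
      exact vC0_s_near _ (by positivity) (by linarith)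
  · unfold extraOK
    change if I.1 = 1 then _ else _
    rw [hk]
    norm_num

end Pool.Agent.H77.SG
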