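import Pool.Agent.H77.SG.VDefs

/-!
# From programs to heights: instructions of kind 3

average gate for minus wires. Heights: `c = 1 - z + η`, `y1 = 1 - y + η`, `y2 = y - 2 η`, `bb = y - 3 η`; `2 c < x + bb` if `5 η < x + y + 2 z - 2`.

PROOF. Choose a small `η > 0` (smaller than `δ / 8`, than a small multiple of the slack of the gate
and than all the numbers `a.1 / 8`, `(1 - a.1) / 8` for the wires of `F` and `F'`). A wire with the value
`v` which is not consumed has the value `v - l η` (minus) or `v + l η` (plus) on the line number `l` of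
the block, `l = 0, …, 4`; the height is the value on even lines and `1` minus the value on odd lines.
`F''` is `F'` with these changes; the new wires of kinds `0`, `1` have the value `v - η` or `v + η`. Define
`g` by cases on the triple, `1 / 2` for all other triples. `passOK` by `mem_bP`.
-/

set_option autoImplicit false

namespace Pool.Agent.H77.SG

/-- The value of the wire `k` on the line `l` of a block. -/
noncomputable def vc3_val (η : ℝ) (F : List (ℝ × Bool)) (k l : ℕ) : ℝ :=
  if (F.getD k (1 / 2, false)).2 = true then (F.getD k (1 / 2, false)).1 + l * η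
  else (F.getD k (1 / 2, false)).1 - l * η

/-- The heights. -/
noncomputable def vc3_g (η : ℝ) (F : List (ℝ × Bool)) (b p : ℕ) (v : ℕ × ℕ × ℕ) : ℝ :=
  if v.1 = 4 * b then vc3_val η F v.2.1 0
  else if v.1 = 4 * b + 1 then 1 - vc3_val η F (if v.2.1 = p + 1 then p else v.2.1) 1
  else if v.1 = 4 * b + 2 then
    (if v.2.2 = 1 then vc3_val η F (p + 2) 3
     else vc3_val η F (if v.2.1 = p + 1 then p + 2 else v.2.1) 2)
  else if v.1 = 4 * b + 3 then 1 - vc3_val η F v.2.1 3
  else if v.1 = 4 * b + 4 then vc3_val η F (if v.2.1 < p then v.2.1 else v.2.1 + 3) 4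
  else 1 / 2

theorem vc3_eta (F : List (ℝ × Bool)) (h : ∀ a ∈ F, 0 < a.1 ∧ a.1 < 1) :
    ∃ η₀ > 0, ∀ k, 8 * η₀ < (F.getD k (1 / 2, false)).1 ∧
      (F.getD k (1 / 2, false)).1 < 1 - 8 * η₀ := by
  induction F with
  | nil => exact ⟨1 / 100, by norm_num, fun k => by simp; norm_num⟩
  | cons a F ih =>
    obtain ⟨η, hη, h1⟩ := ih fun c hc => h c (List.mem_cons_of_mem _ hc)
    obtain ⟨h2, h3⟩ := h a List.mem_cons_self
    refine ⟨min η (min (a.1 / 16) ((1 - a.1) / 16)), lt_min hη (lt_min (by linarith)
      (by linarith)), fun k => ?_⟩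
    have e1 : min η (min (a.1 / 16) ((1 - a.1) / 16)) ≤ η := min_le_left _ _
    have e2 : min η (min (a.1 / 16) ((1 - a.1) / 16)) ≤ a.1 / 16 :=
      (min_le_right _ _).trans (min_le_left _ _)
    have e3 : min η (min (a.1 / 16) ((1 - a.1) / 16)) ≤ (1 - a.1) / 16 :=
      (min_le_right _ _).trans (min_le_right _ _)
    cases k with
    | zero =>
      rw [List.getD_cons_zero]
      constructor <;> linarith
    | succ k =>
      rw [List.getD_cons_succ]
      have := h1 k
      constructor <;> linarith [this.1, this.2]

theorem vc3_val_range {η : ℝ} (hη : 0 < η) {F : List (ℝ × Bool)}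
    (h : ∀ k, 8 * η < (F.getD k (1 / 2, false)).1 ∧ (F.getD k (1 / 2, false)).1 < 1 - 8 * η)
    (k l : ℕ) (hl : l ≤ 4) : 0 < vc3_val η F k l ∧ vc3_val η F k l < 1 := by
  have h1 := h k
  have h2 : (l : ℝ) * η ≤ 4 * η := by
    have : (l : ℝ) ≤ 4 := by exact_mod_cast hl
    gcongr
  have h3 : 0 ≤ (l : ℝ) * η := by positivity
  unfold vc3_val
  split_ifs
  · constructor <;> linarith [h1.1, h1.2]
  · constructor <;> linarith [h1.1, h1.2]

theorem vc3_g_range {η : ℝ} (hη : 0 < η) {F : List (ℝ × Bool)}
    (h : ∀ k, 8 * η < (F.getD k (1 / 2, false)).1 ∧ (F.getD k (1 / 2, false)).1 < 1 - 8 * η)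
    (b p : ℕ) (v : ℕ × ℕ × ℕ) : 0 < vc3_g η F b p v ∧ vc3_g η F b p v < 1 := by
  have h1 := vc3_val_range hη h
  unfold vc3_g
  split_ifs
  · exact h1 _ _ (by omega)
  · have := h1 p 1 (by omega)
    constructor <;> linarith [this.1, this.2]
  · have := h1 v.2.1 1 (by omega)
    constructor <;> linarith [this.1, this.2]
  · exact h1 _ _ (by omega)
  · exact h1 _ _ (by omega)
  · exact h1 _ _ (by omega)
  · have := h1 v.2.1 3 (by omega)
    constructor <;> linarith [this.1, this.2]
  · exact h1 _ _ (by omega)
  · exact h1 _ _ (by omega)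
  · constructor <;> norm_num

theorem vc3_pass {η : ℝ} (hη : 0 < η) {F : List (ℝ × Bool)} {b l k j : ℕ} {g : ℕ × ℕ × ℕ → ℝ}
    (hl : l < 4)
    (h1 : g (4 * b + l, k, 0) = if l % 2 = 0 then vc3_val η F k l else 1 - vc3_val η F k l)
    (h2 : g (4 * b + l + 1, j, 0) =
      if (l + 1) % 2 = 0 then vc3_val η F k (l + 1) else 1 - vc3_val η F k (l + 1)) :
    passOK g (4 * b + l, k, j, (F.getD k (1 / 2, false)).2) := by
  have e0 : (4 * b) % 2 = 0 := by omega
  have e1 : (4 * b + 1) % 2 = 1 := by omega
  have e2 : (4 * b + 2) % 2 = 0 := by omega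
  have e3 : (4 * b + 3) % 2 = 1 := by omega
  unfold passOK low
  simp only
  rw [h1, h2]
  unfold vc3_val
  cases hs : (F.getD k (1 / 2, false)).2
  · interval_cases l <;> simp [e0, e1, e2, e3] <;> linarith
  · interval_cases l <;> simp [e0, e1, e2, e3] <;> linarith

theorem stepC3 {S : List Bool} {I : ℕ × ℕ × ℕ × List Bool} {F F' : List (ℝ × Bool)}
    (hk : I.1 = 3) (hI : WFI I S) (hF : F.map Prod.snd = S) (hF01 : ∀ a ∈ F, 0 < a.1 ∧ a.1 < 1)
    (hR : Rel I F F') {δ : ℝ} (hδ : 0 < δ) (b : ℕ) :
    ∃ (F'' : List (ℝ × Bool)) (g : ℕ × ℕ × ℕ → ℝ), Near δ F' F'' ∧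
      (∀ a ∈ F'', 0 < a.1 ∧ a.1 < 1) ∧ (∀ v, 0 < g v ∧ g v < 1) ∧ fr g b S = F ∧
      fr g (b + 1) (nextS I S) = F'' ∧ blkOK g (b, S, I) := by
  obtain ⟨t, p, c, w⟩ := I
  simp only at hk
  subst hk
  subst hF
  obtain ⟨-, -, hp, -⟩ := WFI_pos hI
  have hp : p + 3 ≤ (F.map Prod.snd).length := hp (le_refl _)
  rw [List.length_map] at hp
  unfold Rel at hR
  simp only [Nat.reduceEqDiff, if_true, if_false] at hR
  obtain ⟨A, B, z, x, y, hFe, hA, hF', hg⟩ := hR
  obtain ⟨η₀, hη₀, h8⟩ := vc3_eta F hF01
  set η : ℝ := min η₀ (min (δ / 8) ((x + y + 2 * z - 2) / 8)) with hηd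
  have hη : 0 < η := lt_min hη₀ (lt_min (by linarith) (by linarith))
  have hη1 : η ≤ η₀ := min_le_left _ _
  have hη2 : η ≤ δ / 8 := (min_le_right _ _).trans (min_le_left _ _)
  have hη3 : η ≤ (x + y + 2 * z - 2) / 8 := (min_le_right _ _).trans (min_le_right _ _)
  have h8' : ∀ k, 8 * η < (F.getD k (1 / 2, false)).1 ∧
      (F.getD k (1 / 2, false)).1 < 1 - 8 * η := fun k =>
    ⟨by linarith [(h8 k).1], by linarith [(h8 k).2]⟩
  have hz : F.getD p (1 / 2, false) = (z, false) := by
    rw [hFe, List.getD_append_right _ _ _ _ hA.le, hA, Nat.sub_self, List.getD_cons_zero]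
  have hx : F.getD (p + 1) (1 / 2, false) = (x, false) := by
    rw [hFe, List.getD_append_right _ _ _ _ (by omega), hA, Nat.add_sub_cancel_left,
      List.getD_cons_succ, List.getD_cons_zero]
  have hy : F.getD (p + 2) (1 / 2, false) = (y, false) := by
    rw [hFe, List.getD_append_right _ _ _ _ (by omega), hA, Nat.add_sub_cancel_left,
      List.getD_cons_succ, List.getD_cons_succ, List.getD_cons_zero]
  have hsg : ∀ k, (F.map Prod.snd).getD k false = (F.getD k (1 / 2, false)).2 := by
    intro k
    simp only [List.getD_eq_getElem?_getD, List.getElem?_map]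
    cases F[k]? <;> rfl
  have hnear : Near δ F' (F'.map fun a => (if a.2 = true then a.1 + 4 * η else a.1 - 4 * η, a.2)) := by
    unfold Near
    rw [List.forall₂_map_right_iff, List.forall₂_same]
    intro a _
    refine ⟨rfl, ?_⟩
    have h4 : |4 * η| < δ := by
      rw [abs_of_pos (by linarith)]
      linarith
    split_ifs
    · have : a.1 - (a.1 + 4 * η) = -(4 * η) := by ring
      rw [this, abs_neg]
      exact h4
    · have : a.1 - (a.1 - 4 * η) = 4 * η := by ring
      rw [this]
      exact h4
  have hlenF : F.length = A.length + (B.length + 3) := by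
    rw [hFe]
    simp
  have hgetF' : ∀ i, (hi : i < F'.length) → F'[i] =
      F.getD (if i < p then i else i + 3) (1 / 2, false) := by
    intro i hi
    have hi' : i < A.length + B.length := by
      have := hi
      rw [hF', List.length_append] at this
      exact this
    have e1 : F'[i] = F'.getD i (1 / 2, false) := by
      rw [List.getD_eq_getElem _ _ hi]
    rw [e1, hF']
    split_ifs with h
    · rw [hFe, List.getD_append _ _ _ _ (by omega), List.getD_append _ _ _ _ (by omega)]
    · rw [hFe, List.getD_append_right _ _ _ _ (by omega),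
        List.getD_append_right _ _ _ _ (by omega)]
      have : i + 3 - A.length = (i - A.length) + 1 + 1 + 1 := by omega
      rw [this, List.getD_cons_succ, List.getD_cons_succ, List.getD_cons_succ]
  refine ⟨_, vc3_g η F b p, hnear, ?_, vc3_g_range hη h8' b p, ?_, ?_, ?_, ?_⟩
  · intro a ha
    obtain ⟨c, hc, rfl⟩ := List.mem_map.1 ha
    have hcF : c ∈ F := by
      rw [hFe]
      rw [hF'] at hc
      simp only [List.mem_append, List.mem_cons] at hc ⊢
      tauto
    obtain ⟨i, hi, rfl⟩ := List.mem_iff_getElem.1 hcF
    have h5 := h8' i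
    rw [List.getD_eq_getElem _ _ hi] at h5
    simp only
    split_ifs <;> constructor <;> linarith [h5.1, h5.2]
  · apply List.ext_getElem
    · rw [length_fr, List.length_map]
    · intro i h1 h2
      rw [getElem_fr, hsg]
      have e1 : vc3_g η F b p (4 * b, i, 0) = (F.getD i (1 / 2, false)).1 := by
        unfold vc3_g vc3_val
        simp only [if_true]
        split_ifs <;> simp
      rw [e1, List.getD_eq_getElem _ _ h2]
  · have hn : nextS (3, p, c, w) (F.map Prod.snd) = F'.map Prod.snd := by
      unfold nextS
      simp only [Nat.reduceLeDiff, Nat.reduceEqDiff, if_false]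
      rw [hF', hFe]
      simp only [List.map_append, List.map_cons]
      rw [List.take_append_of_le_length (by rw [List.length_map]; omega),
        List.take_of_length_le (by rw [List.length_map]; omega),
        List.drop_append, List.length_map, hA]
      have e2 : p + 3 - p = 3 := by omega
      rw [e2, List.drop_eq_nil_of_le (by rw [List.length_map]; omega)]
      rfl
    apply List.ext_getElem
    · rw [length_fr, hn]
      simp
    · intro i h1 h2
      rw [getElem_fr, hn, List.getElem_map]
      have h2' : i < F'.length := by simpa using h2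
      have e0 : (F'.map Prod.snd).getD i false = F'[i].2 := by
        rw [List.getD_eq_getElem _ _ (by simpa using h2'), List.getElem_map]
      rw [e0]
      have e1 : vc3_g η F b p (4 * (b + 1), i, 0) =
          vc3_val η F (if i < p then i else i + 3) 4 := by
        unfold vc3_g
        have f0 : ¬ (4 * (b + 1) = 4 * b) := by omega
        have f1 : ¬ (4 * (b + 1) = 4 * b + 1) := by omega
        have f2 : ¬ (4 * (b + 1) = 4 * b + 2) := by omega
        have f3 : ¬ (4 * (b + 1) = 4 * b + 3) := by omega
        have f4 : 4 * (b + 1) = 4 * b + 4 := by omega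
        simp only [if_neg f0, if_neg f1, if_neg f2, if_neg f3, if_pos f4]
      rw [e1, hgetF' i h2']
      unfold vc3_val
      norm_num
  · rintro ⟨T, i, j, s⟩ hq
    simp only at hq
    rcases mem_bP.1 hq with ⟨h1, -⟩ | ⟨l, k, hl, hk, -, hh, he⟩
    · simp only at h1
      omega
    · simp only [Prod.mk.injEq] at he
      obtain ⟨rfl, hik, rfl, rfl⟩ := he
      obtain rfl : k = i := hik.symm
      have hs : sgn 3 p (F.map Prod.snd) l k = (F.getD k (1 / 2, false)).2 := by
        unfold sgn
        simp only [Nat.reduceLeDiff, false_and, if_false]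
        exact hsg k
      simp only at hh ⊢
      rw [hs]
      unfold has at hh
      have f01 : ¬ (4 * b + 1 = 4 * b) := by omega
      have f02 : ¬ (4 * b + 2 = 4 * b) := by omega
      have f12 : ¬ (4 * b + 2 = 4 * b + 1) := by omega
      have f03 : ¬ (4 * b + 3 = 4 * b) := by omega
      have f13 : ¬ (4 * b + 3 = 4 * b + 1) := by omega
      have f23 : ¬ (4 * b + 3 = 4 * b + 2) := by omega
      have f04 : ¬ (4 * b + 4 = 4 * b) := by omega
      have f14 : ¬ (4 * b + 4 = 4 * b + 1) := by omega
      have f24 : ¬ (4 * b + 4 = 4 * b + 2) := by omega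
      have f34 : ¬ (4 * b + 4 = 4 * b + 3) := by omega
      interval_cases l
      · simp only [Nat.reduceLeDiff, Nat.reduceEqDiff, if_true, if_false, Bool.and_eq_true,
          Bool.not_eq_true', decide_eq_true_eq, decide_eq_false_iff_not] at hh
        refine vc3_pass hη (by omega) ?_ ?_
        · simp [vc3_g]
        · simp only [tgt, Nat.reduceLeDiff, Nat.reduceEqDiff, if_true, if_false]
          simp only [vc3_g, Nat.add_zero, if_neg f01]
          by_cases h6 : k = p
          · simp [h6]
          · simp [h6, hh.2]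
      · simp only [Nat.reduceLeDiff, Nat.reduceEqDiff, if_true, if_false, Bool.and_eq_true,
          Bool.not_eq_true', decide_eq_true_eq, decide_eq_false_iff_not] at hh
        refine vc3_pass hη (by omega) ?_ ?_
        · simp [vc3_g, hh.2]
        · simp only [tgt, Nat.reduceLeDiff, Nat.reduceEqDiff, if_true, if_false]
          simp only [vc3_g, if_neg f02, if_neg f12]
          by_cases h6 : k = p + 2
          · simp [h6]
          · simp [h6, hh.2]
      · simp only [Nat.reduceLeDiff, Nat.reduceEqDiff, if_true, if_false, Bool.and_eq_true,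
          Bool.not_eq_true', decide_eq_true_eq, Bool.and_eq_false_imp,
          decide_eq_false_iff_not] at hh
        have h6 : k ≠ p + 1 := by
          rintro rfl
          exact hh.2 (by omega) (by omega)
        refine vc3_pass hη (by omega) ?_ ?_
        · simp [vc3_g, h6]
        · simp only [tgt, Nat.reduceLeDiff, Nat.reduceEqDiff, if_true, if_false]
          simp [vc3_g]
          intro hbad
          omega
      · simp only [Nat.reduceLeDiff, Nat.reduceEqDiff, if_true, if_false, Bool.and_eq_true,
          Bool.not_eq_true', decide_eq_true_eq, Bool.and_eq_false_imp,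
          decide_eq_false_iff_not] at hh
        refine vc3_pass hη (by omega) ?_ ?_
        · simp [vc3_g]
        · simp only [tgt, Nat.reduceLeDiff, Nat.reduceEqDiff, if_true, if_false]
          by_cases h6 : k < p
          · simp [vc3_g, h6]
            intro hbad
            omega
          · have h7 : p + 3 ≤ k := by
              by_contra h8
              exact hh.2 (by omega) (by omega)
            have h8 : ¬ (k - 3 < p) := by omega
            have h9 : k - 3 + 3 = k := by omega
            simp [vc3_g, h6, h8, h9]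
            intro hbad
            omega
  · unfold extraOK
    simp only [Nat.reduceEqDiff, if_true, if_false]
    have f01 : ¬ (4 * b + 1 = 4 * b) := by omega
    have f02 : ¬ (4 * b + 2 = 4 * b) := by omega
    have f12 : ¬ (4 * b + 2 = 4 * b + 1) := by omega
    simp only [vc3_g, vc3_val, if_true, if_neg f01, if_neg f02, if_neg f12, hx, hy, hz,
      Bool.false_eq_true, if_false, Nat.zero_ne_one]
    constructor
    · push_cast
      linarith
    · push_cast
      linarith

end Pool.Agent.H77.SG
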