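import Pool.Agent.H77.SG.VDefs

/-!
# From programs to heights: instructions of kind 4

average gate for plus wires, distinguished wire at the bottom. Heights: `z1 = 1 - z - η`, `x1 = 1 - x - η`, `y1 = 1 - y - η`, `c = z + 2 η`, `y2 = y + 2 η`, `y3 = 1 - y - 3 η`, `bb = 1 - y - 4 η`; `2 c < x1 + bb` if `9 η < 2 - x - y - 2 z`.

PROOF. Choose a small `η > 0` (smaller than `δ / 8`, than a small multiple of the slack of the gate
and than all the numbers `a.1 / 8`, `(1 - a.1) / 8` for the wires of `F` and `F'`). A wire with the value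
`v` which is not consumed has the value `v - l η` (minus) or `v + l η` (plus) on the line number `l` of
the block, `l = 0, …, 4`; the height is the value on even lines and `1` minus the value on odd lines.
`F''` is `F'` with these changes; the new wires of kinds `0`, `1` have the value `v - η` or `v + η`. Define
`g` by cases on the triple, `1 / 2` for all other triples. `passOK` by `mem_bP`.
-/

set_option autoImplicit false

namespace Pool.Agent.H77.SG

/-- the wire of the front which is in the slot `k` of the line `l` of the block -/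
private def vc4_src (p l k : ℕ) : ℕ :=
  if l = 2 then (if k = p + 1 then p else k)
  else if l = 3 then (if k = p + 1 then p + 2 else k)
  else if l = 4 then (if k < p then k else k + 3)
  else k

/-- the value of a wire on the line `l` -/
private noncomputable def vc4_val (η : ℝ) (l : ℕ) (a : ℝ × Bool) : ℝ :=
  if a.2 = true then a.1 + (l : ℝ) * η else a.1 - (l : ℝ) * η

/-- the height of a wire on the line `l` -/
private noncomputable def vc4_hgt (η : ℝ) (l : ℕ) (a : ℝ × Bool) : ℝ :=
  if l % 2 = 0 then vc4_val η l a else 1 - vc4_val η l a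

private theorem vc4_hgt_mem {η : ℝ} (hη : 0 < η) {l : ℕ} (hl : l ≤ 4) {a : ℝ × Bool}
    (h1 : 5 * η ≤ a.1) (h2 : 5 * η ≤ 1 - a.1) : 0 < vc4_hgt η l a ∧ vc4_hgt η l a < 1 := by
  have hl' : (l : ℝ) ≤ 4 := by exact_mod_cast hl
  have h3 : (l : ℝ) * η ≤ 4 * η := mul_le_mul_of_nonneg_right hl' hη.le
  have h4 : 0 ≤ (l : ℝ) * η := mul_nonneg (Nat.cast_nonneg l) hη.le
  unfold vc4_hgt vc4_val
  split_ifs
  · constructor <;> linarith
  · constructor <;> linarith
  · constructor <;> linarith
  · constructor <;> linarith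

private theorem vc4_pass {η : ℝ} (hη : 0 < η) (b l : ℕ) (a : ℝ × Bool) :
    if low (4 * b + l) a.2 = true then 1 < vc4_hgt η l a + vc4_hgt η (l + 1) a
    else vc4_hgt η l a + vc4_hgt η (l + 1) a < 1 := by
  unfold low vc4_hgt vc4_val
  push_cast
  rcases Nat.even_or_odd' l with ⟨m, hm | hm⟩
  · have e1 : ¬ ((4 * b + l) % 2 = 1) := by omega
    have e2 : l % 2 = 0 := by omega
    have e3 : ¬ ((l + 1) % 2 = 0) := by omega
    rw [if_pos e2, if_neg e3, decide_eq_false e1]
    cases ha : a.2
    · simp only [beq_self_eq_true, if_true]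
      norm_num
      linarith
    · simp only [Bool.false_eq_true, if_true]
      norm_num
      linarith
  · have e1 : ((4 * b + l) % 2 = 1) := by omega
    have e2 : ¬ (l % 2 = 0) := by omega
    have e3 : ((l + 1) % 2 = 0) := by omega
    rw [if_neg e2, if_pos e3, decide_eq_true e1]
    cases ha : a.2
    · norm_num
      linarith
    · norm_num
      linarith

/-- a positive lower bound for the distances of the values to `0` and `1` -/
private theorem vc4_bound (F : List (ℝ × Bool)) (h : ∀ a ∈ F, 0 < a.1 ∧ a.1 < 1) :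
    ∃ m : ℝ, 0 < m ∧ ∀ a ∈ F, m ≤ a.1 ∧ m ≤ 1 - a.1 := by
  induction F with
  | nil => exact ⟨1, one_pos, fun a ha => absurd ha (List.not_mem_nil)⟩
  | cons a F ih =>
    obtain ⟨m, hm, h1⟩ := ih (fun c hc => h c (List.mem_cons_of_mem a hc))
    have h2 := h a List.mem_cons_self
    refine ⟨min m (min a.1 (1 - a.1)), lt_min hm (lt_min h2.1 (by linarith [h2.2])), ?_⟩
    intro c hc
    rcases List.mem_cons.mp hc with rfl | hc
    · exact ⟨(min_le_right _ _).trans (min_le_left _ _), (min_le_right _ _).trans (min_le_right _ _)⟩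
    · exact ⟨(min_le_left _ _).trans (h1 c hc).1, (min_le_left _ _).trans (h1 c hc).2⟩

/-- the edges do not change the wire -/
private theorem vc4_edge {p W n l k : ℕ} (hl : l < 4) (hp : p + 3 ≤ W)
    (h : has 4 p W l k = true) :
    k < W ∧ vc4_src p l k = k ∧ vc4_src p (l + 1) (tgt 4 p n l k) = k := by
  unfold has at h
  rw [if_neg (by norm_num), if_neg (by norm_num), if_neg (by norm_num), if_pos rfl] at h
  unfold tgt
  rw [if_neg (by norm_num), if_neg (by norm_num), if_neg (by norm_num), if_pos rfl]
  have hl' : l = 0 ∨ l = 1 ∨ l = 2 ∨ l = 3 := by omega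
  rcases hl' with rfl | rfl | rfl | rfl
  · rw [if_pos rfl] at h ⊢
    simp only [decide_eq_true_eq] at h
    exact ⟨h, rfl, rfl⟩
  · rw [if_neg (by norm_num), if_pos rfl] at h ⊢
    simp only [Bool.and_eq_true, decide_eq_true_eq, Bool.not_eq_true', decide_eq_false_iff_not]
      at h
    refine ⟨h.1, rfl, ?_⟩
    unfold vc4_src
    rw [if_pos rfl]
    by_cases hk : k = p
    · rw [if_pos hk, if_pos rfl, hk]
    · rw [if_neg hk, if_neg h.2]
  · rw [if_neg (by norm_num), if_neg (by norm_num), if_pos rfl] at h ⊢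
    simp only [Bool.and_eq_true, decide_eq_true_eq, Bool.not_eq_true', decide_eq_false_iff_not]
      at h
    refine ⟨h.1.1, ?_, ?_⟩
    · unfold vc4_src
      rw [if_pos rfl, if_neg h.2]
    · unfold vc4_src
      rw [if_neg (by norm_num), if_pos rfl]
      by_cases hk : k = p + 2
      · rw [if_pos hk, if_pos rfl, hk]
      · rw [if_neg hk, if_neg h.2]
  · rw [if_neg (by norm_num), if_neg (by norm_num), if_neg (by norm_num)] at h ⊢
    simp only [Bool.and_eq_true, decide_eq_true_eq, Bool.not_eq_true', Bool.and_eq_false_iff,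
      decide_eq_false_iff_not] at h
    refine ⟨h.1, ?_, ?_⟩
    · unfold vc4_src
      rw [if_neg (by norm_num), if_pos rfl, if_neg (by omega)]
    · unfold vc4_src
      rw [if_neg (by norm_num), if_neg (by norm_num), if_pos rfl]
      rcases h.2 with h2 | h2
      · rw [if_pos (by omega : k < p), if_pos (by omega)]
      · rw [if_neg (by omega : ¬ k < p), if_neg (by omega)]
        omega

theorem stepC4 {S : List Bool} {I : ℕ × ℕ × ℕ × List Bool} {F F' : List (ℝ × Bool)}
    (hk : I.1 = 4) (hI : WFI I S) (hF : F.map Prod.snd = S) (hF01 : ∀ a ∈ F, 0 < a.1 ∧ a.1 < 1)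
    (hR : Rel I F F') {δ : ℝ} (hδ : 0 < δ) (b : ℕ) :
    ∃ (F'' : List (ℝ × Bool)) (g : ℕ × ℕ × ℕ → ℝ), Near δ F' F'' ∧
      (∀ a ∈ F'', 0 < a.1 ∧ a.1 < 1) ∧ (∀ v, 0 < g v ∧ g v < 1) ∧ fr g b S = F ∧
      fr g (b + 1) (nextS I S) = F'' ∧ blkOK g (b, S, I) := by
  subst hF
  have hpos := (WFI_pos hI).2.2.1 (by rw [hk]; norm_num)
  unfold Rel at hR
  rw [if_neg (by rw [hk]; norm_num), if_neg (by rw [hk]; norm_num), if_neg (by rw [hk]; norm_num),
    if_neg (by rw [hk]; norm_num), if_pos hk] at hR
  obtain ⟨A, B, z, x, y, hFe, hA, hF', hlt⟩ := hR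
  obtain ⟨m, hm, hmF⟩ := vc4_bound F hF01
  have hzF : (z, true) ∈ F := by rw [hFe]; simp
  have hyF : (y, true) ∈ F := by rw [hFe]; simp
  have hm2 : m ≤ 1 / 2 := by
    have h1 := hmF _ hzF
    dsimp only at h1
    linarith
  obtain ⟨η, hη, hη1, hη2, hη3⟩ : ∃ η : ℝ, 0 < η ∧ 5 * η ≤ m ∧ 5 * η ≤ δ ∧
      10 * η ≤ 2 - (x + y + 2 * z) := by
    refine ⟨min m (min δ (2 - (x + y + 2 * z))) / 10, ?_, ?_, ?_, ?_⟩
    · exact div_pos (lt_min hm (lt_min hδ (by linarith))) (by norm_num)
    · have h1 := min_le_left m (min δ (2 - (x + y + 2 * z)))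
      linarith
    · have h1 := (min_le_right m (min δ (2 - (x + y + 2 * z)))).trans (min_le_left _ _)
      linarith
    · have h1 := (min_le_right m (min δ (2 - (x + y + 2 * z)))).trans (min_le_right _ _)
      linarith
  obtain ⟨f, hf⟩ : ∃ f : ℕ → ℝ × Bool, ∀ k, f k = F.getD k (1 / 2, false) := ⟨_, fun _ => rfl⟩
  have hfm : ∀ k, 5 * η ≤ (f k).1 ∧ 5 * η ≤ 1 - (f k).1 := by
    intro k
    rw [hf]
    rcases lt_or_ge k F.length with h1 | h1
    · rw [List.getD_eq_getElem _ _ h1]
      have h2 := hmF _ (List.getElem_mem h1)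
      exact ⟨hη1.trans h2.1, hη1.trans h2.2⟩
    · rw [List.getD_eq_default _ _ h1]
      constructor <;> norm_num <;> linarith
  obtain ⟨g, hg⟩ : ∃ g : ℕ × ℕ × ℕ → ℝ, ∀ v, g v = if v.2.2 = 0 then
      (if v.1 - 4 * b ≤ 4 then vc4_hgt η (v.1 - 4 * b) (f (vc4_src I.2.1 (v.1 - 4 * b) v.2.1))
        else 1 / 2) else 1 - y - 4 * η := ⟨_, fun _ => rfl⟩
  have hg0 : ∀ l k, l ≤ 4 → g (4 * b + l, k, 0) = vc4_hgt η l (f (vc4_src I.2.1 l k)) := by
    intro l k hl
    rw [hg]
    have e1 : 4 * b + l - 4 * b = l := by omega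
    dsimp only
    rw [if_pos rfl, e1, if_pos hl]
  have hg1 : ∀ l k, g (4 * b + l, k, 1) = 1 - y - 4 * η := by
    intro l k
    rw [hg]
    rw [if_neg one_ne_zero]
  have hg01 : ∀ v, 0 < g v ∧ g v < 1 := by
    intro v
    rw [hg]
    split_ifs with h1 h2
    · exact vc4_hgt_mem hη h2 (hfm _).1 (hfm _).2
    · constructor <;> norm_num
    · have h3 := hmF _ hyF
      dsimp only at h3
      constructor <;> linarith
  have hfp : f I.2.1 = (z, true) := by
    rw [hf, hFe, List.getD_append_right _ _ _ _ (by omega), hA, Nat.sub_self, List.getD_cons_zero]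
  have hfp1 : f (I.2.1 + 1) = (x, true) := by
    have e1 : I.2.1 + 1 - A.length = 1 := by omega
    rw [hf, hFe, List.getD_append_right _ _ _ _ (by omega), e1, List.getD_cons_succ,
      List.getD_cons_zero]
  have hfp2 : f (I.2.1 + 2) = (y, true) := by
    have e1 : I.2.1 + 2 - A.length = 2 := by omega
    rw [hf, hFe, List.getD_append_right _ _ _ _ (by omega), e1, List.getD_cons_succ,
      List.getD_cons_succ, List.getD_cons_zero]
  have hF'f : ∀ k (hk' : k < F'.length), F'[k] = f (vc4_src I.2.1 4 k) := by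
    intro k hk'
    have h0 : F'[k] = F'.getD k (1 / 2, false) := (List.getD_eq_getElem _ _ hk').symm
    rw [h0, hf, hFe, hF']
    unfold vc4_src
    rw [if_neg (by norm_num), if_neg (by norm_num), if_pos rfl]
    split_ifs with h1
    · rw [List.getD_append _ _ _ _ (by omega), List.getD_append _ _ _ _ (by omega)]
    · rw [List.getD_append_right _ _ _ _ (by omega), List.getD_append_right _ _ _ _ (by omega)]
      have e1 : k + 3 - A.length = (k - A.length) + 3 := by omega
      rw [e1, List.getD_cons_succ, List.getD_cons_succ, List.getD_cons_succ]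
  have hnext : nextS I (F.map Prod.snd) = F'.map Prod.snd := by
    unfold nextS
    rw [if_neg (by rw [hk]; norm_num), if_neg (by rw [hk]; norm_num), ← List.map_take,
      ← List.map_drop, ← List.map_append]
    congr 1
    have e1 : F.take I.2.1 = A := by
      rw [hFe, ← hA, List.take_left]
    have e2 : F.drop (I.2.1 + 3) = B := by
      have e3 : F = (A ++ [(z, true), (x, true), (y, true)]) ++ B := by
        rw [hFe]
        simp
      have e4 : (A ++ [(z, true), (x, true), (y, true)]).length = I.2.1 + 3 := by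
        rw [List.length_append, hA]
        rfl
      rw [e3, ← e4, List.drop_left]
    rw [e1, e2, hF']
  have hF'mem : ∀ a ∈ F', a ∈ F := by
    intro a ha
    rw [hF'] at ha
    rw [hFe]
    rcases List.mem_append.mp ha with h1 | h1
    · exact List.mem_append_left _ h1
    · exact List.mem_append_right _ (List.mem_cons_of_mem _ (List.mem_cons_of_mem _
        (List.mem_cons_of_mem _ h1)))
  refine ⟨F'.map (fun a => (vc4_hgt η 4 a, a.2)), g, ?_, ?_, hg01, ?_, ?_, ?_⟩
  · unfold Near
    rw [List.forall₂_map_right_iff, List.forall₂_same]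
    intro a _
    refine ⟨rfl, ?_⟩
    show |a.1 - vc4_hgt η 4 a| < δ
    unfold vc4_hgt vc4_val
    rw [if_pos (by norm_num)]
    split_ifs
    · rw [abs_lt]
      push_cast
      constructor <;> linarith
    · rw [abs_lt]
      push_cast
      constructor <;> linarith
  · intro a ha
    obtain ⟨c, hc, rfl⟩ := List.mem_map.mp ha
    have h1 := hmF c (hF'mem c hc)
    exact vc4_hgt_mem hη le_rfl (hη1.trans h1.1) (hη1.trans h1.2)
  · apply List.ext_getElem
    · rw [length_fr, List.length_map]
    · intro i h1 h2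
      rw [getElem_fr]
      have e1 : g (4 * b, i, 0) = (F[i]).1 := by
        have e2 := hg0 0 i (by norm_num)
        rw [add_zero] at e2
        rw [e2]
        have e3 : f (vc4_src I.2.1 0 i) = F[i] := by
          show f i = F[i]
          rw [hf]
          exact List.getD_eq_getElem _ _ h2
        rw [e3]
        unfold vc4_hgt vc4_val
        rw [if_pos (by norm_num)]
        split_ifs
        · push_cast
          ring
        · push_cast
          ring
      have e2 : (F.map Prod.snd).getD i false = (F[i]).2 := by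
        rw [List.getD_eq_getElem _ _ (by rw [List.length_map]; exact h2), List.getElem_map]
      rw [e1, e2]
  · rw [hnext]
    apply List.ext_getElem
    · rw [length_fr, List.length_map, List.length_map]
    · intro i h1 h2
      rw [List.length_map] at h2
      rw [getElem_fr, List.getElem_map]
      have e1 : g (4 * (b + 1), i, 0) = vc4_hgt η 4 (F'[i]) := by
        have e2 := hg0 4 i le_rfl
        have e3 : 4 * (b + 1) = 4 * b + 4 := by ring
        rw [e3, e2, hF'f i h2]
      have e2 : (F'.map Prod.snd).getD i false = (F'[i]).2 := by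
        rw [List.getD_eq_getElem _ _ (by rw [List.length_map]; exact h2), List.getElem_map]
      rw [e1, e2]
  · constructor
    · intro q hq
      rcases mem_bP.mp hq with ⟨h1, -⟩ | ⟨l, k, hl, -, -, hh, rfl⟩
      · exfalso
        dsimp only at h1
        omega
      · dsimp only at hh ⊢
        rw [hk, List.length_map] at hh
        rw [hk]
        rw [List.length_map] at hpos
        obtain ⟨h2, h3, h4⟩ := vc4_edge (n := I.2.2.2.length) hl hpos hh
        unfold passOK
        dsimp only
        have e5 : 4 * b + l + 1 = 4 * b + (l + 1) := by ring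
        rw [e5, hg0 l k (by omega), hg0 (l + 1) _ (by omega), h3, h4]
        have e6 : sgn 4 I.2.1 (F.map Prod.snd) l k = (f k).2 := by
          unfold sgn
          rw [if_neg (by norm_num), hf, List.getD_eq_getElem _ _ h2,
            List.getD_eq_getElem _ _ (by rw [List.length_map]; exact h2), List.getElem_map]
        rw [e6]
        exact vc4_pass hη b l (f k)
    · unfold extraOK
      dsimp only
      rw [if_neg (by rw [hk]; norm_num), if_neg (by rw [hk]; norm_num), if_pos hk,
        hg0 2 _ (by norm_num), hg0 1 _ (by norm_num), hg0 3 _ (by norm_num), hg1]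
      have s2 : vc4_src I.2.1 2 (I.2.1 + 1) = I.2.1 := by
        unfold vc4_src
        rw [if_pos rfl, if_pos rfl]
      have s1 : vc4_src I.2.1 1 (I.2.1 + 1) = I.2.1 + 1 := rfl
      have s3 : vc4_src I.2.1 3 (I.2.1 + 1) = I.2.1 + 2 := by
        unfold vc4_src
        rw [if_neg (by norm_num), if_pos rfl, if_pos rfl]
      rw [s1, s2, s3, hfp, hfp1, hfp2]
      unfold vc4_hgt vc4_val
      norm_num
      constructor <;> linarith

end Pool.Agent.H77.SG
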