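import Pool.Agent.H77.SG.VDefs

/-!
# From programs to heights: instructions of kind 5

average gate for plus wires, distinguished wire at the top. Heights: `x1 = 1 - x - η`, `x2 = x + 2 η`, `bb = x + 3 η`, `c = 1 - z - η`; `y + bb < 2 c` if `5 η < 2 - x - y - 2 z`.

PROOF. Choose a small `η > 0` (smaller than `δ / 8`, than a small multiple of the slack of the gate
and than all the numbers `a.1 / 8`, `(1 - a.1) / 8` for the wires of `F` and `F'`). A wire with the value
`v` which is not consumed has the value `v - l η` (minus) or `v + l η` (plus) on the line number `l` of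
the block, `l = 0, …, 4`; the height is the value on even lines and `1` minus the value on odd lines.
`F''` is `F'` with these changes; the new wires of kinds `0`, `1` have the value `v - η` or `v + η`. Define
`g` by cases on the triple, `1 / 2` for all other triples. `passOK` by `mem_bP`.
-/

set_option autoImplicit false

namespace Pool.Agent.H77.SG

/-- the value of the wire number `k` on the line number `l`. -/
noncomputable def vc5_val (F : List (ℝ × Bool)) (η : ℝ) (l k : ℕ) : ℝ :=
  (F.getD k (1 / 2, true)).1 +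
    (if (F.getD k (1 / 2, true)).2 = true then (l : ℝ) * η else -((l : ℝ) * η))

/-- the shift of a wire. -/
noncomputable def vc5_sh (η : ℝ) (a : ℝ × Bool) : ℝ × Bool :=
  (a.1 + (if a.2 = true then 4 * η else -(4 * η)), a.2)

/-- the heights in the block. -/
noncomputable def vc5_G (F : List (ℝ × Bool)) (η : ℝ) (p l k e : ℕ) : ℝ :=
  if e = 0 then
    (if l = 0 then vc5_val F η 0 k
    else if l = 1 then 1 - vc5_val F η 1 (if k = p + 1 then p + 2 else k)
    else if l = 2 then vc5_val F η 2 (if k = p + 1 then p else k)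
    else if l = 3 then 1 - vc5_val F η 3 k
    else if l = 4 then vc5_val F η 4 (if k < p then k else k + 3)
    else 1 / 2)
  else if e = 1 then (if l = 2 then vc5_val F η 3 p else 1 / 2)
  else 1 / 2

/-- the heights. -/
noncomputable def vc5_g (F : List (ℝ × Bool)) (η : ℝ) (p b : ℕ) (v : ℕ × ℕ × ℕ) : ℝ :=
  if v.1 < 4 * b then 1 / 2 else vc5_G F η p (v.1 - 4 * b) v.2.1 v.2.2

theorem vc5_g_eq (F : List (ℝ × Bool)) (η : ℝ) (p b l k e : ℕ) :
    vc5_g F η p b (4 * b + l, k, e) = vc5_G F η p l k e := by
  unfold vc5_g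
  rw [if_neg (show ¬ (4 * b + l < 4 * b) by omega)]
  show vc5_G F η p (4 * b + l - 4 * b) k e = _
  rw [Nat.add_sub_cancel_left]

/-- the values stay in the unit interval. -/
theorem vc5_val01 {F : List (ℝ × Bool)} {η : ℝ} (hη : 0 < η) (h8 : η < 1 / 16)
    (hF : ∀ a ∈ F, 8 * η < a.1 ∧ 8 * η < 1 - a.1) (l k : ℕ) (hl : l ≤ 4) :
    0 < vc5_val F η l k ∧ vc5_val F η l k < 1 := by
  have hl4 : (l : ℝ) ≤ 4 := by exact_mod_cast hl
  have hl0 : (0 : ℝ) ≤ l := Nat.cast_nonneg l
  have h1 : (l : ℝ) * η ≤ 4 * η := mul_le_mul_of_nonneg_right hl4 hη.le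
  have h0 : 0 ≤ (l : ℝ) * η := mul_nonneg hl0 hη.le
  have key : 8 * η < (F.getD k (1 / 2, true)).1 ∧ 8 * η < 1 - (F.getD k (1 / 2, true)).1 := by
    by_cases hk : k < F.length
    · rw [List.getD_eq_getElem _ _ hk]
      exact hF _ (List.getElem_mem hk)
    · rw [List.getD_eq_default _ _ (not_lt.1 hk)]
      constructor
      · show 8 * η < 1 / 2
        linarith
      · show 8 * η < 1 - 1 / 2
        linarith
  unfold vc5_val
  split_ifs
  · constructor <;> linarith [key.1, key.2]
  · constructor <;> linarith [key.1, key.2]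

theorem vc5_G01 {F : List (ℝ × Bool)} {η : ℝ} (hη : 0 < η) (h8 : η < 1 / 16)
    (hF : ∀ a ∈ F, 8 * η < a.1 ∧ 8 * η < 1 - a.1) (p l k e : ℕ) :
    0 < vc5_G F η p l k e ∧ vc5_G F η p l k e < 1 := by
  have hv := fun (l k : ℕ) (hl : l ≤ 4) => vc5_val01 hη h8 hF l k hl
  have hh : (0 : ℝ) < 1 / 2 ∧ (1 : ℝ) / 2 < 1 := by norm_num
  have hv' : ∀ l k : ℕ, l ≤ 4 → 0 < 1 - vc5_val F η l k ∧ 1 - vc5_val F η l k < 1 := by
    intro l k hl
    have := hv l k hl
    constructor <;> linarith [this.1, this.2]
  unfold vc5_G
  by_cases he : e = 0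
  · rw [if_pos he]
    by_cases h0 : l = 0
    · rw [if_pos h0]
      exact hv 0 k (by norm_num)
    · rw [if_neg h0]
      by_cases h1 : l = 1
      · rw [if_pos h1]
        exact hv' 1 _ (by norm_num)
      · rw [if_neg h1]
        by_cases h2 : l = 2
        · rw [if_pos h2]
          exact hv 2 _ (by norm_num)
        · rw [if_neg h2]
          by_cases h3 : l = 3
          · rw [if_pos h3]
            exact hv' 3 _ (by norm_num)
          · rw [if_neg h3]
            by_cases h4 : l = 4
            · rw [if_pos h4]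
              exact hv 4 _ (by norm_num)
            · rw [if_neg h4]
              exact hh
  · rw [if_neg he]
    by_cases h1 : e = 1
    · rw [if_pos h1]
      by_cases h2 : l = 2
      · rw [if_pos h2]
        exact hv 3 p (by norm_num)
      · rw [if_neg h2]
        exact hh
    · rw [if_neg h1]
      exact hh

/-- a step from an even line to an odd line. -/
theorem vc5_pass_even {g : ℕ × ℕ × ℕ → ℝ} {F : List (ℝ × Bool)} {η : ℝ} (hη : 0 < η)
    {b l k j w : ℕ} {s : Bool} (hl : l % 2 = 0) (hs : s = (F.getD w (1 / 2, true)).2)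
    (h1 : g (4 * b + l, k, 0) = vc5_val F η l w)
    (h2 : g (4 * b + l + 1, j, 0) = 1 - vc5_val F η (l + 1) w) :
    passOK g (4 * b + l, k, j, s) := by
  have hpar : decide ((4 * b + l) % 2 = 1) = false := by
    rw [decide_eq_false_iff_not]
    omega
  unfold passOK low
  simp only [hpar, h1, h2]
  unfold vc5_val
  cases hb : (F.getD w (1 / 2, true)).2
  · rw [hb] at hs
    subst hs
    simp only [Bool.false_eq_true, if_false, if_true, beq_self_eq_true]
    push_cast
    nlinarith
  · rw [hb] at hs
    subst hs
    simp only [Bool.false_beq, Bool.not_true, Bool.false_eq_true, if_false, if_true]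
    push_cast
    nlinarith

/-- a step from an odd line to an even line. -/
theorem vc5_pass_odd {g : ℕ × ℕ × ℕ → ℝ} {F : List (ℝ × Bool)} {η : ℝ} (hη : 0 < η)
    {b l k j w : ℕ} {s : Bool} (hl : l % 2 = 1) (hs : s = (F.getD w (1 / 2, true)).2)
    (h1 : g (4 * b + l, k, 0) = 1 - vc5_val F η l w)
    (h2 : g (4 * b + l + 1, j, 0) = vc5_val F η (l + 1) w) :
    passOK g (4 * b + l, k, j, s) := by
  have hpar : decide ((4 * b + l) % 2 = 1) = true := by
    rw [decide_eq_true_iff]
    omega
  unfold passOK low
  simp only [hpar, h1, h2]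
  unfold vc5_val
  cases hb : (F.getD w (1 / 2, true)).2
  · rw [hb] at hs
    subst hs
    simp only [Bool.true_beq, Bool.false_eq_true, if_false]
    push_cast
    nlinarith
  · rw [hb] at hs
    subst hs
    simp only [if_true, beq_self_eq_true]
    push_cast
    nlinarith

/-- a small number. -/
theorem vc5_eta (F : List (ℝ × Bool)) (hF : ∀ a ∈ F, 0 < a.1 ∧ a.1 < 1) {δ σ : ℝ} (hδ : 0 < δ)
    (hσ : 0 < σ) : ∃ η : ℝ, 0 < η ∧ η < 1 / 16 ∧ 4 * η < δ ∧ 5 * η < σ ∧
      ∀ a ∈ F, 8 * η < a.1 ∧ 8 * η < 1 - a.1 := by
  induction F with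
  | nil =>
    refine ⟨min (1 / 32) (min (δ / 8) (σ / 8)), ?_, ?_, ?_, ?_, ?_⟩
    · exact lt_min (by norm_num) (lt_min (by linarith) (by linarith))
    · exact lt_of_le_of_lt (min_le_left _ _) (by norm_num)
    · have : min (1 / 32) (min (δ / 8) (σ / 8)) ≤ δ / 8 :=
        le_trans (min_le_right _ _) (min_le_left _ _)
      linarith
    · have : min (1 / 32) (min (δ / 8) (σ / 8)) ≤ σ / 8 :=
        le_trans (min_le_right _ _) (min_le_right _ _)
      linarith
    · intro a ha
      exact absurd ha List.not_mem_nil
  | cons a F ih =>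
    obtain ⟨η, h0, h1, h2, h3, h4⟩ := ih (fun c hc => hF c (List.mem_cons_of_mem a hc))
    have ha := hF a List.mem_cons_self
    have m0 : 0 < min η (min (a.1 / 16) ((1 - a.1) / 16)) :=
      lt_min h0 (lt_min (by linarith [ha.1]) (by linarith [ha.2]))
    have m1 : min η (min (a.1 / 16) ((1 - a.1) / 16)) ≤ η := min_le_left _ _
    have m2 : min η (min (a.1 / 16) ((1 - a.1) / 16)) ≤ a.1 / 16 :=
      le_trans (min_le_right _ _) (min_le_left _ _)
    have m3 : min η (min (a.1 / 16) ((1 - a.1) / 16)) ≤ (1 - a.1) / 16 :=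
      le_trans (min_le_right _ _) (min_le_right _ _)
    refine ⟨min η (min (a.1 / 16) ((1 - a.1) / 16)), m0, by linarith, by linarith, by linarith,
      ?_⟩
    intro c hc
    rcases List.mem_cons.1 hc with rfl | hc
    · constructor <;> linarith [ha.1, ha.2]
    · have := h4 c hc
      constructor <;> linarith [this.1, this.2]

theorem stepC5 {S : List Bool} {I : ℕ × ℕ × ℕ × List Bool} {F F' : List (ℝ × Bool)}
    (hk : I.1 = 5) (hI : WFI I S) (hF : F.map Prod.snd = S) (hF01 : ∀ a ∈ F, 0 < a.1 ∧ a.1 < 1)
    (hR : Rel I F F') {δ : ℝ} (hδ : 0 < δ) (b : ℕ) :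
    ∃ (F'' : List (ℝ × Bool)) (g : ℕ × ℕ × ℕ → ℝ), Near δ F' F'' ∧
      (∀ a ∈ F'', 0 < a.1 ∧ a.1 < 1) ∧ (∀ v, 0 < g v ∧ g v < 1) ∧ fr g b S = F ∧
      fr g (b + 1) (nextS I S) = F'' ∧ blkOK g (b, S, I) := by
  unfold Rel at hR
  rw [if_neg (by rw [hk]; decide), if_neg (by rw [hk]; decide), if_neg (by rw [hk]; decide),
    if_neg (by rw [hk]; decide), if_neg (by rw [hk]; decide), if_pos hk] at hR
  obtain ⟨A, B, x, y, z, hFe, hA, hF'e, hxyz⟩ := hR
  obtain ⟨η, hη, h16, hηδ, hησ, hη8⟩ := vc5_eta F hF01 hδ
    (show 0 < 2 - x - y - 2 * z by linarith)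
  have hSlen : S.length = F.length := by rw [← hF, List.length_map]
  have hFlen : F.length = I.2.1 + 3 + B.length := by
    rw [hFe, List.length_append, hA]
    simp only [List.length_cons]
    omega
  have hsg : ∀ k, k < F.length → S.getD k false = (F.getD k (1 / 2, true)).2 := by
    intro k hk'
    rw [List.getD_eq_getElem _ _ hk', List.getD_eq_getElem _ _ (by rw [hSlen]; exact hk')]
    subst hF
    rw [List.getElem_map]
  have hF0 : F.getD I.2.1 (1 / 2, true) = (x, true) := by
    rw [hFe, List.getD_append_right _ _ _ _ (by rw [hA]), hA, Nat.sub_self]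
    rfl
  have hF1 : F.getD (I.2.1 + 1) (1 / 2, true) = (y, true) := by
    rw [hFe, List.getD_append_right _ _ _ _ (by rw [hA]; omega), hA, Nat.add_sub_cancel_left]
    rfl
  have hF2 : F.getD (I.2.1 + 2) (1 / 2, true) = (z, true) := by
    rw [hFe, List.getD_append_right _ _ _ _ (by rw [hA]; omega), hA, Nat.add_sub_cancel_left]
    rfl
  have hsub : ∀ a ∈ F', a ∈ F := by
    intro a ha
    rw [hF'e, List.mem_append] at ha
    rw [hFe, List.mem_append]
    rcases ha with h | h
    · exact Or.inl h
    · exact Or.inr (List.mem_cons_of_mem _ (List.mem_cons_of_mem _ (List.mem_cons_of_mem _ h)))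
  have hF'g : ∀ k, k < F'.length → F'.getD k (1 / 2, true) =
      F.getD (if k < I.2.1 then k else k + 3) (1 / 2, true) := by
    intro k hk'
    rw [hF'e, hFe]
    by_cases hkp : k < I.2.1
    · rw [if_pos hkp, List.getD_append _ _ _ _ (by rw [hA]; exact hkp),
        List.getD_append _ _ _ _ (by rw [hA]; exact hkp)]
    · rw [if_neg hkp, List.getD_append_right _ _ _ _ (by rw [hA]; omega),
        List.getD_append_right _ _ _ _ (by rw [hA]; omega), hA]
      have : k + 3 - I.2.1 = k - I.2.1 + 1 + 1 + 1 := by omega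
      rw [this]
      rfl
  have hnext : nextS I S = F'.map Prod.snd := by
    unfold nextS
    rw [if_neg (by rw [hk]; decide), if_neg (by rw [hk]; decide), ← hF, hF'e, hFe, ← hA]
    simp [List.drop_append]
  refine ⟨F'.map (vc5_sh η), vc5_g F η I.2.1 b, ?_, ?_, ?_, ?_, ?_, ?_, ?_⟩
  · -- near
    unfold Near
    rw [List.forall₂_map_right_iff]
    refine List.forall₂_same.2 ?_
    intro a _
    refine ⟨rfl, ?_⟩
    unfold vc5_sh
    cases ha : a.2
    · simp only [Bool.false_eq_true, if_false]
      rw [show a.1 - (a.1 + -(4 * η)) = 4 * η by ring, abs_of_pos (by linarith)]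
      exact hηδ
    · simp only [if_true]
      rw [show a.1 - (a.1 + 4 * η) = -(4 * η) by ring, abs_neg, abs_of_pos (by linarith)]
      exact hηδ
  · intro a ha
    rw [List.mem_map] at ha
    obtain ⟨c, hc, rfl⟩ := ha
    have h8 := hη8 c (hsub c hc)
    unfold vc5_sh
    cases hc2 : c.2
    · simp only [Bool.false_eq_true, if_false]
      constructor <;> linarith [h8.1, h8.2]
    · simp only [if_true]
      constructor <;> linarith [h8.1, h8.2]
  · intro v
    unfold vc5_g
    split_ifs
    · norm_num
    · exact vc5_G01 hη h16 hη8 _ _ _ _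
  · -- the first line
    apply List.ext_getElem
    · rw [length_fr, hSlen]
    · intro i h1 h2
      rw [getElem_fr, hsg i h2]
      have e1 : vc5_g F η I.2.1 b (4 * b, i, 0) = (F.getD i (1 / 2, true)).1 := by
        have := vc5_g_eq F η I.2.1 b 0 i 0
        rw [Nat.add_zero] at this
        rw [this]
        unfold vc5_G vc5_val
        simp
      rw [e1, List.getD_eq_getElem _ _ h2]
  · -- the last line
    rw [hnext]
    apply List.ext_getElem
    · rw [length_fr, List.length_map, List.length_map]
    · intro i h1 h2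
      have hi : i < F'.length := by
        rw [List.length_map] at h2
        exact h2
      rw [getElem_fr, List.getElem_map]
      have e0 : (F'.map Prod.snd).getD i false = F'[i].2 := by
        rw [List.getD_eq_getElem _ _ (by rw [List.length_map]; exact hi), List.getElem_map]
      have e1 : vc5_g F η I.2.1 b (4 * (b + 1), i, 0) = vc5_val F η 4
          (if i < I.2.1 then i else i + 3) := by
        have := vc5_g_eq F η I.2.1 b 4 i 0
        rw [show 4 * (b + 1) = 4 * b + 4 by ring, this]
        unfold vc5_G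
        simp
      have e2 : F.getD (if i < I.2.1 then i else i + 3) (1 / 2, true) = F'[i] := by
        rw [← hF'g i hi, List.getD_eq_getElem _ _ hi]
      rw [e0, e1]
      unfold vc5_val vc5_sh
      rw [e2]
      push_cast
      rfl
  · -- ordinary edges
    intro q hq
    rw [mem_bP] at hq
    rcases hq with hq | ⟨l, k, hl, hkS, -, hhas, rfl⟩
    · exact absurd hq.1 (by rw [hk]; decide)
    · have hg : ∀ l k e, vc5_g F η I.2.1 b (4 * b + l, k, e) = vc5_G F η I.2.1 l k e :=
        fun l k e => vc5_g_eq F η I.2.1 b l k e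
      rw [hk] at hhas ⊢
      have hsgn : k < F.length → sgn 5 I.2.1 S l k = (F.getD k (1 / 2, true)).2 := by
        intro hkF
        unfold sgn
        rw [if_neg (by omega)]
        exact hsg k hkF
      interval_cases l
      · -- line 0
        unfold has at hhas
        simp at hhas
        have hkF : k < F.length := by rw [← hSlen]; exact hhas.1
        refine vc5_pass_even (w := k) hη (by norm_num) (hsgn hkF) ?_ ?_
        · rw [hg]
          unfold vc5_G
          simp
        · rw [show 4 * b + 0 + 1 = 4 * b + 1 by ring, hg]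
          unfold vc5_G tgt
          simp only [if_true, if_false, one_ne_zero, zero_add]
          have : (if (if (5:ℕ) ≤ 1 then (if (0:ℕ) ≤ 1 then k else k) else
            (if k = I.2.1 + 2 then I.2.1 + 1 else k)) = I.2.1 + 1 then I.2.1 + 2 else
              (if k = I.2.1 + 2 then I.2.1 + 1 else k)) = k := by
            split_ifs <;> omega
          norm_num
          congr 1
          split_ifs <;> omega
      · -- line 1
        unfold has at hhas
        simp at hhas
        have hkF : k < F.length := by rw [← hSlen]; exact hhas.1.1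
        refine vc5_pass_odd (w := k) hη (by norm_num) (hsgn hkF) ?_ ?_
        · rw [hg]
          unfold vc5_G
          norm_num
          rw [if_neg hhas.1.2]
        · rw [show 4 * b + 1 + 1 = 4 * b + 2 by ring, hg]
          unfold vc5_G tgt
          norm_num
          congr 1
          split_ifs <;> omega
      · -- line 2
        unfold has at hhas
        simp at hhas
        have hkF : k < F.length := by rw [← hSlen]; exact hhas.1
        refine vc5_pass_even (w := k) hη (by norm_num) (hsgn hkF) ?_ ?_
        · rw [hg]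
          unfold vc5_G
          norm_num
          congr 1
          split_ifs <;> omega
        · rw [show 4 * b + 2 + 1 = 4 * b + 3 by ring, hg]
          unfold vc5_G tgt
          norm_num
      · -- line 3
        unfold has at hhas
        simp at hhas
        have hkF : k < F.length := by rw [← hSlen]; exact hhas.1
        refine vc5_pass_odd (w := k) hη (by norm_num) (hsgn hkF) ?_ ?_
        · rw [hg]
          unfold vc5_G
          norm_num
        · rw [show 4 * b + 3 + 1 = 4 * b + 4 by ring, hg]
          unfold vc5_G tgt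
          norm_num
          congr 1
          split_ifs <;> omega
  · -- the gate
    show extraOK (vc5_g F η I.2.1 b) b I
    unfold extraOK
    rw [if_neg (by rw [hk]; decide), if_neg (by rw [hk]; decide), if_neg (by rw [hk]; decide),
      if_pos hk]
    have g0 : vc5_g F η I.2.1 b (4 * b, I.2.1 + 1, 0) = y := by
      have := vc5_g_eq F η I.2.1 b 0 (I.2.1 + 1) 0
      rw [Nat.add_zero] at this
      rw [this]
      unfold vc5_G vc5_val
      rw [hF1]
      simp
    have v1 : vc5_val F η 1 (I.2.1 + 2) = z + η := by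
      unfold vc5_val
      rw [hF2]
      simp
    have v2 : vc5_val F η 2 I.2.1 = x + 2 * η := by
      unfold vc5_val
      rw [hF0]
      simp
    have v3 : vc5_val F η 3 I.2.1 = x + 3 * η := by
      unfold vc5_val
      rw [hF0]
      simp
    have g1 : vc5_g F η I.2.1 b (4 * b + 1, I.2.1 + 1, 0) = 1 - (z + η) := by
      rw [vc5_g_eq, ← v1]
      unfold vc5_G
      norm_num
    have g2 : vc5_g F η I.2.1 b (4 * b + 2, I.2.1 + 1, 0) = x + 2 * η := by
      rw [vc5_g_eq, ← v2]
      unfold vc5_G
      norm_num
    have g3 : vc5_g F η I.2.1 b (4 * b + 2, I.2.1 + 1, 1) = x + 3 * η := by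
      rw [vc5_g_eq, ← v3]
      unfold vc5_G
      norm_num
    rw [g0, g1, g2, g3]
    constructor <;> linarith

end Pool.Agent.H77.SG
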