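import Pool.Agent.H77.SG.VDefs

/-!
# From programs to heights: instructions of kind 6

product gate. Heights: `w1 = 1 - w + η`, `s1 = 1 - s + η`, `a = s - 2 η`, `q1 = 1 - q - η`, `q2 = q + 2 η`, `q3 = 1 - q - 3 η`, `bb = 1 - q - 4 η`, and `r` between `1 / (2 - w1) = 1 / (1 + w - η)` and `a / (1 - bb + a) = (s - 2 η) / (s + q + 2 η)`; this is possible if `(s + q + 2 η) < (s - 2 η) (1 + w - η)`, which holds for small `η` because `q < s w`.

PROOF. Choose a small `η > 0` (smaller than `δ / 8`, than a small multiple of the slack of the gate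
and than all the numbers `a.1 / 8`, `(1 - a.1) / 8` for the wires of `F` and `F'`). A wire with the value
`v` which is not consumed has the value `v - l η` (minus) or `v + l η` (plus) on the line number `l` of
the block, `l = 0, …, 4`; the height is the value on even lines and `1` minus the value on odd lines.
`F''` is `F'` with these changes; the new wires of kinds `0`, `1` have the value `v - η` or `v + η`. Define
`g` by cases on the triple, `1 / 2` for all other triples. `passOK` by `mem_bP`.
-/

set_option autoImplicit false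

namespace Pool.Agent.H77.SG

private theorem vc6_eta (F : List (ℝ × Bool)) (hF : ∀ a ∈ F, 0 < a.1 ∧ a.1 < 1) :
    ∃ η : ℝ, 0 < η ∧ ∀ a ∈ F, η < a.1 ∧ η < 1 - a.1 := by
  induction F with
  | nil => exact ⟨1, one_pos, by simp⟩
  | cons a F ih =>
    obtain ⟨η, h1, h2⟩ := ih fun c hc => hF c (List.mem_cons_of_mem _ hc)
    obtain ⟨h3, h4⟩ := hF a List.mem_cons_self
    have h5 : 0 < min η (min (a.1 / 2) ((1 - a.1) / 2)) :=
      lt_min h1 (lt_min (by linarith) (by linarith))
    refine ⟨min η (min (a.1 / 2) ((1 - a.1) / 2)), h5, fun c hc => ?_⟩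
    rcases List.mem_cons.1 hc with rfl | hc
    · have h6 := (min_le_right η (min (c.1 / 2) ((1 - c.1) / 2))).trans (min_le_left _ _)
      have h7 := (min_le_right η (min (c.1 / 2) ((1 - c.1) / 2))).trans (min_le_right _ _)
      constructor <;> linarith
    · obtain ⟨h6, h7⟩ := h2 c hc
      have h8 := min_le_left η (min (a.1 / 2) ((1 - a.1) / 2))
      constructor <;> linarith

/-- the sign -/
private def vc6_sg (s : Bool) : ℝ := if s = true then 1 else -1

private theorem vc6_sg_abs (s : Bool) : |vc6_sg s| = 1 := by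
  cases s <;> simp [vc6_sg]

/-- the heights -/
private noncomputable def vc6_g (u σ : ℕ → ℝ) (η r : ℝ) (b p : ℕ) (v : ℕ × ℕ × ℕ) : ℝ :=
  if v.2.2 = 0 then
    if v.1 = 4 * b then u v.2.1
    else if v.1 = 4 * b + 1 then 1 - (u v.2.1 + σ v.2.1 * η)
    else if v.1 = 4 * b + 2 then u v.2.1 + 2 * σ v.2.1 * η
    else if v.1 = 4 * b + 3 then
      (if v.2.1 = p + 1 then 1 - (u (p + 2) + 3 * σ (p + 2) * η)
        else 1 - (u v.2.1 + 3 * σ v.2.1 * η))
    else if v.1 = 4 * b + 4 then
      (if v.2.1 < p then u v.2.1 + 4 * σ v.2.1 * η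
        else u (v.2.1 + 3) + 4 * σ (v.2.1 + 3) * η)
    else 1 / 2
  else if v.2.2 = 1 then
    (if v.1 = 4 * b + 3 then 1 - (u (p + 2) + 4 * σ (p + 2) * η) else 1 / 2)
  else if v.1 = 4 * b + 2 then r else 1 / 2

private theorem vc6_low0 (b : ℕ) (s : Bool) : low (4 * b) s = !s := by
  have h : (4 * b) % 2 = 0 := by omega
  simp [low, h]

private theorem vc6_low1 (b : ℕ) (s : Bool) : low (4 * b + 1) s = s := by
  have h : (4 * b + 1) % 2 = 1 := by omega
  simp [low, h]

private theorem vc6_low2 (b : ℕ) (s : Bool) : low (4 * b + 2) s = !s := by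
  have h : (4 * b + 2) % 2 = 0 := by omega
  simp [low, h]

private theorem vc6_low3 (b : ℕ) (s : Bool) : low (4 * b + 3) s = s := by
  have h : (4 * b + 3) % 2 = 1 := by omega
  simp [low, h]

/-- the condition on an even line -/
private theorem vc6_even {g : ℕ × ℕ × ℕ → ℝ} {T i j : ℕ} {s : Bool} {η : ℝ} (hη : 0 < η)
    (hl : low T s = !s) (h : g (T, i, 0) + g (T + 1, j, 0) = 1 - vc6_sg s * η) :
    passOK g (T, i, j, s) := by
  unfold passOK
  simp only [hl]
  rw [h]
  cases s <;> simp [vc6_sg] <;> linarith

/-- the condition on an odd line -/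
private theorem vc6_odd {g : ℕ × ℕ × ℕ → ℝ} {T i j : ℕ} {s : Bool} {η : ℝ} (hη : 0 < η)
    (hl : low T s = s) (h : g (T, i, 0) + g (T + 1, j, 0) = 1 + vc6_sg s * η) :
    passOK g (T, i, j, s) := by
  unfold passOK
  simp only [hl]
  rw [h]
  cases s <;> simp [vc6_sg] <;> linarith

theorem stepC6 {S : List Bool} {I : ℕ × ℕ × ℕ × List Bool} {F F' : List (ℝ × Bool)}
    (hk : I.1 = 6) (hI : WFI I S) (hF : F.map Prod.snd = S) (hF01 : ∀ a ∈ F, 0 < a.1 ∧ a.1 < 1)
    (hR : Rel I F F') {δ : ℝ} (hδ : 0 < δ) (b : ℕ) :
    ∃ (F'' : List (ℝ × Bool)) (g : ℕ × ℕ × ℕ → ℝ), Near δ F' F'' ∧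
      (∀ a ∈ F'', 0 < a.1 ∧ a.1 < 1) ∧ (∀ v, 0 < g v ∧ g v < 1) ∧ fr g b S = F ∧
      fr g (b + 1) (nextS I S) = F'' ∧ blkOK g (b, S, I) := by
  have _hI := hI
  obtain ⟨t, p, c, wd⟩ := I
  dsimp only at hk
  subst hk
  have hR' : ∃ A B w s q, F = A ++ (w, false) :: (s, false) :: (q, true) :: B ∧
    A.length = p ∧ F' = A ++ B ∧ q < s * w := by
    simpa [Rel] using hR
  obtain ⟨A, B, w, s, q, hFA, hAp, hFB, hq⟩ := hR'
  have hFl : F.length = S.length := by rw [← hF, List.length_map]
  have hlen : S.length = p + 3 + B.length := by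
    rw [← hFl, hFA, List.length_append, hAp]
    simp only [List.length_cons]
    omega
  set u : ℕ → ℝ := fun k => (F.getD k (1 / 2, false)).1 with hu
  set σ : ℕ → ℝ := fun k => vc6_sg (S.getD k false) with hσ
  have hw : u p = w := by
    simp only [hu]
    rw [hFA, List.getD_append_right _ _ _ _ (by omega)]
    simp [hAp]
  have hs : u (p + 1) = s := by
    simp only [hu]
    rw [hFA, List.getD_append_right _ _ _ _ (by omega)]
    simp [hAp]
  have hqq : u (p + 2) = q := by
    simp only [hu]
    rw [hFA, List.getD_append_right _ _ _ _ (by omega)]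
    simp [hAp]
  have hS : S = A.map Prod.snd ++ false :: false :: true :: B.map Prod.snd := by
    rw [← hF, hFA]
    simp
  have hσ1 : σ p = -1 := by
    simp only [hσ]
    rw [hS, List.getD_append_right _ _ _ _ (by simp [hAp])]
    simp [hAp, vc6_sg]
  have hσ2 : σ (p + 1) = -1 := by
    simp only [hσ]
    rw [hS, List.getD_append_right _ _ _ _ (by simp [hAp])]
    simp [hAp, vc6_sg]
  have hσ3 : σ (p + 2) = 1 := by
    simp only [hσ]
    rw [hS, List.getD_append_right _ _ _ _ (by simp [hAp])]
    simp [hAp, vc6_sg]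
  -- the choice of `η`
  obtain ⟨η0, hη0, hη1⟩ := vc6_eta F hF01
  obtain ⟨η, hη, h8δ, h8s, h80, h8h⟩ : ∃ η : ℝ, 0 < η ∧ 8 * η < δ ∧ 8 * η < s * w - q ∧
      8 * η < η0 ∧ 8 * η < 1 / 2 := by
    have h1 : 0 < min δ (min (s * w - q) (min η0 (1 / 2))) :=
      lt_min hδ (lt_min (by linarith) (lt_min hη0 (by norm_num)))
    refine ⟨min δ (min (s * w - q) (min η0 (1 / 2))) / 16, by linarith, ?_, ?_, ?_, ?_⟩
    · have h2 := min_le_left δ (min (s * w - q) (min η0 (1 / 2)))
      linarith
    · have h2 := (min_le_right δ (min (s * w - q) (min η0 (1 / 2)))).trans (min_le_left _ _)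
      linarith
    · have h2 := ((min_le_right δ (min (s * w - q) (min η0 (1 / 2)))).trans
        (min_le_right _ _)).trans (min_le_left _ _)
      linarith
    · have h2 := ((min_le_right δ (min (s * w - q) (min η0 (1 / 2)))).trans
        (min_le_right _ _)).trans (min_le_right _ _)
      linarith
  have hu01 : ∀ k, 8 * η < u k ∧ u k < 1 - 8 * η := by
    intro k
    by_cases hk : k < F.length
    · have h1 : F.getD k (1 / 2, false) = F[k] := by
        rw [List.getD_eq_getElem _ _ hk]
      have h2 := hη1 F[k] (List.getElem_mem hk)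
      simp only [hu]
      rw [h1]
      constructor <;> linarith [h2.1, h2.2]
    · have h1 : F.getD k (1 / 2, false) = (1 / 2, false) := by
        rw [List.getD_eq_default _ _ (by omega)]
      simp only [hu]
      rw [h1]
      constructor <;> simp only <;> linarith
  have hσa : ∀ k, -η ≤ σ k * η ∧ σ k * η ≤ η := by
    intro k
    have h1 : |σ k * η| = η := by
      rw [abs_mul, abs_of_pos hη]
      simp only [hσ]
      rw [vc6_sg_abs, one_mul]
    exact abs_le.1 h1.le
  -- the choice of `r`
  have hw01 := hu01 p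
  have hs01 := hu01 (p + 1)
  have hq01 := hu01 (p + 2)
  rw [hw] at hw01
  rw [hs] at hs01
  rw [hqq] at hq01
  have hden1 : 0 < 1 + w - η := by linarith [hw01.1]
  have hden2 : 0 < s + q + 2 * η := by linarith [hs01.1, hq01.1]
  have hkey : (s + q + 2 * η) < (s - 2 * η) * (1 + w - η) := by
    have h1 : s * η < η := by nlinarith [hs01.2]
    have h2 : w * η < η := by nlinarith [hw01.2]
    have h3 : 0 < η * η := by positivity
    nlinarith
  have hfrac : 1 / (1 + w - η) < (s - 2 * η) / (s + q + 2 * η) := by
    rw [div_lt_div_iff₀ hden1 hden2]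
    linarith
  obtain ⟨r, hr1, hr2⟩ := exists_between hfrac
  have hr3 : 1 < r * (1 + w - η) := by
    rwa [div_lt_iff₀ hden1] at hr1
  have hr4 : r * (s + q + 2 * η) < s - 2 * η := by
    rwa [lt_div_iff₀ hden2] at hr2
  have hr0 : 0 < r := lt_trans (by positivity) hr1
  have hrlt : r < 1 := by
    refine hr2.trans ?_
    rw [div_lt_one hden2]
    linarith [hq01.1]
  set g : ℕ × ℕ × ℕ → ℝ := vc6_g u σ η r b p with hg
  have hg01 : ∀ v, 0 < g v ∧ g v < 1 := by
    intro v
    rw [hg]
    unfold vc6_g
    have h1 := hu01 v.2.1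
    have h2 := hσa v.2.1
    have h3 := hu01 (p + 2)
    have h4 := hσa (p + 2)
    have h5 := hu01 (v.2.1 + 3)
    have h6 := hσa (v.2.1 + 3)
    split_ifs <;> constructor <;> linarith [h1.1, h1.2, h2.1, h2.2, h3.1, h3.2, h4.1, h4.2,
      h5.1, h5.2, h6.1, h6.2]
  have hg0 : ∀ k, g (4 * b, k, 0) = u k := fun k => by simp [hg, vc6_g]
  have hg1 : ∀ k, g (4 * b + 1, k, 0) = 1 - (u k + σ k * η) := fun k => by simp [hg, vc6_g]
  have hg2 : ∀ k, g (4 * b + 2, k, 0) = u k + 2 * σ k * η := fun k => by simp [hg, vc6_g]
  have hg3 : ∀ k, k ≠ p + 1 → g (4 * b + 3, k, 0) = 1 - (u k + 3 * σ k * η) :=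
    fun k hk => by simp [hg, vc6_g, hk]
  have hg3' : g (4 * b + 3, p + 1, 0) = 1 - (u (p + 2) + 3 * σ (p + 2) * η) := by
    simp [hg, vc6_g]
  have hg4 : ∀ k, k < p → g (4 * b + 4, k, 0) = u k + 4 * σ k * η :=
    fun k hk => by simp [hg, vc6_g, hk]
  have hg4' : ∀ k, ¬ k < p → g (4 * b + 4, k, 0) = u (k + 3) + 4 * σ (k + 3) * η :=
    fun k hk => by simp [hg, vc6_g, hk]
  have hgb : g (4 * b + 3, p + 1, 1) = 1 - (u (p + 2) + 4 * σ (p + 2) * η) := by
    simp [hg, vc6_g]
  have hgr : g (4 * b + 2, p + 1, 2) = r := by simp [hg, vc6_g]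
  have hnext : nextS (6, p, c, wd) S = S.take p ++ S.drop (p + 3) := by simp [nextS]
  have hSp : (S.take p).length = p := by rw [List.length_take]; omega
  have hnl : (nextS (6, p, c, wd) S).length = p + B.length := by
    rw [hnext, List.length_append, hSp, List.length_drop]; omega
  refine ⟨fr g (b + 1) (nextS (6, p, c, wd) S), g, ?_, ?_, hg01, ?_, rfl, ?_, ?_⟩
  · -- near
    unfold Near
    rw [List.forall₂_iff_get]
    refine ⟨?_, ?_⟩
    · rw [length_fr, hnl, hFB, List.length_append, hAp]
    · intro i h1 h2
      rw [List.get_eq_getElem, List.get_eq_getElem, getElem_fr]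
      have hb4 : 4 * (b + 1) = 4 * b + 4 := by ring
      rw [hb4]
      rw [length_fr, hnl] at h2
      by_cases hip : i < p
      · have e1 : F'[i] = F.getD i (1 / 2, false) := by
          have h3 : F.getD i (1 / 2, false) = A[i] := by
            rw [hFA, List.getD_append _ _ _ _ (by omega), List.getD_eq_getElem _ _ (by omega)]
          rw [h3]
          simp only [hFB]
          rw [List.getElem_append_left (by omega)]
        have e2 : (nextS (6, p, c, wd) S).getD i false = S.getD i false := by
          rw [hnext, List.getD_append _ _ _ _ (by omega), List.getD_eq_getElem _ _ (by omega),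
            List.getD_eq_getElem _ _ (by omega), List.getElem_take]
        have e3 : (F.getD i (1 / 2, false)).2 = S.getD i false := by
          rw [List.getD_eq_getElem _ _ (by omega : i < F.length),
            List.getD_eq_getElem _ _ (by omega : i < S.length)]
          simp only [← hF, List.getElem_map]
        rw [e1, hg4 i hip]
        refine ⟨?_, ?_⟩
        · rw [e3, ← e2]
        · have h5 := hσa i
          have h6 : (F.getD i (1 / 2, false)).1 - (u i + 4 * σ i * η) = -(4 * (σ i * η)) := by
            simp only [hu]; ring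
          simp only
          rw [h6, abs_lt]
          constructor <;> linarith [h5.1, h5.2]
      · have e1 : F'[i] = F.getD (i + 3) (1 / 2, false) := by
          have h3 : F.getD (i + 3) (1 / 2, false) = B[i - p]'(by omega) := by
            rw [hFA, List.getD_append_right _ _ _ _ (by omega), hAp]
            have h4 : i + 3 - p = (i - p) + 3 := by omega
            rw [h4, List.getD_cons_succ, List.getD_cons_succ, List.getD_cons_succ,
              List.getD_eq_getElem _ _ (by omega)]
          rw [h3]
          simp only [hFB]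
          rw [List.getElem_append_right (by omega)]
          simp only [hAp]
        have e2 : (nextS (6, p, c, wd) S).getD i false = S.getD (i + 3) false := by
          rw [hnext, List.getD_append_right _ _ _ _ (by omega), hSp,
            List.getD_eq_getElem _ _ (by rw [List.length_drop]; omega),
            List.getD_eq_getElem _ _ (by omega), List.getElem_drop]
          congr 1
          omega
        have e3 : (F.getD (i + 3) (1 / 2, false)).2 = S.getD (i + 3) false := by
          rw [List.getD_eq_getElem _ _ (by omega : i + 3 < F.length),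
            List.getD_eq_getElem _ _ (by omega : i + 3 < S.length)]
          simp only [← hF, List.getElem_map]
        rw [e1, hg4' i hip]
        refine ⟨?_, ?_⟩
        · rw [e3, ← e2]
        · have h5 := hσa (i + 3)
          have h6 : (F.getD (i + 3) (1 / 2, false)).1 - (u (i + 3) + 4 * σ (i + 3) * η) =
              -(4 * (σ (i + 3) * η)) := by
            simp only [hu]; ring
          simp only
          rw [h6, abs_lt]
          constructor <;> linarith [h5.1, h5.2]
  · intro a ha
    unfold fr at ha
    rw [List.mem_map] at ha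
    obtain ⟨k, -, rfl⟩ := ha
    exact hg01 (4 * (b + 1), k, 0)
  · -- the first line
    apply List.ext_getElem
    · rw [length_fr, hFl]
    · intro i h1 h2
      rw [getElem_fr, hg0 i]
      have e3 : F[i].2 = S.getD i false := by
        rw [List.getD_eq_getElem _ _ (by omega : i < S.length)]
        simp only [← hF, List.getElem_map]
      simp only [hu]
      rw [List.getD_eq_getElem _ _ h2, ← e3]
  · -- ordinary edges
    intro e he
    rw [mem_bP] at he
    rcases he with he | ⟨l, k, hl, hkS, -, hhas, rfl⟩
    · exact absurd he.1 (by norm_num)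
    · have hsgn : sgn 6 p S l k = S.getD k false := by simp [sgn]
      dsimp only at hhas ⊢
      rw [hsgn]
      interval_cases l
      · have ht : tgt 6 p wd.length 0 k = k := by simp [tgt]
        rw [ht]
        refine vc6_even hη (vc6_low0 b _) ?_
        change g (4 * b, k, 0) + g (4 * b + 1, k, 0) = _
        rw [hg0, hg1]
        simp only [hσ]
        ring
      · have ht : tgt 6 p wd.length 1 k = k := by simp [tgt]
        rw [ht]
        refine vc6_odd hη (vc6_low1 b _) ?_
        change g (4 * b + 1, k, 0) + g (4 * b + 2, k, 0) = _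
        rw [hg1, hg2]
        simp only [hσ]
        ring
      · have hh : k ≠ p ∧ k ≠ p + 1 := by
          simp [has] at hhas
          exact ⟨hhas.1.2, hhas.2⟩
        by_cases hk2 : k = p + 2
        · subst hk2
          have ht : tgt 6 p wd.length 2 (p + 2) = p + 1 := by simp [tgt]
          rw [ht]
          refine vc6_even hη (vc6_low2 b _) ?_
          change g (4 * b + 2, p + 2, 0) + g (4 * b + 3, p + 1, 0) = _
          rw [hg2, hg3']
          simp only [hσ]
          ring
        · have ht : tgt 6 p wd.length 2 k = k := by simp [tgt, hk2]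
          rw [ht]
          refine vc6_even hη (vc6_low2 b _) ?_
          change g (4 * b + 2, k, 0) + g (4 * b + 3, k, 0) = _
          rw [hg2, hg3 k hh.2]
          simp only [hσ]
          ring
      · have hh : ¬ (p ≤ k ∧ k < p + 3) := by
          simp [has] at hhas
          omega
        by_cases hkp : k < p
        · have ht : tgt 6 p wd.length 3 k = k := by simp [tgt, hkp]
          rw [ht]
          refine vc6_odd hη (vc6_low3 b _) ?_
          change g (4 * b + 3, k, 0) + g (4 * b + 4, k, 0) = _
          rw [hg3 k (by omega), hg4 k hkp]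
          simp only [hσ]
          ring
        · have ht : tgt 6 p wd.length 3 k = k - 3 := by simp [tgt, hkp]
          rw [ht]
          refine vc6_odd hη (vc6_low3 b _) ?_
          change g (4 * b + 3, k, 0) + g (4 * b + 4, k - 3, 0) = _
          have h4 : k - 3 + 3 = k := by omega
          rw [hg3 k (by omega), hg4' (k - 3) (by omega), h4]
          simp only [hσ]
          ring
  · -- the gate
    have hx : extraOK g b (6, p, c, wd) ↔ (1 < g (4 * b + 2, p + 1, 2) * (2 - g (4 * b + 1, p, 0)) ∧
      g (4 * b + 2, p + 1, 2) < g (4 * b + 2, p + 1, 0) +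
        (g (4 * b + 3, p + 1, 1) - g (4 * b + 2, p + 1, 0)) * g (4 * b + 2, p + 1, 2) ∧
      g (4 * b + 3, p + 1, 1) < g (4 * b + 3, p + 1, 0)) := by
      simp [extraOK]
    change extraOK g b (6, p, c, wd)
    rw [hx, hgr, hg1, hg2, hg3', hgb, hw, hs, hqq, hσ1, hσ2, hσ3]
    refine ⟨?_, ?_, ?_⟩
    · have h1 : r * (2 - (1 - (w + -1 * η))) = r * (1 + w - η) := by ring
      rw [h1]
      exact hr3
    · nlinarith
    · linarith

end Pool.Agent.H77.SG
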