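import Pool.Agent.H77.SG.RunM
import Pool.Agent.H77.SG.BP

/-!
# The front given by the heights
-/

set_option autoImplicit false

namespace Pool.Agent.H77.SG

/-- The front on the first line of the block number `b` (an even line, so the value is the
height). -/
def fr (h : ℕ × ℕ × ℕ → ℝ) (b : ℕ) (S : List Bool) : List (ℝ × Bool) :=
  (List.range S.length).map fun k => (h (4 * b, k, 0), S.getD k false)

theorem length_fr (h : ℕ × ℕ × ℕ → ℝ) (b : ℕ) (S : List Bool) : (fr h b S).length = S.length := by
  simp [fr]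

theorem fr_snd (h : ℕ × ℕ × ℕ → ℝ) (b : ℕ) (S : List Bool) : (fr h b S).map Prod.snd = S := by
  apply List.ext_getElem
  · simp [fr]
  · intro i h1 h2
    simp [fr, h2]

theorem getElem_fr (h : ℕ × ℕ × ℕ → ℝ) (b : ℕ) (S : List Bool) (i : ℕ)
    (hi : i < (fr h b S).length) : (fr h b S)[i] = (h (4 * b, i, 0), S.getD i false) := by
  simp [fr]

end Pool.Agent.H77.SG
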