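import Pool.Agent.H77.SG.VDefs

/-!
# From heights to programs: instructions of kind 1

constant. `h (4 b + 3, p, 0) = 1 - c / 4` by `extraOK`.

PROOF. The ordinary edges are listed by `mem_bP` (unfold `has`, `tgt`, `sgn`, `passOK`, `low`; the
parity of `4 * b + l` is that of `l`). A wire which is not consumed passes four times, so its value
(`h` on even lines, `1 - h` on odd lines) decreases if it is a minus wire and increases if it is a plus
wire: this gives `Better` (compare the lists element by element, `List.forall₂_iff_get` or the like;
the position of the wire number `k` in the next front is the value of `tgt` on the last line). Keep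
`F'` explicit: it is obtained from `fr h b S` by `List.take`, `List.drop` and the word.
-/

set_option autoImplicit false

namespace Pool.Agent.H77.SG

theorem vs1_even {h : ℕ × ℕ × ℕ → ℝ} {T i j : ℕ} {s : Bool} (hT : T % 2 = 0)
    (hp : passOK h (T, i, j, s)) : (s = true → h (T, i, 0) + h (T + 1, j, 0) < 1) ∧
      (s = false → 1 < h (T, i, 0) + h (T + 1, j, 0)) := by
  unfold passOK low at hp
  simp only [hT] at hp
  cases s <;> simp at hp ⊢ <;> exact hp

theorem vs1_odd {h : ℕ × ℕ × ℕ → ℝ} {T i j : ℕ} {s : Bool} (hT : T % 2 = 1)
    (hp : passOK h (T, i, j, s)) : (s = true → 1 < h (T, i, 0) + h (T + 1, j, 0)) ∧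
      (s = false → h (T, i, 0) + h (T + 1, j, 0) < 1) := by
  unfold passOK low at hp
  simp only [hT] at hp
  cases s <;> simp at hp ⊢ <;> exact hp

theorem stepS1 {h : ℕ × ℕ × ℕ → ℝ} {b : ℕ} {S : List Bool} {I : ℕ × ℕ × ℕ × List Bool}
    (hk : I.1 = 1) (hI : WFI I S) (h01 : ∀ v, 0 ≤ h v ∧ h v ≤ 1) (hB : blkOK h (b, S, I)) :
    ∃ F', Rel I (fr h b S) F' ∧ Better F' (fr h (b + 1) (nextS I S)) := by
  obtain ⟨t, p, c, wd⟩ := I
  simp only at hk
  subst hk
  have hI' := hI
  unfold WFI at hI'
  rw [if_neg (by simp), if_pos rfl] at hI'
  obtain ⟨hp, hwd, -, -⟩ := hI'
  simp only at hp hwd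
  obtain ⟨hP, hE⟩ := hB
  simp only at hP hE
  have hE' : h (4 * b + 3, p, 0) = 1 - (c : ℝ) / 4 := by
    unfold extraOK at hE
    rw [if_pos rfl] at hE
    exact hE
  have hedge : ∀ l k, l < 4 → k ≤ S.length → ¬ (l = 3 ∧ k = p) →
      has 1 p S.length l k = true →
      passOK h (4 * b + l, k, tgt 1 p wd.length l k, sgn 1 p S l k) := by
    intro l k hl hk hne hh
    refine hP _ (mem_bP.2 (Or.inr ⟨l, k, hl, hk, ?_, hh, rfl⟩))
    rintro ⟨-, h3, h4⟩
    exact hne ⟨h3, h4⟩
  refine ⟨(fr h b S).take p ++ wd.map (fun s => ((c : ℝ) / 4, s)) ++ (fr h b S).drop p, ?_, ?_⟩
  · unfold Rel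
    rw [if_neg (by simp), if_pos rfl]
    refine ⟨(fr h b S).take p, (fr h b S).drop p, (List.take_append_drop _ _).symm, ?_, rfl⟩
    rw [List.length_take, length_fr]
    exact Nat.min_eq_left hp
  · -- comparison
    have hlenA : ((fr h b S).take p).length = p := by
      rw [List.length_take, length_fr]
      exact Nat.min_eq_left hp
    have hnext : nextS (1, p, c, wd) S = S.take p ++ wd ++ S.drop p := by
      unfold nextS
      rw [if_pos (by simp)]
    have hlenS : (S.take p).length = p := by
      rw [List.length_take]
      exact Nat.min_eq_left hp
    have key : ∀ k < S.length, ∀ i, (k < p → i = k) → (p ≤ k → i = k + wd.length) →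
        (S.getD k false = true → h (4 * b, k, 0) ≤ h (4 * (b + 1), i, 0)) ∧
        (S.getD k false = false → h (4 * (b + 1), i, 0) ≤ h (4 * b, k, 0)) := by
      intro k hk i hi1 hi2
      have h4 : 4 * (b + 1) = 4 * b + 3 + 1 := by ring
      rw [h4]
      have w1 : 1 ≤ wd.length := List.length_pos_iff.2 hwd
      have e0 := hedge 0 k (by norm_num) hk.le (by simp) (by simp [has, hk])
      have e1 := hedge 1 k (by norm_num) hk.le (by simp) (by simp [has, hk])
      have e2 := hedge 2 k (by norm_num) hk.le (by simp) (by simp [has, hk])
      have t0 : tgt 1 p wd.length 0 k = k := by simp [tgt]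
      have t1 : tgt 1 p wd.length 1 k = k := by simp [tgt]
      have s0 : sgn 1 p S 0 k = S.getD k false := by simp [sgn]
      have s1 : sgn 1 p S 1 k = S.getD k false := by simp [sgn]
      have s2 : sgn 1 p S 2 k = S.getD k false := by simp [sgn]
      rw [t0, s0] at e0
      rw [t1, s1] at e1
      rw [s2] at e2
      have f0 := vs1_even (by omega) e0
      have f1 := vs1_odd (by omega) e1
      rcases Nat.lt_or_ge k p with hkp | hkp
      · have t2 : tgt 1 p wd.length 2 k = k := by simp [tgt, hkp]
        have e3 := hedge 3 k (by norm_num) hk.le (by omega)
          (by simp only [has]; simp; omega)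
        have t3 : tgt 1 p wd.length 3 k = k := by simp [tgt, hkp]
        have s3 : sgn 1 p S 3 k = S.getD k false := by
          simp only [sgn]
          rw [if_neg (by omega)]
        rw [t2] at e2
        rw [t3, s3] at e3
        have f2 := vs1_even (by omega) e2
        have f3 := vs1_odd (by omega) e3
        obtain rfl := hi1 hkp
        simp only [Nat.add_zero, add_assoc, Nat.reduceAdd] at f0 f1 f2 f3 ⊢
        constructor
        · intro hs
          have := f0.1 hs
          have := f1.1 hs
          have := f2.1 hs
          have := f3.1 hs
          linarith
        · intro hs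
          have := f0.2 hs
          have := f1.2 hs
          have := f2.2 hs
          have := f3.2 hs
          linarith
      · have t2 : tgt 1 p wd.length 2 k = k + 1 := by
          simp only [tgt]
          simp
          omega
        have e3 := hedge 3 (k + 1) (by norm_num) (by omega) (by omega)
          (by simp only [has]; simp; omega)
        have t3 : tgt 1 p wd.length 3 (k + 1) = k + wd.length := by
          simp only [tgt]
          simp
          omega
        have s3 : sgn 1 p S 3 (k + 1) = S.getD k false := by
          unfold sgn
          rw [if_pos ⟨le_refl 1, rfl, by omega⟩]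
          rfl
        rw [t2] at e2
        rw [t3, s3] at e3
        have f2 := vs1_even (by omega) e2
        have f3 := vs1_odd (by omega) e3
        obtain rfl := hi2 hkp
        simp only [Nat.add_zero, add_assoc, Nat.reduceAdd] at f0 f1 f2 f3 ⊢
        constructor
        · intro hs
          have := f0.1 hs
          have := f1.1 hs
          have := f2.1 hs
          have := f3.1 hs
          linarith
        · intro hs
          have := f0.2 hs
          have := f1.2 hs
          have := f2.2 hs
          have := f3.2 hs
          linarith
    unfold Better
    rw [List.forall₂_iff_get]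
    have hlen : ((fr h b S).take p ++ wd.map (fun s => ((c : ℝ) / 4, s)) ++
        (fr h b S).drop p).length = (fr h (b + 1) (nextS (1, p, c, wd) S)).length := by
      rw [length_fr, hnext]
      simp only [List.length_append, List.length_take, List.length_drop, List.length_map, length_fr]
    refine ⟨hlen, ?_⟩
    intro i h₁ h₂
    simp only [List.get_eq_getElem]
    rw [getElem_fr, hnext]
    have h3 : i < p + wd.length + (S.length - p) := by
      simp only [List.length_append, List.length_take, List.length_drop, List.length_map,
        length_fr] at h₁
      omega
    rcases Nat.lt_or_ge i p with hip | hip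
    · have g1 : ((fr h b S).take p ++ wd.map (fun s => ((c : ℝ) / 4, s)) ++
          (fr h b S).drop p)[i] = (h (4 * b, i, 0), S.getD i false) := by
        rw [List.getElem_append_left (by simp only [List.length_append, hlenA]; omega),
          List.getElem_append_left (by omega), List.getElem_take, getElem_fr]
      have g2 : (S.take p ++ wd ++ S.drop p).getD i false = S.getD i false := by
        rw [List.getD_append _ _ _ _ (by simp only [List.length_append, hlenS]; omega),
          List.getD_append _ _ _ _ (by omega)]
        rw [List.getD_eq_getElem _ _ (by omega), List.getD_eq_getElem _ _ (by omega),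
          List.getElem_take]
      rw [g1, g2]
      have := key i (by omega) i (fun _ => rfl) (fun h => by omega)
      exact ⟨rfl, this.1, this.2⟩
    · rcases Nat.lt_or_ge i (p + wd.length) with hin | hin
      · have g1 : ((fr h b S).take p ++ wd.map (fun s => ((c : ℝ) / 4, s)) ++
            (fr h b S).drop p)[i] = ((c : ℝ) / 4, wd.getD (i - p) false) := by
          rw [List.getElem_append_left
              (by simp only [List.length_append, hlenA, List.length_map]; omega),
            List.getElem_append_right (by omega)]
          rw [List.getElem_map]
          simp only [hlenA]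
          rw [List.getD_eq_getElem _ _ (by omega)]
        have g2 : (S.take p ++ wd ++ S.drop p).getD i false = wd.getD (i - p) false := by
          rw [List.getD_append _ _ _ _ (by simp only [List.length_append, hlenS]; omega),
            List.getD_append_right _ _ _ _ (by omega), hlenS]
        rw [g1, g2]
        have hm : passOK h (4 * b + 3, p, p + (i - p), wd.getD (i - p) false) := by
          refine hP _ (mem_bP.2 (Or.inl ⟨by norm_num, hp, i - p, by simp only; omega, rfl⟩))
        rw [Nat.add_sub_cancel' hip] at hm
        have hh := vs1_odd (by omega) hm
        have h4 : 4 * (b + 1) = 4 * b + 3 + 1 := by ring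
        rw [h4]
        refine ⟨rfl, fun hs => ?_, fun hs => ?_⟩
        · have := hh.1 hs
          simp only at this ⊢
          linarith
        · have := hh.2 hs
          simp only at this ⊢
          linarith
      · have g1 : ((fr h b S).take p ++ wd.map (fun s => ((c : ℝ) / 4, s)) ++
            (fr h b S).drop p)[i] = (h (4 * b, i - wd.length, 0), S.getD (i - wd.length) false) := by
          rw [List.getElem_append_right
              (by simp only [List.length_append, hlenA, List.length_map]; omega)]
          rw [List.getElem_drop, getElem_fr]
          have : p + (i - ((fr h b S).take p ++ wd.map (fun s => ((c : ℝ) / 4, s))).length) =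
              i - wd.length := by
            simp only [List.length_append, hlenA, List.length_map]
            omega
          rw [this]
        have g2 : (S.take p ++ wd ++ S.drop p).getD i false = S.getD (i - wd.length) false := by
          rw [List.getD_append_right _ _ _ _ (by simp only [List.length_append, hlenS]; omega)]
          simp only [List.length_append, hlenS]
          rw [List.getD_eq_getElem _ _ (by simp only [List.length_drop]; omega),
            List.getD_eq_getElem _ _ (by omega), List.getElem_drop]
          congr 1
          omega
        rw [g1, g2]
        have := key (i - wd.length) (by omega) i (fun h => by omega) (fun h => by omega)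
        exact ⟨rfl, this.1, this.2⟩

end Pool.Agent.H77.SG
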