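import Pool.Agent.H77.SG.VDefs

/-!
# From heights to programs: instructions of kind 5

average gate for plus wires, distinguished wire at the top. With `x, y, z` the heights on the first line and `x1, x2` at `(4b+1, p, 0)`, `(4b+2, p+1, 0)`, `c, bb` at `(4b+1, p+1, 0)`, `(4b+2, p+1, 1)`: `z + c < 1`, `y + bb < 2 c`, `x2 < bb`, `x + x1 < 1`, `1 < x1 + x2`; so `x + y + 2 z < 2`.

PROOF. The ordinary edges are listed by `mem_bP` (unfold `has`, `tgt`, `sgn`, `passOK`, `low`; the
parity of `4 * b + l` is that of `l`). A wire which is not consumed passes four times, so its value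
(`h` on even lines, `1 - h` on odd lines) decreases if it is a minus wire and increases if it is a plus
wire: this gives `Better` (compare the lists element by element, `List.forall₂_iff_get` or the like;
the position of the wire number `k` in the next front is the value of `tgt` on the last line). Keep
`F'` explicit: it is obtained from `fr h b S` by `List.take`, `List.drop` and the word.
-/

set_option autoImplicit false

namespace Pool.Agent.H77.SG

private theorem vs5_even_t {h : ℕ × ℕ × ℕ → ℝ} {T i j : ℕ} (hT : T % 2 = 0)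
    (hq : passOK h (T, i, j, true)) : h (T, i, 0) + h (T + 1, j, 0) < 1 := by
  unfold passOK low at hq
  simpa [hT] using hq

private theorem vs5_odd_t {h : ℕ × ℕ × ℕ → ℝ} {T i j : ℕ} (hT : T % 2 = 1)
    (hq : passOK h (T, i, j, true)) : 1 < h (T, i, 0) + h (T + 1, j, 0) := by
  unfold passOK low at hq
  simpa [hT] using hq

private theorem vs5_even_f {h : ℕ × ℕ × ℕ → ℝ} {T i j : ℕ} (hT : T % 2 = 0)
    (hq : passOK h (T, i, j, false)) : 1 < h (T, i, 0) + h (T + 1, j, 0) := by
  unfold passOK low at hq
  simpa [hT] using hq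

private theorem vs5_odd_f {h : ℕ × ℕ × ℕ → ℝ} {T i j : ℕ} (hT : T % 2 = 1)
    (hq : passOK h (T, i, j, false)) : h (T, i, 0) + h (T + 1, j, 0) < 1 := by
  unfold passOK low at hq
  simpa [hT] using hq

private theorem vs5_sgn {I : ℕ × ℕ × ℕ × List Bool} {S : List Bool} (hk : I.1 = 5)
    (hI : WFI I S) {j : ℕ} (hj : j < 3) : S.getD (I.2.1 + j) false = true := by
  unfold WFI at hI
  simp only [hk] at hI
  norm_num at hI
  have h2 : ((S.drop I.2.1).take 3).getD j false = true := by
    rw [hI.2]
    interval_cases j <;> rfl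
  rw [← h2]
  simp [List.getD_eq_getElem?_getD, List.getElem?_take, hj]

private theorem vs5_pass {h : ℕ × ℕ × ℕ → ℝ} {b : ℕ} {S : List Bool}
    {I : ℕ × ℕ × ℕ × List Bool} (hk : I.1 = 5) (hB : ∀ q ∈ bP b S I, passOK h q) {l k i : ℕ}
    (hl : l < 4) (hk' : k ≤ S.length) (hh : has 5 I.2.1 S.length l k = true)
    (hi : tgt 5 I.2.1 I.2.2.2.length l k = i) :
    passOK h (4 * b + l, k, i, S.getD k false) := by
  subst hi
  refine hB _ (mem_bP.2 (Or.inr ⟨l, k, hl, hk', ?_, ?_, ?_⟩))
  · omega
  · rw [hk]
    exact hh
  · rw [hk]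
    simp [sgn]

private theorem vs5_wire {h : ℕ × ℕ × ℕ → ℝ} {b k i : ℕ} {s : Bool}
    (q0 : passOK h (4 * b + 0, k, k, s)) (q1 : passOK h (4 * b + 1, k, k, s))
    (q2 : passOK h (4 * b + 2, k, k, s)) (q3 : passOK h (4 * b + 3, k, i, s)) :
    (s = true → h (4 * b, k, 0) ≤ h (4 * (b + 1), i, 0)) ∧
      (s = false → h (4 * (b + 1), i, 0) ≤ h (4 * b, k, 0)) := by
  have e : 4 * (b + 1) = 4 * b + 3 + 1 := by ring
  rw [e]
  constructor
  · intro hs
    subst hs
    have a0 := vs5_even_t (by omega) q0
    have a1 := vs5_odd_t (by omega) q1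
    have a2 := vs5_even_t (by omega) q2
    have a3 := vs5_odd_t (by omega) q3
    simp only [add_zero] at a0
    have e1 : 4 * b + 1 + 1 = 4 * b + 2 := by ring
    have e2 : 4 * b + 2 + 1 = 4 * b + 3 := by ring
    rw [e1] at a1
    rw [e2] at a2
    linarith
  · intro hs
    subst hs
    have a0 := vs5_even_f (by omega) q0
    have a1 := vs5_odd_f (by omega) q1
    have a2 := vs5_even_f (by omega) q2
    have a3 := vs5_odd_f (by omega) q3
    simp only [add_zero] at a0
    have e1 : 4 * b + 1 + 1 = 4 * b + 2 := by ring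
    have e2 : 4 * b + 2 + 1 = 4 * b + 3 := by ring
    rw [e1] at a1
    rw [e2] at a2
    linarith

/-- The slot on the first line of the wire number `i` of the next front. -/
private def vs5_src (p i : ℕ) : ℕ := if i < p then i else i + 3

private theorem vs5_getElem {α : Type} (L : List α) (p i : ℕ) (hp : p + 3 ≤ L.length)
    (hi : i < (L.take p ++ L.drop (p + 3)).length) (hi' : vs5_src p i < L.length) :
    (L.take p ++ L.drop (p + 3))[i] = L[vs5_src p i] := by
  rw [List.getElem_append]
  unfold vs5_src
  split_ifs with h1 h2 h2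
  · rw [List.getElem_take]
  · exfalso
    rw [List.length_take] at h1
    omega
  · exfalso
    rw [List.length_take] at h1
    omega
  · rw [List.getElem_drop]
    congr 1
    rw [List.length_take]
    omega

theorem stepS5 {h : ℕ × ℕ × ℕ → ℝ} {b : ℕ} {S : List Bool} {I : ℕ × ℕ × ℕ × List Bool}
    (hk : I.1 = 5) (hI : WFI I S) (h01 : ∀ v, 0 ≤ h v ∧ h v ≤ 1) (hB : blkOK h (b, S, I)) :
    ∃ F', Rel I (fr h b S) F' ∧ Better F' (fr h (b + 1) (nextS I S)) := by
  have hW : I.2.1 + 3 ≤ S.length := (WFI_pos hI).2.2.1 (by omega)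
  obtain ⟨hP, hX⟩ := hB
  dsimp only at hP hX
  have hS : nextS I S = S.take I.2.1 ++ S.drop (I.2.1 + 3) := by
    unfold nextS
    rw [if_neg (by omega), if_neg (by omega)]
  refine ⟨(fr h b S).take I.2.1 ++ (fr h b S).drop (I.2.1 + 3), ?_, ?_⟩
  · -- the gate
    have hlen := length_fr h b S
    have s0 := vs5_sgn hk hI (j := 0) (by norm_num)
    have s1 := vs5_sgn hk hI (j := 1) (by norm_num)
    have s2 := vs5_sgn hk hI (j := 2) (by norm_num)
    rw [add_zero] at s0
    have f0 : (fr h b S)[I.2.1]'(by omega) = (h (4 * b, I.2.1, 0), true) := by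
      rw [getElem_fr, s0]
    have f1 : (fr h b S)[I.2.1 + 1]'(by omega) = (h (4 * b, I.2.1 + 1, 0), true) := by
      rw [getElem_fr, s1]
    have f2 : (fr h b S)[I.2.1 + 2]'(by omega) = (h (4 * b, I.2.1 + 2, 0), true) := by
      rw [getElem_fr, s2]
    have hdec : fr h b S = (fr h b S).take I.2.1 ++ (h (4 * b, I.2.1, 0), true) ::
        (h (4 * b, I.2.1 + 1, 0), true) :: (h (4 * b, I.2.1 + 2, 0), true) ::
        (fr h b S).drop (I.2.1 + 3) := by
      rw [← f0, ← f1, ← f2, ← List.drop_eq_getElem_cons, ← List.drop_eq_getElem_cons,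
        ← List.drop_eq_getElem_cons, List.take_append_drop]
    unfold Rel
    rw [if_neg (by omega), if_neg (by omega), if_neg (by omega), if_neg (by omega),
      if_neg (by omega), if_pos hk]
    refine ⟨_, _, _, _, _, hdec, ?_, rfl, ?_⟩
    · rw [List.length_take, hlen]
      omega
    · -- the inequality
      have p0 := vs5_pass hk hP (l := 0) (k := I.2.1) (i := I.2.1) (by norm_num) (by omega)
        (by simp [has]; omega) (by simp [tgt])
      have p1 := vs5_pass hk hP (l := 1) (k := I.2.1) (i := I.2.1 + 1) (by norm_num) (by omega)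
        (by simp [has]; omega) (by simp [tgt])
      have p2 := vs5_pass hk hP (l := 0) (k := I.2.1 + 2) (i := I.2.1 + 1) (by norm_num) (by omega)
        (by simp [has]; omega) (by simp [tgt])
      rw [s0] at p0 p1
      rw [s2] at p2
      have a0 := vs5_even_t (by omega) p0
      have a1 := vs5_odd_t (by omega) p1
      have a2 := vs5_even_t (by omega) p2
      unfold extraOK at hX
      rw [if_neg (by omega), if_neg (by omega), if_neg (by omega), if_pos hk] at hX
      obtain ⟨x1, x2⟩ := hX
      simp only [add_zero] at a0 a2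
      have e1 : 4 * b + 1 + 1 = 4 * b + 2 := by ring
      rw [e1] at a1
      linarith
  · -- the other wires
    unfold Better
    rw [List.forall₂_iff_get]
    have hl1 : ((fr h b S).take I.2.1 ++ (fr h b S).drop (I.2.1 + 3)).length = S.length - 3 := by
      rw [List.length_append, List.length_take, List.length_drop, length_fr]
      omega
    have hl2 : (fr h (b + 1) (nextS I S)).length = S.length - 3 := by
      rw [length_fr, hS, List.length_append, List.length_take, List.length_drop]
      omega
    refine ⟨by rw [hl1, hl2], ?_⟩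
    intro i h1 h2
    have hi : i < S.length - 3 := by rw [← hl1]; exact h1
    have hk1 : vs5_src I.2.1 i < S.length := by
      unfold vs5_src
      split_ifs <;> omega
    simp only [List.get_eq_getElem]
    rw [vs5_getElem (fr h b S) I.2.1 i (by rw [length_fr]; exact hW) h1
      (by rw [length_fr]; exact hk1), getElem_fr, getElem_fr]
    have hs : (nextS I S).getD i false = S.getD (vs5_src I.2.1 i) false := by
      have hi2 : i < (S.take I.2.1 ++ S.drop (I.2.1 + 3)).length := by
        rw [List.length_append, List.length_take, List.length_drop]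
        omega
      rw [hS, List.getD_eq_getElem _ _ hi2, List.getD_eq_getElem _ _ hk1]
      exact vs5_getElem S I.2.1 i hW hi2 hk1
    rw [hs]
    have hn : vs5_src I.2.1 i < I.2.1 ∨ I.2.1 + 3 ≤ vs5_src I.2.1 i := by
      unfold vs5_src
      split_ifs <;> omega
    have hti : (if vs5_src I.2.1 i < I.2.1 then vs5_src I.2.1 i else vs5_src I.2.1 i - 3) = i := by
      unfold vs5_src
      split_ifs <;> omega
    generalize vs5_src I.2.1 i = k at *
    have q0 := vs5_pass hk hP (l := 0) (k := k) (i := k) (by norm_num) hk1.le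
      (by simp [has]; omega) (by simp [tgt]; omega)
    have q1 := vs5_pass hk hP (l := 1) (k := k) (i := k) (by norm_num) hk1.le
      (by simp [has]; omega) (by simp [tgt]; omega)
    have q2 := vs5_pass hk hP (l := 2) (k := k) (i := k) (by norm_num) hk1.le
      (by simp [has]; omega) (by simp [tgt])
    have q3 := vs5_pass hk hP (l := 3) (k := k) (i := i) (by norm_num) hk1.le
      (by simp [has]; omega) (by simp [tgt]; exact hti)
    exact ⟨rfl, vs5_wire q0 q1 q2 q3⟩

end Pool.Agent.H77.SG
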