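import Pool.Agent.H77.SG.VDefs

/-!
# From heights to programs: instructions of kind 6

product gate. With `w, s, q` the heights on the first line, `w1, s1, q1` on the next line (`1 < w + w1`, `1 < s + s1`, `q + q1 < 1`), `a = s2` at `(4b+2, p+1, 0)` (`s1 + s2 < 1`), `q2` at `(4b+2, p+2, 0)` (`1 < q1 + q2`), `q3` at `(4b+3, p+1, 0)` (`q2 + q3 < 1`), `bb` at `(4b+3, p+1, 1)`, `r` at `(4b+2, p+1, 2)`: `1 < r (2 - w1)`, `r < a + (bb - a) r`, `bb < q3`. From `r (1 - bb + a) < a` and `1 < r (2 - w1)`, one gets `1 - bb + a ≤ (1 - bb + a) r (2 - w1) < a (2 - w1)`, i.e. `1 - bb < a (1 - w1) ≤ s w` and `q < 1 - q3 < 1 - bb`.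

PROOF. The ordinary edges are listed by `mem_bP` (unfold `has`, `tgt`, `sgn`, `passOK`, `low`; the
parity of `4 * b + l` is that of `l`). A wire which is not consumed passes four times, so its value
(`h` on even lines, `1 - h` on odd lines) decreases if it is a minus wire and increases if it is a plus
wire: this gives `Better` (compare the lists element by element, `List.forall₂_iff_get` or the like;
the position of the wire number `k` in the next front is the value of `tgt` on the last line). Keep
`F'` explicit: it is obtained from `fr h b S` by `List.take`, `List.drop` and the word.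
-/

set_option autoImplicit false

namespace Pool.Agent.H77.SG

private theorem vs6_pass {h : ℕ × ℕ × ℕ → ℝ} {b : ℕ} {S : List Bool}
    {I : ℕ × ℕ × ℕ × List Bool} (hk : I.1 = 6)
    (hB : ∀ q ∈ bP b S I, passOK h q) (l k : ℕ) (hl : l < 4) (hkW : k ≤ S.length)
    (hh : has 6 I.2.1 S.length l k = true) :
    passOK h (4 * b + l, k, tgt 6 I.2.1 I.2.2.2.length l k, S.getD k false) := by
  apply hB
  rw [mem_bP]
  right
  refine ⟨l, k, hl, hkW, ?_, ?_, ?_⟩
  · rw [hk]
    omega
  · rw [hk]
    exact hh
  · rw [hk]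
    unfold sgn
    rw [if_neg (by omega)]

private theorem vs6_even {h : ℕ × ℕ × ℕ → ℝ} {T i j : ℕ} {s : Bool} (hT : T % 2 = 0)
    (hp : passOK h (T, i, j, s)) :
    (s = true → h (T, i, 0) + h (T + 1, j, 0) < 1) ∧
      (s = false → 1 < h (T, i, 0) + h (T + 1, j, 0)) := by
  unfold passOK low at hp
  constructor
  · rintro rfl
    simpa [hT] using hp
  · rintro rfl
    simpa [hT] using hp

private theorem vs6_odd {h : ℕ × ℕ × ℕ → ℝ} {T i j : ℕ} {s : Bool} (hT : T % 2 = 1)
    (hp : passOK h (T, i, j, s)) :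
    (s = false → h (T, i, 0) + h (T + 1, j, 0) < 1) ∧
      (s = true → 1 < h (T, i, 0) + h (T + 1, j, 0)) := by
  unfold passOK low at hp
  constructor
  · rintro rfl
    simpa [hT] using hp
  · rintro rfl
    simpa [hT] using hp

private theorem vs6_wire {h : ℕ × ℕ × ℕ → ℝ} {b : ℕ} {S : List Bool}
    {I : ℕ × ℕ × ℕ × List Bool} (hk : I.1 = 6)
    (hB : ∀ q ∈ bP b S I, passOK h q) (k k' : ℕ) (hkW : k < S.length)
    (hc : (k < I.2.1 ∧ k' = k) ∨ (I.2.1 + 3 ≤ k ∧ k' = k - 3)) :
    (S.getD k false = true → h (4 * b, k, 0) ≤ h (4 * (b + 1), k', 0)) ∧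
      (S.getD k false = false → h (4 * (b + 1), k', 0) ≤ h (4 * b, k, 0)) := by
  have h0 := vs6_pass hk hB 0 k (by omega) hkW.le (by simp [has, hkW])
  have h1 := vs6_pass hk hB 1 k (by omega) hkW.le (by
    have : k ≠ I.2.1 := by omega
    simp [has, hkW, this])
  have h2 := vs6_pass hk hB 2 k (by omega) hkW.le (by
    have : k ≠ I.2.1 + 1 := by omega
    have h' : k ≠ I.2.1 := by omega
    simp [has, hkW, this, h'])
  have h3 := vs6_pass hk hB 3 k (by omega) hkW.le (by
    have : ¬ (I.2.1 ≤ k ∧ k < I.2.1 + 3) := by omega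
    simp [has, hkW]
    omega)
  have t0 : tgt 6 I.2.1 I.2.2.2.length 0 k = k := by simp [tgt]
  have t1 : tgt 6 I.2.1 I.2.2.2.length 1 k = k := by simp [tgt]
  have t2 : tgt 6 I.2.1 I.2.2.2.length 2 k = k := by
    have : k ≠ I.2.1 + 2 := by omega
    simp [tgt, this]
  have t3 : tgt 6 I.2.1 I.2.2.2.length 3 k = k' := by
    simp [tgt]
    split_ifs <;> omega
  rw [t0] at h0
  rw [t1] at h1
  rw [t2] at h2
  rw [t3] at h3
  have e0 := vs6_even (by omega) h0
  have e1 := vs6_odd (by omega) h1
  have e2 := vs6_even (by omega) h2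
  have e3 := vs6_odd (by omega) h3
  rw [show 4 * b + 0 = 4 * b from rfl, show 4 * b + 0 + 1 = 4 * b + 1 from rfl] at e0
  rw [show 4 * b + 1 + 1 = 4 * b + 2 from rfl] at e1
  rw [show 4 * b + 2 + 1 = 4 * b + 3 from rfl] at e2
  rw [show 4 * b + 3 + 1 = 4 * (b + 1) from rfl] at e3
  constructor
  · intro hs
    have a0 := e0.1 hs
    have a1 := e1.2 hs
    have a2 := e2.1 hs
    have a3 := e3.2 hs
    linarith
  · intro hs
    have a0 := e0.2 hs
    have a1 := e1.1 hs
    have a2 := e2.2 hs
    have a3 := e3.1 hs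
    linarith

private theorem vs6_take {α : Type} (L : List α) (p : ℕ) (h : p + 3 ≤ L.length) :
    L = L.take p ++ L[p] :: L[p + 1] :: L[p + 2] :: L.drop (p + 3) := by
  conv_lhs => rw [← List.take_append_drop p L]
  congr 1
  rw [List.drop_eq_getElem_cons (by omega), List.drop_eq_getElem_cons (i := p + 1) (by omega),
    List.drop_eq_getElem_cons (i := p + 1 + 1) (by omega)]

private theorem vs6_signs {S : List Bool} {p : ℕ} (h : p + 3 ≤ S.length)
    (h3 : (S.drop p).take 3 = [false, false, true]) :
    S.getD p false = false ∧ S.getD (p + 1) false = false ∧ S.getD (p + 2) false = true := by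
  have key : ∀ i, i < 3 → S.getD (p + i) false = [false, false, true].getD i false := by
    intro i hi
    have e : ((S.drop p).take 3)[i]? = [false, false, true][i]? := by
      rw [h3]
    rw [List.getElem?_take, if_pos hi, List.getElem?_drop] at e
    rw [List.getD_eq_getElem?_getD, e, List.getD_eq_getElem?_getD]
  exact ⟨key 0 (by omega), key 1 (by omega), key 2 (by omega)⟩

private theorem vs6_real {w s q w1 s1 q1 a q2 q3 bb r : ℝ} (a0 : 1 < w + w1) (a1 : 1 < s + s1)
    (a2 : s1 + a < 1) (a4 : q + q1 < 1) (a5 : 1 < q1 + q2) (a6 : q2 + q3 < 1)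
    (h1 : 1 < r * (2 - w1)) (h2 : r < a + (bb - a) * r) (h3 : bb < q3) (b1 : 0 ≤ w1)
    (b2 : w1 ≤ 1) (b3 : 0 ≤ a) (b4 : bb ≤ 1) : q < s * w := by
  have e1 : r * (1 - bb + a) < a := by nlinarith
  have e2 : 0 ≤ 1 - bb + a := by linarith
  have e3 : 0 < 2 - w1 := by linarith
  have e4 : 1 - bb + a ≤ (1 - bb + a) * (r * (2 - w1)) := by
    nlinarith [mul_nonneg e2 (sub_nonneg.mpr h1.le)]
  have e5 : r * (1 - bb + a) * (2 - w1) < a * (2 - w1) := mul_lt_mul_of_pos_right e1 e3
  have e6 : 1 - bb < a * (1 - w1) := by nlinarith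
  have e7 : a * (1 - w1) ≤ s * w := by
    apply mul_le_mul
    · linarith
    · linarith
    · linarith
    · linarith
  linarith

theorem stepS6 {h : ℕ × ℕ × ℕ → ℝ} {b : ℕ} {S : List Bool} {I : ℕ × ℕ × ℕ × List Bool}
    (hk : I.1 = 6) (hI : WFI I S) (h01 : ∀ v, 0 ≤ h v ∧ h v ≤ 1) (hB : blkOK h (b, S, I)) :
    ∃ F', Rel I (fr h b S) F' ∧ Better F' (fr h (b + 1) (nextS I S)) := by
  obtain ⟨hP, hX⟩ := hB
  have hP : ∀ q ∈ bP b S I, passOK h q := hP
  have hX : extraOK h b I := hX
  unfold WFI at hI
  rw [if_neg (by omega), if_neg (by omega), if_neg (by omega), if_neg (by omega),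
    if_neg (by omega), if_neg (by omega)] at hI
  obtain ⟨_, hlen, hs3⟩ := hI
  unfold extraOK at hX
  rw [if_neg (by omega), if_neg (by omega), if_neg (by omega), if_neg (by omega), if_pos hk] at hX
  obtain ⟨hX1, hX2, hX3⟩ := hX
  obtain ⟨s0, s1, s2⟩ := vs6_signs hlen hs3
  have hFl : (fr h b S).length = S.length := length_fr h b S
  have hn : nextS I S = S.take I.2.1 ++ S.drop (I.2.1 + 3) := by
    unfold nextS
    rw [if_neg (by omega), if_neg (by omega)]
  have hnl : (nextS I S).length = S.length - 3 := by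
    rw [hn, List.length_append, List.length_take, List.length_drop]
    omega
  refine ⟨(fr h b S).take I.2.1 ++ (fr h b S).drop (I.2.1 + 3), ?_, ?_⟩
  · unfold Rel
    rw [if_neg (by omega), if_neg (by omega), if_neg (by omega), if_neg (by omega),
      if_neg (by omega), if_neg (by omega)]
    refine ⟨(fr h b S).take I.2.1, (fr h b S).drop (I.2.1 + 3), h (4 * b, I.2.1, 0),
      h (4 * b, I.2.1 + 1, 0), h (4 * b, I.2.1 + 2, 0), ?_, ?_, rfl, ?_⟩
    · have e := vs6_take (fr h b S) I.2.1 (by omega)
      rw [getElem_fr, getElem_fr, getElem_fr, s0, s1, s2] at e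
      exact e
    · rw [List.length_take]
      omega
    · have w0 := vs6_pass hk hP 0 I.2.1 (by omega) (by omega) (by
        have : I.2.1 < S.length := by omega
        simp [has, this])
      have p0 := vs6_pass hk hP 0 (I.2.1 + 1) (by omega) (by omega) (by
        have : I.2.1 + 1 < S.length := by omega
        simp [has, this])
      have p1 := vs6_pass hk hP 1 (I.2.1 + 1) (by omega) (by omega) (by
        have : I.2.1 + 1 < S.length := by omega
        simp [has, this])
      have r0 := vs6_pass hk hP 0 (I.2.1 + 2) (by omega) (by omega) (by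
        have : I.2.1 + 2 < S.length := by omega
        simp [has, this])
      have r1 := vs6_pass hk hP 1 (I.2.1 + 2) (by omega) (by omega) (by
        have : I.2.1 + 2 < S.length := by omega
        simp [has, this])
      have r2 := vs6_pass hk hP 2 (I.2.1 + 2) (by omega) (by omega) (by
        have : I.2.1 + 2 < S.length := by omega
        simp [has, this])
      have t0 : tgt 6 I.2.1 I.2.2.2.length 0 I.2.1 = I.2.1 := by simp [tgt]
      have t1 : tgt 6 I.2.1 I.2.2.2.length 0 (I.2.1 + 1) = I.2.1 + 1 := by simp [tgt]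
      have t2 : tgt 6 I.2.1 I.2.2.2.length 1 (I.2.1 + 1) = I.2.1 + 1 := by simp [tgt]
      have t4 : tgt 6 I.2.1 I.2.2.2.length 0 (I.2.1 + 2) = I.2.1 + 2 := by simp [tgt]
      have t5 : tgt 6 I.2.1 I.2.2.2.length 1 (I.2.1 + 2) = I.2.1 + 2 := by simp [tgt]
      have t6 : tgt 6 I.2.1 I.2.2.2.length 2 (I.2.1 + 2) = I.2.1 + 1 := by simp [tgt]
      rw [t0, s0] at w0
      rw [t1, s1] at p0
      rw [t2, s1] at p1
      rw [t4, s2] at r0
      rw [t5, s2] at r1
      rw [t6, s2] at r2
      have a0 := (vs6_even (by omega) w0).2 rfl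
      have a1 := (vs6_even (by omega) p0).2 rfl
      have a2 := (vs6_odd (by omega) p1).1 rfl
      have a4 := (vs6_even (by omega) r0).1 rfl
      have a5 := (vs6_odd (by omega) r1).2 rfl
      have a6 := (vs6_even (by omega) r2).1 rfl
      rw [show 4 * b + 0 = 4 * b from rfl, show 4 * b + 0 + 1 = 4 * b + 1 from rfl] at a0 a1 a4
      rw [show 4 * b + 1 + 1 = 4 * b + 2 from rfl] at a2 a5
      rw [show 4 * b + 2 + 1 = 4 * b + 3 from rfl] at a6
      have b1 := h01 (4 * b + 1, I.2.1, 0)
      have b2 := h01 (4 * b + 2, I.2.1 + 1, 0)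
      have b3 := h01 (4 * b + 3, I.2.1 + 1, 1)
      exact vs6_real a0 a1 a2 a4 a5 a6 hX1 hX2 hX3 b1.1 b1.2 b2.1 b3.2
  · unfold Better
    rw [List.forall₂_iff_get]
    have hl1 : ((fr h b S).take I.2.1 ++ (fr h b S).drop (I.2.1 + 3)).length = S.length - 3 := by
      rw [List.length_append, List.length_take, List.length_drop]
      omega
    refine ⟨?_, ?_⟩
    · rw [hl1, length_fr, hnl]
    · intro i hi hi'
      rw [List.get_eq_getElem, List.get_eq_getElem]
      have hiS : i < S.length - 3 := by
        rw [hl1] at hi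
        exact hi
      rw [getElem_fr h (b + 1) (nextS I S) i hi']
      by_cases hip : i < I.2.1
      · have e1 : ((fr h b S).take I.2.1 ++ (fr h b S).drop (I.2.1 + 3))[i] =
            (h (4 * b, i, 0), S.getD i false) := by
          rw [List.getElem_append_left (by rw [List.length_take]; omega), List.getElem_take,
            getElem_fr]
        have e2 : (nextS I S).getD i false = S.getD i false := by
          rw [hn, List.getD_eq_getElem?_getD, List.getElem?_append_left (by
            rw [List.length_take]; omega), List.getElem?_take, if_pos hip,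
            ← List.getD_eq_getElem?_getD]
        rw [e1, e2]
        have hw := vs6_wire hk hP i i (by omega) (Or.inl ⟨hip, rfl⟩)
        exact ⟨rfl, hw.1, hw.2⟩
      · have e1 : ((fr h b S).take I.2.1 ++ (fr h b S).drop (I.2.1 + 3))[i] =
            (h (4 * b, i + 3, 0), S.getD (i + 3) false) := by
          rw [List.getElem_append_right (by rw [List.length_take]; omega), List.getElem_drop,
            getElem_fr]
          have e : I.2.1 + 3 + (i - ((fr h b S).take I.2.1).length) = i + 3 := by
            rw [List.length_take]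
            omega
          rw [e]
        have e2 : (nextS I S).getD i false = S.getD (i + 3) false := by
          rw [hn, List.getD_eq_getElem?_getD, List.getElem?_append_right (by
            rw [List.length_take]; omega), List.getElem?_drop,
            ← List.getD_eq_getElem?_getD]
          have e : I.2.1 + 3 + (i - (S.take I.2.1).length) = i + 3 := by
            rw [List.length_take]
            omega
          rw [e]
        rw [e1, e2]
        have hw := vs6_wire hk hP (i + 3) i (by omega) (Or.inr ⟨by omega, by omega⟩)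
        exact ⟨rfl, hw.1, hw.2⟩

end Pool.Agent.H77.SG
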