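import Pool.Agent.H77.SG.VS0
import Pool.Agent.H77.SG.VS1
import Pool.Agent.H77.SG.VS2
import Pool.Agent.H77.SG.VS3
import Pool.Agent.H77.SG.VS4
import Pool.Agent.H77.SG.VS5
import Pool.Agent.H77.SG.VS6
import Pool.Agent.H77.SG.VC0
import Pool.Agent.H77.SG.VC1
import Pool.Agent.H77.SG.VC2
import Pool.Agent.H77.SG.VC3
import Pool.Agent.H77.SG.VC4
import Pool.Agent.H77.SG.VC5
import Pool.Agent.H77.SG.VC6

/-!
# Heights and programs

PROOFS. `heights_run'`: induction on the program; `stepS` gives `F'` with `Rel I (fr h b S) F'` and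
`Better F' (fr h (b + 1) (nextS I S))`, and `Run_mono` transfers the induction hypothesis (the kind is
at most `6` by `WFI_kind`). `run_heights'`: induction on the program; from `Rel I F F'` and
`Run π F'` take `δ` from `Run_open`, then `F''`, `g` from `stepC`, apply the induction hypothesis
to `F''` and the block number `b + 1` to get `h'`, and put `h v = g v` if `v.1 < 4 (b + 1)` and
`h v = h' v` otherwise; `blkOK` for the block `b` only involves the lines `4 b, …, 4 b + 4`, on the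
last one only the triples `(4 (b + 1), k, 0)` with `k < (nextS I S).length`, where `g` and `h'` agree
(`fr g (b + 1) _ = F'' = fr h' (b + 1) _`); for later blocks only lines `≥ 4 (b + 1)`.
-/

set_option autoImplicit false

namespace Pool.Agent.H77.SG

theorem vmain_stepS {h : ℕ × ℕ × ℕ → ℝ} {b : ℕ} {S : List Bool} {I : ℕ × ℕ × ℕ × List Bool}
    (hI : WFI I S) (h01 : ∀ v, 0 ≤ h v ∧ h v ≤ 1) (hB : blkOK h (b, S, I)) :
    ∃ F', Rel I (fr h b S) F' ∧ Better F' (fr h (b + 1) (nextS I S)) := by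
  have hk := WFI_kind hI
  have h7 : I.1 = 0 ∨ I.1 = 1 ∨ I.1 = 2 ∨ I.1 = 3 ∨ I.1 = 4 ∨ I.1 = 5 ∨ I.1 = 6 := by omega
  rcases h7 with h | h | h | h | h | h | h
  · exact stepS0 h hI h01 hB
  · exact stepS1 h hI h01 hB
  · exact stepS2 h hI h01 hB
  · exact stepS3 h hI h01 hB
  · exact stepS4 h hI h01 hB
  · exact stepS5 h hI h01 hB
  · exact stepS6 h hI h01 hB

theorem vmain_stepC {S : List Bool} {I : ℕ × ℕ × ℕ × List Bool} {F F' : List (ℝ × Bool)}
    (hI : WFI I S) (hF : F.map Prod.snd = S) (hF01 : ∀ a ∈ F, 0 < a.1 ∧ a.1 < 1)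
    (hR : Rel I F F') {δ : ℝ} (hδ : 0 < δ) (b : ℕ) :
    ∃ (F'' : List (ℝ × Bool)) (g : ℕ × ℕ × ℕ → ℝ), Near δ F' F'' ∧
      (∀ a ∈ F'', 0 < a.1 ∧ a.1 < 1) ∧ (∀ v, 0 < g v ∧ g v < 1) ∧ fr g b S = F ∧
      fr g (b + 1) (nextS I S) = F'' ∧ blkOK g (b, S, I) := by
  have hk := WFI_kind hI
  have h7 : I.1 = 0 ∨ I.1 = 1 ∨ I.1 = 2 ∨ I.1 = 3 ∨ I.1 = 4 ∨ I.1 = 5 ∨ I.1 = 6 := by omega
  rcases h7 with h | h | h | h | h | h | h
  · exact stepC0 h hI hF hF01 hR hδ b
  · exact stepC1 h hI hF hF01 hR hδ b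
  · exact stepC2 h hI hF hF01 hR hδ b
  · exact stepC3 h hI hF hF01 hR hδ b
  · exact stepC4 h hI hF hF01 hR hδ b
  · exact stepC5 h hI hF hF01 hR hδ b
  · exact stepC6 h hI hF hF01 hR hδ b

theorem vmain_passOK {h g : ℕ × ℕ × ℕ → ℝ} {q : ℕ × ℕ × ℕ × Bool}
    (h1 : h (q.1, q.2.1, 0) = g (q.1, q.2.1, 0))
    (h2 : h (q.1 + 1, q.2.2.1, 0) = g (q.1 + 1, q.2.2.1, 0)) (hg : passOK g q) :
    passOK h q := by
  unfold passOK at hg ⊢
  rw [h1, h2]
  exact hg

theorem vmain_extraOK {h g : ℕ × ℕ × ℕ → ℝ} {b : ℕ} {I : ℕ × ℕ × ℕ × List Bool}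
    (hv : ∀ l ≤ 3, ∀ k e, h (4 * b + l, k, e) = g (4 * b + l, k, e)) (hg : extraOK g b I) :
    extraOK h b I := by
  have h0 := fun k e => hv 0 (by omega) k e
  have h1 := fun k e => hv 1 (by omega) k e
  have h2 := fun k e => hv 2 (by omega) k e
  have h3 := fun k e => hv 3 (by omega) k e
  simp only [Nat.add_zero] at h0
  unfold extraOK at hg ⊢
  simp only [h0, h1, h2, h3]
  exact hg

theorem vmain_slot {b : ℕ} {S : List Bool} {I : ℕ × ℕ × ℕ × List Bool} (hI : WFI I S)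
    {q : ℕ × ℕ × ℕ × Bool} (hq : q ∈ bP b S I) (h3 : q.1 = 4 * b + 3) :
    q.2.2.1 < (nextS I S).length := by
  have hk := WFI_kind hI
  obtain ⟨hp1, hp2, hp3, hp4⟩ := WFI_pos hI
  rw [mem_bP] at hq
  rcases hq with ⟨h1, h2, j, hj, rfl⟩ | ⟨l, k, hl, hkS, hne, hhas, rfl⟩
  · unfold nextS
    rw [if_pos h1]
    simp only [List.length_append, List.length_take, List.length_drop]
    omega
  · have hl3 : l = 3 := by
      simp only at h3
      omega
    subst hl3
    unfold nextS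
    simp only [has, tgt] at hhas ⊢
    have h7 : I.1 = 0 ∨ I.1 = 1 ∨ I.1 = 2 ∨ I.1 = 3 ∨ I.1 = 4 ∨ I.1 = 5 ∨ I.1 = 6 := by omega
    rcases h7 with h | h | h | h | h | h | h <;> simp [h] at hhas hp2 hp3 hp4 ⊢ <;>
      (split_ifs <;> omega)

theorem heights_run' {π : List (ℕ × ℕ × ℕ × List Bool)} : ∀ {b : ℕ} {S : List Bool}, WF π S →
    ∀ {h : ℕ × ℕ × ℕ → ℝ}, (∀ v, 0 ≤ h v ∧ h v ≤ 1) → (∀ B ∈ blocks b S π, blkOK h B) →
    Run π (fr h b S) := by
  induction π with
  | nil =>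
    intro b S _ h _ _
    trivial
  | cons I π ih =>
    intro b S hW h h01 hB
    obtain ⟨hI, hW'⟩ := hW
    obtain ⟨F', hR, hb⟩ := vmain_stepS hI h01 (hB (b, S, I) (by
      rw [blocks]
      exact List.mem_cons_self))
    have h1 : Run π (fr h (b + 1) (nextS I S)) := by
      refine ih hW' h01 ?_
      intro B hB'
      refine hB B ?_
      rw [blocks]
      exact List.mem_cons_of_mem _ hB'
    refine ⟨F', hR, Run_mono hb ?_ h1⟩
    intro a ha
    unfold fr at ha
    rw [List.mem_map] at ha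
    obtain ⟨k, _, rfl⟩ := ha
    exact (h01 _).1

theorem run_heights' {π : List (ℕ × ℕ × ℕ × List Bool)} : ∀ {b : ℕ} {S : List Bool}, WF π S →
    ∀ {F : List (ℝ × Bool)}, F.map Prod.snd = S → (∀ a ∈ F, 0 < a.1 ∧ a.1 < 1) → Run π F →
    ∃ h : ℕ × ℕ × ℕ → ℝ, (∀ v, 0 < h v ∧ h v < 1) ∧ fr h b S = F ∧
      ∀ B ∈ blocks b S π, blkOK h B := by
  induction π with
  | nil =>
    intro b S hW F hF _ _
    have hS : S = [] := hW
    subst hS
    have hF0 : F = [] := List.map_eq_nil_iff.1 hF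
    subst hF0
    refine ⟨fun _ => 1 / 2, fun _ => by norm_num, rfl, ?_⟩
    intro B hB
    rw [blocks] at hB
    exact absurd hB List.not_mem_nil
  | cons I π ih =>
    intro b S hW F hF hF01 hRun
    obtain ⟨hI, hW'⟩ := hW
    obtain ⟨F', hR, hRun'⟩ := hRun
    obtain ⟨δ, hδ, hop⟩ := Run_open hRun'
    obtain ⟨F'', g, hN, hF'', hg01, hg1, hg2, hgB⟩ := vmain_stepC hI hF hF01 hR hδ b
    obtain ⟨h', h'01, h'1, h'B⟩ := ih (b := b + 1) hW' (F := F'') (by rw [← hg2]; exact fr_snd _ _ _)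
      hF'' (hop F'' hN)
    obtain ⟨h, hh⟩ : ∃ h : ℕ × ℕ × ℕ → ℝ, h = fun v => if v.1 < 4 * (b + 1) then g v else h' v :=
      ⟨_, rfl⟩
    have hlow : ∀ v : ℕ × ℕ × ℕ, v.1 < 4 * (b + 1) → h v = g v := by
      intro v hv
      rw [hh]
      exact if_pos hv
    have hhigh : ∀ v : ℕ × ℕ × ℕ, 4 * (b + 1) ≤ v.1 → h v = h' v := by
      intro v hv
      rw [hh]
      exact if_neg (not_lt.2 hv)
    have hmid : ∀ k < (nextS I S).length, g (4 * (b + 1), k, 0) = h' (4 * (b + 1), k, 0) := by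
      intro k hk
      have h1 : fr g (b + 1) (nextS I S) = fr h' (b + 1) (nextS I S) := hg2.trans h'1.symm
      have h2 : k < (fr g (b + 1) (nextS I S)).length := by rw [length_fr]; exact hk
      have h3 : k < (fr h' (b + 1) (nextS I S)).length := by rw [length_fr]; exact hk
      have h4 : (fr g (b + 1) (nextS I S))[k] = (fr h' (b + 1) (nextS I S))[k] := by
        simp only [h1]
      rw [getElem_fr, getElem_fr] at h4
      exact congrArg Prod.fst h4
    refine ⟨h, ?_, ?_, ?_⟩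
    · intro v
      by_cases hv : v.1 < 4 * (b + 1)
      · rw [hlow v hv]
        exact hg01 v
      · rw [hhigh v (not_lt.1 hv)]
        exact h'01 v
    · rw [← hg1]
      unfold fr
      refine List.map_congr_left fun k _ => ?_
      rw [hlow _ (by simp only; omega)]
    · intro B hB
      rw [blocks, List.mem_cons] at hB
      rcases hB with rfl | hB
      · refine ⟨?_, ?_⟩
        · intro q hq
          obtain ⟨hr1, hr2, hr3⟩ := bP_range hI hq
          refine vmain_passOK (hlow _ (by simp only; omega)) ?_ (hgB.1 q hq)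
          by_cases hq3 : q.1 = 4 * b + 3
          · have h5 := vmain_slot hI hq hq3
            have h6 : q.1 + 1 = 4 * (b + 1) := by omega
            rw [h6, hhigh _ (le_refl _), hmid _ h5]
          · exact hlow _ (by simp only; omega)
        · exact vmain_extraOK (fun l hl k e => hlow _ (by simp only; omega)) hgB.2
      · have h7 := h'B B hB
        have h8 := (blocks_num B hB).1
        have h9 := blocks_wf hW' B hB
        refine ⟨?_, ?_⟩
        · intro q hq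
          obtain ⟨hr1, hr2, hr3⟩ := bP_range h9 hq
          exact vmain_passOK (hhigh _ (by simp only; omega)) (hhigh _ (by simp only; omega))
            (h7.1 q hq)
        · exact vmain_extraOK (fun l hl k e => hhigh _ (by simp only; omega)) h7.2

theorem heights_run {π : List (ℕ × ℕ × ℕ × List Bool)} (hW : WF π []) {h : ℕ × ℕ × ℕ → ℝ}
    (h01 : ∀ v, 0 ≤ h v ∧ h v ≤ 1) (hB : ∀ B ∈ blocks 0 [] π, blkOK h B) : Run π [] :=
  heights_run' hW h01 hB

theorem run_heights {π : List (ℕ × ℕ × ℕ × List Bool)} (hW : WF π []) (hR : Run π []) :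
    ∃ h : ℕ × ℕ × ℕ → ℝ, (∀ v, 0 < h v ∧ h v < 1) ∧ ∀ B ∈ blocks 0 [] π, blkOK h B := by
  obtain ⟨h, h1, -, h2⟩ := run_heights' (b := 0) hW (F := []) rfl (by simp) hR
  exact ⟨h, h1, h2⟩

end Pool.Agent.H77.SG
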