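import Pool.Agent.H77.SG.VDefs

/-!
# From heights to programs: instructions of kind 0

new variable. Take for the value of the source a number `v` in `(0, 1)` with `u < v` for all minus wires and `v < u` for all plus wires of the word, where `u` are the values at the right ends: `v₀ = 1 - h (4 b + 3, p, 0)` satisfies these inequalities and lies in the closed unit interval (`passOK` on an odd line), and one can move it a little.

PROOF. The ordinary edges are listed by `mem_bP` (unfold `has`, `tgt`, `sgn`, `passOK`, `low`; the
parity of `4 * b + l` is that of `l`). A wire which is not consumed passes four times, so its value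
(`h` on even lines, `1 - h` on odd lines) decreases if it is a minus wire and increases if it is a plus
wire: this gives `Better` (compare the lists element by element, `List.forall₂_iff_get` or the like;
the position of the wire number `k` in the next front is the value of `tgt` on the last line). Keep
`F'` explicit: it is obtained from `fr h b S` by `List.take`, `List.drop` and the word.
-/

set_option autoImplicit false

namespace Pool.Agent.H77.SG

theorem vs0_better {F F' : List (ℝ × Bool)} (hl : F.length = F'.length)
    (h : ∀ i < F.length, (F.getD i (0, false)).2 = (F'.getD i (0, false)).2 ∧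
      ((F.getD i (0, false)).2 = true → (F.getD i (0, false)).1 ≤ (F'.getD i (0, false)).1) ∧
      ((F.getD i (0, false)).2 = false → (F'.getD i (0, false)).1 ≤ (F.getD i (0, false)).1)) :
    Better F F' := by
  unfold Better
  rw [List.forall₂_iff_get]
  refine ⟨hl, fun i h1 h2 => ?_⟩
  have h3 := h i h1
  rw [List.getD_eq_getElem _ _ h1, List.getD_eq_getElem _ _ h2] at h3
  simpa using h3

theorem vs0_getD_fr (h : ℕ × ℕ × ℕ → ℝ) (b : ℕ) (S : List Bool) {k : ℕ} (hk : k < S.length) :
    (fr h b S).getD k (0, false) = (h (4 * b, k, 0), S.getD k false) := by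
  have hk' : k < (fr h b S).length := by rwa [length_fr]
  rw [List.getD_eq_getElem _ _ hk', getElem_fr]

theorem vs0_getD_app {α : Type} (A M B : List α) (d : α) (i : ℕ) :
    (A ++ M ++ B).getD i d = if i < A.length then A.getD i d else
      if i < A.length + M.length then M.getD (i - A.length) d
      else B.getD (i - (A.length + M.length)) d := by
  split_ifs with h1 h2
  · rw [List.append_assoc, List.getD_append _ _ _ _ h1]
  · rw [List.getD_append _ _ _ _ (by rw [List.length_append]; exact h2),
      List.getD_append_right _ _ _ _ (not_lt.1 h1)]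
  · rw [List.getD_append_right _ _ _ _ (by rw [List.length_append]; exact not_lt.1 h2),
      List.length_append]

theorem vs0_getD_take {α : Type} (L : List α) (d : α) {p i : ℕ} (h : i < p) :
    (L.take p).getD i d = L.getD i d := by
  rw [List.getD_eq_getElem?_getD, List.getD_eq_getElem?_getD, List.getElem?_take_of_lt h]

theorem vs0_getD_drop {α : Type} (L : List α) (d : α) (p i : ℕ) :
    (L.drop p).getD i d = L.getD (p + i) d := by
  rw [List.getD_eq_getElem?_getD, List.getD_eq_getElem?_getD, List.getElem?_drop]

/-- A wire which passes four times. -/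
theorem vs0_chain {h : ℕ × ℕ × ℕ → ℝ} {b k0 k1 k2 k3 k4 : ℕ} {s : Bool}
    (h0 : passOK h (4 * b + 0, k0, k1, s)) (h1 : passOK h (4 * b + 1, k1, k2, s))
    (h2 : passOK h (4 * b + 2, k2, k3, s)) (h3 : passOK h (4 * b + 3, k3, k4, s)) :
    (s = true → h (4 * b, k0, 0) ≤ h (4 * (b + 1), k4, 0)) ∧
      (s = false → h (4 * (b + 1), k4, 0) ≤ h (4 * b, k0, 0)) := by
  have e0 : (4 * b + 0) % 2 = 0 := by omega
  have e1 : (4 * b + 1) % 2 = 1 := by omega
  have e2 : (4 * b + 2) % 2 = 0 := by omega
  have e3 : (4 * b + 3) % 2 = 1 := by omega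
  have e4 : 4 * (b + 1) = 4 * b + 3 + 1 := by ring
  rw [e4]
  unfold passOK low at h0 h1 h2 h3
  simp only [e0, e1, e2, e3] at h0 h1 h2 h3
  constructor
  · intro hs
    subst hs
    simp at h0 h1 h2 h3
    linarith
  · intro hs
    subst hs
    simp at h0 h1 h2 h3
    linarith

/-- A number in the open unit interval with the inequalities of a number in the closed one. -/
theorem vs0_move (n : ℕ) (w : ℕ → Bool) (u : ℕ → ℝ) (v₀ : ℝ) (h0 : 0 ≤ v₀) (h1 : v₀ ≤ 1)
    (hp : ∀ j < n, w j = true → v₀ < u j) (hm : ∀ j < n, w j = false → u j < v₀) :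
    ∃ v, 0 < v ∧ v < 1 ∧ (∀ j < n, w j = true → v < u j) ∧ (∀ j < n, w j = false → u j < v) := by
  have hcl : v₀ ∈ closure (Set.Ioo (0 : ℝ) 1) := by
    rw [closure_Ioo (by norm_num)]
    exact ⟨h0, h1⟩
  have hopen : IsOpen (⋂ j ∈ Finset.range n,
      {v : ℝ | (w j = true → v < u j) ∧ (w j = false → u j < v)}) := by
    refine isOpen_biInter_finset (fun j _ => ?_)
    cases hw : w j
    · have e : {v : ℝ | (false = true → v < u j) ∧ (false = false → u j < v)} = Set.Ioi (u j) := by
        ext v
        simp
      rw [e]
      exact isOpen_Ioi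
    · have e : {v : ℝ | (true = true → v < u j) ∧ (true = false → u j < v)} = Set.Iio (u j) := by
        ext v
        simp
      rw [e]
      exact isOpen_Iio
  have hmem : v₀ ∈ ⋂ j ∈ Finset.range n,
      {v : ℝ | (w j = true → v < u j) ∧ (w j = false → u j < v)} := by
    simp only [Set.mem_iInter, Finset.mem_range]
    exact fun j hj => ⟨hp j hj, hm j hj⟩
  obtain ⟨v, hv1, hv2⟩ := mem_closure_iff.1 hcl _ hopen hmem
  simp only [Set.mem_iInter, Finset.mem_range] at hv1
  exact ⟨v, hv2.1, hv2.2, fun j hj => (hv1 j hj).1, fun j hj => (hv1 j hj).2⟩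

theorem stepS0 {h : ℕ × ℕ × ℕ → ℝ} {b : ℕ} {S : List Bool} {I : ℕ × ℕ × ℕ × List Bool}
    (hk : I.1 = 0) (hI : WFI I S) (h01 : ∀ v, 0 ≤ h v ∧ h v ≤ 1) (hB : blkOK h (b, S, I)) :
    ∃ F', Rel I (fr h b S) F' ∧ Better F' (fr h (b + 1) (nextS I S)) := by
  obtain ⟨t, p, c, w⟩ := I
  simp only at hk
  subst hk
  have hp : p ≤ S.length := (WFI_pos hI).1
  have hpass := hB.1
  simp only at hpass
  -- the source
  have hsrc : ∀ j < w.length, passOK h (4 * b + 3, p, p + j, w.getD j false) := by
    intro j hj
    refine hpass _ (mem_bP.2 (Or.inl ⟨by simp, hp, j, hj, rfl⟩))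
  have hodd : (4 * b + 3) % 2 = 1 := by omega
  obtain ⟨v, hv0, hv1, hvp, hvm⟩ := vs0_move w.length (fun j => w.getD j false)
    (fun j => h (4 * b + 3 + 1, p + j, 0)) (1 - h (4 * b + 3, p, 0))
    (by linarith [(h01 (4 * b + 3, p, 0)).2]) (by linarith [(h01 (4 * b + 3, p, 0)).1])
    (fun j hj hw => by
      have h1 := hsrc j hj
      unfold passOK low at h1
      rw [hw] at h1
      simp only [hodd] at h1
      simp at h1
      linarith)
    (fun j hj hw => by
      have h1 := hsrc j hj
      unfold passOK low at h1
      rw [hw] at h1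
      simp only [hodd] at h1
      simp at h1
      linarith)
  -- the wires below the source
  have hlow : ∀ k < p, (S.getD k false = true → h (4 * b, k, 0) ≤ h (4 * (b + 1), k, 0)) ∧
      (S.getD k false = false → h (4 * (b + 1), k, 0) ≤ h (4 * b, k, 0)) := by
    intro k hk
    refine vs0_chain (k1 := k) (k2 := k) (k3 := k)
      (hpass _ (mem_bP.2 (Or.inr ⟨0, k, by norm_num, by omega, by omega, ?_, ?_⟩)))
      (hpass _ (mem_bP.2 (Or.inr ⟨1, k, by norm_num, by omega, by omega, ?_, ?_⟩)))
      (hpass _ (mem_bP.2 (Or.inr ⟨2, k, by norm_num, by omega, by omega, ?_, ?_⟩)))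
      (hpass _ (mem_bP.2 (Or.inr ⟨3, k, by norm_num, by omega,
        by change ¬ ((0 : ℕ) ≤ 1 ∧ (3 : ℕ) = 3 ∧ k = p); omega, ?_, ?_⟩)))
    · simp [has]
      omega
    · simp [tgt, sgn]
    · simp [has]
      omega
    · simp [tgt, sgn]
    · simp [has]
      omega
    · simp [tgt, sgn, hk]
    · simp [has]
      omega
    · have h1 : ¬ p < k := by omega
      simp [tgt, sgn, hk, h1]
  -- the wires above the source
  have hhigh : ∀ k, p ≤ k → k < S.length →
      (S.getD k false = true → h (4 * b, k, 0) ≤ h (4 * (b + 1), k + w.length, 0)) ∧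
      (S.getD k false = false → h (4 * (b + 1), k + w.length, 0) ≤ h (4 * b, k, 0)) := by
    intro k hpk hk
    have h1 : ¬ k < p := by omega
    have h2 : ¬ k + 1 < p := by omega
    have h3 : p < k + 1 := by omega
    refine vs0_chain (k1 := k) (k2 := k) (k3 := k + 1)
      (hpass _ (mem_bP.2 (Or.inr ⟨0, k, by norm_num, by omega, by omega, ?_, ?_⟩)))
      (hpass _ (mem_bP.2 (Or.inr ⟨1, k, by norm_num, by omega, by omega, ?_, ?_⟩)))
      (hpass _ (mem_bP.2 (Or.inr ⟨2, k, by norm_num, by omega, by omega, ?_, ?_⟩)))
      (hpass _ (mem_bP.2 (Or.inr ⟨3, k + 1, by norm_num, by omega,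
        by change ¬ ((0 : ℕ) ≤ 1 ∧ (3 : ℕ) = 3 ∧ k + 1 = p); omega, ?_, ?_⟩)))
    · simp [has]
      omega
    · simp [tgt, sgn]
    · simp [has]
      omega
    · simp [tgt, sgn]
    · simp [has]
      omega
    · simp [tgt, sgn, h1]
    · simp [has]
      omega
    · have h4 : k + 1 + w.length - 1 = k + w.length := by omega
      simp [tgt, sgn, h2, h3, h4]
  have hnext : nextS (0, p, c, w) S = S.take p ++ w ++ S.drop p := by
    simp [nextS]
  have htake : (S.take p).length = p := by
    rw [List.length_take]
    omega
  have htakeF : ((fr h b S).take p).length = p := by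
    rw [List.length_take, length_fr]
    omega
  refine ⟨(fr h b S).take p ++ w.map (fun s => (v, s)) ++ (fr h b S).drop p, ?_, ?_⟩
  · unfold Rel
    rw [if_pos rfl]
    exact ⟨(fr h b S).take p, (fr h b S).drop p, v, (List.take_append_drop p _).symm, htakeF,
      hv0, hv1, rfl⟩
  · rw [hnext]
    have hlen : (S.take p ++ w ++ S.drop p).length = S.length + w.length := by
      rw [List.length_append, List.length_append, htake, List.length_drop]
      omega
    refine vs0_better ?_ (fun i hi => ?_)
    · rw [length_fr, hlen, List.length_append, List.length_append, htakeF, List.length_map,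
        List.length_drop, length_fr]
      omega
    · rw [List.length_append, List.length_append, htakeF, List.length_map, List.length_drop,
        length_fr] at hi
      rw [vs0_getD_fr h (b + 1) _ (by rw [hlen]; omega), vs0_getD_app, vs0_getD_app, htake,
        htakeF, List.length_map]
      by_cases h1 : i < p
      · rw [if_pos h1, if_pos h1, vs0_getD_take _ _ h1, vs0_getD_take _ _ h1,
          vs0_getD_fr h b S (by omega)]
        exact ⟨rfl, (hlow i h1).1, (hlow i h1).2⟩
      · rw [if_neg h1, if_neg h1]
        by_cases h2 : i < p + w.length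
        · rw [if_pos h2, if_pos h2]
          have hj : i - p < w.length := by omega
          have e1 : (w.map (fun s => (v, s))).getD (i - p) (0, false) =
              (v, w.getD (i - p) false) := by
            rw [List.getD_eq_getElem _ _ (by rw [List.length_map]; exact hj), List.getElem_map,
              List.getD_eq_getElem _ _ hj]
          rw [e1]
          have e2 : (4 * (b + 1), i, 0) = (4 * b + 3 + 1, p + (i - p), 0) := by
            have e3 : p + (i - p) = i := by omega
            have e5 : 4 * (b + 1) = 4 * b + 3 + 1 := by ring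
            rw [e3, e5]
          refine ⟨rfl, fun hw => ?_, fun hw => ?_⟩
          · simp only [e2]
            exact (hvp (i - p) hj hw).le
          · simp only [e2]
            exact (hvm (i - p) hj hw).le
        · rw [if_neg h2, if_neg h2, vs0_getD_drop, vs0_getD_drop]
          have e3 : p + (i - (p + w.length)) = i - w.length := by omega
          rw [e3, vs0_getD_fr h b S (by omega)]
          have h4 := hhigh (i - w.length) (by omega) (by omega)
          have e4 : i - w.length + w.length = i := by omega
          rw [e4] at h4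
          exact ⟨rfl, h4.1, h4.2⟩

end Pool.Agent.H77.SG
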